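import Pool.Agent.Lib.MP_b6f35e_al.KA.SpecG

/-!
# folder KA, module AA2: from primitive generators to all generators (adapted from K2/AL2)
-/

set_option autoImplicit false

noncomputable section

namespace Pool.Agent.Lib.MPb6f35e.KA

open Pool.Agent.Lib.MPb6f35e.WH
open Pool.Agent.Lib.MPb6f35e.K2 (SpecLGG Supp)

universe u v

namespace AA2M

/-! ### supports and `OneModP` of powers -/

theorem supp_one {R : Type u} [CommRing R] {G : Type v} [Group G] (C : Subgroup G) :
    Supp C (1 : MonoidAlgebra R G) := by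
  classical
  intro g hg
  rw [MonoidAlgebra.one_def, MonoidAlgebra.coeff_single, Finsupp.single_apply] at hg
  by_cases h : (1 : G) = g
  · rw [← h]; exact one_mem C
  · rw [if_neg h] at hg; exact absurd rfl hg

theorem supp_mul {R : Type u} [CommRing R] {G : Type v} [Group G] {C : Subgroup G}
    {x y : MonoidAlgebra R G} (hx : Supp C x) (hy : Supp C y) : Supp C (x * y) := by
  classical
  intro g hg
  have h1 := MonoidAlgebra.support_coeff_mul_subset x y (Finsupp.mem_support_iff.2 hg)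
  obtain ⟨a, ha, b, hb, rfl⟩ := Finset.mem_mul.1 h1
  exact mul_mem (hx a (Finsupp.mem_support_iff.1 ha)) (hy b (Finsupp.mem_support_iff.1 hb))

theorem supp_pow {R : Type u} [CommRing R] {G : Type v} [Group G] {C : Subgroup G}
    {x : MonoidAlgebra R G} (hx : Supp C x) (k : ℕ) : Supp C (x ^ k) := by
  induction k with
  | zero => rw [pow_zero]; exact supp_one C
  | succ k ih => rw [pow_succ]; exact supp_mul ih hx

theorem one_mul_mod {p : ℕ} [Fact p.Prime] {C : Type v} [Group C] {x y : MonoidAlgebra ℤ_[p] C}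
    (hx : OneModP p x) (hy : OneModP p y) : OneModP p (x * y) := by
  obtain ⟨a, rfl⟩ := hx
  obtain ⟨b, rfl⟩ := hy
  refine ⟨a + b + (p : ℤ_[p]) • (a * b), ?_⟩
  simp only [smul_add, mul_add, add_mul, one_mul, mul_one, smul_mul_assoc, mul_smul_comm]
  abel

theorem one_one {p : ℕ} [Fact p.Prime] {C : Type v} [Group C] :
    OneModP p (1 : MonoidAlgebra ℤ_[p] C) := ⟨0, by simp⟩

theorem one_pow {p : ℕ} [Fact p.Prime] {C : Type v} [Group C] {x : MonoidAlgebra ℤ_[p] C}
    (hx : OneModP p x) (k : ℕ) : OneModP p (x ^ k) := by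
  induction k with
  | zero => rw [pow_zero]; exact one_one
  | succ k ih => rw [pow_succ]; exact one_mul_mod ih hx

theorem supp_map {R : Type u} [CommRing R] {S : Type*} [CommRing S] (i : R →+* S) {G : Type v}
    [Group G] {C : Subgroup G} {x : MonoidAlgebra R G} (hx : Supp C x) :
    Supp C (MonoidAlgebra.mapRingHom G i x) := by
  intro g hg
  refine hx g fun h => hg ?_
  simp [h]

/-! ### powers of a generator -/

section pw

variable {n : ℕ} {R : Type u} [CommRing R] {G : Type v} [Group G]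

/-- The generator `(C, z, u^k)`. -/
def pw (k : ℕ) (y : GenT n R G) : GenT n R G where
  C := y.C
  fin := y.fin
  cy := y.cy
  z := y.z
  hz := y.hz
  u := y.u ^ k
  hu := by
    constructor
    · have h : Supp y.C ((y.u ^ k).val) := by
        rw [Units.val_pow_eq_pow_val]; exact supp_pow y.hu.1 k
      exact h
    · have h : Supp y.C ((y.u ^ k).inv) := by
        have h1 : (y.u ^ k).inv = (y.u.inv) ^ k := by
          change ((y.u ^ k)⁻¹ : (MonoidAlgebra R G)ˣ).val = ((y.u⁻¹ : (MonoidAlgebra R G)ˣ).val) ^ k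
          rw [← inv_pow, Units.val_pow_eq_pow_val]
        rw [h1]; exact supp_pow y.hu.2 k
      exact h

theorem cls_pw (hTRA : SpecTRA.{u, v}) (k : ℕ) (y : GenT n R G) :
    D1.cls (RelT n R G) (pw k y) = k • D1.cls (RelT n R G) y := by
  rw [hTRA.zpowu n R G y (pw k y) (k : ℤ) rfl rfl (by rw [zpow_natCast]; rfl), natCast_zsmul]

theorem tsum_pw (hTRA : SpecTRA.{u, v}) (k : ℕ) (l : List (GenT n R G)) :
    tsum n R G (l.map (pw k)) = k • tsum n R G l := by
  unfold tsum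
  induction l with
  | nil => simp
  | cons y l ih =>
    simp only [List.map_cons, List.sum_cons, smul_add]
    rw [ih, cls_pw hTRA]

theorem tsum_append (l l' : List (GenT n R G)) :
    tsum n R G (l ++ l') = tsum n R G l + tsum n R G l' := by
  unfold tsum
  rw [List.map_append, List.sum_append]

end pw

section lg

variable {p : ℕ} [Fact p.Prime] {n : ℕ} {R₀ : Type u} [CommRing R₀] (i : R₀ →+* ℤ_[p]) {G : Type v}
  [Group G]

theorem one1_pw {y : GenT n R₀ G} (h : One1 p i y) (k : ℕ) : One1 p i (pw k y) := by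
  unfold One1 at h ⊢
  change OneModP p (MonoidAlgebra.mapRingHom G i ((y.u ^ k : (MonoidAlgebra R₀ G)ˣ) : MonoidAlgebra R₀ G))
  rw [Units.val_pow_eq_pow_val, map_pow]
  exact one_pow h k

theorem lg_one (hLGG : SpecLGG.{u, v}) (hp : p ≠ 2) (C : Subgroup G) (hC : IsCyclic C) (g : G) :
    lgP p (1 : MonoidAlgebra ℤ_[p] G) g = 0 := by
  have h := hLGG.mul p hp G C hC 1 1 (supp_one C) (supp_one C) one_one one_one g
  rw [mul_one] at h
  exact left_eq_add.1 h

theorem lgP_pow (hLGG : SpecLGG.{u, v}) (hp : p ≠ 2) (C : Subgroup G) (hC : IsCyclic C)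
    (x : MonoidAlgebra ℤ_[p] G) (hx : Supp C x) (h1 : OneModP p x) (k : ℕ) (g : G) :
    lgP p (x ^ k) g = (k : ℚ_[p]) * lgP p x g := by
  induction k with
  | zero => rw [pow_zero, lg_one hLGG hp C hC]; simp
  | succ k ih =>
    rw [pow_succ, hLGG.mul p hp G C hC _ _ (supp_pow hx k) hx (one_pow h1 k) h1 g, ih]
    push_cast
    ring

theorem lg_pw (hLGG : SpecLGG.{u, v}) (hp : p ≠ 2) {y : GenT n R₀ G} (h : One1 p i y) (k : ℕ)
    (g : G) : LG p i (pw k y) g = (k : ℚ_[p]) * LG p i y g := by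
  unfold LG
  change lgP p (MonoidAlgebra.mapRingHom G i ((y.u ^ k : (MonoidAlgebra R₀ G)ˣ) : MonoidAlgebra R₀ G)) g
    = _
  rw [Units.val_pow_eq_pow_val, map_pow]
  exact lgP_pow hLGG hp y.C y.cy _ (supp_map i y.hu.1) h k g

theorem prim_pw (hLGG : SpecLGG.{u, v}) (hp : p ≠ 2) {y : GenT n R₀ G} (h : One1 p i y)
    (h' : Prim p i y) (k : ℕ) : Prim p i (pw k y) := by
  intro g hg
  rw [lg_pw i hLGG hp h] at hg
  exact h' g (right_ne_zero_of_mul hg)

theorem sg_pw (hLGG : SpecLGG.{u, v}) (hp : p ≠ 2) {y : GenT n R₀ G} (h : One1 p i y) (k : ℕ)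
    (c : G) (X : Ch G → ℤ_[p]) : SG p i c X (pw k y) = (k : ℚ_[p]) * SG p i c X y := by
  unfold SG
  rw [mul_finsum]
  refine finsum_congr fun g => ?_
  rw [lg_pw i hLGG hp h]
  change ((ThC c X y.z g : ℤ_[p]) : ℚ_[p]) * _ = _
  ring

theorem sum_sg_pw (hLGG : SpecLGG.{u, v}) (hp : p ≠ 2) (l : List (GenT n R₀ G))
    (h : ∀ y ∈ l, One1 p i y) (k : ℕ) (c : G) (X : Ch G → ℤ_[p]) :
    ((l.map (pw k)).map fun y => SG p i c X y).sum =
      (k : ℚ_[p]) * (l.map fun y => SG p i c X y).sum := by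
  induction l with
  | nil => simp
  | cons y l ih =>
    simp only [List.map_cons, List.sum_cons, mul_add]
    rw [ih fun y hy => h y (List.mem_cons_of_mem _ hy), sg_pw i hLGG hp (h y List.mem_cons_self)]

theorem fin_supp (hLGG : SpecLGG.{u, v}) (hp : p ≠ 2) (y : GenT n R₀ G) (f : G → ℚ_[p]) :
    (Function.support fun g => f g * LG p i y g).Finite := by
  have := y.fin
  refine (Set.toFinite (y.C : Set G)).subset fun g hg => ?_
  by_contra hgC
  refine hg ?_
  change f g * LG p i y g = 0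
  unfold LG
  rw [hLGG.out p hp G y.C _ (supp_map i y.hu.1) g hgC, mul_zero]

theorem finsum_list {ι : Type*} {M : Type*} [AddCommMonoid M] {α : Type*} (l : List α)
    (f : α → ι → M) (h : ∀ a ∈ l, (Function.support (f a)).Finite) :
    (Function.support fun g => (l.map fun a => f a g).sum).Finite ∧
      ∑ᶠ g, (l.map fun a => f a g).sum = (l.map fun a => ∑ᶠ g, f a g).sum := by
  induction l with
  | nil => simp
  | cons y l ih =>
    obtain ⟨h1, h2⟩ := ih fun a ha => h a (List.mem_cons_of_mem _ ha)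
    have h3 := h y List.mem_cons_self
    simp only [List.map_cons, List.sum_cons]
    refine ⟨(h3.union h1).subset ?_, ?_⟩
    · exact Function.support_add _ _
    · rw [finsum_add_distrib h3 h1, h2]

/-- The value of `SG` on the list of `MOB`. -/
theorem sum_sg (hLGG : SpecLGG.{u, v}) (hp : p ≠ 2) (y : GenT n R₀ G) (m : ℕ)
    (l : List (GenT n R₀ G)) (hz : ∀ a ∈ l, a.z = y.z)
    (hl : ∀ g, (l.map fun a => LG p i a g).sum = (m : ℚ_[p]) * LG p i y g)
    (c : G) (X : Ch G → ℤ_[p]) :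
    (l.map fun a => SG p i c X a).sum = (m : ℚ_[p]) * SG p i c X y := by
  have h1 := (finsum_list l (fun a g => ((ThC c X y.z g : ℤ_[p]) : ℚ_[p]) * LG p i a g)
    fun a _ => fin_supp i hLGG hp a _).2
  have h2 : (l.map fun a => SG p i c X a) =
      l.map fun a => ∑ᶠ g, ((ThC c X y.z g : ℤ_[p]) : ℚ_[p]) * LG p i a g := by
    refine List.map_congr_left fun a ha => ?_
    unfold SG
    rw [hz a ha]
  rw [h2, ← h1]
  unfold SG
  rw [mul_finsum]
  refine finsum_congr fun g => ?_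
  rw [List.sum_map_mul_left, hl g]
  ring

end lg

/-- The list of primitive generators. -/
theorem exists_list (hMBA : SpecMBA.{u, v}) (hTRA : SpecTRA.{u, v}) (hLGG : SpecLGG.{u, v})
    (p : ℕ) [Fact p.Prime] (hp : p ≠ 2) (n : ℕ) (R₀ : Type u) [CommRing R₀] (i : R₀ →+* ℤ_[p])
    (G : Type v) [Group G] (l : List (GenT n R₀ G)) (hl : ∀ y ∈ l, One1 p i y) :
    ∃ (m : ℕ) (l' : List (GenT n R₀ G)), 0 < m ∧ m • tsum n R₀ G l = tsum n R₀ G l' ∧
      (∀ a ∈ l', (∃ y ∈ l, a.C ≤ y.C) ∧ One1 p i a ∧ Prim p i a) ∧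
      ∀ (c : G) (X : Ch G → ℤ_[p]), (l'.map fun a => SG p i c X a).sum =
        (m : ℚ_[p]) * (l.map fun a => SG p i c X a).sum := by
  induction l with
  | nil => exact ⟨1, [], one_pos, by simp [tsum], by simp, by simp⟩
  | cons y l ih =>
    obtain ⟨m₂, l₂, hm₂, ht₂, ha₂, hs₂⟩ := ih fun y hy => hl y (List.mem_cons_of_mem _ hy)
    obtain ⟨m₁, l₁, hm₁, ht₁, ha₁, hs₁⟩ := hMBA p hp n R₀ i G y (hl y List.mem_cons_self)
    refine ⟨m₁ * m₂, l₁.map (pw m₂) ++ l₂.map (pw m₁), Nat.mul_pos hm₁ hm₂, ?_, ?_, ?_⟩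
    · rw [tsum_append, tsum_pw hTRA, tsum_pw hTRA, ← ht₁, ← ht₂]
      have h : tsum n R₀ G (y :: l) = D1.cls (RelT n R₀ G) y + tsum n R₀ G l := by
        unfold tsum
        rw [List.map_cons, List.sum_cons]
      rw [h, smul_add, smul_smul, smul_smul, mul_comm m₂ m₁]
    · intro a ha
      rcases List.mem_append.1 ha with ha | ha
      · obtain ⟨b, hb, rfl⟩ := List.mem_map.1 ha
        obtain ⟨h1, -, h2, h3⟩ := ha₁ b hb
        exact ⟨⟨y, List.mem_cons_self, h1⟩, one1_pw i h2 _, prim_pw i hLGG hp h2 h3 _⟩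
      · obtain ⟨b, hb, rfl⟩ := List.mem_map.1 ha
        obtain ⟨⟨z, hz, h1⟩, h2, h3⟩ := ha₂ b hb
        exact ⟨⟨z, List.mem_cons_of_mem _ hz, h1⟩, one1_pw i h2 _, prim_pw i hLGG hp h2 h3 _⟩
    · intro c X
      rw [List.map_append, List.sum_append, sum_sg_pw i hLGG hp l₁ (fun b hb => (ha₁ b hb).2.2.1),
        sum_sg_pw i hLGG hp l₂ (fun b hb => (ha₂ b hb).2.1),
        sum_sg i hLGG hp y m₁ l₁ (fun b hb => (ha₁ b hb).2.1) hs₁, hs₂, List.map_cons,
        List.sum_cons]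
      push_cast
      ring

end AA2M

open AA2M in
/-- Module AA2. -/
theorem specAA2 (hAA3 : SpecAA3.{u, v}) (hMBA : SpecMBA.{u, v}) (hTRA : SpecTRA.{u, v})
    (hLGG : SpecLGG.{u, v}) : SpecAA2.{u, v} := by
  intro p _ hp n R₀ _ i hi G _ l hl hS
  obtain ⟨m, l', hm, ht, ha, hs⟩ := exists_list hMBA hTRA hLGG p hp n R₀ i G l hl
  obtain ⟨k, hk, hk'⟩ := hAA3 p hp n R₀ i hi G l' (fun a h => (ha a h).2) (fun c X hc hX => by
    rw [hs c X, hS c X hc hX, mul_zero])
  refine ⟨k * m, Nat.mul_pos hk hm, ?_⟩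
  rw [mul_smul, ht]
  refine AddSubgroup.closure_mono ?_ hk'
  rintro _ ⟨x, ⟨a, hal, hxa⟩, hx, rfl⟩
  obtain ⟨⟨y, hy, hay⟩, -⟩ := ha a hal
  exact ⟨x, ⟨y, hy, hxa ▸ hay⟩, hx, rfl⟩

end Pool.Agent.Lib.MPb6f35e.KA
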