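import Pool.Agent.Lib.MP_b6f35e_al.KA.SpecE

/-!
# Rational K-theory in all degrees (MP_b6f35e_al), module CRS: cross products with `[x]`
-/

set_option autoImplicit false

noncomputable section

namespace Pool.Agent.Lib.MPb6f35e.KA

universe u v w

namespace CRSM

section lin

variable {X : Type u} {M : Type v} [AddCommGroup M]

theorem tl_add [Mul X] (l : List X) : ∀ F G : List X → M,
    tl (fun m => F m + G m) l = tl F l + tl G l := by
  induction l with
  | nil => intro F G; simp [tl]
  | cons x l ih =>
    intro F G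
    cases l with
    | nil => rfl
    | cons y l =>
      rw [tl, tl, tl, ih (fun m => F (x :: m)) (fun m => G (x :: m))]
      abel

theorem tl_sub [Mul X] (l : List X) : ∀ F G : List X → M,
    tl (fun m => F m - G m) l = tl F l - tl G l := by
  induction l with
  | nil => intro F G; simp [tl]
  | cons x l ih =>
    intro F G
    cases l with
    | nil => rfl
    | cons y l =>
      rw [tl, tl, tl, ih (fun m => F (x :: m)) (fun m => G (x :: m))]
      abel

theorem ins_sub (l : List X) : ∀ (F G : List X → M) (x : X),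
    ins (fun m => F m - G m) x l = ins F x l - ins G x l := by
  induction l with
  | nil => intro F G x; rfl
  | cons y l ih =>
    intro F G x
    rw [ins, ins, ins, ih (fun m => F (y :: m)) (fun m => G (y :: m))]
    abel

theorem ins2_sub (l : List X) : ∀ (F G : List X → M) (x x' : X),
    ins2 (fun m => F m - G m) x x' l = ins2 F x x' l - ins2 G x x' l := by
  induction l with
  | nil => intro F G x x'; rfl
  | cons y l ih =>
    intro F G x x'
    rw [ins2, ins2, ins2, ih (fun m => F (y :: m)) (fun m => G (y :: m)),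
      ins_sub (y :: l) (fun m => F (x :: m)) (fun m => G (x :: m))]
    abel

theorem tl_map {M' : Type w} [AddCommGroup M'] [Mul X] (f : M →+ M') (l : List X) :
    ∀ F : List X → M, tl (fun m => f (F m)) l = f (tl F l) := by
  induction l with
  | nil => intro F; simp [tl]
  | cons x l ih =>
    intro F
    cases l with
    | nil => rfl
    | cons y l =>
      rw [tl, tl, ih (fun m => F (x :: m)), map_sub]

theorem bdF_map {M' : Type w} [AddCommGroup M'] [Mul X] (f : M →+ M') (F : List X → M)
    (l : List X) : bdF (fun m => f (F m)) l = f (bdF F l) := by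
  cases l with
  | nil => simp [bdF]
  | cons x l => rw [bdF, bdF, tl_map, map_sub]

theorem ins_map {M' : Type w} [AddCommGroup M'] (f : M →+ M') (l : List X) :
    ∀ (F : List X → M) (x : X), ins (fun m => f (F m)) x l = f (ins F x l) := by
  induction l with
  | nil => intro F x; rfl
  | cons y l ih =>
    intro F x
    rw [ins, ins, ih (fun m => F (y :: m)), map_sub]

theorem ins2_map {M' : Type w} [AddCommGroup M'] (f : M →+ M') (l : List X) :
    ∀ (F : List X → M) (x x' : X), ins2 (fun m => f (F m)) x x' l = f (ins2 F x x' l) := by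
  induction l with
  | nil => intro F x x'; rfl
  | cons y l ih =>
    intro F x x'
    rw [ins2, ins2, ih (fun m => F (y :: m)), ins_map f (y :: l) (fun m => F (x :: m)), map_add]

end lin

/-- `[b, ..] ↦ ins (F ∘ b) x [..]` -/
def J {X : Type u} {M : Type v} [AddCommGroup M] (F : List X → M) (x : X) : List X → M
  | [] => 0
  | b :: m => ins (fun l => F (b :: l)) x m

/-- `[b, ..] ↦ ins2 (F ∘ b) x x' [..]` -/
def J2 {X : Type u} {M : Type v} [AddCommGroup M] (F : List X → M) (x x' : X) : List X → M
  | [] => 0
  | b :: m => ins2 (fun l => F (b :: l)) x x' m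

section main

variable {X : Type u} {M : Type v} [AddCommGroup M]

theorem ins_eq (F : List X → M) (x : X) : ins F x = fun m => F (x :: m) - J F x m := by
  funext m
  cases m with
  | nil => simp [ins, J]
  | cons b m => rfl

theorem ins2_eq (F : List X → M) (x x' : X) :
    ins2 F x x' = fun m => ins (fun l => F (x :: l)) x' m + J2 F x x' m := by
  funext m
  cases m with
  | nil => simp [ins2, J2, ins]
  | cons b m => rfl

theorem lem1 [Group X] (x : X) (l : List X) : ∀ (F : List X → M) (a : X),
    (∀ g ∈ l, x * g = g * x) →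
    ins (fun m => tl F (a :: m)) x l = F ((a * x) :: l) - F (a :: l) - tl (J F x) (a :: l) := by
  induction l with
  | nil =>
    intro F a _
    simp [ins, tl, J]
  | cons g l ih =>
    intro F a hl
    have h1 : ins (fun m => tl F (a :: g :: m)) x l =
        ins (fun m => F ((a * g) :: m)) x l -
          ins (fun m => tl (fun l' => F (a :: l')) (g :: m)) x l :=
      ins_sub l (fun m => F ((a * g) :: m)) (fun m => tl (fun l' => F (a :: l')) (g :: m)) x
    have h2 := ih (fun l' => F (a :: l')) g (fun g' hg' => hl g' (List.mem_cons_of_mem _ hg'))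
    have h3 : tl (fun l' => F (a :: x :: l')) (g :: l) =
        tl (ins (fun l' => F (a :: l')) x) (g :: l) + tl (J (fun l' => F (a :: l')) x) (g :: l) := by
      rw [ins_eq, ← tl_add]
      simp
    have h4 := hl g List.mem_cons_self
    have e1 : ins (fun m => tl F (a :: m)) x (g :: l) =
        tl F (a :: x :: g :: l) - ins (fun m => tl F (a :: g :: m)) x l := rfl
    have e2 : tl F (a :: x :: g :: l) = F ((a * x) :: g :: l) -
        (F (a :: (x * g) :: l) - tl (fun l' => F (a :: x :: l')) (g :: l)) := rfl
    have e3 : tl (J F x) (a :: g :: l) = ins (fun m => F ((a * g) :: m)) x l -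
        tl (ins (fun l' => F (a :: l')) x) (g :: l) := rfl
    rw [e1, e2, h1, h2, e3, h3, h4]
    abel

theorem ins_bdF [Group X] (x : X) (F : List X → M) (l : List X) (hl : ∀ g ∈ l, x * g = g * x) :
    ins (bdF F) x l = - bdF (ins F x) l := by
  cases l with
  | nil => simp [ins, bdF, tl]
  | cons g l =>
    have h1 : ins (fun m => bdF F (g :: m)) x l =
        ins F x l - ins (fun m => tl F (g :: m)) x l :=
      ins_sub l F (fun m => tl F (g :: m)) x
    have h2 := lem1 x l F g (fun g' hg' => hl g' (List.mem_cons_of_mem _ hg'))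
    have h3 : tl (fun l' => F (x :: l')) (g :: l) =
        tl (ins F x) (g :: l) + tl (J F x) (g :: l) := by
      rw [ins_eq, ← tl_add]
      simp
    have h4 := hl g List.mem_cons_self
    have e1 : ins (bdF F) x (g :: l) =
        (F (g :: l) - (F ((x * g) :: l) - tl (fun l' => F (x :: l')) (g :: l))) -
          ins (fun m => bdF F (g :: m)) x l := rfl
    have e2 : bdF (ins F x) (g :: l) = ins F x l - tl (ins F x) (g :: l) := rfl
    rw [e1, e2, h1, h2, h3, h4]
    abel

theorem lem2 [Group X] (x x' : X) (l : List X) :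
    ∀ (F : List X → M) (a : X), (∀ g ∈ l, x * g = g * x) → (∀ g ∈ l, x' * g = g * x') →
    ins2 (fun m => tl F (a :: m)) x x' l = ins (fun m => F ((a * x) :: m)) x' l -
      ins (fun m => F (a :: m)) (x * x') l + ins (fun m => F (a :: m)) x l +
      tl (J2 F x x') (a :: l) := by
  induction l with
  | nil =>
    intro F a _ _
    simp [ins, ins2, tl, J2]
    abel
  | cons g l ih =>
    intro F a hl hl'
    have h4 := hl g List.mem_cons_self
    have h4' := hl' g List.mem_cons_self
    have e1 : ins2 (fun m => tl F (a :: m)) x x' (g :: l) =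
        ins (fun m => tl F (a :: x :: m)) x' (g :: l) +
          ins2 (fun m => tl F (a :: g :: m)) x x' l := rfl
    have e2 : ins (fun m => tl F (a :: x :: m)) x' (g :: l) =
        ins (fun m => F ((a * x) :: m)) x' (g :: l) -
          ins (fun m => tl (fun l' => F (a :: l')) (x :: m)) x' (g :: l) :=
      ins_sub (g :: l) (fun m => F ((a * x) :: m)) (fun m => tl (fun l' => F (a :: l')) (x :: m)) x'
    have e3 := lem1 x' (g :: l) (fun l' => F (a :: l')) x hl'
    have e4 : tl (J (fun l' => F (a :: l')) x') (x :: g :: l) =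
        ins (fun m => F (a :: (x * g) :: m)) x' l -
          tl (ins (fun l' => F (a :: x :: l')) x') (g :: l) := rfl
    have e5 : ins2 (fun m => tl F (a :: g :: m)) x x' l =
        ins2 (fun m => F ((a * g) :: m)) x x' l -
          ins2 (fun m => tl (fun l' => F (a :: l')) (g :: m)) x x' l :=
      ins2_sub l (fun m => F ((a * g) :: m)) (fun m => tl (fun l' => F (a :: l')) (g :: m)) x x'
    have e6 := ih (fun l' => F (a :: l')) g (fun g' hg' => hl g' (List.mem_cons_of_mem _ hg'))
      (fun g' hg' => hl' g' (List.mem_cons_of_mem _ hg'))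
    have e7 : ins (fun m => F (a :: m)) (x * x') (g :: l) =
        F (a :: (x * x') :: g :: l) - ins (fun m => F (a :: g :: m)) (x * x') l := rfl
    have e8 : ins (fun m => F (a :: m)) x (g :: l) =
        F (a :: x :: g :: l) - ins (fun m => F (a :: g :: m)) x l := rfl
    have e9 : tl (J2 F x x') (a :: g :: l) = ins2 (fun m => F ((a * g) :: m)) x x' l -
        tl (ins2 (fun l' => F (a :: l')) x x') (g :: l) := rfl
    have e10 : tl (ins2 (fun l' => F (a :: l')) x x') (g :: l) =
        tl (ins (fun l' => F (a :: x :: l')) x') (g :: l) +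
          tl (J2 (fun l' => F (a :: l')) x x') (g :: l) := by
      rw [ins2_eq, ← tl_add]
    rw [e1, e2, e3, e4, e5, e6, e7, e8, e9, e10, h4]
    abel

theorem ins2_bdF [Group X] (x x' : X) (F : List X → M) (l : List X)
    (hl : ∀ g ∈ l, x * g = g * x) (hl' : ∀ g ∈ l, x' * g = g * x') :
    ins2 (bdF F) x x' l = ins F x' l - ins F (x * x') l + ins F x l + bdF (ins2 F x x') l := by
  cases l with
  | nil =>
    simp [ins, ins2, bdF, tl]
    abel
  | cons g l =>
    have h4 := hl g List.mem_cons_self
    have e1 : ins2 (bdF F) x x' (g :: l) = ins (fun m => bdF F (x :: m)) x' (g :: l) +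
        ins2 (fun m => bdF F (g :: m)) x x' l := rfl
    have e2 : ins (fun m => bdF F (x :: m)) x' (g :: l) =
        ins F x' (g :: l) - ins (fun m => tl F (x :: m)) x' (g :: l) :=
      ins_sub (g :: l) F (fun m => tl F (x :: m)) x'
    have e3 := lem1 x' (g :: l) F x hl'
    have e4 : tl (J F x') (x :: g :: l) = ins (fun m => F ((x * g) :: m)) x' l -
        tl (ins (fun l' => F (x :: l')) x') (g :: l) := rfl
    have e5 : ins2 (fun m => bdF F (g :: m)) x x' l =
        ins2 F x x' l - ins2 (fun m => tl F (g :: m)) x x' l :=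
      ins2_sub l F (fun m => tl F (g :: m)) x x'
    have e6 := lem2 x x' l F g (fun g' hg' => hl g' (List.mem_cons_of_mem _ hg'))
      (fun g' hg' => hl' g' (List.mem_cons_of_mem _ hg'))
    have e7 : ins F (x * x') (g :: l) =
        F ((x * x') :: g :: l) - ins (fun m => F (g :: m)) (x * x') l := rfl
    have e8 : ins F x (g :: l) = F (x :: g :: l) - ins (fun m => F (g :: m)) x l := rfl
    have e9 : bdF (ins2 F x x') (g :: l) = ins2 F x x' l - tl (ins2 F x x') (g :: l) := rfl
    have e10 : tl (ins2 F x x') (g :: l) = tl (ins (fun l' => F (x :: l')) x') (g :: l) +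
          tl (J2 F x x') (g :: l) := by
      rw [ins2_eq, ← tl_add]
    rw [e1, e2, e3, e4, e5, e6, e7, e8, e9, e10, h4]
    abel

end main

/-! ### chains -/

section chains

variable {X : Type u}

theorem ch_ind {n : ℕ} {P : X → Prop} {M : Type v} [AddCommGroup M] (f g : Ch X →+ M)
    (h : ∀ l : List X, l.length = n → (∀ x ∈ l, P x) →
      f (FreeAbelianGroup.of l) = g (FreeAbelianGroup.of l)) (z : Ch X) (hz : z ∈ ch n P) :
    f z = g z := by
  refine AddSubgroup.closure_induction (p := fun z _ => f z = g z) ?_ ?_ ?_ ?_ hz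
  · rintro y ⟨l, h1, h2, rfl⟩
    exact h l h1 h2
  · rw [map_zero, map_zero]
  · intro a b _ _ ha hb
    rw [map_add, map_add, ha, hb]
  · intro a _ ha
    rw [map_neg, map_neg, ha]

theorem ch_map {n m : ℕ} {P : X → Prop} {Y : Type v} {Q : Y → Prop} (f : Ch X →+ Ch Y)
    (h : ∀ l : List X, l.length = n → (∀ x ∈ l, P x) → f (FreeAbelianGroup.of l) ∈ ch m Q)
    (z : Ch X) (hz : z ∈ ch n P) : f z ∈ ch m Q := by
  have h1 : ch n P ≤ (ch m Q).comap f := by
    unfold ch
    rw [AddSubgroup.closure_le]
    rintro y ⟨l, h1, h2, rfl⟩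
    exact h l h1 h2
  exact h1 hz

theorem of_mem {n : ℕ} {P : X → Prop} (l : List X) (h : l.length = n) (h' : ∀ x ∈ l, P x) :
    FreeAbelianGroup.of l ∈ ch n P := AddSubgroup.subset_closure ⟨l, h, h', rfl⟩

theorem ins_mem {n : ℕ} {P : X → Prop} (x : X) (hx : P x) (l : List X) :
    ∀ (F : List X → Ch X) (k : ℕ), (∀ m : List X, m.length + k = n → (∀ y ∈ m, P y) →
      F m ∈ ch n P) → l.length + 1 + k = n → (∀ y ∈ l, P y) → ins F x l ∈ ch n P := by
  induction l with
  | nil =>
    intro F k hF h1 h2
    exact hF [x] (by simpa using h1) (by simpa using hx)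
  | cons g l ih =>
    intro F k hF h1 h2
    rw [ins]
    refine sub_mem (hF _ ?_ ?_) (ih (fun l' => F (g :: l')) (k + 1) ?_ ?_ ?_)
    · simp only [List.length_cons] at h1 ⊢
      omega
    · intro y hy
      rcases List.mem_cons.1 hy with rfl | hy
      · exact hx
      · exact h2 y hy
    · intro m hm hm'
      refine hF _ (by simp only [List.length_cons]; omega) ?_
      intro y hy
      rcases List.mem_cons.1 hy with rfl | hy
      · exact h2 _ List.mem_cons_self
      · exact hm' y hy
    · simp only [List.length_cons] at h1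
      omega
    · intro y hy
      exact h2 y (List.mem_cons_of_mem _ hy)

theorem ins2_mem {n : ℕ} {P : X → Prop} (x x' : X) (hx : P x) (hx' : P x') (l : List X) :
    ∀ (F : List X → Ch X) (k : ℕ), (∀ m : List X, m.length + k = n → (∀ y ∈ m, P y) →
      F m ∈ ch n P) → l.length + 2 + k = n → (∀ y ∈ l, P y) → ins2 F x x' l ∈ ch n P := by
  induction l with
  | nil =>
    intro F k hF h1 h2
    refine hF [x, x'] (by simpa using h1) ?_
    intro y hy
    simp only [List.mem_cons, List.not_mem_nil, or_false] at hy
    rcases hy with rfl | rfl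
    · exact hx
    · exact hx'
  | cons g l ih =>
    intro F k hF h1 h2
    rw [ins2]
    refine add_mem (ins_mem x' hx' (g :: l) _ (k + 1) ?_ ?_ h2)
      (ih (fun l' => F (g :: l')) (k + 1) ?_ ?_ ?_)
    · intro m hm hm'
      refine hF _ (by simp only [List.length_cons]; omega) ?_
      intro y hy
      rcases List.mem_cons.1 hy with rfl | hy
      · exact hx
      · exact hm' y hy
    · simp only [List.length_cons] at h1 ⊢
      omega
    · intro m hm hm'
      refine hF _ (by simp only [List.length_cons]; omega) ?_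
      intro y hy
      rcases List.mem_cons.1 hy with rfl | hy
      · exact h2 _ List.mem_cons_self
      · exact hm' y hy
    · simp only [List.length_cons] at h1
      omega
    · intro y hy
      exact h2 y (List.mem_cons_of_mem _ hy)

theorem lift_bd [Mul X] {M : Type v} [AddCommGroup M] (F : List X → M) (z : Ch X) :
    FreeAbelianGroup.lift F (KA.bd z) = FreeAbelianGroup.lift (bdF F) z := by
  have h : (FreeAbelianGroup.lift F).comp KA.bd = FreeAbelianGroup.lift (bdF F) := by
    refine FreeAbelianGroup.lift_ext _ _ ?_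
    intro l
    rw [AddMonoidHom.comp_apply, KA.bd, FreeAbelianGroup.lift_apply_of,
      FreeAbelianGroup.lift_apply_of, ← bdF_map]
    congr 1
    funext m
    rw [FreeAbelianGroup.lift_apply_of]
  exact DFunLike.congr_fun h z

/-- the homomorphism `l ↦ ins2 of x x' l` -/
def crs2 (x x' : X) : Ch X →+ Ch X := FreeAbelianGroup.lift (ins2 FreeAbelianGroup.of x x')

theorem bd_crs [Group X] (n : ℕ) (x : X) (z : Ch X) (hz : z ∈ ch n (fun g => x * g = g * x)) :
    KA.bd (crs x z) = - crs x (KA.bd z) := by
  have h := ch_ind (n := n) (P := fun g => x * g = g * x) (M := Ch X)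
    ((KA.bd : Ch X →+ Ch X).comp (crs x)) (-((crs x).comp (KA.bd : Ch X →+ Ch X))) ?_ z hz
  · exact h
  · intro l _ hl
    rw [AddMonoidHom.neg_apply, AddMonoidHom.comp_apply, AddMonoidHom.comp_apply]
    have h1 : crs x (KA.bd (FreeAbelianGroup.of l)) = bdF (ins FreeAbelianGroup.of x) l := by
      rw [crs, lift_bd, FreeAbelianGroup.lift_apply_of]
    have h2 : KA.bd (crs x (FreeAbelianGroup.of l)) = ins (bdF FreeAbelianGroup.of) x l := by
      rw [crs, FreeAbelianGroup.lift_apply_of, ← ins_map (KA.bd : Ch X →+ Ch X)]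
      congr 1
      funext m
      rw [KA.bd, FreeAbelianGroup.lift_apply_of]
    rw [h1, h2, ins_bdF x _ l hl]

theorem bd_crs2 [Group X] (n : ℕ) (x x' : X) (P : X → Prop) (z : Ch X)
    (hz : z ∈ ch n (fun g => P g ∧ x * g = g * x ∧ x' * g = g * x')) :
    KA.bd (crs2 x x' z) = crs x' z - crs (x * x') z + crs x z + crs2 x x' (KA.bd z) := by
  have h := ch_ind (n := n) (P := fun g => P g ∧ x * g = g * x ∧ x' * g = g * x')
    (M := Ch X) ((KA.bd : Ch X →+ Ch X).comp (crs2 x x'))
    (crs x' - crs (x * x') + crs x + (crs2 x x').comp (KA.bd : Ch X →+ Ch X)) ?_ z hz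
  · exact h
  · intro l _ hl
    rw [AddMonoidHom.add_apply, AddMonoidHom.add_apply, AddMonoidHom.sub_apply,
      AddMonoidHom.comp_apply, AddMonoidHom.comp_apply]
    have h1 : crs2 x x' (KA.bd (FreeAbelianGroup.of l)) =
        bdF (ins2 FreeAbelianGroup.of x x') l := by
      rw [crs2, lift_bd, FreeAbelianGroup.lift_apply_of]
    have h2 : KA.bd (crs2 x x' (FreeAbelianGroup.of l)) =
        ins2 (bdF FreeAbelianGroup.of) x x' l := by
      rw [crs2, FreeAbelianGroup.lift_apply_of, ← ins2_map (KA.bd : Ch X →+ Ch X)]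
      congr 1
      funext m
      rw [KA.bd, FreeAbelianGroup.lift_apply_of]
    have h3 : ∀ y, crs y (FreeAbelianGroup.of l) = ins FreeAbelianGroup.of y l := by
      intro y
      rw [crs, FreeAbelianGroup.lift_apply_of]
    rw [h1, h2, h3, h3, h3, ins2_bdF x x' _ l (fun g hg => (hl g hg).2.1)
      (fun g hg => (hl g hg).2.2)]

theorem ins_nat {Y : Type v} {M : Type w} [AddCommGroup M] (f : X → Y) (l : List X) :
    ∀ (F : List Y → M) (x : X),
      ins F (f x) (l.map f) = ins (fun m => F (m.map f)) x l := by
  induction l with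
  | nil => intro F x; rfl
  | cons g l ih =>
    intro F x
    have h := ih (fun l' => F (f g :: l')) x
    show F (f x :: f g :: l.map f) - ins (fun l' => F (f g :: l')) (f x) (l.map f) =
      F (f x :: f g :: l.map f) - ins (fun m => F (f g :: m.map f)) x l
    rw [h]

end chains

end CRSM

open CRSM

/-- CRS -/
theorem specCRS (_ : SpecALT.{u, v, w}) : SpecCRS.{u, v} where
  bd := fun X _ n x z hz => bd_crs n x z hz
  mul := by
    intro X _ n P x x' hP hP' _ z hz
    obtain ⟨h1, h2⟩ := AddSubgroup.mem_inf.1 hz
    have h3 := bd_crs2 n x x' P z h1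
    rw [(AddMonoidHom.mem_ker).1 h2, map_zero] at h3
    refine ⟨- crs2 x x' z, neg_mem ?_, ?_⟩
    · refine ch_map (crs2 x x') ?_ z h1
      intro l hl hl'
      rw [crs2, FreeAbelianGroup.lift_apply_of]
      exact ins2_mem x x' hP hP' l _ 0 (fun m hm hm' => of_mem m (by simpa using hm) hm')
        (by omega) (fun y hy => (hl' y hy).1)
    · rw [map_neg, h3]
      abel
  mem := by
    intro X n P x hP z hz
    refine ch_map (crs x) ?_ z hz
    intro l hl hl'
    rw [crs, FreeAbelianGroup.lift_apply_of]
    exact ins_mem x hP l _ 0 (fun m hm hm' => of_mem m (by simpa using hm) hm') (by omega) hl'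
  nat := by
    intro X Y f x z
    have h : (cmap f).comp (crs x) = (crs (f x)).comp (cmap f) := by
      refine FreeAbelianGroup.lift_ext _ _ ?_
      intro l
      rw [AddMonoidHom.comp_apply, AddMonoidHom.comp_apply, crs, crs,
        FreeAbelianGroup.lift_apply_of, cmap, FreeAbelianGroup.map_of_apply,
        FreeAbelianGroup.lift_apply_of, ins_nat,
        ← ins_map (FreeAbelianGroup.map (List.map f))]
      rfl
    exact DFunLike.congr_fun h z

end Pool.Agent.Lib.MPb6f35e.KA
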