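import Pool.Agent.Lib.MP_b6f35e_al.KA.SpecE

/-!
# Rational K-theory in all degrees (MP_b6f35e_al), module TRV: cycles with all entries `1`
-/

set_option autoImplicit false

noncomputable section

namespace Pool.Agent.Lib.MPb6f35e.KA

universe u v w

namespace TRVM

section nat

variable {X : Type u} {Y : Type v} {M : Type w} [Mul X] [Mul Y] [AddCommGroup M]

theorem tl_nat (f : X → Y) (hf : ∀ x y, f (x * y) = f x * f y) (l : List X) :
    ∀ F : List Y → M, tl F (l.map f) = tl (fun m => F (m.map f)) l := by
  induction l with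
  | nil => intro F; rfl
  | cons x l ih =>
    intro F
    cases l with
    | nil => rfl
    | cons y l =>
      have h := ih (fun l' => F (f x :: l'))
      show F ((f x * f y) :: l.map f) - tl (fun l' => F (f x :: l')) ((y :: l).map f) =
        F (f (x * y) :: l.map f) - tl (fun m => F (f x :: m.map f)) (y :: l)
      rw [h, hf]

theorem bdF_nat (f : X → Y) (hf : ∀ x y, f (x * y) = f x * f y) (F : List Y → M) (l : List X) :
    bdF F (l.map f) = bdF (fun m => F (m.map f)) l := by
  cases l with
  | nil => rfl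
  | cons x l =>
    show F (l.map f) - tl F ((x :: l).map f) =
      F (l.map f) - tl (fun m => F (m.map f)) (x :: l)
    rw [tl_nat f hf]

end nat

theorem bd_cmap {X : Type u} {Y : Type v} [Mul X] [Mul Y] (f : X → Y)
    (hf : ∀ x y, f (x * y) = f x * f y) (z : Ch X) : bd (cmap f z) = cmap f (bd z) := by
  have h : (bd : Ch Y →+ Ch Y).comp (cmap f) = (cmap f).comp (bd : Ch X →+ Ch X) := by
    refine FreeAbelianGroup.lift_ext _ _ ?_
    intro l
    have h1 : cmap f (FreeAbelianGroup.of l) = FreeAbelianGroup.of (l.map f) :=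
      FreeAbelianGroup.map_of_apply l
    have h2 : ∀ l' : List Y, bd (FreeAbelianGroup.of l') = bdF FreeAbelianGroup.of l' := by
      intro l'
      rw [bd, FreeAbelianGroup.lift_apply_of]
    have h3 : bd (FreeAbelianGroup.of l) = bdF FreeAbelianGroup.of l := by
      rw [bd, FreeAbelianGroup.lift_apply_of]
    rw [AddMonoidHom.comp_apply, AddMonoidHom.comp_apply, h1, h2, h3, bdF_nat f hf]
    have h4 : ∀ (F : List X → Ch X) (l : List X),
        bdF (fun m => cmap f (F m)) l = cmap f (bdF F l) := by
      intro F l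
      cases l with
      | nil => simp [bdF]
      | cons x l =>
        have h5 : ∀ (l : List X) (F : List X → Ch X),
            tl (fun m => cmap f (F m)) l = cmap f (tl F l) := by
          intro l
          induction l with
          | nil => intro F; simp [tl]
          | cons x l ih =>
            intro F
            cases l with
            | nil => rfl
            | cons y l => rw [tl, tl, ih (fun m => F (x :: m)), map_sub]
        rw [bdF, bdF, h5, map_sub]
    rw [← h4]
    congr 1
  exact DFunLike.congr_fun h z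

section ones

variable {Y : Type v} {M : Type w} [Group Y] [AddCommGroup M]

theorem tl_ones (k : ℕ) : ∀ F : List Y → M,
    tl F (List.replicate (k + 1) 1) = if Even k then F (List.replicate k 1) else 0 := by
  induction k with
  | zero => intro F; simp [tl]
  | succ k ih =>
    intro F
    have h := ih (fun l' => F (1 :: l'))
    have e : tl F (List.replicate (k + 1 + 1) 1) = F ((1 * 1) :: List.replicate k 1) -
        tl (fun l' => F (1 :: l')) (List.replicate (k + 1) 1) := rfl
    rw [e, h, mul_one, ← List.replicate_succ]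
    by_cases hk : Even k
    · rw [if_pos hk, if_neg (by rw [Nat.even_add_one]; exact not_not.2 hk)]
      exact sub_self _
    · rw [if_neg hk, if_pos (Nat.even_add_one.2 hk), sub_zero]

theorem bd_ones (k : ℕ) : bd (FreeAbelianGroup.of (List.replicate (k + 1) (1 : Y))) =
    if Even k then 0 else FreeAbelianGroup.of (List.replicate k 1) := by
  rw [bd, FreeAbelianGroup.lift_apply_of]
  have e : bdF FreeAbelianGroup.of (List.replicate (k + 1) (1 : Y)) =
      FreeAbelianGroup.of (List.replicate k 1) -
        tl FreeAbelianGroup.of (List.replicate (k + 1) 1) := rfl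
  rw [e, tl_ones]
  by_cases hk : Even k
  · rw [if_pos hk, if_pos hk, sub_self]
  · rw [if_neg hk, if_neg hk, sub_zero]

end ones

theorem cmap_one {X : Type u} {Y : Type v} [Group Y] (n : ℕ) (P : X → Prop) (z : Ch X)
    (hz : z ∈ ch n P) : ∃ m : ℤ, cmap (fun _ : X => (1 : Y)) z =
      m • FreeAbelianGroup.of (List.replicate n (1 : Y)) := by
  refine AddSubgroup.closure_induction (p := fun z _ => ∃ m : ℤ,
    cmap (fun _ : X => (1 : Y)) z = m • FreeAbelianGroup.of (List.replicate n (1 : Y)))
    ?_ ?_ ?_ ?_ hz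
  · rintro y ⟨l, h1, _, rfl⟩
    refine ⟨1, ?_⟩
    have h : cmap (fun _ : X => (1 : Y)) (FreeAbelianGroup.of l) =
        FreeAbelianGroup.of (l.map (fun _ => 1)) := FreeAbelianGroup.map_of_apply l
    rw [h, one_smul, List.map_const', h1]
  · exact ⟨0, by rw [map_zero, zero_smul]⟩
  · rintro a b _ _ ⟨m, ha⟩ ⟨m', hb⟩
    exact ⟨m + m', by rw [map_add, ha, hb, add_smul]⟩
  · rintro a _ ⟨m, ha⟩
    exact ⟨-m, by rw [map_neg, ha, neg_smul]⟩

end TRVM

open TRVM

/-- TRV -/
theorem specTRV (_ : SpecALT.{u, v, w}) : SpecTRV.{u, v} := by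
  intro X _ Y _ n hn P hP z hz
  obtain ⟨h1, h2⟩ := AddSubgroup.mem_inf.1 hz
  obtain ⟨m, hm⟩ := cmap_one (Y := Y) n _ z h1
  obtain ⟨k, rfl⟩ : ∃ k, n = k + 1 := ⟨n - 1, by omega⟩
  have h3 := bd_cmap (fun _ : X => (1 : Y)) (fun _ _ => (mul_one 1).symm) z
  rw [(AddMonoidHom.mem_ker).1 h2, map_zero, hm, map_zsmul, bd_ones] at h3
  by_cases hk : Even k
  · have h5 : FreeAbelianGroup.of (List.replicate (k + 1 + 1) (1 : Y)) ∈ ch (k + 1 + 1) P := by
      refine AddSubgroup.subset_closure ⟨_, List.length_replicate, ?_, rfl⟩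
      intro x hx
      rw [List.eq_of_mem_replicate hx]
      exact hP
    refine ⟨m • FreeAbelianGroup.of (List.replicate (k + 1 + 1) (1 : Y)), zsmul_mem h5 m, ?_⟩
    rw [hm, map_zsmul, bd_ones, if_neg (by rw [Nat.even_add_one]; exact not_not.2 hk)]
  · rw [if_neg hk] at h3
    have h4 := congrArg (FreeAbelianGroup.lift (fun _ : List Y => (1 : ℤ))) h3
    rw [map_zsmul, FreeAbelianGroup.lift_apply_of, map_zero, smul_eq_mul, mul_one] at h4
    exact ⟨0, zero_mem _, by rw [hm, h4, zero_smul, map_zero]⟩

end Pool.Agent.Lib.MPb6f35e.KA
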