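import Pool.Agent.Lib.MP_b6f35e_al.KA.SpecG
import Pool.Agent.Lib.MP_b6f35e_al.KA.CRS
import Pool.Agent.Lib.MP_b6f35e_al.KA.TRV

/-!
# Rational K-theory in all degrees (MP_b6f35e_al), module AA3: all generators primitive

`theorem specAA3 (hAA4) (hLGG) (hTRA) (hTHZ) : SpecAA3`.  Adapted from `K2/AL3.lean`.
-/

set_option autoImplicit false

noncomputable section

namespace Pool.Agent.Lib.MPb6f35e.KA

open Pool.Agent.Lib.MPb6f35e.WH
open Pool.Agent.Lib.MPb6f35e.K2 (SpecLGG Supp)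

universe u v w

namespace AA3M

/-! ### conjugate subgroups -/

/-- `A = g B g⁻¹` for some `g` -/
def Cj {G : Type v} [Group G] (A B : Subgroup G) : Prop := ∃ g : G, ∀ h, h ∈ A ↔ g⁻¹ * h * g ∈ B

lemma Cj.refl {G : Type v} [Group G] (A : Subgroup G) : Cj A A := ⟨1, fun h => by simp⟩

lemma Cj.symm {G : Type v} [Group G] {A B : Subgroup G} (h : Cj A B) : Cj B A := by
  obtain ⟨g, hg⟩ := h
  refine ⟨g⁻¹, fun h => ?_⟩
  rw [hg]
  have e : g⁻¹ * (g⁻¹⁻¹ * h * g⁻¹) * g = h := by group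
  rw [e]

lemma Cj.trans {G : Type v} [Group G] {A B D : Subgroup G} (h : Cj A B) (h' : Cj B D) :
    Cj A D := by
  obtain ⟨g, hg⟩ := h
  obtain ⟨k, hk⟩ := h'
  refine ⟨g * k, fun h => ?_⟩
  rw [hg, hk]
  have e : k⁻¹ * (g⁻¹ * h * g) * k = (g * k)⁻¹ * h * (g * k) := by group
  rw [e]

lemma mem_zpowers_conj {G : Type v} [Group G] (t c h : G) :
    h ∈ Subgroup.zpowers (t * c * t⁻¹) ↔ t⁻¹ * h * t ∈ Subgroup.zpowers c := by
  rw [Subgroup.mem_zpowers_iff, Subgroup.mem_zpowers_iff]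
  constructor
  · rintro ⟨n, rfl⟩
    refine ⟨n, ?_⟩
    rw [conj_zpow]
    group
  · rintro ⟨n, hn⟩
    refine ⟨n, ?_⟩
    rw [conj_zpow, hn]
    group

/-! ### lists -/

lemma sum_filter_split {α : Type*} {M : Type*} [AddCommMonoid M] (f : α → M) (P : α → Prop)
    [DecidablePred P] (l : List α) :
    (l.map f).sum = ((l.filter fun x => P x).map f).sum + ((l.filter fun x => ¬ P x).map f).sum := by
  induction l with
  | nil => simp
  | cons a l ih =>
    by_cases h : P a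
    · simp only [List.map_cons, List.sum_cons, List.filter_cons, h, decide_true, if_true, not_true,
        decide_false]
      rw [ih]
      simp [add_assoc]
    · simp only [List.map_cons, List.sum_cons, List.filter_cons, h, decide_false, not_false_eq_true,
        decide_true, if_true]
      rw [ih]
      simp only [Bool.false_eq_true, if_false]
      abel

lemma DSubS_mono (n p : ℕ) (R : Type u) [CommRing R] (G : Type v) [Group G]
    {S T : Set (Subgroup G)} (h : S ⊆ T) : DSubS n p R G S ≤ DSubS n p R G T := by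
  apply AddSubgroup.closure_mono
  rintro y ⟨x, hx, h2, h3⟩
  exact ⟨x, h hx, h2, h3⟩

/-! ### conjugation of a generator -/

section conj

variable {n : ℕ} {R : Type u} [CommRing R] {G : Type v} [Group G]

lemma single_inv_mul (g : G) :
    (MonoidAlgebra.single g⁻¹ 1 * MonoidAlgebra.single g 1 : MonoidAlgebra R G) = 1 := by
  rw [MonoidAlgebra.single_mul_single, inv_mul_cancel, one_mul, MonoidAlgebra.one_def]

lemma single_mul_inv (g : G) :
    (MonoidAlgebra.single g 1 * MonoidAlgebra.single g⁻¹ 1 : MonoidAlgebra R G) = 1 := by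
  rw [MonoidAlgebra.single_mul_single, mul_inv_cancel, one_mul, MonoidAlgebra.one_def]

lemma cj_coeff (z : MonoidAlgebra R G) (g k : G) :
    (MonoidAlgebra.single g⁻¹ 1 * z * MonoidAlgebra.single g 1).coeff k =
      z.coeff (g * k * g⁻¹) := by
  rw [MonoidAlgebra.coeff_mul_single_apply, MonoidAlgebra.coeff_single_mul_apply]
  rw [one_mul, mul_one, inv_inv, mul_assoc]

/-- `g⁻¹ u g` -/
def cjU (g : G) (u : (MonoidAlgebra R G)ˣ) : (MonoidAlgebra R G)ˣ :=
  ⟨MonoidAlgebra.single g⁻¹ 1 * u.val * MonoidAlgebra.single g 1,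
    MonoidAlgebra.single g⁻¹ 1 * u.inv * MonoidAlgebra.single g 1,
    by
      calc MonoidAlgebra.single g⁻¹ 1 * u.val * MonoidAlgebra.single g 1 *
            (MonoidAlgebra.single g⁻¹ 1 * u.inv * MonoidAlgebra.single g 1)
          = MonoidAlgebra.single g⁻¹ 1 * u.val * (MonoidAlgebra.single g 1 *
            MonoidAlgebra.single g⁻¹ 1) * u.inv * MonoidAlgebra.single g 1 := by
            simp only [mul_assoc]
        _ = 1 := by
            rw [single_mul_inv, mul_one, mul_assoc (MonoidAlgebra.single g⁻¹ 1), u.val_inv,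
              mul_one, single_inv_mul],
    by
      calc MonoidAlgebra.single g⁻¹ 1 * u.inv * MonoidAlgebra.single g 1 *
            (MonoidAlgebra.single g⁻¹ 1 * u.val * MonoidAlgebra.single g 1)
          = MonoidAlgebra.single g⁻¹ 1 * u.inv * (MonoidAlgebra.single g 1 *
            MonoidAlgebra.single g⁻¹ 1) * u.val * MonoidAlgebra.single g 1 := by
            simp only [mul_assoc]
        _ = 1 := by
            rw [single_mul_inv, mul_one, mul_assoc (MonoidAlgebra.single g⁻¹ 1), u.inv_val,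
              mul_one, single_inv_mul]⟩

lemma cyc_mono {X : Type u} [Mul X] {P Q : X → Prop} (h : ∀ x, P x → Q x) {z : Ch X}
    (hz : z ∈ cyc n P) : z ∈ cyc n Q := by
  obtain ⟨h1, h2⟩ := AddSubgroup.mem_inf.1 hz
  refine AddSubgroup.mem_inf.2 ⟨AddSubgroup.closure_mono ?_ h1, h2⟩
  rintro y ⟨l, h3, h4, h5⟩
  exact ⟨l, h3, fun x hx => h x (h4 x hx), h5⟩

lemma conj_mul (g x y : G) : g⁻¹ * (x * y) * g = g⁻¹ * x * g * (g⁻¹ * y * g) := by group

lemma cyc_conj (g : G) {P Q : G → Prop} (h : ∀ x, P x → Q (g⁻¹ * x * g)) {z : Ch G}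
    (hz : z ∈ cyc n P) : cmap (fun x => g⁻¹ * x * g) z ∈ cyc n Q := by
  obtain ⟨h1, h2⟩ := AddSubgroup.mem_inf.1 hz
  refine AddSubgroup.mem_inf.2 ⟨CRSM.ch_map _ ?_ z h1, ?_⟩
  · intro l hl hl'
    have e : cmap (fun x => g⁻¹ * x * g) (FreeAbelianGroup.of l) =
        FreeAbelianGroup.of (l.map fun x => g⁻¹ * x * g) := FreeAbelianGroup.map_of_apply l
    rw [e]
    refine CRSM.of_mem _ (by rw [List.length_map, hl]) ?_
    intro y hy
    obtain ⟨x, hx, rfl⟩ := List.mem_map.1 hy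
    exact h x (hl' x hx)
  · rw [AddMonoidHom.mem_ker, TRVM.bd_cmap _ (conj_mul g), (AddMonoidHom.mem_ker).1 h2, map_zero]

lemma cmap_cmap {X : Type u} {Y : Type v} {Z : Type w} (f : X → Y) (f' : Y → Z) (z : Ch X) :
    cmap f' (cmap f z) = cmap (fun x => f' (f x)) z := by
  have h : (cmap f').comp (cmap f) = cmap (fun x => f' (f x)) := by
    refine FreeAbelianGroup.lift_ext _ _ ?_
    intro l
    have e1 : cmap f (FreeAbelianGroup.of l) = FreeAbelianGroup.of (l.map f) :=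
      FreeAbelianGroup.map_of_apply l
    have e2 : cmap f' (FreeAbelianGroup.of (l.map f)) =
        FreeAbelianGroup.of ((l.map f).map f') := FreeAbelianGroup.map_of_apply _
    have e3 : cmap (fun x => f' (f x)) (FreeAbelianGroup.of l) =
        FreeAbelianGroup.of (l.map fun x => f' (f x)) := FreeAbelianGroup.map_of_apply l
    rw [AddMonoidHom.comp_apply, e1, e2, e3, List.map_map]
    rfl
  exact DFunLike.congr_fun h z

/-- The generator `(D, g⁻¹ z g, g⁻¹ u g)`. -/
def cjG (x : GenT n R G) (D : Subgroup G) (hf : Finite D) (hc : IsCyclic D) (g : G)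
    (h : ∀ k, k ∈ x.C ↔ g⁻¹ * k * g ∈ D) : GenT n R G where
  C := D
  fin := hf
  cy := hc
  z := cmap (fun k => g⁻¹ * k * g) x.z
  hz := by
    refine cyc_conj g ?_ x.hz
    intro m hm k hk
    have h1 : g * k * g⁻¹ ∈ x.C := by
      rw [h]
      have e : g⁻¹ * (g * k * g⁻¹) * g = k := by group
      rw [e]
      exact hk
    have h2 := hm _ h1
    calc g⁻¹ * m * g * k = g⁻¹ * (m * (g * k * g⁻¹)) * g := by group
      _ = g⁻¹ * ((g * k * g⁻¹) * m) * g := by rw [h2]
      _ = k * (g⁻¹ * m * g) := by group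
  u := cjU g x.u
  hu := by
    constructor
    · intro k hk
      have h1 := x.hu.1 (g * k * g⁻¹) (by rw [← cj_coeff]; exact hk)
      rw [h] at h1
      have e : g⁻¹ * (g * k * g⁻¹) * g = k := by group
      rw [e] at h1
      exact h1
    · intro k hk
      have h1 := x.hu.2 (g * k * g⁻¹) (by rw [← cj_coeff]; exact hk)
      rw [h] at h1
      have e : g⁻¹ * (g * k * g⁻¹) * g = k := by group
      rw [e] at h1
      exact h1

end conj

section facts

variable {p : ℕ} [Fact p.Prime] {n : ℕ} {R : Type u} [CommRing R] (i : R →+* ℤ_[p])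
  {G : Type v} [Group G]

lemma ring_cj (g : G) (x : (MonoidAlgebra R G)ˣ) :
    MonoidAlgebra.mapRingHom G i (cjU g x).val =
      MonoidAlgebra.single g⁻¹ 1 * MonoidAlgebra.mapRingHom G i x.val *
        MonoidAlgebra.single g 1 := by
  show MonoidAlgebra.mapRingHom G i (MonoidAlgebra.single g⁻¹ 1 * x.val *
    MonoidAlgebra.single g 1) = _
  rw [map_mul, map_mul, MonoidAlgebra.mapRingHom_single, MonoidAlgebra.mapRingHom_single, map_one]

variable (x : GenT n R G) (D : Subgroup G) (hf : Finite D) (hc : IsCyclic D) (g : G)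
  (h : ∀ k, k ∈ x.C ↔ g⁻¹ * k * g ∈ D)

lemma LG_cj (hLGG : SpecLGG.{u, v}) (hp : p ≠ 2) (k : G) :
    LG p i (cjG x D hf hc g h) k = LG p i x (g * k * g⁻¹) := by
  have h1 := hLGG.conj p hp G (MonoidAlgebra.mapRingHom G i x.u.val) g⁻¹ (g * k * g⁻¹)
  rw [inv_inv] at h1
  have e : g⁻¹ * (g * k * g⁻¹) * g = k := by group
  rw [e, ← ring_cj] at h1
  exact h1

lemma one_cj (h1 : One1 p i x) : One1 p i (cjG x D hf hc g h) := by
  obtain ⟨a, ha⟩ := h1
  refine ⟨MonoidAlgebra.single g⁻¹ 1 * a * MonoidAlgebra.single g 1, ?_⟩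
  have h2 : MonoidAlgebra.mapRingHom G i (cjG x D hf hc g h).u.val =
      MonoidAlgebra.single g⁻¹ 1 * MonoidAlgebra.mapRingHom G i x.u.val *
        MonoidAlgebra.single g 1 := ring_cj i g x.u
  rw [h2, ha, mul_add, add_mul, mul_one, single_inv_mul, mul_smul_comm, smul_mul_assoc]

lemma prim_cj (hLGG : SpecLGG.{u, v}) (hp : p ≠ 2) (h1 : Prim p i x) :
    Prim p i (cjG x D hf hc g h) := by
  intro k hk
  rw [LG_cj i x D hf hc g h hLGG hp] at hk
  have h2 := h1 _ hk
  show Subgroup.zpowers k = D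
  ext m
  have h3 : m ∈ D ↔ g * m * g⁻¹ ∈ x.C := by
    rw [h]
    have e : g⁻¹ * (g * m * g⁻¹) * g = m := by group
    rw [e]
  rw [h3, ← h2, mem_zpowers_conj]
  have e : g⁻¹ * (g * m * g⁻¹) * g = m := by group
  rw [e]

lemma SG_cj (hLGG : SpecLGG.{u, v}) (hTHZ : SpecTHZ.{v, 0}) (hp : p ≠ 2) (c : G)
    (X : Ch G → ℤ_[p]) (hX : HomC n (Cz c) X) : SG p i c X (cjG x D hf hc g h) = SG p i c X x := by
  unfold SG
  refine (finsum_congr fun k => ?_).trans (finsum_comp_equiv (MulAut.conj g).toEquiv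
    (f := fun m : G => ((ThC c X x.z m : ℤ_[p]) : ℚ_[p]) * LG p i x m))
  show ((ThC c X (cjG x D hf hc g h).z k : ℤ_[p]) : ℚ_[p]) * LG p i (cjG x D hf hc g h) k =
    ((ThC c X x.z (g * k * g⁻¹) : ℤ_[p]) : ℚ_[p]) * LG p i x (g * k * g⁻¹)
  rw [LG_cj i x D hf hc g h hLGG hp]
  by_cases h0 : LG p i x (g * k * g⁻¹) = 0
  · rw [h0, mul_zero, mul_zero]
  congr 2
  have hmem : g * k * g⁻¹ ∈ x.C := by
    by_contra hn
    exact h0 (hLGG.out p hp G x.C (MonoidAlgebra.mapRingHom G i x.u.val) (by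
      intro m hm
      apply x.hu.1 m
      intro h5
      apply hm
      rw [MonoidAlgebra.coeff_mapRingHom, h5, map_zero]) _ hn)
  have hz1 : x.z ∈ cyc n (Cz (g * k * g⁻¹)) := cyc_mono (fun m hm => hm _ hmem) x.hz
  show ThC c X (cmap (fun k => g⁻¹ * k * g) x.z) k = ThC c X x.z (g * k * g⁻¹)
  by_cases ht : ∃ t, t * c * t⁻¹ = k
  · obtain ⟨t, ht⟩ := ht
    have hkD : k ∈ D := by
      have h5 := (h _).1 hmem
      have e : g⁻¹ * (g * k * g⁻¹) * g = k := by group
      rw [e] at h5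
      exact h5
    have hz2 : cmap (fun k => g⁻¹ * k * g) x.z ∈ cyc n (Cz k) :=
      cyc_mono (fun m hm => hm _ hkD) (cjG x D hf hc g h).hz
    rw [hTHZ.val G ℤ_[p] n c X hX k t ht _ hz2,
      hTHZ.val G ℤ_[p] n c X hX (g * k * g⁻¹) (g * t) (by rw [← ht]; group) _ hz1, cmap_cmap]
    congr 3
    funext m
    group
  · rw [hTHZ.zero G ℤ_[p] c X _ k ht, hTHZ.zero G ℤ_[p] c X _ (g * k * g⁻¹)]
    rintro ⟨t, ht'⟩
    refine ht ⟨g⁻¹ * t, ?_⟩
    calc g⁻¹ * t * c * (g⁻¹ * t)⁻¹ = g⁻¹ * (t * c * t⁻¹) * g := by group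
      _ = k := by rw [ht']; group

lemma cls_cj (hTRA : SpecTRA.{u, v}) :
    D1.cls (RelT n R G) (cjG x D hf hc g h) = D1.cls (RelT n R G) x := by
  refine (hTRA.conj n R G (cjG x D hf hc g h) x g ?_ rfl ?_).symm
  · intro k hk
    rw [h]
    have e : g⁻¹ * (g * k * g⁻¹) * g = k := by group
    rw [e]
    exact hk
  · show MonoidAlgebra.single g 1 * (MonoidAlgebra.single g⁻¹ 1 * x.u.val *
      MonoidAlgebra.single g 1) = x.u.val * MonoidAlgebra.single g 1
    rw [← mul_assoc, ← mul_assoc, single_mul_inv, one_mul]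

/-- A nonzero `SG` gives a conjugate of `⟨c⟩`. -/
lemma cj_of_SG (hTHZ : SpecTHZ.{v, 0}) (hx : Prim p i x) (c : G) (X : Ch G → ℤ_[p])
    (h0 : SG p i c X x ≠ 0) : Cj x.C (Subgroup.zpowers c) := by
  have h1 : ∃ k : G, ((ThC c X x.z k : ℤ_[p]) : ℚ_[p]) * LG p i x k ≠ 0 := by
    by_contra hn
    push Not at hn
    apply h0
    unfold SG
    rw [finsum_congr hn, finsum_zero]
  obtain ⟨k, hk⟩ := h1
  have h2 := hx k (right_ne_zero_of_mul hk)
  have h3 : ∃ t, t * c * t⁻¹ = k := by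
    by_contra hn
    apply left_ne_zero_of_mul hk
    rw [hTHZ.zero G ℤ_[p] c X _ k hn]
    rfl
  obtain ⟨t, rfl⟩ := h3
  refine ⟨t, fun m => ?_⟩
  rw [← h2, mem_zpowers_conj]

end facts

end AA3M

open AA3M in
open Classical in
theorem specAA3 (hAA4 : SpecAA4.{u, v}) (hLGG : SpecLGG.{u, v}) (hTRA : SpecTRA.{u, v})
    (hTHZ : SpecTHZ.{v, 0}) : SpecAA3.{u, v} := by
  intro p _ hp n R₀ _ i hi G _ l
  obtain ⟨N, hN⟩ : ∃ N, l.length = N := ⟨_, rfl⟩
  induction N using Nat.strong_induction_on generalizing l with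
  | _ N ih =>
  intro hl hSG
  cases l with
  | nil =>
    refine ⟨1, one_pos, ?_⟩
    have : tsum n R₀ G [] = 0 := rfl
    rw [this, smul_zero]
    exact zero_mem _
  | cons y l' =>
    obtain ⟨L, hL⟩ : ∃ L, L = y :: l' := ⟨_, rfl⟩
    rw [← hL] at hl hSG hN ⊢
    have hyL : y ∈ L := by rw [hL]; exact List.mem_cons_self
    set l₁ := L.filter fun x => Cj x.C y.C with hl₁
    set l₂ := L.filter fun x => ¬ Cj x.C y.C with hl₂
    have m₁ : ∀ x ∈ l₁, x ∈ L ∧ Cj x.C y.C := by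
      intro x hx
      rw [hl₁, List.mem_filter] at hx
      exact ⟨hx.1, of_decide_eq_true hx.2⟩
    have m₂ : ∀ x ∈ l₂, x ∈ L ∧ ¬ Cj x.C y.C := by
      intro x hx
      rw [hl₂, List.mem_filter] at hx
      exact ⟨hx.1, of_decide_eq_true hx.2⟩
    have hlen : l₂.length < N := by
      rw [← hN]
      rw [hl₂]
      refine lt_of_le_of_ne (List.length_filter_le _ _) fun h => ?_
      have h1 := List.length_filter_eq_length_iff.1 h y hyL
      exact (of_decide_eq_true h1) (Cj.refl _)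
    -- the hypothesis for both lists
    have key : ∀ (c : G) (X : Ch G → ℤ_[p]), IsOfFinOrder c → HomC n (Cz c) X →
        (l₁.map fun y => SG p i c X y).sum = 0 ∧ (l₂.map fun y => SG p i c X y).sum = 0 := by
      intro c X hc hX
      have h1 := hSG c X hc hX
      rw [sum_filter_split (fun y => SG p i c X y) (fun x => Cj x.C y.C) L] at h1
      by_cases hcD : Cj (Subgroup.zpowers c) y.C
      · have h2 : (l₂.map fun y => SG p i c X y).sum = 0 := by
          apply List.sum_eq_zero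
          intro s hs
          obtain ⟨x, hx, rfl⟩ := List.mem_map.1 hs
          by_contra hne
          exact (m₂ x hx).2 ((cj_of_SG i x hTHZ (hl x (m₂ x hx).1).2 c X hne).trans hcD)
        exact ⟨by rw [← hl₁, ← hl₂, h2, add_zero] at h1; exact h1, h2⟩
      · have h2 : (l₁.map fun y => SG p i c X y).sum = 0 := by
          apply List.sum_eq_zero
          intro s hs
          obtain ⟨x, hx, rfl⟩ := List.mem_map.1 hs
          by_contra hne
          exact hcD ((cj_of_SG i x hTHZ (hl x (m₁ x hx).1).2 c X hne).symm.trans (m₁ x hx).2)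
        exact ⟨h2, by rw [← hl₁, ← hl₂, h2, zero_add] at h1; exact h1⟩
    obtain ⟨a₂, ha₂, hm₂⟩ := ih l₂.length hlen l₂ rfl (fun x hx => hl x (m₂ x hx).1)
      (fun c X hc hX => (key c X hc hX).2)
    -- the conjugated list
    set τ : GenT n R₀ G → GenT n R₀ G := fun x =>
      if h : Cj x.C y.C then cjG x y.C y.fin y.cy h.choose h.choose_spec else x with hτ
    have hτx : ∀ x, Cj x.C y.C → ∃ (g : G) (h : ∀ k, k ∈ x.C ↔ g⁻¹ * k * g ∈ y.C),
        τ x = cjG x y.C y.fin y.cy g h := fun x h => ⟨h.choose, h.choose_spec, dif_pos h⟩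
    obtain ⟨a₁, ha₁, hm₁⟩ := hAA4 p hp n R₀ i hi G y.C (l₁.map τ) (by
      intro x' hx'
      obtain ⟨x, hx, rfl⟩ := List.mem_map.1 hx'
      obtain ⟨g, h, e⟩ := hτx x (m₁ x hx).2
      rw [e]
      exact ⟨rfl, one_cj i x y.C y.fin y.cy g h (hl x (m₁ x hx).1).1,
        prim_cj i x y.C y.fin y.cy g h hLGG hp (hl x (m₁ x hx).1).2⟩) (by
      intro c X hc hX
      rw [List.map_map, ← (key c X hc hX).1]
      congr 1
      refine List.map_congr_left fun x hx => ?_
      obtain ⟨g, h, e⟩ := hτx x (m₁ x hx).2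
      show SG p i c X (τ x) = _
      rw [e]
      exact SG_cj i x y.C y.fin y.cy g h hLGG hTHZ hp c X hX)
    have htau : tsum n R₀ G (l₁.map τ) = tsum n R₀ G l₁ := by
      unfold tsum
      rw [List.map_map]
      congr 1
      refine List.map_congr_left fun x hx => ?_
      obtain ⟨g, h, e⟩ := hτx x (m₁ x hx).2
      show D1.cls (RelT n R₀ G) (τ x) = _
      rw [e]
      exact cls_cj x y.C y.fin y.cy g h hTRA
    rw [htau] at hm₁
    have hsum : tsum n R₀ G L = tsum n R₀ G l₁ + tsum n R₀ G l₂ :=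
      sum_filter_split (D1.cls (RelT n R₀ G)) (fun x => Cj x.C y.C) L
    have h₁ : a₁ • tsum n R₀ G l₁ ∈ DSubS n p R₀ G {D | ∃ y ∈ L, D = y.C} :=
      DSubS_mono n p R₀ G (by
        intro D hD
        exact ⟨y, hyL, hD⟩) hm₁
    have h₂ : a₂ • tsum n R₀ G l₂ ∈ DSubS n p R₀ G {D | ∃ y ∈ L, D = y.C} :=
      DSubS_mono n p R₀ G (by
        rintro D ⟨x, hx, hD⟩
        exact ⟨x, (m₂ x hx).1, hD⟩) hm₂
    refine ⟨a₁ * a₂, Nat.mul_pos ha₁ ha₂, ?_⟩
    rw [hsum, smul_add]
    refine add_mem ?_ ?_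
    · rw [mul_comm, mul_smul]
      exact nsmul_mem h₁ _
    · rw [mul_smul]
      exact nsmul_mem h₂ _

end Pool.Agent.Lib.MPb6f35e.KA
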