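import Pool.Agent.Lib.MP_b6f35e_al.KA.SpecC

/-!
# Rational K-theory in all degrees (MP_b6f35e_al): module DSC, the descent of cochains
-/

set_option autoImplicit false

noncomputable section

namespace Pool.Agent.Lib.MPb6f35e.KA

open Pool.Agent.Lib.MPb6f35e.WH Pool.Agent.Lib.MPb6f35e.K2

universe u v w x y

namespace DSCM

/-! ### the bar complex -/

section bar

variable {X : Type u} {M : Type v} [AddCommGroup M]

theorem tl_map {M' : Type w} [AddCommGroup M'] [Mul X] (f : M →+ M') :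
    ∀ (l : List X) (F : List X → M), tl (fun l => f (F l)) l = f (tl F l)
  | [], _ => (map_zero f).symm
  | [_], _ => rfl
  | x :: y :: l, F => by
    rw [tl, tl, map_sub, tl_map f (y :: l)]

theorem bdF_map {M' : Type w} [AddCommGroup M'] [Mul X] (f : M →+ M') :
    ∀ (l : List X) (F : List X → M), bdF (fun l => f (F l)) l = f (bdF F l)
  | [], _ => (map_zero f).symm
  | x :: l, F => by
    rw [bdF, bdF, map_sub, tl_map]

theorem bd_of [Mul X] (l : List X) :
    bd (FreeAbelianGroup.of l) = bdF FreeAbelianGroup.of l := by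
  rw [bd, FreeAbelianGroup.lift_apply_of]

theorem lift_bd [Mul X] (F : List X → M) (z : Ch X) :
    FreeAbelianGroup.lift F (bd z) = FreeAbelianGroup.lift (bdF F) z := by
  have h : (FreeAbelianGroup.lift F).comp bd = FreeAbelianGroup.lift (bdF F) := by
    refine FreeAbelianGroup.lift_ext _ _ (fun l => ?_)
    rw [AddMonoidHom.comp_apply, bd_of, ← bdF_map, FreeAbelianGroup.lift_apply_of]
    simp only [FreeAbelianGroup.lift_apply_of]
  exact DFunLike.congr_fun h z

theorem tl_sub [Mul X] : ∀ (l : List X) (F F' : List X → M),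
    tl (fun l => F l - F' l) l = tl F l - tl F' l
  | [], _, _ => (sub_zero _).symm
  | [_], _, _ => rfl
  | x :: y :: l, F, F' => by
    rw [tl, tl, tl, tl_sub (y :: l)]
    abel

theorem tl_tl [Semigroup X] : ∀ (l : List X) (F : List X → M) (x y : X),
    tl (fun l' => tl F (x :: l')) (y :: l) = tl F ((x * y) :: l)
  | [], _, _, _ => rfl
  | z :: l, F, x, y => by
    have h1 : (fun l' => tl F (x :: y :: l')) =
        fun l' => F ((x * y) :: l') - tl (fun l'' => F (x :: l'')) (y :: l') := rfl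
    rw [tl, h1, tl_sub, tl_tl l (fun l'' => F (x :: l'')) y z, tl, tl, mul_assoc]
    abel

theorem bdF_bdF [Semigroup X] (F : List X → M) : ∀ l : List X, bdF (bdF F) l = 0
  | [] => rfl
  | [x] => by
    rw [bdF, tl, sub_self]
  | x :: y :: l => by
    have h1 : (fun l' => bdF F (x :: l')) = fun l' => F l' - tl F (x :: l') := rfl
    rw [bdF, tl, h1, tl_sub, tl_tl, bdF, bdF]
    abel

theorem bd_bd [Semigroup X] (z : Ch X) : bd (bd z) = 0 := by
  have h1 : bd (bd z) = FreeAbelianGroup.lift (bdF (bdF FreeAbelianGroup.of)) z := by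
    rw [← lift_bd]
    rfl
  have h2 : bdF (bdF (FreeAbelianGroup.of : List X → Ch X)) = fun _ => 0 := funext (bdF_bdF _)
  have h3 : FreeAbelianGroup.lift (fun _ : List X => (0 : Ch X)) = 0 :=
    FreeAbelianGroup.lift_ext _ _ (fun l => by
      rw [FreeAbelianGroup.lift_apply_of, AddMonoidHom.zero_apply])
  rw [h1, h2, h3, AddMonoidHom.zero_apply]

theorem tl_list_map {Y : Type w} [Mul X] [Mul Y] (f : X → Y) (hf : ∀ a b, f (a * b) = f a * f b) :
    ∀ (l : List X) (F : List Y → M), tl F (l.map f) = tl (fun l' => F (l'.map f)) l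
  | [], _ => rfl
  | [_], _ => rfl
  | x :: y :: l, F => by
    have ih := tl_list_map f hf (y :: l) (fun l' => F (f x :: l'))
    rw [List.map_cons] at ih
    rw [List.map_cons, List.map_cons, tl, ih, tl, List.map_cons, hf]
    rfl

theorem bdF_list_map {Y : Type w} [Mul X] [Mul Y] (f : X → Y)
    (hf : ∀ a b, f (a * b) = f a * f b) :
    ∀ (l : List X) (F : List Y → M), bdF F (l.map f) = bdF (fun l' => F (l'.map f)) l
  | [], _ => rfl
  | x :: l, F => by
    have h1 := tl_list_map f hf (x :: l) F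
    rw [List.map_cons] at h1
    rw [List.map_cons, bdF, h1, bdF]

theorem bd_cmap {Y : Type w} [Mul X] [Mul Y] (f : X → Y) (hf : ∀ a b, f (a * b) = f a * f b)
    (z : Ch X) : bd (cmap f z) = cmap f (bd z) := by
  have h : bd.comp (cmap f) = (cmap f).comp bd := by
    refine FreeAbelianGroup.lift_ext _ _ (fun l => ?_)
    rw [AddMonoidHom.comp_apply, AddMonoidHom.comp_apply, cmap, FreeAbelianGroup.map_of_apply,
      bd_of, bd_of, ← bdF_map, bdF_list_map f hf]
    simp only [FreeAbelianGroup.map_of_apply]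
  exact DFunLike.congr_fun h z

/-- the chains with entries in `P` -/
def Cl (P : X → Prop) : AddSubgroup (Ch X) :=
  AddSubgroup.closure {y | ∃ l : List X, (∀ b ∈ l, P b) ∧ y = FreeAbelianGroup.of l}

theorem tl_mem [Mul X] (P : X → Prop) (hP : ∀ x y, P x → P y → P (x * y)) (K : AddSubgroup M) :
    ∀ (l : List X) (_ : ∀ x ∈ l, P x) (F : List X → M)
      (_ : ∀ l', (∀ x ∈ l', P x) → F l' ∈ K), tl F l ∈ K
  | [], _, _, _ => K.zero_mem
  | [_], _, _, hF => hF _ (fun x hx => absurd hx List.not_mem_nil)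
  | x :: y :: l, hl, F, hF => by
    have hx := hl x List.mem_cons_self
    have hy := hl y (List.mem_cons_of_mem _ List.mem_cons_self)
    have hl' : ∀ z ∈ l, P z := fun z hz =>
      hl z (List.mem_cons_of_mem _ (List.mem_cons_of_mem _ hz))
    rw [tl]
    refine K.sub_mem (hF _ ?_) (tl_mem P hP K (y :: l) ?_ _ (fun l' h' => hF _ ?_))
    · intro z hz
      rcases List.mem_cons.1 hz with rfl | hz
      · exact hP _ _ hx hy
      · exact hl' z hz
    · exact fun z hz => hl z (List.mem_cons_of_mem _ hz)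
    · intro z hz
      rcases List.mem_cons.1 hz with rfl | hz
      · exact hx
      · exact h' z hz

theorem of_mem (P : X → Prop) (l : List X) (hl : ∀ x ∈ l, P x) :
    (FreeAbelianGroup.of l : Ch X) ∈ Cl P := AddSubgroup.subset_closure ⟨l, hl, rfl⟩

theorem bd_mem [Mul X] (P : X → Prop) (hP : ∀ x y, P x → P y → P (x * y)) (z : Ch X)
    (hz : z ∈ Cl P) : bd z ∈ Cl P := by
  refine AddSubgroup.closure_induction (p := fun z _ => bd z ∈ Cl P) ?_ ?_ ?_ ?_ hz
  · rintro _ ⟨l, hl, rfl⟩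
    rw [bd_of]
    cases l with
    | nil => exact (Cl P).zero_mem
    | cons x l =>
      rw [bdF]
      exact (Cl P).sub_mem (of_mem P _ (fun z hz => hl z (List.mem_cons_of_mem _ hz)))
        (tl_mem P hP (Cl P) _ hl _ (fun l' hl' => of_mem P l' hl'))
  · rw [map_zero]
    exact (Cl P).zero_mem
  · intro a b _ _ ha hb
    rw [map_add]
    exact (Cl P).add_mem ha hb
  · intro a _ ha
    rw [map_neg]
    exact (Cl P).neg_mem ha

theorem cmap_mem {Y : Type w} (P : X → Prop) (f : Y → X) (hf : ∀ y, P (f y)) (z : Ch Y) :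
    cmap f z ∈ Cl P := by
  induction z using FreeAbelianGroup.induction_on with
  | zero =>
    rw [map_zero]
    exact (Cl P).zero_mem
  | of l =>
    rw [cmap, FreeAbelianGroup.map_of_apply]
    refine of_mem P _ (fun b hb => ?_)
    obtain ⟨y, -, rfl⟩ := List.mem_map.1 hb
    exact hf y
  | neg l ih =>
    rw [map_neg]
    exact (Cl P).neg_mem ih
  | add a b ha hb =>
    rw [map_add]
    exact (Cl P).add_mem ha hb

theorem cmap_cmap {Y : Type w} (f : X → Y) (g : Y → X) (h : ∀ x, g (f x) = x) (z : Ch X) :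
    cmap g (cmap f z) = z := by
  have h1 : (cmap g).comp (cmap f) = AddMonoidHom.id (Ch X) := by
    refine FreeAbelianGroup.lift_ext _ _ (fun l => ?_)
    rw [AddMonoidHom.comp_apply, cmap, cmap, FreeAbelianGroup.map_of_apply,
      FreeAbelianGroup.map_of_apply, List.map_map, AddMonoidHom.id_apply]
    congr 1
    have h2 : g ∘ f = id := funext h
    rw [h2, List.map_id]
  exact DFunLike.congr_fun h1 z

end bar

/-! ### norms -/

section norm

variable {B : Type v} [Ring B]

theorem nm_zero (ρ : B →+* B) (N : ℕ) : nm ρ N 0 = 0 := by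
  rw [nm]
  refine Finset.sum_eq_zero (fun j _ => ?_)
  exact iterate_map_zero ρ j

theorem nm_add (ρ : B →+* B) (N : ℕ) (a b : B) : nm ρ N (a + b) = nm ρ N a + nm ρ N b := by
  rw [nm, nm, nm, ← Finset.sum_add_distrib]
  refine Finset.sum_congr rfl (fun j _ => ?_)
  exact iterate_map_add ρ j a b

/-- the norm as a homomorphism -/
def nmH (ρ : B →+* B) (N : ℕ) : B →+ B := AddMonoidHom.mk' (nm ρ N) (nm_add ρ N)

theorem nm_sub (ρ : B →+* B) (N : ℕ) (a b : B) : nm ρ N (a - b) = nm ρ N a - nm ρ N b :=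
  map_sub (nmH ρ N) a b

theorem nm_mul_left (ρ : B →+* B) (N : ℕ) (t a : B) (ht : ρ t = t) :
    nm ρ N (t * a) = t * nm ρ N a := by
  rw [nm, nm, Finset.mul_sum]
  refine Finset.sum_congr rfl (fun j _ => ?_)
  rw [iterate_map_mul, Function.iterate_fixed ht]

theorem nm_mul_right (ρ : B →+* B) (N : ℕ) (t a : B) (ht : ρ t = t) :
    nm ρ N (a * t) = nm ρ N a * t := by
  rw [nm, nm, Finset.sum_mul]
  refine Finset.sum_congr rfl (fun j _ => ?_)
  rw [iterate_map_mul, Function.iterate_fixed ht]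

end norm

/-! ### lists of pairs -/

section data

variable {Γ : Type u} {B : Type v} [Group Γ] [Ring B] {T D : Γ →* Bˣ}

theorem pr_map : ∀ l : List (RT T D),
    pr T D (l.map RT.y) (fun j => (l.map RT.q).getD j 0) = l
  | [] => rfl
  | a :: l => by
    have ih := pr_map l
    rw [List.map_cons, pr, List.map_cons]
    congr 1

theorem pr_sec (c : Γ → B) : ∀ l : List Γ,
    pr T D l (fun j => (l.map c).getD j 0) = l.map (fun y => (⟨y, c y⟩ : RT T D))
  | [] => rfl
  | y :: l => by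
    have ih := pr_sec c l
    rw [List.map_cons, pr, List.map_cons]
    congr 1

theorem IQ_mul {N : ℕ} {ρ : B →+* B} (h : IsDD N ρ T D) (a b : RT T D) (ha : IQ N ρ a)
    (hb : IQ N ρ b) : IQ N ρ (a * b) := by
  rw [IQ] at ha hb ⊢
  rw [RT.mul_q, RT.mul_y, nm_add, nm_mul_left ρ N _ _ (h.rT _), nm_mul_right ρ N _ _ (h.rD _), ha,
    hb, map_mul, map_mul, Units.val_mul, Units.val_mul]
  noncomm_ring

theorem nm_getD {N : ℕ} {ρ : B →+* B} : ∀ (l : List (RT T D)) (_ : ∀ a ∈ l, IQ N ρ a) (j : ℕ),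
    nm ρ N ((l.map RT.q).getD j 0) =
      ((l.map RT.y).map (fun y => (D y : B) - T y)).getD j 0
  | [], _, _ => nm_zero ρ N
  | a :: l, hl, 0 => hl a List.mem_cons_self
  | a :: l, hl, j + 1 => nm_getD l (fun b hb => hl b (List.mem_cons_of_mem _ hb)) j

/-- the norm on `LL` -/
def nmL (ρ : B →+* B) (N : ℕ) : LL Γ B →+ LL Γ B :=
  Finsupp.mapRange.addMonoidHom (AddMonoidHom.compLeft (nmH ρ N) ℕ)

theorem nmL_apply (ρ : B →+* B) (N : ℕ) (q : LL Γ B) (l : List Γ) (j : ℕ) :
    nmL ρ N q l j = nm ρ N (q l j) := rfl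

theorem rhL_apply (ρ : B →+* B) (q : LL Γ B) (l : List Γ) (j : ℕ) :
    rhL ρ q l j = ρ (q l j) := rfl

/-- the norms of the entries of a chain with entries in `IQ` -/
def Phi (T D : Γ →* Bˣ) : Ch Γ →+ LL Γ B :=
  FreeAbelianGroup.lift fun l =>
    Finsupp.single l fun j => (l.map (fun y => (D y : B) - T y)).getD j 0

theorem nm_lam {N : ℕ} {ρ : B →+* B} (a : Ch (RT T D)) (ha : a ∈ Cl (IQ (T := T) (D := D) N ρ)) :
    nmL ρ N (lamL T D a) = Phi T D (cmap RT.y a) := by
  refine AddSubgroup.closure_induction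
    (p := fun a _ => nmL ρ N (lamL T D a) = Phi T D (cmap RT.y a)) ?_ ?_ ?_ ?_ ha
  · rintro _ ⟨l, hl, rfl⟩
    rw [lamL, FreeAbelianGroup.lift_apply_of, cmap, FreeAbelianGroup.map_of_apply, Phi,
      FreeAbelianGroup.lift_apply_of, nmL, Finsupp.mapRange.addMonoidHom_apply,
      Finsupp.mapRange_single]
    congr 1
    funext j
    exact nm_getD l hl j
  · simp only [map_zero]
  · intro a b _ _ h1 h2
    simp only [map_add, h1, h2]
  · intro a _ h1
    simp only [map_neg, h1]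

theorem exK {N : ℕ} {ρ : B →+* B} (h : ∀ b, nm ρ N b = 0 → ∃ q, b = q - ρ q) :
    ∃ K : B → B, K 0 = 0 ∧ ∀ b, nm ρ N b = 0 → b = K b - ρ (K b) := by
  classical
  choose! K' hK' using h
  refine ⟨fun b => if b = 0 then 0 else K' b, if_pos rfl, fun b hb => ?_⟩
  by_cases h0 : b = 0
  · subst h0
    simp
  · simp only [if_neg h0]
    exact hK' b hb

theorem solve {N : ℕ} {ρ : B →+* B} (h : ∀ b, nm ρ N b = 0 → ∃ q, b = q - ρ q) (x : LL Γ B)
    (hx : nmL ρ N x = 0) : ∃ q : LL Γ B, q - rhL ρ q = x := by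
  obtain ⟨K, hK0, hK⟩ := exK h
  refine ⟨x.mapRange (fun f j => K (f j)) (funext fun j => hK0), ?_⟩
  refine Finsupp.ext (fun l => funext (fun j => ?_))
  have h1 : nm ρ N (x l j) = 0 := by
    rw [← nmL_apply, hx]
    rfl
  exact (hK _ h1).symm

theorem pr_fix {ρ : B →+* B} : ∀ (l : List Γ) (q : ℕ → B) (_ : ∀ j, ρ (q j) = q j)
    (a : RT T D) (_ : a ∈ pr T D l q), ρ a.q = a.q
  | [], _, _, _, ha => absurd ha List.not_mem_nil
  | y :: l, q, hq, a, ha => by
    rw [pr] at ha
    rcases List.mem_cons.1 ha with rfl | ha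
    · exact hq 0
    · exact pr_fix l _ (fun j => hq (j + 1)) a ha

section values

variable {H : Type w} [AddCommGroup H]

theorem jadd_zero {F : List (RT T D) → H} (hF : Jadd F) (l : List Γ) : F (pr T D l 0) = 0 := by
  have h := hF l 0 0
  rw [add_zero] at h
  exact left_eq_add.1 h

theorem FL_single {F : List (RT T D) → H} (hF : Jadd F) (l : List Γ) (q : ℕ → B) :
    FL F (Finsupp.single l q) = F (pr T D l q) := by
  rw [FL, Finsupp.sum_single_index]
  exact jadd_zero hF l

/-- `FL F` as a homomorphism -/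
def FLh (hLLB : SpecLLB.{u, v, w}) (F : List (RT T D) → H) (hF : Jadd F) : LL Γ B →+ H :=
  AddMonoidHom.mk' (FL F) (hLLB.add Γ B H T D F hF)

theorem FLh_apply (hLLB : SpecLLB.{u, v, w}) (F : List (RT T D) → H) (hF : Jadd F) (x : LL Γ B) :
    FLh hLLB F hF x = FL F x := rfl

/-- `bdL` as a homomorphism -/
def bdLh (hLLB : SpecLLB.{u, v, w}) (T D : Γ →* Bˣ) : LL Γ B →+ LL Γ B :=
  AddMonoidHom.mk' (bdL T D) (hLLB.badd Γ B T D)

theorem bdLh_apply (hLLB : SpecLLB.{u, v, w}) (x : LL Γ B) :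
    bdLh hLLB T D x = bdL T D x := rfl

/-- `hv` is additive -/
theorem hv_add (hLLB : SpecLLB.{u, v, w}) {N : ℕ} {ρ : B →+* B} {β f g : List (RT T D) → H}
    (h : IsFn N ρ β f g) (a a' : Ch (RT T D)) (q q' : LL Γ B) :
    hv β f g (a + a') (q + q') = hv β f g a q + hv β f g a' q' := by
  rw [hv, hv, hv, hLLB.badd, hLLB.add Γ B H T D f h.addf, hLLB.add Γ B H T D g h.addg, map_add]
  abel

theorem hv_sub (hLLB : SpecLLB.{u, v, w}) {N : ℕ} {ρ : B →+* B} {β f g : List (RT T D) → H}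
    (h : IsFn N ρ β f g) (a a' : Ch (RT T D)) (q q' : LL Γ B) :
    hv β f g (a - a') (q - q') = hv β f g a q - hv β f g a' q' := by
  have h1 := hv_add hLLB h (a - a') a' (q - q') q'
  rw [sub_add_cancel, sub_add_cancel] at h1
  rw [h1, add_sub_cancel_right]

theorem lift_add' {N : ℕ} {ρ : B →+* B} {z z' : Ch Γ} {a a' : Ch (RT T D)} {q q' : LL Γ B}
    (h : IsLift N ρ z a q) (h' : IsLift N ρ z' a' q') : IsLift N ρ (z + z') (a + a') (q + q') := by
  refine ⟨AddSubgroup.add_mem _ h.1 h'.1, ?_, ?_⟩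
  · rw [map_add, h.2.1, h'.2.1]
  · rw [map_add, map_add, map_add, ← h.2.2, ← h'.2.2]
    abel

theorem lift_sub' {N : ℕ} {ρ : B →+* B} {z z' : Ch Γ} {a a' : Ch (RT T D)} {q q' : LL Γ B}
    (h : IsLift N ρ z a q) (h' : IsLift N ρ z' a' q') : IsLift N ρ (z - z') (a - a') (q - q') := by
  refine ⟨AddSubgroup.sub_mem _ h.1 h'.1, ?_, ?_⟩
  · rw [map_sub, h.2.1, h'.2.1]
  · rw [map_sub, map_sub, map_sub, ← h.2.2, ← h'.2.2]
    abel

/-- the values at the chains with entries in `IQ` -/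
theorem gen (hLLB : SpecLLB.{u, v, w}) {N : ℕ} {ρ : B →+* B} (hD : IsDD N ρ T D)
    {β f g : List (RT T D) → H} (h : IsFn N ρ β f g) (δ : Ch (RT T D))
    (hδ : δ ∈ Cl (IQ (T := T) (D := D) N ρ)) (hz : cmap RT.y δ = 0) :
    ∃ κ : LL Γ B, FreeAbelianGroup.lift β δ = FL (bdF f) κ ∧ lamL T D δ = κ - rhL ρ κ := by
  obtain ⟨K, hK0, hK⟩ := exK hD.ker
  choose c hc using hD.surj
  have hJ : Jadd (bdF f) := hLLB.jb Γ B H T D f h.addf
  let cl : List Γ → ℕ → B := fun l j => (l.map c).getD j 0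
  let B₀ : Ch Γ →+ H := FreeAbelianGroup.lift fun l => β (pr T D l (cl l))
  let C₀ : Ch Γ →+ LL Γ B := FreeAbelianGroup.lift fun l => Finsupp.single l (cl l)
  have key : ∃ κ : LL Γ B, FreeAbelianGroup.lift β δ =
      B₀ (cmap RT.y δ) + FLh hLLB (bdF f) hJ κ ∧
      lamL T D δ = C₀ (cmap RT.y δ) + (κ - rhL ρ κ) := by
    refine AddSubgroup.closure_induction
      (p := fun δ _ => ∃ κ : LL Γ B, FreeAbelianGroup.lift β δ =
        B₀ (cmap RT.y δ) + FLh hLLB (bdF f) hJ κ ∧
        lamL T D δ = C₀ (cmap RT.y δ) + (κ - rhL ρ κ)) ?_ ?_ ?_ ?_ hδ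
    · rintro _ ⟨l, hl, rfl⟩
      set ys : List Γ := l.map RT.y with hys
      set qs : ℕ → B := fun j => (l.map RT.q).getD j 0 with hqs
      let κ₀ : ℕ → B := fun j => K (qs j - cl ys j)
      have hsec : ∀ a ∈ pr T D ys (cl ys), IQ N ρ a := by
        intro a ha
        have h1 : pr T D ys (cl ys) = ys.map (fun y => (⟨y, c y⟩ : RT T D)) := pr_sec c ys
        rw [h1] at ha
        obtain ⟨y, -, rfl⟩ := List.mem_map.1 ha
        exact hc y
      have hn : ∀ j, nm ρ N (qs j - cl ys j) = 0 := by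
        intro j
        have h1 := nm_getD l hl j
        have h2 := nm_getD (ys.map (fun y => (⟨y, c y⟩ : RT T D))) (N := N) (ρ := ρ) (by
          intro a ha
          obtain ⟨y, -, rfl⟩ := List.mem_map.1 ha
          exact hc y) j
        have h3 : (ys.map (fun y => (⟨y, c y⟩ : RT T D))).map RT.q = ys.map c := by
          rw [List.map_map]
          rfl
        have h4 : (ys.map (fun y => (⟨y, c y⟩ : RT T D))).map RT.y = ys := by
          rw [List.map_map]
          exact List.map_id ys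
        rw [h3, h4] at h2
        rw [nm_sub, h1]
        exact sub_eq_zero.2 h2.symm
      have hq : (fun j => cl ys j + (κ₀ j - ρ (κ₀ j))) = qs := by
        funext j
        have h1 := hK _ (hn j)
        have h2 : κ₀ j - ρ (κ₀ j) = qs j - cl ys j := h1.symm
        rw [h2, add_sub_cancel]
      have hvar := h.var ys (cl ys) κ₀ hsec
      rw [hq] at hvar
      have hl' : pr T D ys qs = l := pr_map l
      rw [hl'] at hvar
      refine ⟨Finsupp.single ys κ₀, ?_, ?_⟩
      · rw [FreeAbelianGroup.lift_apply_of, cmap, FreeAbelianGroup.map_of_apply, FLh_apply,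
          FL_single hJ, ← hvar]
        have h1 : B₀ (FreeAbelianGroup.of (List.map RT.y l)) = β (pr T D ys (cl ys)) :=
          FreeAbelianGroup.lift_apply_of _ _
        rw [h1]
        abel
      · rw [lamL, FreeAbelianGroup.lift_apply_of, cmap, FreeAbelianGroup.map_of_apply]
        have h1 : C₀ (FreeAbelianGroup.of (List.map RT.y l)) = Finsupp.single ys (cl ys) :=
          FreeAbelianGroup.lift_apply_of _ _
        have h2 : rhL ρ (Finsupp.single ys κ₀) = Finsupp.single ys (fun j => ρ (κ₀ j)) := by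
          rw [rhL, Finsupp.mapRange.addMonoidHom_apply, Finsupp.mapRange_single]
          rfl
        rw [h1, h2, ← Finsupp.single_sub, ← Finsupp.single_add]
        congr 1
        exact hq.symm
    · refine ⟨0, ?_, ?_⟩
      · simp only [map_zero, add_zero]
      · simp only [map_zero, add_zero, sub_zero]
    · rintro a b _ _ ⟨κ, h1, h2⟩ ⟨κ', h1', h2'⟩
      refine ⟨κ + κ', ?_, ?_⟩
      · simp only [map_add, h1, h1']
        abel
      · simp only [map_add, h2, h2']
        abel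
    · rintro a _ ⟨κ, h1, h2⟩
      refine ⟨-κ, ?_, ?_⟩
      · simp only [map_neg, h1]
        abel
      · simp only [map_neg, h2]
        abel
  obtain ⟨κ, h1, h2⟩ := key
  refine ⟨κ, ?_, ?_⟩
  · rw [h1, hz, map_zero, zero_add, FLh_apply]
  · rw [h2, hz, map_zero, zero_add]

/-- the lifts of `0` have the value `0` -/
theorem hv_zero (hLLB : SpecLLB.{u, v, w}) {N : ℕ} {ρ : B →+* B} (hD : IsDD N ρ T D)
    {β f g : List (RT T D) → H} (h : IsFn N ρ β f g) (δ : Ch (RT T D)) (p : LL Γ B)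
    (hl : IsLift N ρ 0 δ p) : hv β f g δ p = 0 := by
  obtain ⟨κ, h1, h2⟩ := gen hLLB hD h δ hl.1 hl.2.1
  set r : LL Γ B := p - bdL T D κ with hr
  have hp : p = bdL T D κ + r := by
    rw [hr]
    abel
  have hfix : rhL ρ r = r := by
    have h3 := hl.2.2
    rw [← hLLB.bd, h2] at h3
    have h4 : bdL T D (κ - rhL ρ κ) = bdL T D κ - rhL ρ (bdL T D κ) := by
      rw [← hLLB.rh Γ B ρ T D hD.rT hD.rD]
      exact map_sub (bdLh hLLB T D) _ _
    rw [h4] at h3
    rw [hr, map_sub]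
    have h5 : p - bdL T D κ - (rhL ρ p - rhL ρ (bdL T D κ)) = 0 := by
      have : p - bdL T D κ - (rhL ρ p - rhL ρ (bdL T D κ)) =
          (p - rhL ρ p) - (bdL T D κ - rhL ρ (bdL T D κ)) := by abel
      rw [this, h3, sub_self]
    exact (sub_eq_zero.1 h5).symm
  have hfg : FL f r = FL g (bdL T D r) := by
    rw [← hLLB.FB Γ B H T D g h.addg, FL, FL]
    refine Finsupp.sum_congr (fun l _ => ?_)
    refine (h.fin _ ?_).symm
    have h6 : ∀ j, ρ (r l j) = r l j := by
      intro j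
      rw [← rhL_apply, hfix]
    intro a ha
    exact pr_fix l _ h6 a ha
  rw [hv, h1, hLLB.FB Γ B H T D f h.addf, hp, hLLB.badd, hLLB.bb, zero_add,
    hLLB.add Γ B H T D f h.addf, ← hfg]
  abel

end values

end data

end DSCM

open DSCM

theorem specDSC_ex {Γ : Type u} {B : Type v} [Group Γ] [Ring B] (N : ℕ) (ρ : B →+* B)
    (T D : Γ →* Bˣ) (hD : IsDD N ρ T D) (z : Ch Γ) (hz : bd z = 0) :
    ∃ a q, IsLift (T := T) (D := D) N ρ z a q := by
  choose c hc using hD.surj
  let s : Γ → RT T D := fun y => ⟨y, c y⟩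
  have ha : cmap s z ∈ Cl (IQ (T := T) (D := D) N ρ) := cmap_mem _ s hc z
  have hy : cmap RT.y (cmap s z) = z := cmap_cmap s RT.y (fun _ => rfl) z
  have hb : bd (cmap s z) ∈ Cl (IQ (T := T) (D := D) N ρ) :=
    bd_mem _ (fun a b => IQ_mul hD a b) _ ha
  have h1 : nmL ρ N (lamL T D (bd (cmap s z))) = 0 := by
    rw [nm_lam _ hb, ← bd_cmap RT.y (fun _ _ => rfl), hy, hz, map_zero]
  obtain ⟨q, hq⟩ := solve hD.ker _ h1
  exact ⟨cmap s z, q, ha, hy, hq⟩

theorem specDSC_ev (hLLB : SpecLLB.{u, v, w}) {Γ : Type u} {B : Type v} {H : Type w} [Group Γ]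
    [Ring B] [AddCommGroup H] (N : ℕ) (ρ : B →+* B) (T D : Γ →* Bˣ) (hD : IsDD N ρ T D)
    (β f g : List (RT T D) → H) (h : IsFn N ρ β f g) (z : Ch Γ) (a : Ch (RT T D)) (q : LL Γ B)
    (hl : IsLift N ρ z a q) : hh N ρ β f g z = hv β f g a q := by
  have hex : ∃ a q, IsLift (T := T) (D := D) N ρ z a q := ⟨a, q, hl⟩
  have h1 : IsLift N ρ z hex.choose hex.choose_spec.choose := hex.choose_spec.choose_spec
  rw [hh, dif_pos hex]
  have h2 := lift_sub' h1 hl
  rw [sub_self] at h2
  have h3 := hv_zero hLLB hD h _ _ h2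
  rw [hv_sub hLLB h] at h3
  exact sub_eq_zero.1 h3

theorem specDSC (_ : SpecALT.{u, v, w}) (hLLB : SpecLLB.{u, v, w}) : SpecDSC.{u, v, w} where
  ex := by
    intro Γ B _ _ N ρ T D hD z hz
    exact specDSC_ex N ρ T D hD z hz
  ev := by
    intro Γ B H _ _ _ N ρ T D hD β f g h z _ a q hl
    exact specDSC_ev hLLB N ρ T D hD β f g h z a q hl
  add := by
    intro Γ B H _ _ _ N ρ T D hD β f g h z z' hz hz'
    obtain ⟨a, q, hl⟩ := specDSC_ex N ρ T D hD z hz
    obtain ⟨a', q', hl'⟩ := specDSC_ex N ρ T D hD z' hz'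
    rw [specDSC_ev hLLB N ρ T D hD β f g h _ _ _ hl, specDSC_ev hLLB N ρ T D hD β f g h _ _ _ hl',
      specDSC_ev hLLB N ρ T D hD β f g h _ _ _ (lift_add' hl hl'), hv_add hLLB h]
  bdr := by
    intro Γ B H _ _ _ N ρ T D hD β f g h w
    choose c hc using hD.surj
    let s : Γ → RT T D := fun y => ⟨y, c y⟩
    have ha : cmap s w ∈ Cl (IQ (T := T) (D := D) N ρ) := cmap_mem _ s hc w
    have hy : cmap RT.y (cmap s w) = w := cmap_cmap s RT.y (fun _ => rfl) w
    have hb : bd (cmap s w) ∈ Cl (IQ (T := T) (D := D) N ρ) :=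
      bd_mem _ (fun a b => IQ_mul hD a b) _ ha
    have hl : IsLift N ρ (bd w) (bd (cmap s w)) 0 := by
      refine ⟨hb, ?_, ?_⟩
      · rw [← bd_cmap RT.y (fun _ _ => rfl), hy]
      · rw [map_zero, sub_zero, bd_bd, map_zero]
    rw [specDSC_ev hLLB N ρ T D hD β f g h _ _ _ hl, hv, lift_bd]
    clear hl
    have h1 : FL f (0 : LL Γ B) = 0 := by rw [FL, Finsupp.sum_zero_index]
    have h2 : bdL T D (0 : LL Γ B) = 0 := by rw [bdL, FL, Finsupp.sum_zero_index]
    have h3 : FL g (0 : LL Γ B) = 0 := by rw [FL, Finsupp.sum_zero_index]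
    have h4 : FreeAbelianGroup.lift (bdF β) (cmap s w) = 0 := by
      refine AddSubgroup.closure_induction
        (p := fun δ _ => FreeAbelianGroup.lift (bdF β) δ = 0) ?_ ?_ ?_ ?_ ha
      · rintro _ ⟨l, hl, rfl⟩
        rw [FreeAbelianGroup.lift_apply_of]
        exact h.bet l hl
      · exact map_zero _
      · intro a b _ _ h1 h2
        rw [map_add, h1, h2, add_zero]
      · intro a _ h1
        rw [map_neg, h1, neg_zero]
    rw [h1, h2, h3, h4, sub_zero, add_zero]

end Pool.Agent.Lib.MPb6f35e.KA
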