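import Pool.Agent.Lib.MP_b6f35e_al.KA.SpecG
import Pool.Agent.Lib.MP_b6f35e_al.KA.DSC
import Pool.Agent.Lib.MP_b6f35e_al.K2.AL4

/-!
# Rational K-theory in all degrees (MP_b6f35e_al), module AA4

All generators primitive over the same subgroup: a multiple of the sum is in the hidden part.
Adapted from `K2/AL4.lean`.
-/

set_option autoImplicit false

noncomputable section

namespace Pool.Agent.Lib.MPb6f35e.KA

open Pool.Agent.Lib.MPb6f35e.WH
open Pool.Agent.Lib.MPb6f35e.K2 (SpecLGG Supp sec)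
open Pool.Agent.Lib.MPb6f35e.K2.AL3aux (cjU cj_coeff ring_cj single_inv_mul single_mul_inv
  mem_zpowers_conj)
open Pool.Agent.Lib.MPb6f35e.K2.AL4aux (sec_spec sum_flat2 sum_comm' zp_conj)

universe u v

namespace AA4M

/-! ### chains -/

theorem ch_cmap {X : Type u} {Y : Type v} (n : ℕ) (P : X → Prop) (Q : Y → Prop) (f : X → Y)
    (hf : ∀ x, P x → Q (f x)) (z : Ch X) (hz : z ∈ ch n P) : cmap f z ∈ ch n Q := by
  refine AddSubgroup.closure_induction (p := fun z _ => cmap f z ∈ ch n Q) ?_ ?_ ?_ ?_ hz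
  · rintro _ ⟨l, hl, hP, rfl⟩
    rw [cmap, FreeAbelianGroup.map_of_apply]
    refine AddSubgroup.subset_closure ⟨l.map f, ?_, ?_, rfl⟩
    · rw [List.length_map, hl]
    · intro y hy
      obtain ⟨x, hx, rfl⟩ := List.mem_map.1 hy
      exact hf x (hP x hx)
  · rw [map_zero]
    exact zero_mem _
  · intro a b _ _ ha hb
    rw [map_add]
    exact add_mem ha hb
  · intro a _ ha
    rw [map_neg]
    exact neg_mem ha

theorem cyc_cmap {X : Type u} {Y : Type v} [Mul X] [Mul Y] (n : ℕ) (P : X → Prop) (Q : Y → Prop)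
    (f : X → Y) (hm : ∀ a b, f (a * b) = f a * f b) (hf : ∀ x, P x → Q (f x)) (z : Ch X)
    (hz : z ∈ cyc n P) : cmap f z ∈ cyc n Q := by
  refine ⟨ch_cmap n P Q f hf z hz.1, ?_⟩
  have h1 : bd z = 0 := hz.2
  show bd (cmap f z) = 0
  rw [DSCM.bd_cmap f hm, h1, map_zero]

theorem cyc_mono {X : Type u} [Mul X] (n : ℕ) (P Q : X → Prop) (h : ∀ x, P x → Q x) (z : Ch X)
    (hz : z ∈ cyc n P) : z ∈ cyc n Q := by
  refine ⟨AddSubgroup.closure_mono ?_ hz.1, hz.2⟩
  rintro _ ⟨l, hl, hP, rfl⟩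
  exact ⟨l, hl, fun x hx => h x (hP x hx), rfl⟩

/-! ### conjugation of a generator -/

section conj

variable {n : ℕ} {R : Type u} [CommRing R] {G : Type v} [Group G]

/-- The generator `(D, g⁻¹ z g, g⁻¹ u g)`. -/
def cjG (x : GenT n R G) (D : Subgroup G) (hf : Finite D) (hc : IsCyclic D) (g : G)
    (h : ∀ k, k ∈ x.C ↔ g⁻¹ * k * g ∈ D) : GenT n R G where
  C := D
  fin := hf
  cy := hc
  z := cmap (fun y => g⁻¹ * y * g) x.z
  hz := by
    refine cyc_cmap n (Cen x.C) (Cen D) _ (fun a b => by group) ?_ x.z x.hz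
    intro y hy k hk
    have h1 : g * k * g⁻¹ ∈ x.C := by
      rw [h]
      have e : g⁻¹ * (g * k * g⁻¹) * g = k := by group
      rw [e]
      exact hk
    have h2 := hy _ h1
    calc g⁻¹ * y * g * k = g⁻¹ * (y * (g * k * g⁻¹)) * g := by group
      _ = g⁻¹ * ((g * k * g⁻¹) * y) * g := by rw [h2]
      _ = k * (g⁻¹ * y * g) := by group
  u := cjU g x.u
  hu := by
    constructor
    · intro k hk
      have h1 := x.hu.1 (g * k * g⁻¹) (by rw [← cj_coeff]; exact hk)
      rw [h] at h1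
      have e : g⁻¹ * (g * k * g⁻¹) * g = k := by group
      rw [e] at h1
      exact h1
    · intro k hk
      have h1 := x.hu.2 (g * k * g⁻¹) (by rw [← cj_coeff]; exact hk)
      rw [h] at h1
      have e : g⁻¹ * (g * k * g⁻¹) * g = k := by group
      rw [e] at h1
      exact h1

end conj

section facts

variable {p : ℕ} [Fact p.Prime] {n : ℕ} {R : Type u} [CommRing R] (i : R →+* ℤ_[p]) {G : Type v}
  [Group G]

variable (x : GenT n R G) (D : Subgroup G) (hf : Finite D) (hc : IsCyclic D) (g : G)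
  (h : ∀ k, k ∈ x.C ↔ g⁻¹ * k * g ∈ D)

lemma LG_cj (hLGG : SpecLGG.{u, v}) (hp : p ≠ 2) (k : G) :
    LG p i (cjG x D hf hc g h) k = LG p i x (g * k * g⁻¹) := by
  have h1 := hLGG.conj p hp G (MonoidAlgebra.mapRingHom G i x.u.val) g⁻¹ (g * k * g⁻¹)
  rw [inv_inv] at h1
  have e : g⁻¹ * (g * k * g⁻¹) * g = k := by group
  rw [e, ← ring_cj] at h1
  exact h1

lemma one_cj (h1 : One1 p i x) : One1 p i (cjG x D hf hc g h) := by
  obtain ⟨a, ha⟩ := h1
  refine ⟨MonoidAlgebra.single g⁻¹ 1 * a * MonoidAlgebra.single g 1, ?_⟩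
  have h2 : MonoidAlgebra.mapRingHom G i (cjG x D hf hc g h).u.val =
      MonoidAlgebra.single g⁻¹ 1 * MonoidAlgebra.mapRingHom G i x.u.val *
        MonoidAlgebra.single g 1 := ring_cj i g x.u
  rw [h2, ha, mul_add, add_mul, mul_one, single_inv_mul, mul_smul_comm, smul_mul_assoc]

lemma prim_cj (hLGG : SpecLGG.{u, v}) (hp : p ≠ 2) (h1 : Prim p i x) :
    Prim p i (cjG x D hf hc g h) := by
  intro k hk
  rw [LG_cj i x D hf hc g h hLGG hp] at hk
  have h2 := h1 _ hk
  show Subgroup.zpowers k = D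
  ext m
  have h3 : m ∈ D ↔ g * m * g⁻¹ ∈ x.C := by
    rw [h]
    have e : g⁻¹ * (g * m * g⁻¹) * g = m := by group
    rw [e]
  rw [h3, ← h2, mem_zpowers_conj]
  have e : g⁻¹ * (g * m * g⁻¹) * g = m := by group
  rw [e]

lemma cls_cj (hTRA : SpecTRA.{u, v}) :
    D1.cls (RelT n R G) (cjG x D hf hc g h) = D1.cls (RelT n R G) x := by
  refine (hTRA.conj n R G (cjG x D hf hc g h) x g ?_ rfl ?_).symm
  · intro k hk
    rw [h]
    have e : g⁻¹ * (g * k * g⁻¹) * g = k := by group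
    rw [e]
    exact hk
  · show MonoidAlgebra.single g 1 * (MonoidAlgebra.single g⁻¹ 1 * x.u.val *
      MonoidAlgebra.single g 1) = x.u.val * MonoidAlgebra.single g 1
    rw [← mul_assoc, ← mul_assoc, single_mul_inv, one_mul]

end facts

end AA4M

open AA4M in
/-- AA4 -/
theorem specAA4 (hAA5 : SpecAA5.{u, v}) (hLGG : SpecLGG.{u, v}) (hTRA : SpecTRA.{u, v})
    (hTHZ : SpecTHZ.{v, 0}) : SpecAA4.{u, v} := by
  classical
  intro p _ hp n R₀ _ i hi G _ D l hl hSG
  by_cases hne : l = []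
  · subst hne
    exact ⟨1, one_pos, by simp [tsum]⟩
  obtain ⟨y₀, hy₀⟩ := List.exists_mem_of_ne_nil l hne
  have fin : Finite D := (hl y₀ hy₀).1 ▸ y₀.fin
  have cyc' : IsCyclic D := (hl y₀ hy₀).1 ▸ y₀.cy
  obtain ⟨c₀, hc₀⟩ : ∃ c₀ : G, Subgroup.zpowers c₀ = D := by
    obtain ⟨g, hg⟩ := (Subgroup.isCyclic_iff_exists_zpowers_eq_top D).1 cyc'
    exact ⟨g, hg⟩
  have hset : {h : G | h ∈ D ∧ ∃ t, t * c₀ * t⁻¹ = h}.Finite :=
    (Set.toFinite (D : Set G)).subset fun h hh => hh.1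
  set Hc := hset.toFinset with hHc
  have hHm : ∀ h, h ∈ Hc ↔ h ∈ D ∧ ∃ t, t * c₀ * t⁻¹ = h := by
    intro h
    rw [hHc, Set.Finite.mem_toFinset]
    rfl
  have hc₀D : c₀ ∈ D := hc₀ ▸ Subgroup.mem_zpowers c₀
  have hHne : 0 < Hc.card :=
    Finset.card_pos.2 ⟨c₀, (hHm c₀).2 ⟨hc₀D, 1, by simp⟩⟩
  -- the conjugating elements normalise `D`
  have hnorm : ∀ h ∈ Hc, ∀ k, k ∈ D ↔ (sec c₀ h)⁻¹ * k * sec c₀ h ∈ D := by
    intro h hh k
    have h1 := sec_spec ((hHm h).1 hh).2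
    have h2 : Subgroup.zpowers (sec c₀ h * c₀ * (sec c₀ h)⁻¹) = D :=
      zp_conj fin hc₀ (by rw [h1]; exact ((hHm h).1 hh).1)
    conv_lhs => rw [← h2]
    rw [mem_zpowers_conj, hc₀]
  let yh : G → GenT n R₀ G → GenT n R₀ G := fun h y =>
    if cond : ∀ k, k ∈ y.C ↔ (sec c₀ h)⁻¹ * k * sec c₀ h ∈ D then
      cjG y D fin cyc' (sec c₀ h) cond else y
  have hcond : ∀ h ∈ Hc, ∀ y ∈ l, ∀ k, k ∈ y.C ↔ (sec c₀ h)⁻¹ * k * sec c₀ h ∈ D := by
    intro h hh y hy k
    rw [(hl y hy).1]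
    exact hnorm h hh k
  have hyh : ∀ h (hh : h ∈ Hc) y (hy : y ∈ l),
      yh h y = cjG y D fin cyc' (sec c₀ h) (hcond h hh y hy) := fun h hh y hy =>
    dif_pos (hcond h hh y hy)
  set l' := Hc.toList.flatMap fun h => l.map (yh h) with hl'
  have hmem' : ∀ a ∈ l', ∃ h ∈ Hc, ∃ y ∈ l, a = yh h y := by
    intro a ha
    rw [hl', List.mem_flatMap] at ha
    obtain ⟨h, hh, ha⟩ := ha
    obtain ⟨y, hy, rfl⟩ := List.mem_map.1 ha
    exact ⟨h, Finset.mem_toList.1 hh, y, hy, rfl⟩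
  obtain ⟨m, hm, hmem⟩ := hAA5 p hp n R₀ i hi G D l' (by
    intro a ha
    obtain ⟨h, hh, y, hy, rfl⟩ := hmem' a ha
    rw [hyh h hh y hy]
    exact ⟨rfl, one_cj i y D fin cyc' _ _ (hl y hy).2.1⟩) (by
    intro X hX g
    rw [hl', sum_flat2]
    by_cases hg : Subgroup.zpowers g = D
    · -- `g` generates `D`
      have hcent : ∀ a, a * g = g * a → ∀ h ∈ D, a * h = h * a := by
        intro a ha h hh
        rw [← hg, Subgroup.mem_zpowers_iff] at hh
        obtain ⟨n, rfl⟩ := hh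
        exact (show Commute a g from ha).zpow_right n
      have hgD : g ∈ D := hg ▸ Subgroup.mem_zpowers g
      have hCC : Cz g = Cen D := funext fun a => propext ⟨hcent a, fun ha => ha g hgD⟩
      have hXg : HomC n (Cz g) X := by
        rw [hCC]
        exact hX
      have hgfin : IsOfFinOrder g := by
        have h1 : IsOfFinOrder (⟨g, hgD⟩ : D) := isOfFinOrder_of_finite _
        exact (Submonoid.isOfFinOrder_coe (H := D.toSubmonoid) (x := ⟨g, hgD⟩)).2 h1
      have h0 := hSG g X hgfin hXg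
      rw [← h0]
      congr 1
      refine List.map_congr_left fun y hy => ?_
      obtain ⟨k, hk⟩ : ∃ k : ℤ, c₀ ^ k = g := by
        rw [← hc₀, Subgroup.mem_zpowers_iff] at hgD
        exact hgD
      obtain ⟨n', hn⟩ : ∃ n : ℤ, g ^ n = c₀ := by
        rw [← hg, Subgroup.mem_zpowers_iff] at hc₀D
        exact hc₀D
      have hconj : ∀ h ∈ Hc, sec c₀ h * g * (sec c₀ h)⁻¹ = h ^ k := by
        intro h hh
        have h1 := sec_spec ((hHm h).1 hh).2
        rw [← hk, ← conj_zpow, h1]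
      have hback : ∀ h ∈ Hc, (h ^ k) ^ n' = h := by
        intro h hh
        have h1 := sec_spec ((hHm h).1 hh).2
        rw [← hconj h hh, conj_zpow, hn, h1]
      have hinj : Set.InjOn (fun h => sec c₀ h * g * (sec c₀ h)⁻¹) (Hc : Set G) := by
        intro h hh h' hh' he
        have hh1 : h ∈ Hc := hh
        have hh2 : h' ∈ Hc := hh'
        change sec c₀ h * g * (sec c₀ h)⁻¹ = sec c₀ h' * g * (sec c₀ h')⁻¹ at he
        rw [hconj h hh1, hconj h' hh2] at he
        rw [← hback h hh1, he, hback h' hh2]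
      unfold SG
      rw [finsum_eq_sum_of_support_subset (s := Hc.image fun h => sec c₀ h * g * (sec c₀ h)⁻¹)]
      · rw [Finset.sum_image hinj]
        refine Finset.sum_congr rfl fun h hh => ?_
        rw [hyh h hh y hy, LG_cj i y D fin cyc' _ _ hLGG hp]
        have hgD' : sec c₀ h * g * (sec c₀ h)⁻¹ ∈ y.C := by
          rw [(hl y hy).1, hnorm h hh]
          have e : (sec c₀ h)⁻¹ * (sec c₀ h * g * (sec c₀ h)⁻¹) * sec c₀ h = g := by group
          rw [e]
          exact hgD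
        rw [hTHZ.val G ℤ_[p] n g X hXg (sec c₀ h * g * (sec c₀ h)⁻¹) (sec c₀ h) rfl y.z
          (cyc_mono n (Cen y.C) _ (fun a ha => ha _ hgD') y.z y.hz)]
        rfl
      · intro a ha
        rw [Function.mem_support] at ha
        have h1 := (hl y hy).2.2 a (right_ne_zero_of_mul ha)
        rw [(hl y hy).1] at h1
        have h2 : ∃ t, t * g * t⁻¹ = a := by
          by_contra hn'
          apply left_ne_zero_of_mul ha
          rw [hTHZ.zero G ℤ_[p] g X _ a hn']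
          rfl
        obtain ⟨t, ht⟩ := h2
        have haD : a ∈ D := h1 ▸ Subgroup.mem_zpowers a
        have h3 : t * c₀ * t⁻¹ = a ^ n' := by
          rw [← ht, conj_zpow, hn]
        have h4 : a ^ n' ∈ Hc := (hHm _).2 ⟨D.zpow_mem haD n', t, h3⟩
        have h5 : (a ^ n') ^ k = a := by
          rw [← h3, conj_zpow, hk, ht]
        rw [Finset.coe_image]
        exact ⟨a ^ n', h4, (hconj _ h4).trans h5⟩
    · -- `g` does not generate `D`
      apply List.sum_eq_zero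
      intro s hs
      obtain ⟨y, hy, rfl⟩ := List.mem_map.1 hs
      refine Finset.sum_eq_zero fun h hh => ?_
      have h1 : LG p i (yh h y) g = 0 := by
        by_contra hne'
        rw [hyh h hh y hy] at hne'
        exact hg (prim_cj i y D fin cyc' _ (hcond h hh y hy) hLGG hp (hl y hy).2.2 g hne')
      rw [h1, mul_zero])
  refine ⟨m * Hc.card, Nat.mul_pos hm hHne, ?_⟩
  have h1 : tsum n R₀ G l' = Hc.card • tsum n R₀ G l := by
    unfold tsum
    rw [hl', sum_flat2]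
    rw [← Finset.sum_const]
    have h2 : (l.map fun y => ∑ h ∈ Hc, D1.cls (RelT n R₀ G) (yh h y)) =
        l.map fun y => ∑ _h ∈ Hc, D1.cls (RelT n R₀ G) y := by
      refine List.map_congr_left fun y hy => Finset.sum_congr rfl fun h hh => ?_
      rw [hyh h hh y hy]
      exact cls_cj y D fin cyc' _ _ hTRA
    rw [h2, ← sum_comm' l Hc fun _ y => D1.cls (RelT n R₀ G) y, Finset.sum_map_toList]
  rw [mul_smul, ← h1]
  exact hmem

end Pool.Agent.Lib.MPb6f35e.KA
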