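import Pool.Agent.Lib.MP_b6f35e_al.KA.SpecG
import Pool.Agent.Lib.MP_b6f35e_al.K2.AL5

/-!
# Rational K-theory in all degrees (MP_b6f35e_al), module AA5

All generators over the same subgroup: a multiple of the sum is in the hidden part.
-/

set_option autoImplicit false

noncomputable section

namespace Pool.Agent.Lib.MPb6f35e.KA

open Pool.Agent.Lib.MPb6f35e.WH
open Pool.Agent.Lib.MPb6f35e.K2 (SpecLGG Supp)

universe u v

namespace AA5M

open Pool.Agent.Lib.MPb6f35e.K2.AL5aux

section add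

variable {A B : Type*} [AddGroup A] [AddCommGroup B] {f : A → B}

theorem g_zsmul (h : ∀ a b, f (a + b) = f a + f b) (m : ℤ) (a : A) : f (m • a) = m • f a :=
  map_zsmul (AddMonoidHom.mk' f h) m a

end add

/-- The abstract statement, with a set `Bd` of elements on which the homomorphisms vanish. -/
theorem main_abs {Z U T ι : Type*} [AddCommGroup Z] [Group U] [AddCommGroup T] (p : ℕ)
    [Fact p.Prime] (Bd : Set Z)
    (c : Z → U → T) (hz : ∀ z z' u, c (z + z') u = c z u + c z' u)
    (hu : ∀ z u u', c z (u * u') = c z u + c z u')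
    (L : U → ι → ℚ_[p]) (hL : ∀ u u' g, L (u * u') g = L u g + L u' g)
    (hinj : ∀ u, (∀ g, L u g = 0) → u = 1)
    (H : AddSubgroup T) (Hid : Z → Prop) (hH : ∀ z u, Hid z → c z u ∈ H)
    (hχ : ∀ z, ¬ Hid z → ∃ χ : Z → ℚ, (∀ a b, χ (a + b) = χ a + χ b) ∧ (∀ b ∈ Bd, χ b = 0) ∧
      (∀ a, ¬ p ∣ (χ a).den) ∧ χ z ≠ 0) :
    ∀ (n : ℕ) (l : List (Z × U)), l.length = n →
      (∀ X : Z → ℤ_[p], (∀ a b, X (a + b) = X a + X b) → (∀ b ∈ Bd, X b = 0) → ∀ g,
        (l.map fun y => (X y.1 : ℚ_[p]) * L y.2 g).sum = 0) →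
      ∃ m : ℕ, 0 < m ∧ m • (l.map fun y => c y.1 y.2).sum ∈ H := by
  intro n
  induction n with
  | zero =>
    intro l hl _
    rw [List.length_eq_zero_iff] at hl
    subst hl
    exact ⟨1, one_pos, by simp⟩
  | succ n ih =>
    intro l hl hX
    by_cases hall : ∀ y ∈ l, Hid y.1
    · refine ⟨1, one_pos, ?_⟩
      rw [one_smul]
      refine list_sum_mem fun t ht => ?_
      obtain ⟨y, hy, rfl⟩ := List.mem_map.1 ht
      exact hH _ _ (hall y hy)
    push Not at hall
    obtain ⟨x, hx, hxh⟩ := hall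
    obtain ⟨χ, hχ1, hχ0, hχ2, hχ3⟩ := hχ x.1 hxh
    obtain ⟨k, hk, hA⟩ := exists_den l fun y => χ y.1
    choose! A hA using hA
    have hk0 : (k : ℚ) ≠ 0 := Nat.cast_ne_zero.2 hk.ne'
    have hAx : A x ≠ 0 := by
      intro h0
      have h1 := hA x hx
      rw [h0, Int.cast_zero] at h1
      rcases mul_eq_zero.1 h1.symm with h2 | h2
      · exact hk0 h2
      · exact hχ3 h2
    -- the relation for `χ`
    have hrel : ∀ g, (l.map fun y => (A y : ℚ_[p]) * L y.2 g).sum = 0 := by
      intro g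
      have h1 := hX (fun a => ⟨((χ a : ℚ) : ℚ_[p]), Padic.norm_rat_le_one (hχ2 a)⟩) (by
        intro a b
        apply Subtype.ext
        change ((χ (a + b) : ℚ) : ℚ_[p]) = ((χ a : ℚ) : ℚ_[p]) + ((χ b : ℚ) : ℚ_[p])
        rw [hχ1, Rat.cast_add]) (by
        intro b hb
        apply Subtype.ext
        change ((χ b : ℚ) : ℚ_[p]) = 0
        rw [hχ0 b hb, Rat.cast_zero]) g
      have h2 : (l.map fun y => (A y : ℚ_[p]) * L y.2 g) =
          l.map fun y => (k : ℚ_[p]) * (((χ y.1 : ℚ) : ℚ_[p]) * L y.2 g) := by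
        refine List.map_congr_left fun y hy => ?_
        have h3 : (A y : ℚ_[p]) = (k : ℚ_[p]) * ((χ y.1 : ℚ) : ℚ_[p]) := by
          have h4 := congrArg (fun q : ℚ => (q : ℚ_[p])) (hA y hy)
          push_cast at h4
          exact h4
        rw [h3, mul_assoc]
      rw [h2, sum_mul]
      change (k : ℚ_[p]) * (l.map fun y => ((χ y.1 : ℚ) : ℚ_[p]) * L y.2 g).sum = 0
      have h5 : (l.map fun y => ((χ y.1 : ℚ) : ℚ_[p]) * L y.2 g).sum = 0 := h1
      rw [h5, mul_zero]
    -- the relation between the units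
    have hprod : (l.map fun y => y.2 ^ A y).prod = 1 := by
      refine hinj _ fun g => ?_
      rw [f_prod (f := fun u => L u g) (fun u u' => hL u u' g), List.map_map]
      rw [← hrel g]
      congr 1
      refine List.map_congr_left fun y _ => ?_
      change L (y.2 ^ A y) g = _
      rw [f_zpow (f := fun u => L u g) (fun u u' => hL u u' g), zsmul_eq_mul]
    have hcx : (l.map fun y => A y • c x.1 y.2).sum = 0 := by
      have h1 := f_prod (f := c x.1) (hu x.1) (l.map fun y => y.2 ^ A y)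
      rw [hprod, f_one (hu x.1), List.map_map] at h1
      rw [h1]
      congr 1
      refine List.map_congr_left fun y _ => ?_
      change _ = c x.1 (y.2 ^ A y)
      rw [f_zpow (hu x.1)]
    obtain ⟨s, t, hst⟩ := List.append_of_mem hx
    let pr : Z × U → Z × U := fun y => (A x • y.1 + (-A y) • x.1, y.2)
    have hc : ∀ y, c (pr y).1 (pr y).2 = A x • c y.1 y.2 - A y • c x.1 y.2 := by
      intro y
      change c (A x • y.1 + (-A y) • x.1) y.2 = _
      rw [hz, g_zsmul (f := fun z => c z y.2) (fun z z' => hz z z' y.2),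
        g_zsmul (f := fun z => c z y.2) (fun z z' => hz z z' y.2), neg_smul, sub_eq_add_neg]
    obtain ⟨m, hm, hmem⟩ := ih ((s ++ t).map pr) (by
      rw [hst] at hl
      simp only [List.length_append, List.length_cons] at hl
      rw [List.length_map, List.length_append]
      omega) (by
      intro X hXm hX0 g
      have h1 : ∀ y, (X (pr y).1 : ℚ_[p]) * L (pr y).2 g =
          (A x : ℚ_[p]) * ((X y.1 : ℚ_[p]) * L y.2 g) -
            (X x.1 : ℚ_[p]) * ((A y : ℚ_[p]) * L y.2 g) := by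
        intro y
        change ((X (A x • y.1 + (-A y) • x.1) : ℤ_[p]) : ℚ_[p]) * L y.2 g = _
        rw [hXm, g_zsmul hXm, g_zsmul hXm, zsmul_eq_mul, zsmul_eq_mul]
        push_cast
        ring
      rw [List.map_map]
      change ((s ++ t).map fun y => (X (pr y).1 : ℚ_[p]) * L (pr y).2 g).sum = 0
      simp only [h1]
      rw [sum_split s t x _ (by ring), ← hst, sum_sub, sum_mul, sum_mul, hX X hXm hX0 g, hrel g]
      ring)
    have hsum : (((s ++ t).map pr).map fun y => c y.1 y.2).sum =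
        A x • (l.map fun y => c y.1 y.2).sum := by
      rw [List.map_map]
      change ((s ++ t).map fun y => c (pr y).1 (pr y).2).sum = _
      simp only [hc]
      rw [sum_split s t x _ (by rw [sub_self]), ← hst, sum_sub, sum_zsmul, hcx, sub_zero]
    rw [hsum] at hmem
    refine ⟨m * (A x).natAbs, Nat.mul_pos hm (Int.natAbs_pos.2 hAx), ?_⟩
    rw [mul_smul]
    rcases Int.natAbs_eq (A x) with h1 | h1
    · rw [h1, natCast_zsmul] at hmem
      exact hmem
    · rw [h1, neg_smul, natCast_zsmul, smul_neg, neg_mem_iff] at hmem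
      exact hmem

end AA5M

open Pool.Agent.Lib.MPb6f35e.K2.AL5aux AA5M in
/-- AA5 -/
theorem specAA5 (hLGG : SpecLGG.{u, v}) (hTRA : SpecTRA.{u, v}) : SpecAA5.{u, v} := by
  classical
  intro p _ hp n R₀ _ i hi G _ D l hl hX
  by_cases hne : l = []
  · subst hne
    exact ⟨1, one_pos, by simp [tsum]⟩
  obtain ⟨y₀, hy₀⟩ := List.exists_mem_of_ne_nil l hne
  have fin : Finite D := (hl y₀ hy₀).1 ▸ y₀.fin
  have cy : IsCyclic D := (hl y₀ hy₀).1 ▸ y₀.cy
  -- the pairing
  let gen : cyc n (Cen D) → US D p i → GenT n R₀ G := fun z u =>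
    ⟨D, fin, cy, z.1, z.2, u.1, u.2.1, u.2.2.1⟩
  let c : cyc n (Cen D) → US D p i → TGrp n R₀ G := fun z u =>
    D1.cls (RelT n R₀ G) (gen z u)
  let L : US D p i → G → ℚ_[p] := fun u g => lgP p (MonoidAlgebra.mapRingHom G i u.1.val) g
  have hz : ∀ z z' u, c (z + z') u = c z u + c z' u := fun z z' u =>
    hTRA.addz n R₀ G (gen z u) (gen z' u) (gen (z + z') u) rfl rfl rfl rfl rfl
  have hu : ∀ z u u', c z (u * u') = c z u + c z u' := fun z u u' =>
    hTRA.mulu n R₀ G (gen z u) (gen z u') (gen z (u * u')) rfl rfl rfl rfl rfl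
  have hLm : ∀ u u' g, L (u * u') g = L u g + L u' g := by
    intro u u' g
    change lgP p (MonoidAlgebra.mapRingHom G i (u.1.val * u'.1.val)) g = _
    rw [map_mul]
    exact hLGG.mul p hp G D cy _ _ (supp_map D p i u.2.1) (supp_map D p i u'.2.1) u.2.2.2
      u'.2.2.2 g
  have hinj : ∀ u, (∀ g, L u g = 0) → u = 1 := by
    intro u hu0
    have h1 := hLGG.inj p hp G D cy _ (supp_map D p i u.2.1) u.2.2.2 hu0
    apply Subtype.ext
    apply Units.ext
    change u.1.val = 1
    ext g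
    apply hi
    have h2 := congrArg (fun x : MonoidAlgebra ℤ_[p] G => x.coeff g) h1
    beta_reduce at h2
    rw [MonoidAlgebra.coeff_mapRingHom] at h2
    rw [h2, ← MonoidAlgebra.coeff_mapRingHom, map_one]
  -- the list of pairs
  have hmk : ∀ y : GenT n R₀ G, (y.C = D ∧ One1 p i y) → ∃ q : cyc n (Cen D) × US D p i,
      (q.1 : Ch G) = y.z ∧ q.2.1 = y.u ∧ c q.1 q.2 = D1.cls (RelT n R₀ G) y := by
    rintro ⟨C, hC, cC, z, hzz, u, hu1, hu2⟩ ⟨h1, h2⟩
    obtain rfl : C = D := h1
    exact ⟨(⟨z, hzz⟩, ⟨u, hu1, hu2, h2⟩), rfl, rfl, rfl⟩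
  choose! q hq using hmk
  have hmain := main_abs p {z : cyc n (Cen D) | ∃ w ∈ ch (n + 1) (Cen D), (z : Ch G) = bd w}
    c hz hu L hLm hinj (DSubS n p R₀ G {D})
    (fun z => Hidden n p D (z : Ch G)) (by
      intro z u hh
      exact AddSubgroup.subset_closure ⟨gen z u, rfl, hh, rfl⟩) (by
      intro z hh
      unfold Hidden at hh
      push Not at hh
      obtain ⟨χ, h1, h0, h2, h3⟩ := hh
      refine ⟨fun a => χ a, fun a b => h1 a a.2 b b.2, ?_, fun a => h2 a a.2, h3⟩
      rintro b ⟨w, hw, hb⟩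
      change χ (b : Ch G) = 0
      rw [hb]
      exact h0 w hw)
    _ (l.map q) rfl (by
      intro X hXm hX0 g
      have h1 := hX (fun a => if h : a ∈ cyc n (Cen D) then X ⟨a, h⟩ else 0) (by
        constructor
        · intro a ha b hb
          rw [dif_pos ha, dif_pos hb, dif_pos (add_mem ha hb), ← hXm]
          rfl
        · intro w hw
          by_cases h : bd w ∈ cyc n (Cen D)
          · rw [dif_pos h]
            exact hX0 _ ⟨w, hw, rfl⟩
          · rw [dif_neg h]) g
      rw [List.map_map, ← h1]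
      congr 1
      refine List.map_congr_left fun y hy => ?_
      obtain ⟨h2, h3, -⟩ := hq y (hl y hy)
      have h4 : y.z ∈ cyc n (Cen D) := h2 ▸ (q y).1.2
      change ((X (q y).1 : ℤ_[p]) : ℚ_[p]) * L (q y).2 g = _
      rw [dif_pos h4]
      have h5 : (q y).1 = ⟨y.z, h4⟩ := Subtype.ext h2
      have h6 : L (q y).2 g = LG p i y g := by
        change lgP p (MonoidAlgebra.mapRingHom G i (q y).2.1.val) g = _
        rw [h3]
        rfl
      rw [h5, h6])
  obtain ⟨m, hm, hmem⟩ := hmain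
  refine ⟨m, hm, ?_⟩
  have h7 : ((l.map q).map fun y => c y.1 y.2).sum = tsum n R₀ G l := by
    unfold tsum
    rw [List.map_map]
    congr 1
    exact List.map_congr_left fun y hy => (hq y (hl y hy)).2.2
  rw [← h7]
  exact hmem

end Pool.Agent.Lib.MPb6f35e.KA
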