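import Pool.Agent.Lib.MP_b6f35e_al.KA.SpecA

/-!
# Rational K-theory in all degrees (MP_b6f35e_al), module ALT: alternating sums and the bar complex
-/

set_option autoImplicit false

noncomputable section

namespace Pool.Agent.Lib.MPb6f35e.KA

universe u v w x

namespace ALTM

theorem alt_add {X : Type u} {M : Type v} [AddCommGroup M] (l : List X) : ∀ (F F' : List X → M),
    alt (fun l => F l + F' l) l = alt F l + alt F' l := by
  induction l with
  | nil => intro F F'; simp [alt]
  | cons x l ih =>
    intro F F'
    simp only [alt]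
    rw [ih (fun l' => F (x :: l')) (fun l' => F' (x :: l'))]
    abel

theorem alt_sub {X : Type u} {M : Type v} [AddCommGroup M] (l : List X) : ∀ (F F' : List X → M),
    alt (fun l => F l - F' l) l = alt F l - alt F' l := by
  induction l with
  | nil => intro F F'; simp [alt]
  | cons x l ih =>
    intro F F'
    simp only [alt]
    rw [ih (fun l' => F (x :: l')) (fun l' => F' (x :: l'))]
    abel

theorem alt_map {X : Type u} {M : Type v} {M' : Type w} [AddCommGroup M] [AddCommGroup M']
    (f : M →+ M') (l : List X) : ∀ (F : List X → M), alt (fun l => f (F l)) l = f (alt F l) := by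
  induction l with
  | nil => intro F; simp [alt]
  | cons x l ih =>
    intro F
    simp only [alt]
    rw [ih (fun l' => F (x :: l')), map_sub]

theorem alt_alt {X : Type u} {M : Type v} [AddCommGroup M] (l : List X) : ∀ (F : List X → M),
    alt (alt F) l = 0 := by
  induction l with
  | nil => intro F; simp [alt]
  | cons x l ih =>
    intro F
    have h1 : alt (alt F) (x :: l) = alt F l - alt (fun l' => alt F (x :: l')) l := rfl
    have h2 : (fun l' => alt F (x :: l')) = fun l' => F l' - alt (fun l'' => F (x :: l'')) l' := rfl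
    rw [h1, h2, alt_sub l F (alt fun l'' => F (x :: l'')), ih (fun l'' => F (x :: l''))]
    abel

theorem tl_cons {X : Type u} {M : Type v} [Mul X] [AddCommGroup M] (F : List X → M) (x y : X)
    (l : List X) : tl F (x :: y :: l) = F ((x * y) :: l) - tl (fun l' => F (x :: l')) (y :: l) := rfl

theorem tl_one {X : Type u} {M : Type v} [Mul X] [AddCommGroup M] (F : List X → M) (x : X) :
    tl F [x] = F [] := rfl

theorem tl_map {X : Type u} {M : Type v} {M' : Type w} [Mul X] [AddCommGroup M] [AddCommGroup M']
    (f : M →+ M') (l : List X) : ∀ (F : List X → M), tl (fun l => f (F l)) l = f (tl F l) := by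
  induction l with
  | nil => intro F; simp [tl]
  | cons x l ih =>
    intro F
    cases l with
    | nil => rfl
    | cons y l =>
      rw [tl_cons, tl_cons, ih (fun l' => F (x :: l')), map_sub]

theorem bdF_map {X : Type u} {M : Type v} {M' : Type w} [Mul X] [AddCommGroup M] [AddCommGroup M']
    (f : M →+ M') (F : List X → M) (l : List X) : bdF (fun l => f (F l)) l = f (bdF F l) := by
  cases l with
  | nil => simp [bdF]
  | cons x l =>
    have h1 : bdF (fun l => f (F l)) (x :: l) = f (F l) - tl (fun l => f (F l)) (x :: l) := rfl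
    have h2 : bdF F (x :: l) = F l - tl F (x :: l) := rfl
    rw [h1, h2, tl_map, map_sub]

theorem bd_of {X : Type u} [Mul X] (l : List X) :
    bd (FreeAbelianGroup.of l) = bdF FreeAbelianGroup.of l := by
  unfold bd
  rw [FreeAbelianGroup.lift_apply_of]

theorem lift_bd {X : Type u} {M : Type v} [Mul X] [AddCommGroup M] (F : List X → M) (z : Ch X) :
    FreeAbelianGroup.lift F (bd z) = FreeAbelianGroup.lift (bdF F) z := by
  induction z using FreeAbelianGroup.induction_on with
  | zero => simp
  | of l =>
    rw [bd_of, ← bdF_map, FreeAbelianGroup.lift_apply_of]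
    congr 1
    funext l
    rw [FreeAbelianGroup.lift_apply_of]
  | neg l h =>
    rw [map_neg, map_neg, map_neg, h]
  | add z z' h h' => rw [map_add, map_add, map_add, h, h']

/-- The boundary and running products. -/
theorem tl_run {X : Type u} {M : Type v} [Group X] [AddCommGroup M] (l : List X) :
    ∀ (F : List X → M) (y x : X), tl (fun l' => F (run y l')) (x :: l) =
      alt (fun l'' => F (y :: l'')) (run (y * x) l) := by
  induction l with
  | nil =>
    intro F y x
    simp [tl, alt, run]
  | cons x' l ih =>
    intro F y x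
    rw [tl_cons]
    have h1 : (fun l'' => F (run y (x :: l''))) =
        fun l'' => (fun l''' => F (y :: l''')) (run (y * x) l'') := rfl
    rw [h1, ih (fun l''' => F (y :: l''')) (y * x) x']
    have h2 : run y ((x * x') :: l) = y :: run (y * x * x') l := by
      simp only [run, mul_assoc]
    have h3 : run (y * x) (x' :: l) = (y * x) :: run (y * x * x') l := rfl
    rw [h2, h3]
    rfl

theorem run_map {X : Type u} [Group X] (x : X) (l : List X) : ∀ y : X,
    run (x * y) l = (run y l).map fun z => x * z := by
  induction l with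
  | nil => intro y; simp [run]
  | cons g l ih =>
    intro y
    simp only [run, List.map_cons, mul_assoc]
    rw [ih]

theorem run_mem {X : Type u} [Group X] {P : X → Prop} (hP : ∀ x y, P x → P y → P (x * y))
    (l : List X) : ∀ y : X, P y → (∀ x ∈ l, P x) → ∀ z ∈ run y l, P z := by
  induction l with
  | nil =>
    intro y hy _ z hz
    simp only [run, List.mem_singleton] at hz
    rw [hz]
    exact hy
  | cons g l ih =>
    intro y hy hl z hz
    simp only [run, List.mem_cons] at hz
    rcases hz with rfl | hz
    · exact hy
    · exact ih (y * g) (hP y g hy (hl g (by simp))) (fun x hx => hl x (by simp [hx])) z hz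

theorem run_field {X : Type u} {M : Type v} [Group X] [AddCommGroup M] (F : List X → M)
    (P : X → Prop) (h1 : P 1) (hP : ∀ x y, P x → P y → P (x * y))
    (hF : ∀ x, P x → ∀ l : List X, (∀ y ∈ l, P y) → F (l.map fun y => x * y) = F l)
    (l : List X) (hl : ∀ x ∈ l, P x) (h0 : l = [] → F [] = 0) :
    bdF (fun l => F (KA.run 1 l)) l = KA.alt F (KA.run 1 l) := by
  cases l with
  | nil =>
    simp [bdF, alt, run, h0 rfl]
  | cons x l =>
    have h2 : bdF (fun l => F (KA.run 1 l)) (x :: l) =
        F (run 1 l) - tl (fun l => F (run 1 l)) (x :: l) := rfl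
    have h3 : alt F (run 1 (x :: l)) = F (run (1 * x) l) -
        alt (fun l' => F (1 :: l')) (run (1 * x) l) := rfl
    rw [h2, h3, tl_run]
    congr 1
    have h4 : run (1 * x) l = (run 1 l).map fun z => x * z := by
      rw [← run_map, one_mul, mul_one]
    rw [h4]
    symm
    exact hF x (hl x (by simp)) _ (run_mem hP l 1 h1 (fun y hy => hl y (by simp [hy])))

/-- Quotients of consecutive entries. -/
def qt {X : Type u} [Group X] : List X → List X
  | [] => []
  | [_] => []
  | x :: y :: l => (x⁻¹ * y) :: qt (y :: l)

theorem run_cons {X : Type u} [Group X] (y : X) (l : List X) : ∃ l', run y l = y :: l' := by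
  cases l with
  | nil => exact ⟨[], rfl⟩
  | cons g l => exact ⟨run (y * g) l, rfl⟩

theorem qt_run {X : Type u} [Group X] (l : List X) : ∀ y : X, qt (run y l) = l := by
  induction l with
  | nil => intro y; rfl
  | cons g l ih =>
    intro y
    obtain ⟨l', hl'⟩ := run_cons (y * g) l
    have h1 : run y (g :: l) = y :: run (y * g) l := rfl
    have h2 : qt (y :: (y * g) :: l') = (y⁻¹ * (y * g)) :: qt ((y * g) :: l') := rfl
    rw [h1, hl', h2, ← hl', ih, inv_mul_cancel_left]

theorem qt_map {X : Type u} [Group X] (a : X) (l : List X) :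
    qt (l.map fun y => a * y) = qt l := by
  induction l with
  | nil => rfl
  | cons x l ih =>
    cases l with
    | nil => rfl
    | cons y l =>
      have h1 : qt ((x :: y :: l).map fun z => a * z) =
          ((a * x)⁻¹ * (a * y)) :: qt ((y :: l).map fun z => a * z) := rfl
      have h2 : qt (x :: y :: l) = (x⁻¹ * y) :: qt (y :: l) := rfl
      rw [h1, h2, ih]
      congr 1
      group

/-- The left invariant function given by a function of the quotients. -/
def hom {X : Type u} {M : Type v} [Group X] [AddCommGroup M] (F : List X → M) : List X → M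
  | [] => 0
  | x :: l => F (qt (x :: l))

theorem hom_run {X : Type u} {M : Type v} [Group X] [AddCommGroup M] (F : List X → M)
    (l : List X) : hom F (run 1 l) = F l := by
  obtain ⟨l', hl'⟩ := run_cons 1 l
  have h1 : hom F (1 :: l') = F (qt (1 :: l')) := rfl
  rw [hl', h1, ← hl', qt_run]

theorem hom_map {X : Type u} {M : Type v} [Group X] [AddCommGroup M] (F : List X → M) (a : X)
    (l : List X) : hom F (l.map fun y => a * y) = hom F l := by
  cases l with
  | nil => rfl
  | cons x l =>
    have h1 : hom F ((x :: l).map fun y => a * y) = F (qt ((x :: l).map fun y => a * y)) := rfl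
    have h2 : hom F (x :: l) = F (qt (x :: l)) := rfl
    rw [h1, h2, qt_map]

theorem alt_lmap {X : Type u} {Y : Type v} {M : Type w} [AddCommGroup M] (f : X → Y)
    (l : List X) : ∀ (F : List Y → M), alt F (l.map f) = alt (fun l => F (l.map f)) l := by
  induction l with
  | nil => intro F; rfl
  | cons x l ih =>
    intro F
    have h1 : alt F ((x :: l).map f) = F (l.map f) - alt (fun l' => F (f x :: l')) (l.map f) := rfl
    have h2 : alt (fun l => F (l.map f)) (x :: l) =
        F (l.map f) - alt (fun l' => F ((x :: l').map f)) l := rfl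
    rw [h1, h2, ih (fun l' => F (f x :: l'))]
    rfl

theorem bdF_bdF {X : Type u} {M : Type v} [Group X] [AddCommGroup M] (F : List X → M)
    (l : List X) : bdF (bdF F) l = 0 := by
  have h1 : F = fun l => hom F (run 1 l) := by
    funext l
    rw [hom_run]
  have h2 : bdF F = fun l => alt (hom F) (run 1 l) := by
    funext l
    conv_lhs => rw [h1]
    exact run_field (hom F) (fun _ => True) trivial (fun _ _ _ _ => trivial)
      (fun a _ l _ => hom_map F a l) l (fun _ _ => trivial) (fun _ => rfl)
  rw [h2, run_field (alt (hom F)) (fun _ => True) trivial (fun _ _ _ _ => trivial) ?_ l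
    (fun _ _ => trivial) (fun _ => rfl), alt_alt]
  intro a _ l _
  rw [alt_lmap]
  congr 1
  funext l
  exact hom_map F a l

theorem bd_bd {X : Type u} [Group X] (z : Ch X) : bd (bd z) = 0 := by
  have h1 : bd (bd z) = FreeAbelianGroup.lift (bdF (bdF FreeAbelianGroup.of)) z := by
    rw [← lift_bd]
    rfl
  have h2 : bdF (bdF (FreeAbelianGroup.of : List X → Ch X)) = fun _ => 0 := by
    funext l
    exact bdF_bdF _ l
  rw [h1, h2]
  clear h1 h2
  induction z using FreeAbelianGroup.induction_on with
  | zero => simp
  | of l => rw [FreeAbelianGroup.lift_apply_of]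
  | neg l h => rw [map_neg, FreeAbelianGroup.lift_apply_of, neg_zero]
  | add z z' h h' => rw [map_add, h, h', add_zero]

theorem tl_lmap {X : Type u} {Y : Type v} {M : Type w} [Mul X] [Mul Y] [AddCommGroup M] (f : X → Y)
    (hf : ∀ a b, f (a * b) = f a * f b) (l : List X) :
    ∀ (F : List Y → M), tl F (l.map f) = tl (fun l => F (l.map f)) l := by
  induction l with
  | nil => intro F; rfl
  | cons x l ih =>
    intro F
    cases l with
    | nil => rfl
    | cons y l =>
      have h1 : tl F ((x :: y :: l).map f) = F ((f x * f y) :: l.map f) -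
          tl (fun l' => F (f x :: l')) ((y :: l).map f) := rfl
      rw [h1, tl_cons, ih (fun l' => F (f x :: l')), ← hf]
      rfl

theorem bd_nat {X : Type u} {Y : Type v} [Mul X] [Mul Y] (f : X → Y)
    (hf : ∀ a b, f (a * b) = f a * f b) (z : Ch X) : bd (cmap f z) = cmap f (bd z) := by
  induction z using FreeAbelianGroup.induction_on with
  | zero => simp
  | of l =>
    have h1 : cmap f (FreeAbelianGroup.of l) = FreeAbelianGroup.of (l.map f) := by
      unfold cmap
      rw [FreeAbelianGroup.map_of_apply]
    rw [h1, bd_of, bd_of, ← bdF_map]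
    have h2 : (fun l => cmap f (FreeAbelianGroup.of l)) =
        fun l => FreeAbelianGroup.of (l.map f) := by
      funext l
      unfold cmap
      rw [FreeAbelianGroup.map_of_apply]
    rw [h2]
    cases l with
    | nil => rfl
    | cons x l =>
      have h3 : bdF FreeAbelianGroup.of ((x :: l).map f) = FreeAbelianGroup.of (l.map f) -
          tl FreeAbelianGroup.of ((x :: l).map f) := rfl
      have h4 : bdF (fun l => FreeAbelianGroup.of (l.map f)) (x :: l) =
          FreeAbelianGroup.of (l.map f) - tl (fun l => FreeAbelianGroup.of (l.map f)) (x :: l) :=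
        rfl
      rw [h3, h4, tl_lmap f hf]
  | neg l h => rw [map_neg, map_neg, map_neg, map_neg, h]
  | add z z' h h' => rw [map_add, map_add, map_add, map_add, h, h']

theorem tl_mem {X : Type u} {M : Type v} [Mul X] [AddCommGroup M] (S : AddSubgroup M)
    {P : X → Prop} (hP : ∀ x y, P x → P y → P (x * y)) (l : List X) : ∀ (F : List X → M),
    (∀ l' : List X, l'.length + 1 = l.length → (∀ x ∈ l', P x) → F l' ∈ S) → (∀ x ∈ l, P x) →
    tl F l ∈ S := by
  induction l with
  | nil => intro F _ _; exact S.zero_mem
  | cons x l ih =>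
    intro F hF hl
    cases l with
    | nil => exact hF [] rfl (by simp)
    | cons y l =>
      rw [tl_cons]
      refine S.sub_mem (hF _ (by simp) ?_) (ih _ ?_ ?_)
      · intro z hz
        rcases List.mem_cons.1 hz with rfl | hz
        · exact hP x y (hl x (by simp)) (hl y (by simp))
        · exact hl z (by simp [hz])
      · intro l' hl' hl''
        refine hF _ (by simpa using hl') ?_
        intro z hz
        rcases List.mem_cons.1 hz with rfl | hz
        · exact hl z (by simp)
        · exact hl'' z hz
      · intro z hz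
        exact hl z (List.mem_cons_of_mem _ hz)

theorem bd_ch {X : Type u} [Mul X] (n : ℕ) (P : X → Prop) (hP : ∀ x y, P x → P y → P (x * y))
    (z : Ch X) (hz : z ∈ ch (n + 1) P) : bd z ∈ ch n P := by
  unfold ch at hz
  induction hz using AddSubgroup.closure_induction with
  | mem y hy =>
    obtain ⟨l, hl, hl', rfl⟩ := hy
    rw [bd_of]
    cases l with
    | nil => simp at hl
    | cons x l =>
      have h1 : bdF FreeAbelianGroup.of (x :: l) = FreeAbelianGroup.of l -
          tl FreeAbelianGroup.of (x :: l) := rfl
      rw [h1]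
      have hlen : l.length = n := by simpa using hl
      refine (ch n P).sub_mem ?_ (tl_mem (ch n P) hP (x :: l) _ ?_ hl')
      · exact AddSubgroup.subset_closure ⟨l, hlen, fun y hy => hl' y (by simp [hy]), rfl⟩
      · intro l' h2 h3
        refine AddSubgroup.subset_closure ⟨l', ?_, h3, rfl⟩
        rw [hl] at h2
        omega
  | zero => rw [map_zero]; exact (ch n P).zero_mem
  | add y z _ _ hy hz => rw [map_add]; exact (ch n P).add_mem hy hz
  | neg y _ hy => rw [map_neg]; exact (ch n P).neg_mem hy

theorem cmap_ch {X : Type u} {Y : Type v} (n : ℕ) (P : X → Prop) (Q : Y → Prop) (f : X → Y)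
    (hf : ∀ x, P x → Q (f x)) (z : Ch X) (hz : z ∈ ch n P) : cmap f z ∈ ch n Q := by
  unfold ch at hz
  induction hz using AddSubgroup.closure_induction with
  | mem y hy =>
    obtain ⟨l, hl, hl', rfl⟩ := hy
    unfold cmap
    rw [FreeAbelianGroup.map_of_apply]
    refine AddSubgroup.subset_closure ⟨l.map f, by simpa using hl, ?_, rfl⟩
    intro y hy
    obtain ⟨x, hx, rfl⟩ := List.mem_map.1 hy
    exact hf x (hl' x hx)
  | zero => rw [map_zero]; exact (ch n Q).zero_mem
  | add y z _ _ hy hz => rw [map_add]; exact (ch n Q).add_mem hy hz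
  | neg y _ hy => rw [map_neg]; exact (ch n Q).neg_mem hy

end ALTM

open ALTM in
theorem specALT : SpecALT.{u, v, w} where
  add _ _ _ F F' l := alt_add l F F'
  sub _ _ _ F F' l := alt_sub l F F'
  map _ _ _ _ _ f F l := alt_map f l F
  alt _ _ _ F l := alt_alt l F
  lift _ _ _ _ F z := lift_bd F z
  run _ _ _ _ F P h1 hP hF l hl h0 := run_field F P h1 hP hF l hl h0
  bdbd _ _ z := bd_bd z
  nat _ _ _ _ f hf z := bd_nat f hf z
  ch _ _ n P hP z hz := bd_ch n P hP z hz
  cmap _ _ n P Q f hf z hz := cmap_ch n P Q f hf z hz

end Pool.Agent.Lib.MPb6f35e.KA
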