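import Pool.Agent.Lib.MP_b6f35e_al.KA.SpecB
import Pool.Agent.Lib.MP_b6f35e_al.K2.ABS

/-!
# Rational K-theory in all degrees (MP_b6f35e_al), module BET: the cochain `β` (helper77)
-/

set_option autoImplicit false

noncomputable section

namespace Pool.Agent.Lib.MPb6f35e.KA

open Pool.Agent.Lib.MPb6f35e.WH Pool.Agent.Lib.MPb6f35e.K2

universe u v w x y

namespace BETaux

section lists

variable {X : Type u} {Ω : Type v} [Ring Ω]

lemma alt_map {M : Type w} {M' : Type x} [AddCommGroup M] [AddCommGroup M'] (f : M →+ M')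
    (F : List X → M) (l : List X) : alt (fun l => f (F l)) l = f (alt F l) := by
  induction l generalizing F with
  | nil => exact (map_zero f).symm
  | cons x l ih =>
    show f (F l) - alt (fun l' => f (F (x :: l'))) l = f (F l - alt (fun l' => F (x :: l')) l)
    rw [ih (fun l' => F (x :: l')), map_sub]

lemma alt_pw_cons (hPW : SpecPW.{u, v, w}) (w : X → Ω) (x : X) (l : List X) :
    alt (fun l' => pw w (x :: l')) l = pw w l := by
  have h : pw w l - alt (fun l' => pw w (x :: l')) l = 0 := hPW.pw X Ω w (x :: l)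
  exact (sub_eq_zero.1 h).symm

end lists

variable {B : Type u} {S : Type v} {Ω : Type w} {H : Type x} [Ring B] [Ring S] [Ring Ω]
  [AddCommGroup H] {D : DGD B S Ω H}

lemma alt_beE (hPW : SpecPW.{u, w, u}) (D : DGD B S Ω H) (l : List (EB B)) :
    alt D.beE l = 0 := by
  cases l with
  | nil => rfl
  | cons x l =>
    cases l with
    | nil =>
      show (0 : Ω) - 0 = 0
      exact sub_zero 0
    | cons y l =>
      have h1 : alt (fun l' => D.beE (x :: y :: l')) l = (D.al y - D.al x) * pw D.om l := by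
        have h2 : alt (fun l' => D.beE (x :: y :: l')) l =
            alt (fun l' => AddMonoidHom.mulLeft (D.al y - D.al x) (pw D.om (y :: l'))) l := rfl
        rw [h2, alt_map, alt_pw_cons hPW]
        rfl
      show D.beE (y :: l) - (D.beE (x :: l) - alt (fun l' => D.beE (x :: y :: l')) l) = 0
      rw [h1]
      cases l with
      | nil =>
        show (0 : Ω) - (0 - (D.al y - D.al x) * 0) = 0
        rw [mul_zero, sub_zero, sub_zero]
      | cons z l =>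
        show (D.al z - D.al y) * pw D.om (z :: l) - ((D.al z - D.al x) * pw D.om (z :: l) -
          (D.al y - D.al x) * pw D.om (z :: l)) = 0
        rw [← sub_mul, ← sub_mul]
        have h3 : D.al z - D.al y - (D.al z - D.al x - (D.al y - D.al x)) = 0 := by abel
        rw [h3, zero_mul]

lemma tauN' (h : D.Ok) : (D.τ : S) ^ D.N = 1 := by
  have := congrArg Units.val h.tauN
  simpa using this

lemma tau_pow_comm (h : D.Ok) (b : B) (j : ℕ) :
    (D.τ : S) ^ j * D.i b = D.i (D.ρ^[j] b) * (D.τ : S) ^ j := by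
  induction j generalizing b with
  | zero => simp
  | succ j ih =>
    rw [pow_succ, mul_assoc, h.conj, ← mul_assoc, ih, mul_assoc, Function.iterate_succ_apply]

lemma tau_e (h : D.Ok) : (D.τ : S) * D.e = D.e := by
  have h1 := Finset.sum_range_succ (fun j => (D.τ : S) ^ j) D.N
  rw [Finset.sum_range_succ', tauN' h, pow_zero] at h1
  have h2 := add_right_cancel h1
  unfold DGD.e eS
  rw [Finset.mul_sum, ← h2]
  exact Finset.sum_congr rfl fun j _ => (pow_succ' _ _).symm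

lemma tau_pow_e (h : D.Ok) (j : ℕ) : (D.τ : S) ^ j * D.e = D.e := by
  induction j with
  | zero => rw [pow_zero, one_mul]
  | succ j ih => rw [pow_succ, mul_assoc, tau_e h, ih]

lemma e_fix (h : D.Ok) {r : B} (hr : D.ρ r = r) : D.e * D.i r = D.i r * D.e := by
  unfold DGD.e eS
  rw [Finset.sum_mul, Finset.mul_sum]
  exact Finset.sum_congr rfl fun j _ => by
    rw [tau_pow_comm h, Function.iterate_fixed hr j]

lemma ebe (h : D.Ok) (b : B) : D.e * (D.i b * D.e) = D.i (nm D.ρ D.N b) * D.e := by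
  have h1 : ∀ j, (D.τ : S) ^ j * (D.i b * D.e) = D.i (D.ρ^[j] b) * D.e := fun j => by
    rw [← mul_assoc, tau_pow_comm h, mul_assoc, tau_pow_e h]
  have h2 : D.e * (D.i b * D.e) =
      ∑ j ∈ Finset.range D.N, (D.τ : S) ^ j * (D.i b * D.e) := by
    rw [← Finset.sum_mul]
    rfl
  rw [h2, Finset.sum_congr rfl fun j _ => h1 j, ← Finset.sum_mul, ← map_sum]
  rfl

lemma sv_mul (h : D.Ok) (x y : EB B) (hy : D.QE y) :
    D.sv (mulE x y) = D.sv x * D.sv y := by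
  have h1 : D.e * D.i y.1 = D.i y.1 * D.e := e_fix h hy.1.1
  have h2 : D.e * (D.i y.2.2 * D.e) = (D.i y.2.1 - D.i y.1) * D.e := by
    rw [ebe h, hy.2, map_sub]
  show D.i ((x.1 * y.1 : Bˣ) : B) + D.i ((x.1 : B) * y.2.2 + x.2.2 * (y.2.1 : B)) * D.e =
    (D.i x.1 + D.i x.2.2 * D.e) * (D.i y.1 + D.i y.2.2 * D.e)
  rw [Units.val_mul, map_mul, map_add, map_mul, map_mul, add_mul (D.i x.1), mul_add (D.i x.1),
    mul_add (D.i x.2.2 * D.e), mul_assoc (D.i x.2.2) D.e (D.i y.1), h1,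
    mul_assoc (D.i x.2.2) D.e, h2]
  noncomm_ring

lemma rho_inv {T : Bˣ} (hT : D.ρ T = T) : D.ρ ((T⁻¹ : Bˣ) : B) = ((T⁻¹ : Bˣ) : B) := by
  have h1 : D.ρ ((T⁻¹ : Bˣ) : B) * T = 1 := by
    conv_lhs => rw [← hT]
    rw [← map_mul, Units.inv_mul, map_one]
  calc D.ρ ((T⁻¹ : Bˣ) : B) = D.ρ ((T⁻¹ : Bˣ) : B) * (T * ((T⁻¹ : Bˣ) : B)) := by
        rw [Units.mul_inv, mul_one]
    _ = ((T⁻¹ : Bˣ) : B) := by rw [← mul_assoc, h1, one_mul]

lemma qe_inv {x : EB B} (hx : D.QE x) : D.QE (invE x) := by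
  refine ⟨⟨rho_inv hx.1.1, rho_inv hx.1.2⟩, ?_⟩
  show nm D.ρ D.N (-(((x.1⁻¹ : Bˣ) : B) * x.2.2 * ((x.2.1⁻¹ : Bˣ) : B))) =
    ((x.2.1⁻¹ : Bˣ) : B) - ((x.1⁻¹ : Bˣ) : B)
  have h0 : nm D.ρ D.N (0 : B) = 0 := by
    have := ABSaux.nm_add (ρ := D.ρ) (N := D.N) (0 : B) 0
    rw [add_zero] at this
    exact (left_eq_add.1 this)
  rw [← zero_sub, ABSaux.nm_sub, h0, ABSaux.nm_mul_fix _ (rho_inv hx.1.2),
    ABSaux.nm_fix_mul _ (rho_inv hx.1.1), hx.2, mul_sub, sub_mul, Units.inv_mul, one_mul,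
    mul_assoc, Units.mul_inv, mul_one]
  abel

lemma inv_mulE (g x : EB B) : invE (mulE g x) = mulE (invE x) (invE g) := by
  refine Prod.ext (mul_inv_rev _ _) (Prod.ext (mul_inv_rev _ _) ?_)
  show -((((g.1 * x.1)⁻¹ : Bˣ) : B) * ((g.1 : B) * x.2.2 + g.2.2 * (x.2.1 : B)) *
      (((g.2.1 * x.2.1)⁻¹ : Bˣ) : B)) =
    ((x.1⁻¹ : Bˣ) : B) * (-(((g.1⁻¹ : Bˣ) : B) * g.2.2 * ((g.2.1⁻¹ : Bˣ) : B))) +
      (-(((x.1⁻¹ : Bˣ) : B) * x.2.2 * ((x.2.1⁻¹ : Bˣ) : B))) * ((g.2.1⁻¹ : Bˣ) : B)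
  rw [mul_inv_rev, mul_inv_rev, Units.val_mul, Units.val_mul]
  have h1 : ((g.1⁻¹ : Bˣ) : B) * ((g.1 : B) * x.2.2) = x.2.2 := Units.inv_mul_cancel_left _ _
  have h2 : (x.2.1 : B) * (((x.2.1⁻¹ : Bˣ) : B) * ((g.2.1⁻¹ : Bˣ) : B)) =
    ((g.2.1⁻¹ : Bˣ) : B) := Units.mul_inv_cancel_left _ _
  calc _ = -(((x.1⁻¹ : Bˣ) : B) * (((g.1⁻¹ : Bˣ) : B) * ((g.1 : B) * x.2.2)) *
          (((x.2.1⁻¹ : Bˣ) : B) * ((g.2.1⁻¹ : Bˣ) : B)) +
        ((x.1⁻¹ : Bˣ) : B) * (((g.1⁻¹ : Bˣ) : B) * g.2.2) *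
          ((x.2.1 : B) * (((x.2.1⁻¹ : Bˣ) : B) * ((g.2.1⁻¹ : Bˣ) : B)))) := by noncomm_ring
    _ = _ := by rw [h1, h2]; noncomm_ring

lemma mulE_inv (x : EB B) : mulE x (invE x) = (1, 1, 0) := by
  refine Prod.ext (mul_inv_cancel _) (Prod.ext (mul_inv_cancel _) ?_)
  show (x.1 : B) * (-(((x.1⁻¹ : Bˣ) : B) * x.2.2 * ((x.2.1⁻¹ : Bˣ) : B))) +
    x.2.2 * ((x.2.1⁻¹ : Bˣ) : B) = 0
  rw [mul_neg, ← mul_assoc, ← mul_assoc, Units.mul_inv, one_mul, neg_add_cancel]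

lemma inv_mulE_self (x : EB B) : mulE (invE x) x = (1, 1, 0) := by
  refine Prod.ext (inv_mul_cancel _) (Prod.ext (inv_mul_cancel _) ?_)
  show ((x.1⁻¹ : Bˣ) : B) * x.2.2 +
    (-(((x.1⁻¹ : Bˣ) : B) * x.2.2 * ((x.2.1⁻¹ : Bˣ) : B))) * (x.2.1 : B) = 0
  rw [neg_mul, mul_assoc (((x.1⁻¹ : Bˣ) : B) * x.2.2), Units.inv_mul, mul_one, add_neg_cancel]

lemma sv_one (D : DGD B S Ω H) : D.sv (1, 1, 0) = 1 := by
  show D.i ((1 : Bˣ) : B) + D.i 0 * D.e = 1
  rw [Units.val_one, map_one, map_zero, zero_mul, add_zero]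

lemma sv_mul_inv (h : D.Ok) {x : EB B} (hx : D.QE x) : D.sv x * D.sv (invE x) = 1 := by
  rw [← sv_mul h _ _ (qe_inv hx), mulE_inv, sv_one]

lemma sv_inv_mul (h : D.Ok) {x : EB B} (hx : D.QE x) : D.sv (invE x) * D.sv x = 1 := by
  rw [← sv_mul h _ _ hx, inv_mulE_self, sv_one]

lemma sv_inv_mulE (h : D.Ok) {g : EB B} (hg : D.QE g) (x : EB B) :
    D.sv (invE (mulE g x)) = D.sv (invE x) * D.sv (invE g) := by
  rw [inv_mulE, sv_mul h _ _ (qe_inv hg)]

lemma om_mul (h : D.Ok) {g x : EB B} (hg : D.QE g) (hx : D.QE x) :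
    D.om (mulE g x) = D.om g + D.lam (D.sv g) * D.om x * D.lam (D.sv (invE g)) := by
  have h1 : D.lam (D.sv x) * D.lam (D.sv (invE x)) = 1 := by
    rw [← map_mul, sv_mul_inv h hx, map_one]
  unfold DGD.om
  rw [sv_inv_mulE h hg, sv_mul h _ _ hx, map_mul D.lam, map_mul D.lam, h.d_mul, h.ep_lam]
  calc _ = D.d (D.lam (D.sv g)) * (D.lam (D.sv x) * D.lam (D.sv (invE x))) *
        D.lam (D.sv (invE g)) + D.lam (D.sv g) * (D.d (D.lam (D.sv x)) *
          D.lam (D.sv (invE x))) * D.lam (D.sv (invE g)) := by noncomm_ring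
    _ = _ := by rw [h1, mul_one]

lemma al_mul (h : D.Ok) {g x : EB B} (hg : D.QE g) (hx : D.QE x) :
    D.al (mulE g x) = D.al g + D.lam (D.sv g) * D.al x * D.lam (D.sv (invE g)) := by
  unfold DGD.al
  rw [sv_inv_mulE h hg, sv_mul h _ _ hx, ← map_mul, ← map_mul, ← map_add, h.dl_mul]
  congr 1
  calc _ = D.dl (D.sv g) * (D.sv x * D.sv (invE x)) * D.sv (invE g) +
        D.sv g * (D.dl (D.sv x) * D.sv (invE x)) * D.sv (invE g) := by noncomm_ring
    _ = _ := by rw [sv_mul_inv h hx, mul_one]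

lemma beE_mul (hPW : SpecPW.{u, w, u}) (h : D.Ok) {g : EB B} (hg : D.QE g) (l : List (EB B))
    (hl : ∀ x ∈ l, D.QE x) :
    D.beE (l.map fun x => mulE g x) =
      D.lam (D.sv g) * D.beE l * D.lam (D.sv (invE g)) := by
  have h1 : D.lam (D.sv g) * D.lam (D.sv (invE g)) = 1 := by
    rw [← map_mul, sv_mul_inv h hg, map_one]
  have h2 : D.lam (D.sv (invE g)) * D.lam (D.sv g) = 1 := by
    rw [← map_mul, sv_inv_mul h hg, map_one]
  cases l with
  | nil =>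
    show (0 : Ω) = D.lam (D.sv g) * 0 * D.lam (D.sv (invE g))
    rw [mul_zero, zero_mul]
  | cons x l =>
    cases l with
    | nil =>
      show (0 : Ω) = D.lam (D.sv g) * 0 * D.lam (D.sv (invE g))
      rw [mul_zero, zero_mul]
    | cons y l =>
      have hx := hl x (List.mem_cons_self ..)
      have hy := hl y (List.mem_cons_of_mem _ (List.mem_cons_self ..))
      have h3 := hPW.conj (EB B) Ω D.om (EB B) D.om (fun x => mulE g x) (D.om g)
        (D.lam (D.sv g)) (D.lam (D.sv (invE g))) h2 h1 D.QE (fun x hx => om_mul h hg hx)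
        (y :: l) (fun z hz => hl z (List.mem_cons_of_mem _ hz))
      show (D.al (mulE g y) - D.al (mulE g x)) * pw D.om ((y :: l).map fun x => mulE g x) =
        D.lam (D.sv g) * ((D.al y - D.al x) * pw D.om (y :: l)) * D.lam (D.sv (invE g))
      rw [h3, al_mul h hg hx, al_mul h hg hy]
      calc _ = D.lam (D.sv g) * (D.al y - D.al x) *
            (D.lam (D.sv (invE g)) * D.lam (D.sv g)) * pw D.om (y :: l) *
              D.lam (D.sv (invE g)) := by noncomm_ring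
        _ = _ := by rw [h2]; noncomm_ring

end BETaux

open BETaux in
theorem specBET (hPW : SpecPW.{u, w, u}) : SpecBET.{u, v, w, x} where
  alt B S Ω H _ _ _ _ D l := by
    show alt (fun l => D.I (D.beE l)) l = 0
    rw [alt_map, alt_beE hPW, map_zero]
  sv B S Ω H _ _ _ _ D h x y _ hy := sv_mul h x y hy
  inv B S Ω H _ _ _ _ D h g hg l hl := by
    show D.I (D.beE (l.map fun x => mulE g x)) = D.I (D.beE l)
    have h2 : D.lam (D.sv (invE g)) * D.lam (D.sv g) = 1 := by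
      rw [← map_mul, sv_inv_mul h hg, map_one]
    rw [beE_mul hPW h hg l hl, ← h.even _ (h.ep_lam (D.sv (invE g))), ← mul_assoc, h2, one_mul]

end Pool.Agent.Lib.MPb6f35e.KA
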