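import Pool.Agent.Lib.MP_b6f35e_al.KA.SpecD

/-!
# Rational K-theory in all degrees (MP_b6f35e_al), module BLX: blocks (helper77)
-/

set_option autoImplicit false

noncomputable section

namespace Pool.Agent.Lib.MPb6f35e.KA

open Pool.Agent.Lib.MPb6f35e.WH Pool.Agent.Lib.MPb6f35e.K2

universe u v w x y

namespace BLXaux

variable {N : ℕ} {G : Type u} [Group G] {ι κ : Type}

/-- The arrow respects the labels. -/
def Rp (b : ι → Bool) (r : Arr N G ι) : Prop := ∀ j, b (r.t j) = b (r.s (j + dg r.w))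

/-- All labels of the arrow are `β`. -/
def Am (b : ι → Bool) (β : Bool) (r : Arr N G ι) : Prop :=
  (∀ j, b (r.s j) = β) ∧ ∀ j, b (r.t j) = β

/-- The image of an arrow. -/
def mf (f : κ → ι) (r : Arr N G κ) : Arr N G ι := ⟨fun j => f (r.s j), r.w, fun j => f (r.t j)⟩

lemma am_rp {b : ι → Bool} {β : Bool} {r : Arr N G ι} (h : Am b β r) : Rp b r := fun j =>
  (h.2 j).trans (h.1 _).symm

lemma am_mf {b : ι → Bool} {β : Bool} {f : κ → ι} (hf : ∀ j, b (f j) = β) (r : Arr N G κ) :
    Am b β (mf f r) := ⟨fun _ => hf _, fun _ => hf _⟩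

section lin

variable [NeZero N] [Fintype ι] [DecidableEq ι] [Fintype κ] [DecidableEq κ]

lemma linS_apply (φ : Arr N G ι → ZMod N) (a : SR N G ι) :
    linS φ a = ∑ I : ZMod N → ι, ∑ J : ZMod N → ι,
      (a I J).coeff.sum fun w x => x * φ ⟨I, w, J⟩ := by
  unfold linS
  rw [AddMonoidHom.finsetSum_apply]
  refine Finset.sum_congr rfl fun I _ => ?_
  rw [AddMonoidHom.finsetSum_apply]
  exact Finset.sum_congr rfl fun J _ => rfl

lemma linS_congr {b : ι → Bool} {φ φ' : Arr N G ι → ZMod N} {a : SR N G ι} (ha : DSb b a)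
    (h : ∀ r, Rp b r → φ r = φ' r) : linS φ a = linS φ' a := by
  rw [linS_apply, linS_apply]
  refine Finset.sum_congr rfl fun I _ => Finset.sum_congr rfl fun J _ =>
    Finsupp.sum_congr fun w hw => ?_
  rw [h ⟨I, w, J⟩ (ha I J w (Finsupp.mem_support_iff.1 hw))]

lemma linS_add (φ φ' : Arr N G ι → ZMod N) (a : SR N G ι) :
    linS (fun r => φ r + φ' r) a = linS φ a + linS φ' a := by
  rw [linS_apply, linS_apply, linS_apply, ← Finset.sum_add_distrib]
  refine Finset.sum_congr rfl fun I _ => ?_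
  rw [← Finset.sum_add_distrib]
  refine Finset.sum_congr rfl fun J _ => ?_
  rw [← Finsupp.sum_add]
  exact Finsupp.sum_congr fun w _ => mul_add _ _ _

lemma linS_zero (a : SR N G ι) : linS (fun _ : Arr N G ι => (0 : ZMod N)) a = 0 := by
  rw [linS_apply]
  refine Finset.sum_eq_zero fun I _ => Finset.sum_eq_zero fun J _ => ?_
  exact Finset.sum_eq_zero fun w _ => mul_zero _

lemma linS_res {b : ι → Bool} {β : Bool} {f : κ → ι} (hf : Function.Injective f)
    (hi : ∀ i, b i = β ↔ ∃ j, f j = i) {φ : Arr N G ι → ZMod N} {a : SR N G ι} (ha : DSb b a)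
    (h : ∀ r, Rp b r → ¬ Am b β r → φ r = 0) :
    linS φ a = linS (fun r => φ (mf f r)) (sbF f a) := by
  have hF : Function.Injective fun (I : ZMod N → κ) j => f (I j) := fun I I' h => by
    funext j
    exact hf (congrFun h j)
  have hR : ∀ I : ZMod N → ι, (∀ j, b (I j) = β) → I ∈ Set.range fun (I : ZMod N → κ) j =>
      f (I j) := fun I hI => by
    choose g hg using fun j => (hi (I j)).1 (hI j)
    exact ⟨g, funext hg⟩
  rw [linS_apply, linS_apply]
  symm
  refine Fintype.sum_of_injective _ hF _ _ (fun I hI => ?_) (fun I => ?_)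
  · refine Finset.sum_eq_zero fun J _ => Finset.sum_eq_zero fun w hw => ?_
    have h1 : φ ⟨I, w, J⟩ = 0 := h _ (ha I J w (Finsupp.mem_support_iff.1 hw))
      fun h2 => hI (hR I h2.1)
    show _ * φ ⟨I, w, J⟩ = 0
    rw [h1, mul_zero]
  · refine Fintype.sum_of_injective _ hF _ _ (fun J hJ => ?_) (fun J => rfl)
    refine Finset.sum_eq_zero fun w hw => ?_
    have h1 : φ ⟨fun j => f (I j), w, J⟩ = 0 :=
      h _ (ha _ J w (Finsupp.mem_support_iff.1 hw)) fun h2 => hJ (hR J h2.2)
    show _ * φ ⟨fun j => f (I j), w, J⟩ = 0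
    rw [h1, mul_zero]

lemma Xe_cons (X : List (Arr N G ι) → ZMod N) (a : SR N G ι) (l : List (SR N G ι)) :
    Xe X (a :: l) = linS (fun r => Xe (fun l' => X (r :: l')) l) a := rfl

lemma Xe_congr {b : ι → Bool} (l : List (SR N G ι)) (hl : ∀ a ∈ l, DSb b a)
    (Y Y' : List (Arr N G ι) → ZMod N) (h : ∀ t, (∀ r ∈ t, Rp b r) → Y t = Y' t) :
    Xe Y l = Xe Y' l := by
  induction l generalizing Y Y' with
  | nil => exact h [] (fun r hr => absurd hr (List.not_mem_nil))
  | cons a l ih =>
    rw [Xe_cons, Xe_cons]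
    refine linS_congr (hl a (List.mem_cons_self ..)) fun r hr => ?_
    refine ih (fun a' ha' => hl a' (List.mem_cons_of_mem _ ha')) _ _ fun t ht => ?_
    refine h _ fun r' hr' => ?_
    rcases List.mem_cons.1 hr' with h1 | h1
    · rw [h1]
      exact hr
    · exact ht r' h1

lemma Xe_add (l : List (SR N G ι)) (Y Y' : List (Arr N G ι) → ZMod N) :
    Xe (fun t => Y t + Y' t) l = Xe Y l + Xe Y' l := by
  induction l generalizing Y Y' with
  | nil => rfl
  | cons a l ih =>
    rw [Xe_cons, Xe_cons, Xe_cons, ← linS_add]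
    congr 1
    exact congrArg linS (funext fun r => ih _ _)

lemma Xe_zero (l : List (SR N G ι)) : Xe (fun _ => (0 : ZMod N)) l = 0 := by
  induction l with
  | nil => rfl
  | cons a l ih =>
    rw [Xe_cons, ih, linS_zero]

lemma Xe_res {b : ι → Bool} {β : Bool} {f : κ → ι} (hf : Function.Injective f)
    (hi : ∀ i, b i = β ↔ ∃ j, f j = i) (l : List (SR N G ι)) (hl : ∀ a ∈ l, DSb b a)
    (Y : List (Arr N G ι) → ZMod N)
    (h : ∀ t, (∀ r ∈ t, Rp b r) → (∃ r ∈ t, ¬ Am b β r) → Y t = 0) :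
    Xe Y l = Xe (fun t => Y (t.map (mf f))) (l.map (sbF f)) := by
  induction l generalizing Y with
  | nil => rfl
  | cons a l ih =>
    rw [List.map_cons, Xe_cons, Xe_cons, linS_res hf hi (hl a (List.mem_cons_self ..))]
    · refine congrFun (congrArg _ (congrArg linS (funext fun r => ?_))) _
      refine ih (fun a' ha' => hl a' (List.mem_cons_of_mem _ ha')) _ fun t ht h1 => ?_
      have h2 : Am b β (mf f r) := am_mf (fun j => (hi _).2 ⟨j, rfl⟩) r
      refine h _ (fun r' hr' => ?_) ?_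
      · rcases List.mem_cons.1 hr' with h3 | h3
        · rw [h3]
          exact am_rp h2
        · exact ht r' h3
      · obtain ⟨r', h3, h4⟩ := h1
        exact ⟨r', List.mem_cons_of_mem _ h3, h4⟩
    · intro r hr h1
      rw [← Xe_zero l]
      refine Xe_congr l (fun a' ha' => hl a' (List.mem_cons_of_mem _ ha')) _ _ fun t ht => ?_
      refine h _ (fun r' hr' => ?_) ⟨r, List.mem_cons_self .., h1⟩
      rcases List.mem_cons.1 hr' with h3 | h3
      · rw [h3]
        exact hr
      · exact ht r' h3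

end lin

/-! ### the cochain on the arrows -/

lemma mf_inj {f : κ → ι} (hf : Function.Injective f) {I J : ZMod N → κ}
    (h : (fun j => f (I j)) = fun j => f (J j)) : I = J := funext fun j => hf (congrFun h j)

lemma cmp_map {f : κ → ι} (hf : Function.Injective f) (l : List (Arr N G κ)) :
    Cmp (l.map (mf f)) ↔ Cmp l := by
  induction l with
  | nil => exact Iff.rfl
  | cons a l ih =>
    cases l with
    | nil => exact Iff.rfl
    | cons a' l =>
      show ((mf f a).t = (mf f a').s ∧ Cmp ((a' :: l).map (mf f))) ↔ (a.t = a'.s ∧ Cmp (a' :: l))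
      rw [ih]
      refine and_congr_left fun _ => ⟨fun h => mf_inj hf h, fun h => ?_⟩
      show (fun j => f (a.t j)) = fun j => f (a'.s j)
      rw [h]

lemma lst_map {X Y : Type*} (g : X → Y) (a : X) (l : List X) :
    lst (g a) (l.map g) = g (lst a l) := by
  induction l generalizing a with
  | nil => rfl
  | cons b l ih => exact ih b

lemma clo_map {f : κ → ι} (hf : Function.Injective f) (l : List (Arr N G κ)) :
    Clo (l.map (mf f)) ↔ Clo l := by
  cases l with
  | nil => exact Iff.rfl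
  | cons a l =>
    show (Cmp ((a :: l).map (mf f)) ∧ (lst (mf f a) (l.map (mf f))).t = (mf f a).s) ↔
      (Cmp (a :: l) ∧ (lst a l).t = a.s)
    rw [cmp_map hf, lst_map]
    refine and_congr_right fun _ => ⟨fun h => mf_inj hf h, fun h => ?_⟩
    show (fun j => f ((lst a l).t j)) = fun j => f (a.s j)
    rw [h]

lemma map_w (f : κ → ι) (l : List (Arr N G κ)) : (l.map (mf f)).map Arr.w = l.map Arr.w := by
  rw [List.map_map]
  rfl

lemma xs_map {H : Type v} [AddCommGroup H] {Θ : Type w} [Fintype Θ] (s : WR N G → WR N G)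
    (f : κ → ι) (θ : (ZMod N → ι) → Θ → WR N G) (θ' : (ZMod N → κ) → Θ → WR N G)
    (h : ∀ J, θ (fun j => f (J j)) = θ' J) (g a : WR N G) (F : List (WR N G) → H)
    (l : List (Arr N G κ)) : xs s θ g a F (l.map (mf f)) = xs s θ' g a F l := by
  induction l generalizing a F with
  | nil => rfl
  | cons r l ih =>
    show (∑ m : Θ, xs s θ g (a * r.w) (fun l' => F (vtx s g (a * r.w) (θ (fun j => f (r.t j)) m)
      :: l')) (l.map (mf f))) = ∑ m : Θ, xs s θ' g (a * r.w)
        (fun l' => F (vtx s g (a * r.w) (θ' r.t m) :: l')) l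
    refine Finset.sum_congr rfl fun m _ => ?_
    rw [h, ih]

lemma XA_map {H : Type v} [AddCommGroup H] {Θ : Type w} [Fintype Θ] (n : ℕ) (c : WR N G)
    (s : WR N G → WR N G) {f : κ → ι} (hf : Function.Injective f)
    (θ : (ZMod N → ι) → Θ → WR N G) (θ' : (ZMod N → κ) → Θ → WR N G)
    (h : ∀ J, θ (fun j => f (J j)) = θ' J) (F : List (WR N G) → H)
    (l : List (Arr N G κ)) : XA n c s θ F (l.map (mf f)) = XA n c s θ' F l := by
  unfold XA
  rw [List.length_map, clo_map hf, map_w, xs_map s f θ θ' h]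

lemma dg_mul (a b : WR N G) : dg (a * b) = dg a + dg b := rfl

lemma dg_one : dg (1 : WR N G) = 0 := rfl

lemma dg_conj (z c : WR N G) : dg (z * c * z⁻¹) = dg c := by
  have h1 : dg z + dg z⁻¹ = 0 := by rw [← dg_mul, mul_inv_cancel, dg_one]
  rw [dg_mul, dg_mul, add_right_comm, h1, zero_add]

lemma label_last {b : ι → Bool} (a : Arr N G ι) (l : List (Arr N G ι)) (hc : Cmp (a :: l))
    (hr : ∀ r ∈ a :: l, Rp b r) (j : ZMod N) :
    b ((lst a l).t j) = b (a.s (j + dg ((a :: l).map Arr.w).prod)) := by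
  induction l generalizing a with
  | nil =>
    have h1 : ([a].map Arr.w).prod = a.w := by
      rw [List.map_cons, List.map_nil, List.prod_cons, List.prod_nil, mul_one]
    rw [h1]
    exact hr a (List.mem_cons_self ..) j
  | cons a' l ih =>
    have h1 := ih a' hc.2 (fun r h => hr r (List.mem_cons_of_mem _ h))
    show b ((lst a' l).t j) = _
    rw [h1, List.map_cons (f := Arr.w) (a := a), List.prod_cons, dg_mul, ← hc.1,
      hr a (List.mem_cons_self ..), add_comm (dg a.w), add_assoc]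

lemma label_all {b : ι → Bool} {β : Bool} (a : Arr N G ι) (l : List (Arr N G ι))
    (hc : Cmp (a :: l)) (hr : ∀ r ∈ a :: l, Rp b r) (h : ∀ j, b (a.s j) = β) :
    ∀ r ∈ a :: l, Am b β r := by
  induction l generalizing a with
  | nil =>
    intro r h1
    rw [List.mem_singleton.1 h1]
    exact ⟨h, fun j => (hr a (List.mem_cons_self ..) j).trans (h _)⟩
  | cons a' l ih =>
    have h2 : ∀ j, b (a.t j) = β := fun j => (hr a (List.mem_cons_self ..) j).trans (h _)
    intro r h1
    rcases List.mem_cons.1 h1 with h3 | h3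
    · rw [h3]
      exact ⟨h, h2⟩
    · exact ih a' hc.2 (fun r h => hr r (List.mem_cons_of_mem _ h))
        (fun j => by rw [← hc.1]; exact h2 j) r h3

lemma const_of_shift' [NeZero N] {X : Type*} (u : ZMod N → X) (h : ∀ j, u j = u (j + 1))
    (j : ZMod N) : u j = u 0 := by
  have h1 : ∀ k : ℕ, u (k : ZMod N) = u 0 := by
    intro k
    induction k with
    | zero => rw [Nat.cast_zero]
    | succ k ih => rw [Nat.cast_succ, ← h, ih]
  rw [← h1 j.val, ZMod.natCast_zmod_val]

lemma XA_labels [NeZero N] {H : Type v} [AddCommGroup H] {Θ : Type w} [Fintype Θ] (n : ℕ)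
    {c : WR N G} (hc : dg c = 1) (s : WR N G → WR N G) (θ : (ZMod N → ι) → Θ → WR N G)
    (F : List (WR N G) → H) {b : ι → Bool} (l : List (Arr N G ι)) (hr : ∀ r ∈ l, Rp b r)
    (h : XA n c s θ F l ≠ 0) : ∃ β, ∀ r ∈ l, Am b β r := by
  unfold XA at h
  have h1 : l.length = n + 1 ∧ Clo l ∧ ∃ z, z * c * z⁻¹ = (l.map Arr.w).prod := by
    by_contra h2
    exact h (if_neg h2)
  obtain ⟨-, h2, z, hz⟩ := h1
  cases l with
  | nil => exact h2.elim
  | cons a l =>
    have h3 : dg ((a :: l).map Arr.w).prod = 1 := by rw [← hz, dg_conj, hc]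
    have h4 : ∀ j, b (a.s j) = b (a.s (j + 1)) := fun j => by
      have h5 := label_last a l h2.1 hr j
      rw [h3, h2.2] at h5
      exact h5
    exact ⟨b (a.s 0), label_all a l h2.1 hr (const_of_shift' (fun j => b (a.s j)) h4)⟩

lemma XA_nil {H : Type v} [AddCommGroup H] {Θ : Type w} [Fintype Θ] (n : ℕ)
    (c : WR N G) (s : WR N G → WR N G) (θ : (ZMod N → ι) → Θ → WR N G)
    (F : List (WR N G) → H) : XA n c s θ F [] = 0 := by
  unfold XA
  exact if_neg fun h => absurd h.1 (Nat.succ_ne_zero n).symm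

end BLXaux

open BLXaux in
open Classical in
theorem specBLX : SpecBLX.{u, w} := by
  intro N n _ G _ ι κ₀ κ₁ _ _ _ _ _ _ b f₀ f₁ hf₀ hf₁ hi₀ hi₁ Θ _ c hc s F θ θ₀ θ₁ hθ₀ hθ₁ l hl
  have hY : ∀ t : List (Arr N G ι), (∀ r ∈ t, Rp b r) → XA n c s θ F t =
      (if ∀ r ∈ t, Am b false r then XA n c s θ F t else 0) +
      (if ∀ r ∈ t, Am b true r then XA n c s θ F t else 0) := by
    intro t ht
    by_cases h0 : ∀ r ∈ t, Am b false r
    · by_cases h1 : ∀ r ∈ t, Am b true r
      · cases t with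
        | nil => rw [XA_nil]; simp
        | cons r t =>
          have h2 := (h0 r (List.mem_cons_self ..)).1 0
          rw [(h1 r (List.mem_cons_self ..)).1 0] at h2
          exact absurd h2 (by decide)
      · rw [if_pos h0, if_neg h1, add_zero]
    · by_cases h1 : ∀ r ∈ t, Am b true r
      · rw [if_neg h0, if_pos h1, zero_add]
      · rw [if_neg h0, if_neg h1, add_zero]
        by_contra h2
        obtain ⟨β, hβ⟩ := XA_labels n hc s θ F t ht h2
        cases β with
        | false => exact h0 hβ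
        | true => exact h1 hβ
  rw [Xe_congr l hl _ _ hY, Xe_add, Xe_res hf₀ hi₀ l hl, Xe_res hf₁ hi₁ l hl]
  · congr 1
    · refine congrFun (congrArg Xe (funext fun t => ?_)) _
      rw [if_pos, XA_map n c s hf₀ θ θ₀ hθ₀]
      intro r hr
      obtain ⟨r', -, h2⟩ := List.mem_map.1 hr
      rw [← h2]
      exact am_mf (fun j => (hi₀ _).2 ⟨j, rfl⟩) r'
    · refine congrFun (congrArg Xe (funext fun t => ?_)) _
      rw [if_pos, XA_map n c s hf₁ θ θ₁ hθ₁]
      intro r hr
      obtain ⟨r', -, h2⟩ := List.mem_map.1 hr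
      rw [← h2]
      exact am_mf (fun j => (hi₁ _).2 ⟨j, rfl⟩) r'
  · intro t _ h1
    obtain ⟨r, h2, h3⟩ := h1
    exact if_neg fun h4 => h3 (h4 r h2)
  · intro t _ h1
    obtain ⟨r, h2, h3⟩ := h1
    exact if_neg fun h4 => h3 (h4 r h2)

end Pool.Agent.Lib.MPb6f35e.KA
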