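import Pool.Agent.Lib.MP_b6f35e_al.KA.SpecD
import Pool.Agent.Lib.MP_b6f35e_al.K2.BLS

/-!
# Rational K-theory in all degrees (MP_b6f35e_al), module BRS: the ring of a block decomposition
-/

set_option autoImplicit false
set_option linter.unusedSectionVars false

noncomputable section

namespace Pool.Agent.Lib.MPb6f35e.KA

open Pool.Agent.Lib.MPb6f35e.WH Pool.Agent.Lib.MPb6f35e.K2

universe u v w

namespace BRSM

open BLSaux

variable {N : ℕ} [NeZero N] {G : Type u} [Group G] {ι κ : Type} [Fintype ι] [DecidableEq ι]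
  [Fintype κ] [DecidableEq κ] {b : ι → Bool}

lemma dsb_one : DSb b (1 : SR N G ι) := by
  intro I J g h
  rw [Matrix.one_apply] at h
  by_cases hIJ : I = J
  · subst hIJ
    rw [if_pos rfl, MonoidAlgebra.one_def, MonoidAlgebra.coeff_single] at h
    have : g = 1 := by
      by_contra hne
      exact h (Finsupp.single_eq_of_ne hne)
    subst this
    intro j
    rw [dg_one, add_zero]
  · rw [if_neg hIJ] at h
    exact absurd rfl h

lemma dsb_zero : DSb b (0 : SR N G ι) := by
  intro I J g h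
  exact absurd rfl h

lemma dsb_add {a a' : SR N G ι} (ha : DSb b a) (hb : DSb b a') : DSb b (a + a') := by
  intro I J g h
  rw [Matrix.add_apply, MonoidAlgebra.coeff_add, Finsupp.add_apply] at h
  by_cases h1 : (a I J).coeff g = 0
  · rw [h1, zero_add] at h
    exact hb I J g h
  · exact ha I J g h1

lemma dsb_neg {a : SR N G ι} (ha : DSb b a) : DSb b (-a) := by
  intro I J g h
  refine ha I J g (fun h0 => h ?_)
  rw [Matrix.neg_apply, MonoidAlgebra.coeff_neg, Finsupp.neg_apply, h0, neg_zero]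

lemma dsb_mul {a a' : SR N G ι} (ha : DSb b a) (hb : DSb b a') : DSb b (a * a') := by
  intro I K m h j
  rw [Matrix.mul_apply] at h
  obtain ⟨J, _, hJ⟩ := coeff_sum_ne _ _ _ h
  obtain ⟨g, g', h1, h2, rfl⟩ := coeff_mul_ne _ _ _ hJ
  rw [hb J K g' h2 j, ha I J g h1 (j + dg g')]
  have e : j + dg g' + dg g = j + dg (g * g') := by rw [dg_mul]; ring
  rw [e]

lemma dsb_tau : DSb b (tauS N G ι : SR N G ι) := by
  intro I J g h
  change (if J = sh I then MonoidAlgebra.single (tW N G) 1 else 0 :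
    MonoidAlgebra (ZMod N) (WR N G)).coeff g ≠ 0 at h
  by_cases hJ : J = sh I
  · rw [if_pos hJ, MonoidAlgebra.coeff_single] at h
    have : g = tW N G := by
      by_contra hne
      exact h (Finsupp.single_eq_of_ne hne)
    subst this
    intro j
    rw [dg_t, hJ]
    rfl
  · rw [if_neg hJ] at h
    exact absurd rfl h

lemma dsb_iB (k : Type v) [CommRing k] (r : k →+* ZMod N) (x : TR k G ι N) (hx : BD b x) :
    DSb b (iB k N r G ι x) := by
  intro I J g h
  change (jW k N r G (x I J)).coeff g ≠ 0 at h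
  by_cases hIJ : (fun j => b (I j)) = fun j => b (J j)
  · have hg : g ∈ Set.range (inW N G) := by
      by_contra hg
      refine h ?_
      change (Finsupp.mapDomain (inW N G) _) g = 0
      exact Finsupp.mapDomain_of_notMem_range _ _ hg
    obtain ⟨γ, rfl⟩ := hg
    intro j
    rw [dg_in, add_zero]
    exact (congrFun hIJ j).symm
  · have h0 : x I J = 0 := hx I J hIJ
    rw [h0, map_zero] at h
    exact absurd rfl h

lemma dsb_d {a : SR N G ι} (ha : DSb b a) : DSb b (dS N G ι a) := by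
  intro I J g h
  refine ha I J g (fun h0 => h ?_)
  change dg g * (a I J).coeff g = 0
  rw [h0, mul_zero]

/-- the rows with all labels `β` -/
lemma row_zero' {a : SR N G ι} (ha : DSb b a) {β : Bool} {I : ZMod N → ι}
    (hI : ∀ j, b (I j) = β) {J : ZMod N → ι} (hJ : ¬ ∀ j, b (J j) = β) : a I J = 0 := by
  ext g
  rw [coeff_zero_apply]
  by_contra h
  refine hJ fun j => ?_
  rw [ha I J g h j, hI]

lemma sbF_mul {f : κ → ι} (hf : Function.Injective f) {β : Bool}
    (hb : ∀ i, b i = β ↔ ∃ j, f j = i) {a : SR N G ι} (ha : DSb b a) (a' : SR N G ι) :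
    sbF f (a * a') = sbF f a * sbF f a' := by
  ext1 I K
  rw [Matrix.mul_apply]
  change (a * a') (fun j => f (I j)) (fun j => f (K j)) = _
  rw [Matrix.mul_apply]
  symm
  refine Fintype.sum_of_injective (fun (J : ZMod N → κ) (j : ZMod N) => f (J j)) ?_ _ _ ?_ ?_
  · intro J J' h
    funext j
    exact hf (congrFun h j)
  · intro J hJ
    have hz : a (fun j => f (I j)) J = 0 := by
      refine row_zero' ha (β := β) (fun j => (hb _).2 ⟨I j, rfl⟩) fun hall => hJ ?_
      choose J' hJ' using fun j => (hb (J j)).1 (hall j)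
      exact ⟨J', funext hJ'⟩
    rw [hz, zero_mul]
  · intro J
    rfl

lemma sbF_one {f : κ → ι} (hf : Function.Injective f) :
    sbF f (1 : SR N G ι) = (1 : SR N G κ) := by
  ext1 I K
  change (1 : SR N G ι) (fun j => f (I j)) (fun j => f (K j)) = _
  rw [Matrix.one_apply, Matrix.one_apply]
  by_cases h : I = K
  · rw [if_pos h, if_pos (by rw [h])]
  · rw [if_neg h, if_neg]
    intro h'
    exact h (funext fun j => hf (congrFun h' j))

lemma sbF_tau {f : κ → ι} (hf : Function.Injective f) :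
    sbF f (tauS N G ι : SR N G ι) = (tauS N G κ : SR N G κ) := by
  ext1 I K
  change (if (fun j => f (K j)) = sh (fun j => f (I j)) then
    MonoidAlgebra.single (tW N G) 1 else 0 : MonoidAlgebra (ZMod N) (WR N G)) =
    (if K = sh I then MonoidAlgebra.single (tW N G) 1 else 0)
  by_cases h : K = sh I
  · rw [if_pos h, if_pos (by rw [h]; rfl)]
  · rw [if_neg h, if_neg]
    intro h'
    exact h (funext fun j => hf (congrFun h' j))

end BRSM

open BRSM in
/-- module BRS -/
theorem specBRS : SpecBRS.{u, v} := by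
  intro N _ G _ ι κ₀ κ₁ _ _ _ _ _ _ b f₀ f₁ hf₀ hf₁ hb₀ hb₁
  refine ⟨{ carrier := {s | DSb b s.1 ∧ s.2.1 = sbF f₀ s.1 ∧ s.2.2 = sbF f₁ s.1}
            mul_mem' := ?_
            one_mem' := ?_
            add_mem' := ?_
            zero_mem' := ?_
            neg_mem' := ?_ }, fun s => Iff.rfl, ?_, ?_, ?_⟩
  · rintro s s' ⟨h1, h2, h3⟩ ⟨h1', h2', h3'⟩
    refine ⟨dsb_mul h1 h1', ?_, ?_⟩
    · change s.2.1 * s'.2.1 = sbF f₀ (s.1 * s'.1)
      rw [sbF_mul hf₀ hb₀ h1, h2, h2']
    · change s.2.2 * s'.2.2 = sbF f₁ (s.1 * s'.1)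
      rw [sbF_mul hf₁ hb₁ h1, h3, h3']
  · exact ⟨dsb_one, (sbF_one hf₀).symm, (sbF_one hf₁).symm⟩
  · rintro s s' ⟨h1, h2, h3⟩ ⟨h1', h2', h3'⟩
    refine ⟨dsb_add h1 h1', ?_, ?_⟩
    · change s.2.1 + s'.2.1 = sbF f₀ s.1 + sbF f₀ s'.1
      rw [h2, h2']
    · change s.2.2 + s'.2.2 = sbF f₁ s.1 + sbF f₁ s'.1
      rw [h3, h3']
  · exact ⟨dsb_zero, rfl, rfl⟩
  · rintro s ⟨h1, h2, h3⟩
    refine ⟨dsb_neg h1, ?_, ?_⟩
    · change - s.2.1 = - sbF f₀ s.1
      rw [h2]
    · change - s.2.2 = - sbF f₁ s.1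
      rw [h3]
  · intro k _ r x hx
    exact ⟨dsb_iB k r x hx, rfl, rfl⟩
  · exact ⟨dsb_tau, (sbF_tau hf₀).symm, (sbF_tau hf₁).symm⟩
  · rintro s ⟨h1, h2, h3⟩
    refine ⟨dsb_d h1, ?_, ?_⟩
    · change dS N G κ₀ s.2.1 = _
      rw [h2]
      rfl
    · change dS N G κ₁ s.2.2 = _
      rw [h3]
      rfl

end Pool.Agent.Lib.MPb6f35e.KA
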