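import Pool.Agent.Lib.MP_b6f35e_al.KA.SpecE

/-!
# Module CNJ: conjugation acts trivially on the homology of the bar complex (MP_b6f35e_al)
-/

set_option autoImplicit false

noncomputable section

namespace Pool.Agent.Lib.MPb6f35e.KA

universe u v w

namespace CNJM

section

variable {X : Type u} {M : Type v} {M' : Type w} [AddCommGroup M] [AddCommGroup M']

lemma tl_sub [Mul X] (l : List X) : ∀ F F' : List X → M,
    tl (fun m => F m - F' m) l = tl F l - tl F' l := by
  induction l with
  | nil => intro F F'; simp [tl]
  | cons x l ih =>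
    intro F F'
    cases l with
    | nil => simp [tl]
    | cons y l =>
      have h := ih (fun l' => F (x :: l')) (fun l' => F' (x :: l'))
      simp only [tl]
      rw [h]
      abel

variable [Group X]

lemma cj_sub (g : X) (l : List X) : ∀ F F' : List X → M,
    cj (fun m => F m - F' m) g l = cj F g l - cj F' g l := by
  induction l with
  | nil => intro F F'; simp [cj]
  | cons x l ih =>
    intro F F'
    have h := ih (fun l' => F ((g * x * g⁻¹) :: l')) (fun l' => F' ((g * x * g⁻¹) :: l'))
    simp only [cj]
    rw [h]
    abel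

lemma cj_map (f : M →+ M') (g : X) (l : List X) : ∀ F : List X → M,
    cj (fun m => f (F m)) g l = f (cj F g l) := by
  induction l with
  | nil => intro F; simp [cj]
  | cons x l ih =>
    intro F
    have h := ih (fun l' => F ((g * x * g⁻¹) :: l'))
    simp only [cj]
    rw [h, map_sub]

/-- The second part of `cj`. -/
def J (F : List X → M) (g : X) : List X → M
  | [] => 0
  | b :: m => cj (fun l => F ((g * b * g⁻¹) :: l)) g m

lemma cj_eq (F : List X → M) (g : X) (m : List X) : cj F g m = F (g :: m) - J F g m := by
  cases m with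
  | nil => simp [cj, J]
  | cons b m => simp [cj, J]

lemma lem (g : X) (l : List X) : ∀ (F : List X → M) (a : X),
    cj (fun m => tl F ((g * a * g⁻¹) :: m)) g l =
      F ((g * a) :: l) - F ((g * a * g⁻¹) :: l.map fun x => g * x * g⁻¹) - tl (J F g) (a :: l) := by
  induction l with
  | nil =>
    intro F a
    have h : g * a * g⁻¹ * g = g * a := by group
    simp [cj, tl, J]
  | cons x l ih =>
    intro F a
    have h1 : g * a * g⁻¹ * g = g * a := by group
    have h2 : g * (a * x) * g⁻¹ = g * a * g⁻¹ * (g * x * g⁻¹) := by group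
    have hi := ih (fun l' => F ((g * a * g⁻¹) :: l')) x
    have e1 : cj (fun m => tl F ((g * a * g⁻¹) :: m)) g (x :: l) =
        tl F ((g * a * g⁻¹) :: g :: x :: l) -
          cj (fun m => tl F ((g * a * g⁻¹) :: (g * x * g⁻¹) :: m)) g l := rfl
    have e2 : tl F ((g * a * g⁻¹) :: g :: x :: l) = F ((g * a) :: x :: l) -
        (F ((g * a * g⁻¹) :: (g * x) :: l) -
          tl (fun m => F ((g * a * g⁻¹) :: g :: m)) (x :: l)) := by
      simp only [tl, h1]
    have e3 : cj (fun m => tl F ((g * a * g⁻¹) :: (g * x * g⁻¹) :: m)) g l =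
        cj (fun m => F ((g * a * g⁻¹ * (g * x * g⁻¹)) :: m)) g l -
          cj (fun m => tl (fun l' => F ((g * a * g⁻¹) :: l')) ((g * x * g⁻¹) :: m)) g l := by
      rw [← cj_sub]
      rfl
    have e4 : tl (J F g) (a :: x :: l) = J F g ((a * x) :: l) -
        tl (fun m => J F g (a :: m)) (x :: l) := rfl
    have e5 : J F g ((a * x) :: l) = cj (fun m => F ((g * a * g⁻¹ * (g * x * g⁻¹)) :: m)) g l := by
      simp only [J, h2]
    have e6 : (fun m => J F g (a :: m)) = fun m => F ((g * a * g⁻¹) :: g :: m) -
        J (fun l' => F ((g * a * g⁻¹) :: l')) g m := by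
      funext m
      exact cj_eq (fun l' => F ((g * a * g⁻¹) :: l')) g m
    rw [e1, e2, e3, hi, e4, e5, e6, tl_sub, List.map_cons]
    abel

lemma claim (g : X) (F : List X → M) (l : List X) :
    cj (bdF F) g l + bdF (cj F g) l = F l - F (l.map fun x => g * x * g⁻¹) := by
  cases l with
  | nil => simp [cj, bdF, tl]
  | cons x l =>
    have e1 : cj (bdF F) g (x :: l) = (F (x :: l) - tl F (g :: x :: l)) -
        (cj F g l - cj (fun m => tl F ((g * x * g⁻¹) :: m)) g l) := by
      rw [← cj_sub]
      rfl
    have e2 : bdF (cj F g) (x :: l) = cj F g l - tl (cj F g) (x :: l) := rfl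
    have e3 : cj F g = fun m => F (g :: m) - J F g m := by
      funext m
      exact cj_eq F g m
    have e4 : tl F (g :: x :: l) = F ((g * x) :: l) - tl (fun m => F (g :: m)) (x :: l) := rfl
    have e5 : tl (cj F g) (x :: l) = tl (fun m => F (g :: m)) (x :: l) - tl (J F g) (x :: l) := by
      rw [e3, tl_sub]
    rw [e1, e2, e4, e5, lem, List.map_cons]
    abel

lemma cj_mem {P : X → Prop} (hm : ∀ x y, P x → P y → P (x * y)) (S : AddSubgroup M) (g : X)
    (hg : P g) (hg' : P g⁻¹) (l : List X) : ∀ (F : List X → M) (n : ℕ),
    (∀ m : List X, m.length = n + 1 → (∀ x ∈ m, P x) → F m ∈ S) → l.length = n →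
    (∀ x ∈ l, P x) → cj F g l ∈ S := by
  induction l with
  | nil =>
    intro F n hF hl _
    apply hF
    · simp only [List.length_nil] at hl
      simp [← hl]
    · intro x hx
      rw [List.mem_singleton] at hx
      rw [hx]
      exact hg
  | cons x l ih =>
    intro F n hF hl hP
    have hx : P x := hP x List.mem_cons_self
    have hP' : ∀ y ∈ l, P y := fun y hy => hP y (List.mem_cons_of_mem _ hy)
    apply S.sub_mem
    · apply hF
      · simp only [List.length_cons] at hl ⊢
        omega
      · intro y hy
        rcases List.mem_cons.1 hy with h | h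
        · rw [h]; exact hg
        · exact hP y h
    · refine ih (fun l' => F ((g * x * g⁻¹) :: l')) l.length ?_ rfl hP'
      intro m hm1 hm2
      apply hF
      · simp only [List.length_cons] at hl ⊢
        omega
      · intro y hy
        rcases List.mem_cons.1 hy with h | h
        · rw [h]; exact hm _ _ (hm _ _ hg hx) hg'
        · exact hm2 y h

end

end CNJM

open CNJM

theorem specCNJ (hALT : SpecALT.{u, u, u}) : SpecCNJ.{u} := by
  intro X _ n P hm g hg hg' z hz
  have hz1 : z ∈ ch n P := hz.1
  have hz2 : bd z = 0 := hz.2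
  refine ⟨FreeAbelianGroup.lift (fun l => cj FreeAbelianGroup.of g l) z, ?_, ?_⟩
  · refine AddSubgroup.closure_induction (p := fun z _ =>
      FreeAbelianGroup.lift (fun l => cj FreeAbelianGroup.of g l) z ∈ ch (n + 1) P)
      ?_ ?_ ?_ ?_ hz1
    · rintro y ⟨l, hl, hP, rfl⟩
      rw [FreeAbelianGroup.lift_apply_of]
      refine cj_mem hm (ch (n + 1) P) g hg hg' l _ n ?_ hl hP
      intro m hm1 hm2
      exact AddSubgroup.subset_closure ⟨m, hm1, hm2, rfl⟩
    · rw [map_zero]; exact AddSubgroup.zero_mem _
    · intro a b _ _ ha hb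
      rw [map_add]; exact AddSubgroup.add_mem _ ha hb
    · intro a _ ha
      rw [map_neg]; exact AddSubgroup.neg_mem _ ha
  · have h1 : ∀ y : Ch X, bd (FreeAbelianGroup.lift (fun l => cj FreeAbelianGroup.of g l) y) +
        FreeAbelianGroup.lift (bdF (fun l => cj FreeAbelianGroup.of g l)) y =
        y - cmap (fun x => g * x * g⁻¹) y := by
      intro y
      induction y using FreeAbelianGroup.induction_on with
      | zero => simp
      | of l =>
        rw [FreeAbelianGroup.lift_apply_of, FreeAbelianGroup.lift_apply_of]
        have h2 := claim g (FreeAbelianGroup.of : List X → Ch X) l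
        have h3 : bd (cj FreeAbelianGroup.of g l) =
            cj (bdF (FreeAbelianGroup.of : List X → Ch X)) g l := by
          rw [← cj_map]
          congr 1
          funext m
          simp [bd]
        rw [h3]
        have h4 : cmap (fun x => g * x * g⁻¹) (FreeAbelianGroup.of l) =
            FreeAbelianGroup.of (l.map fun x => g * x * g⁻¹) := by
          simp [cmap]
        rw [h4]
        exact h2
      | neg l h =>
        simp only [map_neg]
        rw [← neg_add, h]
        abel
      | add a b ha hb =>
        simp only [map_add]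
        rw [add_add_add_comm, ha, hb]
        abel
    have h5 := h1 z
    rw [← hALT.lift, hz2, map_zero, add_zero] at h5
    exact h5.symm

end Pool.Agent.Lib.MPb6f35e.KA
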