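import Pool.Agent.Lib.MP_b6f35e_al.KA.SpecF

/-!
# CON: alternating, invariant homogeneous cocycles
-/

set_option autoImplicit false

noncomputable section

namespace Pool.Agent.Lib.MPb6f35e.KA

universe u v w x

namespace CONM

/-! ### sums over the entries of a list -/

section Lists

variable {X : Type v} {M : Type w} [AddCommGroup M]

/-- `Σ_i (-1)^i H(l_i, l without the entry i)`. -/
def dl : (X → List X → M) → List X → M
  | _, [] => 0
  | H, x :: l => H x l - dl (fun y l' => H y (x :: l')) l

lemma dl_nil (H : X → List X → M) : dl H [] = 0 := rfl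

lemma dl_cons (H : X → List X → M) (x : X) (l : List X) :
    dl H (x :: l) = H x l - dl (fun y l' => H y (x :: l')) l := rfl

lemma alt_nil (F : List X → M) : alt F [] = 0 := rfl

lemma alt_cons (F : List X → M) (x : X) (l : List X) :
    alt F (x :: l) = F l - alt (fun l' => F (x :: l')) l := rfl

lemma dl_const (F : List X → M) (l : List X) : dl (fun _ l' => F l') l = alt F l := by
  induction l generalizing F with
  | nil => rfl
  | cons x l ih => rw [dl_cons, alt_cons, ih (fun l' => F (x :: l'))]

lemma dl_congr {Q : X → Prop} (H H' : X → List X → M) (l : List X) (hl : ∀ x ∈ l, Q x)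
    (h : ∀ y l', Q y → (∀ x ∈ l', Q x) → l'.length + 1 = l.length → H y l' = H' y l') :
    dl H l = dl H' l := by
  induction l generalizing H H' with
  | nil => rfl
  | cons x l ih =>
    have hx : Q x := hl x (by simp)
    have hl' : ∀ z ∈ l, Q z := fun z hz => hl z (by simp [hz])
    rw [dl_cons, dl_cons, h x l hx hl' (by simp)]
    congr 1
    refine ih _ _ hl' fun y l' hy hl'' hlen => h y (x :: l') hy ?_ (by simp [hlen])
    intro z hz
    rcases List.mem_cons.1 hz with rfl | hz
    · exact hx
    · exact hl'' z hz

lemma alt_congr {Q : X → Prop} (F F' : List X → M) (l : List X) (hl : ∀ x ∈ l, Q x)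
    (h : ∀ l', (∀ x ∈ l', Q x) → l'.length + 1 = l.length → F l' = F' l') :
    alt F l = alt F' l := by
  rw [← dl_const, ← dl_const]
  exact dl_congr (Q := Q) _ _ l hl fun _ l' _ h1 h2 => h l' h1 h2

lemma dl_sub (H H' : X → List X → M) (l : List X) :
    dl (fun y l' => H y l' - H' y l') l = dl H l - dl H' l := by
  induction l generalizing H H' with
  | nil => simp [dl_nil]
  | cons x l ih => rw [dl_cons, dl_cons, dl_cons, ih (fun y l' => H y (x :: l'))]; abel

lemma dl_nsmul (k : ℕ) (H : X → List X → M) (l : List X) :
    dl (fun y l' => k • H y l') l = k • dl H l := by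
  induction l generalizing H with
  | nil => simp [dl_nil]
  | cons x l ih => rw [dl_cons, dl_cons, ih (fun y l' => H y (x :: l')), smul_sub]

lemma alt_sub (F F' : List X → M) (l : List X) :
    alt (fun l' => F l' - F' l') l = alt F l - alt F' l := by
  rw [← dl_const, ← dl_const, ← dl_const]
  exact dl_sub _ _ l

lemma alt_nsmul (k : ℕ) (F : List X → M) (l : List X) :
    alt (fun l' => k • F l') l = k • alt F l := by
  rw [← dl_const, ← dl_const]
  exact dl_nsmul k _ l

lemma alt_zero (l : List X) : alt (fun _ => (0 : M)) l = 0 := by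
  have := alt_nsmul 0 (fun _ : List X => (0 : M)) l
  simpa using this

lemma alt_sum {ι : Type} (s : Finset ι) (F : ι → List X → M) (l : List X) :
    alt (fun l' => ∑ a ∈ s, F a l') l = ∑ a ∈ s, alt (F a) l := by
  induction l generalizing F with
  | nil => simp [alt_nil]
  | cons x l ih =>
    simp only [alt_cons]
    rw [Finset.sum_sub_distrib, ih (fun a l' => F a (x :: l'))]

lemma alt_alt (F : List X → M) (l : List X) : alt (alt F) l = 0 := by
  induction l generalizing F with
  | nil => rfl
  | cons x l ih =>
    have h : (fun l' => alt F (x :: l')) = fun l' => F l' - alt (fun l'' => F (x :: l'')) l' := rfl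
    rw [alt_cons, h, alt_sub, ih (fun l'' => F (x :: l''))]
    abel

/-- Removing two entries. -/
lemma dl_alt (K : X → List X → M) (l : List X) :
    dl (fun y l' => alt (K y) l') l = - alt (dl K) l := by
  induction l generalizing K with
  | nil => simp [dl_nil, alt_nil]
  | cons x l ih =>
    have h1 : (fun y l' => alt (K y) (x :: l')) =
        fun y l' => K y l' - alt (fun l'' => K y (x :: l'')) l' := rfl
    have h2 : (fun l' => dl K (x :: l')) =
        fun l' => K x l' - dl (fun y l'' => K y (x :: l'')) l' := rfl
    rw [dl_cons, h1, dl_sub, ih (fun y l'' => K y (x :: l'')), alt_cons, h2, alt_sub]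
    abel

lemma dl_map {Y : Type v} (f : Y → X) (H : X → List X → M) (l : List Y) :
    dl H (l.map f) = dl (fun y l' => H (f y) (l'.map f)) l := by
  induction l generalizing H with
  | nil => rfl
  | cons x l ih =>
    rw [List.map_cons, dl_cons, dl_cons, ih]
    rfl

lemma alt_map {Y : Type v} (f : Y → X) (F : List X → M) (l : List Y) :
    alt F (l.map f) = alt (fun l' => F (l'.map f)) l := by
  rw [← dl_const, ← dl_const, dl_map]

lemma dl_swap (H : X → List X → M)
    (hH : ∀ y l z z' l', H y (l ++ z :: z' :: l') = - H y (l ++ z' :: z :: l'))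
    (l : List X) (z z' : X) (l' : List X) :
    dl H (l ++ z :: z' :: l') = - dl H (l ++ z' :: z :: l') := by
  induction l generalizing H with
  | nil =>
    simp only [List.nil_append, dl_cons]
    have h : (fun y l'' => H y (z :: z' :: l'')) = fun y l'' => (0 : M) - H y (z' :: z :: l'') := by
      funext y l''
      have := hH y [] z z' l''
      simpa using this
    have h0 : dl (fun (_ : X) (_ : List X) => (0 : M)) l' = 0 := by
      rw [dl_const]; exact alt_zero l'
    rw [h, dl_sub, h0]
    abel
  | cons x l ih =>
    simp only [List.cons_append, dl_cons]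
    rw [ih (fun y l'' => H y (x :: l'')) (fun y a b b' a' => hH y (x :: a) b b' a'),
      hH x l z z' l']
    abel

end Lists

/-! ### the operator `Θ` -/

section Theta

variable {G : Type v} [Group G] {M : Type w} [AddCommGroup M]

/-- The operator `Θ` on the functions of lists of length `m`. -/
def th (c : G) (o : ℕ) : ℕ → (List G → M) → List G → M
  | 0, F, [] => F []
  | 0, _, _ :: _ => 0
  | m + 1, F, l =>
    dl (fun y l' => ∑ a ∈ Finset.range o, th c o m (fun l'' => F ((y * c ^ a) :: l'')) l') l

variable (c : G) (o : ℕ)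

lemma th_zero_nil (F : List G → M) : th c o 0 F [] = F [] := rfl

lemma th_zero_cons (F : List G → M) (x : G) (l : List G) : th c o 0 F (x :: l) = 0 := rfl

lemma th_succ (m : ℕ) (F : List G → M) (l : List G) :
    th c o (m + 1) F l =
      dl (fun y l' => ∑ a ∈ Finset.range o, th c o m (fun l'' => F ((y * c ^ a) :: l'')) l') l := rfl

lemma th_zero_app (F : List G → M) (l : List G) (z : G) (l' : List G) :
    th c o 0 F (l ++ z :: l') = 0 := by
  cases l <;> rfl

lemma th_congr {Q : G → Prop} (hQ : ∀ y (a : ℕ), Q y → Q (y * c ^ a)) (m : ℕ)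
    (F F' : List G → M) (h : ∀ l, (∀ x ∈ l, Q x) → l.length = m → F l = F' l)
    (l : List G) (hl : ∀ x ∈ l, Q x) : th c o m F l = th c o m F' l := by
  induction m generalizing F F' l with
  | zero =>
    cases l with
    | nil => exact h [] (by simp) rfl
    | cons x l => rfl
  | succ m ih =>
    rw [th_succ, th_succ]
    refine dl_congr (Q := Q) _ _ l hl fun y l' hy hl' _ => Finset.sum_congr rfl fun a _ => ?_
    refine ih _ _ (fun l'' h1 h2 => h _ ?_ (by simp [h2])) l' hl'
    intro x hx
    rcases List.mem_cons.1 hx with rfl | hx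
    · exact hQ y a hy
    · exact h1 x hx

lemma th_sub (m : ℕ) (F F' : List G → M) (l : List G) :
    th c o m (fun l' => F l' - F' l') l = th c o m F l - th c o m F' l := by
  induction m generalizing F F' l with
  | zero => cases l <;> simp [th_zero_nil, th_zero_cons]
  | succ m ih =>
    rw [th_succ, th_succ, th_succ, ← dl_sub]
    congr 1
    funext y l'
    rw [← Finset.sum_sub_distrib]
    exact Finset.sum_congr rfl fun a _ => ih _ _ l'

lemma th_alt (m : ℕ) (F : List G → M) (l : List G) :
    th c o (m + 1) (alt F) l = ((m + 1) * o) • alt (th c o m F) l := by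
  induction m generalizing F l with
  | zero =>
    rw [th_succ]
    have h : (fun (y : G) (l' : List G) => ∑ a ∈ Finset.range o,
        th c o 0 (fun l'' => alt F ((y * c ^ a) :: l'')) l') =
        fun _ l' => o • th c o 0 F l' := by
      funext y l'
      have : ∀ a ∈ Finset.range o, th c o 0 (fun l'' => alt F ((y * c ^ a) :: l'')) l' =
          th c o 0 F l' := by
        intro a _
        cases l' with
        | nil => simp [th_zero_nil, alt_cons, alt_nil]
        | cons x l' => rfl
      rw [Finset.sum_congr rfl this]
      simp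
    rw [h, dl_const, alt_nsmul]
    simp
  | succ m ih =>
    rw [th_succ]
    have h : (fun (y : G) (l' : List G) => ∑ a ∈ Finset.range o,
        th c o (m + 1) (fun l'' => alt F ((y * c ^ a) :: l'')) l') =
        fun y l' => o • th c o (m + 1) F l' - ((m + 1) * o) • alt (fun l'' =>
          ∑ a ∈ Finset.range o, th c o m (fun l₃ => F ((y * c ^ a) :: l₃)) l'') l' := by
      funext y l'
      have : ∀ a ∈ Finset.range o, th c o (m + 1) (fun l'' => alt F ((y * c ^ a) :: l'')) l' =
          th c o (m + 1) F l' - ((m + 1) * o) •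
            alt (th c o m (fun l₃ => F ((y * c ^ a) :: l₃))) l' := by
        intro a _
        rw [← ih]
        exact th_sub c o (m + 1) F (alt fun l₃ => F ((y * c ^ a) :: l₃)) l'
      rw [Finset.sum_congr rfl this, Finset.sum_sub_distrib, alt_sum, Finset.smul_sum]
      simp
    rw [h, dl_sub, dl_const (fun l' => o • th c o (m + 1) F l'), dl_nsmul, dl_alt
      (fun (y : G) l'' => ∑ a ∈ Finset.range o, th c o m (fun l₃ => F ((y * c ^ a) :: l₃)) l''),
      alt_nsmul]
    have h2 : (dl fun (y : G) l'' => ∑ a ∈ Finset.range o,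
        th c o m (fun l₃ => F ((y * c ^ a) :: l₃)) l'') = th c o (m + 1) F := rfl
    rw [h2, smul_neg, sub_neg_eq_add, ← add_smul]
    congr 1
    push_cast
    ring

lemma th_swap (m : ℕ) (F : List G → M) (l : List G) (z z' : G) (l' : List G) :
    th c o m F (l ++ z :: z' :: l') = - th c o m F (l ++ z' :: z :: l') := by
  induction m generalizing F l z z' l' with
  | zero => rw [th_zero_app, th_zero_app, neg_zero]
  | succ m ih =>
    rw [th_succ, th_succ]
    refine dl_swap _ (fun y a b b' a' => ?_) l z z' l'
    rw [← Finset.sum_neg_distrib]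
    exact Finset.sum_congr rfl fun _ _ => ih _ _ _ _ _

lemma th_map (g : G) (m : ℕ) (F : List G → M) (l : List G) :
    th c o m F (l.map fun z => g * z) = th c o m (fun l' => F (l'.map fun z => g * z)) l := by
  induction m generalizing F l with
  | zero => cases l <;> rfl
  | succ m ih =>
    rw [th_succ, dl_map, th_succ]
    congr 1
    funext y l'
    refine Finset.sum_congr rfl fun a _ => ?_
    rw [ih]
    congr 1
    funext l''
    rw [List.map_cons, mul_assoc]

lemma dl_rc {Q : G → Prop} (k : G) (H : G → List G → M)
    (h1 : ∀ z l', Q z → (∀ x ∈ l', Q x) → H (z * k) l' = H z l')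
    (h2 : ∀ y l z l', Q y → (∀ x ∈ l ++ z :: l', Q x) → H y (l ++ (z * k) :: l') =
      H y (l ++ z :: l')) (hk : ∀ z, Q z → Q (z * k))
    (l : List G) (z : G) (l' : List G) (hl : ∀ x ∈ l ++ z :: l', Q x) :
    dl H (l ++ (z * k) :: l') = dl H (l ++ z :: l') := by
  induction l generalizing H with
  | nil =>
    have hz : Q z := hl z (by simp)
    have hl' : ∀ x ∈ l', Q x := fun x hx => hl x (by simp [hx])
    simp only [List.nil_append, dl_cons]
    rw [h1 z l' hz hl']
    congr 1
    refine dl_congr (Q := Q) _ _ l' hl' fun y l'' hy hl'' _ => ?_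
    have := h2 y [] z l'' hy (by
      intro x hx
      rcases List.mem_cons.1 hx with rfl | hx
      · exact hz
      · exact hl'' x hx)
    simpa using this
  | cons x l ih =>
    have hx : Q x := hl x (by simp)
    have hl0 : ∀ x ∈ l ++ z :: l', Q x := fun y hy => hl y (by
      rw [List.cons_append]; exact List.mem_cons_of_mem _ hy)
    simp only [List.cons_append, dl_cons]
    rw [h2 x l z l' hx hl0]
    congr 1
    refine ih (fun y l'' => H y (x :: l'')) (fun w l'' hw hl'' => h1 w (x :: l'') hw ?_)
      (fun y a b a' hy ha => h2 y (x :: a) b a' hy ?_) hl0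
    · intro y hy
      rcases List.mem_cons.1 hy with rfl | hy
      · exact hx
      · exact hl'' y hy
    · intro w hw
      rw [List.cons_append] at hw
      rcases List.mem_cons.1 hw with rfl | hw
      · exact hx
      · exact ha w hw

/-- `F` invariant under right multiplication by `k` on `Q`. -/
lemma th_rk {Q : G → Prop} (hQ : ∀ y (a : ℕ), Q y → Q (y * c ^ a)) (k : G) (hk : ∀ z, Q z → Q (z * k))
    (hc : k * c = c * k) (m : ℕ) (F : List G → M)
    (hF : ∀ l z l', (∀ x ∈ l ++ z :: l', Q x) → (l ++ z :: l').length = m →
      F (l ++ (z * k) :: l') = F (l ++ z :: l'))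
    (l : List G) (z : G) (l' : List G) (hl : ∀ x ∈ l ++ z :: l', Q x) :
    th c o m F (l ++ (z * k) :: l') = th c o m F (l ++ z :: l') := by
  induction m generalizing F l z l' with
  | zero => rw [th_zero_app, th_zero_app]
  | succ m ih =>
    rw [th_succ, th_succ]
    refine dl_rc (Q := Q) k _ (fun w l'' hw hl'' => ?_) (fun y a b a' hy ha => ?_) hk l z l' hl
    · refine Finset.sum_congr rfl fun a _ => ?_
      refine th_congr c o hQ m _ _ (fun l₃ h3 h4 => ?_) l'' hl''
      have hkc : w * k * c ^ a = w * c ^ a * k := by
        have : k * c ^ a = c ^ a * k := (Commute.pow_right (show Commute k c from hc) a).eq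
        rw [mul_assoc, this, mul_assoc]
      have := hF [] (w * c ^ a) l₃ (by
        intro x hx
        rcases List.mem_cons.1 hx with rfl | hx
        · exact hQ w a hw
        · exact h3 x hx) (by simp [h4])
      rw [hkc]
      simpa using this
    · refine Finset.sum_congr rfl fun e _ => ?_
      refine ih _ (fun p q r hp hlen => ?_) a b a' ha
      refine hF ((y * c ^ e) :: p) q r ?_ (by simpa using hlen)
      intro x hx
      rw [List.cons_append] at hx
      rcases List.mem_cons.1 hx with rfl | hx
      · exact hQ y e hy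
      · exact hp x hx

lemma th_rc (ho : c ^ o = 1) (m : ℕ) (F : List G → M) (l : List G) (z : G) (l' : List G) :
    th c o m F (l ++ (z * c) :: l') = th c o m F (l ++ z :: l') := by
  induction m generalizing F l z l' with
  | zero => rw [th_zero_app, th_zero_app]
  | succ m ih =>
    rw [th_succ, th_succ]
    refine dl_rc (Q := fun _ => True) c _ (fun w l'' _ _ => ?_) (fun y a b a' _ _ => ?_)
      (fun _ _ => trivial) l z l' (fun _ _ => trivial)
    · have h1 : ∀ f : G → M, ∑ a ∈ Finset.range o, f (w * c * c ^ a) =
          ∑ a ∈ Finset.range o, f (w * c ^ a) := by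
        intro f
        have e1 := Finset.sum_range_succ (fun a => f (w * c ^ a)) o
        have e2 := Finset.sum_range_succ' (fun a => f (w * c ^ a)) o
        have e3 : ∀ a ∈ Finset.range o, f (w * c * c ^ a) = f (w * c ^ (a + 1)) := by
          intro a _
          rw [pow_succ', mul_assoc]
        rw [Finset.sum_congr rfl e3]
        rw [e2, ho, pow_zero] at e1
        exact add_right_cancel e1
      exact h1 fun u => th c o m (fun l₃ => F (u :: l₃)) l''
    · exact Finset.sum_congr rfl fun e _ => ih _ _ _ _

lemma th_rcp (ho : c ^ o = 1) (m : ℕ) (F : List G → M) (l : List G) (z : G) (l' : List G) (j : ℕ) :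
    th c o m F (l ++ (z * c ^ j) :: l') = th c o m F (l ++ z :: l') := by
  induction j with
  | zero => rw [pow_zero, mul_one]
  | succ j ih => rw [pow_succ, ← mul_assoc, th_rc c o ho, ih]

/-! ### the homotopy -/

/-- The factor. -/
def Mf (o m : ℕ) : ℕ := m.factorial * o ^ m

lemma Mf_succ (m : ℕ) : Mf o (m + 1) = ((m + 1) * o) * Mf o m := by
  unfold Mf
  rw [Nat.factorial_succ, pow_succ]
  ring

/-- The homotopy. -/
def et (c : G) (o : ℕ) : ℕ → (List G → M) → List G → M
  | 0, _, _ => 0
  | _ + 1, _, [] => 0
  | m + 1, F, x :: l => th c o (m + 1) (fun l' => F (x :: l')) (x :: l) -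
      Mf o (m + 1) • F (x :: x :: l) -
      ((m + 1) * o) • alt (fun l' => et c o m (fun l'' => F (x :: l'')) l') (x :: l)

lemma et_succ (m : ℕ) (F : List G → M) (x : G) (l : List G) :
    et c o (m + 1) F (x :: l) = th c o (m + 1) (fun l' => F (x :: l')) (x :: l) -
      Mf o (m + 1) • F (x :: x :: l) -
      ((m + 1) * o) • alt (fun l' => et c o m (fun l'' => F (x :: l'')) l') (x :: l) := rfl

lemma et_sub (m : ℕ) (F F' : List G → M) (l : List G) :
    et c o m (fun l' => F l' - F' l') l = et c o m F l - et c o m F' l := by
  induction m generalizing F F' l with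
  | zero => exact (sub_zero (0 : M)).symm
  | succ m ih =>
    cases l with
    | nil => exact (sub_zero (0 : M)).symm
    | cons x l =>
      rw [et_succ, et_succ, et_succ, th_sub]
      have h : (fun l' => et c o m (fun l'' => F (x :: l'') - F' (x :: l'')) l') =
          fun l' => et c o m (fun l'' => F (x :: l'')) l' -
            et c o m (fun l'' => F' (x :: l'')) l' := by
        funext l'
        exact ih _ _ l'
      rw [h, alt_sub, smul_sub, smul_sub]
      abel

lemma et_alt (m : ℕ) :
    (∀ (F : List G → M) (l : List G), l.length = m + 1 →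
      alt (fun l' => et c o m (alt F) l') l = alt (th c o m F) l - Mf o m • alt F l) ∧
    ∀ (F : List G → M) (l : List G), l.length = m + 1 →
      et c o (m + 1) (alt F) l = th c o (m + 1) F l - Mf o (m + 1) • F l -
        ((m + 1) * o) • alt (fun l' => et c o m F l') l := by
  have key : ∀ m, (∀ (F : List G → M) (l : List G), l.length = m + 1 →
      alt (fun l' => et c o m (alt F) l') l = alt (th c o m F) l - Mf o m • alt F l) →
      ∀ (F : List G → M) (l : List G), l.length = m + 1 →
      et c o (m + 1) (alt F) l = th c o (m + 1) F l - Mf o (m + 1) • F l -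
        ((m + 1) * o) • alt (fun l' => et c o m F l') l := by
    intro m hm F l hl
    cases l with
    | nil => simp at hl
    | cons x l =>
      rw [et_succ]
      have e1 : th c o (m + 1) (fun l' => alt F (x :: l')) (x :: l) =
          th c o (m + 1) F (x :: l) - ((m + 1) * o) •
            alt (th c o m fun l₃ => F (x :: l₃)) (x :: l) := by
        rw [← th_alt]
        exact th_sub c o (m + 1) F (alt fun l₃ => F (x :: l₃)) (x :: l)
      have e2 : alt F (x :: x :: l) = F (x :: l) - alt (fun l' => F (x :: l')) (x :: l) := rfl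
      have e3 : (fun l' => et c o m (fun l'' => alt F (x :: l'')) l') =
          fun l' => et c o m F l' - et c o m (alt fun l₃ => F (x :: l₃)) l' := by
        funext l'
        exact et_sub c o m F (alt fun l₃ => F (x :: l₃)) l'
      rw [e1, e2, e3, alt_sub, hm _ _ hl, Mf_succ, mul_smul]
      simp only [smul_sub, mul_smul]
      abel
  induction m with
  | zero =>
    have h0 : ∀ (F : List G → M) (l : List G), l.length = 0 + 1 →
        alt (fun l' => et c o 0 (alt F) l') l = alt (th c o 0 F) l - Mf o 0 • alt F l := by
      intro F l hl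
      obtain ⟨x, rfl⟩ := List.length_eq_one_iff.1 hl
      have : alt (fun l' => et c o 0 (alt F) l') [x] = (0 : M) := by
        simp [alt_cons, alt_nil, et]
      rw [this]
      simp [alt_cons, alt_nil, th_zero_nil, Mf]
    exact ⟨h0, key 0 h0⟩
  | succ m ih =>
    have h1 : ∀ (F : List G → M) (l : List G), l.length = m + 1 + 1 →
        alt (fun l' => et c o (m + 1) (alt F) l') l =
          alt (th c o (m + 1) F) l - Mf o (m + 1) • alt F l := by
      intro F l hl
      rw [alt_congr (Q := fun _ => True) _ (fun l' => th c o (m + 1) F l' - Mf o (m + 1) • F l' -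
        ((m + 1) * o) • alt (fun l' => et c o m F l') l') l (fun _ _ => trivial)
        (fun l' _ h2 => ih.2 F l' (by omega))]
      rw [alt_sub, alt_sub, alt_nsmul, alt_nsmul]
      have : alt (alt fun l' => et c o m F l') l = 0 := alt_alt _ l
      rw [this, smul_zero, sub_zero]
    exact ⟨h1, key (m + 1) h1⟩

lemma et_zero {Q : G → Prop} (hQ : ∀ y (a : ℕ), Q y → Q (y * c ^ a)) (m : ℕ) (F : List G → M)
    (h : ∀ l, (∀ x ∈ l, Q x) → l.length = m + 1 → F l = 0) (l : List G) (hl : ∀ x ∈ l, Q x)
    (hlen : l.length = m) : et c o m F l = 0 := by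
  induction m generalizing F l with
  | zero => rfl
  | succ m ih =>
    cases l with
    | nil => rfl
    | cons x l =>
      have hx : Q x := hl x (by simp)
      have hF : ∀ l', (∀ y ∈ l', Q y) → l'.length = m + 1 → F (x :: l') = 0 := by
        intro l' h1 h2
        refine h _ ?_ (by simp [h2])
        intro y hy
        rcases List.mem_cons.1 hy with rfl | hy
        · exact hx
        · exact h1 y hy
      rw [et_succ, hF (x :: l) hl hlen]
      have e1 : th c o (m + 1) (fun l' => F (x :: l')) (x :: l) = 0 := by
        rw [th_congr c o hQ (m + 1) (fun l' => F (x :: l')) (fun l' => F (x :: l') - F (x :: l'))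
          (fun l' h1 h2 => by rw [hF l' h1 h2, sub_zero]) _ hl]
        rw [th_sub c o (m + 1) (fun l' => F (x :: l')) (fun l' => F (x :: l')), sub_self]
      have e2 : alt (fun l' => et c o m (fun l'' => F (x :: l'')) l') (x :: l) = 0 := by
        rw [alt_congr (Q := Q) _ (fun _ => 0) _ hl (fun l' h1 h2 => ih _ (fun l'' h3 h4 =>
          hF l'' h3 h4) l' h1 (by rw [hlen] at h2; omega))]
        exact alt_zero _
      rw [e1, e2]
      simp

lemma et_map (g : G) (m : ℕ) (F : List G → M) (l : List G) :
    et c o m F (l.map fun z => g * z) = et c o m (fun l' => F (l'.map fun z => g * z)) l := by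
  induction m generalizing F l with
  | zero => rfl
  | succ m ih =>
    cases l with
    | nil => rfl
    | cons x l =>
      rw [List.map_cons, et_succ, et_succ]
      have e0 : (g * x) :: l.map (fun z => g * z) = (x :: l).map fun z => g * z := rfl
      have e1 : th c o (m + 1) (fun l' => F ((g * x) :: l')) ((g * x) :: l.map fun z => g * z) =
          th c o (m + 1) (fun l' => F ((x :: l').map fun z => g * z)) (x :: l) := by
        rw [e0, th_map]
        rfl
      have e2 : alt (fun l' => et c o m (fun l'' => F ((g * x) :: l'')) l')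
          ((g * x) :: l.map fun z => g * z) =
          alt (fun l' => et c o m (fun l'' => F ((x :: l'').map fun z => g * z)) l') (x :: l) := by
        rw [e0, alt_map]
        congr 1
        funext l'
        rw [ih]
        rfl
      rw [e1, e2]
      rfl

end Theta

/-! ### homogeneous form -/

section Hom

variable {G : Type v} [Group G] {M : Type w} [AddCommGroup M]

/-- The quotients of the consecutive entries. -/
def quo : List G → List G
  | [] => []
  | [_] => []
  | z :: z' :: l => (z⁻¹ * z') :: quo (z' :: l)

/-- The homogeneous form of `x`. -/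
def yy (x : List G → M) : List G → M
  | [] => 0
  | z :: l => x (quo (z :: l))

lemma quo_map (g : G) (l : List G) : quo (l.map fun z => g * z) = quo l := by
  induction l with
  | nil => rfl
  | cons z l ih =>
    cases l with
    | nil => rfl
    | cons z' l =>
      simp only [List.map_cons, quo] at ih ⊢
      rw [ih]
      congr 1
      group

lemma yy_map (x : List G → M) (g : G) (l : List G) : yy x (l.map fun z => g * z) = yy x l := by
  cases l with
  | nil => rfl
  | cons z l =>
    show x (quo ((z :: l).map fun z => g * z)) = x (quo (z :: l))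
    rw [quo_map]

lemma run_cons (a : G) (q : List G) : ∃ t, run a q = a :: t := by
  cases q with
  | nil => exact ⟨[], rfl⟩
  | cons g q => exact ⟨run (a * g) q, rfl⟩

lemma quo_run (a : G) (q : List G) : quo (run a q) = q := by
  induction q generalizing a with
  | nil => rfl
  | cons g q ih =>
    obtain ⟨t, ht⟩ := run_cons (a * g) q
    have := ih (a * g)
    show quo (a :: run (a * g) q) = g :: q
    rw [ht] at this ⊢
    simp only [quo]
    rw [this]
    congr 1
    group

lemma yy_run (x : List G → M) (a : G) (q : List G) : yy x (run a q) = x q := by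
  obtain ⟨t, ht⟩ := run_cons a q
  have := quo_run a q
  rw [ht] at this ⊢
  show x (quo (a :: t)) = x q
  rw [this]

lemma run_quo (z : G) (l : List G) : run z (quo (z :: l)) = z :: l := by
  induction l generalizing z with
  | nil => rfl
  | cons z' l ih =>
    show z :: run (z * (z⁻¹ * z')) (quo (z' :: l)) = _
    rw [mul_inv_cancel_left, ih]

lemma run_map (g a : G) (q : List G) : run (g * a) q = (run a q).map fun z => g * z := by
  induction q generalizing a with
  | nil => rfl
  | cons h q ih =>
    show (g * a) :: run (g * a * h) q = (a :: run (a * h) q).map fun z => g * z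
    rw [List.map_cons, ← ih, mul_assoc]

lemma quo_length (l : List G) : (quo l).length = l.length - 1 := by
  induction l with
  | nil => rfl
  | cons z l ih =>
    cases l with
    | nil => rfl
    | cons z' l =>
      simp only [quo, List.length_cons] at ih ⊢
      rw [ih]
      omega

lemma run_length (a : G) (q : List G) : (run a q).length = q.length + 1 := by
  induction q generalizing a with
  | nil => rfl
  | cons g q ih =>
    show (run (a * g) q).length + 1 = _
    rw [ih]
    simp

/-- `z c z⁻¹ = d`. -/
def Qd (c d z : G) : Prop := z * c * z⁻¹ = d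

lemma quo_Cz (c d : G) (l : List G) (hl : ∀ z ∈ l, Qd c d z) : ∀ g ∈ quo l, Cz c g := by
  induction l with
  | nil => intro g hg; simp [quo] at hg
  | cons z l ih =>
    cases l with
    | nil => intro g hg; simp [quo] at hg
    | cons z' l =>
      intro g hg
      simp only [quo] at hg
      rcases List.mem_cons.1 hg with rfl | hg
      · have h1 : z * c * z⁻¹ = d := hl z (by simp)
        have h2 : z' * c * z'⁻¹ = d := hl z' (by simp)
        show z⁻¹ * z' * c = c * (z⁻¹ * z')
        have h3 : z' * c = d * z' := by rw [← h2]; group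
        have h4 : c * z⁻¹ = z⁻¹ * d := by rw [← h1]; group
        rw [mul_assoc, h3, ← mul_assoc, ← mul_assoc, h4]
      · exact ih (fun w hw => hl w (List.mem_cons_of_mem _ hw)) g hg

lemma run_Qd (c : G) (a : G) (ha : Cz c a) (q : List G) (hq : ∀ g ∈ q, Cz c g) :
    ∀ z ∈ run a q, Qd c c z := by
  have hC : ∀ z : G, Cz c z → Qd c c z := by
    intro z hz
    show z * c * z⁻¹ = c
    rw [show z * c = c * z from hz]
    group
  induction q generalizing a with
  | nil =>
    intro z hz
    rcases List.mem_cons.1 hz with rfl | hz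
    · exact hC _ ha
    · simp at hz
  | cons g q ih =>
    intro z hz
    rcases List.mem_cons.1 hz with rfl | hz
    · exact hC _ ha
    · refine ih (a * g) ?_ (fun w hw => hq w (List.mem_cons_of_mem _ hw)) z hz
      have h1 : g * c = c * g := hq g (by simp)
      have h2 : a * c = c * a := ha
      show a * g * c = c * (a * g)
      rw [mul_assoc, h1, ← mul_assoc, h2, mul_assoc]

lemma alt_yy (hALT : SpecALT.{v, w, x}) (c d : G) (n : ℕ) (x : List G → M)
    (hx : ∀ l : List G, l.length = n + 1 → (∀ g ∈ l, Cz c g) → bdF x l = 0)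
    (l : List G) (hl : ∀ z ∈ l, Qd c d z) (hlen : l.length = n + 2) : alt (yy x) l = 0 := by
  cases l with
  | nil => simp at hlen
  | cons z l =>
    have e1 : z :: l = (run 1 (quo (z :: l))).map fun w => z * w := by
      rw [← run_map, mul_one, run_quo]
    have e2 : (fun l' : List G => yy x (l'.map fun w => z * w)) = yy x := by
      funext l'
      exact yy_map x z l'
    have e3 : (fun l' => yy x (run 1 l')) = x := by
      funext l'
      exact yy_run x 1 l'
    have hq : (quo (z :: l)).length = n + 1 := by
      rw [quo_length, hlen]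
      omega
    rw [e1, alt_map, e2, ← hALT.run G M (yy x) (fun _ => True) trivial (fun _ _ _ _ => trivial)
      (fun g _ l' _ => yy_map x g l') _ (fun _ _ => trivial) (by
        intro h0
        rfl), e3]
    exact hx _ hq (quo_Cz c d _ hl)

lemma sameC_Qd (c : G) (l : List G) (hl : SameC c l) : ∃ d, ∀ z ∈ l, Qd c d z := by
  cases l with
  | nil => exact ⟨c, by simp⟩
  | cons z0 t => exact ⟨z0 * c * z0⁻¹, fun z hz => hl z hz z0 (by simp)⟩

lemma Qd_pow (c d : G) (y : G) (a : ℕ) (hy : Qd c d y) : Qd c d (y * c ^ a) := by
  show y * c ^ a * c * (y * c ^ a)⁻¹ = d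
  rw [← show y * c * y⁻¹ = d from hy, mul_inv_rev, mul_assoc y, ← pow_succ, pow_succ', mul_assoc,
    mul_assoc, mul_assoc, mul_inv_cancel_left]

lemma Qd_comm (c d : G) (k : G) (hk : k * c = c * k) (y : G) (hy : Qd c d y) :
    Qd c d (y * k) := by
  show y * k * c * (y * k)⁻¹ = d
  rw [← show y * c * y⁻¹ = d from hy, mul_inv_rev, mul_assoc y, hk]
  group

/-- `x` vanishes on elements of finite order. -/
lemma fin_zero (p : ℕ) [Fact p.Prime] (c : G) (x : List G → ℤ_[p])
    (hx : ∀ g h : G, Cz c g → Cz c h → x [g * h] = x [g] + x [h]) (k : G) (hk : Cz c k)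
    (hf : IsOfFinOrder k) : x [k] = 0 := by
  have h1c : Cz c (1 : G) := by
    show 1 * c = c * 1
    simp
  have h1 : x [(1 : G)] = 0 := by
    have := hx 1 1 h1c h1c
    rw [mul_one] at this
    exact left_eq_add.1 this
  have hpow : ∀ m : ℕ, x [k ^ m] = (m : ℤ_[p]) * x [k] ∧ Cz c (k ^ m) := by
    intro m
    induction m with
    | zero => exact ⟨by simp [h1], by rw [pow_zero]; exact h1c⟩
    | succ m ih =>
      have h2 : Cz c (k ^ (m + 1)) := (Commute.pow_left (show Commute k c from hk) (m + 1)).eq
      refine ⟨?_, h2⟩
      rw [pow_succ, hx _ _ ih.2 hk, ih.1]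
      push_cast
      ring
  have h3 := (hpow (orderOf k)).1
  rw [pow_orderOf_eq_one, h1] at h3
  have h4 : ((orderOf k : ℕ) : ℤ_[p]) ≠ 0 := by
    exact_mod_cast hf.orderOf_pos.ne'
  exact (mul_eq_zero.1 h3.symm).resolve_left h4

/-- The invariance of `yy x` in degree `1`. -/
lemma yy_rk (p : ℕ) [Fact p.Prime] (c d : G) (x : List G → ℤ_[p])
    (hx : ∀ g h : G, Cz c g → Cz c h → x [g * h] = x [g] + x [h]) (k : G) (hk : Cz c k)
    (hf : IsOfFinOrder k) (l : List G) (z : G) (l' : List G)
    (hl : ∀ w ∈ l ++ z :: l', Qd c d w) (hlen : (l ++ z :: l').length = 1 + 1) :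
    yy x (l ++ (z * k) :: l') = yy x (l ++ z :: l') := by
  have hq := quo_Cz c d _ hl
  rw [List.length_append, List.length_cons] at hlen
  cases l with
  | nil =>
    have h1 : l'.length = 1 := by simpa using hlen
    obtain ⟨w, rfl⟩ := List.length_eq_one_iff.1 h1
    show x [(z * k)⁻¹ * w] = x [z⁻¹ * w]
    have h2 : Cz c (z⁻¹ * w) := hq _ (by simp [quo])
    have h3 : Cz c k⁻¹ := (Commute.inv_left (show Commute k c from hk)).eq
    rw [mul_inv_rev, mul_assoc, hx _ _ h3 h2, fin_zero p c x hx _ h3 hf.inv, zero_add]
  | cons w l =>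
    have h1 : l.length + l'.length = 0 := by
      rw [List.length_cons] at hlen
      omega
    have h2 : l = [] := List.length_eq_zero_iff.1 (by omega)
    have h3 : l' = [] := List.length_eq_zero_iff.1 (by omega)
    subst h2 h3
    show x [w⁻¹ * (z * k)] = x [w⁻¹ * z]
    have h2 : Cz c (w⁻¹ * z) := hq _ (by simp [quo])
    rw [← mul_assoc, hx _ _ h2 hk, fin_zero p c x hx _ hk hf, add_zero]

lemma KG_fin (p : ℕ) (hp : p.Prime) (c : G) (hc : IsOfFinOrder c) (k : G) (hk : k ∈ KG p c) :
    IsOfFinOrder k := by
  obtain ⟨_, j, hj⟩ := hk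
  have h1 : IsOfFinOrder (k ^ (p ^ j)) := hc.of_mem_zpowers hj
  exact (isOfFinOrder_pow.1 h1).resolve_right (pow_pos hp.pos j).ne'

lemma KG_pow (p : ℕ) (hp : p.Prime) (c : G) (hc : IsOfFinOrder c) (hG : ∀ g : G, orderOf g ≠ p)
    (k : G) (hk : k ∈ KG p c) : ∃ j : ℕ, k = c ^ j := by
  have hf := KG_fin p hp c hc k hk
  obtain ⟨_, j, hj⟩ := hk
  have h1 : ¬ p ∣ orderOf k := by
    intro h
    exact hG _ (orderOf_pow_orderOf_div hf.orderOf_pos.ne' h)
  have h2 : (p ^ j).Coprime (orderOf k) :=
    Nat.Coprime.pow_left j ((Nat.Prime.coprime_iff_not_dvd hp).2 h1)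
  obtain ⟨m, hm⟩ := exists_pow_eq_self_of_coprime h2
  have h3 : k ∈ Subgroup.zpowers c := by
    rw [← hm]
    exact Subgroup.pow_mem _ hj m
  obtain ⟨i, hi⟩ := (hc.mem_powers_iff_mem_zpowers).2 h3
  exact ⟨i, hi.symm⟩

end Hom

end CONM

open CONM in
theorem specCON (hALT : SpecALT.{v, 0, x}) : SpecCON.{v} := by
  intro p hpp hp2 G _ n hn c hfin hpo hG x hx
  have hopos : 0 < orderOf c := hfin.orderOf_pos
  have hco : c ^ orderOf c = 1 := pow_orderOf_eq_one c
  have hMpos : 0 < Mf (orderOf c) (n + 1) :=
    Nat.mul_pos (Nat.factorial_pos _) (pow_pos hopos _)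
  refine ⟨th c (orderOf c) (n + 1) (yy x), Mf (orderOf c) (n + 1), hMpos, ?_, ?_⟩
  · constructor
    · intro g l _
      rw [th_map]
      congr 1
      funext l'
      exact yy_map x g l'
    · intro l hlen hl
      obtain ⟨d, hd⟩ := sameC_Qd c l hl
      have h1 := th_alt c (orderOf c) (n + 1) (yy x) l
      have h2 : th c (orderOf c) (n + 1 + 1) (alt (yy x)) l = 0 := by
        rw [th_congr c (orderOf c) (Qd_pow c d) (n + 1 + 1) (alt (yy x))
          (fun l' => alt (yy x) l' - alt (yy x) l')
          (fun l' h3 h4 => by
            rw [alt_yy hALT c d n x hx l' h3 (by omega), sub_zero]) l hd]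
        rw [th_sub c (orderOf c) (n + 1 + 1) (alt (yy x)) (alt (yy x)), sub_self]
      rw [h2] at h1
      have h3 : (n + 1 + 1) * orderOf c ≠ 0 := by positivity
      exact (smul_eq_zero.1 h1.symm).resolve_left h3
    · intro l l' z z' _
      exact th_swap c _ _ _ _ _ _ _
    · intro l l' z k hk hl
      rcases hG with hn1 | hG
      · subst hn1
        obtain ⟨d, hd⟩ := sameC_Qd c _ hl
        have hhom : ∀ g h : G, Cz c g → Cz c h → x [g * h] = x [g] + x [h] := by
          intro g h hg hh
          have := hx [g, h] rfl (by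
            intro w hw
            rcases List.mem_cons.1 hw with rfl | hw
            · exact hg
            · rcases List.mem_cons.1 hw with rfl | hw
              · exact hh
              · simp at hw)
          have e : bdF x [g, h] = x [h] - (x [g * h] - x [g]) := rfl
          rw [e] at this
          linear_combination -this
        exact th_rk c (orderOf c) (Qd_pow c d) k (fun z hz => Qd_comm c d k hk.1 z hz) hk.1 (1 + 1)
          (yy x) (fun a b a' h1 h2 => yy_rk p c d x hhom k hk.1 (KG_fin p hpp.out c hfin k hk)
            a b a' h1 h2) l z l' hd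
      · obtain ⟨j, rfl⟩ := KG_pow p hpp.out c hfin hG k hk
        exact th_rcp c (orderOf c) hco _ _ _ _ _ _
  · intro z hz
    set y := yy x with hy
    set o := orderOf c with ho
    set B : List G → ℤ_[p] := fun l => et c o n y (run 1 l) with hB
    have hgen : ∀ q : List G, q.length = n → (∀ g ∈ q, Cz c g) →
        th c o (n + 1) y (run 1 q) = Mf o (n + 1) • x q + ((n + 1) * o) • bdF B q := by
      intro q hq1 hq2
      have h1c : Cz c (1 : G) := by
        show 1 * c = c * 1
        simp
      have hQ := run_Qd c 1 h1c q hq2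
      have hlen : (run 1 q).length = n + 1 := by rw [run_length, hq1]
      have e1 := (et_alt c o n).2 y (run 1 q) hlen
      have e2 : et c o (n + 1) (alt y) (run 1 q) = 0 :=
        et_zero c o (Qd_pow c c) (n + 1) (alt y)
          (fun l' h3 h4 => alt_yy hALT c c n x hx l' h3 h4) _ hQ hlen
      have e3 : bdF B q = alt (fun l' => et c o n y l') (run 1 q) := by
        refine hALT.run G ℤ_[p] (fun l' => et c o n y l') (fun _ => True) trivial
          (fun _ _ _ _ => trivial) (fun g _ l' _ => ?_) q (fun _ _ => trivial) ?_
        · show et c o n y (l'.map fun z => g * z) = et c o n y l'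
          rw [et_map]
          congr 1
          funext l''
          exact yy_map x g l''
        · intro h0
          rw [h0] at hq1
          simp at hq1
          omega
      have e4 : y (run 1 q) = x q := yy_run x 1 q
      rw [e2, e4, ← e3] at e1
      linear_combination -e1
    have hker : ch n (Cz c) ≤ (Xv (th c o (n + 1) y) - Mf o (n + 1) • FreeAbelianGroup.lift x -
        ((n + 1) * o) • FreeAbelianGroup.lift (bdF B)).ker := by
      refine (AddSubgroup.closure_le _).2 ?_
      rintro _ ⟨q, hq1, hq2, rfl⟩
      show (Xv (th c o (n + 1) y) - Mf o (n + 1) • FreeAbelianGroup.lift x -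
        ((n + 1) * o) • FreeAbelianGroup.lift (bdF B)) (FreeAbelianGroup.of q) = 0
      have := hgen q hq1 hq2
      simp only [AddMonoidHom.sub_apply, AddMonoidHom.smul_apply, Xv,
        FreeAbelianGroup.lift_apply_of]
      rw [this]
      abel
    have h1 := hker hz.1
    rw [AddMonoidHom.mem_ker] at h1
    simp only [AddMonoidHom.sub_apply, AddMonoidHom.smul_apply] at h1
    have h2 : FreeAbelianGroup.lift (bdF B) z = 0 := by
      rw [← hALT.lift]
      have : bd z = 0 := hz.2
      rw [this, map_zero]
    rw [h2, smul_zero, sub_zero] at h1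
    exact sub_eq_zero.1 h1

end Pool.Agent.Lib.MPb6f35e.KA
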