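import Pool.Agent.Lib.MP_b6f35e_al.KA.SpecD

/-! # Rational K-theory in all degrees (MP_b6f35e_al), module CST (helper75) -/

set_option autoImplicit false

noncomputable section

namespace Pool.Agent.Lib.MPb6f35e.KA

open Pool.Agent.Lib.MPb6f35e.WH Pool.Agent.Lib.MPb6f35e.K2

universe u v w x y

namespace CSTM

theorem linS_smul {N : ℕ} [NeZero N] {G : Type u} [Group G] {ι : Type} [Fintype ι]
    [DecidableEq ι] (k : ℕ) (φ : Arr N G ι → ZMod N) (s : SR N G ι) :
    linS (fun a => k • φ a) s = k • linS φ s := by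
  unfold linS
  simp only [AddMonoidHom.finsetSum_apply, AddMonoidHom.comp_apply, Finset.smul_sum]
  refine Finset.sum_congr rfl fun I _ => Finset.sum_congr rfl fun J _ => ?_
  simp only [Finsupp.liftAddHom_apply, Finsupp.smul_sum]
  refine Finsupp.sum_congr fun w _ => ?_
  simp only [AddMonoidHom.coe_mulRight]
  rw [mul_smul_comm]

theorem Xe_smul {N : ℕ} [NeZero N] {G : Type u} [Group G] {ι : Type} [Fintype ι]
    [DecidableEq ι] (k : ℕ) (l : List (SR N G ι)) :
    ∀ X : List (Arr N G ι) → ZMod N, Xe (fun r => k • X r) l = k • Xe X l := by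
  induction l with
  | nil => intro X; rfl
  | cons s l ih =>
    intro X
    show linS (fun a => Xe (fun l' => k • X (a :: l')) l) s =
      k • linS (fun a => Xe (fun l' => X (a :: l')) l) s
    rw [← linS_smul]
    congr 2
    funext a
    exact ih fun l' => X (a :: l')

theorem xs_const {N : ℕ} {G : Type u} [Group G] {ι : Type} {H : Type v} [AddCommGroup H]
    {Θ : Type w} [Fintype Θ] (s : WR N G → WR N G) (g : WR N G) (l : List (Arr N G ι)) :
    ∀ (a : WR N G) (F : List (WR N G) → H), xs s (th1 N G ι Θ) g a F l =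
      (Fintype.card Θ ^ l.length) • xs s (th1 N G ι Unit) g a F l := by
  induction l with
  | nil =>
    intro a F
    show F [] = (Fintype.card Θ ^ 0) • F []
    rw [pow_zero, one_smul]
  | cons r l ih =>
    intro a F
    show (∑ m : Θ, xs s (th1 N G ι Θ) g (a * r.w)
      (fun l' => F (vtx s g (a * r.w) 1 :: l')) l) =
      (Fintype.card Θ ^ (l.length + 1)) • (∑ m : Unit, xs s (th1 N G ι Unit) g (a * r.w)
      (fun l' => F (vtx s g (a * r.w) 1 :: l')) l)
    rw [Finset.sum_const, Finset.card_univ, ih, Finset.sum_const, Finset.card_univ, Fintype.card_unit,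
      one_smul, smul_smul, pow_succ']

theorem XA_const {N : ℕ} {G : Type u} [Group G] {ι : Type} {H : Type v} [AddCommGroup H]
    {Θ : Type w} [Fintype Θ] (n : ℕ) (c : WR N G) (s : WR N G → WR N G)
    (F : List (WR N G) → H) (l : List (Arr N G ι)) : XA n c s (th1 N G ι Θ) F l =
      (Fintype.card Θ ^ (n + 1)) • XA n c s (th1 N G ι Unit) F l := by
  unfold XA
  split_ifs with h
  · rw [xs_const, h.1]
  · rw [smul_zero]

end CSTM

theorem specCST : SpecCST.{u, w} := by
  intro N n _ G _ ι _ _ Θ _ c s F l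
  rw [← CSTM.Xe_smul]
  congr 1
  funext r
  exact CSTM.XA_const n c s F r

end Pool.Agent.Lib.MPb6f35e.KA
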