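import Pool.Agent.Lib.MP_b6f35e_al.KA.SpecG
import Pool.Agent.Lib.MP_b6f35e_al.KA.ALT

/-!
# Module DSF: descent of the relation to finitely generated rings (helper18)
-/

set_option autoImplicit false

noncomputable section

namespace Pool.Agent.Lib.MPb6f35e.KA

open Pool.Agent.Lib.MPb6f35e.WH

universe u v w x y

namespace DSFM

theorem ch_mono {X : Type u} {n : ℕ} {P Q : X → Prop} (h : ∀ x, P x → Q x) :
    ch n P ≤ ch n Q := by
  refine AddSubgroup.closure_mono ?_
  rintro y ⟨l, h1, h2, h3⟩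
  exact ⟨l, h1, fun x hx => h x (h2 x hx), h3⟩

theorem cyc_mono {X : Type u} [Mul X] {n : ℕ} {P Q : X → Prop} (h : ∀ x, P x → Q x) :
    cyc n P ≤ cyc n Q := inf_le_inf_right _ (ch_mono h)

section ev

variable {ι : Type u} {α : Type v}

/-- `Q S` for all large finite sets `S`. -/
def Ev (Q : Finset ι → Prop) : Prop := ∃ S₀ : Finset ι, ∀ S, S₀ ⊆ S → Q S

theorem Ev.mono {Q Q' : Finset ι → Prop} (h : Ev Q) (h' : ∀ S, Q S → Q' S) : Ev Q' := by
  obtain ⟨S₀, h0⟩ := h
  exact ⟨S₀, fun S hS => h' S (h0 S hS)⟩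

theorem Ev.and {Q Q' : Finset ι → Prop} (h : Ev Q) (h' : Ev Q') : Ev fun S => Q S ∧ Q' S := by
  classical
  obtain ⟨S₀, h0⟩ := h
  obtain ⟨S₁, h1⟩ := h'
  exact ⟨S₀ ∪ S₁, fun S hS => ⟨h0 S (Finset.union_subset_left hS),
    h1 S (Finset.union_subset_right hS)⟩⟩

theorem Ev.list {Q : α → Finset ι → Prop} (L : List α) (h : ∀ x ∈ L, Ev (Q x)) :
    Ev fun S => ∀ x ∈ L, Q x S := by
  induction L with
  | nil => exact ⟨∅, fun S _ x hx => absurd hx List.not_mem_nil⟩
  | cons a L ih =>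
    have h1 := (h a List.mem_cons_self).and (ih fun x hx => h x (List.mem_cons_of_mem _ hx))
    refine h1.mono ?_
    rintro S ⟨h2, h3⟩ x hx
    rcases List.mem_cons.1 hx with rfl | hx
    · exact h2
    · exact h3 x hx

end ev

section

variable {A : Type u} [Ring A]

theorem c1_zero (n m : ℕ) : c1 n m (0 : Ch (Gl m A)) = 0 := by
  have h : (0 : Ch (Gl m A)) ∈ cyc n (fun _ => True) := zero_mem _
  have h1 := c1_add h h
  rw [add_zero] at h1
  exact left_eq_add.1 h1

theorem c1_neg {n m : ℕ} {z : Ch (Gl m A)} (h : z ∈ cyc n (fun _ => True)) :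
    c1 n m (-z) = - c1 n m z := by
  have h1 := c1_add h (neg_mem h)
  rw [add_neg_cancel, c1_zero] at h1
  exact (neg_eq_of_add_eq_zero_right h1.symm).symm

end

section

variable {R : Type u} [CommRing R] {G : Type v} [Group G]

theorem neg_sum {n : ℕ} (L : List (GenH n (MonoidAlgebra R G) × Subgroup G)) :
    -(L.map fun t => D1.cls (RelH n (MonoidAlgebra R G)) t.1).sum =
      ((L.map fun t => ((⟨t.1.m, -t.1.z, neg_mem t.1.hz⟩ : GenH n (MonoidAlgebra R G)), t.2)).map
        fun t => D1.cls (RelH n (MonoidAlgebra R G)) t.1).sum := by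
  rw [List.map_map]
  induction L with
  | nil => simp
  | cons s L ih =>
    rw [List.map_cons, List.map_cons, List.sum_cons, List.sum_cons, neg_add, ih]
    congr 1
    have h2 := c1_neg s.1.hz
    rw [c1_of (neg_mem s.1.hz), c1_of s.1.hz] at h2
    exact h2.symm

/-- An element of `FinPart` is a sum of classes of cycles over finite subgroups. -/
theorem finPart_list {n : ℕ} (y : KH n (MonoidAlgebra R G)) (hy : y ∈ FinPart n R G) :
    ∃ L : List (GenH n (MonoidAlgebra R G) × Subgroup G),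
      (∀ t ∈ L, Finite t.2 ∧ t.1.z ∈ cyc n (OvH t.2)) ∧
      y = (L.map fun t => D1.cls (RelH n (MonoidAlgebra R G)) t.1).sum := by
  induction hy using AddSubgroup.closure_induction with
  | mem y hy =>
    obtain ⟨x, ⟨H, hH, hx⟩, rfl⟩ := hy
    refine ⟨[(x, H)], ?_, by simp⟩
    intro t ht
    rw [List.mem_singleton] at ht
    subst ht
    exact ⟨hH, hx⟩
  | zero => exact ⟨[], by simp, by simp⟩
  | add a b _ _ ha hb =>
    obtain ⟨L, h1, rfl⟩ := ha
    obtain ⟨L', h1', rfl⟩ := hb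
    refine ⟨L ++ L', ?_, by simp⟩
    intro t ht
    rcases List.mem_append.1 ht with ht | ht
    · exact h1 t ht
    · exact h1' t ht
  | neg a _ ha =>
    obtain ⟨L, h1, rfl⟩ := ha
    refine ⟨L.map fun t => (⟨t.1.m, -t.1.z, neg_mem t.1.hz⟩, t.2), ?_, ?_⟩
    · intro t ht
      obtain ⟨s, hs, rfl⟩ := List.mem_map.1 ht
      exact ⟨(h1 s hs).1, neg_mem (h1 s hs).2⟩
    · exact neg_sum L

theorem coeff_ne {R₀ : Type w} [CommRing R₀] (f : R₀ →+* R) (hf : Function.Injective f)
    (x : MonoidAlgebra R₀ G) (g : G) (h : x.coeff g ≠ 0) :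
    (MonoidAlgebra.mapRingHom G f x).coeff g ≠ 0 := by
  intro h0
  apply h
  rw [MonoidAlgebra.coeff_mapRingHom] at h0
  exact hf (by rw [h0, map_zero])

theorem val_inj (S : Finset R) :
    Function.Injective (Algebra.adjoin ℤ (S : Set R)).val.toRingHom := Subtype.val_injective

theorem over_of (S : Finset R) (H : Subgroup G) {m : ℕ}
    (a : Gl m (MonoidAlgebra (RS S) G)) (h : OvH H (gm (iS S G) m a)) : OvH H a := by
  refine ⟨fun i j g hg => h.1 i j g ?_, fun i j g hg => h.2 i j g ?_⟩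
  · exact coeff_ne _ (val_inj S) (a.val i j) g hg
  · exact coeff_ne _ (val_inj S) (a.inv i j) g hg

theorem sup_of (S : Finset R) (C : Subgroup G) (x : MonoidAlgebra (RS S) G)
    (h : Sup C (iS S G x)) : Sup C x :=
  fun g hg => h g (coeff_ne _ (val_inj S) x g hg)

/-- The descended cycle over a finite subgroup. -/
theorem lift_cyc (hALT : SpecALT.{max u v, max u v, 0}) (hLFS : SpecLFS.{u, v, 0})
    (hLFS' : SpecLFS.{u, max u v, max u v}) (hLFS'' : SpecLFS.{max u v, max u v, 0})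
    (n m : ℕ) (H : Subgroup G) (z : Ch (Gl m (MonoidAlgebra R G))) (hz : z ∈ cyc n (OvH H)) :
    Ev fun S : Finset R => ∃ z₀ ∈ cyc n (OvH (R := RS S) H), cmap (gm (iS S G) m) z₀ = z := by
  obtain ⟨S₀, h0⟩ := hLFS'.lift R (Gl m (MonoidAlgebra R G))
    (fun S => Gl m (MonoidAlgebra (RS S) G)) (fun S => gm (iS S G) m)
    (fun x => hLFS.gl R G m x) n (OvH H) z hz.1
  refine ⟨S₀, fun S hS => ?_⟩
  obtain ⟨z₀, h1, h2⟩ := h0 S hS
  refine ⟨z₀, ⟨ch_mono (fun y hy => over_of S H y hy) h1, ?_⟩, h2⟩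
  have h3 : bd z₀ = 0 := by
    apply hLFS''.cinj _ _ _ (hLFS.inj R G S m)
    rw [map_zero, ← hALT.nat _ _ (gm (iS S G) m) (map_mul _) z₀, h2]
    exact hz.2
  exact h3

end

section

variable {n : ℕ} {R : Type u} [CommRing R] {G : Type v} [Group G]

/-- The list of generators over `ℤ[S]`. -/
theorem exists_list (S : Finset R) (l : List (GenT n R G))
    (h : ∀ y ∈ l, ∃ u' : (MonoidAlgebra (RS S) G)ˣ, Units.map (iS S G).toMonoidHom u' = y.u) :
    ∃ l' : List (GenT n (RS S) G), List.Forall₂ (fun y' y => y.C = y'.C ∧ y.z = y'.z ∧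
      y.u = Units.map (iS S G).toMonoidHom y'.u) l' l := by
  induction l with
  | nil => exact ⟨[], List.Forall₂.nil⟩
  | cons y l ih =>
    obtain ⟨l', hl'⟩ := ih fun x hx => h x (List.mem_cons_of_mem _ hx)
    obtain ⟨u', hu'⟩ := h y List.mem_cons_self
    have h1 : Sup y.C u'.val := by
      apply sup_of S
      have h2 := y.hu.1
      rw [← hu'] at h2
      exact h2
    have h2 : Sup y.C u'.inv := by
      apply sup_of S
      have h2 := y.hu.2
      rw [← hu'] at h2
      exact h2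
    exact ⟨⟨y.C, y.fin, y.cy, y.z, y.hz, u', h1, h2⟩ :: l',
      List.Forall₂.cons ⟨rfl, rfl, hu'.symm⟩ hl'⟩

theorem LSf_eq (hDSK : SpecDSK.{u, v}) (n : ℕ) (S : Finset R) (m : ℕ)
    (z₀ : Ch (Gl m (MonoidAlgebra (RS S) G))) (h0 : z₀ ∈ cyc n (fun _ => True))
    (z : Ch (Gl m (MonoidAlgebra R G))) (hz : cmap (gm (iS S G) m) z₀ = z)
    (h : z ∈ cyc n (fun _ => True)) : LSf S G n ⟨m, z, h⟩ = c1 n m z₀ := by
  subst hz
  exact hDSK.val R G n S m z₀ h0 h

end

end DSFM

open DSFM in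
/-- **DSF**. -/
theorem specDSF (hKZC : SpecKZC.{u, v}) (hKFU : SpecKFU.{u, u, v}) (hLFS : SpecLFS.{u, v, 0})
    (hLFS' : SpecLFS.{u, max u v, max u v}) (hLFS'' : SpecLFS.{max u v, max u v, 0})
    (hDSK : SpecDSK.{u, v}) (hFTG : SpecFTG.{u, v, u}) : SpecDSF.{u, v} := by
  intro n R _ G _ l k hk
  classical
  obtain ⟨L, hL, hsum⟩ := finPart_list _ hk
  -- the generators
  have hy1 : ∀ y : GenT n R G, kz y.u y.z ∈ cyc (n + 1) (fun _ => True) :=
    fun y => hKZC R G n y.C y.u y.hu.1 y.z y.hz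
  let gy : GenT n R G → GenH (n + 1) (MonoidAlgebra R G) := fun y => ⟨1, kz y.u y.z, hy1 y⟩
  let e : FreeAbelianGroup (GenH (n + 1) (MonoidAlgebra R G)) :=
    k • (l.map fun y => FreeAbelianGroup.of (gy y)).sum -
      (L.map fun t => FreeAbelianGroup.of t.1).sum
  have he : e ∈ AddSubgroup.closure {y | RelH (n + 1) (MonoidAlgebra R G) y} := by
    rw [← QuotientAddGroup.eq_zero_iff]
    have h1 : ∀ (M : List (GenH (n + 1) (MonoidAlgebra R G))),
        (QuotientAddGroup.mk' (AddSubgroup.closure {y | RelH (n + 1) (MonoidAlgebra R G) y}))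
          (M.map FreeAbelianGroup.of).sum =
        (M.map fun x => D1.cls (RelH (n + 1) (MonoidAlgebra R G)) x).sum := by
      intro M
      rw [map_list_sum, List.map_map]
      rfl
    have h2 := h1 (l.map gy)
    have h3 := h1 (L.map Prod.fst)
    rw [List.map_map, List.map_map] at h2 h3
    show (QuotientAddGroup.mk' (AddSubgroup.closure {y | RelH (n + 1) (MonoidAlgebra R G) y})) e
      = 0
    have h4 : (l.map fun y => c1 (n + 1) 1 (kz y.u y.z)) =
        l.map ((fun x => D1.cls (RelH (n + 1) (MonoidAlgebra R G)) x) ∘ gy) := by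
      apply List.map_congr_left
      intro y _
      exact c1_of (hy1 y)
    rw [h4] at hsum
    rw [map_sub, map_nsmul]
    refine sub_eq_zero.2 ?_
    refine (congrArg (fun a => k • a) h2).trans (hsum.trans h3.symm)
  -- the finite set
  have hEv : Ev fun S : Finset R => (FreeAbelianGroup.lift (LSf S G (n + 1)) e = 0 ∧
      ∀ y ∈ l, ∃ u' : (MonoidAlgebra (RS S) G)ˣ, Units.map (iS S G).toMonoidHom u' = y.u) ∧
      ∀ t ∈ L, ∃ z₀ ∈ cyc (n + 1) (OvH (R := RS S) t.2),
        cmap (gm (iS S G) t.1.m) z₀ = t.1.z := by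
    refine ((?_ : Ev _).and (Ev.list l ?_)).and (Ev.list L ?_)
    · exact hDSK.main R G (n + 1) e he
    · intro y _
      exact hLFS.un R G y.u
    · intro t ht
      exact lift_cyc specALT hLFS hLFS' hLFS'' (n + 1) t.1.m t.2 t.1.z (hL t ht).2
  obtain ⟨S, hS⟩ := hEv
  obtain ⟨⟨hS1, hS2⟩, hS3⟩ := hS S (Finset.Subset.refl S)
  clear hS
  obtain ⟨l', hl'⟩ := exists_list S l hS2
  obtain ⟨F, hF1, hF2⟩ := hFTG n (RS S) R (Algebra.adjoin ℤ (S : Set R)).val.toRingHom G
  refine ⟨S, l', (L.map Prod.snd).toFinset, ?_, ?_, ⟨F, ?_, hF2⟩, ?_⟩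
  · intro H hH
    obtain ⟨t, ht, rfl⟩ := List.mem_map.1 (List.mem_toFinset.1 hH)
    exact (hL t ht).1
  · -- the relation over `ℤ[S]`
    have h1 : FreeAbelianGroup.lift (LSf S G (n + 1)) e =
        k • (l.map fun y => LSf S G (n + 1) (gy y)).sum -
          (L.map fun t => LSf S G (n + 1) t.1).sum := by
      have h2 : ∀ (M : List (GenH (n + 1) (MonoidAlgebra R G))),
          FreeAbelianGroup.lift (LSf S G (n + 1)) (M.map FreeAbelianGroup.of).sum =
          (M.map fun x => LSf S G (n + 1) x).sum := by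
        intro M
        rw [map_list_sum, List.map_map]
        congr 1
        apply List.map_congr_left
        intro x _
        exact FreeAbelianGroup.lift_apply_of _ _
      have h3 := h2 (l.map gy)
      have h4 := h2 (L.map Prod.fst)
      rw [List.map_map, List.map_map] at h3 h4
      rw [map_sub, map_nsmul]
      exact congrArg₂ (fun a b => k • a - b) h3 h4
    rw [h1] at hS1
    have h5 : (l.map fun y => LSf S G (n + 1) (gy y)) =
        l'.map fun y => c1 (n + 1) 1 (kz y.u y.z) := by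
      clear hS1 h1 hS2 hk hsum he
      clear e
      induction hl' with
      | nil => rfl
      | cons h _ ih =>
        rename_i y' y l₁ l₂ _
        rw [List.map_cons, List.map_cons, ih]
        congr 1
        apply LSf_eq hDSK
        · exact hKZC (RS S) G n y'.C y'.u y'.hu.1 y'.z y'.hz
        · rw [h.2.1, h.2.2]
          exact hKFU.kzm (RS S) R (Algebra.adjoin ℤ (S : Set R)).val.toRingHom G y'.u y'.z
    rw [h5] at hS1
    rw [sub_eq_zero.1 hS1]
    apply AddSubgroup.list_sum_mem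
    intro a ha
    obtain ⟨t, ht, rfl⟩ := List.mem_map.1 ha
    obtain ⟨z₀, hz₀, hz₁⟩ := hS3 t ht
    have h6 : LSf S G (n + 1) t.1 = c1 (n + 1) t.1.m z₀ :=
      LSf_eq hDSK (n + 1) S t.1.m z₀ (cyc_mono (fun _ _ => trivial) hz₀) t.1.z hz₁ t.1.hz
    rw [h6]
    exact AddSubgroup.subset_closure ⟨t.1.m, z₀, t.2,
      List.mem_toFinset.2 (List.mem_map.2 ⟨t, ht, rfl⟩), hz₀, rfl⟩
  · -- `F`
    clear hS1 hS2 hk hsum he
    clear e
    show F (l'.map (D1.cls (RelT n (RS S) G))).sum = (l.map (D1.cls (RelT n R G))).sum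
    rw [map_list_sum, List.map_map]
    congr 1
    induction hl' with
    | nil => rfl
    | cons h _ ih =>
      rw [List.map_cons, List.map_cons, ih]
      congr 1
      exact hF1 _ _ h.1 h.2.1 h.2.2
  · clear hS1 hS2 hk hsum he
    clear e
    induction hl' with
    | nil => rfl
    | cons h _ ih =>
      rw [List.map_cons, List.map_cons, ih, h.1]

end Pool.Agent.Lib.MPb6f35e.KA
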