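import Pool.Agent.Lib.MP_b6f35e_al.KA.SpecG

/-!
# Rational K-theory in all degrees (MP_b6f35e_al), module DSK: descent of relations

The class over `ℤ[S][G]` of a cycle over `R[G]` is well defined for large finite sets `S`, and a
given element of the subgroup of the relations maps to `0` for all large `S`.
-/

set_option autoImplicit false

noncomputable section

namespace Pool.Agent.Lib.MPb6f35e.KA

universe u v w x y

namespace DSKM

/-! ### cycles -/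

theorem mem_cyc {X : Type u} [Mul X] {n : ℕ} {P : X → Prop} {z : Ch X} (h : z ∈ ch n P)
    (h' : bd z = 0) : z ∈ cyc n P :=
  AddSubgroup.mem_inf.2 ⟨h, AddMonoidHom.mem_ker.2 h'⟩

theorem cyc_ch {X : Type u} [Mul X] {n : ℕ} {P : X → Prop} {z : Ch X} (h : z ∈ cyc n P) :
    z ∈ ch n P := (AddSubgroup.mem_inf.1 h).1

theorem cyc_bd {X : Type u} [Mul X] {n : ℕ} {P : X → Prop} {z : Ch X} (h : z ∈ cyc n P) :
    bd z = 0 := AddMonoidHom.mem_ker.1 (AddSubgroup.mem_inf.1 h).2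

theorem cmap_cmap {X : Type u} {Y : Type v} {Z : Type w} (f : X → Y) (g : Y → Z) (z : Ch X) :
    cmap g (cmap f z) = cmap (fun t => g (f t)) z := by
  unfold cmap
  rw [← FreeAbelianGroup.map_comp_apply]
  congr 2
  funext l
  exact List.map_map

/-- Images of cycles are cycles. -/
theorem cmap_cyc {X Y : Type u} [Mul X] [Mul Y] (hALT : SpecALT.{u, u, w}) (f : X → Y)
    (hf : ∀ a b, f (a * b) = f a * f b) {n : ℕ} {z : Ch X} (hz : z ∈ cyc n (fun _ => True)) :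
    cmap f z ∈ cyc n (fun _ => True) := by
  refine mem_cyc (hALT.cmap X Y n _ _ f (fun _ _ => trivial) z (cyc_ch hz)) ?_
  rw [hALT.nat X Y f hf z, cyc_bd hz, map_zero]

/-- A chain whose image under an injective homomorphism is a cycle is a cycle. -/
theorem cyc_of {X Y : Type u} [Mul X] [Mul Y] (hALT : SpecALT.{u, u, w})
    (hLFS : SpecLFS.{u, u, x}) (f : X → Y) (hf : ∀ a b, f (a * b) = f a * f b)
    (hi : Function.Injective f) {n : ℕ} {z : Ch X} (hz : z ∈ ch n (fun _ => True))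
    (h : cmap f z ∈ cyc n (fun _ => True)) : z ∈ cyc n (fun _ => True) := by
  refine mem_cyc hz (hLFS.cinj X Y f hi ?_)
  rw [← hALT.nat X Y f hf z, cyc_bd h, map_zero]

/-! ### change of rings and block sums -/

theorem gm_dsum {A : Type u} {B : Type v} [Ring A] [Ring B] (f : A →+* B) (a b : ℕ)
    (t : Gl a A × Gl b A) :
    dsum a b (Prod.map (gm f a) (gm f b) t) = gm f (a + b) (dsum a b t) := by
  refine Units.ext ?_
  ext i j
  change D1.block (t.1.val.map f) 0 (t.2.val.map f) i j = f (D1.block t.1.val 0 t.2.val i j)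
  unfold D1.block
  rw [Matrix.submatrix_apply, Matrix.submatrix_apply]
  rcases h₁ : finSumFinEquiv.symm i with i' | i' <;> rcases h₂ : finSumFinEquiv.symm j with j' | j' <;>
    simp

section

variable {R : Type u} [CommRing R] {G : Type v} [Group G] {n : ℕ}

theorem val (hLFS : SpecLFS.{u, v, w}) (hLFS' : SpecLFS.{max u v, max u v, x}) {S : Finset R}
    {m : ℕ} {z : Ch (Gl m (MonoidAlgebra R G))} (h : z ∈ cyc n (fun _ => True))
    {z₀ : Ch (Gl m (MonoidAlgebra (RS S) G))} (hz : z₀ ∈ cyc n (fun _ => True))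
    (h₀ : cmap (gm (iS S G) m) z₀ = z) : LSf S G n ⟨m, z, h⟩ = c1 n m z₀ := by
  have hex : ∃ z₁, z₁ ∈ cyc n (fun _ => True) ∧ cmap (gm (iS S G) m) z₁ = z := ⟨z₀, hz, h₀⟩
  have h1 : LSf S G n ⟨m, z, h⟩ = c1 n m hex.choose := dif_pos hex
  rw [h1, hLFS'.cinj _ _ _ (hLFS.inj R G S m) (hex.choose_spec.2.trans h₀.symm)]

theorem main_add (hALT : SpecALT.{max u v, max u v, y}) (hLFS : SpecLFS.{u, v, w})
    (hLFS' : SpecLFS.{max u v, max u v, x}) (hLFS'' : SpecLFS.{u, max u v, max u v})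
    (m : ℕ) (z z' : Ch (Gl m (MonoidAlgebra R G))) (h : z ∈ cyc n (fun _ => True))
    (h' : z' ∈ cyc n (fun _ => True)) (h'' : z + z' ∈ cyc n (fun _ => True)) :
    ∃ S₀ : Finset R, ∀ S, S₀ ⊆ S →
      LSf S G n ⟨m, z + z', h''⟩ - LSf S G n ⟨m, z, h⟩ - LSf S G n ⟨m, z', h'⟩ = 0 := by
  classical
  obtain ⟨S₁, h₁⟩ := hLFS''.lift R (Gl m (MonoidAlgebra R G))
    (fun S => Gl m (MonoidAlgebra (RS S) G)) (fun S => gm (iS S G) m) (hLFS.gl R G m) n
    (fun _ => True) z (cyc_ch h)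
  obtain ⟨S₂, h₂⟩ := hLFS''.lift R (Gl m (MonoidAlgebra R G))
    (fun S => Gl m (MonoidAlgebra (RS S) G)) (fun S => gm (iS S G) m) (hLFS.gl R G m) n
    (fun _ => True) z' (cyc_ch h')
  refine ⟨S₁ ∪ S₂, fun S hS => ?_⟩
  obtain ⟨z₀, hz₀, e₀⟩ := h₁ S (Finset.union_subset_left hS)
  obtain ⟨z₁, hz₁, e₁⟩ := h₂ S (Finset.union_subset_right hS)
  have hm : ∀ a b : Gl m (MonoidAlgebra (RS S) G),
      gm (iS S G) m (a * b) = gm (iS S G) m a * gm (iS S G) m b := map_mul _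
  have k₀ := cyc_of hALT hLFS' _ hm (hLFS.inj R G S m) hz₀ (e₀ ▸ h)
  have k₁ := cyc_of hALT hLFS' _ hm (hLFS.inj R G S m) hz₁ (e₁ ▸ h')
  rw [val hLFS hLFS' h k₀ e₀, val hLFS hLFS' h' k₁ e₁,
    val hLFS hLFS' h'' (add_mem k₀ k₁) (by rw [map_add, e₀, e₁]), c1_add k₀ k₁]
  abel

theorem main_bdr (hALT : SpecALT.{max u v, max u v, y}) (hLFS : SpecLFS.{u, v, w})
    (hLFS' : SpecLFS.{max u v, max u v, x}) (hLFS'' : SpecLFS.{u, max u v, max u v})
    (m : ℕ) (z : Ch (Gl m (MonoidAlgebra R G))) (hz : z ∈ ch (n + 1) (fun _ => True))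
    (h : bd z ∈ cyc n (fun _ => True)) :
    ∃ S₀ : Finset R, ∀ S, S₀ ⊆ S → LSf S G n ⟨m, bd z, h⟩ = 0 := by
  obtain ⟨S₁, h₁⟩ := hLFS''.lift R (Gl m (MonoidAlgebra R G))
    (fun S => Gl m (MonoidAlgebra (RS S) G)) (fun S => gm (iS S G) m) (hLFS.gl R G m) (n + 1)
    (fun _ => True) z hz
  refine ⟨S₁, fun S hS => ?_⟩
  obtain ⟨z₀, hz₀, e₀⟩ := h₁ S hS
  have hm : ∀ a b : Gl m (MonoidAlgebra (RS S) G),
      gm (iS S G) m (a * b) = gm (iS S G) m a * gm (iS S G) m b := map_mul _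
  have k₀ : bd z₀ ∈ cyc n (fun _ => True) :=
    mem_cyc (hALT.ch _ n _ (fun _ _ _ _ => trivial) z₀ hz₀) (hALT.bdbd _ z₀)
  rw [val hLFS hLFS' h k₀ (by rw [← hALT.nat _ _ _ hm, e₀]), c1_bd hz₀]

theorem main_block (hALT : SpecALT.{max u v, max u v, y}) (hLFS : SpecLFS.{u, v, w})
    (hLFS' : SpecLFS.{max u v, max u v, x}) (hLFS'' : SpecLFS.{u, max u v, max u v})
    (a b : ℕ) (z : Ch (Gl a (MonoidAlgebra R G) × Gl b (MonoidAlgebra R G)))
    (hz : z ∈ cyc n (fun _ => True)) (h : cmap (dsum a b) z ∈ cyc n (fun _ => True))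
    (h' : cmap Prod.fst z ∈ cyc n (fun _ => True))
    (h'' : cmap Prod.snd z ∈ cyc n (fun _ => True)) :
    ∃ S₀ : Finset R, ∀ S, S₀ ⊆ S →
      LSf S G n ⟨a + b, cmap (dsum a b) z, h⟩ - LSf S G n ⟨a, cmap Prod.fst z, h'⟩
        - LSf S G n ⟨b, cmap Prod.snd z, h''⟩ = 0 := by
  classical
  obtain ⟨S₁, h₁⟩ := hLFS''.lift R (Gl a (MonoidAlgebra R G) × Gl b (MonoidAlgebra R G))
    (fun S => Gl a (MonoidAlgebra (RS S) G) × Gl b (MonoidAlgebra (RS S) G))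
    (fun S => Prod.map (gm (iS S G) a) (gm (iS S G) b)) (by
      intro t
      obtain ⟨T₁, k₁⟩ := hLFS.gl R G a t.1
      obtain ⟨T₂, k₂⟩ := hLFS.gl R G b t.2
      refine ⟨T₁ ∪ T₂, fun S hS => ?_⟩
      obtain ⟨y₁, e₁⟩ := k₁ S (Finset.union_subset_left hS)
      obtain ⟨y₂, e₂⟩ := k₂ S (Finset.union_subset_right hS)
      exact ⟨(y₁, y₂), Prod.ext e₁ e₂⟩) n (fun _ => True) z (cyc_ch hz)
  refine ⟨S₁, fun S hS => ?_⟩
  obtain ⟨z₀, hz₀, e₀⟩ := h₁ S hS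
  have hm : ∀ t t' : Gl a (MonoidAlgebra (RS S) G) × Gl b (MonoidAlgebra (RS S) G),
      Prod.map (gm (iS S G) a) (gm (iS S G) b) (t * t') =
        Prod.map (gm (iS S G) a) (gm (iS S G) b) t * Prod.map (gm (iS S G) a) (gm (iS S G) b) t' :=
    fun t t' => Prod.ext (map_mul _ _ _) (map_mul _ _ _)
  have hi : Function.Injective (Prod.map (gm (iS S G) a) (gm (iS S G) b)) :=
    (hLFS.inj R G S a).prodMap (hLFS.inj R G S b)
  have k₀ : z₀ ∈ cyc n (fun _ => True) := cyc_of hALT hLFS' _ hm hi hz₀ (e₀ ▸ hz)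
  have kd : cmap (dsum a b) z₀ ∈ cyc n (fun _ => True) :=
    cmap_cyc hALT _ (fun s t => map_mul _ s t) k₀
  have k₁ : cmap Prod.fst z₀ ∈ cyc n (fun _ => True) := cmap_cyc hALT _ (fun _ _ => rfl) k₀
  have k₂ : cmap Prod.snd z₀ ∈ cyc n (fun _ => True) := cmap_cyc hALT _ (fun _ _ => rfl) k₀
  rw [val hLFS hLFS' h kd (by
      rw [← e₀, cmap_cmap, cmap_cmap]
      congr 2
      funext t
      exact (gm_dsum (iS S G) a b t).symm),
    val hLFS hLFS' h' k₁ (by rw [← e₀, cmap_cmap, cmap_cmap]; rfl),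
    val hLFS hLFS' h'' k₂ (by rw [← e₀, cmap_cmap, cmap_cmap]; rfl), c1_block k₀ kd k₁ k₂]
  abel

theorem main (hALT : SpecALT.{max u v, max u v, y}) (hLFS : SpecLFS.{u, v, w})
    (hLFS' : SpecLFS.{max u v, max u v, x}) (hLFS'' : SpecLFS.{u, max u v, max u v})
    (e : FreeAbelianGroup (GenH n (MonoidAlgebra R G)))
    (he : e ∈ AddSubgroup.closure {y | RelH n (MonoidAlgebra R G) y}) :
    ∃ S₀ : Finset R, ∀ S, S₀ ⊆ S → FreeAbelianGroup.lift (LSf S G n) e = 0 := by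
  classical
  refine AddSubgroup.closure_induction (p := fun e _ =>
    ∃ S₀ : Finset R, ∀ S, S₀ ⊆ S → FreeAbelianGroup.lift (LSf S G n) e = 0) ?_ ?_ ?_ ?_ he
  · intro t ht
    have ht : RelH n (MonoidAlgebra R G) t := ht
    cases ht with
    | add m z z' h h' h'' =>
      obtain ⟨S₀, h₀⟩ := main_add hALT hLFS hLFS' hLFS'' m z z' h h' h''
      exact ⟨S₀, fun S hS => by
        rw [map_sub, map_sub, FreeAbelianGroup.lift_apply_of, FreeAbelianGroup.lift_apply_of,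
          FreeAbelianGroup.lift_apply_of, h₀ S hS]⟩
    | bdr m z hz h =>
      obtain ⟨S₀, h₀⟩ := main_bdr hALT hLFS hLFS' hLFS'' m z hz h
      exact ⟨S₀, fun S hS => by rw [FreeAbelianGroup.lift_apply_of, h₀ S hS]⟩
    | block a b z hz h h' h'' =>
      obtain ⟨S₀, h₀⟩ := main_block hALT hLFS hLFS' hLFS'' a b z hz h h' h''
      exact ⟨S₀, fun S hS => by
        rw [map_sub, map_sub, FreeAbelianGroup.lift_apply_of, FreeAbelianGroup.lift_apply_of,
          FreeAbelianGroup.lift_apply_of, h₀ S hS]⟩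
  · exact ⟨∅, fun S _ => map_zero _⟩
  · rintro s t _ _ ⟨S₁, h₁⟩ ⟨S₂, h₂⟩
    exact ⟨S₁ ∪ S₂, fun S hS => by
      rw [map_add, h₁ S (Finset.union_subset_left hS), h₂ S (Finset.union_subset_right hS),
        add_zero]⟩
  · rintro s _ ⟨S₁, h₁⟩
    exact ⟨S₁, fun S hS => by rw [map_neg, h₁ S hS, neg_zero]⟩

end

end DSKM

/-- DSK: descent of relations. -/
theorem specDSK (hALT : SpecALT.{max u v, max u v, y}) (hLFS : SpecLFS.{u, v, w})
    (hLFS' : SpecLFS.{max u v, max u v, x}) (hLFS'' : SpecLFS.{u, max u v, max u v}) :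
    SpecDSK.{u, v} where
  val _ _ _ _ _ _ _ _ hz h := DSKM.val hLFS hLFS' h hz rfl
  main _ _ _ _ _ e he := DSKM.main hALT hLFS hLFS' hLFS'' e he

end Pool.Agent.Lib.MPb6f35e.KA
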