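import Pool.Agent.Lib.MP_b6f35e_al.D1.Defs

/-!
# Definitions of the hand-in on the rational `K_n(R[G])` in all degrees

* `Ch X`, `bd`: the bar complex of a group `X`; `cyc n P`: the `n`-cycles with entries satisfying `P`;
* `KH n A`: the abelian group generated by the `n`-cycles of the groups `GL_m(A)` modulo boundaries
  and direct sums; its tensor product with the rational numbers is the one of `K_n(A)`;
* `TGrp n R G`: the tensor product of `H_n(Z_G(C))` and `R[C]ˣ` over the finite cyclic subgroups `C`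
  of `G`, by generators and relations;
* `IsKap`: the homomorphism from `TGrp n R G` to `KH (n + 1) (R[G])` by cross products;
* `FinPart n R G`: the subgroup of `KH n (R[G])` generated by the cycles with entries in the matrices
  over `R[H]`, `H` a finite subgroup of `G`;
* `DSub n p R G`: the part of `TGrp n R G` not seen by homomorphisms from the homology groups to the
  integers localised at `p`.
-/

set_option autoImplicit false

noncomputable section

namespace Pool.Agent.Lib.MPb6f35e.KA

universe u v w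

/-! ### the bar complex -/

/-- Bar chains of `X`: the free abelian group on the lists `[x_1, .., x_n]`. -/
abbrev Ch (X : Type u) : Type u := FreeAbelianGroup (List X)

/-- `tl F [x_1, .., x_n] = F[x_1 x_2, x_3, ..] - F[x_1, x_2 x_3, ..] + .. ± F[x_1, .., x_(n-1)]`. -/
def tl {X : Type u} {M : Type v} [Mul X] [AddCommGroup M] : (List X → M) → List X → M
  | _, [] => 0
  | F, [_] => F []
  | F, x :: y :: l => F ((x * y) :: l) - tl (fun l' => F (x :: l')) (y :: l)

/-- `F[x_2, .., x_n] - F[x_1 x_2, x_3, ..] + F[x_1, x_2 x_3, ..] - .. ± F[x_1, .., x_(n-1)]`. -/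
def bdF {X : Type u} {M : Type v} [Mul X] [AddCommGroup M] (F : List X → M) : List X → M
  | [] => 0
  | x :: l => F l - tl F (x :: l)

/-- The boundary of the bar complex. -/
def bd {X : Type u} [Mul X] : Ch X →+ Ch X := FreeAbelianGroup.lift (bdF FreeAbelianGroup.of)

/-- The map of bar chains given by a map of the entries. -/
def cmap {X : Type u} {Y : Type v} (f : X → Y) : Ch X →+ Ch Y := FreeAbelianGroup.map (List.map f)

/-- The bar chains of degree `n` with entries satisfying `P`. -/
def ch {X : Type u} (n : ℕ) (P : X → Prop) : AddSubgroup (Ch X) :=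
  AddSubgroup.closure {y | ∃ l : List X, l.length = n ∧ (∀ x ∈ l, P x) ∧ y = FreeAbelianGroup.of l}

/-- The cycles of degree `n` with entries satisfying `P`. -/
def cyc {X : Type u} [Mul X] (n : ℕ) (P : X → Prop) : AddSubgroup (Ch X) := ch n P ⊓ bd.ker

/-! ### the group `KH n A` -/

/-- `GL_m(A)` -/
abbrev Gl (m : ℕ) (A : Type u) [Ring A] : Type u := (Matrix (Fin m) (Fin m) A)ˣ

lemma block_mul {A : Type u} [Ring A] {m n : ℕ} (a a' : Matrix (Fin m) (Fin m) A)
    (b b' : Matrix (Fin n) (Fin n) A) :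
    D1.block (a * a') 0 (b * b') = D1.block a 0 b * D1.block a' 0 b' := by
  unfold D1.block
  rw [Matrix.submatrix_mul_equiv, Matrix.fromBlocks_multiply]
  simp

lemma block_one {A : Type u} [Ring A] {m n : ℕ} :
    D1.block (1 : Matrix (Fin m) (Fin m) A) 0 (1 : Matrix (Fin n) (Fin n) A) = 1 := by
  unfold D1.block
  rw [Matrix.fromBlocks_one, Matrix.submatrix_one_equiv]

/-- The block diagonal matrix of a pair of invertible matrices. -/
def dsum {A : Type u} [Ring A] (m n : ℕ) : Gl m A × Gl n A →* Gl (m + n) A where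
  toFun x := ⟨D1.block x.1.val 0 x.2.val, D1.block x.1.inv 0 x.2.inv,
    by rw [← block_mul, x.1.val_inv, x.2.val_inv, block_one],
    by rw [← block_mul, x.1.inv_val, x.2.inv_val, block_one]⟩
  map_one' := by ext1; exact block_one
  map_mul' x y := by ext1; exact block_mul _ _ _ _

/-- Generators of `KH n A`: the `n`-cycles of the groups `GL_m(A)`. -/
structure GenH (n : ℕ) (A : Type u) [Ring A] where
  /-- the size of the matrices -/
  m : ℕ
  /-- the cycle -/
  z : Ch (Gl m A)
  hz : z ∈ cyc n (fun _ => True)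

open FreeAbelianGroup in
/-- Relations of `KH n A`: additivity; boundaries are `0`; for an `n`-cycle `w` of
`GL_a(A) × GL_b(A)` the cycle of the block diagonal matrices is the sum of the two components. -/
inductive RelH (n : ℕ) (A : Type u) [Ring A] : FreeAbelianGroup (GenH n A) → Prop
  | add (m : ℕ) (z z' : Ch (Gl m A)) (h : z ∈ cyc n (fun _ => True))
      (h' : z' ∈ cyc n (fun _ => True)) (h'' : z + z' ∈ cyc n (fun _ => True)) :
      RelH n A (of ⟨m, z + z', h''⟩ - of ⟨m, z, h⟩ - of ⟨m, z', h'⟩)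
  | bdr (m : ℕ) (w : Ch (Gl m A)) (_ : w ∈ ch (n + 1) (fun _ => True))
      (h : bd w ∈ cyc n (fun _ => True)) : RelH n A (of ⟨m, bd w, h⟩)
  | block (a b : ℕ) (w : Ch (Gl a A × Gl b A)) (_ : w ∈ cyc n (fun _ => True))
      (h : cmap (dsum a b) w ∈ cyc n (fun _ => True))
      (h' : cmap Prod.fst w ∈ cyc n (fun _ => True))
      (h'' : cmap Prod.snd w ∈ cyc n (fun _ => True)) :
      RelH n A (of ⟨a + b, cmap (dsum a b) w, h⟩ - of ⟨a, cmap Prod.fst w, h'⟩
        - of ⟨b, cmap Prod.snd w, h''⟩)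

/-- The group `KH n A`. -/
abbrev KH (n : ℕ) (A : Type u) [Ring A] : Type u := D1.Grp (RelH n A)

/-! ### the tensor product -/

/-- The elements which commute with the elements of `C`. -/
def Cen {G : Type v} [Group G] (C : Subgroup G) (g : G) : Prop := ∀ h ∈ C, g * h = h * g

/-- `x` in `R[G]` has all coefficients in `C`. -/
def Sup {R : Type u} [CommRing R] {G : Type v} [Group G] (C : Subgroup G)
    (x : MonoidAlgebra R G) : Prop := ∀ g, x.coeff g ≠ 0 → g ∈ C

variable (n : ℕ) (R : Type u) [CommRing R] (G : Type v) [Group G]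

/-- Generators `(C, z, u)`: `C` a finite cyclic subgroup of `G`, `z` an `n`-cycle of the centralizer
of `C`, `u` a unit of `R[C]`, that is, a unit of `R[G]` such that `u` and `u⁻¹` have all coefficients
in `C`. -/
structure GenT where
  /-- the finite cyclic subgroup -/
  C : Subgroup G
  fin : Finite C
  cy : IsCyclic C
  /-- the cycle -/
  z : Ch G
  hz : z ∈ cyc n (Cen C)
  /-- the unit -/
  u : (MonoidAlgebra R G)ˣ
  hu : Sup C u.val ∧ Sup C u.inv

open FreeAbelianGroup in
/-- Relations: `(C, z + z', u) = (C, z, u) + (C, z', u)`; `(C, bd w, u) = 0`;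
`(C, z, u u') = (C, z, u) + (C, z, u')`; `(K, z, g u g⁻¹) = (C, g⁻¹ z g, u)` if `g C g⁻¹ ≤ K` and `z`
is a cycle of the centralizer of `K`. -/
inductive RelT : FreeAbelianGroup (GenT n R G) → Prop
  | add (C : Subgroup G) (hC : Finite C) (cC : IsCyclic C) (z z' : Ch G) (h : z ∈ cyc n (Cen C))
      (h' : z' ∈ cyc n (Cen C)) (h'' : z + z' ∈ cyc n (Cen C)) (u : (MonoidAlgebra R G)ˣ)
      (hu : Sup C u.val ∧ Sup C u.inv) :
      RelT (of ⟨C, hC, cC, z + z', h'', u, hu⟩ - of ⟨C, hC, cC, z, h, u, hu⟩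
        - of ⟨C, hC, cC, z', h', u, hu⟩)
  | bdr (C : Subgroup G) (hC : Finite C) (cC : IsCyclic C) (w : Ch G) (_ : w ∈ ch (n + 1) (Cen C))
      (h : bd w ∈ cyc n (Cen C)) (u : (MonoidAlgebra R G)ˣ) (hu : Sup C u.val ∧ Sup C u.inv) :
      RelT (of ⟨C, hC, cC, bd w, h, u, hu⟩)
  | mul (C : Subgroup G) (hC : Finite C) (cC : IsCyclic C) (z : Ch G) (h : z ∈ cyc n (Cen C))
      (u u' : (MonoidAlgebra R G)ˣ) (hu : Sup C u.val ∧ Sup C u.inv)
      (hu' : Sup C u'.val ∧ Sup C u'.inv) (huu : Sup C (u * u').val ∧ Sup C (u * u').inv) :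
      RelT (of ⟨C, hC, cC, z, h, u * u', huu⟩ - of ⟨C, hC, cC, z, h, u, hu⟩
        - of ⟨C, hC, cC, z, h, u', hu'⟩)
  | conj (C K : Subgroup G) (hC : Finite C) (cC : IsCyclic C) (hK : Finite K) (cK : IsCyclic K)
      (g : G) (_ : ∀ h ∈ C, g * h * g⁻¹ ∈ K) (z : Ch G) (hz : z ∈ cyc n (Cen K))
      (hz' : cmap (fun x => g⁻¹ * x * g) z ∈ cyc n (Cen C)) (u u' : (MonoidAlgebra R G)ˣ)
      (hu : Sup C u.val ∧ Sup C u.inv) (hu' : Sup K u'.val ∧ Sup K u'.inv)
      (_ : MonoidAlgebra.single g 1 * u.val = u'.val * MonoidAlgebra.single g 1) :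
      RelT (of ⟨K, hK, cK, z, hz, u', hu'⟩
        - of ⟨C, hC, cC, cmap (fun x => g⁻¹ * x * g) z, hz', u, hu⟩)

/-- The tensor product of `H_n(Z_G(C))` and `R[C]ˣ` over the finite cyclic subgroups `C` of `G`. -/
abbrev TGrp : Type (max u v) := D1.Grp (RelT n R G)

/-! ### the assembly map -/

/-- The shuffle product of `[u]` and `[g_1, .., g_n]`: the sum of
`± [g_1, .., g_i, u, g_(i+1), .., g_n]`. -/
def ins {X : Type u} {M : Type v} [AddCommGroup M] : (List X → M) → X → List X → M
  | F, u, [] => F [u]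
  | F, u, g :: l => F (u :: g :: l) - ins (fun l' => F (g :: l')) u l

/-- The cross product with `[u]`. -/
def crs {X : Type u} (x : X) : Ch X →+ Ch X := FreeAbelianGroup.lift (ins FreeAbelianGroup.of x)

/-- A unit as an invertible `1 × 1` matrix. -/
def u1 {A : Type u} [Ring A] : Aˣ →* Gl 1 A := Units.map (Matrix.scalar (Fin 1)).toMonoidHom

variable {G} in
/-- Group elements as units of `R[G]`. -/
def gU : G →* (MonoidAlgebra R G)ˣ := (MonoidAlgebra.of R G).toHomUnits

variable {R G} in
/-- The cross product of `[u]` and the cycle `z`, in `GL_1(R[G])`. -/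
def kz (y : (MonoidAlgebra R G)ˣ) (z : Ch G) : Ch (Gl 1 (MonoidAlgebra R G)) :=
  crs (u1 y) (cmap (fun g => u1 (gU R g)) z)

variable {R G} in
/-- `κ` is the homomorphism `(C, z, u) ↦ [u] × z`. -/
def IsKap (κ : TGrp n R G →+ KH (n + 1) (MonoidAlgebra R G)) : Prop :=
  ∀ x : GenT n R G, ∃ h : kz x.u x.z ∈ cyc (n + 1) (fun _ => True),
    κ (D1.cls (RelT n R G) x) = D1.cls (RelH (n + 1) (MonoidAlgebra R G)) ⟨1, kz x.u x.z, h⟩

variable {R G} in
/-- The matrix and its inverse have all coefficients in `H`. -/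
def OvH (H : Subgroup G) {m : ℕ} (a : Gl m (MonoidAlgebra R G)) : Prop :=
  D1.Over H a.val ∧ D1.Over H a.inv

/-- The subgroup generated by the images of the `KH n (R[H])`, `H` a finite subgroup of `G`. -/
def FinPart : AddSubgroup (KH n (MonoidAlgebra R G)) :=
  AddSubgroup.closure {y | ∃ x : GenH n (MonoidAlgebra R G),
    (∃ H : Subgroup G, Finite H ∧ x.z ∈ cyc n (OvH H)) ∧
      y = D1.cls (RelH n (MonoidAlgebra R G)) x}

/-! ### homology of the centralizers -/

variable {G} in
/-- The cycle `z` of the centralizer of `C` is killed by all homomorphisms from the `n`-th homology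
group of this centralizer to the rational numbers with denominator prime to `p`. -/
def Hidden (p : ℕ) (C : Subgroup G) (z : Ch G) : Prop :=
  ∀ χ : Ch G → ℚ, (∀ a ∈ cyc n (Cen C), ∀ b ∈ cyc n (Cen C), χ (a + b) = χ a + χ b) →
    (∀ w ∈ ch (n + 1) (Cen C), χ (bd w) = 0) → (∀ a ∈ cyc n (Cen C), ¬ p ∣ (χ a).den) → χ z = 0

/-- The subgroup of the tensor product generated by the `(C, z, u)` with hidden `z`. -/
def DSub (p : ℕ) : AddSubgroup (TGrp n R G) :=
  AddSubgroup.closure {y | ∃ x : GenT n R G, Hidden n p x.C x.z ∧ y = D1.cls (RelT n R G) x}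

variable {G} in
/-- The class of `z` in the homology of the centralizer of `C` has finite order. -/
def TorC (C : Subgroup G) (z : Ch G) : Prop :=
  ∃ k : ℕ, 0 < k ∧ ∃ w ∈ ch (n + 1) (Cen C), k • z = bd w

/-- For every finite cyclic subgroup `C` and all large primes `p` only the classes of finite order
in the homology of the centralizer of `C` are hidden. -/
def NoHidden : Prop :=
  ∀ C : Subgroup G, Finite C → IsCyclic C → ∃ M : ℕ, ∀ p, M < p → p.Prime →
    ∀ z ∈ cyc n (Cen C), Hidden n p C z → TorC n C z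

/-- The `n`-th homology groups of the centralizers of the finite cyclic subgroups are finitely
generated. -/
def CentFG : Prop :=
  ∀ C : Subgroup G, Finite C → IsCyclic C → ∃ F : Finset (Ch G), ∀ z ∈ cyc n (Cen C),
    ∃ w ∈ ch (n + 1) (Cen C), z - bd w ∈ AddSubgroup.closure (F : Set (Ch G))

/-- There are only finitely many primes `p` such that `G` has an element of order `p`. -/
def FewPrimes : Prop := ∃ M : ℕ, ∀ p, M < p → p.Prime → ∀ g : G, orderOf g ≠ p

end Pool.Agent.Lib.MPb6f35e.KA
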