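import Pool.Agent.Lib.MP_b6f35e_al.KA.SpecE

/-! # Rational K-theory in all degrees (MP_b6f35e_al), module EVA (helper45) -/

set_option autoImplicit false

noncomputable section

namespace Pool.Agent.Lib.MPb6f35e.KA

open Pool.Agent.Lib.MPb6f35e.WH Pool.Agent.Lib.MPb6f35e.K2

universe u v w x y

namespace EVAM

section

variable {B : Type u} {Γ : Type y} [Ring B] [Group Γ] {T D' : Γ →* Bˣ}

lemma nm_fixl (ρ : B →+* B) (N : ℕ) (c z : B) (hc : ρ c = c) :
    nm ρ N (c * z) = c * nm ρ N z := by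
  unfold nm
  rw [Finset.mul_sum]
  refine Finset.sum_congr rfl fun j _ => ?_
  rw [iterate_map_mul, Function.iterate_fixed hc]

lemma nm_fixr (ρ : B →+* B) (N : ℕ) (c z : B) (hc : ρ c = c) :
    nm ρ N (z * c) = nm ρ N z * c := by
  unfold nm
  rw [Finset.sum_mul]
  refine Finset.sum_congr rfl fun j _ => ?_
  rw [iterate_map_mul, Function.iterate_fixed hc]

lemma nm_neg (ρ : B →+* B) (N : ℕ) (z : B) : nm ρ N (-z) = - nm ρ N z := by
  unfold nm
  rw [← Finset.sum_neg_distrib]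
  refine Finset.sum_congr rfl fun j _ => ?_
  rw [iterate_map_neg]

lemma nm_zero (ρ : B →+* B) (N : ℕ) : nm ρ N 0 = 0 := by
  unfold nm
  refine Finset.sum_eq_zero fun j _ => ?_
  rw [iterate_map_zero]

lemma nm_add (ρ : B →+* B) (N : ℕ) (a b : B) : nm ρ N (a + b) = nm ρ N a + nm ρ N b := by
  unfold nm
  rw [← Finset.sum_add_distrib]
  refine Finset.sum_congr rfl fun j _ => ?_
  rw [iterate_map_add]

lemma toE_mul (a b : RT T D') : toE (a * b) = mulE (toE a) (toE b) := by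
  unfold toE mulE
  rw [RT.mul_y, RT.mul_q, map_mul, map_mul]

lemma inv_y (a : RT T D') : (a⁻¹).y = (a.y)⁻¹ := rfl

lemma inv_q (a : RT T D') :
    (a⁻¹).q = - ((((T a.y)⁻¹ : Bˣ) : B) * a.q * (((D' a.y)⁻¹ : Bˣ) : B)) := rfl

lemma one_y : (1 : RT T D').y = 1 := rfl

lemma one_q : (1 : RT T D').q = 0 := rfl

lemma toE_inv (a : RT T D') : toE a⁻¹ = invE (toE a) := by
  unfold toE invE
  rw [inv_y, inv_q, map_inv, map_inv]

lemma IQ_mul {N : ℕ} {ρ : B →+* B} (h : IsDD N ρ T D') {a b : RT T D'} (ha : IQ N ρ a)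
    (hb : IQ N ρ b) : IQ N ρ (a * b) := by
  unfold IQ at *
  rw [RT.mul_q, RT.mul_y, nm_add, nm_fixl _ _ _ _ (h.rT _), nm_fixr _ _ _ _ (h.rD _), ha, hb,
    map_mul, map_mul, Units.val_mul, Units.val_mul]
  noncomm_ring

lemma fix_inv {ρ : B →+* B} {t : Bˣ} (h : ρ t = t) : ρ ((t⁻¹ : Bˣ) : B) = ((t⁻¹ : Bˣ) : B) := by
  have h1 : (Units.map (ρ : B →* B)) t = t := Units.ext h
  have h2 : (Units.map (ρ : B →* B)) t⁻¹ = t⁻¹ := by rw [map_inv, h1]
  exact congrArg Units.val h2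

lemma IQ_inv {N : ℕ} {ρ : B →+* B} (h : IsDD N ρ T D') {a : RT T D'} (ha : IQ N ρ a) :
    IQ N ρ a⁻¹ := by
  unfold IQ at *
  rw [inv_q, inv_y, nm_neg, nm_fixr _ _ _ _ (fix_inv (h.rD _)),
    nm_fixl _ _ _ _ (fix_inv (h.rT _)), ha, map_inv, map_inv, mul_sub, sub_mul, mul_assoc,
    Units.mul_inv, mul_one, Units.inv_mul, one_mul, neg_sub]

lemma IQ_zero {N : ℕ} {ρ : B →+* B} (g : Γ) (h : T g = D' g) :
    IQ N ρ (⟨g, 0⟩ : RT T D') := by
  show nm ρ N 0 = ((D' g : Bˣ) : B) - ((T g : Bˣ) : B)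
  rw [nm_zero, h, sub_self]

lemma IQ_one {N : ℕ} {ρ : B →+* B} : IQ N ρ (1 : RT T D') :=
  IQ_zero 1 (by rw [map_one, map_one])

lemma z_mul (g h : Γ) : (⟨g, 0⟩ * ⟨h, 0⟩ : RT T D') = ⟨g * h, 0⟩ := by
  apply RT.ext'
  · rfl
  · show (T g : B) * 0 + 0 * (D' h : B) = 0
    rw [mul_zero, zero_mul, add_zero]

lemma z_prod (l : List Γ) :
    (l.map fun g => (⟨g, 0⟩ : RT T D')).prod = ⟨l.prod, 0⟩ := by
  induction l with
  | nil => rfl
  | cons g l ih => rw [List.map_cons, List.prod_cons, ih, z_mul, List.prod_cons]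

lemma z_inv (g : Γ) : (⟨g, 0⟩ : RT T D')⁻¹ = ⟨g⁻¹, 0⟩ := by
  apply RT.ext'
  · rfl
  · show - ((((T g)⁻¹ : Bˣ) : B) * 0 * (((D' g)⁻¹ : Bˣ) : B)) = 0
    rw [mul_zero, zero_mul, neg_zero]

lemma run_head (b : RT T D') (l : List (RT T D')) : ∃ l', run b l = b :: l' := by
  cases l with
  | nil => exact ⟨[], rfl⟩
  | cons c l => exact ⟨run (b * c) l, rfl⟩

variable {S : Type v} {Ω : Type w} {H : Type x} [Ring S] [Ring Ω] [AddCommGroup H]

/-- The element `lam (sv (toE b))`. -/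
def ub (D : DGD B S Ω H) (b : RT T D') : Ω := D.lam (D.sv (toE b))

lemma sv_z (D : DGD B S Ω H) (g : Γ) : D.sv (toE (⟨g, 0⟩ : RT T D')) = D.i (T g) := by
  show D.i (T g) + D.i 0 * D.e = D.i (T g)
  rw [map_zero, zero_mul, add_zero]

lemma ub_one (D : DGD B S Ω H) : ub D (1 : RT T D') = 1 := by
  unfold ub
  rw [show (1 : RT T D') = ⟨1, 0⟩ from rfl, sv_z, map_one, Units.val_one, map_one, map_one]

lemma fx (D : DGD B S Ω H) (h : IsDD D.N D.ρ T D') (b : RT T D') : D.Fx (toE b) :=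
  ⟨h.rT _, h.rD _⟩

lemma ub_mul (hBET : SpecBET.{u, v, w, x}) (D : DGD B S Ω H) (hD : D.Ok)
    (h : IsDD D.N D.ρ T D') (b c : RT T D') (hc : IQ D.N D.ρ c) :
    ub D (b * c) = ub D b * ub D c := by
  unfold ub
  rw [toE_mul, hBET.sv B S Ω H D hD (toE b) (toE c) (fx D h b) ⟨fx D h c, hc⟩, map_mul]

lemma ub_inv_mul (hBET : SpecBET.{u, v, w, x}) (D : DGD B S Ω H) (hD : D.Ok)
    (h : IsDD D.N D.ρ T D') (b : RT T D') (hb : IQ D.N D.ρ b) :
    ub D b⁻¹ * ub D b = 1 := by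
  rw [← ub_mul hBET D hD h _ _ hb, inv_mul_cancel, ub_one]

lemma ub_mul_inv (hBET : SpecBET.{u, v, w, x}) (D : DGD B S Ω H) (hD : D.Ok)
    (h : IsDD D.N D.ρ T D') (b : RT T D') (hb : IQ D.N D.ρ b) :
    ub D b * ub D b⁻¹ = 1 := by
  rw [← ub_mul hBET D hD h _ _ (IQ_inv h hb), mul_inv_cancel, ub_one]

lemma om_eq (D : DGD B S Ω H) (b : RT T D') : D.om (toE b) = D.d (ub D b) * ub D b⁻¹ := by
  unfold DGD.om ub
  rw [toE_inv]

lemma om_mul (hBET : SpecBET.{u, v, w, x}) (D : DGD B S Ω H) (hD : D.Ok)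
    (h : IsDD D.N D.ρ T D') (b c : RT T D') (hb : IQ D.N D.ρ b) (hc : IQ D.N D.ρ c) :
    D.om (toE (b * c)) - D.om (toE b) = ub D b * D.d (ub D c) * ub D c⁻¹ * ub D b⁻¹ := by
  have e : D.ep (ub D b) = ub D b := hD.ep_lam _
  rw [om_eq, om_eq, ub_mul hBET D hD h b c hc, mul_inv_rev,
    ub_mul hBET D hD h _ _ (IQ_inv h hb), hD.d_mul, e, add_mul,
    mul_assoc (D.d (ub D b)), ← mul_assoc (ub D c), ub_mul_inv hBET D hD h c hc, one_mul,
    add_sub_cancel_left, ← mul_assoc]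

lemma pw_run (hBET : SpecBET.{u, v, w, x}) (D : DGD B S Ω H) (hD : D.Ok)
    (h : IsDD D.N D.ρ T D') (l : List (RT T D')) : ∀ (b : RT T D') (_ : IQ D.N D.ρ b)
    (_ : ∀ c ∈ l, IQ D.N D.ρ c),
    pw D.om ((run b l).map toE) =
      ub D b * (l.map fun c => D.d (ub D c)).prod * ub D (b * l.prod)⁻¹ := by
  induction l with
  | nil =>
    intro b hb _
    show (1 : Ω) = ub D b * 1 * ub D (b * 1)⁻¹
    rw [mul_one, mul_one, ub_mul_inv hBET D hD h b hb]
  | cons c l ih =>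
    intro b hb hl
    have hc : IQ D.N D.ρ c := hl c List.mem_cons_self
    have hl' : ∀ c ∈ l, IQ D.N D.ρ c := fun c' h' => hl c' (List.mem_cons_of_mem _ h')
    have hbc : IQ D.N D.ρ (b * c) := IQ_mul h hb hc
    obtain ⟨l', e'⟩ := run_head (b * c) l
    have e1 : pw D.om ((run b (c :: l)).map toE) =
        (D.om (toE (b * c)) - D.om (toE b)) * pw D.om ((run (b * c) l).map toE) := by
      show pw D.om (toE b :: (run (b * c) l).map toE) = _
      rw [e', List.map_cons]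
      rfl
    rw [e1, ih (b * c) hbc hl', om_mul hBET D hD h b c hb hc, List.map_cons, List.prod_cons,
      List.prod_cons, ← mul_assoc b c, ub_mul hBET D hD h b c hc]
    have e2 : ub D c⁻¹ * (ub D b⁻¹ * (ub D b * ub D c)) = 1 := by
      rw [← mul_assoc (ub D b⁻¹), ub_inv_mul hBET D hD h b hb, one_mul,
        ub_inv_mul hBET D hD h c hc]
    calc ub D b * D.d (ub D c) * ub D c⁻¹ * ub D b⁻¹ *
          (ub D b * ub D c * (l.map fun c => D.d (ub D c)).prod * ub D (b * c * l.prod)⁻¹)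
        = ub D b * D.d (ub D c) * (ub D c⁻¹ * (ub D b⁻¹ * (ub D b * ub D c))) *
          (l.map fun c => D.d (ub D c)).prod * ub D (b * c * l.prod)⁻¹ := by
          simp only [mul_assoc]
      _ = _ := by rw [e2, mul_one]; simp only [mul_assoc]

lemma al_z (D : DGD B S Ω H) (hD : D.Ok) (g : Γ) :
    D.al (toE (⟨g, 0⟩ : RT T D')) = 0 := by
  unfold DGD.al
  rw [sv_z, hD.dl_i, zero_mul, map_zero]

lemma be_run (D : DGD B S Ω H) (a : RT T D') (l : List (RT T D')) :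
    inh D.be (a :: l) = D.I ((D.al (toE a) - D.al (toE (1 : RT T D'))) *
      pw D.om ((run a l).map toE)) := by
  obtain ⟨l', e'⟩ := run_head a l
  show D.be (toE (1 : RT T D') :: (run (1 * a) l).map toE) = _
  rw [one_mul, e', List.map_cons]
  rfl

end

end EVAM

theorem specEVA (_ : SpecALT.{u, v, w}) (_ : SpecPW.{u, v, w}) (hBET : SpecBET.{u, v, w, x}) :
    SpecEVA.{u, v, w, x, y} where
  first := by
    intro B S Ω H Γ _ _ _ _ _ D hD T D' h g hg l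
    rw [EVAM.be_run, EVAM.al_z D hD g, show (1 : RT T D') = ⟨1, 0⟩ from rfl, EVAM.al_z D hD 1,
      sub_zero, zero_mul, map_zero]
  main := by
    intro B S Ω H Γ _ _ _ _ _ D hD X hX T D' h a ha l hl
    have hm : ∀ c ∈ l.map (fun g => (⟨g, 0⟩ : RT T D')), IQ D.N D.ρ c := by
      intro c hc
      obtain ⟨g, hg, rfl⟩ := List.mem_map.mp hc
      exact EVAM.IQ_zero g (hl g hg).1
    have hp : T l.prod = D' l.prod := by
      have : ∀ l : List Γ, (∀ g ∈ l, T g = D' g) → T l.prod = D' l.prod := by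
        intro l
        induction l with
        | nil => intro _; rw [List.prod_nil, map_one, map_one]
        | cons g l ih =>
          intro h
          rw [List.prod_cons, map_mul, map_mul, h g List.mem_cons_self,
            ih fun g' h' => h g' (List.mem_cons_of_mem _ h')]
      exact this l fun g hg => (hl g hg).1
    rw [EVAM.be_run, EVAM.pw_run hBET D hD h _ a ha hm, show (1 : RT T D') = ⟨1, 0⟩ from rfl,
      EVAM.al_z D hD 1, sub_zero, EVAM.z_prod, mul_inv_rev,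
      EVAM.ub_mul hBET D hD h _ _ (EVAM.IQ_inv h ha)]
    have e1 : D.al (toE a) = D.lam (D.dl (D.sv (toE a))) * EVAM.ub D a⁻¹ := by
      unfold DGD.al EVAM.ub
      rw [EVAM.toE_inv, map_mul]
    have e2 : D.al (toE a) * (EVAM.ub D a *
        (List.map (fun c => D.d (EVAM.ub D c)) (l.map fun g => (⟨g, 0⟩ : RT T D'))).prod *
        (EVAM.ub D (⟨l.prod, 0⟩ : RT T D')⁻¹ * EVAM.ub D a⁻¹)) =
        (D.lam (D.dl (D.sv (toE a))) *
        (List.map (fun c => D.d (EVAM.ub D c)) (l.map fun g => (⟨g, 0⟩ : RT T D'))).prod) *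
        (EVAM.ub D (⟨l.prod, 0⟩ : RT T D')⁻¹ * EVAM.ub D a⁻¹) := by
      rw [e1, mul_assoc (EVAM.ub D a), mul_assoc (D.lam (D.dl (D.sv (toE a)))),
        ← mul_assoc (EVAM.ub D a⁻¹), EVAM.ub_inv_mul hBET D hD h a ha, one_mul, ← mul_assoc]
    have e3 : D.ep (EVAM.ub D (⟨l.prod, 0⟩ : RT T D')⁻¹ * EVAM.ub D a⁻¹) =
        EVAM.ub D (⟨l.prod, 0⟩ : RT T D')⁻¹ * EVAM.ub D a⁻¹ := by
      rw [map_mul]
      unfold EVAM.ub
      rw [hD.ep_lam, hD.ep_lam]
    rw [e2, ← hD.even _ e3]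
    have e4 : EVAM.ub D (⟨l.prod, 0⟩ : RT T D')⁻¹ = D.lam (D.i (((T l.prod)⁻¹ : Bˣ) : B)) := by
      rw [EVAM.z_inv]
      unfold EVAM.ub
      rw [EVAM.sv_z, map_inv]
    have e5 : EVAM.ub D a⁻¹ = D.lam (D.sv (invE (toE a))) := by
      unfold EVAM.ub
      rw [EVAM.toE_inv]
    have e6 : List.map (fun c => D.d (EVAM.ub D c)) (l.map fun g => (⟨g, 0⟩ : RT T D')) =
        (l.map fun g => D.i (T g)).map fun s => D.d (D.lam s) := by
      rw [List.map_map, List.map_map]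
      refine List.map_congr_left fun g _ => ?_
      show D.d (D.lam (D.sv (toE (⟨g, 0⟩ : RT T D')))) = D.d (D.lam (D.i (T g)))
      rw [EVAM.sv_z]
    rw [e4, e5, e6, ← hX.val, map_mul D.lam, map_mul D.lam]
    simp only [mul_assoc]

end Pool.Agent.Lib.MPb6f35e.KA
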