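import Pool.Agent.Lib.MP_b6f35e_al.KA.SpecF
import Pool.Agent.Lib.MP_b6f35e_al.K2.VLA
import Pool.Agent.Lib.MP_b6f35e_al.K2.VLC

/-!
# KA, module EVX: the value of the cochain on `[γ⁻¹ i(FT b) τ^j, g_1, .., g_n]`
-/

set_option autoImplicit false

noncomputable section

namespace Pool.Agent.Lib.MPb6f35e.KA

open Pool.Agent.Lib.MPb6f35e.WH
open Pool.Agent.Lib.MPb6f35e.K2 (SR TT DD iB tauS dS eS w0 inW tW WR dg sec IsRed SpecLGG Supp jW)
open Pool.Agent.Lib.MPb6f35e.K2.VLAaux (conj_of conj_imp)

universe u v w x y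

namespace EVXM

/-! ### lists -/

lemma run_mul {X : Type*} [Group X] (a x : X) (l : List X) :
    run (a * x) l = (run x l).map fun y => a * y := by
  induction l generalizing x with
  | nil => rfl
  | cons g l ih =>
    show a * x :: run (a * x * g) l = a * x :: (run (x * g) l).map fun y => a * y
    rw [mul_assoc, ih]

lemma run_map {X Y : Type*} [Group X] [Group Y] (f : X →* Y) (x : X) (l : List X) :
    run (f x) (l.map f) = (run x l).map f := by
  induction l generalizing x with
  | nil => rfl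
  | cons g l ih =>
    show f x :: run (f x * f g) (l.map f) = f x :: (run (x * g) l).map f
    rw [← map_mul, ih]

lemma run_cons {X : Type*} [Group X] (x : X) (l : List X) : ∃ l', run x l = x :: l' := by
  cases l with
  | nil => exact ⟨[], rfl⟩
  | cons g l => exact ⟨run (x * g) l, rfl⟩

lemma run_prop {X : Type*} [Group X] (P : X → Prop) (hm : ∀ a b, P a → P b → P (a * b)) (x : X)
    (hx : P x) (l : List X) (hl : ∀ g ∈ l, P g) : ∀ y ∈ run x l, P y := by
  induction l generalizing x with
  | nil =>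
    intro y hy
    rw [show run x [] = [x] from rfl, List.mem_singleton] at hy
    rw [hy]
    exact hx
  | cons g l ih =>
    intro y hy
    rw [show run x (g :: l) = x :: run (x * g) l from rfl, List.mem_cons] at hy
    rcases hy with rfl | hy
    · exact hx
    · exact ih (x * g) (hm _ _ hx (hl g (by simp))) (fun g' hg' => hl g' (by simp [hg'])) y hy

lemma alt_map {X M M' : Type*} [AddCommGroup M] [AddCommGroup M'] (f : M →+ M') (F : List X → M)
    (l : List X) : alt (fun l => f (F l)) l = f (alt F l) := by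
  induction l generalizing F with
  | nil => exact (map_zero f).symm
  | cons x l ih =>
    show f (F l) - alt (fun l' => f (F (x :: l'))) l = f (F l - alt (fun l' => F (x :: l')) l)
    rw [ih, map_sub]

lemma lift_congr {X M : Type*} [AddCommGroup M] {n : ℕ} {P : X → Prop} {f g : List X → M}
    (h : ∀ l : List X, l.length = n → (∀ x ∈ l, P x) → f l = g l) {z : Ch X} (hz : z ∈ ch n P) :
    FreeAbelianGroup.lift f z = FreeAbelianGroup.lift g z := by
  unfold ch at hz
  induction hz using AddSubgroup.closure_induction with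
  | mem y hy =>
    obtain ⟨l, h1, h2, rfl⟩ := hy
    rw [FreeAbelianGroup.lift_apply_of, FreeAbelianGroup.lift_apply_of, h l h1 h2]
  | zero => rw [map_zero, map_zero]
  | add a b _ _ ha hb => rw [map_add, map_add, ha, hb]
  | neg a _ ha => rw [map_neg, map_neg, ha]

/-! ### the group cochain -/

lemma isF_map {W H H' : Type*} [Group W] [AddCommGroup H] [AddCommGroup H'] {n : ℕ} {c : W}
    {K : Set W} {F : List W → H} (hF : IsF n c K F) (f : H →+ H') :
    IsF n c K (fun l => f (F l)) where
  inv g l h := by rw [hF.inv g l h]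
  cls l h1 h2 := by rw [alt_map, hF.cls l h1 h2, map_zero]
  aa l l' z z' h := by rw [hF.aa l l' z z' h, map_neg]
  rc l l' z k hk h := by rw [hF.rc l l' z k hk h]

lemma rcs {W H : Type*} [Group W] [AddCommGroup H] {n : ℕ} {c : W}
    {K : Set W} {F : List W → H} (hF : IsF n c K F) {k : W} (hk : k ∈ K) (hkc : k * c = c * k)
    (g : W) (L' : List W) (L : List W) (h : ∀ z ∈ L ++ L', z * c * z⁻¹ = g) :
    F (L ++ L'.map fun z => z * k) = F (L ++ L') := by
  induction L' generalizing L with
  | nil => rfl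
  | cons z L' ih =>
    have hzk : z * k * c * (z * k)⁻¹ = z * c * z⁻¹ := by
      rw [mul_assoc z k c, hkc]
      group
    have h1 := ih (L ++ [z * k]) (by
      intro y hy
      rw [List.append_assoc, List.mem_append] at hy
      rcases hy with hy | hy
      · exact h y (by simp [hy])
      · rw [List.singleton_append, List.mem_cons] at hy
        rcases hy with rfl | hy
        · rw [hzk]; exact h z (by simp)
        · exact h y (by simp [hy]))
    rw [List.append_assoc, List.append_assoc, List.singleton_append, List.singleton_append] at h1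
    rw [List.map_cons, h1]
    exact hF.rc L L' z k hk fun y hy y' hy' => (h y hy).trans (h y' hy').symm

/-! ### one word -/

section Word

variable {N : ℕ}

/-- The only index. -/
abbrev uu (N : ℕ) : ZMod N → Fin 1 := fun _ => 0

lemma eq_uu (I : ZMod N → Fin 1) : I = uu N := Subsingleton.elim _ _

variable [NeZero N]

lemma mul_uu {A : Type*} [NonUnitalNonAssocSemiring A]
    (a b : Matrix (ZMod N → Fin 1) (ZMod N → Fin 1) A) :
    (a * b) (uu N) (uu N) = a (uu N) (uu N) * b (uu N) (uu N) := by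
  rw [Matrix.mul_apply]
  exact Fintype.sum_eq_single (uu N) fun I hI => absurd (eq_uu I) hI

lemma one_uu {A : Type*} [Semiring A] :
    (1 : Matrix (ZMod N → Fin 1) (ZMod N → Fin 1) A) (uu N) (uu N) = 1 := by
  rw [Matrix.one_apply_eq]

lemma pow_uu {A : Type*} [Semiring A]
    (a : Matrix (ZMod N → Fin 1) (ZMod N → Fin 1) A) (j : ℕ) :
    (a ^ j) (uu N) (uu N) = (a (uu N) (uu N)) ^ j := by
  induction j with
  | zero => rw [pow_zero, pow_zero, one_uu]
  | succ j ih => rw [pow_succ, pow_succ, mul_uu, ih]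

variable {G : Type v} [Group G]

lemma tau_uu :
    (tauS N G (Fin 1) : SR N G (Fin 1)) (uu N) (uu N) = MonoidAlgebra.single (tW N G) 1 := by
  show (if (uu N : ZMod N → Fin 1) = sh (uu N) then
    (MonoidAlgebra.single (tW N G) 1 : MonoidAlgebra (ZMod N) (WR N G)) else 0) = _
  rw [if_pos (Subsingleton.elim _ _)]

/-- The value of `linS` depends on the only entry. -/
def ev (φ : Arr N G (Fin 1) → ZMod N) : MonoidAlgebra (ZMod N) (WR N G) →+ ZMod N :=
  (Finsupp.liftAddHom fun w : WR N G => AddMonoidHom.mulRight (φ ⟨uu N, w, uu N⟩)).comp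
      MonoidAlgebra.coeffAddEquiv.toAddMonoidHom

lemma ev_single (φ : Arr N G (Fin 1) → ZMod N) (w : WR N G) (a : ZMod N) :
    ev φ (MonoidAlgebra.single w a) = a * φ ⟨uu N, w, uu N⟩ := by
  unfold ev
  rw [AddMonoidHom.comp_apply]
  show (Finsupp.liftAddHom fun w : WR N G => AddMonoidHom.mulRight (φ ⟨uu N, w, uu N⟩))
    (MonoidAlgebra.single w a).coeff = _
  rw [MonoidAlgebra.coeff_single, Finsupp.liftAddHom_apply_single]
  rfl

lemma linS_uu (φ : Arr N G (Fin 1) → ZMod N) (s : SR N G (Fin 1)) :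
    linS φ s = ev φ (s (uu N) (uu N)) := by
  unfold linS
  rw [AddMonoidHom.finsetSum_apply, Fintype.sum_eq_single (uu N) fun I hI => absurd (eq_uu I) hI,
    AddMonoidHom.finsetSum_apply, Fintype.sum_eq_single (uu N) fun I hI => absurd (eq_uu I) hI]
  rfl

/-- The arrow of a constant tuple. -/
def arc (N : ℕ) (g : G) : Arr N G (Fin 1) := ⟨uu N, inW N G fun _ => g, uu N⟩

lemma Xe_zS (X : List (Arr N G (Fin 1)) → ZMod N) (l : List G) :
    Xe X (l.map fun g => zS N g) = X (l.map (arc N)) := by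
  induction l generalizing X with
  | nil => rfl
  | cons g l ih =>
    show linS (fun a => Xe (fun l' => X (a :: l')) (l.map fun g => zS N g)) (zS N g) = _
    rw [linS_uu]
    show ev _ (MonoidAlgebra.single (inW N G fun _ => g) 1) = _
    rw [ev_single, one_mul]
    show Xe (fun l' => X (arc N g :: l')) (l.map fun g => zS N g) = _
    rw [ih]
    rfl

/-- The constant tuples. -/
def hat (N : ℕ) (G : Type v) [Group G] : G →* WR N G where
  toFun g := inW N G fun _ => g
  map_one' := map_one (inW N G)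
  map_mul' a b := map_mul (inW N G) (fun _ => a) (fun _ => b)

omit [NeZero N] in
lemma clo_arc (w : WR N G) (l : List G) : Clo (⟨uu N, w, uu N⟩ :: l.map (arc N)) := by
  have h1 : ∀ (l : List (Arr N G (Fin 1))), Cmp l := by
    intro l
    induction l with
    | nil => trivial
    | cons a l ih =>
      cases l with
      | nil => trivial
      | cons b l => exact ⟨Subsingleton.elim _ _, ih⟩
  exact ⟨h1 _, Subsingleton.elim _ _⟩

omit [NeZero N] in
lemma prod_arc (l : List G) :
    ((l.map (arc N)).map Arr.w).prod = hat N G l.prod := by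
  rw [List.map_map, map_list_prod]
  rfl

lemma xs_arc {H : Type*} [AddCommGroup H] (s : WR N G → WR N G) (g σ : WR N G) (hs : s g = σ)
    (F : List (WR N G) → H) (l : List G) (w : WR N G) (ha : w * g = g * w)
    (hl : ∀ x ∈ l, hat N G x * g = g * hat N G x) :
    xs s (th1 N G (Fin 1) Unit) g w F (l.map (arc N)) =
      F ((run w (l.map (hat N G))).tail.map fun z => z * σ) := by
  induction l generalizing w F with
  | nil => rfl
  | cons x l ih =>
    have h1 : w * hat N G x * g = g * (w * hat N G x) := by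
      rw [mul_assoc, hl x (by simp), ← mul_assoc, ha, mul_assoc]
    show ∑ m : Unit, xs s (th1 N G (Fin 1) Unit) g (w * hat N G x)
      (fun l' => F (vtx s g (w * hat N G x) 1 :: l')) (l.map (arc N)) = _
    rw [Fintype.sum_unique, ih _ (w * hat N G x) h1 fun y hy => hl y (by simp [hy])]
    have h2 : vtx s g (w * hat N G x) 1 = w * hat N G x * σ := by
      unfold vtx
      rw [mul_one, mul_assoc (w * hat N G x)⁻¹, ← h1, inv_mul_cancel_left, hs]
    rw [h2]
    show F (w * hat N G x * σ :: _) = F ((run (w * hat N G x) (l.map (hat N G))).map fun z => z * σ)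
    obtain ⟨l', hl'⟩ := run_cons (w * hat N G x) (l.map (hat N G))
    rw [hl']
    rfl

/-- The list of the vertices. -/
lemma F_run {H : Type*} [AddCommGroup H] {n : ℕ} {w₀ : WR N G} {K : Set (WR N G)}
    {F : List (WR N G) → H} (hF : IsF n w₀ K F) (hw : w₀ ∈ K) (g σ : WR N G)
    (hσ : σ * w₀ * σ⁻¹ = g) (P : G → Prop) (hP1 : P 1) (hPm : ∀ a b, P a → P b → P (a * b))
    (hP : ∀ q, P q → hat N G q * g = g * hat N G q) (l : List G) (hl : ∀ q ∈ l, P q) (v : WR N G) :
    F ((run (v * g) (l.map (hat N G))).map fun z => z * σ) =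
      F ((run 1 l).map fun q => hat N G q * σ) := by
  have hq := run_prop P hPm 1 hP1 l hl
  have hgσ : g * σ = σ * w₀ := by rw [← hσ]; group
  have h1 : (run (v * g) (l.map (hat N G))).map (fun z => z * σ) =
      (((run 1 l).map fun q => hat N G q * σ).map fun z => v * z).map fun z => z * w₀ := by
    have h2 : run (v * g) (l.map (hat N G)) =
        (run 1 l).map fun q => (v * g) * hat N G q := by
      have h3 := run_mul (v * g) 1 (l.map (hat N G))
      rw [mul_one] at h3
      have h4 := run_map (hat N G) 1 l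
      rw [map_one] at h4
      rw [h3, h4, List.map_map]
      rfl
    rw [h2, List.map_map, List.map_map, List.map_map]
    refine List.map_congr_left fun q hq' => ?_
    show v * g * hat N G q * σ = v * (hat N G q * σ) * w₀
    rw [mul_assoc v g, ← hP q (hq q hq'), mul_assoc v, mul_assoc (hat N G q) g σ, hgσ]
    simp only [mul_assoc]
  have hS : ∀ z ∈ ((run 1 l).map fun q => hat N G q * σ), z * w₀ * z⁻¹ = g := by
    intro z hz
    obtain ⟨q, hq', rfl⟩ := List.mem_map.1 hz
    have h3 : hat N G q * σ * w₀ * (hat N G q * σ)⁻¹ = hat N G q * (σ * w₀ * σ⁻¹) *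
        (hat N G q)⁻¹ := by group
    rw [h3, hσ, hP q (hq q hq'), mul_inv_cancel_right]
  have hS' : ∀ z ∈ (((run 1 l).map fun q => hat N G q * σ).map fun z => v * z),
      z * w₀ * z⁻¹ = v * g * v⁻¹ := by
    intro z hz
    obtain ⟨q, hq', rfl⟩ := List.mem_map.1 hz
    rw [← hS q hq']
    group
  rw [h1]
  have h5 := rcs hF hw rfl (v * g * v⁻¹)
    (((run 1 l).map fun q => hat N G q * σ).map fun z => v * z) [] hS'
  rw [List.nil_append, List.nil_append] at h5
  rw [h5]
  exact hF.inv v _ fun y hy y' hy' => (hS y hy).trans (hS y' hy').symm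

/-- Conjugation. -/
def cjh (y : G) : G →* G where
  toFun q := y⁻¹ * q * y
  map_one' := by group
  map_mul' a b := by group

lemma XWl_run {H : Type*} [AddCommGroup H] (X : List G → H) (σ : WR N G) (l : List G) :
    XWl (N := N) X ((run 1 l).map fun q => hat N G q * σ) =
      X (run 1 (l.map (cjh (σ.left σ.right.toAdd)))) := by
  have h1 : XWl (N := N) X ((run 1 l).map fun q => hat N G q * σ) =
      X (((run 1 l).map fun q => hat N G q * σ).map
        fun v => ((hat N G 1 * σ)⁻¹ * v).left 0) := by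
    obtain ⟨l', hl'⟩ := run_cons 1 l
    rw [hl']
    rfl
  have h4 := run_map (cjh (σ.left σ.right.toAdd)) 1 l
  rw [map_one] at h4
  rw [h1, h4, List.map_map]
  congr 1
  refine List.map_congr_left fun q _ => ?_
  show ((hat N G 1 * σ)⁻¹ * (hat N G q * σ)).left 0 = _
  rw [map_one, one_mul, ← mul_assoc]
  rw [SemidirectProduct.mul_left, SemidirectProduct.mul_left, SemidirectProduct.mul_right,
      SemidirectProduct.inv_left, SemidirectProduct.inv_right]
  show (σ.left (0 - (σ.right⁻¹).toAdd))⁻¹ * q * σ.left (0 - (σ.right⁻¹ * 1).toAdd) =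
    (σ.left σ.right.toAdd)⁻¹ * q * σ.left σ.right.toAdd
  rw [mul_one, toAdd_inv, zero_sub, neg_neg]

/-- The product of the arrows. -/
lemma prod_all (g : WR N G) (l : List G) (hq : hat N G l.prod * g = g * hat N G l.prod) :
    (((⟨uu N, hat N G l.prod⁻¹ * g, uu N⟩ : Arr N G (Fin 1)) :: l.map (arc N)).map Arr.w).prod =
      g := by
  rw [List.map_cons, List.prod_cons, prod_arc, mul_assoc, ← hq, map_inv, inv_mul_cancel_left]

lemma XA_zero {H : Type*} [AddCommGroup H] {n : ℕ} {c : WR N G} (F : List (WR N G) → H)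
    (s : WR N G → WR N G) (g : WR N G) (hc : ¬ ∃ z, z * c * z⁻¹ = g) (l : List G)
    (hq : hat N G l.prod * g = g * hat N G l.prod) :
    XA n c s (th1 N G (Fin 1) Unit) F
      ((⟨uu N, hat N G l.prod⁻¹ * g, uu N⟩ : Arr N G (Fin 1)) :: l.map (arc N)) = 0 := by
  unfold XA
  rw [prod_all g l hq, if_neg]
  rintro ⟨-, -, h⟩
  exact hc h

lemma XA_val {H : Type*} [AddCommGroup H] {n : ℕ} {c : G} {K : Set (WR N G)} {X : List G → H}
    (hF : IsF n (w0 N c) K (XWl (N := N) X)) (hw : w0 N c ∈ K) (s : WR N G → WR N G) (g : WR N G)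
    (hσ : s g * w0 N c * (s g)⁻¹ = g) (P : G → Prop) (hP1 : P 1)
    (hPm : ∀ a b, P a → P b → P (a * b))
    (hP : ∀ q, P q → hat N G q * g = g * hat N G q) (l : List G) (hn : l.length = n)
    (hl : ∀ q ∈ l, P q) :
    XA n (w0 N c) s (th1 N G (Fin 1) Unit) (XWl X)
      ((⟨uu N, hat N G l.prod⁻¹ * g, uu N⟩ : Arr N G (Fin 1)) :: l.map (arc N)) =
      X (run 1 (l.map (cjh ((s g).left (s g).right.toAdd)))) := by
  have hq : hat N G l.prod * g = g * hat N G l.prod := hP _ (List.prod_induction P hPm hP1 hl)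
  unfold XA
  rw [prod_all g l hq, if_pos]
  · show ∑ m : Unit, xs s (th1 N G (Fin 1) Unit) g (1 * (hat N G l.prod⁻¹ * g))
      (fun l' => XWl (N := N) X (vtx s g (1 * (hat N G l.prod⁻¹ * g)) 1 :: l'))
      (l.map (arc N)) = _
    rw [Fintype.sum_unique, one_mul]
    have h1 : hat N G l.prod⁻¹ * g = g * hat N G l.prod⁻¹ := by
      rw [map_inv]
      exact (show Commute (hat N G l.prod) g from hq).inv_left
    have h2 : hat N G l.prod⁻¹ * g * g = g * (hat N G l.prod⁻¹ * g) := by
      rw [← mul_assoc g, ← h1]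
    rw [xs_arc s g (s g) rfl _ l _ h2 fun x hx => hP x (hl x hx)]
    have h3 : vtx s g (hat N G l.prod⁻¹ * g) 1 = hat N G l.prod⁻¹ * g * s g := by
      unfold vtx
      rw [mul_one, mul_assoc (hat N G l.prod⁻¹ * g)⁻¹, ← h2, inv_mul_cancel_left]
    rw [h3, ← XWl_run X (s g) l, ← F_run hF hw g (s g) hσ P hP1 hPm hP l hl (hat N G l.prod⁻¹)]
    obtain ⟨l', hl'⟩ := run_cons (hat N G l.prod⁻¹ * g) (l.map (hat N G))
    rw [hl']
    rfl
  · refine ⟨?_, clo_arc _ l, s g, hσ⟩
    rw [List.length_cons, List.length_map, hn]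

end Word

lemma lift_val {k : Type u} [CommRing k] {N : ℕ} (r : k →+* ZMod N) {G : Type v} [Group G]
    (X : List G → k) (a : k) (f : G → G) (z : Ch G) :
    FreeAbelianGroup.lift (fun l : List G => r a * r (X (run 1 (l.map f)))) z =
      r (a * Xv X (cmap f z)) := by
  have h1 : FreeAbelianGroup.lift (fun l : List G => r a * r (X (run 1 (l.map f)))) =
      (r.toAddMonoidHom.comp (AddMonoidHom.mulLeft a)).comp ((Xv X).comp (cmap f)) := by
    refine FreeAbelianGroup.lift_ext _ _ fun l => ?_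
    rw [FreeAbelianGroup.lift_apply_of]
    show _ = r (a * Xv X (FreeAbelianGroup.map (List.map f) (FreeAbelianGroup.of l)))
    rw [FreeAbelianGroup.map_of_apply, Xv, FreeAbelianGroup.lift_apply_of, map_mul]
  rw [h1]
  rfl

lemma lift_addf {X M : Type*} [AddCommGroup M] (f g : List X → M) (z : Ch X) :
    FreeAbelianGroup.lift (fun l => f l + g l) z =
      FreeAbelianGroup.lift f z + FreeAbelianGroup.lift g z := by
  have h1 : FreeAbelianGroup.lift (fun l => f l + g l) =
      FreeAbelianGroup.lift f + FreeAbelianGroup.lift g := by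
    refine FreeAbelianGroup.lift_ext _ _ fun l => ?_
    rw [AddMonoidHom.add_apply, FreeAbelianGroup.lift_apply_of, FreeAbelianGroup.lift_apply_of,
      FreeAbelianGroup.lift_apply_of]
  rw [h1]
  rfl

lemma lift_zerof {X M : Type*} [AddCommGroup M] (z : Ch X) :
    FreeAbelianGroup.lift (fun _ : List X => (0 : M)) z = 0 := by
  have h1 : FreeAbelianGroup.lift (fun _ : List X => (0 : M)) = 0 := by
    refine FreeAbelianGroup.lift_ext _ _ fun l => ?_
    rw [FreeAbelianGroup.lift_apply_of, AddMonoidHom.zero_apply]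
  rw [h1]
  rfl

lemma vlz_add {k : Type u} [CommRing k] {N : ℕ} (r : k →+* ZMod N) {G C : Type v} [Group G]
    [CommGroup C] (c : G) (χ : Ch G → k) (z : Ch G) (φ : C →* G) (a b : MonoidAlgebra k C) :
    vlz r c χ z φ (a + b) = vlz r c χ z φ a + vlz r c χ z φ b := by
  rw [vlz, vlz, vlz, MonoidAlgebra.coeff_add]
  exact Finsupp.sum_add_index' (fun h => by simp) (fun h x y => by rw [add_mul, map_add])

lemma vlz_zero {k : Type u} [CommRing k] {N : ℕ} (r : k →+* ZMod N) {G C : Type v} [Group G]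
    [CommGroup C] (c : G) (χ : Ch G → k) (z : Ch G) (φ : C →* G) :
    vlz r c χ z φ 0 = 0 := by
  rw [vlz, MonoidAlgebra.coeff_zero]
  exact Finsupp.sum_zero_index

lemma vlz_single {k : Type u} [CommRing k] {N : ℕ} (r : k →+* ZMod N) {G C : Type v} [Group G]
    [CommGroup C] (c : G) (χ : Ch G → k) (z : Ch G) (φ : C →* G) (h : C) (a : k) :
    vlz r c χ z φ (MonoidAlgebra.single h a) = r (a * ThC c χ z (φ h)) := by
  rw [vlz, MonoidAlgebra.coeff_single]
  exact Finsupp.sum_single_index (by simp)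

end EVXM

open EVXM in
theorem specEVX (hXWC : SpecXWC.{v, 0}) (hTHZ : SpecTHZ.{v, u}) (hXVH : SpecXVH.{v, u}) :
    SpecEVX.{u, v} := by
  intro k _ p e n _ _ r G _ c X hX s hs C _ φ z hz b j
  obtain ⟨N, hN⟩ : ∃ N, N = p ^ (e + 1) := ⟨_, rfl⟩
  have hF0 : IsF n c (KG p c) (fun l => r (X l)) := isF_map hX r.toAddMonoidHom
  have hFW := hXWC.main (p ^ (e + 1)) p n G (ZMod (p ^ (e + 1))) c _ hF0
  have hw0 := (hXWC.mem (p ^ (e + 1)) p G c).1
  have hP1 : ∀ h : C, (1 : G) * φ h = φ h * 1 := fun h => by rw [one_mul, mul_one]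
  have hPm : ∀ x y : G, (∀ h : C, x * φ h = φ h * x) → (∀ h : C, y * φ h = φ h * y) →
      ∀ h : C, x * y * φ h = φ h * (x * y) := fun x y hx hy h => by
    rw [mul_assoc, hy h, ← mul_assoc, hx h, mul_assoc]
  -- the value on a list
  have hval : ∀ l : List G, Xpl (p ^ (e + 1)) n r c s X (Fin 1)
      ((zS (p ^ (e + 1)) l.prod⁻¹ * (iB k (p ^ (e + 1)) r G (Fin 1) (FT φ b) *
        (tauS (p ^ (e + 1)) G (Fin 1) : SR (p ^ (e + 1)) G (Fin 1)) ^ j)) ::
        l.map fun g => zS (p ^ (e + 1)) g) =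
      ev (fun a => XA n (w0 (p ^ (e + 1)) c) s (th1 (p ^ (e + 1)) G (Fin 1) Unit)
        (XWl fun l => r (X l)) (a :: l.map (arc (p ^ (e + 1)))))
        (MonoidAlgebra.single (hat (p ^ (e + 1)) G l.prod⁻¹) 1 *
          (jW k (p ^ (e + 1)) r G (MonoidAlgebra.mapDomainRingHom k
            (φ.compLeft (ZMod (p ^ (e + 1)))) (b (uu _) (uu _))) *
            MonoidAlgebra.single (tW (p ^ (e + 1)) G ^ j) 1)) := by
    intro l
    unfold Xpl
    show linS (fun a => Xe (fun l' => XA n (w0 (p ^ (e + 1)) c) s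
      (th1 (p ^ (e + 1)) G (Fin 1) Unit) (XWl fun l => r (X l)) (a :: l'))
      (l.map fun g => zS (p ^ (e + 1)) g)) _ = _
    rw [linS_uu, mul_uu, mul_uu, pow_uu, tau_uu, MonoidAlgebra.single_pow, one_pow]
    congr 1
    congr 1
    funext a
    exact Xe_zS _ l
  have hL : FreeAbelianGroup.lift (fun l : List G => Xpl (p ^ (e + 1)) n r c s X (Fin 1)
      ((zS (p ^ (e + 1)) l.prod⁻¹ * (iB k (p ^ (e + 1)) r G (Fin 1) (FT φ b) *
        (tauS (p ^ (e + 1)) G (Fin 1) : SR (p ^ (e + 1)) G (Fin 1)) ^ j)) ::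
        l.map fun g => zS (p ^ (e + 1)) g)) z = _ :=
    congrArg (fun f => FreeAbelianGroup.lift f z) (funext hval)
  rw [hL]
  have hR : mC (0 : Fin 1) b = MonoidAlgebra.mapDomainRingHom k (prodH C (p ^ (e + 1)))
    (b (uu _) (uu _)) := rfl
  rw [hR]
  generalize b (uu _) (uu _) = b₀
  induction b₀ using MonoidAlgebra.induction_linear with
  | zero =>
    simp only [map_zero, zero_mul, mul_zero]
    rw [lift_zerof, vlz_zero]
    simp
  | add f g hf hg =>
    simp only [map_add, add_mul, mul_add]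
    rw [lift_addf, hf, hg, vlz_add]
    split_ifs <;> simp
  | single γ a =>
    have h3 : MonoidAlgebra.mapDomainRingHom k (φ.compLeft (ZMod (p ^ (e + 1))))
        (MonoidAlgebra.single γ a) = MonoidAlgebra.single (fun i => φ (γ i)) a := by
      rw [MonoidAlgebra.mapDomainRingHom_apply, MonoidAlgebra.mapDomain_single]
      rfl
    have h4 : jW k (p ^ (e + 1)) r G (MonoidAlgebra.single (fun i => φ (γ i)) a) =
        MonoidAlgebra.single (inW (p ^ (e + 1)) G fun i => φ (γ i)) (r a) := by
      rw [jW, RingHom.comp_apply, MonoidAlgebra.mapRingHom_single,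
        MonoidAlgebra.mapDomainRingHom_apply, MonoidAlgebra.mapDomain_single]
    have h5 : MonoidAlgebra.mapDomainRingHom k (prodH C (p ^ (e + 1)))
        (MonoidAlgebra.single γ a) = MonoidAlgebra.single (∏ i, γ i) a := by
      rw [MonoidAlgebra.mapDomainRingHom_apply, MonoidAlgebra.mapDomain_single]
      rfl
    rw [h3, h4, h5, vlz_single]
    obtain ⟨g, hg⟩ : ∃ g, g = inW (p ^ (e + 1)) G (fun i => φ (γ i)) *
      tW (p ^ (e + 1)) G ^ j := ⟨_, rfl⟩
    have hP : ∀ q : G, (∀ h : C, q * φ h = φ h * q) →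
        hat (p ^ (e + 1)) G q * g = g * hat (p ^ (e + 1)) G q := by
      intro q hq
      show inW (p ^ (e + 1)) G (fun _ => q) * g = g * inW (p ^ (e + 1)) G (fun _ => q)
      rw [hg, mul_assoc, K2.VLCaux.t_const, ← mul_assoc, ← mul_assoc, ← map_mul, ← map_mul]
      congr 2
      funext i
      exact hq (γ i)
    have h6 : ∀ l : List G, ev (fun a => XA n (w0 (p ^ (e + 1)) c) s
        (th1 (p ^ (e + 1)) G (Fin 1) Unit)
        (XWl fun l => r (X l)) (a :: l.map (arc (p ^ (e + 1)))))
        (MonoidAlgebra.single (hat (p ^ (e + 1)) G l.prod⁻¹) 1 *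
          (MonoidAlgebra.single (inW (p ^ (e + 1)) G fun i => φ (γ i)) (r a) *
            MonoidAlgebra.single (tW (p ^ (e + 1)) G ^ j) 1)) =
        r a * XA n (w0 (p ^ (e + 1)) c) s (th1 (p ^ (e + 1)) G (Fin 1) Unit)
          (XWl fun l => r (X l)) (⟨uu (p ^ (e + 1)), hat (p ^ (e + 1)) G l.prod⁻¹ * g,
            uu (p ^ (e + 1))⟩ :: l.map (arc (p ^ (e + 1)))) := by
      intro l
      rw [MonoidAlgebra.single_mul_single, MonoidAlgebra.single_mul_single, ev_single, one_mul,
        mul_one, ← hg]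
    rw [show (FreeAbelianGroup.lift fun l : List G => _) = FreeAbelianGroup.lift _ from
      congrArg _ (funext h6)]
    by_cases hc : ∃ t, t * w0 (p ^ (e + 1)) c * t⁻¹ = g
    · have hj : (j : ZMod (p ^ (e + 1))) = 1 := by
        obtain ⟨t, ht⟩ := hc
        have := congrArg dg ht
        rw [K2.VLCaux.dg_conj, K2.VLCaux.dg_w0, hg, K2.VLCaux.dg_mul, K2.VLCaux.dg_in,
          K2.VLCaux.dg_pow, K2.VLCaux.dg_t, zero_add, mul_one] at this
        exact this.symm
      rw [if_pos hj]
      have hσ := hs.sec g hc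
      have hg' : g = inW (p ^ (e + 1)) G (fun i => φ (γ i)) * tW (p ^ (e + 1)) G := by
        rw [hg, K2.VLCaux.t_pow_one j hj]
      have hy := conj_imp φ γ c (s g) (hσ.trans hg')
      rw [lift_congr (g := fun l : List G => r a * r (X (run 1 (l.map
        (cjh ((s g).left (s g).right.toAdd)))))) ?_ hz.1]
      · rw [lift_val, hTHZ.val G k n c (Xv X) (hXVH G k n c _ X hX) _ _ hy z ?_]
        · rfl
        · refine ⟨?_, hz.2⟩
          refine AddSubgroup.closure_mono ?_ hz.1
          rintro y ⟨l, h7, h8, h9⟩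
          exact ⟨l, h7, fun x hx => h8 x hx _, h9⟩
      · intro l hn hl
        rw [XA_val hFW hw0 s g hσ _ hP1 hPm hP l hn hl]
    · have h7 : ¬ ((j : ZMod (p ^ (e + 1))) = 1 ∧ ∃ t, t * c * t⁻¹ = φ (∏ i, γ i)) := by
        rintro ⟨hj, x, hx⟩
        obtain ⟨y, -, hy⟩ := conj_of (N := p ^ (e + 1)) φ γ c x hx
        apply hc
        refine ⟨_, hy.trans ?_⟩
        rw [hg, K2.VLCaux.t_pow_one j hj]
      rw [lift_congr (g := fun _ : List G => (0 : ZMod (p ^ (e + 1)))) ?_ hz.1, lift_zerof]
      · split_ifs with hj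
        · rw [hTHZ.zero G k c (Xv X) z _ fun h => h7 ⟨hj, h⟩, mul_zero, map_zero]
        · rfl
      · intro l hn hl
        rw [XA_zero _ s g hc l (hP _ (List.prod_induction _ hPm hP1 hl)), mul_zero]

end Pool.Agent.Lib.MPb6f35e.KA
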