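import Pool.Agent.Lib.MP_b6f35e_al.KA.SpecB

/-!
# Module FIV: left invariance and additivity of `f` (helper18)
-/

set_option autoImplicit false

noncomputable section

namespace Pool.Agent.Lib.MPb6f35e.KA

open Pool.Agent.Lib.MPb6f35e.WH Pool.Agent.Lib.MPb6f35e.K2

universe u v w x y

namespace FIVM

section lists

variable {X : Type u} {Y : Type v} {Ω : Type w} [Ring Ω]

theorem pw_map (w : X → Ω) (f : Y → X) (l : List Y) :
    KA.pw w (l.map f) = KA.pw (fun y => w (f y)) l := by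
  induction l with
  | nil => rfl
  | cons x l ih =>
    cases l with
    | nil => rfl
    | cons y l =>
      show (w (f y) - w (f x)) * KA.pw w ((y :: l).map f) =
        (w (f y) - w (f x)) * KA.pw (fun y => w (f y)) (y :: l)
      rw [ih]

theorem px_map (w v n : X → Ω) (f : Y → X) (l : List Y) :
    KA.px w v n (l.map f) = KA.px (fun y => w (f y)) (fun y => v (f y)) (fun y => n (f y)) l := by
  induction l with
  | nil => rfl
  | cons x l ih =>
    cases l with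
    | nil => rfl
    | cons y l =>
      show (w (f y) - w (f x)) * KA.px w v n ((y :: l).map f) +
          (n (f y) - n (f x)) * KA.pw v ((y :: l).map f) =
        (w (f y) - w (f x)) *
            KA.px (fun y => w (f y)) (fun y => v (f y)) (fun y => n (f y)) (y :: l) +
          (n (f y) - n (f x)) * KA.pw (fun y => v (f y)) (y :: l)
      rw [ih, pw_map]

theorem px_add (w v n n' : X → Ω) (l : List X) :
    KA.px w v (fun x => n x + n' x) l = KA.px w v n l + KA.px w v n' l := by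
  induction l with
  | nil => exact (add_zero _).symm
  | cons x l ih =>
    cases l with
    | nil => exact (add_zero _).symm
    | cons y l =>
      show (w y - w x) * KA.px w v (fun x => n x + n' x) (y :: l) +
          ((n y + n' y) - (n x + n' x)) * KA.pw v (y :: l) =
        ((w y - w x) * KA.px w v n (y :: l) + (n y - n x) * KA.pw v (y :: l)) +
          ((w y - w x) * KA.px w v n' (y :: l) + (n' y - n' x) * KA.pw v (y :: l))
      rw [ih]
      noncomm_ring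

end lists

variable {B : Type u} {S : Type v} {Ω : Type w} {H : Type x} [Ring B] [Ring S] [Ring Ω]
  [AddCommGroup H] (D : DGD B S Ω H)

theorem j_mul (a b : B) : D.j (a * b) = D.j a * D.j b := by
  unfold DGD.j
  rw [map_mul, map_mul]

theorem j_add (a b : B) : D.j (a + b) = D.j a + D.j b := by
  unfold DGD.j
  rw [map_add, map_add]

theorem j_inv (a : Bˣ) : D.j (a : B) * D.j ((a⁻¹ : Bˣ) : B) = 1 := by
  rw [← j_mul, Units.mul_inv]
  unfold DGD.j
  rw [map_one, map_one]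

theorem j_inv' (a : Bˣ) : D.j ((a⁻¹ : Bˣ) : B) * D.j (a : B) = 1 := by
  rw [← j_mul, Units.inv_mul]
  unfold DGD.j
  rw [map_one, map_one]

variable {D}

theorem ep_j (hD : D.Ok) (b : B) : D.ep (D.j b) = D.j b := hD.ep_lam _

theorem d_jmul (hD : D.Ok) (a b : B) :
    D.d (D.j (a * b)) = D.d (D.j a) * D.j b + D.j a * D.d (D.j b) := by
  rw [j_mul, hD.d_mul, ep_j hD]

/-- `e` in `Ω` -/
theorem d_pow (hD : D.Ok) (n : ℕ) : D.d (D.lam ((D.τ : S) ^ n)) = 0 := by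
  induction n with
  | zero =>
    have h : D.d (1 * 1) = D.d 1 * 1 + D.ep 1 * D.d 1 := hD.d_mul 1 1
    rw [mul_one, mul_one, map_one D.ep, one_mul] at h
    rw [pow_zero, map_one D.lam]
    exact left_eq_add.1 h
  | succ n ih =>
    rw [pow_succ, map_mul, hD.d_mul, ih, hD.d_tau, zero_mul, mul_zero, add_zero]

theorem d_e (hD : D.Ok) : D.d (D.lam D.e) = 0 := by
  unfold DGD.e eS
  rw [map_sum, map_sum]
  exact Finset.sum_eq_zero fun n _ => d_pow hD n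

theorem ie_comm (hD : D.Ok) {b : B} (hb : D.ρ b = b) : D.i b * D.e = D.e * D.i b := by
  have h1 : Commute (D.i b) (D.τ : S) := by
    have := hD.conj b
    rw [hb] at this
    exact this.symm
  unfold DGD.e eS
  exact Commute.sum_right _ _ _ fun n _ => h1.pow_right n

theorem je_comm (hD : D.Ok) {b : B} (hb : D.ρ b = b) :
    D.j b * D.lam D.e = D.lam D.e * D.j b := by
  unfold DGD.j
  rw [← map_mul, ie_comm hD hb, map_mul]

theorem rho_inv {D : DGD B S Ω H} {a : Bˣ} (ha : D.ρ (a : B) = a) :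
    D.ρ ((a⁻¹ : Bˣ) : B) = ((a⁻¹ : Bˣ) : B) := by
  have h1 : D.ρ ((a⁻¹ : Bˣ) : B) * (a : B) = 1 := by
    conv_lhs => rw [← ha]
    rw [← map_mul, Units.inv_mul, map_one]
  calc D.ρ ((a⁻¹ : Bˣ) : B) = D.ρ ((a⁻¹ : Bˣ) : B) * ((a : B) * ((a⁻¹ : Bˣ) : B)) := by
        rw [Units.mul_inv, mul_one]
    _ = ((a⁻¹ : Bˣ) : B) := by rw [← mul_assoc, h1, one_mul]

theorem dje_comm (hD : D.Ok) {b : B} (hb : D.ρ b = b) :
    D.d (D.j b) * D.lam D.e = D.lam D.e * D.d (D.j b) := by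
  have h1 : D.d (D.j b * D.lam D.e) = D.d (D.j b) * D.lam D.e := by
    rw [hD.d_mul, d_e hD, mul_zero, add_zero]
  have h2 : D.d (D.lam D.e * D.j b) = D.lam D.e * D.d (D.j b) := by
    rw [hD.d_mul, d_e hD, zero_mul, zero_add, hD.ep_lam]
  rw [← h1, ← h2, je_comm hD hb]

theorem wT_comm (hD : D.Ok) {x : EB B} (hx : D.Fx x) :
    D.wT x * D.lam D.e = D.lam D.e * D.wT x := by
  unfold DGD.wT
  rw [mul_assoc, je_comm hD (rho_inv hx.1), ← mul_assoc, dje_comm hD hx.1, mul_assoc]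

theorem pw_comm {X : Type y} {c : Ω} (w : X → Ω) (l : List X) (h : ∀ x ∈ l, w x * c = c * w x) :
    KA.pw w l * c = c * KA.pw w l := by
  induction l with
  | nil =>
    show (0 : Ω) * c = c * 0
    rw [zero_mul, mul_zero]
  | cons x l ih =>
    cases l with
    | nil =>
      show (1 : Ω) * c = c * 1
      rw [one_mul, mul_one]
    | cons y l =>
      show (w y - w x) * KA.pw w (y :: l) * c = c * ((w y - w x) * KA.pw w (y :: l))
      have h1 := h x (by simp)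
      have h2 := h y (by simp)
      rw [mul_assoc, ih fun z hz => h z (List.mem_cons_of_mem _ hz), ← mul_assoc, sub_mul, h1, h2,
        ← mul_sub, mul_assoc]

/-- cyclicity for a fixed element -/
theorem ang_fix (hD : D.Ok) {b : B} (hb : D.ρ b = b) (y : Ω) :
    D.ang (D.j b * y) = D.ang (y * D.j b) := by
  show D.I (D.j b * y * D.lam D.e) = D.I (y * D.j b * D.lam D.e)
  rw [mul_assoc, hD.even _ (ep_j hD b), mul_assoc, mul_assoc, je_comm hD hb]

/-- cyclicity for an element commuting with `e` -/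
theorem ang_com (hD : D.Ok) (b : B) {y : Ω} (hy : y * D.lam D.e = D.lam D.e * y) :
    D.ang (D.j b * y) = D.ang (y * D.j b) := by
  show D.I (D.j b * y * D.lam D.e) = D.I (y * D.j b * D.lam D.e)
  rw [mul_assoc, hD.even _ (ep_j hD b), hy, mul_assoc, hD.even _ (hD.ep_lam _)]

/-- cyclicity: conjugation by a fixed unit -/
theorem ang_conj (hD : D.Ok) {a : Bˣ} (ha : D.ρ (a : B) = a) (y : Ω) :
    D.ang (D.j (a : B) * y * D.j ((a⁻¹ : Bˣ) : B)) = D.ang y := by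
  rw [mul_assoc, ang_fix hD ha, mul_assoc, j_inv', mul_one]

theorem wT_mul (hD : D.Ok) (g x : EB B) :
    D.wT (mulE g x) = D.wT g + D.j (g.1 : B) * D.wT x * D.j ((g.1⁻¹ : Bˣ) : B) := by
  show D.d (D.j ((g.1 * x.1 : Bˣ) : B)) * D.j (((g.1 * x.1)⁻¹ : Bˣ) : B) =
    D.d (D.j (g.1 : B)) * D.j ((g.1⁻¹ : Bˣ) : B) +
      D.j (g.1 : B) * (D.d (D.j (x.1 : B)) * D.j ((x.1⁻¹ : Bˣ) : B)) * D.j ((g.1⁻¹ : Bˣ) : B)
  rw [mul_inv_rev, Units.val_mul, Units.val_mul, d_jmul hD, j_mul, add_mul]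
  have h1 : D.d (D.j (g.1 : B)) * D.j (x.1 : B) *
      (D.j ((x.1⁻¹ : Bˣ) : B) * D.j ((g.1⁻¹ : Bˣ) : B)) =
      D.d (D.j (g.1 : B)) * (D.j (x.1 : B) * D.j ((x.1⁻¹ : Bˣ) : B)) * D.j ((g.1⁻¹ : Bˣ) : B) := by
    noncomm_ring
  rw [h1, j_inv, mul_one]
  noncomm_ring

theorem wD_mul (hD : D.Ok) (g x : EB B) :
    D.wD (mulE g x) = D.wD g + D.j (g.2.1 : B) * D.wD x * D.j ((g.2.1⁻¹ : Bˣ) : B) := by
  show D.d (D.j ((g.2.1 * x.2.1 : Bˣ) : B)) * D.j (((g.2.1 * x.2.1)⁻¹ : Bˣ) : B) =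
    D.d (D.j (g.2.1 : B)) * D.j ((g.2.1⁻¹ : Bˣ) : B) +
      D.j (g.2.1 : B) * (D.d (D.j (x.2.1 : B)) * D.j ((x.2.1⁻¹ : Bˣ) : B)) *
        D.j ((g.2.1⁻¹ : Bˣ) : B)
  rw [mul_inv_rev, Units.val_mul, Units.val_mul, d_jmul hD, j_mul, add_mul]
  have h1 : D.d (D.j (g.2.1 : B)) * D.j (x.2.1 : B) *
      (D.j ((x.2.1⁻¹ : Bˣ) : B) * D.j ((g.2.1⁻¹ : Bˣ) : B)) =
      D.d (D.j (g.2.1 : B)) * (D.j (x.2.1 : B) * D.j ((x.2.1⁻¹ : Bˣ) : B)) *
        D.j ((g.2.1⁻¹ : Bˣ) : B) := by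
    noncomm_ring
  rw [h1, j_inv, mul_one]
  noncomm_ring

/-- the computation of `nb`, all letters in `Ω` -/
theorem nb_calc (dg dc dq dδ a a' c q δ δ' β' w wd : Ω) (h1 : a' * a = 1) (h2 : δ * δ' = 1)
    (h3 : wd = dδ * δ') :
    (dg * c + a * dc + (dq * δ + q * dδ)) * (δ' * β') -
        (dg * a' + a * w * a') * ((a * c + q * δ) * (δ' * β')) =
      (dq * β' - dg * a' * (q * β')) + a * (dc * δ' - w * (c * δ')) * β' + q * wd * β' -
        a * w * a' * q * β' := by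
  subst h3
  have e1 : (dg * c + a * dc + (dq * δ + q * dδ)) * (δ' * β') =
      dg * c * δ' * β' + a * dc * δ' * β' + dq * (δ * δ') * β' + q * dδ * δ' * β' := by
    noncomm_ring
  have e2 : (dg * a' + a * w * a') * ((a * c + q * δ) * (δ' * β')) =
      dg * (a' * a) * c * δ' * β' + dg * a' * q * (δ * δ') * β' +
        a * w * (a' * a) * c * δ' * β' + a * w * a' * q * (δ * δ') * β' := by
    noncomm_ring
  rw [e1, e2, h1, h2]
  noncomm_ring

theorem nb_mul (hD : D.Ok) (g x : EB B) :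
    D.nb (mulE g x) = D.nb g + D.j (g.1 : B) * D.nb x * D.j ((g.2.1⁻¹ : Bˣ) : B) +
      D.j g.2.2 * D.wD x * D.j ((g.2.1⁻¹ : Bˣ) : B) -
      D.j (g.1 : B) * D.wT x * D.j ((g.1⁻¹ : Bˣ) : B) * D.j g.2.2 *
        D.j ((g.2.1⁻¹ : Bˣ) : B) := by
  have h := nb_calc (D.d (D.j (g.1 : B))) (D.d (D.j x.2.2)) (D.d (D.j g.2.2))
    (D.d (D.j (x.2.1 : B))) (D.j (g.1 : B)) (D.j ((g.1⁻¹ : Bˣ) : B)) (D.j x.2.2) (D.j g.2.2)
    (D.j (x.2.1 : B)) (D.j ((x.2.1⁻¹ : Bˣ) : B)) (D.j ((g.2.1⁻¹ : Bˣ) : B)) (D.wT x) (D.wD x)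
    (j_inv' D g.1) (j_inv D x.2.1) rfl
  have e1 : D.nb (mulE g x) = (D.d (D.j (g.1 : B)) * D.j x.2.2 + D.j (g.1 : B) * D.d (D.j x.2.2) +
      (D.d (D.j g.2.2) * D.j (x.2.1 : B) + D.j g.2.2 * D.d (D.j (x.2.1 : B)))) *
        (D.j ((x.2.1⁻¹ : Bˣ) : B) * D.j ((g.2.1⁻¹ : Bˣ) : B)) -
      (D.d (D.j (g.1 : B)) * D.j ((g.1⁻¹ : Bˣ) : B) +
        D.j (g.1 : B) * D.wT x * D.j ((g.1⁻¹ : Bˣ) : B)) *
        ((D.j (g.1 : B) * D.j x.2.2 + D.j g.2.2 * D.j (x.2.1 : B)) *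
          (D.j ((x.2.1⁻¹ : Bˣ) : B) * D.j ((g.2.1⁻¹ : Bˣ) : B))) := by
    show D.d (D.j ((g.1 : B) * x.2.2 + g.2.2 * (x.2.1 : B))) *
        D.j (((g.2.1 * x.2.1)⁻¹ : Bˣ) : B) -
      D.wT (mulE g x) * D.j (((g.1 : B) * x.2.2 + g.2.2 * (x.2.1 : B)) *
        (((g.2.1 * x.2.1)⁻¹ : Bˣ) : B)) = _
    rw [wT_mul hD, mul_inv_rev, Units.val_mul, j_mul, j_mul, j_mul, j_add, map_add, ← j_add,
      d_jmul hD, d_jmul hD, j_add, j_mul, j_mul]
    rfl
  rw [e1, h]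
  have e2 : D.nb g = D.d (D.j g.2.2) * D.j ((g.2.1⁻¹ : Bˣ) : B) -
      D.d (D.j (g.1 : B)) * D.j ((g.1⁻¹ : Bˣ) : B) * (D.j g.2.2 * D.j ((g.2.1⁻¹ : Bˣ) : B)) := by
    show D.d (D.j g.2.2) * D.j ((g.2.1⁻¹ : Bˣ) : B) -
      D.wT g * D.j (g.2.2 * ((g.2.1⁻¹ : Bˣ) : B)) = _
    rw [j_mul]
    rfl
  have e3 : D.nb x = D.d (D.j x.2.2) * D.j ((x.2.1⁻¹ : Bˣ) : B) -
      D.wT x * (D.j x.2.2 * D.j ((x.2.1⁻¹ : Bˣ) : B)) := by
    show D.d (D.j x.2.2) * D.j ((x.2.1⁻¹ : Bˣ) : B) -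
      D.wT x * D.j (x.2.2 * ((x.2.1⁻¹ : Bˣ) : B)) = _
    rw [j_mul]
  rw [e2, e3]

/-- `nb` is additive in the third component -/
theorem nb_add (T E : Bˣ) (c c' : B) :
    D.nb (T, E, c + c') = D.nb (T, E, c) + D.nb (T, E, c') := by
  show D.d (D.j (c + c')) * D.j ((E⁻¹ : Bˣ) : B) -
      D.wT (T, E, c + c') * D.j ((c + c') * ((E⁻¹ : Bˣ) : B)) =
    (D.d (D.j c) * D.j ((E⁻¹ : Bˣ) : B) - D.wT (T, E, c) * D.j (c * ((E⁻¹ : Bˣ) : B))) +
      (D.d (D.j c') * D.j ((E⁻¹ : Bˣ) : B) - D.wT (T, E, c') * D.j (c' * ((E⁻¹ : Bˣ) : B)))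
  have h1 : D.wT (T, E, c + c') = D.wT (T, E, c) := rfl
  have h2 : D.wT (T, E, c') = D.wT (T, E, c) := rfl
  rw [h1, h2, j_add, map_add, add_mul c c', j_add]
  noncomm_ring

/-- the final computation -/
theorem fin_calc (hD : D.Ok) (a b : Bˣ) (ha : D.ρ (a : B) = a) (hb : D.ρ (b : B) = b) (q c : B)
    (t δ : Bˣ) (ht : D.ρ (t : B) = t) (hδ : D.ρ (δ : B) = δ) (PT PD PX : Ω)
    (hPT : PT * D.lam D.e = D.lam D.e * PT) :
    D.ang (D.j (((a : B) * c + q * (δ : B)) * (((a * t)⁻¹ : Bˣ) : B)) *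
        (D.j (a : B) * PT * D.j ((a⁻¹ : Bˣ) : B))) -
      D.ang (D.j (((b * δ : Bˣ) : B) * (((a * t)⁻¹ : Bˣ) : B) * ((a : B) * c + q * (δ : B)) *
        (((b * δ)⁻¹ : Bˣ) : B)) * (D.j (b : B) * PD * D.j ((b⁻¹ : Bˣ) : B))) +
      D.ang (D.j (((b * δ : Bˣ) : B) * (((a * t)⁻¹ : Bˣ) : B)) *
        (D.j (a : B) * PX * D.j ((b⁻¹ : Bˣ) : B) + D.j q * PD * D.j ((b⁻¹ : Bˣ) : B) -
          D.j (a : B) * PT * D.j ((a⁻¹ : Bˣ) : B) * D.j q * D.j ((b⁻¹ : Bˣ) : B))) =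
    D.ang (D.j (c * ((t⁻¹ : Bˣ) : B)) * PT) -
      D.ang (D.j ((δ : B) * ((t⁻¹ : Bˣ) : B) * c * ((δ⁻¹ : Bˣ) : B)) * PD) +
      D.ang (D.j ((δ : B) * ((t⁻¹ : Bˣ) : B)) * PX) := by
  simp only [mul_inv_rev, Units.val_mul, j_mul, j_add]
  have ha' := rho_inv (D := D) ha
  have hb' := rho_inv (D := D) hb
  have ht' := rho_inv (D := D) ht
  have ia := j_inv D a
  have ia' := j_inv' D a
  have ib := j_inv D b
  have ib' := j_inv' D b
  have iδ := j_inv D δ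
  have cA := ang_conj hD ha
  have cB := ang_conj hD hb
  -- the element `y = δ t⁻¹ PT a⁻¹` commutes with `e`
  have hy : (D.j (δ : B) * D.j ((t⁻¹ : Bˣ) : B) * PT * D.j ((a⁻¹ : Bˣ) : B)) * D.lam D.e =
      D.lam D.e * (D.j (δ : B) * D.j ((t⁻¹ : Bˣ) : B) * PT * D.j ((a⁻¹ : Bˣ) : B)) := by
    rw [mul_assoc, je_comm hD ha', ← mul_assoc, mul_assoc _ PT, hPT, ← mul_assoc,
      mul_assoc (D.j (δ : B)), je_comm hD ht', ← mul_assoc, je_comm hD hδ]
    simp only [mul_assoc]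
  have hq := ang_com hD q hy
  generalize D.j (a : B) = A at *
  generalize D.j ((a⁻¹ : Bˣ) : B) = A' at *
  generalize D.j (b : B) = E at *
  generalize D.j ((b⁻¹ : Bˣ) : B) = E' at *
  generalize D.j (δ : B) = F at *
  generalize D.j ((δ⁻¹ : Bˣ) : B) = F' at *
  generalize D.j ((t⁻¹ : Bˣ) : B) = t' at *
  generalize D.j q = Q at *
  generalize D.j c = C at *
  have e1 : (A * C + Q * F) * (t' * A') * (A * PT * A') =
      A * (C * t' * PT) * A' + Q * (F * t' * PT * A') := by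
    have : (A * C + Q * F) * (t' * A') * (A * PT * A') =
        (A * C + Q * F) * t' * (A' * A) * PT * A' := by noncomm_ring
    rw [this, ia']
    noncomm_ring
  have e2 : E * F * (t' * A') * (A * C + Q * F) * (F' * E') * (E * PD * E') =
      E * (F * t' * C * F' * PD) * E' + E * (F * t' * A' * Q * PD) * E' := by
    have : E * F * (t' * A') * (A * C + Q * F) * (F' * E') * (E * PD * E') =
        E * F * t' * (A' * A) * C * F' * (E' * E) * PD * E' +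
          E * F * t' * A' * Q * (F * F') * (E' * E) * PD * E' := by noncomm_ring
    rw [this, ia', ib', iδ]
    noncomm_ring
  have e3 : E * F * (t' * A') * (A * PX * E' + Q * PD * E' - A * PT * A' * Q * E') =
      E * (F * t' * PX) * E' + E * (F * t' * A' * Q * PD) * E' -
        E * (F * t' * PT * A' * Q) * E' := by
    have : E * F * (t' * A') * (A * PX * E' + Q * PD * E' - A * PT * A' * Q * E') =
        E * F * t' * (A' * A) * PX * E' + E * F * t' * A' * Q * PD * E' -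
          E * F * t' * (A' * A) * PT * A' * Q * E' := by noncomm_ring
    rw [this, ia']
    noncomm_ring
  rw [e1, e2, e3]
  simp only [map_add, map_sub]
  rw [cA, cB, cB, cB, cB, hq]
  abel

end FIVM

open FIVM in
/-- FIV: left invariance and additivity of `f`. -/
theorem specFIV (hPW : SpecPW.{u, w, u}) : SpecFIV.{u, v, w, x} := by
  refine ⟨?_, ?_⟩
  · intro B S Ω H _ _ _ _ D hD g hg l hl
    cases l with
    | nil => rfl
    | cons x l =>
      have hPT := hPW.conj (EB B) Ω D.wT (EB B) D.wT (fun x => mulE g x) (D.wT g)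
        (D.j (g.1 : B)) (D.j ((g.1⁻¹ : Bˣ) : B)) (j_inv' D g.1) (j_inv D g.1) (fun _ => True)
        (fun x _ => wT_mul hD g x) (x :: l) (fun _ _ => trivial)
      have hPD := hPW.conj (EB B) Ω D.wD (EB B) D.wD (fun x => mulE g x) (D.wD g)
        (D.j (g.2.1 : B)) (D.j ((g.2.1⁻¹ : Bˣ) : B)) (j_inv' D g.2.1) (j_inv D g.2.1)
        (fun _ => True) (fun x _ => wD_mul hD g x) (x :: l) (fun _ _ => trivial)
      have hPX := hPW.pxc (EB B) Ω D.wT D.wD D.nb (EB B) D.wT D.wD D.nb (fun x => mulE g x)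
        (D.wT g) (D.wD g) (D.nb g) (D.j (g.1 : B)) (D.j ((g.1⁻¹ : Bˣ) : B))
        (D.j (g.2.1 : B)) (D.j ((g.2.1⁻¹ : Bˣ) : B)) (D.j g.2.2) (j_inv' D g.1) (j_inv D g.1)
        (j_inv' D g.2.1) (j_inv D g.2.1) (fun _ => True)
        (fun x _ => wT_mul hD g x) (fun x _ => wD_mul hD g x) (fun x _ => nb_mul hD g x)
        (x :: l) (fun _ _ => trivial)
      have hx : D.Fx x := hl x (by simp)
      have hc : KA.pw D.wT (x :: l) * D.lam D.e = D.lam D.e * KA.pw D.wT (x :: l) :=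
        pw_comm D.wT (x :: l) fun z hz => wT_comm hD (hl z hz)
      have h := fin_calc hD g.1 g.2.1 hg.1 hg.2 g.2.2 x.2.2 x.1 x.2.1 hx.1 hx.2
        (KA.pw D.wT (x :: l)) (KA.pw D.wD (x :: l)) (KA.px D.wT D.wD D.nb (x :: l)) hc
      rw [← hPX, ← hPT, ← hPD] at h
      exact h
  · intro B S Ω H _ _ _ _ D l
    cases l with
    | nil => exact (add_zero _).symm
    | cons x l =>
      have key : ∀ f : EB B × B → EB B, (∀ y, (f y).1 = y.1.1) → (∀ y, (f y).2.1 = y.1.2.1) →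
          D.f ((x :: l).map f) =
          D.ang (D.j ((f x).2.2 * ((x.1.1⁻¹ : Bˣ) : B)) *
              KA.pw (fun y => D.wT y.1) (x :: l)) -
            D.ang (D.j (x.1.2.1 * ((x.1.1⁻¹ : Bˣ) : B) * (f x).2.2 * ((x.1.2.1⁻¹ : Bˣ) : B)) *
              KA.pw (fun y => D.wD y.1) (x :: l)) +
            D.ang (D.j (x.1.2.1 * ((x.1.1⁻¹ : Bˣ) : B)) *
              KA.px (fun y => D.wT y.1) (fun y => D.wD y.1) (fun y => D.nb (f y)) (x :: l)) := by
        intro f h1 h2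
        have e1 : (fun y => D.wT (f y)) = fun y : EB B × B => D.wT y.1 := by
          funext y
          show D.d (D.j ((f y).1 : B)) * D.j (((f y).1⁻¹ : Bˣ) : B) = _
          rw [h1 y]
          rfl
        have e2 : (fun y => D.wD (f y)) = fun y : EB B × B => D.wD y.1 := by
          funext y
          show D.d (D.j ((f y).2.1 : B)) * D.j (((f y).2.1⁻¹ : Bˣ) : B) = _
          rw [h2 y]
          rfl
        show D.ang (D.j ((f x).2.2 * (((f x).1⁻¹ : Bˣ) : B)) * KA.pw D.wT ((x :: l).map f)) -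
            D.ang (D.j ((f x).2.1 * (((f x).1⁻¹ : Bˣ) : B) * (f x).2.2 *
              (((f x).2.1⁻¹ : Bˣ) : B)) * KA.pw D.wD ((x :: l).map f)) +
            D.ang (D.j ((f x).2.1 * (((f x).1⁻¹ : Bˣ) : B)) *
              KA.px D.wT D.wD D.nb ((x :: l).map f)) = _
        rw [pw_map, pw_map, px_map, e1, e2, h1 x, h2 x]
      rw [key (fun x => (x.1.1, x.1.2.1, x.1.2.2 + x.2)) (fun _ => rfl) (fun _ => rfl),
        key Prod.fst (fun _ => rfl) (fun _ => rfl),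
        key (fun x => (x.1.1, x.1.2.1, x.2)) (fun _ => rfl) (fun _ => rfl)]
      have e3 : (fun y : EB B × B => D.nb (y.1.1, y.1.2.1, y.1.2.2 + y.2)) =
          fun y => D.nb (Prod.fst y) + D.nb (y.1.1, y.1.2.1, y.2) := by
        funext y
        exact nb_add _ _ _ _
      rw [e3, px_add]
      show D.ang (D.j ((x.1.2.2 + x.2) * ((x.1.1⁻¹ : Bˣ) : B)) * _) -
        D.ang (D.j (x.1.2.1 * ((x.1.1⁻¹ : Bˣ) : B) * (x.1.2.2 + x.2) * ((x.1.2.1⁻¹ : Bˣ) : B)) * _) +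
          _ = _
      rw [add_mul, mul_add, add_mul, j_add, j_add, add_mul, add_mul, mul_add, map_add, map_add,
        map_add]
      abel

end Pool.Agent.Lib.MPb6f35e.KA
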