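import Pool.Agent.Lib.MP_b6f35e_al.KA.SpecD
import Pool.Agent.Lib.MP_b6f35e_al.K2.HSB
import Pool.Agent.Lib.MP_b6f35e_al.K2.HSD

/-! # FRS: the triples `(a, a, a)` with `a` over `H` -/

set_option autoImplicit false

noncomputable section

namespace Pool.Agent.Lib.MPb6f35e.KA

open Pool.Agent.Lib.MPb6f35e.WH Pool.Agent.Lib.MPb6f35e.K2

universe u v

namespace FRSM

variable {N : ℕ} [NeZero N] {G : Type u} [Group G] {ι : Type} [Fintype ι] [DecidableEq ι]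

/-- The condition. -/
def Cd (H : Subgroup G) (s : SR N G ι × SR N G ι × SR N G ι) : Prop :=
  SH H s.1 ∧ s.2.1 = s.1 ∧ s.2.2 = s.1

/-- The subring. -/
def Rg (H : Subgroup G) : Subring (SR N G ι × SR N G ι × SR N G ι) where
  carrier := {s | Cd H s}
  mul_mem' := by
    rintro a b ⟨ha, ha1, ha2⟩ ⟨hb, hb1, hb2⟩
    exact ⟨specHSB.{0, u}.mul N G ι H a.1 b.1 ha hb,
      by rw [Prod.snd_mul, Prod.fst_mul, Prod.fst_mul, ha1, hb1],
      by rw [Prod.snd_mul, Prod.snd_mul, Prod.fst_mul, ha2, hb2]⟩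
  one_mem' := ⟨specHSB.{0, u}.one N G ι H, rfl, rfl⟩
  add_mem' := by
    rintro a b ⟨ha, ha1, ha2⟩ ⟨hb, hb1, hb2⟩
    exact ⟨(specHSB.{0, u}.add N G ι H a.1 b.1 ha hb).1,
      by rw [Prod.snd_add, Prod.fst_add, Prod.fst_add, ha1, hb1],
      by rw [Prod.snd_add, Prod.snd_add, Prod.fst_add, ha2, hb2]⟩
  zero_mem' := by
    refine ⟨?_, rfl, rfl⟩
    intro I J g hg
    exact absurd rfl hg
  neg_mem' := by
    rintro a ⟨ha, ha1, ha2⟩
    refine ⟨?_, by rw [Prod.snd_neg, Prod.fst_neg, Prod.fst_neg, ha1],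
      by rw [Prod.snd_neg, Prod.snd_neg, Prod.fst_neg, ha2]⟩
    intro I J g hg
    refine ha I J g fun h => hg ?_
    show (-(a.1 I J)).coeff g = 0
    rw [MonoidAlgebra.coeff_neg, Finsupp.neg_apply, h, neg_zero]

end FRSM

open FRSM in
/-- **FRS**. -/
theorem specFRS : SpecFRS.{u, v} := by
  intro N _ G _ ι _ _ H
  refine ⟨Rg H, fun s => Iff.rfl, ?_, ?_, ?_⟩
  · intro k _ r x
    exact ⟨specHSB.{v, u}.iB k N r G ι H _ (HSDaux.supp_FT H x), rfl, rfl⟩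
  · exact ⟨(specHSB.{0, u}.tau N G ι H).1, rfl, rfl⟩
  · rintro s ⟨hs, h1, h2⟩
    refine ⟨specHSB.{0, u}.dS N G ι H s.1 hs, ?_, ?_⟩
    · show dS N G ι s.2.1 = dS N G ι s.1
      rw [h1]
    · show dS N G ι s.2.2 = dS N G ι s.1
      rw [h2]

end Pool.Agent.Lib.MPb6f35e.KA
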