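import Pool.Agent.Lib.MP_b6f35e_al.KA.SpecG

/-! # Module FTG of KA: the map of the tensor products given by a ring homomorphism -/

set_option autoImplicit false

noncomputable section

namespace Pool.Agent.Lib.MPb6f35e.KA

open Pool.Agent.Lib.MPb6f35e.WH

universe u v w

namespace FTGM

section

variable {n : ℕ} {R₀ : Type u} [CommRing R₀] {R : Type w} [CommRing R] {G : Type v} [Group G]
  (f : R₀ →+* R)

/-- The map of the units of the group rings. -/
def uM : (MonoidAlgebra R₀ G)ˣ →* (MonoidAlgebra R G)ˣ :=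
  Units.map (MonoidAlgebra.mapRingHom G f).toMonoidHom

lemma uM_val (u : (MonoidAlgebra R₀ G)ˣ) :
    (uM f u).val = MonoidAlgebra.mapRingHom G f u.val := rfl

lemma uM_inv (u : (MonoidAlgebra R₀ G)ˣ) :
    (uM f u).inv = MonoidAlgebra.mapRingHom G f u.inv := rfl

lemma coeff_ne (x : MonoidAlgebra R₀ G) (g : G)
    (h : (MonoidAlgebra.mapRingHom G f x).coeff g ≠ 0) : x.coeff g ≠ 0 := by
  intro h0
  apply h
  rw [MonoidAlgebra.coeff_mapRingHom, h0, map_zero]

lemma sup_map {u : (MonoidAlgebra R₀ G)ˣ} {C : Subgroup G} (h : Sup C u.val ∧ Sup C u.inv) :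
    Sup C (uM f u).val ∧ Sup C (uM f u).inv :=
  ⟨fun g hg => h.1 g (coeff_ne f _ g hg), fun g hg => h.2 g (coeff_ne f _ g hg)⟩

/-- The map of the generators. -/
def gM (y : GenT n R₀ G) : GenT n R G := ⟨y.C, y.fin, y.cy, y.z, y.hz, uM f y.u, sup_map f y.hu⟩

lemma genT_eq {A : Type w} [CommRing A] (y y' : GenT n A G) (hC : y'.C = y.C) (hz : y'.z = y.z)
    (hu : y'.u = y.u) : y' = y := by
  obtain ⟨C, h1, h2, z, h3, u, h4⟩ := y
  obtain ⟨C', h1', h2', z', h3', u', h4'⟩ := y'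
  dsimp only at hC hz hu
  subst hC
  subst hz
  subst hu
  rfl

open FreeAbelianGroup in
lemma rel_map (x : FreeAbelianGroup (GenT n R₀ G)) (hx : RelT n R₀ G x) :
    map (gM f) x ∈ AddSubgroup.closure {y | RelT n R G y} := by
  apply AddSubgroup.subset_closure
  cases hx with
  | add C hC cC z z' h h' h'' u hu =>
    rw [map_sub, map_sub, map_of_apply, map_of_apply, map_of_apply]
    exact RelT.add C hC cC z z' h h' h'' (uM f u) (sup_map f hu)
  | bdr C hC cC w hw h u hu =>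
    rw [map_of_apply]
    exact RelT.bdr C hC cC w hw h (uM f u) (sup_map f hu)
  | mul C hC cC z h a b hu hu' huu =>
    rw [map_sub, map_sub, map_of_apply, map_of_apply, map_of_apply]
    have e : uM f (a * b) = uM f a * uM f b := map_mul _ _ _
    have h1 : gM f ⟨C, hC, cC, z, h, a * b, huu⟩ =
        ⟨C, hC, cC, z, h, uM f a * uM f b, by rw [← e]; exact sup_map f huu⟩ :=
      genT_eq _ _ rfl rfl e
    rw [h1]
    exact RelT.mul C hC cC z h (uM f a) (uM f b) (sup_map f hu) (sup_map f hu') _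
  | conj C K hC cC hK cK g hg z hz hz' a b hu hu' h =>
    rw [map_sub, map_of_apply, map_of_apply]
    refine RelT.conj C K hC cC hK cK g hg z hz hz' (uM f a) (uM f b) (sup_map f hu)
      (sup_map f hu') ?_
    have h2 := congrArg (MonoidAlgebra.mapRingHom G f) h
    rw [map_mul, map_mul, MonoidAlgebra.mapRingHom_single, map_one] at h2
    exact h2

/-- The map of the tensor products. -/
def FM : TGrp n R₀ G →+ TGrp n R G := D1.hom (gM f) (rel_map f)

lemma FM_cls (y : GenT n R₀ G) :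
    FM f (D1.cls (RelT n R₀ G) y) = D1.cls (RelT n R G) (gM f y) := by
  rfl

lemma FM_mem (p : ℕ) (𝒞 : Set (Subgroup G)) (y : TGrp n R₀ G) (hy : y ∈ DSubS n p R₀ G 𝒞) :
    FM f y ∈ DSubS n p R G 𝒞 := by
  have h : DSubS n p R₀ G 𝒞 ≤ (DSubS n p R G 𝒞).comap (FM f) := by
    rw [DSubS, AddSubgroup.closure_le]
    rintro a ⟨x, hx, hh, rfl⟩
    exact AddSubgroup.subset_closure ⟨gM f x, hx, hh, FM_cls f x⟩
  exact h hy

end

end FTGM

open FTGM in
/-- **FTG**. -/
theorem specFTG : SpecFTG.{u, v, w} := by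
  intro n R₀ R _ _ f G _
  refine ⟨FM f, ?_, fun p 𝒞 y hy => FM_mem f p 𝒞 y hy⟩
  intro y y' hC hz hu
  rw [FM_cls, genT_eq (gM f y) y' hC hz hu]

end Pool.Agent.Lib.MPb6f35e.KA
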