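import Pool.Agent.Lib.MP_b6f35e_al.KA.SpecD

/-!
# Rational K-theory in all degrees (MP_b6f35e_al), module FXV: finite subgroups (helper77)
-/

set_option autoImplicit false

noncomputable section

namespace Pool.Agent.Lib.MPb6f35e.KA

open Pool.Agent.Lib.MPb6f35e.WH Pool.Agent.Lib.MPb6f35e.K2

universe u v w x y

namespace FXVM

/-! ### the extension of a function on arrows -/

section lin

variable {N : ℕ} [NeZero N] {G : Type u} [Group G] {ι : Type} [Fintype ι] [DecidableEq ι]

lemma linS_apply (φ : Arr N G ι → ZMod N) (a : SR N G ι) :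
    linS φ a = ∑ I : ZMod N → ι, ∑ J : ZMod N → ι,
      (a I J).coeff.sum fun w x => x * φ ⟨I, w, J⟩ := by
  unfold linS
  rw [AddMonoidHom.finsetSum_apply]
  refine Finset.sum_congr rfl fun I _ => ?_
  rw [AddMonoidHom.finsetSum_apply]
  exact Finset.sum_congr rfl fun J _ => rfl

lemma linS_zero {Q : Arr N G ι → Prop} {φ : Arr N G ι → ZMod N} {a : SR N G ι}
    (ha : ∀ I J g, (a I J).coeff g ≠ 0 → Q ⟨I, g, J⟩) (h : ∀ r, Q r → φ r = 0) :
    linS φ a = 0 := by
  rw [linS_apply]
  refine Finset.sum_eq_zero fun I _ => Finset.sum_eq_zero fun J _ =>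
    Finset.sum_eq_zero fun w hw => ?_
  have h1 := h ⟨I, w, J⟩ (ha I J w (Finsupp.mem_support_iff.1 hw))
  show _ * φ ⟨I, w, J⟩ = 0
  rw [h1, mul_zero]

lemma Xe_zero {Q : Arr N G ι → Prop} (l : List (SR N G ι))
    (hl : ∀ a ∈ l, ∀ I J g, (a I J).coeff g ≠ 0 → Q ⟨I, g, J⟩)
    (Y : List (Arr N G ι) → ZMod N) (h : ∀ t, (∀ r ∈ t, Q r) → Y t = 0) : Xe Y l = 0 := by
  induction l generalizing Y with
  | nil => exact h [] (fun r hr => absurd hr (List.not_mem_nil))
  | cons a l ih =>
    show linS (fun r => Xe (fun l' => Y (r :: l')) l) a = 0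
    refine linS_zero (hl a (List.mem_cons_self ..)) fun r hr => ?_
    refine ih (fun a' ha' => hl a' (List.mem_cons_of_mem _ ha')) _ fun t ht => ?_
    refine h _ fun r' hr' => ?_
    rcases List.mem_cons.1 hr' with h1 | h1
    · rw [h1]
      exact hr
    · exact ht r' h1

end lin

/-! ### the elements of the wreath product over `H` -/

section WH

variable {N : ℕ} {G : Type u} [Group G] {H : Subgroup G}

lemma mul_left_apply (a b : WR N G) (j : ZMod N) :
    (a * b).left j = a.left j * b.left (j - a.right.toAdd) := rfl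

lemma tW_pow (k : ℕ) : tW N G ^ k = SemidirectProduct.inr (Multiplicative.ofAdd (k : ZMod N)) := by
  unfold tW
  rw [← map_pow, ← ofAdd_nsmul, nsmul_eq_mul, mul_one]

/-- `m ↦ a m t^(-k)` -/
def pi (a : WR N G) (ha : ∀ j, a.left j ∈ H) : (ZMod N → H) ≃ (ZMod N → H) where
  toFun m j := ⟨a.left j, ha j⟩ * m (j - a.right.toAdd)
  invFun m j := (⟨a.left (j + a.right.toAdd), ha _⟩ : H)⁻¹ * m (j + a.right.toAdd)
  left_inv m := by
    funext j
    show (⟨a.left (j + a.right.toAdd), ha _⟩ : H)⁻¹ *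
      (⟨a.left (j + a.right.toAdd), ha _⟩ * m (j + a.right.toAdd - a.right.toAdd)) = m j
    rw [inv_mul_cancel_left, add_sub_cancel_right]
  right_inv m := by
    funext j
    show (⟨a.left j, ha j⟩ : H) * ((⟨a.left (j - a.right.toAdd + a.right.toAdd), ha _⟩ : H)⁻¹ *
      m (j - a.right.toAdd + a.right.toAdd)) = m j
    simp only [sub_add_cancel, mul_inv_cancel_left]

lemma mul_inW (a : WR N G) (ha : ∀ j, a.left j ∈ H) (m : ZMod N → H) :
    a * inW N G (fun j => (m j : G)) =
      inW N G (fun j => (pi a ha m j : G)) * SemidirectProduct.inr a.right := by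
  refine SemidirectProduct.ext ?_ ?_
  · funext j
    show a.left j * (m (j - a.right.toAdd) : G) =
      ((a.left j * (m (j - a.right.toAdd) : G)) : G) * 1
    rw [mul_one]
  · show a.right * 1 = 1 * a.right
    rw [mul_one, one_mul]

end WH

section main

variable {N : ℕ} [NeZero N] {G : Type u} [Group G] {ι : Type} {H : Subgroup G} [Fintype H]
  {c : WR N G} {K : Set (WR N G)} {s : WR N G → WR N G}

/-- The subgroup generated by the elements of `K` which commute with `c`. -/
def KC (c : WR N G) (K : Set (WR N G)) : Subgroup (WR N G) :=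
  Subgroup.closure {k | k ∈ K ∧ k * c = c * k}

lemma str_pow (hs : IsSec c K s (thH (ι := ι) H)) (h : WR N G) (hh : ∃ z, z * c * z⁻¹ = h)
    (k : ℕ) : ∃ κ ∈ KC c K, tW N G ^ k * s ((tW N G ^ k)⁻¹ * h * tW N G ^ k) = s h * κ := by
  induction k with
  | zero =>
    refine ⟨1, Subgroup.one_mem _, ?_⟩
    rw [pow_zero, inv_one, one_mul, one_mul, mul_one, mul_one]
  | succ k ih =>
    obtain ⟨κ, hκ, e1⟩ := ih
    obtain ⟨z, hz⟩ := hh
    have h2 : ∃ z, z * c * z⁻¹ = (tW N G ^ (k + 1))⁻¹ * h * tW N G ^ (k + 1) :=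
      ⟨(tW N G ^ (k + 1))⁻¹ * z, by rw [← hz]; group⟩
    obtain ⟨κ', hc, hK, e2⟩ := hs.str _ h2
    have h3 : tW N G * ((tW N G ^ (k + 1))⁻¹ * h * tW N G ^ (k + 1)) * (tW N G)⁻¹ =
        (tW N G ^ k)⁻¹ * h * tW N G ^ k := by
      rw [pow_succ]
      group
    rw [h3] at e2
    refine ⟨κ * κ'⁻¹, Subgroup.mul_mem _ hκ (Subgroup.inv_mem _
      (Subgroup.subset_closure ⟨hK, hc⟩)), ?_⟩
    have h4 : tW N G * s ((tW N G ^ (k + 1))⁻¹ * h * tW N G ^ (k + 1)) =
        s ((tW N G ^ k)⁻¹ * h * tW N G ^ k) * κ'⁻¹ := by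
      rw [e2, mul_inv_cancel_right]
    calc tW N G ^ (k + 1) * s ((tW N G ^ (k + 1))⁻¹ * h * tW N G ^ (k + 1))
        = tW N G ^ k * (tW N G * s ((tW N G ^ (k + 1))⁻¹ * h * tW N G ^ (k + 1))) := by
          rw [← mul_assoc, ← pow_succ]
      _ = (tW N G ^ k * s ((tW N G ^ k)⁻¹ * h * tW N G ^ k)) * κ'⁻¹ := by
          rw [h4]
          exact (mul_assoc _ _ _).symm
      _ = s h * (κ * κ'⁻¹) := by rw [e1, mul_assoc]

lemma inr_eq (a : WR N G) : SemidirectProduct.inr a.right = tW N G ^ (a.right.toAdd.val) := by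
  rw [tW_pow, ZMod.natCast_zmod_val]
  rfl

/-- The vertices of the family `thH H`. -/
def V (s : WR N G → WR N G) (g : WR N G) (H : Subgroup G) (m : ZMod N → H) : WR N G :=
  vtx s g 1 (inW N G fun j => (m j : G))

lemma vtx_eq (hs : IsSec c K s (thH (ι := ι) H)) (g : WR N G) (hg : ∃ z, z * c * z⁻¹ = g)
    (a : WR N G) (ha : ∀ j, a.left j ∈ H) (m : ZMod N → H) :
    ∃ κ ∈ KC c K, vtx s g a (inW N G fun j => (m j : G)) = V s g H (pi a ha m) * κ := by
  obtain ⟨z, hz⟩ := hg
  have h1 : ∃ y, y * c * y⁻¹ = (inW N G (fun j => (pi a ha m j : G)))⁻¹ * g *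
      inW N G (fun j => (pi a ha m j : G)) :=
    ⟨(inW N G (fun j => (pi a ha m j : G)))⁻¹ * z, by rw [← hz]; group⟩
  obtain ⟨κ, hκ, e1⟩ := str_pow hs _ h1 a.right.toAdd.val
  refine ⟨κ, hκ, ?_⟩
  unfold V vtx
  rw [mul_inW a ha m, inr_eq, one_mul, mul_assoc _ (s _) κ, ← e1, mul_assoc]
  congr 3
  group

lemma vtx_conj (hs : IsSec c K s (thH (ι := ι) H)) (g : WR N G) (hg : ∃ z, z * c * z⁻¹ = g)
    (a θ : WR N G) : vtx s g a θ * c * (vtx s g a θ)⁻¹ = g := by
  obtain ⟨z, hz⟩ := hg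
  have h1 := hs.sec ((a * θ)⁻¹ * g * (a * θ)) ⟨(a * θ)⁻¹ * z, by rw [← hz]; group⟩
  unfold vtx
  calc a * θ * s ((a * θ)⁻¹ * g * (a * θ)) * c * (a * θ * s ((a * θ)⁻¹ * g * (a * θ)))⁻¹
      = a * θ * (s ((a * θ)⁻¹ * g * (a * θ)) * c * (s ((a * θ)⁻¹ * g * (a * θ)))⁻¹) *
        (a * θ)⁻¹ := by group
    _ = g := by rw [h1]; group

/-- All entries conjugate `c` to `g`. -/
def AllC (c g : WR N G) (l : List (WR N G)) : Prop := ∀ z ∈ l, z * c * z⁻¹ = g

/-- The function does not change if an entry is multiplied by an element of `KC`. -/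
def Iv (c g : WR N G) (K : Set (WR N G)) (F : List (WR N G) → ZMod N) : Prop :=
  ∀ (z k : WR N G) (l l' : List (WR N G)), k ∈ KC c K → AllC c g (l ++ z :: l') →
    F (l ++ (z * k) :: l') = F (l ++ z :: l')

lemma KC_comm {k : WR N G} (hk : k ∈ KC c K) : k * c = c * k := by
  induction hk using Subgroup.closure_induction with
  | mem k hk => exact hk.2
  | one => rw [one_mul, mul_one]
  | mul k k' _ _ h1 h2 => rw [mul_assoc, h2, ← mul_assoc, h1, mul_assoc]
  | inv k _ h =>
    calc k⁻¹ * c = k⁻¹ * (c * k) * k⁻¹ := by group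
      _ = k⁻¹ * (k * c) * k⁻¹ := by rw [h]
      _ = c * k⁻¹ := by group

lemma conj_mul {g z k : WR N G} (hk : k * c = c * k) (hz : z * c * z⁻¹ = g) :
    z * k * c * (z * k)⁻¹ = g := by
  calc z * k * c * (z * k)⁻¹ = z * (k * c) * k⁻¹ * z⁻¹ := by group
    _ = z * c * z⁻¹ := by rw [hk]; group
    _ = g := hz

lemma allC_mul {g z k : WR N G} {l l' : List (WR N G)} (hk : k * c = c * k)
    (h : AllC c g (l ++ z :: l')) : AllC c g (l ++ (z * k) :: l') := by
  intro y hy
  rcases List.mem_append.1 hy with h1 | h1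
  · exact h y (List.mem_append_left _ h1)
  · rcases List.mem_cons.1 h1 with h2 | h2
    · rw [h2]
      exact conj_mul hk (h z (List.mem_append_right _ (List.mem_cons_self ..)))
    · exact h y (List.mem_append_right _ (List.mem_cons_of_mem _ h2))

lemma iv_F {n : ℕ} {F : List (WR N G) → ZMod N} (hF : IsF n c K F) (g : WR N G) :
    Iv c g K F := by
  intro z k l l' hk
  induction hk using Subgroup.closure_induction generalizing z with
  | mem k hk =>
    intro h
    exact hF.rc l l' z k hk.1 fun y hy y' hy' => (h y hy).trans (h y' hy').symm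
  | one => intro _; rw [mul_one]
  | mul k k' h1 _ h2 h3 =>
    intro h
    rw [← mul_assoc, h3 (z * k) (allC_mul (KC_comm h1) h), h2 z h]
  | inv k h1 h2 =>
    intro h
    have h3 := h2 (z * k⁻¹) (allC_mul (KC_comm (Subgroup.inv_mem _ h1)) h)
    rw [inv_mul_cancel_right] at h3
    exact h3.symm

lemma iv_cons {g z : WR N G} {F : List (WR N G) → ZMod N} (hF : Iv c g K F)
    (hz : z * c * z⁻¹ = g) : Iv c g K (fun l => F (z :: l)) := by
  intro y k l l' hk h
  exact hF y k (z :: l) l' hk fun y' hy' => by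
    rcases List.mem_cons.1 hy' with h1 | h1
    · rw [h1]
      exact hz
    · exact h y' h1

/-- The sum over all choices of vertices. -/
def SS (v : (ZMod N → H) → WR N G) : ℕ → (List (WR N G) → ZMod N) → ZMod N
  | 0, F => F []
  | k + 1, F => ∑ m, SS v k fun l => F (v m :: l)

lemma SS_congr {g : WR N G} {v : (ZMod N → H) → WR N G} (hv : ∀ m, v m * c * (v m)⁻¹ = g)
    (k : ℕ) (F F' : List (WR N G) → ZMod N) (h : ∀ l, AllC c g l → F l = F' l) :
    SS v k F = SS v k F' := by
  induction k generalizing F F' with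
  | zero => exact h [] (fun z hz => absurd hz (List.not_mem_nil))
  | succ k ih =>
    refine Finset.sum_congr rfl fun m _ => ih _ _ fun l hl => h _ fun z hz => ?_
    rcases List.mem_cons.1 hz with h1 | h1
    · rw [h1]
      exact hv m
    · exact hl z h1

lemma SS_neg (v : (ZMod N → H) → WR N G) (k : ℕ) (F : List (WR N G) → ZMod N) :
    SS v k (fun l => -F l) = -SS v k F := by
  induction k generalizing F with
  | zero => rfl
  | succ k ih =>
    show ∑ m, SS v k (fun l => -F (v m :: l)) = -∑ m, SS v k fun l => F (v m :: l)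
    rw [← Finset.sum_neg_distrib]
    exact Finset.sum_congr rfl fun m _ => ih _

lemma xs_eq (hs : IsSec c K s (thH (ι := ι) H)) (g : WR N G) (hg : ∃ z, z * c * z⁻¹ = g)
    (l : List (Arr N G ι)) (hl : ∀ r ∈ l, ∀ j, r.w.left j ∈ H) (a : WR N G)
    (ha : ∀ j, a.left j ∈ H) (F : List (WR N G) → ZMod N) (hF : Iv c g K F) :
    xs s (thH (ι := ι) H) g a F l = SS (V s g H) l.length F := by
  induction l generalizing a F with
  | nil => rfl
  | cons r l ih =>
    have hr := hl r (List.mem_cons_self ..)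
    have har : ∀ j, (a * r.w).left j ∈ H := fun j => by
      rw [mul_left_apply]
      exact H.mul_mem (ha j) (hr _)
    have hV : ∀ m, V s g H m * c * (V s g H m)⁻¹ = g := fun m => vtx_conj hs g hg _ _
    show (∑ m : ZMod N → H, xs s (thH H) g (a * r.w)
        (fun l' => F (vtx s g (a * r.w) (inW N G fun j => (m j : G)) :: l')) l) =
      ∑ m : ZMod N → H, SS (V s g H) l.length fun l' => F (V s g H m :: l')
    refine Eq.trans (Finset.sum_congr rfl fun m _ => ?_) (Equiv.sum_comp (pi (a * r.w) har)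
      (fun m => SS (V s g H) l.length fun l' => F (V s g H m :: l')))
    rw [ih (fun r' hr' => hl r' (List.mem_cons_of_mem _ hr')) _ har _
      (iv_cons hF (vtx_conj hs g hg _ _))]
    refine SS_congr hV _ _ _ fun l' hl' => ?_
    obtain ⟨κ, hκ, e1⟩ := vtx_eq hs g hg (a * r.w) har m
    rw [e1]
    refine hF _ κ [] l' hκ fun z hz => ?_
    rcases List.mem_cons.1 hz with h1 | h1
    · rw [h1]
      exact hV _
    · exact hl' z h1

lemma SS_zero (h2 : ∀ h : ZMod N, h + h = 0 → h = 0) {n : ℕ} (hn : 0 < n) {g : WR N G}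
    {v : (ZMod N → H) → WR N G} (hv : ∀ m, v m * c * (v m)⁻¹ = g)
    {F : List (WR N G) → ZMod N} (hF : IsF n c K F) : SS v (n + 1) F = 0 := by
  obtain ⟨k, rfl⟩ : ∃ k, n = k + 1 := ⟨n - 1, by omega⟩
  have h1 : ∀ m m', SS v k (fun l => F (v m :: v m' :: l)) =
      -SS v k (fun l => F (v m' :: v m :: l)) := by
    intro m m'
    rw [← SS_neg]
    refine SS_congr hv _ _ _ fun l hl => ?_
    refine hF.aa [] l (v m) (v m') fun y hy y' hy' => ?_
    have h3 : AllC c g (v m :: v m' :: l) := by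
      intro z hz
      rcases List.mem_cons.1 hz with h4 | h4
      · rw [h4]
        exact hv m
      · rcases List.mem_cons.1 h4 with h5 | h5
        · rw [h5]
          exact hv m'
        · exact hl z h5
    exact (h3 y hy).trans (h3 y' hy').symm
  apply h2
  have h3 : SS v (k + 1 + 1) F = ∑ m, ∑ m', SS v k (fun l => F (v m :: v m' :: l)) := rfl
  have h4 : SS v (k + 1 + 1) F = -SS v (k + 1 + 1) F := by
    rw [h3, ← Finset.sum_neg_distrib, Finset.sum_comm]
    refine Finset.sum_congr rfl fun m _ => ?_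
    rw [← Finset.sum_neg_distrib]
    exact Finset.sum_congr rfl fun m' _ => h1 m' m
  nth_rewrite 1 [h4]
  exact neg_add_cancel _

end main

end FXVM

open FXVM in
theorem specFXV : SpecFXV.{u} := by
  intro N n _ hn G _ ι _ _ H _ h2 c K s hs F hF l hl
  refine Xe_zero (Q := fun r => ∀ j, r.w.left j ∈ H) l hl _ fun t ht => ?_
  unfold XA
  split_ifs with h
  · obtain ⟨h1, -, h3⟩ := h
    rw [xs_eq hs _ h3 t ht 1 (fun j => H.one_mem) F (iv_F hF _), h1]
    exact SS_zero h2 hn (fun m => vtx_conj hs _ h3 _ _) hF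
  · rfl

end Pool.Agent.Lib.MPb6f35e.KA
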