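import Pool.Agent.Lib.MP_b6f35e_al.KA.SpecA

/-!
# Rational K-theory in all degrees (MP_b6f35e_al): module GG
-/

set_option autoImplicit false

noncomputable section

namespace Pool.Agent.Lib.MPb6f35e.KA

universe u v w x

namespace GGM

section basics

variable {X : Type u} {M : Type v} [AddCommGroup M]

theorem alt_congr (P : X → Prop) :
    ∀ (l : List X) (_ : ∀ x ∈ l, P x) (F F' : List X → M)
      (_ : ∀ l', (∀ x ∈ l', P x) → F l' = F' l'), alt F l = alt F' l
  | [], _, _, _, _ => rfl
  | x :: l, hl, F, F', h => by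
    rw [alt, alt, h l (fun y hy => hl y (List.mem_cons_of_mem _ hy))]
    congr 1
    refine alt_congr P l (fun y hy => hl y (List.mem_cons_of_mem _ hy)) _ _ (fun l' hl' => ?_)
    refine h _ (fun y hy => ?_)
    rcases List.mem_cons.1 hy with rfl | hy
    · exact hl _ List.mem_cons_self
    · exact hl' _ hy

theorem alt_add : ∀ (l : List X) (F F' : List X → M),
    alt (fun l => F l + F' l) l = alt F l + alt F' l
  | [], _, _ => (add_zero _).symm
  | x :: l, F, F' => by
    rw [alt, alt, alt, alt_add l]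
    abel

theorem alt_sub : ∀ (l : List X) (F F' : List X → M),
    alt (fun l => F l - F' l) l = alt F l - alt F' l
  | [], _, _ => (sub_zero _).symm
  | x :: l, F, F' => by
    rw [alt, alt, alt, alt_sub l]
    abel

theorem alt_neg : ∀ (l : List X) (F : List X → M),
    alt (fun l => - F l) l = - alt F l
  | [], _ => neg_zero.symm
  | x :: l, F => by
    rw [alt, alt, alt_neg l]
    abel

theorem alt_alt : ∀ (l : List X) (F : List X → M), alt (alt F) l = 0
  | [], _ => rfl
  | x :: l, F => by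
    have h1 : (fun l' => alt F (x :: l')) = fun l' => F l' - alt (fun l'' => F (x :: l'')) l' := by
      funext l'
      rw [alt]
    rw [alt, h1, alt_sub, alt_alt l]
    abel

theorem alt_sign : ∀ (l : List X) (F : List X → M),
    alt (fun l => (-1 : ℤ) ^ (l.length + 1) • F l) l = (-1 : ℤ) ^ l.length • alt F l
  | [], _ => by
    rw [alt, alt, smul_zero]
  | x :: l, F => by
    have h1 : (fun l' : List X => (-1 : ℤ) ^ ((x :: l').length + 1) • F (x :: l')) =
        fun l' => - ((-1 : ℤ) ^ (l'.length + 1) • F (x :: l')) := by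
      funext l'
      rw [List.length_cons, pow_succ _ (l'.length + 1), mul_neg_one, neg_smul]
    rw [alt, h1, alt_neg, alt_sign l, alt, List.length_cons, pow_succ, mul_neg_one, neg_smul,
      neg_smul, smul_sub]
    abel

theorem alt_two (F : List X → M) (x y : X) (l : List X) :
    alt F (x :: y :: l) = F (y :: l) - F (x :: l) + alt (fun l' => F (x :: y :: l')) l := by
  rw [alt, alt]
  abel

end basics

section products

variable {X : Type u} {Ω : Type v} [Ring Ω]

theorem ss_add (σ : ℤ) (w : X → Ω) (r r' : Ω) :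
    ∀ l : List X, ss σ w (r + r') l = ss σ w r l + ss σ w r' l
  | [] => (add_zero _).symm
  | [_] => rfl
  | x :: y :: l => by
    rw [ss, ss, ss, ss_add σ w r r' (y :: l), mul_add, smul_add, add_mul]
    abel

theorem ss_neg (σ : ℤ) (w : X → Ω) (r : Ω) :
    ∀ l : List X, ss σ w (-r) l = - ss σ w r l
  | [] => neg_zero.symm
  | [_] => rfl
  | x :: y :: l => by
    rw [ss, ss, ss_neg σ w r (y :: l), mul_neg, smul_neg, neg_mul]
    abel

theorem ss_sub (σ : ℤ) (w : X → Ω) (r r' : Ω) (l : List X) :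
    ss σ w (r - r') l = ss σ w r l - ss σ w r' l := by
  rw [sub_eq_add_neg, ss_add, ss_neg, ← sub_eq_add_neg]

theorem so_add (σ : ℤ) (w : X → Ω) (r r' : Ω) :
    ∀ l : List X, so σ w (r + r') l = so σ w r l + so σ w r' l
  | [] => (add_zero _).symm
  | [x] => add_mul _ _ _
  | x :: y :: l => by
    rw [so, so, so, so_add σ w r r' (y :: l), mul_add, smul_add, add_mul, add_mul]
    abel

variable {H : Type w} [AddCommGroup H]

theorem gg_add (a : Ω →+ H) (w : X → Ω) :
    ∀ (l : List X) (σ : ℤ) (r r' : Ω), gg a w σ (r + r') l = gg a w σ r l + gg a w σ r' l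
  | [], _, _, _ => (add_zero _).symm
  | [_], _, _, _ => (add_zero _).symm
  | x :: y :: l, σ, r, r' => by
    rw [gg, gg, gg, add_mul r r' (w y - w x), gg_add a w (y :: l), so_add, add_mul r r' (w x),
      ss_add, add_mul, add_mul, map_add, map_add]
    rw [add_sub_add_comm, smul_add]
    abel

end products

section main

variable {X : Type u} {Ω : Type v} [Ring Ω] {H : Type w} [AddCommGroup H]

/-- the right side -/
def T (a : Ω →+ H) (w : X → Ω) (σ : ℤ) (r : Ω) (l : List X) : H := a (ss σ w r l * fl w l)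

theorem T_sub (a : Ω →+ H) (w : X → Ω) (σ : ℤ) (r r' : Ω) (l : List X) :
    T a w σ (r - r') l = T a w σ r l - T a w σ r' l := by
  rw [T, T, T, ss_sub, sub_mul, map_sub]

theorem fl_one (w : X → Ω) (x : X) : fl w [x] = 0 := by
  rw [fl, lst, sub_self]

/-- the second term of `Zf` -/
def U (a : Ω →+ H) (w : X → Ω) (σ : ℤ) (r : Ω) : List X → H
  | [] => 0
  | x :: l => T a w (-σ) (r * w x) (x :: l)

/-- the recursive part -/
def G1 (a : Ω →+ H) (w : X → Ω) (σ : ℤ) (r : Ω) : List X → H
  | [] => 0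
  | [_] => 0
  | x :: y :: l => gg a w (-σ) (r * (w y - w x)) (y :: l)

theorem gg_eq (a : Ω →+ H) (w : X → Ω) (σ : ℤ) (r : Ω) : ∀ l : List X,
    gg a w σ r l = (-1 : ℤ) ^ (l.length + 1) • (a (so σ w r l * fl w l) - U a w σ r l) +
      G1 a w σ r l
  | [] => by
    rw [gg, G1, U, so, zero_mul, map_zero, sub_zero, smul_zero, add_zero]
  | [x] => by
    rw [gg, G1, U, T, fl_one, mul_zero, mul_zero, map_zero, sub_zero, smul_zero, add_zero]
  | x :: y :: l => by
    rw [gg, G1, U, T, List.length_cons (a := x), pow_add, pow_add, pow_one, mul_assoc,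
      neg_mul_neg, one_mul, mul_one]

theorem alt_T (hTB : SpecTB.{u, v, w}) (ep : Ω →+* Ω)
    (Z : Subring Ω) (a : Ω →+ H) (ha : IsGT ep Z a) (w : X → Ω)
    (hw : ∀ x, ep (w x) = - w x) (σ : ℤ) (hσ : σ = 1 ∨ σ = -1) (r : Ω) (hr : r ∈ Z)
    (her : ep r = σ • r) (l : List X) (hl : ∀ x ∈ l, w x ∈ Z) : alt (T a w σ r) l = 0 := by
  have h1 : alt (T a w σ r) l = alt (alt (fun l => a (so σ w r l * fl w l))) l :=
    alt_congr (fun x => w x ∈ Z) l hl _ _ (fun l' hl' =>
      (hTB.main X Ω H ep Z a ha w hw σ hσ r hr her l' hl').symm)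
  rw [h1, alt_alt]

theorem alt_U (hTB : SpecTB.{u, v, w}) (ep : Ω →+* Ω)
    (Z : Subring Ω) (a : Ω →+ H) (ha : IsGT ep Z a) (w : X → Ω)
    (hw : ∀ x, ep (w x) = - w x) (σ : ℤ) (hσ : σ = 1 ∨ σ = -1) (r : Ω) (hr : r ∈ Z)
    (her : ep r = σ • r) (x y : X) (l : List X) (hl : ∀ z ∈ x :: y :: l, w z ∈ Z) :
    alt (U a w σ r) (x :: y :: l) = T a w (-σ) (r * (w y - w x)) (y :: l) := by
  have h1 := alt_T hTB ep Z a ha w hw (-σ) (by rcases hσ with rfl | rfl <;> simp) (r * w x)
    (Z.mul_mem hr (hl x List.mem_cons_self)) (by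
      rw [map_mul, hw, her, smul_mul_assoc, mul_neg, smul_neg, neg_smul]) (x :: y :: l) hl
  rw [alt] at h1
  have h2 : (fun l' => U a w σ r (x :: l')) =
      fun l' => T a w (-σ) (r * w x) (x :: l') := rfl
  rw [alt, h2, ← sub_eq_zero.1 h1, U, mul_sub, T_sub]

theorem main (hTB : SpecTB.{u, v, w}) (ep : Ω →+* Ω)
    (Z : Subring Ω) (a : Ω →+ H) (ha : IsGT ep Z a) (w : X → Ω)
    (hw : ∀ x, ep (w x) = - w x) :
    ∀ (l : List X) (_ : ∀ x ∈ l, w x ∈ Z) (σ : ℤ) (_ : σ = 1 ∨ σ = -1) (r : Ω) (_ : r ∈ Z)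
      (_ : ep r = σ • r), alt (gg a w σ r) l = (-1 : ℤ) ^ l.length • T a w σ r l
  | [], _, _, _, _, _, _ => by
    rw [alt, T, fl, mul_zero, map_zero, smul_zero]
  | [x], _, _, _, _, _, _ => by
    rw [alt, alt, gg, T, fl_one, mul_zero, map_zero, smul_zero, sub_zero]
  | [x, y], hl, σ, hσ, r, hr, her => by
    have hx := hl x List.mem_cons_self
    have hy := hl y (List.mem_cons_of_mem _ List.mem_cons_self)
    set Δ := w y - w x with hΔ
    have hΔZ : Δ ∈ Z := Z.sub_mem hy hx
    have hep : ep Δ = - Δ := by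
      rw [hΔ, map_sub, hw, hw]
      abel
    have h1 : a (Δ * (r * Δ)) = - (σ • a (r * Δ * Δ)) := by
      rw [ha.odd Δ hΔZ hep (r * Δ), map_mul ep r Δ, her, hep, smul_mul_assoc, mul_neg, smul_neg,
        neg_mul, map_neg, smul_mul_assoc, map_zsmul]
    have h2 : fl w [x, y] = - Δ := by
      rw [fl, lst, lst, hΔ]
      abel
    have hσ2 : σ * σ = 1 := by rcases hσ with rfl | rfl <;> norm_num
    have h3 : T a w σ r [x, y] = 0 := by
      rw [T, h2, ss, ss, pw, pw, ← hΔ, mul_one, add_mul, smul_mul_assoc, map_add, map_zsmul,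
        mul_neg, mul_neg, map_neg, map_neg, mul_assoc Δ r Δ, h1, neg_neg, smul_smul, hσ2, one_smul]
      abel
    rw [h3, smul_zero, alt_two, gg, gg, alt]
    abel
  | x :: y :: z :: l, hl, σ, hσ, r, hr, her => by
    have hx := hl x List.mem_cons_self
    have hy := hl y (List.mem_cons_of_mem _ List.mem_cons_self)
    have hl' : ∀ t ∈ y :: z :: l, w t ∈ Z := fun t ht => hl t (List.mem_cons_of_mem _ ht)
    set Δ := w y - w x with hΔ
    have hΔZ : Δ ∈ Z := Z.sub_mem hy hx
    have hep : ep Δ = - Δ := by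
      rw [hΔ, map_sub, hw, hw]
      abel
    have hσ' : -σ = 1 ∨ -σ = -1 := by rcases hσ with rfl | rfl <;> simp
    have her' : ep (r * Δ) = (-σ) • (r * Δ) := by
      rw [map_mul, her, hep, smul_mul_assoc, mul_neg, smul_neg, neg_smul]
    have ih := main hTB ep Z a ha w hw (y :: z :: l) hl' (-σ) hσ' (r * Δ) (Z.mul_mem hr hΔZ) her'
    have h1 : gg a w σ r = fun l => (-1 : ℤ) ^ (l.length + 1) •
        (a (so σ w r l * fl w l) - U a w σ r l) + G1 a w σ r l := funext (gg_eq a w σ r)
    have h2 := hTB.main X Ω H ep Z a ha w hw σ hσ r hr her _ hl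
    have h3 := alt_U hTB ep Z a ha w hw σ hσ r hr her x y (z :: l) hl
    have h4 : alt (G1 a w σ r) (x :: y :: z :: l) =
        - alt (gg a w (-σ) (r * Δ)) (y :: z :: l) := by
      have h5 : (fun l' => G1 a w σ r (x :: y :: l')) =
          fun l' => gg a w (-σ) (r * Δ) (y :: l') := rfl
      have h6 : r * (w z - w x) = r * (w z - w y) + r * Δ := by
        rw [hΔ, ← mul_add]
        congr 1
        abel
      have h7 : alt (gg a w (-σ) (r * Δ)) (y :: z :: l) = gg a w (-σ) (r * Δ) (z :: l) -
          alt (fun l' => gg a w (-σ) (r * Δ) (y :: l')) (z :: l) := rfl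
      rw [alt_two, h5, G1, G1, h6, gg_add, h7]
      abel
    rw [h1, alt_add, alt_sign, alt_sub, h2, h3, h4, ih, List.length_cons (a := x), pow_succ,
      mul_neg_one, neg_smul, neg_smul, smul_sub, T]
    abel

end main

section conj

variable {X : Type u} {Ω : Type v} [Ring Ω] {Y : Type x}

theorem ss_conj (hPW : SpecPW.{u, v, x}) (w : X → Ω) (w' : Y → Ω) (f : X → Y) (c g g' : Ω)
    (hg : g' * g = 1) (hg' : g * g' = 1) (P : X → Prop)
    (hf : ∀ x, P x → w' (f x) = c + g * w x * g') (σ : ℤ) (r : Ω) :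
    ∀ (l : List X) (_ : ∀ x ∈ l, P x),
      ss σ w' (g * r * g') (l.map f) = g * ss σ w r l * g'
  | [], _ => by
    rw [List.map_nil, ss, ss, mul_zero, zero_mul]
  | [_], _ => rfl
  | x :: y :: l, hl => by
    have hx := hf x (hl x List.mem_cons_self)
    have hy := hf y (hl y (List.mem_cons_of_mem _ List.mem_cons_self))
    have ih := ss_conj hPW w w' f c g g' hg hg' P hf σ r (y :: l)
      (fun t ht => hl t (List.mem_cons_of_mem _ ht))
    have hp := hPW.conj X Ω w Y w' f c g g' hg hg' P hf (x :: y :: l) hl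
    rw [List.map_cons, List.map_cons] at hp ⊢
    rw [List.map_cons] at ih
    have hd : w' (f y) - w' (f x) = g * (w y - w x) * g' := by
      rw [hx, hy]
      noncomm_ring
    rw [ss, ih, hp, hd, ss]
    have e1 : g * r * g' * (g * pw w (x :: y :: l) * g') = g * (r * pw w (x :: y :: l)) * g' := by
      calc _ = g * r * (g' * g) * pw w (x :: y :: l) * g' := by noncomm_ring
        _ = _ := by rw [hg]; noncomm_ring
    have e2 : g * (w y - w x) * g' * (g * ss σ w r (y :: l) * g') =
        g * ((w y - w x) * ss σ w r (y :: l)) * g' := by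
      calc _ = g * (w y - w x) * (g' * g) * ss σ w r (y :: l) * g' := by noncomm_ring
        _ = _ := by rw [hg]; noncomm_ring
    rw [e1, e2, mul_add, add_mul, mul_smul_comm, smul_mul_assoc]

theorem so_conj (hPW : SpecPW.{u, v, x}) (w : X → Ω) (w' : Y → Ω) (f : X → Y) (c g g' : Ω)
    (hg : g' * g = 1) (hg' : g * g' = 1) (P : X → Prop)
    (hf : ∀ x, P x → w' (f x) = c + g * w x * g') (σ : ℤ) (r : Ω) :
    ∀ (l : List X) (_ : ∀ x ∈ l, P x), so σ w' (g * r * g') (l.map f) =
      g * so σ w r l * g' + ss (-σ) w' (g * r * g' * c) (l.map f)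
  | [], _ => by
    rw [List.map_nil, so, so, ss, mul_zero, zero_mul, add_zero]
  | [x], hl => by
    have hx := hf x (hl x List.mem_cons_self)
    rw [List.map_cons, List.map_nil, so, so, ss, hx]
    calc _ = g * r * g' * c + g * r * (g' * g) * w x * g' := by noncomm_ring
      _ = _ := by rw [hg]; noncomm_ring
  | x :: y :: l, hl => by
    have hx := hf x (hl x List.mem_cons_self)
    have hy := hf y (hl y (List.mem_cons_of_mem _ List.mem_cons_self))
    have ih := so_conj hPW w w' f c g g' hg hg' P hf σ r (y :: l)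
      (fun t ht => hl t (List.mem_cons_of_mem _ ht))
    have hp := hPW.conj X Ω w Y w' f c g g' hg hg' P hf (x :: y :: l) hl
    rw [List.map_cons, List.map_cons] at hp ⊢
    rw [List.map_cons] at ih
    have hd : w' (f y) - w' (f x) = g * (w y - w x) * g' := by
      rw [hx, hy]
      noncomm_ring
    rw [so, ih, hp, so, ss, hp, hd, hx]
    have e1 : g * r * g' * (c + g * w x * g') * (g * pw w (x :: y :: l) * g') =
        g * (r * w x * pw w (x :: y :: l)) * g' +
          g * r * g' * c * (g * pw w (x :: y :: l) * g') := by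
      calc _ = g * r * g' * c * (g * pw w (x :: y :: l) * g') +
            g * r * (g' * g) * w x * (g' * g) * pw w (x :: y :: l) * g' := by noncomm_ring
        _ = _ := by rw [hg]; noncomm_ring
    have e2 : g * (w y - w x) * g' * (g * so σ w r (y :: l) * g' +
          ss (-σ) w' (g * r * g' * c) (f y :: l.map f)) =
        g * ((w y - w x) * so σ w r (y :: l)) * g' +
          g * (w y - w x) * g' * ss (-σ) w' (g * r * g' * c) (f y :: l.map f) := by
      calc _ = g * (w y - w x) * (g' * g) * so σ w r (y :: l) * g' +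
          g * (w y - w x) * g' * ss (-σ) w' (g * r * g' * c) (f y :: l.map f) := by noncomm_ring
        _ = _ := by rw [hg]; noncomm_ring
    have e3 : g * (r * w x * pw w (x :: y :: l) - σ • ((w y - w x) * so σ w r (y :: l))) * g' =
        g * (r * w x * pw w (x :: y :: l)) * g' -
          σ • (g * ((w y - w x) * so σ w r (y :: l)) * g') := by
      rw [mul_sub g, sub_mul _ _ g', mul_smul_comm, smul_mul_assoc]
    rw [e1, e2, e3, smul_add, neg_smul]
    abel

theorem lst_map (f : X → Y) : ∀ (l : List X) (x : X), lst (f x) (l.map f) = f (lst x l)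
  | [], _ => rfl
  | y :: l, _ => by
    rw [List.map_cons, lst, lst, lst_map f l]

theorem lst_mem (P : X → Prop) : ∀ (l : List X) (x : X) (_ : ∀ t ∈ x :: l, P t), P (lst x l)
  | [], x, h => h x List.mem_cons_self
  | y :: l, _, h => lst_mem P l y (fun t ht => h t (List.mem_cons_of_mem _ ht))

theorem fl_conj (w : X → Ω) (w' : Y → Ω) (f : X → Y) (c g g' : Ω) (P : X → Prop)
    (hf : ∀ x, P x → w' (f x) = c + g * w x * g') (l : List X) (hl : ∀ x ∈ l, P x) :
    fl w' (l.map f) = g * fl w l * g' := by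
  cases l with
  | nil => rw [List.map_nil, fl, fl, mul_zero, zero_mul]
  | cons x l =>
    rw [List.map_cons, fl, fl, lst_map, hf x (hl x List.mem_cons_self),
      hf _ (lst_mem P l x hl)]
    noncomm_ring

variable {H : Type w} [AddCommGroup H]

theorem gg_conj (hPW : SpecPW.{u, v, x}) (ep : Ω →+* Ω) (Z : Subring Ω) (a : Ω →+ H)
    (ha : IsGT ep Z a) (w : X → Ω) (w' : Y → Ω) (f : X → Y) (c g g' : Ω)
    (hg : g' * g = 1) (hg' : g * g' = 1) (hZ : g' ∈ Z) (he : ep g' = g') (P : X → Prop)
    (hf : ∀ x, P x → w' (f x) = c + g * w x * g') :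
    ∀ (l : List X) (_ : ∀ x ∈ l, P x) (σ : ℤ) (r : Ω),
      gg a w' σ (g * r * g') (l.map f) = gg a w σ r l
  | [], _, _, _ => rfl
  | [_], _, _, _ => rfl
  | x :: y :: l, hl, σ, r => by
    have hx := hf x (hl x List.mem_cons_self)
    have hy := hf y (hl y (List.mem_cons_of_mem _ List.mem_cons_self))
    have ih := gg_conj hPW ep Z a ha w w' f c g g' hg hg' hZ he P hf (y :: l)
      (fun t ht => hl t (List.mem_cons_of_mem _ ht)) (-σ) (r * (w y - w x))
    have hso := so_conj hPW w w' f c g g' hg hg' P hf σ r _ hl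
    have hss := ss_conj hPW w w' f c g g' hg hg' P hf (-σ) (r * w x) _ hl
    have hfl := fl_conj w w' f c g g' P hf _ hl
    rw [List.map_cons, List.map_cons] at hso hss hfl ⊢
    rw [List.map_cons] at ih
    have hd : w' (f y) - w' (f x) = g * (w y - w x) * g' := by
      rw [hx, hy]
      noncomm_ring
    have e1 : g * r * g' * (w' (f y) - w' (f x)) = g * (r * (w y - w x)) * g' := by
      rw [hd]
      calc _ = g * r * (g' * g) * (w y - w x) * g' := by noncomm_ring
        _ = _ := by rw [hg]; noncomm_ring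
    have e2 : g * r * g' * w' (f x) = g * r * g' * c + g * (r * w x) * g' := by
      rw [hx]
      calc _ = g * r * g' * c + g * r * (g' * g) * w x * g' := by noncomm_ring
        _ = _ := by rw [hg]; noncomm_ring
    have e3 : ∀ q : Ω, a (g * q * g' * (g * fl w (x :: y :: l) * g')) =
        a (q * fl w (x :: y :: l)) := by
      intro q
      have h1 : g * q * g' * (g * fl w (x :: y :: l) * g') =
          g * (q * fl w (x :: y :: l)) * g' := by
        calc _ = g * q * (g' * g) * fl w (x :: y :: l) * g' := by noncomm_ring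
          _ = _ := by rw [hg]; noncomm_ring
      rw [h1, ← ha.even g' hZ he (g * (q * fl w (x :: y :: l))), ← mul_assoc, hg, one_mul]
    rw [gg, e1, ih, hso, hfl, e2, ss_add, hss, add_mul, add_mul, map_add, map_add, e3, e3, gg,
      List.length_cons, List.length_cons, List.length_map]
    congr 2
    abel

end conj

end GGM

theorem specGG (_ : SpecALT.{u, w, w}) (hPW : SpecPW.{u, v, x}) (hTB : SpecTB.{u, v, w}) :
    SpecGG.{u, v, w, x} where
  main := by
    intro X Ω _ H _ ep Z a ha w hw σ hσ r hr her l hl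
    exact GGM.main hTB ep Z a ha w hw l hl σ hσ r hr her
  add := by
    intro X Ω _ H _ a w σ r r' l
    exact GGM.gg_add a w l σ r r'
  conj := by
    intro X Ω _ H _ ep Z a ha w Y w' f c g g' hg hg' hZ he P hf σ r l hl
    exact GGM.gg_conj hPW ep Z a ha w w' f c g g' hg hg' hZ he P hf l hl σ r

end Pool.Agent.Lib.MPb6f35e.KA
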