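import Pool.Agent.Lib.MP_b6f35e_al.KA.SpecB

/-!
# Module GIN (MP_b6f35e_al): the cochain `g`
-/

set_option autoImplicit false

noncomputable section

namespace Pool.Agent.Lib.MPb6f35e.KA

open Pool.Agent.Lib.MPb6f35e.WH Pool.Agent.Lib.MPb6f35e.K2

universe u v w x y

namespace GINM

/-! ### alternating sums -/

section

variable {X : Type u} {Y : Type y} {M : Type v} {M' : Type w} [AddCommGroup M] [AddCommGroup M']

lemma alt_add (F F' : List X → M) (l : List X) :
    alt (fun l => F l + F' l) l = alt F l + alt F' l := by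
  induction l generalizing F F' with
  | nil => simp [alt]
  | cons x l ih => simp only [alt]; rw [ih]; abel

lemma alt_sub (F F' : List X → M) (l : List X) :
    alt (fun l => F l - F' l) l = alt F l - alt F' l := by
  induction l generalizing F F' with
  | nil => simp [alt]
  | cons x l ih => simp only [alt]; rw [ih]; abel

lemma alt_hom (f : M →+ M') (F : List X → M) (l : List X) :
    alt (fun l => f (F l)) l = f (alt F l) := by
  induction l generalizing F with
  | nil => simp [alt]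
  | cons x l ih => simp only [alt]; rw [ih, map_sub]

lemma alt_alt (F : List X → M) (l : List X) : alt (alt F) l = 0 := by
  induction l generalizing F with
  | nil => simp [alt]
  | cons x l ih =>
    have h : (fun l' => alt F (x :: l')) = fun l' => F l' - alt (fun l'' => F (x :: l'')) l' := by
      funext l'; simp only [alt]
    simp only [alt]
    rw [show alt (fun l' => F l' - alt (fun l'' => F (x :: l'')) l') l
      = alt F l - alt (fun l' => alt (fun l'' => F (x :: l'')) l') l from alt_sub _ _ _]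
    rw [show alt (fun l' => alt (fun l'' => F (x :: l'')) l') l = 0 from ih _]
    abel

lemma alt_congr {P : X → Prop} {F F' : List X → M} (h : ∀ l, (∀ x ∈ l, P x) → F l = F' l)
    (l : List X) (hl : ∀ x ∈ l, P x) : alt F l = alt F' l := by
  induction l generalizing F F' with
  | nil => simp [alt]
  | cons x l ih =>
    simp only [alt]
    rw [h l (fun z hz => hl z (List.mem_cons_of_mem _ hz)),
      ih (F := fun l' => F (x :: l')) (F' := fun l' => F' (x :: l'))
        (fun l' hl' => h _ (fun z hz => by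
          rcases List.mem_cons.1 hz with rfl | hz
          · exact hl _ List.mem_cons_self
          · exact hl' z hz))
        (fun z hz => hl z (List.mem_cons_of_mem _ hz))]

lemma alt_zero' (l : List X) : alt (fun _ : List X => (0 : M)) l = 0 := by
  induction l with
  | nil => simp [alt]
  | cons x l ih => simp only [alt]; rw [ih]; simp

lemma alt_map (f : X → Y) (F : List Y → M) (l : List X) :
    alt F (l.map f) = alt (fun l => F (l.map f)) l := by
  induction l generalizing F with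
  | nil => simp [alt]
  | cons x l ih => simp only [alt, List.map_cons]; rw [ih]

end

/-! ### maps of lists -/

section

variable {X : Type u} {Y : Type y} {Ω : Type v} [Ring Ω] {H : Type w} [AddCommGroup H]

lemma pw_map (f : X → Y) (w : Y → Ω) : ∀ l : List X, pw w (l.map f) = pw (fun x => w (f x)) l
  | [] => rfl
  | [_] => rfl
  | x :: y :: l => by
    have ih := pw_map f w (y :: l)
    simp only [List.map_cons] at ih ⊢
    simp only [pw]
    rw [ih]

lemma rr_map (f : X → Y) (w r : Y → Ω) :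
    ∀ l : List X, rr w r (l.map f) = rr (fun x => w (f x)) (fun x => r (f x)) l
  | [] => rfl
  | [_] => rfl
  | x :: y :: l => by
    have ih := rr_map f w r (y :: l)
    have h := pw_map f w (x :: y :: l)
    simp only [List.map_cons] at ih h ⊢
    simp only [rr]
    rw [ih, h]

lemma ss_map (f : X → Y) (σ : ℤ) (w : Y → Ω) (r : Ω) :
    ∀ l : List X, ss σ w r (l.map f) = ss σ (fun x => w (f x)) r l
  | [] => rfl
  | [_] => rfl
  | x :: y :: l => by
    have ih := ss_map f σ w r (y :: l)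
    have h := pw_map f w (x :: y :: l)
    simp only [List.map_cons] at ih h ⊢
    simp only [ss]
    rw [ih, h]

lemma so_map (f : X → Y) (σ : ℤ) (w : Y → Ω) (r : Ω) :
    ∀ l : List X, so σ w r (l.map f) = so σ (fun x => w (f x)) r l
  | [] => rfl
  | [_] => rfl
  | x :: y :: l => by
    have ih := so_map f σ w r (y :: l)
    have h := pw_map f w (x :: y :: l)
    simp only [List.map_cons] at ih h ⊢
    simp only [so]
    rw [ih, h]

lemma lst_map (f : X → Y) (x : X) (l : List X) : lst (f x) (l.map f) = f (lst x l) := by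
  induction l generalizing x with
  | nil => rfl
  | cons z l ih => simp only [List.map_cons, lst]; exact ih z

lemma fl_map (f : X → Y) (w : Y → Ω) (l : List X) :
    fl w (l.map f) = fl (fun x => w (f x)) l := by
  cases l with
  | nil => rfl
  | cons x l => simp only [List.map_cons, fl]; rw [lst_map]

lemma g0E_map (f : X → Y) (w r : Y → Ω) (l : List X) :
    g0E w r (l.map f) = g0E (fun x => w (f x)) (fun x => r (f x)) l := by
  cases l with
  | nil => rfl
  | cons x l =>
    have h := rr_map f w r (x :: l)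
    simp only [List.map_cons] at h ⊢
    simp only [g0E]
    rw [h, lst_map, List.length_map]

lemma gg_map (a : Ω →+ H) (f : X → Y) (w : Y → Ω) :
    ∀ (l : List X) (σ : ℤ) (r : Ω), gg a w σ r (l.map f) = gg a (fun x => w (f x)) σ r l
  | [], _, _ => rfl
  | [_], _, _ => rfl
  | x :: y :: l, σ, r => by
    have ih := gg_map a f w (y :: l) (-σ) (r * (w (f y) - w (f x)))
    have h1 := so_map f σ w r (x :: y :: l)
    have h2 := ss_map f (-σ) w (r * w (f x)) (x :: y :: l)
    have h3 := fl_map f w (x :: y :: l)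
    simp only [List.map_cons] at ih h1 h2 h3 ⊢
    simp only [gg]
    rw [ih, h1, h2, h3]
    simp only [List.length_cons, List.length_map]

/-- The function `go` for a function `r`. -/
def go' (a : Ω →+ H) (w r : X → Ω) : List X → H
  | [] => 0
  | x :: l => gg a w 1 (r x) (x :: l)

/-- The function `g` for a function `r`. -/
def gT (a : Ω →+ H) (w r : X → Ω) (l : List X) : H := a (g0E w r l) - alt (go' a w r) l

lemma gT_map (a : Ω →+ H) (f : X → Y) (w r : Y → Ω) (l : List X) :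
    gT a w r (l.map f) = gT a (fun x => w (f x)) (fun x => r (f x)) l := by
  unfold gT
  rw [g0E_map, alt_map]
  have h : (fun l : List X => go' a w r (l.map f)) =
      go' a (fun x => w (f x)) (fun x => r (f x)) := by
    funext l
    cases l with
    | nil => rfl
    | cons x l =>
      have h := gg_map a f w (x :: l) 1 (r (f x))
      simp only [List.map_cons] at h ⊢
      simp only [go']
      rw [h]
  rw [h]

lemma rr_add (w r r' : X → Ω) :
    ∀ l : List X, rr w (fun x => r x + r' x) l = rr w r l + rr w r' l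
  | [] => by simp [rr]
  | [_] => rfl
  | x :: y :: l => by
    have ih := rr_add w r r' (y :: l)
    simp only [rr]
    rw [ih]
    noncomm_ring

lemma g0E_add (w r r' : X → Ω) (l : List X) :
    g0E w (fun x => r x + r' x) l = g0E w r l + g0E w r' l := by
  cases l with
  | nil => simp [g0E]
  | cons x l =>
    simp only [g0E]
    rw [rr_add, add_mul, mul_add, smul_add]
    abel

lemma gT_add (hadd : ∀ (w : X → Ω) (σ : ℤ) (r r' : Ω) (a : Ω →+ H) (l : List X),
    gg a w σ (r + r') l = gg a w σ r l + gg a w σ r' l) (a : Ω →+ H) (w r r' : X → Ω)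
    (l : List X) : gT a w (fun x => r x + r' x) l = gT a w r l + gT a w r' l := by
  unfold gT
  rw [g0E_add, map_add]
  have h : go' a w (fun x => r x + r' x) = fun l => go' a w r l + go' a w r' l := by
    funext l
    cases l with
    | nil => simp [go']
    | cons x l => simp only [go']; rw [hadd]
  rw [h, alt_add]
  abel

/-! ### conjugation -/

lemma pw_conj (w : X → Ω) (c g g' : Ω) (h : g' * g = 1) (h' : g * g' = 1) :
    ∀ l : List X, pw (fun x => c + g * w x * g') l = g * pw w l * g'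
  | [] => by simp [pw]
  | [_] => by simp [pw, h']
  | x :: y :: l => by
    have ih := pw_conj w c g g' h h' (y :: l)
    simp only [pw]
    rw [ih]
    have e : (c + g * w y * g' - (c + g * w x * g')) = g * (w y - w x) * g' := by noncomm_ring
    rw [e]
    calc g * (w y - w x) * g' * (g * pw w (y :: l) * g')
        = g * (w y - w x) * (g' * g) * pw w (y :: l) * g' := by simp only [mul_assoc]
      _ = g * ((w y - w x) * pw w (y :: l)) * g' := by rw [h]; simp only [mul_assoc, one_mul]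

lemma rr_conj (w r : X → Ω) (c g g' : Ω) (h : g' * g = 1) (h' : g * g' = 1) :
    ∀ l : List X, rr (fun x => c + g * w x * g') (fun x => g * r x * g') l = g * rr w r l * g'
  | [] => by simp [rr]
  | [_] => by simp [rr]
  | x :: y :: l => by
    have ih := rr_conj w r c g g' h h' (y :: l)
    have hp := pw_conj w c g g' h h' (x :: y :: l)
    simp only [rr]
    rw [ih, hp]
    have e : (c + g * w y * g' - (c + g * w x * g')) = g * (w y - w x) * g' := by noncomm_ring
    rw [e]
    have e1 : g * r x * g' * (g * pw w (x :: y :: l) * g') = g * (r x * pw w (x :: y :: l)) * g' := by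
      calc g * r x * g' * (g * pw w (x :: y :: l) * g')
          = g * r x * (g' * g) * pw w (x :: y :: l) * g' := by simp only [mul_assoc]
        _ = g * (r x * pw w (x :: y :: l)) * g' := by rw [h]; simp only [mul_assoc, one_mul]
    have e2 : g * (w y - w x) * g' * (g * rr w r (y :: l) * g') =
        g * ((w y - w x) * rr w r (y :: l)) * g' := by
      calc g * (w y - w x) * g' * (g * rr w r (y :: l) * g')
          = g * (w y - w x) * (g' * g) * rr w r (y :: l) * g' := by simp only [mul_assoc]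
        _ = g * ((w y - w x) * rr w r (y :: l)) * g' := by rw [h]; simp only [mul_assoc, one_mul]
    rw [e1, e2]
    noncomm_ring

/-- `rr` of a constant function. -/
lemma rr_const (w : X → Ω) (c : Ω) : ∀ l : List X, rr w (fun _ => c) l = ss 1 w c l
  | [] => rfl
  | [_] => rfl
  | x :: y :: l => by
    have ih := rr_const w c (y :: l)
    simp only [rr, ss]
    rw [ih, one_smul]

/-! ### parity -/

lemma ep_pw (ep : Ω →+* Ω) (w : X → Ω) (hw : ∀ x, ep (w x) = - w x) :
    ∀ (x : X) (l : List X), ep (pw w (x :: l)) = (-1 : ℤ) ^ l.length • pw w (x :: l)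
  | x, [] => by simp [pw]
  | x, y :: l => by
    have ih := ep_pw ep w hw y l
    simp only [pw]
    rw [map_mul, map_sub, ih, hw, hw, List.length_cons, pow_succ, mul_smul_comm]
    rw [show (-w y - -w x) = - (w y - w x) by abel, neg_mul, smul_neg]
    rw [mul_smul]
    simp

lemma ep_rr (ep : Ω →+* Ω) (w r : X → Ω) (hw : ∀ x, ep (w x) = - w x) (hr : ∀ x, ep (r x) = r x) :
    ∀ (x : X) (l : List X), ep (rr w r (x :: l)) = (-1 : ℤ) ^ l.length • rr w r (x :: l)
  | x, [] => by simp [rr, hr]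
  | x, y :: l => by
    have ih := ep_rr ep w r hw hr y l
    have hp := ep_pw ep w hw x (y :: l)
    simp only [rr]
    rw [map_add, map_mul, map_mul, map_sub, ih, hp, hr, hw, hw, List.length_cons, smul_add,
      mul_smul_comm, mul_smul_comm]
    congr 1
    rw [show (-w y - -w x) = - (w y - w x) by abel, neg_mul, smul_neg, pow_succ, mul_smul]
    simp

end

/-! ### the dg ring -/

section

variable {B : Type u} {S : Type v} {Ω : Type w} {H : Type x} [Ring B] [Ring S] [Ring Ω]
  [AddCommGroup H] (D : DGD B S Ω H)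

lemma g_eq (l : List (EB B)) : D.g l = gT D.ang D.wT D.rT l := by
  have h : D.go = go' D.ang D.wT D.rT := by
    funext l
    cases l <;> rfl
  unfold DGD.g gT
  rw [h]

variable {D}

lemma d_one (h : D.Ok) : D.d 1 = 0 := by
  have h1 := h.d_mul 1 1
  rw [mul_one, mul_one, map_one D.ep, one_mul] at h1
  exact left_eq_add.1 h1

lemma ep_j (h : D.Ok) (b : B) : D.ep (D.j b) = D.j b := h.ep_lam _

lemma d_tau_pow (h : D.Ok) (k : ℕ) : D.d (D.lam ((D.τ : S) ^ k)) = 0 := by
  induction k with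
  | zero => simp [d_one h]
  | succ k ih => rw [pow_succ, map_mul, h.d_mul, ih, h.d_tau]; simp

lemma d_e (h : D.Ok) : D.d (D.lam D.e) = 0 := by
  unfold DGD.e eS
  rw [map_sum, map_sum]
  exact Finset.sum_eq_zero fun k _ => d_tau_pow h k

lemma ep_e (h : D.Ok) : D.ep (D.lam D.e) = D.lam D.e := h.ep_lam _

/-- The centralizer of `e`. -/
def Z (D : DGD B S Ω H) : Subring Ω := Subring.centralizer {D.lam D.e}

lemma mem_Z {z : Ω} : z ∈ Z D ↔ D.lam D.e * z = z * D.lam D.e := by
  unfold Z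
  rw [Subring.mem_centralizer_iff]
  simp

lemma isGT (h : D.Ok) : IsGT D.ep (Z D) D.ang where
  even x hx he y := by
    have hx := mem_Z.1 hx
    show D.I (x * y * D.lam D.e) = D.I (y * x * D.lam D.e)
    rw [mul_assoc, h.even x he, mul_assoc, mul_assoc, hx]
  odd x hx he y := by
    have hx := mem_Z.1 hx
    show D.I (x * y * D.lam D.e) = D.I (D.ep y * x * D.lam D.e)
    rw [mul_assoc, h.odd x he, map_mul D.ep, ep_e h, mul_assoc, mul_assoc, hx]

lemma ang_d (h : D.Ok) (y : Ω) : D.ang (D.d y) = 0 := by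
  show D.I (D.d y * D.lam D.e) = 0
  have h1 := h.d_mul y (D.lam D.e)
  rw [d_e h, mul_zero, add_zero] at h1
  rw [← h1, h.tr_d]

lemma tau_i (h : D.Ok) {b : B} (hb : D.ρ b = b) : (D.τ : S) * D.i b = D.i b * D.τ := by
  rw [h.conj, hb]

lemma j_mem (h : D.Ok) {b : B} (hb : D.ρ b = b) : D.j b ∈ Z D := by
  rw [mem_Z]
  unfold DGD.j
  rw [← map_mul, ← map_mul]
  congr 1
  unfold DGD.e eS
  rw [Finset.sum_mul, Finset.mul_sum]
  refine Finset.sum_congr rfl fun k _ => ?_
  have hc : Commute (D.τ : S) (D.i b) := tau_i h hb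
  exact (hc.pow_left k).eq

lemma rho_inv {T : Bˣ} (hT : D.ρ T = T) : D.ρ ((T⁻¹ : Bˣ) : B) = ((T⁻¹ : Bˣ) : B) := by
  have h1 : D.ρ ((T⁻¹ : Bˣ) : B) * D.ρ (T : B) = 1 := by
    rw [← map_mul, Units.inv_mul, map_one]
  rw [hT] at h1
  calc D.ρ ((T⁻¹ : Bˣ) : B) = D.ρ ((T⁻¹ : Bˣ) : B) * ((T : B) * ((T⁻¹ : Bˣ) : B)) := by
        rw [Units.mul_inv, mul_one]
    _ = ((T⁻¹ : Bˣ) : B) := by rw [← mul_assoc, h1, one_mul]

lemma j_mul (b b' : B) : D.j (b * b') = D.j b * D.j b' := by unfold DGD.j; rw [map_mul, map_mul]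

lemma j_one : D.j 1 = 1 := by unfold DGD.j; rw [map_one, map_one]

lemma j_add (b b' : B) : D.j (b + b') = D.j b + D.j b' := by unfold DGD.j; rw [map_add, map_add]

lemma j_inv (T : Bˣ) : D.j ((T⁻¹ : Bˣ) : B) * D.j T = 1 := by rw [← j_mul, Units.inv_mul, j_one]

lemma j_inv' (T : Bˣ) : D.j T * D.j ((T⁻¹ : Bˣ) : B) = 1 := by rw [← j_mul, Units.mul_inv, j_one]

lemma d_mem (h : D.Ok) {z : Ω} (hz : z ∈ Z D) : D.d z ∈ Z D := by
  rw [mem_Z] at hz ⊢
  have h1 := h.d_mul (D.lam D.e) z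
  have h2 := h.d_mul z (D.lam D.e)
  rw [d_e h, zero_mul, zero_add, ep_e h] at h1
  rw [d_e h, mul_zero, add_zero] at h2
  rw [← h1, ← h2, hz]

lemma wT_mem (h : D.Ok) {y : EB B} (hy : D.ρ y.1 = y.1) : D.wT y ∈ Z D :=
  (Z D).mul_mem (d_mem h (j_mem h hy)) (j_mem h (rho_inv hy))

lemma ep_d_j (h : D.Ok) (b : B) : D.ep (D.d (D.j b)) = - D.d (D.j b) := by
  have h1 := h.d_ep (D.j b)
  rw [ep_j h] at h1
  exact neg_eq_iff_eq_neg.1 h1.symm

lemma ep_wT (h : D.Ok) (y : EB B) : D.ep (D.wT y) = - D.wT y := by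
  unfold DGD.wT
  rw [map_mul, ep_d_j h, ep_j h, neg_mul]

lemma ep_rT (h : D.Ok) (y : EB B) : D.ep (D.rT y) = D.rT y := ep_j h _

lemma d_j_inv (h : D.Ok) (T : Bˣ) : D.d (D.j ((T⁻¹ : Bˣ) : B)) =
    - (D.j ((T⁻¹ : Bˣ) : B) * D.d (D.j T) * D.j ((T⁻¹ : Bˣ) : B)) := by
  have h1 := h.d_mul (D.j ((T⁻¹ : Bˣ) : B)) (D.j T)
  rw [j_inv, d_one h, ep_j h] at h1
  have h2 : D.d (D.j ((T⁻¹ : Bˣ) : B)) * D.j T = - (D.j ((T⁻¹ : Bˣ) : B) * D.d (D.j T)) :=
    eq_neg_of_add_eq_zero_left h1.symm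
  calc D.d (D.j ((T⁻¹ : Bˣ) : B))
      = D.d (D.j ((T⁻¹ : Bˣ) : B)) * (D.j T * D.j ((T⁻¹ : Bˣ) : B)) := by rw [j_inv', mul_one]
    _ = - (D.j ((T⁻¹ : Bˣ) : B) * D.d (D.j T) * D.j ((T⁻¹ : Bˣ) : B)) := by
      rw [← mul_assoc, h2, neg_mul]

lemma d_wT (h : D.Ok) (y : EB B) : D.d (D.wT y) = D.wT y * D.wT y := by
  unfold DGD.wT
  rw [h.d_mul, h.d_d, zero_mul, zero_add, ep_d_j h, d_j_inv h]
  noncomm_ring

/-- `w (x y) = w x + T w y T⁻¹` -/
lemma wT_mul (h : D.Ok) (x y : EB B) : D.wT (mulE x y) =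
    D.wT x + D.j x.1 * D.wT y * D.j ((x.1⁻¹ : Bˣ) : B) := by
  unfold DGD.wT mulE
  simp only
  rw [mul_inv_rev, Units.val_mul, Units.val_mul, j_mul, j_mul, h.d_mul, ep_j h]
  rw [add_mul]
  congr 1
  · rw [mul_assoc, ← mul_assoc (D.j (y.1 : B)), j_inv', one_mul]
  · simp only [mul_assoc]

/-- `r (x y) = T r y T⁻¹ + q T⁻¹ + n` -/
lemma rT_mul (x y : EB B) : D.rT (mulE x y) =
    D.j x.1 * D.rT y * D.j ((x.1⁻¹ : Bˣ) : B) + D.rT x +
      D.j (x.2.2 * ((y.2.1 : B) - y.1) * ((y.1⁻¹ : Bˣ) : B) * ((x.1⁻¹ : Bˣ) : B)) := by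
  unfold DGD.rT mulE
  simp only
  rw [← j_mul, ← j_mul, ← j_add, ← j_add]
  congr 1
  rw [mul_inv_rev, Units.val_mul]
  have e : x.2.2 * ((y.2.1 : B) - y.1) * ((y.1⁻¹ : Bˣ) : B) * ((x.1⁻¹ : Bˣ) : B) =
      x.2.2 * (y.2.1 : B) * ((y.1⁻¹ : Bˣ) : B) * ((x.1⁻¹ : Bˣ) : B) -
        x.2.2 * ((x.1⁻¹ : Bˣ) : B) := by
    rw [mul_sub, sub_mul, sub_mul]
    congr 2
    rw [mul_assoc x.2.2, Units.mul_inv, mul_one]
  rw [e]
  noncomm_ring

lemma nm_mul {x z : B} (hx : D.ρ x = x) (hz : D.ρ z = z) (b : B) :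
    nm D.ρ D.N (x * b * z) = x * nm D.ρ D.N b * z := by
  unfold nm
  rw [Finset.mul_sum, Finset.sum_mul]
  refine Finset.sum_congr rfl fun k _ => ?_
  have hk : ∀ (k : ℕ) (y : B), D.ρ y = y → D.ρ^[k] y = y := by
    intro k y hy
    induction k with
    | zero => rfl
    | succ k ih => rw [Function.iterate_succ_apply, hy, ih]
  rw [iterate_map_mul, iterate_map_mul, hk k x hx, hk k z hz]

lemma Fx_mul {x y : EB B} (hx : D.Fx x) (hy : D.Fx y) : D.Fx (mulE x y) := by
  constructor
  · show D.ρ ((x.1 * y.1 : Bˣ) : B) = ((x.1 * y.1 : Bˣ) : B)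
    rw [Units.val_mul, map_mul, hx.1, hy.1]
  · show D.ρ ((x.2.1 * y.2.1 : Bˣ) : B) = ((x.2.1 * y.2.1 : Bˣ) : B)
    rw [Units.val_mul, map_mul, hx.2, hy.2]

/-! ### `alt g = f` -/

lemma alt_g (h : D.Ok) (hRR : SpecRR.{u, w}) (hNRM : SpecNRM.{u, v, w, x}) (l : List (EB B))
    (hl : ∀ x ∈ l, D.RE x) : alt D.g l = D.f l := by
  have e : D.g = fun l => (fun l => D.ang (g0E D.wT D.rT l)) l -
      (alt (go' D.ang D.wT D.rT)) l := by
    funext l
    exact g_eq D l
  rw [e, alt_sub, alt_alt, sub_zero, alt_hom]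
  have h1 := hRR (EB B) Ω D.ep D.d h.d_mul D.wT D.rT D.nT (ep_wT h) (d_wT h) (ep_rT h)
    (fun _ => rfl) l
  rw [hNRM.f B S Ω H D h l hl, h1, map_add, ang_d h, zero_add]

/-! ### invariance -/

lemma gT_const (h : D.Ok) (hGG : SpecGG.{u, w, x, u}) (w' : EB B → Ω)
    (hw : ∀ x, D.ep (w' x) = - w' x) (c : Ω) (hc : c ∈ Z D) (hc' : D.ep c = c) (l : List (EB B))
    (hl : ∀ x ∈ l, w' x ∈ Z D) : gT D.ang w' (fun _ => c) l = 0 := by
  cases l with
  | nil => simp [gT, g0E, alt]
  | cons y l =>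
    have hgo : go' D.ang w' (fun _ => c) = gg D.ang w' 1 c := by
      funext l
      cases l <;> rfl
    unfold gT
    rw [hgo, hGG.main (EB B) Ω H D.ep (Z D) D.ang (isGT h) w' hw 1 (Or.inl rfl) c hc
      (by rw [hc', one_smul]) (y :: l) hl]
    simp only [g0E, fl]
    rw [rr_const]
    have hy : w' y ∈ Z D := hl y List.mem_cons_self
    have hep : D.ep (ss 1 w' c (y :: l)) = (-1 : ℤ) ^ l.length • ss 1 w' c (y :: l) := by
      rw [← rr_const]
      exact ep_rr D.ep w' (fun _ => c) hw (fun _ => hc') y l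
    have ho : D.ang (w' y * ss 1 w' c (y :: l)) =
        (-1 : ℤ) ^ l.length • D.ang (ss 1 w' c (y :: l) * w' y) := by
      rw [(isGT h).odd (w' y) hy (hw y), hep, smul_mul_assoc, map_zsmul]
    rw [map_sub, map_zsmul, ho, mul_sub, map_sub, List.length_cons, pow_succ, mul_smul, smul_sub,
      smul_sub, neg_one_smul, smul_neg, neg_one_smul, smul_neg]
    abel

lemma ang_conj (h : D.Ok) {g g' : Ω} (h1 : g' * g = 1) (hg' : g' ∈ Z D) (he : D.ep g' = g')
    (y : Ω) : D.ang (g * y * g') = D.ang y := by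
  rw [← (isGT h).even g' hg' he, ← mul_assoc, h1, one_mul]

lemma gT_conj (h : D.Ok) (hGG : SpecGG.{u, w, x, u}) (w r : EB B → Ω)
    (hw : ∀ x, D.ep (w x) = - w x) (hr : ∀ x, D.ep (r x) = r x) (c : Ω) (hc : c ∈ Z D)
    (hce : D.ep c = - c) (g g' : Ω) (h1 : g' * g = 1) (h2 : g * g' = 1) (hg' : g' ∈ Z D)
    (he : D.ep g = g) (he' : D.ep g' = g') (l : List (EB B)) :
    gT D.ang (fun x => c + g * w x * g') (fun x => g * r x * g') l = gT D.ang w r l := by
  unfold gT
  have hgo : go' D.ang (fun x => c + g * w x * g') (fun x => g * r x * g') =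
      go' D.ang w r := by
    funext l
    cases l with
    | nil => rfl
    | cons y l =>
      have h3 := hGG.conj (EB B) Ω H D.ep (Z D) D.ang (isGT h) w (EB B)
        (fun x => c + g * w x * g') id c g g' h1 h2 hg' he' (fun _ => True) (fun _ _ => rfl) 1
        (r y) (y :: l) (fun _ _ => trivial)
      rw [List.map_id] at h3
      exact h3
  rw [hgo]
  congr 1
  cases l with
  | nil => rfl
  | cons y l =>
    simp only [g0E]
    rw [rr_conj w r c g g' h1 h2]
    set R := rr w r (y :: l) with hR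
    have hep : D.ep (g * R * g') = (-1 : ℤ) ^ l.length • (g * R * g') := by
      rw [map_mul, map_mul, he, he', hR, ep_rr D.ep w r hw hr y l, mul_smul_comm, smul_mul_assoc]
    have ho : D.ang (c * (g * R * g')) = (-1 : ℤ) ^ l.length • D.ang (g * R * g' * c) := by
      rw [(isGT h).odd c hc hce, hep, smul_mul_assoc, map_zsmul]
    have e1 : g * R * g' * (c + g * w (lst y l) * g') =
        g * R * g' * c + g * (R * w (lst y l)) * g' := by
      rw [mul_add]
      congr 1
      calc g * R * g' * (g * w (lst y l) * g') = g * R * (g' * g) * w (lst y l) * g' := by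
            simp only [mul_assoc]
        _ = g * (R * w (lst y l)) * g' := by rw [h1]; simp only [mul_assoc, one_mul]
    have e2 : (c + g * w y * g') * (g * R * g') = c * (g * R * g') + g * (w y * R) * g' := by
      rw [add_mul]
      congr 1
      calc g * w y * g' * (g * R * g') = g * w y * (g' * g) * R * g' := by
            simp only [mul_assoc]
        _ = g * (w y * R) * g' := by rw [h1]; simp only [mul_assoc, one_mul]
    rw [e1, e2, map_sub, map_zsmul, map_add, map_add, ho, ang_conj h h1 hg' he',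
      ang_conj h h1 hg' he', map_sub, map_zsmul, smul_add]
    abel

lemma inv_g (h : D.Ok) (hGG : SpecGG.{u, w, x, u}) (hNRM : SpecNRM.{u, v, w, x}) (g : EB B)
    (hg : D.RE g) (l : List (EB B)) (hl : ∀ x ∈ l, D.RE x) :
    D.g (l.map fun x => mulE g x) = D.g l := by
  rw [g_eq, g_eq, gT_map]
  have hw' : (fun y => D.wT (mulE g y)) =
      fun y => D.wT g + D.j g.1 * D.wT y * D.j ((g.1⁻¹ : Bˣ) : B) := funext fun y => wT_mul h g y
  have hr' : (fun y => D.rT (mulE g y)) =
      fun y => (fun y => (fun y => D.j g.1 * D.rT y * D.j ((g.1⁻¹ : Bˣ) : B)) y +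
        (fun _ => D.rT g) y) y +
        (fun y => D.j (g.2.2 * ((y.2.1 : B) - y.1) * ((y.1⁻¹ : Bˣ) : B) * ((g.1⁻¹ : Bˣ) : B))) y :=
    funext fun y => rT_mul g y
  rw [hr', gT_add (fun w σ r r' a l => hGG.add (EB B) Ω H a w σ r r' l),
    gT_add (fun w σ r r' a l => hGG.add (EB B) Ω H a w σ r r' l)]
  have hT : D.ρ g.1 = g.1 := hg.1.1
  have hTi : D.ρ ((g.1⁻¹ : Bˣ) : B) = ((g.1⁻¹ : Bˣ) : B) := rho_inv hT
  have hrg : D.rT g ∈ Z D := by
    refine j_mem h ?_
    rw [map_mul, hg.2.1, hTi]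
  -- the constant
  have hB : gT D.ang (fun y => D.wT (mulE g y)) (fun _ => D.rT g) l = 0 :=
    gT_const h hGG _ (fun y => ep_wT h _) _ hrg (ep_rT h g) l
      (fun y hy => wT_mem h (Fx_mul hg.1 (hl y hy).1).1)
  -- the norm
  have hn : ∀ y : EB B, D.RE y → ∃ b, D.j (g.2.2 * ((y.2.1 : B) - y.1) * ((y.1⁻¹ : Bˣ) : B) *
      ((g.1⁻¹ : Bˣ) : B)) = D.j (nm D.ρ D.N b) := by
    intro y hy
    obtain ⟨b, hb⟩ := hy.2.2
    refine ⟨g.2.2 * b * (((y.1⁻¹ : Bˣ) : B) * ((g.1⁻¹ : Bˣ) : B)), ?_⟩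
    rw [nm_mul hg.2.1 (by rw [map_mul, hTi, rho_inv hy.1.1]), hb]
    congr 1
    simp only [mul_assoc]
  have hC : gT D.ang (fun y => D.wT (mulE g y))
      (fun y => D.j (g.2.2 * ((y.2.1 : B) - y.1) * ((y.1⁻¹ : Bˣ) : B) * ((g.1⁻¹ : Bˣ) : B))) l = 0 := by
    unfold gT
    have h1 : alt (go' D.ang (fun y => D.wT (mulE g y)) (fun y => D.j (g.2.2 *
        ((y.2.1 : B) - y.1) * ((y.1⁻¹ : Bˣ) : B) * ((g.1⁻¹ : Bˣ) : B)))) l = 0 := by
      rw [alt_congr (P := fun y => D.RE y) (F' := fun _ => 0) (fun l' hl' => ?_) l hl, alt_zero']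
      cases l' with
      | nil => rfl
      | cons y l' =>
        obtain ⟨b, hb⟩ := hn y (hl' y List.mem_cons_self)
        simp only [go']
        rw [hb]
        have h2 := gg_map D.ang (fun y => mulE g y) D.wT (y :: l') 1 (D.j (nm D.ρ D.N b))
        rw [← h2]
        refine hNRM.gg B S Ω H D h b 1 _ fun z hz => ?_
        obtain ⟨z', hz', rfl⟩ := List.mem_map.1 hz
        exact Fx_mul hg.1 (hl' z' hz').1
    have h3 : D.ang (g0E (fun y => D.wT (mulE g y)) (fun y => D.j (g.2.2 *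
        ((y.2.1 : B) - y.1) * ((y.1⁻¹ : Bˣ) : B) * ((g.1⁻¹ : Bˣ) : B))) l) = 0 := by
      let rz : EB B → Ω := fun z => D.j (g.2.2 * (((g.2.1⁻¹ : Bˣ) : B) * (z.2.1 : B) -
        ((g.1⁻¹ : Bˣ) : B) * (z.1 : B)) * ((z.1⁻¹ : Bˣ) : B))
      have hrz : ∀ y : EB B, rz (mulE g y) = D.j (g.2.2 *
          ((y.2.1 : B) - y.1) * ((y.1⁻¹ : Bˣ) : B) * ((g.1⁻¹ : Bˣ) : B)) := by
        intro y
        simp only [rz, mulE]
        rw [mul_inv_rev, Units.val_mul, Units.val_mul, Units.val_mul, Units.inv_mul_cancel_left,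
          Units.inv_mul_cancel_left, ← mul_assoc]
      have h4 := g0E_map (fun y => mulE g y) D.wT rz l
      have h5 : (fun y => rz (mulE g y)) = fun y => D.j (g.2.2 *
          ((y.2.1 : B) - y.1) * ((y.1⁻¹ : Bˣ) : B) * ((g.1⁻¹ : Bˣ) : B)) := funext hrz
      rw [h5] at h4
      rw [← h4]
      refine hNRM.g0 B S Ω H D h rz _ (fun z hz => ?_) fun z hz => ?_
      · obtain ⟨z', hz', rfl⟩ := List.mem_map.1 hz
        exact Fx_mul hg.1 (hl z' hz').1
      · obtain ⟨z', hz', rfl⟩ := List.mem_map.1 hz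
        rw [hrz]
        exact hn z' (hl z' hz')
    rw [h1, h3, sub_zero]
  rw [hB, hC, add_zero, add_zero, hw']
  exact gT_conj h hGG D.wT D.rT (ep_wT h) (ep_rT h) (D.wT g) (wT_mem h hT) (ep_wT h g) _ _
    (j_inv g.1) (j_inv' g.1) (j_mem h hTi) (ep_j h _) (ep_j h _) l

/-! ### additivity -/

lemma add_g (hadd : ∀ (w : EB B × B → Ω) (σ : ℤ) (r r' : Ω) (a : Ω →+ H)
    (l : List (EB B × B)), gg a w σ (r + r') l = gg a w σ r l + gg a w σ r' l)
    (l : List (EB B × B)) :
    D.g (l.map fun x => (x.1.1, x.1.2.1, x.1.2.2 + x.2)) =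
      D.g (l.map Prod.fst) + D.g (l.map fun x => (x.1.1, x.1.2.1, x.2)) := by
  rw [g_eq, g_eq, g_eq, gT_map, gT_map, gT_map]
  have hg := gT_add hadd D.ang (fun x : EB B × B => D.wT x.1) (fun x => D.rT x.1)
    (fun x => D.rT (x.1.1, x.1.2.1, x.2)) l
  have e : (fun x : EB B × B => D.rT (x.1.1, x.1.2.1, x.1.2.2 + x.2)) =
      fun x => D.rT x.1 + D.rT (x.1.1, x.1.2.1, x.2) := by
    funext x
    unfold DGD.rT
    rw [← j_add, ← add_mul]
  rw [e]
  exact hg

end

end GINM

theorem specGIN (_ : SpecALT.{u, x, x}) (_ : SpecPW.{u, w, u}) (hRR : SpecRR.{u, w})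
    (_ : SpecTB.{u, w, x}) (hGG : SpecGG.{u, w, x, u}) (hNRM : SpecNRM.{u, v, w, x}) :
    SpecGIN.{u, v, w, x} where
  alt _ _ _ _ _ _ _ _ _ h l hl := GINM.alt_g h hRR hNRM l hl
  inv _ _ _ _ _ _ _ _ _ h g hg l hl := GINM.inv_g h hGG hNRM g hg l hl
  add B _ Ω H _ _ _ _ _ l :=
    GINM.add_g (fun w σ r r' a l => hGG.add (EB B × B) Ω H a w σ r r' l) l

end Pool.Agent.Lib.MPb6f35e.KA
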