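import Pool.Agent.Lib.MP_b6f35e_al.KA.SpecG

/-! # folder KA: hidden cycles and torsion (HIE) -/

set_option autoImplicit false

noncomputable section

namespace Pool.Agent.Lib.MPb6f35e.KA

universe u v w x

namespace HIEM

/-- An element of infinite order of a finitely generated abelian group has a nonzero image under a
homomorphism to the integers. -/
theorem exists_hom {A : Type v} [AddCommGroup A] [Module.Finite ℤ A] (x : A)
    (hx : ¬ IsOfFinAddOrder x) : ∃ f : A →+ ℤ, f x ≠ 0 := by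
  classical
  let T := Submodule.torsion ℤ A
  have : Module.Finite ℤ (A ⧸ T) := inferInstance
  have : Module.Free ℤ (A ⧸ T) := inferInstance
  let b := Module.Free.chooseBasis ℤ (A ⧸ T)
  have hne : T.mkQ x ≠ 0 := by
    intro h0
    apply hx
    rw [Submodule.mkQ_apply, Submodule.Quotient.mk_eq_zero] at h0
    obtain ⟨a, ha⟩ := h0
    have ha' : (a : ℤ) • x = 0 := ha
    have ha0 : (a : ℤ) ≠ 0 := nonZeroDivisors.coe_ne_zero a
    exact isOfFinAddOrder_iff_zsmul_eq_zero.2 ⟨a, ha0, ha'⟩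
  have : ∃ i, b.repr (T.mkQ x) i ≠ 0 := by
    by_contra hcon
    push Not at hcon
    apply hne
    apply b.repr.injective
    rw [map_zero]
    ext i
    exact hcon i
  obtain ⟨i, hi⟩ := this
  exact ⟨((b.coord i).comp T.mkQ).toAddMonoidHom, hi⟩

/-- a quotient of a subgroup `Z` by `B ≤ Z`, all classes represented in a finitely generated
group -/
theorem fin_quot {M : Type v} [AddCommGroup M] (Z B : AddSubgroup M) (F : Finset M)
    (h : ∀ z ∈ Z, ∃ b ∈ B, b ∈ Z ∧ z - b ∈ AddSubgroup.closure (F : Set M)) :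
    Module.Finite ℤ (Z ⧸ B.addSubgroupOf Z) := by
  classical
  obtain ⟨K, hK⟩ : ∃ K : Submodule ℤ M, K = Submodule.span ℤ (F : Set M) := ⟨_, rfl⟩
  have hKF : Module.Finite ℤ K := by
    rw [hK]
    exact Module.Finite.span_finset ℤ F
  have : IsNoetherian ℤ K := inferInstance
  obtain ⟨S, hS⟩ : ∃ S : Submodule ℤ K, S = (AddSubgroup.toIntSubmodule Z).comap K.subtype :=
    ⟨_, rfl⟩
  have : Module.Finite ℤ S := inferInstance
  have hS' : ∀ s : K, s ∈ S ↔ (s : M) ∈ Z := by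
    intro s
    rw [hS]
    exact Iff.rfl
  have hmem : ∀ s : S, ((s : K) : M) ∈ Z := fun s => (hS' s).1 s.2
  let g : S →+ Z ⧸ B.addSubgroupOf Z :=
    (QuotientAddGroup.mk' (B.addSubgroupOf Z)).comp
      { toFun := fun s => (⟨((s : K) : M), hmem s⟩ : Z)
        map_zero' := rfl
        map_add' := fun _ _ => rfl }
  refine Module.Finite.of_surjective g.toIntLinearMap ?_
  intro q
  induction q using QuotientAddGroup.induction_on with
  | H z =>
    obtain ⟨b, hb, hb', hz⟩ := h z z.2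
    have hzK : (z : M) - b ∈ K := by
      rw [hK]
      have : AddSubgroup.closure (F : Set M) ≤ (Submodule.span ℤ (F : Set M)).toAddSubgroup := by
        rw [AddSubgroup.closure_le]
        exact Submodule.subset_span
      exact this hz
    refine ⟨⟨⟨(z : M) - b, hzK⟩, (hS' _).2 (Z.sub_mem z.2 hb')⟩, ?_⟩
    show ((⟨(z : M) - b, _⟩ : Z) : Z ⧸ B.addSubgroupOf Z) = z
    rw [QuotientAddGroup.eq]
    show - ((z : M) - b) + z ∈ B
    rw [neg_sub, sub_add_cancel]
    exact hb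

theorem cen_mul {G : Type v} [Group G] {C : Subgroup G} (x y : G) (hx : Cen C x) (hy : Cen C y) :
    Cen C (x * y) := by
  intro h hh
  rw [mul_assoc, hy h hh, ← mul_assoc, hx h hh, mul_assoc]

end HIEM

open HIEM in
/-- **HIE** -/
theorem specHIE (hALT : SpecALT.{v, w, x}) (hTRA : SpecTRA.{u, v}) : SpecHIE.{u, v} where
  tors := by
    intro n R _ G _ p 𝒞 H y hy
    refine AddSubgroup.closure_induction (p := fun y _ => IsOfFinAddOrder y) ?_ ?_ ?_ ?_ hy
    · rintro y ⟨x, hxC, hxz, rfl⟩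
      obtain ⟨k, hk, w, hw, e⟩ := H x.C hxC x.fin x.cy x.z x.hz hxz
      have hz' : k • x.z ∈ cyc n (Cen x.C) := AddSubgroup.nsmul_mem _ x.hz k
      have h1 := hTRA.zsmulz n R G x ⟨x.C, x.fin, x.cy, k • x.z, hz', x.u, x.hu⟩ k rfl rfl
        (natCast_zsmul _ _).symm
      have h2 := hTRA.bdr n R G ⟨x.C, x.fin, x.cy, k • x.z, hz', x.u, x.hu⟩ w hw e
      rw [h2, natCast_zsmul] at h1
      exact isOfFinAddOrder_iff_nsmul_eq_zero.2 ⟨k, hk, h1.symm⟩
    · exact IsOfFinAddOrder.zero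
    · intro a b _ _ ha hb
      exact ha.add hb
    · intro a _ ha
      exact ha.neg
  fg := by
    intro G _ n p hp C hfg z hz hh
    classical
    obtain ⟨F, hF⟩ := hfg
    obtain ⟨B, hB⟩ : ∃ B : AddSubgroup (Ch G), B = (ch (n + 1) (Cen C)).map bd := ⟨_, rfl⟩
    have hbd : ∀ w ∈ ch (n + 1) (Cen C), bd w ∈ cyc n (Cen C) := fun w hw =>
      ⟨hALT.ch G n (Cen C) cen_mul w hw, hALT.bdbd G w⟩
    have := fin_quot (cyc n (Cen C)) B F (by
      intro z hz
      obtain ⟨w, hw, h⟩ := hF z hz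
      refine ⟨bd w, ?_, hbd w hw, h⟩
      rw [hB]
      exact ⟨w, hw, rfl⟩)
    by_contra hx
    obtain ⟨π, hπ⟩ : ∃ π : cyc n (Cen C) →+ cyc n (Cen C) ⧸ B.addSubgroupOf (cyc n (Cen C)),
      π = QuotientAddGroup.mk' (B.addSubgroupOf (cyc n (Cen C))) := ⟨_, rfl⟩
    have hπ0 : ∀ c : cyc n (Cen C), π c = 0 ↔ (c : Ch G) ∈ B := by
      intro c
      rw [hπ]
      exact QuotientAddGroup.eq_zero_iff c
    obtain ⟨f, hf⟩ := exists_hom (π ⟨z, hz⟩) (by
      intro h
      apply hx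
      obtain ⟨k, hk, h⟩ := isOfFinAddOrder_iff_nsmul_eq_zero.1 h
      rw [← map_nsmul, hπ0] at h
      rw [hB] at h
      obtain ⟨w, hw, e⟩ := h
      exact ⟨k, hk, w, hw, e.symm⟩)
    let χ : Ch G → ℚ := fun g => if hg : g ∈ cyc n (Cen C) then (f (π ⟨g, hg⟩) : ℚ) else 0
    have hχ : ∀ (g : Ch G) (hg : g ∈ cyc n (Cen C)), χ g = (f (π ⟨g, hg⟩) : ℚ) :=
      fun g hg => dif_pos hg
    have h0 := hh χ (by
      intro a ha b hb
      rw [hχ a ha, hχ b hb, hχ (a + b) (add_mem ha hb)]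
      have : (⟨a + b, add_mem ha hb⟩ : cyc n (Cen C)) = ⟨a, ha⟩ + ⟨b, hb⟩ := rfl
      rw [this, map_add, map_add]
      push_cast
      rfl) (by
      intro w hw
      rw [hχ _ (hbd w hw), (hπ0 _).2 (by rw [hB]; exact ⟨w, hw, rfl⟩), map_zero, Int.cast_zero]) (by
      intro a ha
      rw [hχ a ha, Rat.den_intCast]
      intro h1
      exact absurd (Nat.dvd_one.1 h1) (by omega))
    rw [hχ z hz] at h0
    exact hf (by exact_mod_cast h0)

end Pool.Agent.Lib.MPb6f35e.KA
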