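import Pool.Agent.Lib.MP_b6f35e_al.KA.SpecE
import Pool.Agent.Lib.MP_b6f35e_al.WH.GBlock

/-!
# Rational K-theory in all degrees (MP_b6f35e_al), module HVB (helper29)
-/

set_option autoImplicit false
set_option linter.unusedSectionVars false

noncomputable section

namespace Pool.Agent.Lib.MPb6f35e.KA

open Pool.Agent.Lib.MPb6f35e.WH Pool.Agent.Lib.MPb6f35e.K2

universe u v w x y

namespace HVBM

section maps

variable {Γ : Type u} {B : Type v} {Γ' : Type w} {B' : Type x} [Group Γ] [Ring B] [Group Γ']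
  [Ring B'] {T D : Γ →* Bˣ} {T' D' : Γ' →* B'ˣ}

lemma mapR_mul (φ : Γ →* Γ') (ψ : B →+* B')
    (h : ∀ y, ψ (T y) = T' (φ y) ∧ ψ (D y) = D' (φ y)) (a b : RT T D) :
    (mapR φ ψ (a * b) : RT T' D') = mapR φ ψ a * mapR φ ψ b := by
  apply RT.ext'
  · exact map_mul φ a.y b.y
  · show ψ ((T a.y : B) * b.q + a.q * D b.y) =
      (T' (φ a.y) : B') * ψ b.q + ψ a.q * D' (φ b.y)
    rw [map_add, map_mul, map_mul, (h a.y).1, (h b.y).2]

lemma mapR_one (φ : Γ →* Γ') (ψ : B →+* B') :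
    (mapR φ ψ (1 : RT T D) : RT T' D') = 1 := by
  apply RT.ext'
  · exact map_one φ
  · exact map_zero ψ

lemma run_mapR (φ : Γ →* Γ') (ψ : B →+* B')
    (h : ∀ y, ψ (T y) = T' (φ y) ∧ ψ (D y) = D' (φ y)) (l : List (RT T D)) :
    ∀ a : RT T D, run (mapR φ ψ a : RT T' D') (l.map (mapR φ ψ)) = (run a l).map (mapR φ ψ) := by
  induction l with
  | nil => intro a; rfl
  | cons b l ih =>
    intro a
    show mapR φ ψ a :: run (mapR φ ψ a * mapR φ ψ b) (l.map (mapR φ ψ)) =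
      mapR φ ψ a :: (run (a * b) l).map (mapR φ ψ)
    rw [← mapR_mul φ ψ h, ih]

lemma toE_mapR (φ : Γ →* Γ') (ψ : B →+* B')
    (h : ∀ y, ψ (T y) = T' (φ y) ∧ ψ (D y) = D' (φ y)) (a : RT T D) :
    toE (mapR φ ψ a : RT T' D') = mapE ψ (toE a) := by
  refine Prod.ext (Units.ext ?_) (Prod.ext (Units.ext ?_) rfl)
  · exact (h a.y).1.symm
  · exact (h a.y).2.symm

lemma inh_mapR {H : Type y} (F : List (EB B') → H) (φ : Γ →* Γ') (ψ : B →+* B')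
    (h : ∀ y, ψ (T y) = T' (φ y) ∧ ψ (D y) = D' (φ y)) (l : List (RT T D)) :
    inh F (l.map (mapR φ ψ : RT T D → RT T' D')) = F (((run 1 l).map toE).map (mapE ψ)) := by
  unfold inh
  rw [← mapR_one (T := T) (D := D) φ ψ, run_mapR φ ψ h, List.map_map, List.map_map]
  congr 1
  exact List.map_congr_left fun a _ => toE_mapR φ ψ h a

end maps

/-- The general form: three functions on cycles, related by a subring `Rs`. -/
theorem main3 (hNTL : SpecNTL.{max u v, v, v, 0, y}) (hRLS : SpecRLS.{v, 0, v})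
    (hPSH : SpecPSH.{x, y, max u v, max u v, 0}) (hPKG : SpecPKG.{max u v, v, v, 0, max u v})
    (hIDD : SpecIDD.{u, v}) (k : Type u) [CommRing k] (p e : ℕ) [Fact p.Prime] [NeZero (p ^ e)]
    [NeZero (p ^ (e + 1))] (r : k →+* ZMod (p ^ (e + 1))) (hr : IsRed k p e r) (G : Type v)
    [Group G] (ι₀ ι₁ ι₂ : Type) [Fintype ι₀] [DecidableEq ι₀] [Fintype ι₁] [DecidableEq ι₁]
    [Fintype ι₂] [DecidableEq ι₂]
    (X₀ : List (SR (p ^ (e + 1)) G ι₀) → ZMod (p ^ (e + 1)))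
    (X₁ : List (SR (p ^ (e + 1)) G ι₁) → ZMod (p ^ (e + 1)))
    (X₂ : List (SR (p ^ (e + 1)) G ι₂) → ZMod (p ^ (e + 1)))
    (h₀ : Ch (Matrix ι₀ ι₀ (MonoidAlgebra k G))ˣ → ZMod (p ^ (e + 1)))
    (h₁ : Ch (Matrix ι₁ ι₁ (MonoidAlgebra k G))ˣ → ZMod (p ^ (e + 1)))
    (h₂ : Ch (Matrix ι₂ ι₂ (MonoidAlgebra k G))ˣ → ZMod (p ^ (e + 1)))
    (H₀ : HV k p e r X₀ h₀) (H₁ : HV k p e r X₁ h₁) (H₂ : HV k p e r X₂ h₂)
    (Γ : Type x) (B : Type y) [Group Γ] [Ring B] (ρ : B →+* B) (T D : Γ →* Bˣ)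
    (hDD : IsDD (p ^ (e + 1)) ρ T D)
    (φ₀ : Γ →* (Matrix ι₀ ι₀ (MonoidAlgebra k G))ˣ) (φ₁ : Γ →* (Matrix ι₁ ι₁ (MonoidAlgebra k G))ˣ)
    (φ₂ : Γ →* (Matrix ι₂ ι₂ (MonoidAlgebra k G))ˣ) (ψ₀ : B →+* TR k G ι₀ (p ^ (e + 1)))
    (ψ₁ : B →+* TR k G ι₁ (p ^ (e + 1))) (ψ₂ : B →+* TR k G ι₂ (p ^ (e + 1)))
    (hρ₀ : ∀ b, ψ₀ (ρ b) = rot k G ι₀ (p ^ (e + 1)) (ψ₀ b))
    (hρ₁ : ∀ b, ψ₁ (ρ b) = rot k G ι₁ (p ^ (e + 1)) (ψ₁ b))
    (hρ₂ : ∀ b, ψ₂ (ρ b) = rot k G ι₂ (p ^ (e + 1)) (ψ₂ b))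
    (hT₀ : ∀ y, ψ₀ (T y) = TT k G ι₀ (p ^ (e + 1)) (φ₀ y) ∧ ψ₀ (D y) = DD k G ι₀ p e (φ₀ y))
    (hT₁ : ∀ y, ψ₁ (T y) = TT k G ι₁ (p ^ (e + 1)) (φ₁ y) ∧ ψ₁ (D y) = DD k G ι₁ p e (φ₁ y))
    (hT₂ : ∀ y, ψ₂ (T y) = TT k G ι₂ (p ^ (e + 1)) (φ₂ y) ∧ ψ₂ (D y) = DD k G ι₂ p e (φ₂ y))
    (Rs : Subring (SR (p ^ (e + 1)) G ι₀ × SR (p ^ (e + 1)) G ι₁ × SR (p ^ (e + 1)) G ι₂))
    (k₁ k₂ : ℕ)
    (hX : ∀ l : List (SR (p ^ (e + 1)) G ι₀ × SR (p ^ (e + 1)) G ι₁ × SR (p ^ (e + 1)) G ι₂),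
      (∀ s ∈ l, s ∈ Rs) → X₀ (l.map fun s => s.1) =
        k₁ • X₁ (l.map fun s => s.2.1) + k₂ • X₂ (l.map fun s => s.2.2))
    (hb : ∀ b, (iB k (p ^ (e + 1)) r G ι₀ (ψ₀ b), iB k (p ^ (e + 1)) r G ι₁ (ψ₁ b),
      iB k (p ^ (e + 1)) r G ι₂ (ψ₂ b)) ∈ Rs)
    (ht : ((tauS (p ^ (e + 1)) G ι₀ : SR (p ^ (e + 1)) G ι₀),
      (tauS (p ^ (e + 1)) G ι₁ : SR (p ^ (e + 1)) G ι₁),
      (tauS (p ^ (e + 1)) G ι₂ : SR (p ^ (e + 1)) G ι₂)) ∈ Rs)
    (hdl : ∀ s ∈ Rs, (dS (p ^ (e + 1)) G ι₀ s.1, dS (p ^ (e + 1)) G ι₁ s.2.1,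
      dS (p ^ (e + 1)) G ι₂ s.2.2) ∈ Rs)
    (z : Ch Γ) (hz : bd z = 0) :
    h₀ (cmap φ₀ z) = k₁ • h₁ (cmap φ₁ z) + k₂ • h₂ (cmap φ₂ z) := by
  obtain ⟨Ω₀, _, lam₀, ep₀, d₀, I₀, hOm₀, hh₀⟩ := H₀
  obtain ⟨Ω₁, _, lam₁, ep₁, d₁, I₁, hOm₁, hh₁⟩ := H₁
  obtain ⟨Ω₂, _, lam₂, ep₂, d₂, I₂, hOm₂, hh₂⟩ := H₂
  obtain ⟨Rl, hl, hd, hI⟩ := hRLS (SR (p ^ (e + 1)) G ι₀) (SR (p ^ (e + 1)) G ι₁)
    (SR (p ^ (e + 1)) G ι₂) Ω₀ Ω₁ Ω₂ (ZMod (p ^ (e + 1))) (tauS (p ^ (e + 1)) G ι₀)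
    (tauS (p ^ (e + 1)) G ι₁) (tauS (p ^ (e + 1)) G ι₂) X₀ X₁ X₂ lam₀ lam₁ lam₂ ep₀ ep₁ ep₂
    d₀ d₁ d₂ I₀ I₁ I₂ hOm₀ hOm₁ hOm₂ Rs k₁ k₂ hX
  have hRl : IsRl k₁ k₂ (mkD (k := k) p e r lam₀ ep₀ d₀ I₀) (mkD (k := k) p e r lam₁ ep₁ d₁ I₁)
      (mkD (k := k) p e r lam₂ ep₂ d₂ I₂) ψ₀ ψ₁ ψ₂ Rs Rl :=
    { N₁ := rfl
      N₂ := rfl
      b := hb
      t := ht
      dl := hdl
      lam := hl
      d := hd
      I := hI }
  have hn := hNTL B (TR k G ι₀ (p ^ (e + 1))) (TR k G ι₁ (p ^ (e + 1)))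
    (TR k G ι₂ (p ^ (e + 1))) (SR (p ^ (e + 1)) G ι₀) (SR (p ^ (e + 1)) G ι₁)
    (SR (p ^ (e + 1)) G ι₂) Ω₀ Ω₁ Ω₂ (ZMod (p ^ (e + 1)))
    (mkD (k := k) p e r lam₀ ep₀ d₀ I₀) (mkD (k := k) p e r lam₁ ep₁ d₁ I₁)
    (mkD (k := k) p e r lam₂ ep₂ d₂ I₂) ψ₀ ψ₁ ψ₂ Rs Rl k₁ k₂ hRl
  rw [hh₀, hh₁, hh₂]
  refine hPSH Γ B (Matrix ι₀ ι₀ (MonoidAlgebra k G))ˣ (Matrix ι₁ ι₁ (MonoidAlgebra k G))ˣ
    (Matrix ι₂ ι₂ (MonoidAlgebra k G))ˣ (TR k G ι₀ (p ^ (e + 1))) (TR k G ι₁ (p ^ (e + 1)))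
    (TR k G ι₂ (p ^ (e + 1))) (ZMod (p ^ (e + 1))) (p ^ (e + 1)) ρ T D hDD
    (rot k G ι₀ (p ^ (e + 1))) (TT k G ι₀ (p ^ (e + 1))) (DD k G ι₀ p e)
    (hIDD.idd k p e r hr G ι₀)
    (rot k G ι₁ (p ^ (e + 1))) (TT k G ι₁ (p ^ (e + 1))) (DD k G ι₁ p e)
    (hIDD.idd k p e r hr G ι₁)
    (rot k G ι₂ (p ^ (e + 1))) (TT k G ι₂ (p ^ (e + 1))) (DD k G ι₂ p e)
    (hIDD.idd k p e r hr G ι₂) _ _ _ _ _ _ _ _ _
    (hPKG _ _ _ _ _ _ (hIDD.ok k p e r hr G ι₀ Ω₀ lam₀ ep₀ d₀ I₀ X₀ hOm₀) _ _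
      (hIDD.idd k p e r hr G ι₀))
    (hPKG _ _ _ _ _ _ (hIDD.ok k p e r hr G ι₁ Ω₁ lam₁ ep₁ d₁ I₁ X₁ hOm₁) _ _
      (hIDD.idd k p e r hr G ι₁))
    (hPKG _ _ _ _ _ _ (hIDD.ok k p e r hr G ι₂ Ω₂ lam₂ ep₂ d₂ I₂ X₂ hOm₂) _ _
      (hIDD.idd k p e r hr G ι₂))
    φ₀ φ₁ φ₂ ψ₀ ψ₁ ψ₂ hρ₀ hρ₁ hρ₂ hT₀ hT₁ hT₂ k₁ k₂ ?_ ?_ ?_ z hz
  · intro l
    rw [inh_mapR _ φ₀ ψ₀ hT₀, inh_mapR _ φ₁ ψ₁ hT₁, inh_mapR _ φ₂ ψ₂ hT₂]
    exact (hn _).1
  · intro l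
    rw [inh_mapR _ φ₀ ψ₀ hT₀, inh_mapR _ φ₁ ψ₁ hT₁, inh_mapR _ φ₂ ψ₂ hT₂]
    exact (hn _).2.1
  · intro l
    rw [inh_mapR _ φ₀ ψ₀ hT₀, inh_mapR _ φ₁ ψ₁ hT₁, inh_mapR _ φ₂ ψ₂ hT₂]
    exact (hn _).2.2

/-! ### the subring of the block diagonal elements -/

/-- A homomorphism to the units with values in a subring. -/
def liftU {Γ : Type x} {R : Type y} [Group Γ] [Ring R] (S : Subring R) (Φ : Γ →* Rˣ)
    (h : ∀ y, ((Φ y : Rˣ) : R) ∈ S) : Γ →* Sˣ where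
  toFun y := ⟨⟨Φ y, h y⟩, ⟨Φ y⁻¹, h y⁻¹⟩,
    by
      apply Subtype.ext
      show ((Φ y : Rˣ) : R) * ((Φ y⁻¹ : Rˣ) : R) = 1
      rw [← Units.val_mul, ← map_mul, mul_inv_cancel, map_one, Units.val_one],
    by
      apply Subtype.ext
      show ((Φ y⁻¹ : Rˣ) : R) * ((Φ y : Rˣ) : R) = 1
      rw [← Units.val_mul, ← map_mul, inv_mul_cancel, map_one, Units.val_one]⟩
  map_one' := by
    apply Units.ext
    apply Subtype.ext
    show ((Φ 1 : Rˣ) : R) = 1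
    rw [map_one, Units.val_one]
  map_mul' a b := by
    apply Units.ext
    apply Subtype.ext
    show ((Φ (a * b) : Rˣ) : R) = ((Φ a : Rˣ) : R) * ((Φ b : Rˣ) : R)
    rw [map_mul, Units.val_mul]

lemma iter_map {R : Type x} {R' : Type y} [Ring R] [Ring R'] (ψ : R →+* R') (ρ : R →+* R)
    (ρ' : R' →+* R') (h : ∀ b, ψ (ρ b) = ρ' (ψ b)) (j : ℕ) (b : R) :
    ψ (ρ^[j] b) = ρ'^[j] (ψ b) := by
  induction j generalizing b with
  | zero => rfl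
  | succ j ih => rw [Function.iterate_succ_apply, Function.iterate_succ_apply, ih, h]

lemma nm_map {R : Type x} {R' : Type y} [Ring R] [Ring R'] (ψ : R →+* R') (ρ : R →+* R)
    (ρ' : R' →+* R') (h : ∀ b, ψ (ρ b) = ρ' (ψ b)) (N : ℕ) (b : R) :
    ψ (nm ρ N b) = nm ρ' N (ψ b) := by
  unfold nm
  rw [map_sum]
  exact Finset.sum_congr rfl fun j _ => iter_map ψ ρ ρ' h j b

section block

variable {k : Type u} [CommRing k] {G : Type v} [Group G] {ι κ : Type} [Fintype ι]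
  [DecidableEq ι] [Fintype κ] [DecidableEq κ]

/-- The subring of the block diagonal elements. -/
def BDs (k : Type u) [CommRing k] (G : Type v) [Group G] {ι : Type} [Fintype ι] [DecidableEq ι]
    (t : ι → Bool) (N : ℕ) [NeZero N] : Subring (TR k G ι N) where
  carrier := {x | BD t x}
  mul_mem' := fun ha hb => BD_mul t ha hb
  one_mem' := BD_one t
  add_mem' := fun ha hb => BD_add t ha hb
  zero_mem' := fun _ _ _ => rfl
  neg_mem' := by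
    intro x hx I J h
    rw [Matrix.neg_apply, hx I J h, neg_zero]

/-- The rotation on the block diagonal elements. -/
def rotB (t : ι → Bool) (N : ℕ) [NeZero N] : BDs k G t N →+* BDs k G t N :=
  (rot k G ι N).restrict (BDs k G t N) (BDs k G t N) fun _ hx => BD_rot t hx

lemma rotB_coe (t : ι → Bool) (N : ℕ) [NeZero N] (x : BDs k G t N) :
    (BDs k G t N).subtype (rotB t N x) = rot k G ι N ((BDs k G t N).subtype x) := rfl

lemma tr_sub (t : ι → Bool) {N : ℕ} [NeZero N] (a b : TR k G ι N) :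
    tr t (a - b) = tr t a - tr t b := by
  ext1 I J
  rw [Matrix.sub_apply, tr, tr, tr, Matrix.of_apply, Matrix.of_apply, Matrix.of_apply]
  split_ifs
  · rfl
  · rw [sub_zero]

lemma isDD (hIDD : SpecIDD.{u, v}) (p e : ℕ) [Fact p.Prime] [NeZero (p ^ e)]
    [NeZero (p ^ (e + 1))] (r : k →+* ZMod (p ^ (e + 1))) (hr : IsRed k p e r)
    (t : ι → Bool) {Γ : Type x} [Group Γ] (T D : Γ →* (BDs k G t (p ^ (e + 1)))ˣ)
    (φ : Γ → (Matrix ι ι (MonoidAlgebra k G))ˣ)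
    (h : ∀ y, (BDs k G t (p ^ (e + 1))).subtype (T y) = TT k G ι (p ^ (e + 1)) (φ y) ∧
      (BDs k G t (p ^ (e + 1))).subtype (D y) = DD k G ι p e (φ y)) :
    IsDD (p ^ (e + 1)) (rotB (k := k) (G := G) t (p ^ (e + 1))) T D where
  rT y := by
    apply (BDs k G t (p ^ (e + 1))).subtype_injective
    rw [rotB_coe, (h y).1]
    exact (hIDD.idd k p e r hr G ι).rT (φ y)
  rD y := by
    apply (BDs k G t (p ^ (e + 1))).subtype_injective
    rw [rotB_coe, (h y).2]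
    exact (hIDD.idd k p e r hr G ι).rD (φ y)
  surj y := by
    obtain ⟨c, hc⟩ := (hIDD.idd k p e r hr G ι).surj (φ y)
    refine ⟨⟨tr t c, BD_tr t c⟩, ?_⟩
    apply (BDs k G t (p ^ (e + 1))).subtype_injective
    rw [nm_map (BDs k G t (p ^ (e + 1))).subtype (rotB t (p ^ (e + 1)))
      (rot k G ι (p ^ (e + 1))) (rotB_coe t (p ^ (e + 1))), map_sub, (h y).1, (h y).2, ← hc,
      Subring.subtype_apply, ← tr_nm, hc, ← (h y).1, ← (h y).2, ← map_sub]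
    exact tr_of_BD t ((((D y : (BDs k G t (p ^ (e + 1)))ˣ) : BDs k G t (p ^ (e + 1))) -
      ((T y : (BDs k G t (p ^ (e + 1)))ˣ) : BDs k G t (p ^ (e + 1)))).2)
  ker b hb := by
    have h1 := nm_map (BDs k G t (p ^ (e + 1))).subtype (rotB t (p ^ (e + 1)))
      (rot k G ι (p ^ (e + 1))) (rotB_coe t (p ^ (e + 1))) (p ^ (e + 1)) b
    rw [hb, map_zero] at h1
    obtain ⟨q, hq⟩ := (hIDD.idd k p e r hr G ι).ker _ h1.symm
    refine ⟨⟨tr t q, BD_tr t q⟩, ?_⟩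
    apply (BDs k G t (p ^ (e + 1))).subtype_injective
    rw [map_sub, rotB_coe, Subring.subtype_apply, Subring.subtype_apply, ← tr_rot, ← tr_sub]
    rw [Subring.subtype_apply] at hq
    rw [← hq, tr_of_BD t b.2]

lemma closedR (t : ι → Bool) (c : Bool) (f : κ → ι) (h : ∀ i, t i = c ↔ ∃ j, f j = i) {N : ℕ}
    {a : TR k G ι N} (ha : BD t a) : ClosedR f a := by
  intro I J hJ
  apply ha
  intro h1
  apply hJ
  have h2 : ∀ j, ∃ i, f i = J j := by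
    intro j
    rw [← h]
    have h3 : t (f (I j)) = t (J j) := congrFun h1 j
    rw [← h3, h]
    exact ⟨_, rfl⟩
  choose g hg using h2
  exact ⟨g, funext fun j => (hg j).symm⟩

/-- `sb f` as a ring homomorphism on the block diagonal elements. -/
def sbH (t : ι → Bool) (c : Bool) (f : κ → ι) (hf : Function.Injective f)
    (h : ∀ i, t i = c ↔ ∃ j, f j = i) (N : ℕ) [NeZero N] : BDs k G t N →+* TR k G κ N where
  toFun x := sb f (x : TR k G ι N)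
  map_one' := sb_one hf
  map_mul' a _ := sb_mul hf _ _ (closedR t c f h a.2)
  map_zero' := rfl
  map_add' _ _ := rfl

end block

/-! ### the labels -/

lemma lab0 (a b : ℕ) (i : Fin (a + b)) : lab a b i = false ↔ ∃ j, Fin.castAdd b j = i := by
  unfold lab
  rw [decide_eq_false_iff_not, not_le]
  constructor
  · intro h
    exact ⟨⟨i, h⟩, Fin.ext rfl⟩
  · rintro ⟨j, rfl⟩
    exact j.2

lemma lab1 (a b : ℕ) (i : Fin (a + b)) : lab a b i = true ↔ ∃ j, Fin.natAdd a j = i := by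
  unfold lab
  rw [decide_eq_true_iff]
  constructor
  · intro h
    refine ⟨⟨(i : ℕ) - a, by have := i.2; omega⟩, Fin.ext ?_⟩
    show a + ((i : ℕ) - a) = i
    omega
  · rintro ⟨j, rfl⟩
    exact Nat.le_add_right a j

section dsum

variable {A : Type u} [Ring A] {a b : ℕ}

lemma block_lab (x : Matrix (Fin a) (Fin a) A) (y : Matrix (Fin b) (Fin b) A)
    (i j : Fin (a + b)) (h : lab a b i ≠ lab a b j) : D1.block x 0 y i j = 0 := by
  unfold D1.block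
  by_cases hi : lab a b i = false
  · have hj : lab a b j = true := by
      cases hj : lab a b j
      · exact absurd (hi.trans hj.symm) h
      · rfl
    obtain ⟨i', rfl⟩ := (lab0 a b i).1 hi
    obtain ⟨j', rfl⟩ := (lab1 a b j).1 hj
    simp
  · have hi' : lab a b i = true := by
      cases hi' : lab a b i
      · exact absurd hi' hi
      · rfl
    have hj : lab a b j = false := by
      cases hj : lab a b j
      · rfl
      · exact absurd (hi'.trans hj.symm) h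
    obtain ⟨i', rfl⟩ := (lab1 a b i).1 hi'
    obtain ⟨j', rfl⟩ := (lab0 a b j).1 hj
    simp

lemma block_sub0 (x : Matrix (Fin a) (Fin a) A) (y : Matrix (Fin b) (Fin b) A) :
    (D1.block x 0 y).submatrix (Fin.castAdd b) (Fin.castAdd b) = x := by
  unfold D1.block
  ext i j
  simp

lemma block_sub1 (x : Matrix (Fin a) (Fin a) A) (y : Matrix (Fin b) (Fin b) A) :
    (D1.block x 0 y).submatrix (Fin.natAdd a) (Fin.natAdd a) = y := by
  unfold D1.block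
  ext i j
  simp

end dsum

section fin

variable {k : Type u} [CommRing k] {G : Type v} [Group G]

lemma coe_liftU {Γ : Type x} {R : Type y} [Group Γ] [Ring R] (S : Subring R) (Φ : Γ →* Rˣ)
    (h : ∀ y, ((Φ y : Rˣ) : R) ∈ S) (y : Γ) :
    (((liftU S Φ h y : Sˣ) : S) : R) = ((Φ y : Rˣ) : R) := rfl

lemma TT_val {ι : Type} [Fintype ι] [DecidableEq ι] (N : ℕ) [NeZero N]
    (x : (Matrix ι ι (MonoidAlgebra k G))ˣ) :
    ((TT k G ι N x : (TR k G ι N)ˣ) : TR k G ι N) = tens k G ι N x.val := rfl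

lemma DD_val {ι : Type} [Fintype ι] [DecidableEq ι] (p e : ℕ) [NeZero (p ^ e)]
    [NeZero (p ^ (e + 1))] (x : (Matrix ι ι (MonoidAlgebra k G))ˣ) :
    ((DD k G ι p e x : (TR k G ι (p ^ (e + 1)))ˣ) : TR k G ι (p ^ (e + 1))) =
      dhat k G ι p e x.val := rfl

lemma dsum_val {A : Type u} [Ring A] {a b : ℕ} (y : Gl a A × Gl b A) :
    ((dsum a b y : Gl (a + b) A) : Matrix (Fin (a + b)) (Fin (a + b)) A) =
      D1.block y.1.val 0 y.2.val := rfl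

lemma sbH_apply {ι κ : Type} [Fintype ι] [DecidableEq ι] [Fintype κ] [DecidableEq κ]
    (t : ι → Bool) (c : Bool) (f : κ → ι) (hf : Function.Injective f)
    (h : ∀ i, t i = c ↔ ∃ j, f j = i) (N : ℕ) [NeZero N] (x : BDs k G t N) :
    sbH t c f hf h N x = sb f (x : TR k G ι N) := rfl

lemma hT (p e a b : ℕ) [NeZero (p ^ e)] [NeZero (p ^ (e + 1))]
    (y : Gl a (MonoidAlgebra k G) × Gl b (MonoidAlgebra k G)) :
    ((TT k G (Fin (a + b)) (p ^ (e + 1)) (dsum a b y) :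
      (TR k G (Fin (a + b)) (p ^ (e + 1)))ˣ) : TR k G (Fin (a + b)) (p ^ (e + 1))) ∈
      BDs k G (lab a b) (p ^ (e + 1)) := by
  rw [TT_val, dsum_val]
  exact BD_tens (lab a b) (block_lab y.1.val y.2.val)

lemma hD (p e a b : ℕ) [NeZero (p ^ e)] [NeZero (p ^ (e + 1))]
    (y : Gl a (MonoidAlgebra k G) × Gl b (MonoidAlgebra k G)) :
    ((DD k G (Fin (a + b)) p e (dsum a b y) :
      (TR k G (Fin (a + b)) (p ^ (e + 1)))ˣ) : TR k G (Fin (a + b)) (p ^ (e + 1))) ∈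
      BDs k G (lab a b) (p ^ (e + 1)) := by
  rw [DD_val, dsum_val]
  exact BD_dhat (lab a b) (block_lab y.1.val y.2.val)

/-- `T` on the block diagonal elements. -/
def TB (k : Type u) [CommRing k] (G : Type v) [Group G] (p e a b : ℕ) [NeZero (p ^ e)]
    [NeZero (p ^ (e + 1))] :
    Gl a (MonoidAlgebra k G) × Gl b (MonoidAlgebra k G) →* (BDs k G (lab a b) (p ^ (e + 1)))ˣ :=
  liftU (BDs k G (lab a b) (p ^ (e + 1)))
    ((TT k G (Fin (a + b)) (p ^ (e + 1))).comp (dsum a b)) (hT p e a b)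

/-- `D` on the block diagonal elements. -/
def DB (k : Type u) [CommRing k] (G : Type v) [Group G] (p e a b : ℕ) [NeZero (p ^ e)]
    [NeZero (p ^ (e + 1))] :
    Gl a (MonoidAlgebra k G) × Gl b (MonoidAlgebra k G) →* (BDs k G (lab a b) (p ^ (e + 1)))ˣ :=
  liftU (BDs k G (lab a b) (p ^ (e + 1))) ((DD k G (Fin (a + b)) p e).comp (dsum a b)) (hD p e a b)

lemma coe_TB (p e a b : ℕ) [NeZero (p ^ e)] [NeZero (p ^ (e + 1))]
    (y : Gl a (MonoidAlgebra k G) × Gl b (MonoidAlgebra k G)) :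
    (((TB k G p e a b y : (BDs k G (lab a b) (p ^ (e + 1)))ˣ) : BDs k G (lab a b) (p ^ (e + 1))) :
      TR k G (Fin (a + b)) (p ^ (e + 1))) =
      tens k G (Fin (a + b)) (p ^ (e + 1)) (D1.block y.1.val 0 y.2.val) := by
  unfold TB
  rw [coe_liftU, MonoidHom.comp_apply, TT_val, dsum_val]

lemma coe_DB (p e a b : ℕ) [NeZero (p ^ e)] [NeZero (p ^ (e + 1))]
    (y : Gl a (MonoidAlgebra k G) × Gl b (MonoidAlgebra k G)) :
    (((DB k G p e a b y : (BDs k G (lab a b) (p ^ (e + 1)))ˣ) : BDs k G (lab a b) (p ^ (e + 1))) :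
      TR k G (Fin (a + b)) (p ^ (e + 1))) =
      dhat k G (Fin (a + b)) p e (D1.block y.1.val 0 y.2.val) := by
  unfold DB
  rw [coe_liftU, MonoidHom.comp_apply, DD_val, dsum_val]


lemma c0 (p e a b : ℕ) [NeZero (p ^ e)] [NeZero (p ^ (e + 1))]
    (y : Gl a (MonoidAlgebra k G) × Gl b (MonoidAlgebra k G)) :
    (BDs k G (lab a b) (p ^ (e + 1))).subtype (TB k G p e a b y) =
        TT k G (Fin (a + b)) (p ^ (e + 1)) (dsum a b y) ∧
      (BDs k G (lab a b) (p ^ (e + 1))).subtype (DB k G p e a b y) =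
        DD k G (Fin (a + b)) p e (dsum a b y) := by
  constructor
  · rw [Subring.subtype_apply, coe_TB, TT_val, dsum_val]
  · rw [Subring.subtype_apply, coe_DB, DD_val, dsum_val]

lemma c1 (p e a b : ℕ) [NeZero (p ^ e)] [NeZero (p ^ (e + 1))]
    (y : Gl a (MonoidAlgebra k G) × Gl b (MonoidAlgebra k G)) :
    sbH (k := k) (G := G) (lab a b) false (Fin.castAdd b) (Fin.castAdd_injective a b) (lab0 a b)
      (p ^ (e + 1)) (TB k G p e a b y) =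
        TT k G (Fin a) (p ^ (e + 1)) (MonoidHom.fst _ _ y) ∧
    sbH (k := k) (G := G) (lab a b) false (Fin.castAdd b) (Fin.castAdd_injective a b) (lab0 a b)
      (p ^ (e + 1)) (DB k G p e a b y) =
        DD k G (Fin a) p e (MonoidHom.fst _ _ y) := by
  constructor
  · rw [sbH_apply, coe_TB, TT_val, sb_tens, block_sub0]
    rfl
  · rw [sbH_apply, coe_DB, DD_val, sb_dhat (Fin.castAdd_injective a b), block_sub0]
    rfl

lemma c2 (p e a b : ℕ) [NeZero (p ^ e)] [NeZero (p ^ (e + 1))]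
    (y : Gl a (MonoidAlgebra k G) × Gl b (MonoidAlgebra k G)) :
    sbH (k := k) (G := G) (lab a b) true (Fin.natAdd a) (Fin.natAdd_injective b a) (lab1 a b)
      (p ^ (e + 1)) (TB k G p e a b y) =
        TT k G (Fin b) (p ^ (e + 1)) (MonoidHom.snd _ _ y) ∧
    sbH (k := k) (G := G) (lab a b) true (Fin.natAdd a) (Fin.natAdd_injective b a) (lab1 a b)
      (p ^ (e + 1)) (DB k G p e a b y) =
        DD k G (Fin b) p e (MonoidHom.snd _ _ y) := by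
  constructor
  · rw [sbH_apply, coe_TB, TT_val, sb_tens, block_sub1]
    rfl
  · rw [sbH_apply, coe_DB, DD_val, sb_dhat (Fin.natAdd_injective b a), block_sub1]
    rfl

lemma rho1 {ι κ : Type} [Fintype ι] [DecidableEq ι] [Fintype κ] [DecidableEq κ]
    (t : ι → Bool) (c : Bool) (f : κ → ι) (hf : Function.Injective f)
    (h : ∀ i, t i = c ↔ ∃ j, f j = i) (N : ℕ) [NeZero N] (x : BDs k G t N) :
    sbH t c f hf h N (rotB t N x) = rot k G κ N (sbH t c f hf h N x) := by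
  rw [sbH_apply, sbH_apply]
  exact sb_rot f _

end fin

end HVBM

open HVBM in
theorem specHVB (hNTL : SpecNTL.{max u v, v, v, 0, max u v}) (hRLS : SpecRLS.{v, 0, v})
    (hPSH : SpecPSH.{max u v, max u v, max u v, max u v, 0})
    (hPKG : SpecPKG.{max u v, v, v, 0, max u v}) (hIDD : SpecIDD.{u, v})
    (hBRS : SpecBRS.{v, u}) : SpecHVB.{u, v} := by
  intro k _ p e _ _ _ r hr G _ a b X₀ X₁ X₂ hX h₀ h₁ h₂ H₀ H₁ H₂ z hz
  obtain ⟨Rs, hm, hb, ht, hdl⟩ := hBRS (p ^ (e + 1)) G (Fin (a + b)) (Fin a) (Fin b) (lab a b)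
    (Fin.castAdd b) (Fin.natAdd a) (Fin.castAdd_injective a b) (Fin.natAdd_injective b a)
    (lab0 a b) (lab1 a b)
  have hXX : ∀ l : List (SR (p ^ (e + 1)) G (Fin (a + b)) × SR (p ^ (e + 1)) G (Fin a) ×
      SR (p ^ (e + 1)) G (Fin b)), (∀ s ∈ l, s ∈ Rs) → X₀ (l.map fun s => s.1) =
        1 • X₁ (l.map fun s => s.2.1) + 1 • X₂ (l.map fun s => s.2.2) := by
    intro l hl
    rw [hX (l.map fun s => s.1), one_smul, one_smul, List.map_map, List.map_map]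
    · congr 2
      · exact List.map_congr_left fun s hs => ((hm s).1 (hl s hs)).2.1.symm
      · exact List.map_congr_left fun s hs => ((hm s).1 (hl s hs)).2.2.symm
    · intro s hs
      obtain ⟨s', hs', rfl⟩ := List.mem_map.1 hs
      exact ((hm s').1 (hl s' hs')).1
  have hDD : IsDD (p ^ (e + 1)) (rotB (k := k) (G := G) (lab a b) (p ^ (e + 1)))
      (TB k G p e a b) (DB k G p e a b) :=
    isDD hIDD p e r hr (lab a b) (TB k G p e a b) (DB k G p e a b) (dsum a b) (c0 p e a b)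
  have hbb : ∀ x : BDs k G (lab a b) (p ^ (e + 1)),
      (iB k (p ^ (e + 1)) r G (Fin (a + b)) ((BDs k G (lab a b) (p ^ (e + 1))).subtype x),
      iB k (p ^ (e + 1)) r G (Fin a) (sbH (lab a b) false (Fin.castAdd b)
        (Fin.castAdd_injective a b) (lab0 a b) (p ^ (e + 1)) x),
      iB k (p ^ (e + 1)) r G (Fin b) (sbH (lab a b) true (Fin.natAdd a)
        (Fin.natAdd_injective b a) (lab1 a b) (p ^ (e + 1)) x)) ∈ Rs := fun x => hb k r x.1 x.2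
  have key := main3 hNTL hRLS hPSH hPKG hIDD k p e r hr G (Fin (a + b)) (Fin a) (Fin b) X₀ X₁ X₂
    h₀ h₁ h₂ H₀ H₁ H₂ (Gl a (MonoidAlgebra k G) × Gl b (MonoidAlgebra k G))
    (BDs k G (lab a b) (p ^ (e + 1))) (rotB (lab a b) (p ^ (e + 1)))
    (TB k G p e a b) (DB k G p e a b) hDD (dsum a b)
    (MonoidHom.fst _ _) (MonoidHom.snd _ _) (BDs k G (lab a b) (p ^ (e + 1))).subtype
    (sbH (lab a b) false (Fin.castAdd b) (Fin.castAdd_injective a b) (lab0 a b) (p ^ (e + 1)))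
    (sbH (lab a b) true (Fin.natAdd a) (Fin.natAdd_injective b a) (lab1 a b) (p ^ (e + 1)))
    (rotB_coe (lab a b) (p ^ (e + 1)))
    (rho1 (lab a b) false (Fin.castAdd b) (Fin.castAdd_injective a b) (lab0 a b) (p ^ (e + 1)))
    (rho1 (lab a b) true (Fin.natAdd a) (Fin.natAdd_injective b a) (lab1 a b) (p ^ (e + 1)))
    (c0 p e a b) (c1 p e a b) (c2 p e a b) Rs 1 1 hXX hbb ht hdl z hz
  rw [one_smul, one_smul] at key
  exact key

end Pool.Agent.Lib.MPb6f35e.KA
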