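import Pool.Agent.Lib.MP_b6f35e_al.KA.SpecE

/-!
# Rational K-theory in all degrees (MP_b6f35e_al), module HVC (helper26)
-/

set_option autoImplicit false

noncomputable section

namespace Pool.Agent.Lib.MPb6f35e.KA

open Pool.Agent.Lib.MPb6f35e.WH Pool.Agent.Lib.MPb6f35e.K2

universe u v w x

namespace HVCM

theorem mapE_id {B : Type u} [Ring B] (l : List (EB B)) : l.map (mapE (RingHom.id B)) = l := by
  conv_rhs => rw [← List.map_id l]
  refine List.map_congr_left fun y _ => ?_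
  refine Prod.ext (Units.ext rfl) (Prod.ext (Units.ext rfl) rfl)

theorem mapR_id {Γ : Type u} {B : Type v} [Group Γ] [Ring B] {T D : Γ →* Bˣ}
    (l : List (RT T D)) : l.map (mapR (MonoidHom.id Γ) (RingHom.id B)) = l := by
  conv_rhs => rw [← List.map_id l]
  exact List.map_congr_left fun y _ => rfl

theorem cmap_id {X : Type u} [Group X] (z : Ch X) : cmap (MonoidHom.id X) z = z := by
  have h : List.map (MonoidHom.id X : X → X) = id := by
    funext l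
    exact List.map_id l
  show FreeAbelianGroup.map (List.map (MonoidHom.id X : X → X)) z = z
  rw [h]
  exact FreeAbelianGroup.map_id_apply z

end HVCM

open HVCM in
theorem specHVC (hNTL : SpecNTL.{max u v, v, v, 0, max u v}) (hRLS : SpecRLS.{v, 0, v})
    (hPSH : SpecPSH.{max u v, max u v, max u v, max u v, 0})
    (hPKG : SpecPKG.{max u v, v, v, 0, max u v}) (hIDD : SpecIDD.{u, v}) : SpecHVC.{u, v} := by
  intro k _ p e _ _ _ r hr G _ a m X₀ X₁ hX h₀ h₁ H₀ H₁ z hz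
  obtain ⟨Ω₀, _, lam₀, ep₀, d₀, I₀, hO₀, hh₀⟩ := H₀
  obtain ⟨Ω₁, _, lam₁, ep₁, d₁, I₁, hO₁, hh₁⟩ := H₁
  let id3 : SR (p ^ (e + 1)) G (Fin a) →+*
      SR (p ^ (e + 1)) G (Fin a) × SR (p ^ (e + 1)) G (Fin a) × SR (p ^ (e + 1)) G (Fin a) :=
    (RingHom.id _).prod ((RingHom.id _).prod (RingHom.id _))
  obtain ⟨Rl, hl, hd, hI⟩ := hRLS _ _ _ Ω₀ Ω₁ Ω₁ _ _ _ _ X₀ X₁ X₁ lam₀ lam₁ lam₁ ep₀ ep₁ ep₁
    d₀ d₁ d₁ I₀ I₁ I₁ hO₀ hO₁ hO₁ id3.range m 0 (by
      intro l hlR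
      rw [zero_smul, add_zero, hX]
      congr 2
      refine List.map_congr_left fun s hs => ?_
      obtain ⟨t, rfl⟩ := hlR s hs
      rfl)
  have hRl : IsRl m 0 (mkD (k := k) p e r lam₀ ep₀ d₀ I₀) (mkD (k := k) p e r lam₁ ep₁ d₁ I₁)
      (mkD (k := k) p e r lam₁ ep₁ d₁ I₁) (RingHom.id (TR k G (Fin a) (p ^ (e + 1))))
      (RingHom.id _) (RingHom.id _) id3.range Rl :=
    { N₁ := rfl
      N₂ := rfl
      b := fun b => ⟨_, rfl⟩
      t := ⟨_, rfl⟩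
      dl := by
        rintro s ⟨t, rfl⟩
        exact ⟨_, rfl⟩
      lam := hl
      d := hd
      I := hI }
  have hN := hNTL _ _ _ _ _ _ _ _ _ _ _ _ _ _ _ _ _ _ _ m 0 hRl
  have hid := hIDD.idd k p e r hr G (Fin a)
  have hF₀ := hPKG _ _ _ _ _ _ (hIDD.ok k p e r hr G (Fin a) Ω₀ lam₀ ep₀ d₀ I₀ X₀ hO₀) _ _ hid
  have hF₁ := hPKG _ _ _ _ _ _ (hIDD.ok k p e r hr G (Fin a) Ω₁ lam₁ ep₁ d₁ I₁ X₁ hO₁) _ _ hid
  have key := hPSH _ _ _ _ _ _ _ _ _ _ _ _ _ hid _ _ _ hid _ _ _ hid _ _ _ hid _ _ _ _ _ _ _ _ _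
    hF₀ hF₁ hF₁ (MonoidHom.id _) (MonoidHom.id _) (MonoidHom.id _) (RingHom.id _) (RingHom.id _)
    (RingHom.id _) (fun _ => rfl) (fun _ => rfl) (fun _ => rfl) (fun _ => ⟨rfl, rfl⟩)
    (fun _ => ⟨rfl, rfl⟩) (fun _ => ⟨rfl, rfl⟩) m 0
    (fun l => by
      have h := (hN ((run 1 l).map toE)).1
      rw [mapE_id] at h
      rw [mapR_id]
      exact h)
    (fun l => by
      have h := (hN ((run 1 l).map toE)).2.1
      rw [mapE_id] at h
      rw [mapR_id]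
      exact h)
    (fun l => by
      have h := (hN ((run 1 l).map toE)).2.2
      rw [mapE_id] at h
      rw [mapR_id]
      exact h) z hz
  rw [cmap_id, zero_smul, add_zero] at key
  rw [hh₀, hh₁]
  exact key

end Pool.Agent.Lib.MPb6f35e.KA
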