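import Pool.Agent.Lib.MP_b6f35e_al.KA.SpecC

/-! # folder KA: the three targets (PSH) -/

set_option autoImplicit false

noncomputable section

namespace Pool.Agent.Lib.MPb6f35e.KA

open Pool.Agent.Lib.MPb6f35e.WH Pool.Agent.Lib.MPb6f35e.K2

universe u v w x y

namespace PSHM

/-! ### naturality of the boundary -/

section

variable {X : Type u} {Y : Type v} {M : Type w} {M' : Type x} [AddCommGroup M] [AddCommGroup M']

theorem tl_hom [Mul X] (g : M →+ M') : ∀ (l : List X) (F : List X → M),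
    g (tl F l) = tl (fun l => g (F l)) l
  | [], _ => map_zero g
  | [_], _ => rfl
  | a :: b :: l, F => by
    show g (F ((a * b) :: l) - tl (fun l' => F (a :: l')) (b :: l)) = _
    rw [map_sub, tl_hom g (b :: l)]
    rfl

theorem bdF_hom [Mul X] (g : M →+ M') (F : List X → M) (l : List X) :
    g (bdF F l) = bdF (fun l => g (F l)) l := by
  cases l with
  | nil => exact map_zero g
  | cons a l =>
    show g (F l - tl F (a :: l)) = _
    rw [map_sub, tl_hom]
    rfl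

theorem tl_map [Mul X] [Mul Y] (f : X → Y) (hf : ∀ a b, f (a * b) = f a * f b) :
    ∀ (l : List X) (F : List Y → M), tl F (l.map f) = tl (fun l => F (l.map f)) l
  | [], _ => rfl
  | [_], _ => rfl
  | a :: b :: l, F => by
    show F ((f a * f b) :: l.map f) - tl (fun l' => F (f a :: l')) ((b :: l).map f) =
      F (f (a * b) :: l.map f) - tl (fun l' => F ((a :: l').map f)) (b :: l)
    rw [tl_map f hf (b :: l), hf]
    rfl

theorem bdF_map [Mul X] [Mul Y] (f : X → Y) (hf : ∀ a b, f (a * b) = f a * f b)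
    (F : List Y → M) (l : List X) : bdF F (l.map f) = bdF (fun l => F (l.map f)) l := by
  cases l with
  | nil => rfl
  | cons a l =>
    show F (l.map f) - tl F ((a :: l).map f) = _
    rw [tl_map f hf]
    rfl

theorem bd_of [Mul X] (l : List X) :
    bd (FreeAbelianGroup.of l) = bdF FreeAbelianGroup.of l :=
  FreeAbelianGroup.lift_apply_of _ _

theorem cmap_of (f : X → Y) (l : List X) :
    cmap f (FreeAbelianGroup.of l) = FreeAbelianGroup.of (l.map f) :=
  FreeAbelianGroup.map_of_apply _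

theorem bd_nat [Mul X] [Mul Y] (f : X → Y) (hf : ∀ a b, f (a * b) = f a * f b) (z : Ch X) :
    bd (cmap f z) = cmap f (bd z) := by
  have h : (bd (X := Y)).comp (cmap f) = (cmap f).comp bd := by
    refine FreeAbelianGroup.lift_ext _ _ fun l => ?_
    show bd (cmap f (FreeAbelianGroup.of l)) = cmap f (bd (FreeAbelianGroup.of l))
    rw [cmap_of, bd_of, bd_of, bdF_map f hf, bdF_hom]
    congr 1
  exact DFunLike.congr_fun h z

end

/-! ### joint additivity -/

section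

variable {Γ : Type u} {B : Type v} {M : Type w} [Group Γ] [Ring B] [AddCommGroup M]
  {T D : Γ →* Bˣ}

theorem tl_jadd : ∀ (l : List Γ) (C : Type v) [AddCommGroup C] (F : C → List (RT T D) → M)
    (_ : ∀ (c c' : C) (l : List Γ) (q q' : ℕ → B),
      F (c + c') (pr T D l (q + q')) = F c (pr T D l q) + F c' (pr T D l q'))
    (c c' : C) (q q' : ℕ → B), tl (F (c + c')) (pr T D l (q + q')) =
      tl (F c) (pr T D l q) + tl (F c') (pr T D l q')
  | [], _, _, _, _, _, _, _, _ => (add_zero (0 : M)).symm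
  | [_], _, _, _, hF, c, c', q, q' => hF c c' [] q q'
  | a :: b :: l, C, _, F, hF, c, c', q, q' => by
    have h1 := hF c c' (a * b :: l) (fun j => Nat.casesOn j ((T a : B) * q 1 + q 0 * D b)
      fun j => q (j + 2)) (fun j => Nat.casesOn j ((T a : B) * q' 1 + q' 0 * D b)
      fun j => q' (j + 2))
    have h2 := tl_jadd (b :: l) (C × B) (fun p l' => F p.1 (⟨a, p.2⟩ :: l')) (by
      rintro ⟨c, p⟩ ⟨c', p'⟩ l r r'
      have h3 := hF c c' (a :: l) (fun j => Nat.casesOn j p r) (fun j => Nat.casesOn j p' r')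
      exact h3) (c, q 0) (c', q' 0) (fun j => q (j + 1)) (fun j => q' (j + 1))
    have e : (((T a : B) * q 1 + q 0 * D b) + ((T a : B) * q' 1 + q' 0 * D b)) =
        (T a : B) * (q + q') 1 + (q + q') 0 * D b := by
      simp only [Pi.add_apply, mul_add, add_mul]
      abel
    have h1' : F (c + c') (⟨a * b, (T a : B) * (q + q') 1 + (q + q') 0 * D b⟩ ::
        pr T D l (fun j => (q + q') (j + 2))) =
        F c (⟨a * b, (T a : B) * q 1 + q 0 * D b⟩ :: pr T D l (fun j => q (j + 2))) +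
        F c' (⟨a * b, (T a : B) * q' 1 + q' 0 * D b⟩ :: pr T D l (fun j => q' (j + 2))) := by
      rw [← e]
      exact h1
    show F (c + c') (⟨a * b, (T a : B) * (q + q') 1 + (q + q') 0 * D b⟩ ::
        pr T D l (fun j => (q + q') (j + 2))) -
      tl (fun l' => F (c + c') (⟨a, (q + q') 0⟩ :: l')) (pr T D (b :: l) fun j => (q + q') (j + 1))
      = (F c (⟨a * b, (T a : B) * q 1 + q 0 * D b⟩ :: pr T D l (fun j => q (j + 2))) -
        tl (fun l' => F c (⟨a, q 0⟩ :: l')) (pr T D (b :: l) fun j => q (j + 1))) +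
      (F c' (⟨a * b, (T a : B) * q' 1 + q' 0 * D b⟩ :: pr T D l (fun j => q' (j + 2))) -
        tl (fun l' => F c' (⟨a, q' 0⟩ :: l')) (pr T D (b :: l) fun j => q' (j + 1)))
    have h2' : tl (fun l' => F (c + c') (⟨a, (q + q') 0⟩ :: l'))
        (pr T D (b :: l) fun j => (q + q') (j + 1)) =
        tl (fun l' => F c (⟨a, q 0⟩ :: l')) (pr T D (b :: l) fun j => q (j + 1)) +
        tl (fun l' => F c' (⟨a, q' 0⟩ :: l')) (pr T D (b :: l) fun j => q' (j + 1)) := h2
    rw [h1', h2']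
    abel

theorem jadd_zero {F : List (RT T D) → M} (h : Jadd F) (l : List Γ) : F (pr T D l 0) = 0 := by
  have := h l 0 0
  rw [add_zero] at this
  exact left_eq_add.1 this

/-- the homomorphism `FL F` -/
def FLh (F : List (RT T D) → M) (h : Jadd F) : LL Γ B →+ M where
  toFun := FL F
  map_zero' := Finsupp.sum_zero_index
  map_add' x y := Finsupp.sum_add_index' (fun l => jadd_zero h l) fun l q q' => h l q q'

theorem FLh_apply (F : List (RT T D) → M) (h : Jadd F) (x : LL Γ B) : FLh F h x = FL F x := rfl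

theorem FL_single (F : List (RT T D) → M) (h : Jadd F) (l : List Γ) (q : ℕ → B) :
    FL F (Finsupp.single l q) = F (pr T D l q) := Finsupp.sum_single_index (jadd_zero h l)

theorem map_y (l : List Γ) (q : ℕ → B) : (pr T D l q).map RT.y = l := by
  induction l generalizing q with
  | nil => rfl
  | cons a l ih =>
    show a :: (pr T D l _).map RT.y = _
    rw [ih]

theorem map_q (l : List Γ) (q : ℕ → B) (j : ℕ) :
    ((pr T D l q).map RT.q).getD j 0 = if j < l.length then q j else 0 := by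
  induction l generalizing q j with
  | nil => rfl
  | cons a l ih =>
    cases j with
    | zero =>
      show q 0 = _
      rw [if_pos (by simp)]
    | succ j =>
      show ((pr T D l fun j => q (j + 1)).map RT.q).getD j 0 = _
      rw [ih]
      simp only [List.length_cons, Nat.add_lt_add_iff_right]

theorem lamL_of (l : List (RT T D)) : lamL T D (FreeAbelianGroup.of l) =
    Finsupp.single (l.map RT.y) fun j => (l.map RT.q).getD j 0 :=
  FreeAbelianGroup.lift_apply_of _ _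

theorem jadd_lam : Jadd (fun l : List (RT T D) => lamL T D (FreeAbelianGroup.of l)) := by
  intro l q q'
  show lamL T D (FreeAbelianGroup.of (pr T D l (q + q'))) =
    lamL T D (FreeAbelianGroup.of (pr T D l q)) + lamL T D (FreeAbelianGroup.of (pr T D l q'))
  rw [lamL_of, lamL_of, lamL_of, map_y, map_y, map_y, ← Finsupp.single_add]
  congr 1
  funext j
  rw [Pi.add_apply, map_q, map_q, map_q]
  split_ifs with h
  · rfl
  · exact (add_zero (0 : B)).symm

theorem jadd_bd : Jadd (fun l : List (RT T D) => lamL T D (bd (FreeAbelianGroup.of l))) := by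
  have h0 : (fun l : List (RT T D) => lamL T D (bd (FreeAbelianGroup.of l))) =
      bdF (fun l => lamL T D (FreeAbelianGroup.of l)) := by
    funext l
    rw [bd_of, bdF_hom]
  rw [h0]
  intro l q q'
  have h1 := tl_jadd (T := T) (D := D) l PUnit.{v + 1}
    (fun _ l => lamL T D (FreeAbelianGroup.of l)) (fun _ _ l q q' => jadd_lam l q q')
    PUnit.unit PUnit.unit q q'
  have h1' : tl (fun l => lamL T D (FreeAbelianGroup.of l)) (pr T D l (q + q')) =
      tl (fun l => lamL T D (FreeAbelianGroup.of l)) (pr T D l q) +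
      tl (fun l => lamL T D (FreeAbelianGroup.of l)) (pr T D l q') := h1
  cases l with
  | nil => exact (add_zero _).symm
  | cons a l =>
    have h2 : lamL T D (FreeAbelianGroup.of (pr T D l fun j => (q + q') (j + 1))) =
      lamL T D (FreeAbelianGroup.of (pr T D l fun j => q (j + 1))) +
      lamL T D (FreeAbelianGroup.of (pr T D l fun j => q' (j + 1))) :=
      jadd_lam l (fun j => q (j + 1)) (fun j => q' (j + 1))
    show lamL T D (FreeAbelianGroup.of (pr T D l fun j => (q + q') (j + 1))) -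
        tl (fun l => lamL T D (FreeAbelianGroup.of l)) (pr T D (a :: l) (q + q')) =
      (lamL T D (FreeAbelianGroup.of (pr T D l fun j => q (j + 1))) -
        tl (fun l => lamL T D (FreeAbelianGroup.of l)) (pr T D (a :: l) q)) +
      (lamL T D (FreeAbelianGroup.of (pr T D l fun j => q' (j + 1))) -
        tl (fun l => lamL T D (FreeAbelianGroup.of l)) (pr T D (a :: l) q'))
    rw [h1', h2]
    abel

end

/-! ### the map of the pairs -/

section

variable {Γ : Type u} {B : Type v} [Group Γ] [Ring B] {Γ' : Type w} {B' : Type x}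
  [Group Γ'] [Ring B'] {T D : Γ →* Bˣ} {T' D' : Γ' →* B'ˣ}

/-- the map of the sequences -/
def mL (φ : Γ →* Γ') (ψ : B →+* B') : LL Γ B →+ LL Γ' B' :=
  Finsupp.liftAddHom fun l => (Finsupp.singleAddHom (l.map φ)).comp
    (AddMonoidHom.compLeft ψ.toAddMonoidHom ℕ)

theorem mL_single (φ : Γ →* Γ') (ψ : B →+* B') (l : List Γ) (q : ℕ → B) :
    mL φ ψ (Finsupp.single l q) = Finsupp.single (l.map φ) fun j => ψ (q j) := by
  rw [mL, Finsupp.liftAddHom_apply_single]
  rfl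

theorem pr_map (φ : Γ →* Γ') (ψ : B →+* B') (l : List Γ) (q : ℕ → B) :
    (pr T D l q).map (mapR φ ψ) = pr T' D' (l.map φ) fun j => ψ (q j) := by
  induction l generalizing q with
  | nil => rfl
  | cons a l ih =>
    show mapR φ ψ ⟨a, q 0⟩ :: (pr T D l fun j => q (j + 1)).map (mapR φ ψ) = _
    rw [ih]
    rfl

theorem mapR_mul (φ : Γ →* Γ') (ψ : B →+* B')
    (h : ∀ y, ψ (T y) = T' (φ y) ∧ ψ (D y) = D' (φ y)) (a b : RT T D) :
    (mapR φ ψ (a * b) : RT T' D') = mapR φ ψ a * mapR φ ψ b := by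
  apply RT.ext'
  · exact map_mul φ _ _
  · show ψ ((T a.y : B) * b.q + a.q * D b.y) = (T' (φ a.y) : B') * ψ b.q + ψ a.q * D' (φ b.y)
    rw [map_add, map_mul, map_mul, (h _).1, (h _).2]

theorem lamL_cmap (φ : Γ →* Γ') (ψ : B →+* B') (a : Ch (RT T D)) :
    lamL T' D' (cmap (mapR φ ψ) a) = mL φ ψ (lamL T D a) := by
  have h : (lamL T' D').comp (cmap (mapR φ ψ)) = (mL φ ψ).comp (lamL T D) := by
    refine FreeAbelianGroup.lift_ext _ _ fun l => ?_
    show lamL T' D' (cmap (mapR φ ψ) (FreeAbelianGroup.of l)) =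
      mL φ ψ (lamL T D (FreeAbelianGroup.of l))
    rw [cmap_of, lamL_of, lamL_of, mL_single, List.map_map, List.map_map, List.map_map]
    congr 1
    funext j
    have e : (RT.q ∘ (mapR φ ψ : RT T D → RT T' D')) = ψ ∘ RT.q := rfl
    rw [e, ← List.map_map, List.getD_eq_getElem?_getD, List.getD_eq_getElem?_getD,
      List.getElem?_map]
    cases (List.map RT.q l)[j]? with
    | none => exact (map_zero ψ).symm
    | some b => rfl
  exact DFunLike.congr_fun h a

theorem FL_mL {M : Type y} [AddCommGroup M] (φ : Γ →* Γ') (ψ : B →+* B')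
    (F : List (RT T' D') → M) (h : Jadd F) (x : LL Γ B) :
    FL F (mL φ ψ x) = FL (fun l : List (RT T D) => F (l.map (mapR φ ψ))) x := by
  have h' : Jadd (fun l : List (RT T D) => F (l.map (mapR φ ψ))) := by
    intro l q q'
    show F ((pr T D l (q + q')).map (mapR φ ψ)) = _
    rw [pr_map]
    have h1 := h (l.map φ) (fun j => ψ (q j)) (fun j => ψ (q' j))
    have e : (fun j => ψ ((q + q') j)) = (fun j => ψ (q j)) + fun j => ψ (q' j) := by
      funext j
      exact map_add ψ _ _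
    rw [e, h1, ← pr_map (T := T) (D := D), ← pr_map (T := T) (D := D)]
  have e : (FLh F h).comp (mL φ ψ) = FLh _ h' := by
    refine Finsupp.addHom_ext fun l q => ?_
    rw [AddMonoidHom.comp_apply, mL_single, FLh_apply, FLh_apply, FL_single _ h, FL_single _ h',
      pr_map]
  exact DFunLike.congr_fun e x

theorem bdL_mL (φ : Γ →* Γ') (ψ : B →+* B')
    (h : ∀ y, ψ (T y) = T' (φ y) ∧ ψ (D y) = D' (φ y)) (x : LL Γ B) :
    bdL T' D' (mL φ ψ x) = mL φ ψ (bdL T D x) := by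
  unfold bdL
  rw [FL_mL (T := T) (D := D) φ ψ _ jadd_bd]
  unfold FL
  rw [map_finsuppSum]
  refine Finsupp.sum_congr fun l _ => ?_
  show lamL T' D' (bd (FreeAbelianGroup.of ((pr T D l (x l)).map (mapR φ ψ)))) = _
  rw [← cmap_of, bd_nat _ (mapR_mul φ ψ h), lamL_cmap]

omit [Group Γ] in
theorem rhL_single (ρ : B →+* B) (l : List Γ) (q : ℕ → B) :
    rhL ρ (Finsupp.single l q) = Finsupp.single l fun j => ρ (q j) := by
  unfold rhL
  rw [Finsupp.mapRange.addMonoidHom_apply, Finsupp.mapRange_single]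
  rfl

theorem rhL_mL (φ : Γ →* Γ') (ψ : B →+* B') (ρ : B →+* B) (ρ' : B' →+* B')
    (h : ∀ b, ψ (ρ b) = ρ' (ψ b)) (x : LL Γ B) :
    rhL ρ' (mL φ ψ x) = mL φ ψ (rhL ρ x) := by
  have e : (rhL (Γ := Γ') ρ').comp (mL φ ψ) = (mL φ ψ).comp (rhL ρ) := by
    refine Finsupp.addHom_ext fun l q => ?_
    show rhL ρ' (mL φ ψ (Finsupp.single l q)) = mL φ ψ (rhL ρ (Finsupp.single l q))
    rw [mL_single, rhL_single, rhL_single, mL_single]
    congr 1
    funext j
    exact (h _).symm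
  exact DFunLike.congr_fun e x

theorem nm_map (ψ : B →+* B') (ρ : B →+* B) (ρ' : B' →+* B')
    (h : ∀ b, ψ (ρ b) = ρ' (ψ b)) (N : ℕ) (b : B) : nm ρ' N (ψ b) = ψ (nm ρ N b) := by
  unfold nm
  rw [map_sum]
  refine Finset.sum_congr rfl fun j hj => ?_
  clear hj
  induction j with
  | zero => rfl
  | succ j ih => rw [Function.iterate_succ_apply', Function.iterate_succ_apply', ih, h]

theorem iq_map (N : ℕ) (φ : Γ →* Γ') (ψ : B →+* B') (ρ : B →+* B) (ρ' : B' →+* B')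
    (h : ∀ b, ψ (ρ b) = ρ' (ψ b)) (h' : ∀ y, ψ (T y) = T' (φ y) ∧ ψ (D y) = D' (φ y))
    (a : RT T D) (ha : IQ N ρ a) : IQ N ρ' (mapR φ ψ a : RT T' D') := by
  show nm ρ' N (ψ a.q) = (D' (φ a.y) : B') - T' (φ a.y)
  rw [nm_map ψ ρ ρ' h, ha, map_sub, (h' _).1, (h' _).2]

theorem lift_map (N : ℕ) (φ : Γ →* Γ') (ψ : B →+* B') (ρ : B →+* B) (ρ' : B' →+* B')
    (h : ∀ b, ψ (ρ b) = ρ' (ψ b)) (h' : ∀ y, ψ (T y) = T' (φ y) ∧ ψ (D y) = D' (φ y))
    (z : Ch Γ) (a : Ch (RT T D)) (q : LL Γ B) (hl : IsLift N ρ z a q) :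
    IsLift (T := T') (D := D') N ρ' (cmap φ z) (cmap (mapR φ ψ) a) (mL φ ψ q) := by
  obtain ⟨h1, h2, h3⟩ := hl
  refine ⟨?_, ?_, ?_⟩
  · clear h2 h3
    induction h1 using AddSubgroup.closure_induction with
    | mem y hy =>
      obtain ⟨l, hl, rfl⟩ := hy
      apply AddSubgroup.subset_closure
      refine ⟨l.map (mapR φ ψ), ?_, cmap_of _ _⟩
      intro b hb
      obtain ⟨c, hc, rfl⟩ := List.mem_map.1 hb
      exact iq_map N φ ψ ρ ρ' h h' c (hl c hc)
    | zero => rw [map_zero]; exact AddSubgroup.zero_mem _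
    | add y z _ _ hy hz => rw [map_add]; exact AddSubgroup.add_mem _ hy hz
    | neg y _ hy => rw [map_neg]; exact AddSubgroup.neg_mem _ hy
  · rw [← h2]
    have e : (cmap (RT.y : RT T' D' → Γ')).comp (cmap (mapR φ ψ : RT T D → RT T' D')) =
        (cmap φ).comp (cmap RT.y) := by
      refine FreeAbelianGroup.lift_ext _ _ fun l => ?_
      rw [AddMonoidHom.comp_apply, AddMonoidHom.comp_apply, cmap_of, cmap_of, cmap_of, cmap_of,
        List.map_map, List.map_map]
      rfl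
    exact DFunLike.congr_fun e a
  · rw [rhL_mL φ ψ ρ ρ' h, ← map_sub, h3, ← lamL_cmap, bd_nat _ (mapR_mul φ ψ h')]

theorem lift_cmap {H : Type y} [AddCommGroup H] (φ : Γ →* Γ') (ψ : B →+* B')
    (F : List (RT T' D') → H) (a : Ch (RT T D)) :
    FreeAbelianGroup.lift F (cmap (mapR φ ψ) a) =
      FreeAbelianGroup.lift (fun l : List (RT T D) => F (l.map (mapR φ ψ))) a := by
  have e : (FreeAbelianGroup.lift F).comp (cmap (mapR φ ψ : RT T D → RT T' D')) =
      FreeAbelianGroup.lift (fun l : List (RT T D) => F (l.map (mapR φ ψ))) := by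
    refine FreeAbelianGroup.lift_ext _ _ fun l => ?_
    rw [AddMonoidHom.comp_apply, cmap_of, FreeAbelianGroup.lift_apply_of,
      FreeAbelianGroup.lift_apply_of]
  exact DFunLike.congr_fun e a

theorem hv_map {H : Type y} [AddCommGroup H] (φ : Γ →* Γ') (ψ : B →+* B')
    (h' : ∀ y, ψ (T y) = T' (φ y) ∧ ψ (D y) = D' (φ y))
    (β f g : List (RT T' D') → H) (hf : Jadd f) (hg : Jadd g) (a : Ch (RT T D)) (q : LL Γ B) :
    hv β f g (cmap (mapR φ ψ) a) (mL φ ψ q) =
      hv (fun l : List (RT T D) => β (l.map (mapR φ ψ)))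
        (fun l : List (RT T D) => f (l.map (mapR φ ψ)))
        (fun l : List (RT T D) => g (l.map (mapR φ ψ))) a q := by
  unfold hv
  rw [lift_cmap, FL_mL φ ψ f hf, bdL_mL φ ψ h', FL_mL φ ψ g hg]

end

section

variable {Γ : Type u} {B : Type v} {H : Type w} [Group Γ] [Ring B] [AddCommGroup H]
  {T D : Γ →* Bˣ}

theorem FL_lin (k₁ k₂ : ℕ) (F F₁ F₂ : List (RT T D) → H)
    (h : ∀ l, F l = k₁ • F₁ l + k₂ • F₂ l) (x : LL Γ B) :
    FL F x = k₁ • FL F₁ x + k₂ • FL F₂ x := by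
  unfold FL Finsupp.sum
  rw [Finset.smul_sum, Finset.smul_sum, ← Finset.sum_add_distrib]
  exact Finset.sum_congr rfl fun l _ => h _

theorem lift_lin (k₁ k₂ : ℕ) (F F₁ F₂ : List (RT T D) → H)
    (h : ∀ l, F l = k₁ • F₁ l + k₂ • F₂ l) (a : Ch (RT T D)) :
    FreeAbelianGroup.lift F a = k₁ • FreeAbelianGroup.lift F₁ a +
      k₂ • FreeAbelianGroup.lift F₂ a := by
  have e : FreeAbelianGroup.lift F = k₁ • FreeAbelianGroup.lift F₁ +
      k₂ • FreeAbelianGroup.lift F₂ := by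
    refine FreeAbelianGroup.lift_ext _ _ fun l => ?_
    rw [AddMonoidHom.add_apply, AddMonoidHom.nsmul_apply, AddMonoidHom.nsmul_apply,
      FreeAbelianGroup.lift_apply_of, FreeAbelianGroup.lift_apply_of,
      FreeAbelianGroup.lift_apply_of, h]
  rw [e]
  rfl

theorem hv_lin (k₁ k₂ : ℕ) (β β₁ β₂ f f₁ f₂ g g₁ g₂ : List (RT T D) → H)
    (hβ : ∀ l, β l = k₁ • β₁ l + k₂ • β₂ l) (hf : ∀ l, f l = k₁ • f₁ l + k₂ • f₂ l)
    (hg : ∀ l, g l = k₁ • g₁ l + k₂ • g₂ l) (a : Ch (RT T D)) (q : LL Γ B) :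
    hv β f g a q = k₁ • hv β₁ f₁ g₁ a q + k₂ • hv β₂ f₂ g₂ a q := by
  unfold hv
  rw [lift_lin k₁ k₂ β β₁ β₂ hβ, FL_lin k₁ k₂ f f₁ f₂ hf, FL_lin k₁ k₂ g g₁ g₂ hg]
  simp only [smul_add, smul_sub]
  abel

end

end PSHM

open PSHM in
/-- **PSH** (the second copy of `SpecDSC` is for the universes of the targets) -/
theorem specPSH (_ : SpecALT.{u, v, w}) (_ : SpecLLB.{u, v, w}) (hDSC : SpecDSC.{u, v, y})
    (hDSC' : SpecDSC.{w, x, y}) : SpecPSH.{u, v, w, x, y} := by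
  intro Γ B _ _ Γ₀ Γ₁ Γ₂ B₀ B₁ B₂ H _ _ _ _ _ _ _ N ρ T D hD ρ₀ T₀ D₀ hD₀ ρ₁ T₁ D₁ hD₁ ρ₂ T₂ D₂
    hD₂ β₀ f₀ g₀ β₁ f₁ g₁ β₂ f₂ g₂ hF₀ hF₁ hF₂ φ₀ φ₁ φ₂ ψ₀ ψ₁ ψ₂ hr₀ hr₁ hr₂ hy₀ hy₁ hy₂ k₁ k₂
    hβ hf hg z hz
  obtain ⟨a, q, hl⟩ := hDSC.ex Γ B N ρ T D hD z hz
  have hz' : ∀ {Γ' : Type w} [Group Γ'] (φ : Γ →* Γ'), bd (cmap φ z) = 0 := by
    intro Γ' _ φ
    rw [bd_nat φ (map_mul φ), hz, map_zero]
  rw [hDSC'.ev Γ₀ B₀ H N ρ₀ T₀ D₀ hD₀ β₀ f₀ g₀ hF₀ _ (hz' φ₀) _ _
      (lift_map N φ₀ ψ₀ ρ ρ₀ hr₀ hy₀ z a q hl),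
    hDSC'.ev Γ₁ B₁ H N ρ₁ T₁ D₁ hD₁ β₁ f₁ g₁ hF₁ _ (hz' φ₁) _ _
      (lift_map N φ₁ ψ₁ ρ ρ₁ hr₁ hy₁ z a q hl),
    hDSC'.ev Γ₂ B₂ H N ρ₂ T₂ D₂ hD₂ β₂ f₂ g₂ hF₂ _ (hz' φ₂) _ _
      (lift_map N φ₂ ψ₂ ρ ρ₂ hr₂ hy₂ z a q hl),
    hv_map φ₀ ψ₀ hy₀ _ _ _ hF₀.addf hF₀.addg, hv_map φ₁ ψ₁ hy₁ _ _ _ hF₁.addf hF₁.addg,
    hv_map φ₂ ψ₂ hy₂ _ _ _ hF₂.addf hF₂.addg]
  exact hv_lin k₁ k₂ _ _ _ _ _ _ _ _ _ hβ hf hg a q

end Pool.Agent.Lib.MPb6f35e.KA
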