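import Pool.Agent.Lib.MP_b6f35e_al.KA.SpecE
import Pool.Agent.Lib.MP_b6f35e_al.KA.PSH

/-! # folder KA: cycles over a subgroup (HVF) -/

set_option autoImplicit false

noncomputable section

namespace Pool.Agent.Lib.MPb6f35e.KA

open Pool.Agent.Lib.MPb6f35e.WH Pool.Agent.Lib.MPb6f35e.K2

universe u v w x y

namespace HVFM

/-! ### restriction to a subgroup -/

section res

variable {A : Type u} [CommRing A] {G : Type v} [Group G] (C : Subgroup G)

/-- The part of `x` over `C`, as an element of `A[C]`. -/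
def res (x : MonoidAlgebra A G) : MonoidAlgebra A C :=
  MonoidAlgebra.ofCoeff (x.coeff.comapDomain Subtype.val Subtype.val_injective.injOn)

theorem res_coeff (x : MonoidAlgebra A G) (c : C) : (res C x).coeff c = x.coeff (c : G) := by
  unfold res
  rw [MonoidAlgebra.coeff_ofCoeff]
  rfl

theorem sub_inj : Function.Injective (MonoidAlgebra.mapDomainRingHom A C.subtype) := by
  intro x y h
  have h1 : MonoidAlgebra.mapDomain C.subtype x = MonoidAlgebra.mapDomain C.subtype y := h
  exact MonoidAlgebra.mapDomain_injective C.subtype_injective h1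

theorem map_coeff (x : MonoidAlgebra A C) (c : C) :
    (MonoidAlgebra.mapDomainRingHom A C.subtype x).coeff (c : G) = x.coeff c := by
  have h1 : (MonoidAlgebra.mapDomainRingHom A C.subtype x).coeff =
      Finsupp.mapDomain C.subtype x.coeff := rfl
  rw [h1]
  exact Finsupp.mapDomain_apply C.subtype_injective x.coeff c

theorem map_coeff_out (x : MonoidAlgebra A C) (g : G) (hg : g ∉ C) :
    (MonoidAlgebra.mapDomainRingHom A C.subtype x).coeff g = 0 := by
  have h1 : (MonoidAlgebra.mapDomainRingHom A C.subtype x).coeff =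
      Finsupp.mapDomain C.subtype x.coeff := rfl
  rw [h1]
  refine Finsupp.mapDomain_of_notMem_range x.coeff g ?_
  rintro ⟨c, hc⟩
  exact hg (hc ▸ c.2)

theorem map_res (x : MonoidAlgebra A G) (hx : ∀ g, x.coeff g ≠ 0 → g ∈ C) :
    MonoidAlgebra.mapDomainRingHom A C.subtype (res C x) = x := by
  ext g
  by_cases hg : g ∈ C
  · have h1 := map_coeff C (res C x) ⟨g, hg⟩
    rw [res_coeff] at h1
    exact h1
  · rw [map_coeff_out C _ g hg]
    by_contra h
    exact hg (hx g (Ne.symm h))

/-- the map of the matrices -/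
def mM (m : ℕ) : Matrix (Fin m) (Fin m) (MonoidAlgebra A C) →+*
    Matrix (Fin m) (Fin m) (MonoidAlgebra A G) :=
  (MonoidAlgebra.mapDomainRingHom A C.subtype).mapMatrix

theorem mM_inj (m : ℕ) : Function.Injective (mM (A := A) C m) := by
  intro x y h
  ext1 i j
  have := congrFun (congrFun h i) j
  exact sub_inj C this

/-- the map of the invertible matrices -/
def mG (m : ℕ) : Gl m (MonoidAlgebra A C) →* Gl m (MonoidAlgebra A G) :=
  Units.map (mM C m).toMonoidHom

theorem mG_inj (m : ℕ) : Function.Injective (mG (A := A) C m) :=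
  Units.map_injective (mM_inj C m)

theorem mG_surj (m : ℕ) (x : Gl m (MonoidAlgebra A G)) (h : OvH C x) :
    ∃ y, mG (A := A) C m y = x := by
  have h1 : mM (A := A) C m (x.val.map (res C)) = x.val := by
    ext1 i j
    exact map_res C _ fun g hg => h.1 i j g hg
  have h2 : mM (A := A) C m (x.inv.map (res C)) = x.inv := by
    ext1 i j
    exact map_res C _ fun g hg => h.2 i j g hg
  refine ⟨⟨x.val.map (res C), x.inv.map (res C), ?_, ?_⟩, ?_⟩
  · apply mM_inj C m
    rw [map_mul, h1, h2, map_one, x.val_inv]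
  · apply mM_inj C m
    rw [map_mul, h1, h2, map_one, x.inv_val]
  · ext1
    exact h1

/-- a cycle over a subgroup comes from the subgroup -/
theorem cyc_surj (n m : ℕ) (z : Ch (Gl m (MonoidAlgebra A G))) (hz : z ∈ cyc n (OvH C)) :
    ∃ z', bd z' = 0 ∧ cmap (mG (A := A) C m) z' = z := by
  classical
  obtain ⟨s, hs⟩ := (mG_inj (A := A) C m).hasLeftInverse
  have hs' : ∀ x, OvH C x → mG C m (s x) = x := by
    intro x hx
    obtain ⟨y, rfl⟩ := mG_surj C m x hx
    rw [hs]
  have h1 : (cmap s).comp (cmap (mG (A := A) C m)) = AddMonoidHom.id _ := by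
    refine FreeAbelianGroup.lift_ext _ _ fun l => ?_
    rw [AddMonoidHom.comp_apply, PSHM.cmap_of, PSHM.cmap_of, List.map_map]
    have : s ∘ mG (A := A) C m = id := funext hs
    rw [this, List.map_id]
    rfl
  have h2 : cmap (mG (A := A) C m) (cmap s z) = z := by
    have h3 := hz.1
    clear hz
    induction h3 using AddSubgroup.closure_induction with
    | mem y hy =>
      obtain ⟨l, -, hl, rfl⟩ := hy
      rw [PSHM.cmap_of, PSHM.cmap_of, List.map_map]
      congr 1
      conv_rhs => rw [← List.map_id l]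
      exact List.map_congr_left fun x hx => hs' x (hl x hx)
    | zero => rw [map_zero, map_zero]
    | add y z _ _ hy hz => rw [map_add, map_add, hy, hz]
    | neg y _ hy => rw [map_neg, map_neg, hy]
  refine ⟨cmap s z, ?_, h2⟩
  have h4 : cmap (mG (A := A) C m) (bd (cmap s z)) = 0 := by
    rw [← PSHM.bd_nat _ (map_mul _), h2]
    exact hz.2
  have h5 := DFunLike.congr_fun h1 (bd (cmap s z))
  rw [AddMonoidHom.comp_apply, h4, map_zero] at h5
  exact h5.symm

end res

theorem run_map {X : Type u} {Y : Type v} [Mul X] [Mul Y] (f : X → Y)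
    (hf : ∀ a b, f (a * b) = f a * f b) (l : List X) (a : X) :
    run (f a) (l.map f) = (run a l).map f := by
  induction l generalizing a with
  | nil => rfl
  | cons g l ih =>
    show f a :: run (f a * f g) (l.map f) = f a :: (run (a * g) l).map f
    rw [← hf, ih]

theorem inh_map {Γ : Type u} {B : Type v} [Group Γ] [Ring B] {Γ' : Type w} {B' : Type x}
    [Group Γ'] [Ring B'] {T D : Γ →* Bˣ} {T' D' : Γ' →* B'ˣ} {H : Type y} (φ : Γ →* Γ')
    (ψ : B →+* B') (h : ∀ y, ψ (T y) = T' (φ y) ∧ ψ (D y) = D' (φ y))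
    (F : List (EB B') → H) (l : List (RT T D)) :
    inh F (l.map (mapR φ ψ) : List (RT T' D')) = F (((run 1 l).map toE).map (mapE ψ)) := by
  unfold inh
  have h1 : (mapR φ ψ (1 : RT T D) : RT T' D') = 1 := by
    apply RT.ext'
    · exact map_one φ
    · exact map_zero ψ
  rw [← h1, run_map _ (PSHM.mapR_mul φ ψ h), List.map_map, List.map_map]
  congr 1
  refine List.map_congr_left fun a _ => ?_
  show (T' (φ a.y), D' (φ a.y), ψ a.q) =
    (Units.map ψ.toMonoidHom (T a.y), Units.map ψ.toMonoidHom (D a.y), ψ a.q)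
  congr 1
  · ext1
    exact (h a.y).1.symm
  · congr 1
    ext1
    exact (h a.y).2.symm

end HVFM

open HVFM in
/-- **HVF** -/
theorem specHVF (_ : SpecALT.{u, v, w}) (hNTL : SpecNTL.{max u v, v, v, 0, max u v})
    (hRLS : SpecRLS.{v, 0, v}) (hPSH : SpecPSH.{max u v, max u v, max u v, max u v, 0})
    (hPKG : SpecPKG.{max u v, v, v, 0, max u v}) (hIDD : SpecIDD.{u, v})
    (hFRS : SpecFRS.{v, u}) : SpecHVF.{u, v} := by
  intro k _ p e n _ _ _ r hr G _ H a X hX h hh z hz
  obtain ⟨Ω, _, lam, ep, d, I, hOm, hh⟩ := hh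
  obtain ⟨z', hz', rfl⟩ := cyc_surj H n a z hz
  obtain ⟨Rs, hR1, hR2, hR3, hR4⟩ := hFRS (p ^ (e + 1)) G (Fin a) H
  obtain ⟨Rl, hL1, hL2, hL3⟩ := hRLS _ _ _ Ω Ω Ω _ _ _ _ _ _ _ lam lam lam ep ep ep d d d I I I
    hOm hOm hOm Rs 0 0 (by
      intro l hl
      rw [zero_smul, zero_smul, add_zero]
      apply hX
      intro s hs
      obtain ⟨t, ht, rfl⟩ := List.mem_map.1 hs
      exact ((hR1 t).1 (hl t ht)).1)
  have hRl : IsRl 0 0 (mkD (k := k) p e r lam ep d I) (mkD (k := k) p e r lam ep d I)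
      (mkD (k := k) p e r lam ep d I) (FT (k := k) (ι := Fin a) (N := p ^ (e + 1)) H.subtype)
      (FT H.subtype) (FT H.subtype) Rs Rl :=
    { N₁ := rfl
      N₂ := rfl
      b := fun b => hR2 k r b
      t := hR3
      dl := hR4
      lam := hL1
      d := hL2
      I := hL3 }
  have hD := hIDD.idd k p e r hr H (Fin a)
  have hDG := hIDD.idd k p e r hr G (Fin a)
  have hF := hPKG _ _ _ _ _ _ (hIDD.ok k p e r hr G (Fin a) Ω lam ep d I X hOm)
    (TT k G (Fin a) (p ^ (e + 1))) (DD k G (Fin a) p e) hDG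
  have hy : ∀ y : Gl a (MonoidAlgebra k H),
      FT (k := k) (ι := Fin a) (N := p ^ (e + 1)) H.subtype (TT k H (Fin a) (p ^ (e + 1)) y) =
        TT k G (Fin a) (p ^ (e + 1)) (mG H a y) ∧
      FT (k := k) (ι := Fin a) (N := p ^ (e + 1)) H.subtype (DD k H (Fin a) p e y) =
        DD k G (Fin a) p e (mG H a y) := fun y => ⟨FT_tens _ _, FT_dhat _ _⟩
  have key : ∀ l : List (EB (TR k H (Fin a) (p ^ (e + 1)))),
      (mkD (k := k) p e r lam ep d I).be (l.map (mapE (FT H.subtype))) = 0 ∧
      (mkD (k := k) p e r lam ep d I).f (l.map (mapE (FT H.subtype))) = 0 ∧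
      (mkD (k := k) p e r lam ep d I).g (l.map (mapE (FT H.subtype))) = 0 := by
    intro l
    have h1 := hNTL _ _ _ _ _ _ _ _ _ _ _ _ _ _ _ _ _ Rs Rl 0 0 hRl l
    simp only [zero_smul, add_zero] at h1
    exact h1
  rw [hh]
  have h2 := hPSH _ _ _ _ _ _ _ _ _ _ (rot k H (Fin a) (p ^ (e + 1))) _ _ hD
    (rot k G (Fin a) (p ^ (e + 1))) _ _ hDG (rot k G (Fin a) (p ^ (e + 1))) _ _ hDG
    (rot k G (Fin a) (p ^ (e + 1))) _ _ hDG _ _ _ _ _ _ _ _ _ hF hF hF (mG H a) (mG H a) (mG H a)
    (FT H.subtype) (FT H.subtype) (FT H.subtype) (FT_rot _) (FT_rot _) (FT_rot _) hy hy hy 0 0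
    (by
      intro l
      rw [zero_smul, add_zero, inh_map _ _ hy]
      exact (key _).1)
    (by
      intro l
      rw [zero_smul, add_zero, inh_map _ _ hy]
      exact (key _).2.1)
    (by
      intro l
      rw [zero_smul, add_zero, inh_map _ _ hy]
      exact (key _).2.2) z' hz'
  rw [zero_smul, add_zero] at h2
  exact h2

end Pool.Agent.Lib.MPb6f35e.KA
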