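import Pool.Agent.Lib.MP_b6f35e_al.KA.SpecE

/-!
# HVX: existence of the function of a cochain, additivity, boundaries (MP_b6f35e_al)
-/

set_option autoImplicit false

noncomputable section

namespace Pool.Agent.Lib.MPb6f35e.KA

open Pool.Agent.Lib.MPb6f35e.WH Pool.Agent.Lib.MPb6f35e.K2

universe u v

namespace HVXM

/-- There is no `2`-torsion in `ℤ / N` for odd `N`. -/
lemma two_tor (p e : ℕ) [Fact p.Prime] (hp : p ≠ 2) (h : ZMod (p ^ (e + 1))) (hh : h + h = 0) :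
    h = 0 := by
  have h2 : IsUnit ((2 : ℕ) : ZMod (p ^ (e + 1))) := by
    rw [ZMod.isUnit_iff_coprime]
    exact Nat.Coprime.pow_right _
      ((Nat.coprime_primes Nat.prime_two (Fact.out : p.Prime)).mpr (fun h => hp h.symm))
  have h3 : ((2 : ℕ) : ZMod (p ^ (e + 1))) * h = 0 := by
    rw [Nat.cast_ofNat, two_mul, hh]
  exact (h2.mul_right_eq_zero).mp h3

end HVXM

theorem specHVX (hOPS : SpecOPS.{v, 0}) (hPKG : SpecPKG.{max u v, v, v, 0, max u v})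
    (hDSC : SpecDSC.{max u v, max u v, 0}) (hIDD : SpecIDD.{u, v}) : SpecHVX.{u, v} where
  ex := by
    intro k _ p e n _ hp _ _ r G _ ι _ _ X hX
    obtain ⟨Ω, hΩ, lam, ep, d, I, hom⟩ := hOPS (SR (p ^ (e + 1)) G ι) (ZMod (p ^ (e + 1)))
      (HVXM.two_tor p e hp) n (tauS (p ^ (e + 1)) G ι) X hX
    exact ⟨_, Ω, hΩ, lam, ep, d, I, hom, fun z => rfl⟩
  add := by
    rintro k _ p e _ _ _ r hr G _ ι _ _ X h ⟨Ω, hΩ, lam, ep, d, I, hom, hz⟩ z z' h1 h2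
    have hdd := hIDD.idd k p e r hr G ι
    have hok := hIDD.ok k p e r hr G ι Ω lam ep d I X hom
    have hfn := hPKG _ _ _ _ _ _ hok _ _ hdd
    rw [hz, hz, hz]
    exact hDSC.add _ _ _ _ _ _ _ hdd _ _ _ hfn z z' h1 h2
  bdr := by
    rintro k _ p e _ _ _ r hr G _ ι _ _ X h ⟨Ω, hΩ, lam, ep, d, I, hom, hz⟩ w
    have hdd := hIDD.idd k p e r hr G ι
    have hok := hIDD.ok k p e r hr G ι Ω lam ep d I X hom
    have hfn := hPKG _ _ _ _ _ _ hok _ _ hdd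
    rw [hz]
    exact hDSC.bdr _ _ _ _ _ _ _ hdd _ _ _ hfn w

end Pool.Agent.Lib.MPb6f35e.KA
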