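import Pool.Agent.Lib.MP_b6f35e_al.KA.SpecE
import Pool.Agent.Lib.MP_b6f35e_al.K2.TDN
import Pool.Agent.Lib.MP_b6f35e_al.K2.DGR
import Pool.Agent.Lib.MP_b6f35e_al.K2.CNX

/-!
# Rational K-theory in all degrees (MP_b6f35e_al), module IDD (helper26)
-/

set_option autoImplicit false

noncomputable section

namespace Pool.Agent.Lib.MPb6f35e.KA

open Pool.Agent.Lib.MPb6f35e.WH Pool.Agent.Lib.MPb6f35e.K2

universe u v

namespace IDDM

theorem idd (k : Type u) [CommRing k] (p e : ℕ) [Fact p.Prime] [NeZero (p ^ e)]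
    [NeZero (p ^ (e + 1))] (r : k →+* ZMod (p ^ (e + 1))) (hr : IsRed k p e r) (G : Type v)
    [Group G] (ι : Type) [Fintype ι] [DecidableEq ι] :
    IsDD (p ^ (e + 1)) (rot k G ι (p ^ (e + 1))) (TT k G ι (p ^ (e + 1))) (DD k G ι p e) where
  rT y := specT.rotTens k G ι (p ^ (e + 1)) y
  rD y := specT.rotDhat k G ι p e y
  surj y := by
    obtain ⟨z, hz⟩ := specN.norm k G ι p e hr.frob (y : Matrix ι ι (MonoidAlgebra k G))
    have h1 : tens k G ι (p ^ (e + 1)) (y : Matrix ι ι (MonoidAlgebra k G)) =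
        (TT k G ι (p ^ (e + 1)) y : TR k G ι (p ^ (e + 1))) := rfl
    have h2 : dhat k G ι p e (y : Matrix ι ι (MonoidAlgebra k G)) =
        (DD k G ι p e y : TR k G ι (p ^ (e + 1))) := rfl
    refine ⟨-z, ?_⟩
    rw [TDNaux.nm_neg, hz, h1, h2, neg_sub]
  ker b hb := specN.ker k G ι p (e + 1) hr.tf b hb

theorem charN (p e : ℕ) (G : Type v) [Group G] (ι : Type)
    [Fintype ι] [DecidableEq ι] [NeZero (p ^ (e + 1))] :
    ((p ^ (e + 1) : ℕ) : SR (p ^ (e + 1)) G ι) = 0 := by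
  have h5 : ((p ^ (e + 1) : ℕ) : SR (p ^ (e + 1)) G ι) =
      (p ^ (e + 1)) • (1 : SR (p ^ (e + 1)) G ι) := by
    rw [nsmul_eq_mul, mul_one]
  rw [h5]
  ext I J g
  have h7 : ∀ z : ZMod (p ^ (e + 1)), (p ^ (e + 1)) • z = 0 := fun z => by
    rw [nsmul_eq_mul, ZMod.natCast_self, zero_mul]
  have h6 := map_nsmul (CONaux.ev (K := ZMod (p ^ (e + 1))) I J g) (p ^ (e + 1)) 1
  rw [h7] at h6
  exact h6

end IDDM

theorem specIDD : SpecIDD.{u, v} where
  idd := fun k _ p e _ _ _ r hr G _ ι _ _ => IDDM.idd k p e r hr G ι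
  ok := fun k _ p e _ _ _ r _ G _ ι _ _ Ω _ lam ep d I X h =>
    { pos := Nat.pos_of_ne_zero (NeZero.ne (p ^ (e + 1)))
      rotN := specT.rotN k G ι (p ^ (e + 1))
      charN := IDDM.charN p e G ι
      conj := specDGR.{u, v}.conj k (p ^ (e + 1)) r G ι
      tauN := specDGR.{u, v}.tauN (p ^ (e + 1)) G ι
      dl_mul := specDGR.{u, v}.dmul (p ^ (e + 1)) G ι
      dl_i := specDGR.{u, v}.di k (p ^ (e + 1)) r G ι
      dl_tau := specDGR.{u, v}.dtau (p ^ (e + 1)) G ι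
      ep_lam := h.ep_lam
      d_mul := h.d_mul
      d_d := h.d_d
      d_ep := h.d_ep
      d_tau := h.d_tau
      tr_d := h.tr_d
      even := h.even
      odd := h.odd }

end Pool.Agent.Lib.MPb6f35e.KA
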