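import Pool.Agent.Lib.MP_b6f35e_al.KA.SpecG

/-!
# KAQ: existence of the homomorphism `κ` (MP_b6f35e_al)

helper4.
-/

set_option autoImplicit false

noncomputable section

namespace Pool.Agent.Lib.MPb6f35e.KA

universe u v w x

namespace KAQM

/-! ### commuting elements -/

section

variable {R : Type u} [CommRing R] {G : Type v} [Group G]

lemma sup_comm {C : Subgroup G} (hC : ∀ a ∈ C, ∀ b ∈ C, a * b = b * a) {x y : MonoidAlgebra R G}
    (hx : Sup C x) (hy : Sup C y) : x * y = y * x := by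
  rw [← MonoidAlgebra.sum_coeff_single y, Finsupp.sum, Finset.mul_sum, Finset.sum_mul]
  refine Finset.sum_congr rfl fun g hg => ?_
  have h1 : g ∈ C := hy g (Finsupp.mem_support_iff.1 hg)
  have h2 := D1.single_comm (z := g) (fun h hh => hC g h1 h hh) x hx
  have h3 : (MonoidAlgebra.single g (y.coeff g) : MonoidAlgebra R G) =
      y.coeff g • MonoidAlgebra.single g 1 := by
    rw [MonoidAlgebra.smul_single, smul_eq_mul, mul_one]
  rw [h3, Algebra.mul_smul_comm, Algebra.smul_mul_assoc, h2]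

lemma cyc_comm {C : Subgroup G} (h : IsCyclic C) : ∀ a ∈ C, ∀ b ∈ C, a * b = b * a := by
  intro a ha b hb
  have := h.commGroup.mul_comm ⟨a, ha⟩ ⟨b, hb⟩
  exact congrArg Subtype.val this

lemma gU_val (g : G) : (gU R g).val = MonoidAlgebra.single g 1 := rfl

lemma gU_comm {C : Subgroup G} {u : (MonoidAlgebra R G)ˣ} (hu : Sup C u.val) {g : G}
    (hg : Cen C g) : u * gU R g = gU R g * u := by
  ext1
  rw [Units.val_mul, Units.val_mul, gU_val]
  exact (D1.single_comm hg u.val hu).symm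

lemma u1_comm {C : Subgroup G} {u : (MonoidAlgebra R G)ˣ} (hu : Sup C u.val) {g : G}
    (hg : Cen C g) : u1 u * u1 (gU R g) = u1 (gU R g) * u1 u := by
  rw [← map_mul, ← map_mul, gU_comm hu hg]

lemma units_comm {C : Subgroup G} (h : IsCyclic C) {u u' : (MonoidAlgebra R G)ˣ}
    (hu : Sup C u.val) (hu' : Sup C u'.val) : u * u' = u' * u := by
  ext1
  rw [Units.val_mul, Units.val_mul]
  exact sup_comm (cyc_comm h) hu hu'

end

/-! ### classes of differences -/

section

variable {A : Type u} [Ring A]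

lemma c1_neg {n m : ℕ} {z : Ch (Gl m A)} (h : z ∈ cyc n (fun _ => True)) :
    c1 n m (-z) = - c1 n m z := by
  have h1 := c1_add h (neg_mem h)
  rw [add_neg_cancel] at h1
  have h2 : c1 (A := A) n m 0 = 0 := by
    have h3 := c1_add (A := A) (n := n) (m := m) (zero_mem (cyc n (fun _ => True)))
      (zero_mem (cyc n (fun _ => True)))
    rw [add_zero] at h3
    exact left_eq_add.1 h3
  rw [h2] at h1
  exact (neg_eq_of_add_eq_zero_right h1.symm).symm

lemma c1_sub {n m : ℕ} {z z' : Ch (Gl m A)} (h : z ∈ cyc n (fun _ => True))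
    (h' : z' ∈ cyc n (fun _ => True)) : c1 n m (z - z') = c1 n m z - c1 n m z' := by
  rw [sub_eq_add_neg, c1_add h (neg_mem h'), c1_neg h', sub_eq_add_neg]

end

/-! ### chains -/

section

variable {G : Type v} [Group G] {X : Type w} [Group X]

lemma cmap_map {X : Type u} {Y : Type v} {Z : Type w} (f : X → Y) (g : Y → Z) (z : Ch X) :
    cmap g (cmap f z) = cmap (fun x => g (f x)) z := by
  have h : (List.map fun x => g (f x)) = List.map g ∘ List.map f := by
    rw [List.map_comp_map]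
    rfl
  unfold cmap
  rw [h, FreeAbelianGroup.map_comp_apply]

lemma bd_gen (hALT : SpecALT.{v, w, x}) (hCRS : SpecCRS.{w, w}) (f : G →* X) (a : X) (n : ℕ)
    (P : G → Prop) (hP : ∀ g, P g → a * f g = f g * a) (z : Ch G) (hz : z ∈ ch (n + 1) P) :
    ∃ y ∈ ch (n + 1 + 1) (fun _ => True), crs a (cmap f (bd z)) = bd y := by
  have h1 : cmap f z ∈ ch (n + 1) (fun g => a * g = g * a) := hALT.cmap _ _ (n + 1) P _ _ hP z hz
  have h2 : cmap f z ∈ ch (n + 1) (fun _ => True) :=
    hALT.cmap _ _ (n + 1) P _ _ (fun _ _ => trivial) z hz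
  refine ⟨- crs a (cmap f z), neg_mem (hCRS.mem _ (n + 1) (fun _ => True) a trivial _ h2), ?_⟩
  rw [← hALT.nat G X f (map_mul f) z, map_neg, hCRS.bd _ (n + 1) a _ h1, neg_neg]

lemma mul_gen (hALT : SpecALT.{v, w, x}) (hCRS : SpecCRS.{w, w}) (f : G →* X) (a b : X) (n : ℕ)
    (P : G → Prop) (hP : ∀ g, P g → a * f g = f g * a) (hP' : ∀ g, P g → b * f g = f g * b)
    (hab : a * b = b * a) (z : Ch G) (hz : z ∈ cyc n P) :
    ∃ y ∈ ch (n + 1 + 1) (fun _ => True),
      crs (a * b) (cmap f z) - crs a (cmap f z) - crs b (cmap f z) = bd y := by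
  have h6 : bd z = 0 := hz.2
  refine hCRS.mul X n (fun _ => True) a b trivial trivial hab _ ⟨?_, ?_⟩
  · exact hALT.cmap _ _ n P _ _ (fun g hg => ⟨trivial, hP g hg, hP' g hg⟩) z hz.1
  · change bd (cmap f z) = 0
    rw [hALT.nat G X f (map_mul f) z, h6, map_zero]

lemma conj_gen (hCRS : SpecCRS.{w, w}) (f : G →* X) (a b : X) (g : G) (h : f g * a = b * f g)
    (z : Ch G) : crs a (cmap f (cmap (fun x => g⁻¹ * x * g) z)) =
      cmap (fun x => (f g)⁻¹ * x * (f g)⁻¹⁻¹) (crs b (cmap f z)) := by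
  have h4 : a = (f g)⁻¹ * b * (f g)⁻¹⁻¹ := by
    rw [inv_inv, mul_assoc, ← h, inv_mul_cancel_left]
  rw [hCRS.nat, ← h4, cmap_map, cmap_map]
  have h5 : (fun x => f (g⁻¹ * x * g)) = fun x => (f g)⁻¹ * f x * (f g)⁻¹⁻¹ := by
    funext y
    rw [map_mul, map_mul, map_inv, inv_inv]
  rw [h5]

end

variable (R : Type u) [CommRing R] (G : Type v) [Group G]

/-- The map of groups. -/
def fG : G →* Gl 1 (MonoidAlgebra R G) := u1.comp (gU R)

variable {R G}

lemma kz_eq (y : (MonoidAlgebra R G)ˣ) (z : Ch G) : kz y z = crs (u1 y) (cmap (fG R G) z) := rfl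

lemma fG_comm {C : Subgroup G} {u : (MonoidAlgebra R G)ˣ} (hu : Sup C u.val) {g : G}
    (hg : Cen C g) : u1 u * fG R G g = fG R G g * u1 u := u1_comm hu hg

end KAQM

open KAQM

theorem specKAQ (hALT : SpecALT.{v, max u v, x}) (hCRS : SpecCRS.{max u v, max u v})
    (hCNJ : SpecCNJ.{max u v}) (hKZC : SpecKZC.{u, v}) : SpecKAQ.{u, v} := by
  intro n R _ G _
  have hc : ∀ x : GenT n R G, kz x.u x.z ∈ cyc (n + 1) (fun _ => True) := fun x =>
    hKZC R G n x.C x.u x.hu.1 x.z x.hz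
  let φ : FreeAbelianGroup (GenT n R G) →+ KH (n + 1) (MonoidAlgebra R G) :=
    FreeAbelianGroup.lift (fun x => c1 (n + 1) 1 (kz x.u x.z))
  have hφ : ∀ x : GenT n R G, φ (FreeAbelianGroup.of x) = c1 (n + 1) 1 (kz x.u x.z) := fun x =>
    FreeAbelianGroup.lift_apply_of _ _
  have hrel : ∀ y, RelT n R G y → φ y = 0 := by
    intro y hy
    cases hy with
    | add C hC cC z z' h h' h'' u hu =>
      rw [map_sub, map_sub, hφ, hφ, hφ]
      have h1 := hKZC R G n C u hu.1 z h
      have h2 := hKZC R G n C u hu.1 z' h'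
      have h3 : kz u (z + z') = kz u z + kz u z' := by
        rw [kz_eq, kz_eq, kz_eq, map_add, map_add]
      change c1 (n + 1) 1 (kz u (z + z')) - c1 (n + 1) 1 (kz u z) - c1 (n + 1) 1 (kz u z') = 0
      rw [h3, c1_add h1 h2, sub_sub, sub_self]
    | bdr C hC cC w hw h u hu =>
      rw [hφ]
      change c1 (n + 1) 1 (kz u (bd w)) = 0
      obtain ⟨y, hy, hy'⟩ := bd_gen hALT hCRS (fG R G) (u1 u) n (Cen C)
        (fun g hg => fG_comm hu.1 hg) w hw
      rw [kz_eq, hy']
      exact c1_bd hy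
    | mul C hC cC z h u u' hu hu' huu =>
      rw [map_sub, map_sub, hφ, hφ, hφ]
      change c1 (n + 1) 1 (kz (u * u') z) - c1 (n + 1) 1 (kz u z) - c1 (n + 1) 1 (kz u' z) = 0
      have h1 := hKZC R G n C (u * u') huu.1 z h
      have h2 := hKZC R G n C u hu.1 z h
      have h3 := hKZC R G n C u' hu'.1 z h
      have h4 : u1 u * u1 u' = u1 u' * u1 u := by
        rw [← map_mul, ← map_mul, units_comm cC hu.1 hu'.1]
      obtain ⟨y, hy, hy'⟩ := mul_gen hALT hCRS (fG R G) (u1 u) (u1 u') n (Cen C)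
        (fun g hg => fG_comm hu.1 hg) (fun g hg => fG_comm hu'.1 hg) h4 z h
      rw [← c1_sub h1 h2, ← c1_sub (sub_mem h1 h2) h3, kz_eq, kz_eq, kz_eq, map_mul, hy']
      exact c1_bd hy
    | conj C K hC cC hK cK g hg z hz hz' u u' hu hu' hgu =>
      rw [map_sub, hφ, hφ]
      change c1 (n + 1) 1 (kz u' z) - c1 (n + 1) 1 (kz u (cmap (fun x => g⁻¹ * x * g) z)) = 0
      have h1 := hKZC R G n K u' hu'.1 z hz
      have h2 := hKZC R G n C u hu.1 _ hz'
      have h3 : gU R g * u = u' * gU R g := by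
        ext1
        rw [Units.val_mul, Units.val_mul, gU_val]
        exact hgu
      have h4 : fG R G g * u1 u = u1 u' * fG R G g := by
        change u1 (gU R g) * u1 u = u1 u' * u1 (gU R g)
        rw [← map_mul, ← map_mul, h3]
      obtain ⟨y, hy, hy'⟩ := hCNJ _ (n + 1) (fun _ => True) (fun _ _ _ _ => trivial)
        (fG R G g)⁻¹ trivial trivial _ h1
      rw [← c1_sub h1 h2, kz_eq u, conj_gen hCRS (fG R G) (u1 u) (u1 u') g h4, ← kz_eq, hy']
      exact c1_bd hy
  have hle : AddSubgroup.closure {y | RelT n R G y} ≤ φ.ker := by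
    rw [AddSubgroup.closure_le]
    exact hrel
  refine ⟨QuotientAddGroup.lift _ φ hle, ?_⟩
  intro x
  refine ⟨hc x, ?_⟩
  rw [← c1_of (hc x), ← hφ x]
  rfl

end Pool.Agent.Lib.MPb6f35e.KA
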