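import Pool.Agent.Lib.MP_b6f35e_al.KA.SpecG
import Pool.Agent.Lib.MP_b6f35e_al.KA.ALT
import Pool.Agent.Lib.MP_b6f35e_al.KA.CRS

/-! # Module KFU of KA: `KH n` is a functor of the ring -/

set_option autoImplicit false

noncomputable section

namespace Pool.Agent.Lib.MPb6f35e.KA

open Pool.Agent.Lib.MPb6f35e.WH

universe u v w x

namespace KFUM

lemma cmap_comp {X : Type u} {Y : Type v} {Z : Type w} (f : X → Y) (g : Y → Z) (z : Ch X) :
    cmap g (cmap f z) = cmap (fun x => g (f x)) z := by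
  induction z using FreeAbelianGroup.induction_on with
  | zero => simp only [map_zero]
  | of l =>
    simp only [cmap, FreeAbelianGroup.map_of_apply, List.map_map]
    rfl
  | neg l h => rw [map_neg, map_neg, map_neg, h]
  | add a b ha hb => rw [map_add, map_add, map_add, ha, hb]

lemma cmap_mem {X : Type u} {Y : Type v} [Mul X] [Mul Y] {n : ℕ} {P : X → Prop} {Q : Y → Prop}
    (f : X → Y) (hf : ∀ a b, f (a * b) = f a * f b) (h : ∀ x, P x → Q (f x)) {z : Ch X}
    (hz : z ∈ cyc n P) : cmap f z ∈ cyc n Q := by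
  have h2 : bd z = 0 := hz.2
  refine ⟨(specALT.{u, v, 0}).cmap X Y n P Q f h z hz.1, ?_⟩
  show bd (cmap f z) = 0
  rw [(specALT.{u, v, 0}).nat X Y f hf z, h2, map_zero]

section

variable {A : Type u} {B : Type v} [Ring A] [Ring B] (f : A →+* B)

lemma gm_val (m : ℕ) (a : Gl m A) : (gm f m a).val = RingHom.mapMatrix f a.val := rfl

lemma gm_inv (m : ℕ) (a : Gl m A) : (gm f m a).inv = RingHom.mapMatrix f a.inv := rfl

lemma map_block {m n : ℕ} (a : Matrix (Fin m) (Fin m) A) (b : Matrix (Fin n) (Fin n) A) :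
    RingHom.mapMatrix f (D1.block a 0 b) =
      D1.block (RingHom.mapMatrix f a) 0 (RingHom.mapMatrix f b) := by
  unfold D1.block
  rw [RingHom.mapMatrix_apply, RingHom.mapMatrix_apply, RingHom.mapMatrix_apply,
    ← Matrix.submatrix_map, Matrix.fromBlocks_map, Matrix.map_zero _ (map_zero f),
    Matrix.map_zero _ (map_zero f)]

lemma gm_dsum (m n : ℕ) (x : Gl m A × Gl n A) :
    gm f (m + n) (dsum m n x) = dsum m n (gm f m x.1, gm f n x.2) := by
  apply Units.ext
  exact map_block f x.1.val x.2.val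

/-- The map of the generators. -/
def gH {n : ℕ} (x : GenH n A) : GenH n B :=
  ⟨x.m, cmap (gm f x.m) x.z, cmap_mem _ (map_mul _) (fun _ _ => trivial) x.hz⟩

lemma genH_eq {n m : ℕ} {z z' : Ch (Gl m B)} (e : z = z') (h : z ∈ cyc n (fun _ => True))
    (h' : z' ∈ cyc n (fun _ => True)) : (⟨m, z, h⟩ : GenH n B) = ⟨m, z', h'⟩ := by
  subst e
  rfl

open FreeAbelianGroup in
lemma rel_map (n : ℕ) (x : FreeAbelianGroup (GenH n A)) (hx : RelH n A x) :
    map (gH f) x ∈ AddSubgroup.closure {y | RelH n B y} := by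
  apply AddSubgroup.subset_closure
  cases hx with
  | add m z z' h h' h'' =>
    rw [map_sub, map_sub, map_of_apply, map_of_apply, map_of_apply]
    have e : cmap (gm f m) (z + z') = cmap (gm f m) z + cmap (gm f m) z' := map_add _ _ _
    have g1 := cmap_mem (Q := fun _ : Gl m B => True) (gm f m) (map_mul _) (fun _ _ => trivial) h
    have g2 := cmap_mem (Q := fun _ : Gl m B => True) (gm f m) (map_mul _) (fun _ _ => trivial) h'
    have g3 := add_mem g1 g2
    have h1 : gH f ⟨m, z + z', h''⟩ = ⟨m, cmap (gm f m) z + cmap (gm f m) z', g3⟩ :=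
      genH_eq e _ _
    rw [h1]
    exact RelH.add m _ _ g1 g2 g3
  | bdr m w hw h =>
    rw [map_of_apply]
    have e : cmap (gm f m) (bd w) = bd (cmap (gm f m) w) :=
      ((specALT.{u, v, 0}).nat _ _ (gm f m) (map_mul _) w).symm
    have g1 := cmap_mem (Q := fun _ : Gl m B => True) (gm f m) (map_mul _) (fun _ _ => trivial) h
    have g2 : bd (cmap (gm f m) w) ∈ cyc n (fun _ => True) := by rw [← e]; exact g1
    have h1 : gH f ⟨m, bd w, h⟩ = ⟨m, bd (cmap (gm f m) w), g2⟩ := genH_eq e _ _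
    rw [h1]
    exact RelH.bdr m _ ((specALT.{u, v, 0}).cmap _ _ (n + 1) _ (fun _ => True) (gm f m)
      (fun _ _ => trivial) w hw) g2
  | block a b w hw h h' h'' =>
    rw [map_sub, map_sub, map_of_apply, map_of_apply, map_of_apply]
    let φ : Gl a A × Gl b A → Gl a B × Gl b B := fun x => (gm f a x.1, gm f b x.2)
    have hφ : ∀ x y, φ (x * y) = φ x * φ y := fun x y => by
      show (gm f a (x.1 * y.1), gm f b (x.2 * y.2)) = _
      rw [map_mul, map_mul]
      rfl
    have e1 : cmap (gm f (a + b)) (cmap (dsum a b) w) = cmap (dsum a b) (cmap φ w) := by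
      rw [cmap_comp, cmap_comp]
      congr 1
      exact congrArg cmap (funext fun x => gm_dsum f a b x)
    have e2 : cmap (gm f a) (cmap Prod.fst w) = cmap Prod.fst (cmap φ w) := by
      rw [cmap_comp, cmap_comp]
    have e3 : cmap (gm f b) (cmap Prod.snd w) = cmap Prod.snd (cmap φ w) := by
      rw [cmap_comp, cmap_comp]
    have g0 := cmap_mem (Q := fun _ => True) φ hφ (fun _ _ => trivial) hw
    have g1 : cmap (dsum a b) (cmap φ w) ∈ cyc n (fun _ => True) :=
      cmap_mem (dsum a b) (map_mul _) (fun _ _ => trivial) g0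
    have g2 : cmap Prod.fst (cmap φ w) ∈ cyc n (fun _ => True) :=
      cmap_mem Prod.fst (fun _ _ => rfl) (fun _ _ => trivial) g0
    have g3 : cmap Prod.snd (cmap φ w) ∈ cyc n (fun _ => True) :=
      cmap_mem Prod.snd (fun _ _ => rfl) (fun _ _ => trivial) g0
    have h1 : gH f ⟨a + b, cmap (dsum a b) w, h⟩ = ⟨a + b, cmap (dsum a b) (cmap φ w), g1⟩ :=
      genH_eq e1 _ _
    have h2 : gH f ⟨a, cmap Prod.fst w, h'⟩ = ⟨a, cmap Prod.fst (cmap φ w), g2⟩ :=
      genH_eq e2 _ _
    have h3 : gH f ⟨b, cmap Prod.snd w, h''⟩ = ⟨b, cmap Prod.snd (cmap φ w), g3⟩ :=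
      genH_eq e3 _ _
    rw [h1, h2, h3]
    exact RelH.block a b (cmap φ w) g0 g1 g2 g3

/-- The homomorphism of the `KH n`. -/
def FH (n : ℕ) : KH n A →+ KH n B := D1.hom (gH f) (rel_map f n)

lemma FH_c1 (n m : ℕ) (z : Ch (Gl m A)) (h : z ∈ cyc n (fun _ => True)) :
    FH f n (c1 n m z) = c1 n m (cmap (gm f m) z) := by
  rw [c1_of h, c1_of (cmap_mem (Q := fun _ => True) (gm f m) (map_mul _) (fun _ _ => trivial) h)]
  rfl

lemma gm_u1 (y : Aˣ) : gm f 1 (u1 y) = u1 (Units.map f.toMonoidHom y) := by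
  apply Units.ext
  show RingHom.mapMatrix f (Matrix.scalar (Fin 1) y.val) = Matrix.scalar (Fin 1) (f y.val)
  ext i j
  rw [RingHom.mapMatrix_apply, Matrix.map_apply, Matrix.scalar_apply, Matrix.scalar_apply,
    Matrix.diagonal_apply, Matrix.diagonal_apply, apply_ite f, map_zero]

end

end KFUM

open KFUM in
/-- **KFU**. -/
theorem specKFU (_ : SpecALT.{u, v, w}) (_ : SpecCRS.{u, v}) : SpecKFU.{u, v, w} where
  hom A B _ _ f n := ⟨FH f n, fun m z h => FH_c1 f n m z h⟩
  kzm R S _ _ f G _ y z := by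
    unfold kz
    rw [(specCRS (specALT.{max u w, max v w, 0})).nat, cmap_comp, gm_u1]
    congr 2
    refine congrArg cmap (funext fun g => ?_)
    rw [gm_u1]
    congr 1
    apply Units.ext
    show MonoidAlgebra.mapRingHom G f (MonoidAlgebra.of R G g) = MonoidAlgebra.of S G g
    rw [MonoidAlgebra.of_apply, MonoidAlgebra.of_apply, MonoidAlgebra.mapRingHom_single, map_one]
  ov R S _ _ f G _ H n m z h := by
    refine cmap_mem _ (map_mul _) (fun a ha => ⟨fun i j g hg => ?_, fun i j g hg => ?_⟩) h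
    · refine ha.1 i j g fun h0 => hg ?_
      show (MonoidAlgebra.mapRingHom G f (a.val i j)).coeff g = 0
      rw [MonoidAlgebra.coeff_mapRingHom, h0, map_zero]
    · refine ha.2 i j g fun h0 => hg ?_
      show (MonoidAlgebra.mapRingHom G f (a.inv i j)).coeff g = 0
      rw [MonoidAlgebra.coeff_mapRingHom, h0, map_zero]

end Pool.Agent.Lib.MPb6f35e.KA
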