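import Pool.Agent.Lib.MP_b6f35e_al.KA.SpecF

/-! # folder KA: the cross product is a cycle (KZC) -/

set_option autoImplicit false

noncomputable section

namespace Pool.Agent.Lib.MPb6f35e.KA

open Pool.Agent.Lib.MPb6f35e.WH Pool.Agent.Lib.MPb6f35e.K2

universe u v w x y

namespace KZCM

variable {R : Type u} [CommRing R] {G : Type v} [Group G]

omit [Group G] in
theorem eq_sum (a : MonoidAlgebra R G) :
    a = ∑ c ∈ a.coeff.support, MonoidAlgebra.single c (a.coeff c) := by
  classical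
  ext δ
  rw [MonoidAlgebra.coeff_sum, Finsupp.finsetSum_apply]
  by_cases h : δ ∈ a.coeff.support
  · rw [Finset.sum_eq_single_of_mem δ h]
    · simp
    · intro γ _ hne
      simp [hne]
  · rw [Finset.sum_eq_zero]
    · rw [Finsupp.notMem_support_iff] at h
      exact h
    · intro γ hγ
      have : γ ≠ δ := by rintro rfl; exact h hγ
      simp [this]

theorem comm {C : Subgroup G} {a : MonoidAlgebra R G} (ha : Sup C a) {g : G} (hg : Cen C g) :
    a * MonoidAlgebra.single g 1 = MonoidAlgebra.single g 1 * a := by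
  rw [eq_sum a, Finset.sum_mul, Finset.mul_sum]
  refine Finset.sum_congr rfl fun c hc => ?_
  rw [MonoidAlgebra.single_mul_single, MonoidAlgebra.single_mul_single, mul_one, one_mul,
    hg c (ha c (Finsupp.mem_support_iff.1 hc))]

theorem ucomm {C : Subgroup G} {a : (MonoidAlgebra R G)ˣ} (ha : Sup C a.val) {g : G}
    (hg : Cen C g) : u1 a * u1 (gU R g) = u1 (gU R g) * u1 a := by
  rw [← map_mul, ← map_mul]
  congr 1
  ext1
  exact comm ha hg

end KZCM

open KZCM in
/-- **KZC** -/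
theorem specKZC (hALT : SpecALT.{v, max u v, w}) (hCRS : SpecCRS.{max u v, x}) :
    SpecKZC.{u, v} := by
  intro R _ G _ n C y hy z hz
  obtain ⟨f, hf⟩ : ∃ f : G →* Gl 1 (MonoidAlgebra R G), f = u1.comp (gU R) := ⟨_, rfl⟩
  have h1 : cmap f z ∈ ch n (fun g : Gl 1 (MonoidAlgebra R G) => u1 y * g = g * u1 y) :=
    hALT.cmap G (Gl 1 (MonoidAlgebra R G)) n (Cen C) (fun g => u1 y * g = g * u1 y) f
      (fun g hg => by rw [hf]; exact ucomm hy hg) z hz.1
  have h2 : cmap f z ∈ ch n (fun _ : Gl 1 (MonoidAlgebra R G) => True) :=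
    hALT.cmap G (Gl 1 (MonoidAlgebra R G)) n (Cen C) (fun _ => True) f (fun _ _ => trivial) z hz.1
  have h3 : bd (crs (u1 y) (cmap f z)) = 0 := by
    have h4 := hCRS.bd (Gl 1 (MonoidAlgebra R G)) n (u1 y) (cmap f z) h1
    have h5 := hALT.nat G (Gl 1 (MonoidAlgebra R G)) f (map_mul f) z
    have h6 : bd z = 0 := hz.2
    rw [h6, map_zero] at h5
    rw [h5, map_zero, neg_zero] at h4
    exact h4
  have e : kz y z = crs (u1 y) (cmap f z) := by
    rw [hf]
    rfl
  rw [e]
  exact ⟨hCRS.mem _ n _ _ trivial _ h2, h3⟩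

end Pool.Agent.Lib.MPb6f35e.KA
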