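import Pool.Agent.Lib.MP_b6f35e_al.KA.SpecF
import Pool.Agent.Lib.MP_b6f35e_al.K2.TDN
import Pool.Agent.Lib.MP_b6f35e_al.K2.DEL
import Pool.Agent.Lib.MP_b6f35e_al.K2.CNX
import Pool.Agent.Lib.MP_b6f35e_al.K2.THE
import Pool.Agent.Lib.MP_b6f35e_al.K2.XWM
import Pool.Agent.Lib.MP_b6f35e_al.K2.DGR
import Pool.Agent.Lib.MP_b6f35e_al.K2.HOC
import Pool.Agent.Lib.MP_b6f35e_al.K2.HFO
import Pool.Agent.Lib.MP_b6f35e_al.K2.VL1
import Pool.Agent.Lib.MP_b6f35e_al.KA.BET

/-!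
# KZH: the value of the homomorphism at a cross product (MP_b6f35e_al)

helper67.
-/

set_option autoImplicit false
set_option linter.unusedSectionVars false

noncomputable section

namespace Pool.Agent.Lib.MPb6f35e.KA

open Pool.Agent.Lib.MPb6f35e.WH
open Pool.Agent.Lib.MPb6f35e.K2 (SR TT DD iB tauS dS eS w0 inW tW WR dg sec IsRed)

universe u v w x

namespace KZHM

/-! ### chains -/

section chains

lemma ins_zero {X : Type u} {M : Type v} [AddCommGroup M] (a : X) (l : List X) :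
    ins (fun _ : List X => (0 : M)) a l = 0 := by
  induction l with
  | nil => rfl
  | cons g l ih =>
    rw [ins]
    rw [ih, sub_zero]

/-- The shuffle product, if only the first term contributes. -/
lemma ins_first {X : Type u} {Y : Type v} {M : Type w} [AddCommGroup M] (F : X → Y)
    (β : List Y → M) (a : Y) (hβ : ∀ g l, β (F g :: l) = 0) (l : List X) :
    ins β a (l.map F) = β (a :: l.map F) := by
  cases l with
  | nil => rfl
  | cons g l =>
    rw [List.map_cons, ins]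
    have h0 : (fun l' : List Y => β (F g :: l')) = fun _ => 0 := funext fun l' => hβ g l'
    rw [h0, ins_zero, sub_zero]

lemma ins_hom {X : Type u} {M : Type v} {M' : Type w} [AddCommGroup M] [AddCommGroup M']
    (f : M →+ M') (F : List X → M) (a : X) (l : List X) :
    f (ins F a l) = ins (fun l => f (F l)) a l := by
  induction l generalizing F with
  | nil => rfl
  | cons g l ih =>
    rw [ins, ins, map_sub, ih]

lemma lift_crs {X : Type u} {M : Type v} [AddCommGroup M] (β : List X → M) (a : X) (z : Ch X) :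
    FreeAbelianGroup.lift β (crs a z) = FreeAbelianGroup.lift (ins β a) z := by
  induction z using FreeAbelianGroup.induction_on with
  | zero => simp
  | of l =>
    rw [crs, FreeAbelianGroup.lift_apply_of, FreeAbelianGroup.lift_apply_of, ins_hom]
    simp only [FreeAbelianGroup.lift_apply_of]
  | neg l h => rw [map_neg, map_neg, map_neg, h]
  | add x y hx hy => rw [map_add, map_add, map_add, hx, hy]

lemma lift_cmap {X : Type u} {Y : Type v} {M : Type w} [AddCommGroup M] (F : X → Y)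
    (β : List Y → M) (z : Ch X) :
    FreeAbelianGroup.lift β (cmap F z) = FreeAbelianGroup.lift (fun l => β (l.map F)) z := by
  induction z using FreeAbelianGroup.induction_on with
  | zero => simp
  | of l =>
    rw [cmap, FreeAbelianGroup.map_of_apply, FreeAbelianGroup.lift_apply_of,
      FreeAbelianGroup.lift_apply_of]
  | neg l h => rw [map_neg, map_neg, map_neg, h]
  | add x y hx hy => rw [map_add, map_add, map_add, hx, hy]

lemma cmap_cmap {X : Type u} {Y : Type v} {Z : Type w} (F : X → Y) (F' : Y → Z) (z : Ch X) :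
    cmap F' (cmap F z) = cmap (fun x => F' (F x)) z := by
  induction z using FreeAbelianGroup.induction_on with
  | zero => simp
  | of l =>
    rw [cmap, cmap, cmap, FreeAbelianGroup.map_of_apply, FreeAbelianGroup.map_of_apply,
      FreeAbelianGroup.map_of_apply, List.map_map]
    rfl
  | neg l h => simp only [map_neg, h]
  | add x y hx hy => simp only [map_add, hx, hy]

lemma lift_congr {X : Type u} {M : Type v} [AddCommGroup M] (n : ℕ) (P : X → Prop)
    (f g : List X → M) (h : ∀ l : List X, (∀ x ∈ l, P x) → f l = g l) (z : Ch X)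
    (hz : z ∈ ch n P) : FreeAbelianGroup.lift f z = FreeAbelianGroup.lift g z := by
  induction hz using AddSubgroup.closure_induction with
  | mem y hy =>
    obtain ⟨l, -, hl, rfl⟩ := hy
    rw [FreeAbelianGroup.lift_apply_of, FreeAbelianGroup.lift_apply_of, h l hl]
  | zero => rw [map_zero, map_zero]
  | add a b _ _ ha hb => rw [map_add, map_add, ha, hb]
  | neg a _ ha => rw [map_neg, map_neg, ha]

lemma lift_sum {X : Type u} {M : Type v} [AddCommGroup M] (s : Finset ℕ) (m : ℕ → ℕ)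
    (f : ℕ → List X → M) (z : Ch X) :
    FreeAbelianGroup.lift (fun l => ∑ j ∈ s, m j • f j l) z =
      ∑ j ∈ s, m j • FreeAbelianGroup.lift (f j) z := by
  induction z using FreeAbelianGroup.induction_on with
  | zero => simp
  | of l => simp only [FreeAbelianGroup.lift_apply_of]
  | neg l h => simp only [map_neg, h, smul_neg, Finset.sum_neg_distrib]
  | add x y hx hy => simp only [map_add, hx, hy, smul_add, Finset.sum_add_distrib]

lemma lift_add {X : Type u} {M : Type v} [AddCommGroup M] (f g : List X → M) (z : Ch X) :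
    FreeAbelianGroup.lift (fun l => f l + g l) z =
      FreeAbelianGroup.lift f z + FreeAbelianGroup.lift g z := by
  induction z using FreeAbelianGroup.induction_on with
  | zero => simp
  | of l => simp only [FreeAbelianGroup.lift_apply_of]
  | neg l h => simp only [map_neg, h, neg_add]
  | add x y hx hy => simp only [map_add, hx, hy]; abel

lemma ch_mono {X : Type u} (n : ℕ) (P Q : X → Prop) (h : ∀ x, P x → Q x) (z : Ch X)
    (hz : z ∈ ch n P) : z ∈ ch n Q := by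
  refine AddSubgroup.closure_mono ?_ hz
  rintro y ⟨l, hl, hP, rfl⟩
  exact ⟨l, hl, fun x hx => h x (hP x hx), rfl⟩

end chains

/-! ### the `1 × 1` matrices -/

section one

variable {k : Type u} [CommRing k] {G : Type v} [Group G]

lemma one_of {R : Type w} [Ring R] {N : ℕ} [NeZero N] :
    (1 : Matrix (ZMod N → Fin 1) (ZMod N → Fin 1) R) = Matrix.of fun _ _ => 1 := by
  ext1 I J
  rw [Subsingleton.elim I J, Matrix.one_apply_eq]
  rfl

lemma u1_apply (y : (MonoidAlgebra k G)ˣ) (a b : Fin 1) :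
    ((u1 y : Gl 1 (MonoidAlgebra k G)) : Matrix (Fin 1) (Fin 1) (MonoidAlgebra k G)) a b = y := by
  show Matrix.scalar (Fin 1) (y : MonoidAlgebra k G) a b = y
  rw [Matrix.scalar_apply, Matrix.diagonal_apply, if_pos (Subsingleton.elim a b)]

lemma gU_val (z : G) : ((gU k z : (MonoidAlgebra k G)ˣ) : MonoidAlgebra k G) =
    MonoidAlgebra.single z 1 := rfl

lemma T_single {N : ℕ} [NeZero N] (z : G) :
    ((TT k G (Fin 1) N (u1 (gU k z)) : (TR k G (Fin 1) N)ˣ) : TR k G (Fin 1) N) =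
      Matrix.of fun _ _ => MonoidAlgebra.single (fun _ => z) 1 := by
  show tens k G (Fin 1) N _ = _
  ext1 I J
  rw [tens_eq_ten]
  simp only [u1_apply, gU_val]
  exact K2.VL1aux.ten_single z

lemma dlt_unit {p e : ℕ} [NeZero (p ^ e)] [NeZero (p ^ (e + 1))]
    (a : MonoidAlgebra k (ZMod (p ^ e) → G)) :
    dlt k G (Fin 1) p e (Matrix.of fun _ _ => a) =
      Matrix.of fun _ _ => MonoidAlgebra.mapDomainRingHom k (repG p e G) a := by
  have hi : ∀ i : Fin 1, i = 0 := fun i => Subsingleton.elim _ _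
  ext1 I J
  rw [dlt_apply, sum_one hi, if_pos (Subsingleton.elim _ _), sum_one hi,
    if_pos (Subsingleton.elim _ _)]
  rfl

lemma dlt_one {p e : ℕ} [NeZero (p ^ e)] [NeZero (p ^ (e + 1))] :
    dlt k G (Fin 1) p e 1 = 1 := by
  rw [one_of, dlt_unit, map_one, ← one_of]

lemma D_single {p e : ℕ} [NeZero (p ^ e)] [NeZero (p ^ (e + 1))] (z : G) :
    ((DD k G (Fin 1) p e (u1 (gU k z)) : (TR k G (Fin 1) (p ^ (e + 1)))ˣ) :
      TR k G (Fin 1) (p ^ (e + 1))) =
      Matrix.of fun _ _ => MonoidAlgebra.single (fun _ => z) 1 := by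
  show dhat k G (Fin 1) p e _ = _
  have h1 : tens k G (Fin 1) (p ^ e) ((u1 (gU k z) : Gl 1 (MonoidAlgebra k G)) :
      Matrix (Fin 1) (Fin 1) (MonoidAlgebra k G)) =
      Matrix.of fun _ _ => MonoidAlgebra.single (fun _ => z) 1 := T_single z
  rw [dhat, dlt_one, sub_self, add_zero, h1, dlt_unit, MonoidAlgebra.mapDomainRingHom_apply,
    MonoidAlgebra.mapDomain_single]
  rfl

lemma iB_single {N : ℕ} [NeZero N] (r : k →+* ZMod N) (z : G) :
    iB k N r G (Fin 1) (Matrix.of fun _ _ => MonoidAlgebra.single (fun _ => z) 1) =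
      zS N z := by
  ext1 I J
  show MonoidAlgebra.mapDomainRingHom (ZMod N) (inW N G)
    (MonoidAlgebra.mapRingHom _ r (MonoidAlgebra.single (fun _ => z) 1)) = _
  rw [MonoidAlgebra.mapRingHom_single, map_one, MonoidAlgebra.mapDomainRingHom_apply,
    MonoidAlgebra.mapDomain_single]
  rfl

/-- a constant word commutes with the image of `C`, if `z` commutes with it. -/
lemma comm_FT {C : Type v} [Group C] (φ : C →* G) (z : G) (hz : ∀ h, z * φ h = φ h * z)
    {N : ℕ} [NeZero N] (b : TR k C (Fin 1) N) :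
    (Matrix.of fun _ _ => MonoidAlgebra.single (fun _ => z) 1 : TR k G (Fin 1) N) * FT φ b =
      FT φ b * Matrix.of fun _ _ => MonoidAlgebra.single (fun _ => z) 1 := by
  have hi : ∀ i : Fin 1, i = 0 := fun i => Subsingleton.elim _ _
  ext1 I J
  rw [Matrix.mul_apply, Matrix.mul_apply, sum_one hi, sum_one hi,
    Subsingleton.elim I (fun _ => 0), Subsingleton.elim J (fun _ => 0)]
  show MonoidAlgebra.single (fun _ => z) 1 *
      MonoidAlgebra.mapDomainRingHom k (φ.compLeft (ZMod N)) (b (fun _ => 0) (fun _ => 0)) =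
    MonoidAlgebra.mapDomainRingHom k (φ.compLeft (ZMod N)) (b (fun _ => 0) (fun _ => 0)) *
      MonoidAlgebra.single (fun _ => z) 1
  generalize b (fun _ => 0) (fun _ => 0) = a
  induction a using MonoidAlgebra.induction_linear with
  | zero => simp
  | add x y hx hy => rw [map_add, mul_add, add_mul, hx, hy]
  | single γ c =>
    rw [MonoidAlgebra.mapDomainRingHom_apply, MonoidAlgebra.mapDomain_single,
      MonoidAlgebra.single_mul_single, MonoidAlgebra.single_mul_single, one_mul, mul_one]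
    congr 1
    funext j
    exact hz (γ j)

lemma u1_map {C : Type v} [Group C] (φ : C →* G) (x : (MonoidAlgebra k C)ˣ)
    (y : (MonoidAlgebra k G)ˣ)
    (hy : y = Units.map (MonoidAlgebra.mapDomainRingHom k φ).toMonoidHom x) :
    ((u1 x : Gl 1 (MonoidAlgebra k C)) :
      Matrix (Fin 1) (Fin 1) (MonoidAlgebra k C)).map (MonoidAlgebra.mapDomainRingHom k φ) =
      ((u1 y : Gl 1 (MonoidAlgebra k G)) : Matrix (Fin 1) (Fin 1) (MonoidAlgebra k G)) := by
  ext1 a b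
  rw [Matrix.map_apply, u1_apply, u1_apply, hy]
  rfl

lemma FT_TT {C : Type v} [Group C] (φ : C →* G) {N : ℕ} [NeZero N] (x : (MonoidAlgebra k C)ˣ)
    (y : (MonoidAlgebra k G)ˣ)
    (hy : y = Units.map (MonoidAlgebra.mapDomainRingHom k φ).toMonoidHom x) :
    FT φ ((TT k C (Fin 1) N (u1 x) : (TR k C (Fin 1) N)ˣ) : TR k C (Fin 1) N) =
      (TT k G (Fin 1) N (u1 y) : (TR k G (Fin 1) N)ˣ) := by
  show FT φ (tens k C (Fin 1) N _) = tens k G (Fin 1) N _
  rw [FT_tens, u1_map φ x y hy]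

lemma FT_DD {C : Type v} [Group C] (φ : C →* G) {p e : ℕ} [NeZero (p ^ e)]
    [NeZero (p ^ (e + 1))] (x : (MonoidAlgebra k C)ˣ) (y : (MonoidAlgebra k G)ˣ)
    (hy : y = Units.map (MonoidAlgebra.mapDomainRingHom k φ).toMonoidHom x) :
    FT φ ((DD k C (Fin 1) p e (u1 x) : (TR k C (Fin 1) (p ^ (e + 1)))ˣ) :
      TR k C (Fin 1) (p ^ (e + 1))) =
      (DD k G (Fin 1) p e (u1 y) : (TR k G (Fin 1) (p ^ (e + 1)))ˣ) := by
  show FT φ (dhat k C (Fin 1) p e _) = dhat k G (Fin 1) p e _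
  rw [FT_dhat, u1_map φ x y hy]

/-- commutation of the `1 × 1` matrices -/
lemma u1_comm {C : Type v} [Group C] (φ : C →* G) (z : G) (hz : ∀ h, z * φ h = φ h * z)
    (x : (MonoidAlgebra k C)ˣ) (y : (MonoidAlgebra k G)ˣ)
    (hy : y = Units.map (MonoidAlgebra.mapDomainRingHom k φ).toMonoidHom x) :
    (u1 (gU k z) : Gl 1 (MonoidAlgebra k G)) * u1 y = u1 y * u1 (gU k z) := by
  rw [← map_mul, ← map_mul]
  congr 1
  apply Units.ext
  rw [Units.val_mul, Units.val_mul, hy]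
  show MonoidAlgebra.single z 1 * MonoidAlgebra.mapDomainRingHom k φ (x : MonoidAlgebra k C) =
    MonoidAlgebra.mapDomainRingHom k φ (x : MonoidAlgebra k C) * MonoidAlgebra.single z 1
  generalize (x : MonoidAlgebra k C) = a
  induction a using MonoidAlgebra.induction_linear with
  | zero => simp
  | add x y hx hy => rw [map_add, mul_add, add_mul, hx, hy]
  | single γ c =>
    rw [MonoidAlgebra.mapDomainRingHom_apply, MonoidAlgebra.mapDomain_single,
      MonoidAlgebra.single_mul_single, MonoidAlgebra.single_mul_single, one_mul, mul_one, hz]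

end one

/-- The cochain on `S` is additive in the first entry. -/
def XplH {k : Type u} [CommRing k] (N n : ℕ) [NeZero N] (r : k →+* ZMod N) {G : Type v} [Group G]
    (c : G) (s : WR N G → WR N G) (X : List G → k) (ι : Type) [Fintype ι] [DecidableEq ι]
    (l : List (SR N G ι)) : SR N G ι →+ ZMod N :=
  linS fun a => Xe (fun l' => XA n (w0 N c) s (th1 N G ι Unit) (XWl fun l => r (X l)) (a :: l')) l

lemma Xpl_cons {k : Type u} [CommRing k] (N n : ℕ) [NeZero N] (r : k →+* ZMod N) {G : Type v}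
    [Group G] (c : G) (s : WR N G → WR N G) (X : List G → k) (ι : Type) [Fintype ι]
    [DecidableEq ι] (a : SR N G ι) (l : List (SR N G ι)) :
    Xpl N n r c s X ι (a :: l) = XplH N n r c s X ι l a := rfl

/-- The logarithmic derivative of `sv (toE a)`. -/
lemma dlog {k : Type u} [CommRing k] (p e : ℕ) [Fact p.Prime] [NeZero (p ^ e)]
    [NeZero (p ^ (e + 1))] (r : k →+* ZMod (p ^ (e + 1))) (hr : IsRed k p e r) {G : Type v}
    [Group G] (c : G) {Ω : Type v} [Ring Ω]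
    (lam : SR (p ^ (e + 1)) G (Fin 1) →+* Ω) (ep : Ω →+* Ω) (d : Ω →+ Ω)
    (I : Ω →+ ZMod (p ^ (e + 1))) (hok : (mkD (k := k) p e r lam ep d I).Ok)
    (y : Gl 1 (MonoidAlgebra k G)) (b Xi : TR k G (Fin 1) (p ^ (e + 1)))
    (hfT : rot k G (Fin 1) (p ^ (e + 1)) (TT k G (Fin 1) (p ^ (e + 1)) y) =
      TT k G (Fin 1) (p ^ (e + 1)) y)
    (hX1 : (1 + nm (rot k G (Fin 1) (p ^ (e + 1))) (p ^ (e + 1)) b) * Xi = 1)
    (hX2 : Xi * (1 + nm (rot k G (Fin 1) (p ^ (e + 1))) (p ^ (e + 1)) b) = 1)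
    (a : RT (TT k G (Fin 1) (p ^ (e + 1))) (DD k G (Fin 1) p e)) (hay : a.y = y)
    (haq : a.q = (TT k G (Fin 1) (p ^ (e + 1)) y : (TR k G (Fin 1) (p ^ (e + 1)))ˣ) * b)
    (hqe : (mkD (k := k) p e r lam ep d I).QE (toE a)) :
    (mkD (k := k) p e r lam ep d I).sv (invE (toE a)) *
      (mkD (k := k) p e r lam ep d I).dl ((mkD (k := k) p e r lam ep d I).sv (toE a)) =
      (∑ j ∈ Finset.range (p ^ (e + 1)), j • (iB k (p ^ (e + 1)) r G (Fin 1) (b * Xi) *
        (tauS (p ^ (e + 1)) G (Fin 1) : SR (p ^ (e + 1)) G (Fin 1)) ^ j)) +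
      ∑ j ∈ Finset.range (p ^ (e + 1)), (iB k (p ^ (e + 1)) r G (Fin 1)
        (b * Xi * pp (rot k G (Fin 1) (p ^ (e + 1))) (p ^ (e + 1)) b) *
        (tauS (p ^ (e + 1)) G (Fin 1) : SR (p ^ (e + 1)) G (Fin 1)) ^ j) := by
  have hIs := K2.specCON K2.specTHE K2.specXWM K2.specDGR K2.specHOC K2.specHFO k p e r hr G
    (Fin 1) c (fun _ => (0 : k)) (fun _ _ _ _ => (add_zero _).symm) rfl
  obtain ⟨s, hs⟩ : ∃ s : (SR (p ^ (e + 1)) G (Fin 1))ˣ, s =
    ⟨(mkD (k := k) p e r lam ep d I).sv (toE a), (mkD (k := k) p e r lam ep d I).sv (invE (toE a)),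
      BETaux.sv_mul_inv hok hqe, BETaux.sv_inv_mul hok hqe⟩ := ⟨_, rfl⟩
  have hs1 : (s : SR (p ^ (e + 1)) G (Fin 1)) = (mkD (k := k) p e r lam ep d I).sv (toE a) := by
    rw [hs]
  have hs2 : ((s⁻¹ : (SR (p ^ (e + 1)) G (Fin 1))ˣ) : SR (p ^ (e + 1)) G (Fin 1)) =
      (mkD (k := k) p e r lam ep d I).sv (invE (toE a)) := by
    rw [hs]; rfl
  have hs3 : (s : SR (p ^ (e + 1)) G (Fin 1)) =
      iB k (p ^ (e + 1)) r G (Fin 1) (TT k G (Fin 1) (p ^ (e + 1)) y) *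
        (1 + iB k (p ^ (e + 1)) r G (Fin 1) b * eS (p ^ (e + 1)) (tauS (p ^ (e + 1)) G (Fin 1))) := by
    rw [hs1]
    show iB k (p ^ (e + 1)) r G (Fin 1) (TT k G (Fin 1) (p ^ (e + 1)) a.y) +
      iB k (p ^ (e + 1)) r G (Fin 1) a.q * eS (p ^ (e + 1)) (tauS (p ^ (e + 1)) G (Fin 1)) = _
    rw [hay, haq, map_mul, mul_add, mul_one, mul_assoc]
  have h1 := K2.specDEL _ _ _ _ _ _ _ _ _ hIs s (TT k G (Fin 1) (p ^ (e + 1)) y) b Xi hfT
    hX1 hX2 hs3
  rw [hs2, hs1] at h1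
  refine Eq.trans h1 ?_
  rw [mul_add, Finset.mul_sum, ← mul_assoc (iB k (p ^ (e + 1)) r G (Fin 1) (b * Xi))
    (iB k (p ^ (e + 1)) r G (Fin 1) _), ← map_mul, eS, Finset.mul_sum]
  simp only [mul_smul_comm]

end KZHM

open KZHM in
theorem specKZH (hALT : SpecALT.{v, max u v, 0}) (hDSC : SpecDSC.{max u v, max u v, 0})
    (hCRS : SpecCRS.{max u v, max u v}) (_hBET : SpecBET.{max u v, v, v, 0})
    (hEVA : SpecEVA.{max u v, v, v, 0, max u v}) (hVLG : SpecVLG.{u, v}) (hIDD : SpecIDD.{u, v})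
    (_hHVX : SpecHVX.{u, v}) (hEVX : SpecEVX.{u, v})
    (hPKG : SpecPKG.{max u v, v, v, 0, max u v}) : SpecKZH.{u, v} := by
  intro k _ p e n hpf hp2 _ _ r hr G _ c X hX s hs h hh0 C _ φ z hz x b hb
  obtain ⟨Ω, hΩ, lam, ep, d, I, hom, hval⟩ := hh0
  have hN : 1 < p ^ (e + 1) := Nat.one_lt_pow (Nat.succ_ne_zero e) hpf.out.one_lt
  have hdd := hIDD.idd k p e r hr G (Fin 1)
  have hok := hIDD.ok k p e r hr G (Fin 1) Ω lam ep d I _ hom
  have hfn := hPKG _ _ _ _ _ _ hok _ _ hdd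
  obtain ⟨y, hy⟩ : ∃ y, y = Units.map (MonoidAlgebra.mapDomainRingHom k φ).toMonoidHom x :=
    ⟨_, rfl⟩
  rw [← hy]
  obtain ⟨hzc, hzb⟩ := AddSubgroup.mem_inf.1 hz
  have hzb0 : bd z = 0 := hzb
  -- the lift of `y`
  obtain ⟨-, -, b₀, hb₀⟩ := K2.specTDN k p e hr.frob C (Fin 1) (u1 x)
  have hb₁ : ((TT k G (Fin 1) (p ^ (e + 1)) (u1 y) : (TR k G (Fin 1) (p ^ (e + 1)))ˣ) :
      TR k G (Fin 1) (p ^ (e + 1))) *
      (1 + nm (rot k G (Fin 1) (p ^ (e + 1))) (p ^ (e + 1)) (FT φ b₀)) =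
      DD k G (Fin 1) p e (u1 y) := by
    rw [← FT_TT φ x y hy, ← FT_DD φ x y hy, ← hb₀, map_mul, map_add, map_one, FT_nm]
  obtain ⟨Ξ, hΞ⟩ : ∃ Ξ : TR k C (Fin 1) (p ^ (e + 1)), Ξ =
      (((DD k C (Fin 1) p e (u1 x))⁻¹ : (TR k C (Fin 1) (p ^ (e + 1)))ˣ) :
        TR k C (Fin 1) (p ^ (e + 1))) *
      (TT k C (Fin 1) (p ^ (e + 1)) (u1 x) : (TR k C (Fin 1) (p ^ (e + 1)))ˣ) := ⟨_, rfl⟩
  have hX0 : 1 + nm (rot k C (Fin 1) (p ^ (e + 1))) (p ^ (e + 1)) b₀ =
      (((TT k C (Fin 1) (p ^ (e + 1)) (u1 x))⁻¹ : (TR k C (Fin 1) (p ^ (e + 1)))ˣ) :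
        TR k C (Fin 1) (p ^ (e + 1))) *
      (DD k C (Fin 1) p e (u1 x) : (TR k C (Fin 1) (p ^ (e + 1)))ˣ) := by
    rw [← hb₀, Units.inv_mul_cancel_left]
  have hX1 : (1 + nm (rot k C (Fin 1) (p ^ (e + 1))) (p ^ (e + 1)) b₀) * Ξ = 1 := by
    rw [hX0, hΞ, mul_assoc, Units.mul_inv_cancel_left, Units.inv_mul]
  have hX2 : Ξ * (1 + nm (rot k C (Fin 1) (p ^ (e + 1))) (p ^ (e + 1)) b₀) = 1 := by
    rw [hX0, hΞ, mul_assoc, Units.mul_inv_cancel_left, Units.inv_mul]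
  have hX1' : (1 + nm (rot k G (Fin 1) (p ^ (e + 1))) (p ^ (e + 1)) (FT φ b₀)) * FT φ Ξ = 1 := by
    rw [← FT_nm, ← map_one (FT φ), ← map_add, ← map_mul, hX1]
  have hX2' : FT φ Ξ * (1 + nm (rot k G (Fin 1) (p ^ (e + 1))) (p ^ (e + 1)) (FT φ b₀)) = 1 := by
    rw [← FT_nm, ← map_one (FT φ), ← map_add, ← map_mul, hX2]
  -- the chain
  obtain ⟨a, ha⟩ : ∃ a : RT (TT k G (Fin 1) (p ^ (e + 1))) (DD k G (Fin 1) p e), a =
    ⟨u1 y, (TT k G (Fin 1) (p ^ (e + 1)) (u1 y) : (TR k G (Fin 1) (p ^ (e + 1)))ˣ) * FT φ b₀⟩ :=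
    ⟨_, rfl⟩
  have hay : a.y = u1 y := by rw [ha]
  have haq : a.q = (TT k G (Fin 1) (p ^ (e + 1)) (u1 y) : (TR k G (Fin 1) (p ^ (e + 1)))ˣ) *
    FT φ b₀ := by rw [ha]
  have haI : IQ (p ^ (e + 1)) (rot k G (Fin 1) (p ^ (e + 1))) a := by
    show nm _ _ a.q = _
    rw [haq, hay, K2.TDNaux.nm_mul_left _ _ _ _ (hdd.rT (u1 y)), ← hb₁, mul_add, mul_one,
      add_sub_cancel_left]
  obtain ⟨F, hF⟩ : ∃ F : G → RT (TT k G (Fin 1) (p ^ (e + 1))) (DD k G (Fin 1) p e),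
    F = fun g => ⟨u1 (gU k g), 0⟩ := ⟨_, rfl⟩
  have hFg : ∀ g, F g = ⟨u1 (gU k g), 0⟩ := fun g => by rw [hF]
  have hTD : ∀ g : G, TT k G (Fin 1) (p ^ (e + 1)) (u1 (gU k g)) =
      DD k G (Fin 1) p e (u1 (gU k g)) := fun g => by
    apply Units.ext
    rw [T_single, D_single]
  have hnm0 : nm (rot k G (Fin 1) (p ^ (e + 1))) (p ^ (e + 1))
      (0 : TR k G (Fin 1) (p ^ (e + 1))) = 0 := by
    refine Finset.sum_eq_zero fun j _ => ?_
    exact Function.iterate_fixed (map_zero _) j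
  have hFI : ∀ g, IQ (p ^ (e + 1)) (rot k G (Fin 1) (p ^ (e + 1))) (F g) := by
    intro g
    rw [hFg]
    show nm _ _ 0 = _
    rw [hnm0, hTD, sub_self]
  have hFm : ∀ g g', F (g * g') = F g * F g' := by
    intro g g'
    apply RT.ext'
    · rw [RT.mul_y, hFg, hFg, hFg, map_mul, map_mul]
    · rw [RT.mul_q, hFg, hFg, hFg, mul_zero, zero_mul, add_zero]
  have hFT : ∀ g, (∀ h : C, g * φ h = φ h * g) → ((TT k G (Fin 1) (p ^ (e + 1)) (u1 (gU k g)) :
      (TR k G (Fin 1) (p ^ (e + 1)))ˣ) : TR k G (Fin 1) (p ^ (e + 1))) * a.q =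
      a.q * (TT k G (Fin 1) (p ^ (e + 1)) (u1 (gU k g)) : (TR k G (Fin 1) (p ^ (e + 1)))ˣ) := by
    intro g hg
    rw [haq, ← FT_TT φ x y hy, ← map_mul, T_single, comm_FT φ g hg]
  have hFc : ∀ g, (∀ h : C, g * φ h = φ h * g) → a * F g = F g * a := by
    intro g hg
    apply RT.ext'
    · rw [RT.mul_y, RT.mul_y, hFg, hay]
      exact (u1_comm φ g hg x y hy).symm
    · rw [RT.mul_q, RT.mul_q, hFg, mul_zero, zero_add, zero_mul, add_zero, ← hTD]
      exact (hFT g hg).symm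
  obtain ⟨A, hA⟩ : ∃ A, A = crs a (cmap F z) := ⟨_, rfl⟩
  have hmem : cmap F z ∈ ch n (fun g => a * g = g * a) :=
    hALT.cmap _ _ n _ _ F (fun g hg => hFc g hg) z hzc
  have hmem2 : cmap F z ∈ ch n (IQ (p ^ (e + 1)) (rot k G (Fin 1) (p ^ (e + 1)))) :=
    hALT.cmap _ _ n _ _ F (fun g _ => hFI g) z hzc
  have hbdF : bd (cmap F z) = 0 := by
    rw [hALT.nat _ _ F hFm, hzb0, map_zero]
  have hbdA : bd A = 0 := by
    rw [hA, hCRS.bd _ n a _ hmem, hbdF, map_zero, neg_zero]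
  have hyA : cmap RT.y A = kz y z := by
    rw [hA, hCRS.nat, cmap_cmap, hay, kz, hF]
  have hbdk : bd (kz y z) = 0 := by
    rw [kz, hCRS.bd _ n (u1 y) _ (hALT.cmap _ _ n _ _ _
      (fun g hg => (u1_comm φ g hg x y hy).symm) z hzc),
      hALT.nat _ _ (fun g : G => (u1 (gU k g) : Gl 1 (MonoidAlgebra k G)))
        (fun g g' => by rw [map_mul, map_mul]), hzb0, map_zero, map_zero, neg_zero]
  have hlift : IsLift (p ^ (e + 1)) (rot k G (Fin 1) (p ^ (e + 1))) (kz y z) A 0 := by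
    refine ⟨?_, hyA, ?_⟩
    · rw [hA]
      refine AddSubgroup.closure_mono ?_ (hCRS.mem _ n _ a haI _ hmem2)
      rintro w ⟨l, -, hl, rfl⟩
      exact ⟨l, hl, rfl⟩
    · rw [hbdA, map_zero, map_zero, sub_zero]
  rw [hval, hDSC.ev _ _ _ _ _ _ _ hdd _ _ _ hfn _ hbdk A 0 hlift]
  have hbL0 : bdL (TT k G (Fin 1) (p ^ (e + 1))) (DD k G (Fin 1) p e) 0 = 0 := by
    unfold bdL FL
    exact Finsupp.sum_zero_index
  have hhv : ∀ β f g : List (RT (TT k G (Fin 1) (p ^ (e + 1))) (DD k G (Fin 1) p e)) →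
      ZMod (p ^ (e + 1)), hv β f g A 0 = FreeAbelianGroup.lift β A := by
    intro β f g
    rw [hv, hbL0]
    have h1 : ∀ f' : List (RT (TT k G (Fin 1) (p ^ (e + 1))) (DD k G (Fin 1) p e)) →
      ZMod (p ^ (e + 1)), FL f' 0 = 0 := fun f' => by
        unfold FL
        exact Finsupp.sum_zero_index
    rw [h1, h1, sub_zero, add_zero]
  rw [hhv, hA, lift_crs, lift_cmap]
  -- the value on lists
  have hQE : (mkD (k := k) p e r lam ep d I).QE (toE a) := ⟨⟨hdd.rT _, hdd.rD _⟩, haI⟩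
  have hdlog := dlog p e r hr c lam ep d I hok (u1 y) (FT φ b₀) (FT φ Ξ) (hdd.rT (u1 y)) hX1' hX2'
    a hay haq hQE
  have hlist : ∀ l : List G, (∀ g ∈ l, ∀ h : C, g * φ h = φ h * g) →
      ins (inh (mkD (k := k) p e r lam ep d I).be) a (l.map F) =
      (∑ j ∈ Finset.range (p ^ (e + 1)), j • Xpl (p ^ (e + 1)) n r c s X (Fin 1)
        ((zS (p ^ (e + 1)) l.prod⁻¹ * (iB k (p ^ (e + 1)) r G (Fin 1) (FT φ (b₀ * Ξ)) *
        (tauS (p ^ (e + 1)) G (Fin 1) : SR (p ^ (e + 1)) G (Fin 1)) ^ j)) ::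
        l.map fun g => zS (p ^ (e + 1)) g)) +
      ∑ j ∈ Finset.range (p ^ (e + 1)), 1 • Xpl (p ^ (e + 1)) n r c s X (Fin 1)
        ((zS (p ^ (e + 1)) l.prod⁻¹ * (iB k (p ^ (e + 1)) r G (Fin 1)
          (FT φ (b₀ * Ξ * pp (rot k C (Fin 1) (p ^ (e + 1))) (p ^ (e + 1)) b₀)) *
        (tauS (p ^ (e + 1)) G (Fin 1) : SR (p ^ (e + 1)) G (Fin 1)) ^ j)) ::
        l.map fun g => zS (p ^ (e + 1)) g) := by
    intro l hl
    rw [ins_first F _ a (fun g l' => by
      rw [hFg]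
      exact hEVA.first _ _ _ _ _ _ hok _ _ hdd _ (hTD g) l')]
    have hl1 : l.map F = (l.map fun g => u1 (gU k g)).map fun g =>
        (⟨g, 0⟩ : RT (TT k G (Fin 1) (p ^ (e + 1))) (DD k G (Fin 1) p e)) := by
      rw [List.map_map, hF]
      rfl
    rw [hl1]
    refine Eq.trans (hEVA.main _ _ _ _ _ _ hok _ hom _ _ hdd a haI
      (l.map fun g => u1 (gU k g)) ?_) ?_
    · intro g hg
      obtain ⟨g', hg', rfl⟩ := List.mem_map.1 hg
      refine ⟨hTD g', ?_, hFT g' (hl g' hg')⟩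
      rw [hay]
      exact u1_comm φ g' (hl g' hg') x y hy
    · have hpr : (l.map fun g => u1 (gU k g)).prod = u1 (gU k l.prod) := by
        rw [map_list_prod, map_list_prod, List.map_map]
        rfl
      have hinv : (mkD (k := k) p e r lam ep d I).i
          (((TT k G (Fin 1) (p ^ (e + 1)) (l.map fun g => u1 (gU k g)).prod)⁻¹ :
            (TR k G (Fin 1) (p ^ (e + 1)))ˣ) : TR k G (Fin 1) (p ^ (e + 1))) =
          zS (p ^ (e + 1)) l.prod⁻¹ := by
        rw [hpr, ← map_inv, ← map_inv, ← map_inv, T_single]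
        exact iB_single r _
      have hmap : (l.map fun g => u1 (gU k g)).map (fun g =>
          (mkD (k := k) p e r lam ep d I).i ((TT k G (Fin 1) (p ^ (e + 1)) g :
            (TR k G (Fin 1) (p ^ (e + 1)))ˣ) : TR k G (Fin 1) (p ^ (e + 1)))) =
          l.map fun g => zS (p ^ (e + 1)) g := by
        rw [List.map_map]
        refine List.map_congr_left fun g _ => ?_
        show iB k (p ^ (e + 1)) r G (Fin 1) _ = _
        rw [T_single, iB_single]
      rw [hinv, hmap, hdlog, Xpl_cons, mul_add, map_add, Finset.mul_sum, Finset.mul_sum,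
        map_sum, map_sum]
      refine congrArg₂ (fun a b : ZMod (p ^ (e + 1)) => a + b) ?_ ?_
      · refine Finset.sum_congr rfl fun j _ => ?_
        rw [mul_smul_comm, map_nsmul, ← map_mul (FT φ), Xpl_cons]
      · refine Finset.sum_congr rfl fun j _ => ?_
        rw [one_smul, ← map_mul (FT φ), ← FT_pp, ← map_mul (FT φ), Xpl_cons]
  rw [lift_congr n _ _ _ hlist z hzc, lift_add, lift_sum, lift_sum]
  have hev := fun (a : TR k C (Fin 1) (p ^ (e + 1))) (j : ℕ) =>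
    hEVX k p e n r G c X hX s hs C φ z hz a j
  have hs1 : ∑ j ∈ Finset.range (p ^ (e + 1)), j • FreeAbelianGroup.lift
      (fun l : List G => Xpl (p ^ (e + 1)) n r c s X (Fin 1)
        ((zS (p ^ (e + 1)) l.prod⁻¹ * (iB k (p ^ (e + 1)) r G (Fin 1) (FT φ (b₀ * Ξ)) *
        (tauS (p ^ (e + 1)) G (Fin 1) : SR (p ^ (e + 1)) G (Fin 1)) ^ j)) ::
        l.map fun g => zS (p ^ (e + 1)) g)) z = vlz r c (Xv X) z φ (mC 0 (b₀ * Ξ)) := by
    have h1 := K2.VL1aux.sum_at_one hN (fun j => j) (vlz r c (Xv X) z φ (mC 0 (b₀ * Ξ)))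
    rw [one_smul] at h1
    rw [← h1]
    refine Finset.sum_congr rfl fun j _ => ?_
    rw [hev]
  have hs2 : ∑ j ∈ Finset.range (p ^ (e + 1)), 1 • FreeAbelianGroup.lift
      (fun l : List G => Xpl (p ^ (e + 1)) n r c s X (Fin 1)
        ((zS (p ^ (e + 1)) l.prod⁻¹ * (iB k (p ^ (e + 1)) r G (Fin 1)
          (FT φ (b₀ * Ξ * pp (rot k C (Fin 1) (p ^ (e + 1))) (p ^ (e + 1)) b₀)) *
        (tauS (p ^ (e + 1)) G (Fin 1) : SR (p ^ (e + 1)) G (Fin 1)) ^ j)) ::
        l.map fun g => zS (p ^ (e + 1)) g)) z = vlz r c (Xv X) z φ (mC 0 (b₀ * Ξ *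
          pp (rot k C (Fin 1) (p ^ (e + 1))) (p ^ (e + 1)) b₀)) := by
    have h1 := K2.VL1aux.sum_at_one hN (fun _ => 1) (vlz r c (Xv X) z φ (mC 0 (b₀ * Ξ *
      pp (rot k C (Fin 1) (p ^ (e + 1))) (p ^ (e + 1)) b₀)))
    rw [one_smul] at h1
    rw [← h1]
    refine Finset.sum_congr rfl fun j _ => ?_
    rw [hev]
  rw [hs1, hs2]
  -- the computation in `k[C]`
  have hi : ∀ i : Fin 1, i = 0 := fun i => Subsingleton.elim _ _
  obtain ⟨m, hm⟩ := odd_sum hpf.out hp2 (e + 1)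
  have hmT : mC 0 ((TT k C (Fin 1) (p ^ (e + 1)) (u1 x) :
      (TR k C (Fin 1) (p ^ (e + 1)))ˣ) : TR k C (Fin 1) (p ^ (e + 1))) =
      (x : MonoidAlgebra k C) ^ (p ^ (e + 1)) := by
    show mC 0 (tens k C (Fin 1) (p ^ (e + 1)) _) = _
    rw [mC_tens, u1_apply]
  have hmD : mC 0 ((DD k C (Fin 1) p e (u1 x) :
      (TR k C (Fin 1) (p ^ (e + 1)))ˣ) : TR k C (Fin 1) (p ^ (e + 1))) =
      powC k C p (x : MonoidAlgebra k C) ^ (p ^ e) := by
    show mC 0 (dhat k C (Fin 1) p e _) = _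
    rw [mC_dhat hi, u1_apply]
  have hβ1 : (1 + (p ^ (e + 1)) • mC 0 b₀) * mC 0 Ξ = 1 := by
    have h1 := congrArg (mC 0) hX1
    rw [mC_mul hi, mC_add, mC_one, mC_nm] at h1
    exact h1
  have hβ2 : (1 + (p ^ (e + 1)) • mC 0 b₀) * (1 + (p ^ (e + 1)) • b) = 1 := by
    have h1 := congrArg (mC 0) hb₀
    rw [mC_mul hi, mC_add, mC_one, mC_nm, hmT, hmD, hb] at h1
    have hu : IsUnit (powC k C p (x : MonoidAlgebra k C) ^ (p ^ e)) :=
      ((x.isUnit).map (powC k C p)).pow _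
    apply hu.mul_left_cancel
    rw [mul_one, mul_comm (1 + (p ^ (e + 1)) • mC 0 b₀), ← mul_assoc]
    exact h1
  rw [mC_mul hi, mC_mul hi, mC_mul hi, mC_pp, hm]
  exact hVLG k p e r hr C (fun h => ThC c (Xv X) z (φ h)) (mC 0 b₀) (mC 0 Ξ) b m hβ1 hβ2

end Pool.Agent.Lib.MPb6f35e.KA
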