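import Pool.Agent.Lib.MP_b6f35e_al.KA.SpecG

/-!
# Rational K-theory in all degrees (MP_b6f35e_al), module LFS: lifting of chains to `ℤ[S][G]`
-/

set_option autoImplicit false

noncomputable section

namespace Pool.Agent.Lib.MPb6f35e.KA

universe u v w x y

namespace LFSM

open Classical in
/-- The set of the coefficients. -/
def cf {R : Type u} [CommRing R] {G : Type v} [Group G] (x : MonoidAlgebra R G) : Finset R :=
  x.coeff.support.image fun g => x.coeff g

theorem cf_mem {R : Type u} [CommRing R] {G : Type v} [Group G] (x : MonoidAlgebra R G)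
    (S : Finset R) (h : cf x ⊆ S) (g : G) : x.coeff g ∈ Algebra.adjoin ℤ (S : Set R) := by
  classical
  by_cases h0 : x.coeff g = 0
  · rw [h0]
    exact Subalgebra.zero_mem _
  · refine Algebra.subset_adjoin ?_
    refine Finset.mem_coe.2 (h ?_)
    unfold cf
    exact Finset.mem_image.2 ⟨g, Finsupp.mem_support_iff.2 h0, rfl⟩

theorem iS_coeff {R : Type u} [CommRing R] {G : Type v} [Group G] (S : Finset R)
    (x : MonoidAlgebra (RS S) G) (g : G) : (iS S G x).coeff g = ((x.coeff g : RS S) : R) := by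
  unfold iS
  rw [MonoidAlgebra.coeff_mapRingHom]
  rfl

theorem iS_inj {R : Type u} [CommRing R] {G : Type v} [Group G] (S : Finset R) :
    Function.Injective (iS S G) := by
  intro a b hab
  ext g
  rw [← iS_coeff, ← iS_coeff, hab]

theorem iS_lift {R : Type u} [CommRing R] {G : Type v} [Group G] (S : Finset R)
    (x : MonoidAlgebra R G) (h : ∀ g, x.coeff g ∈ Algebra.adjoin ℤ (S : Set R)) :
    ∃ y, iS S G y = x := by
  classical
  refine ⟨∑ g ∈ x.coeff.support, MonoidAlgebra.single g ⟨x.coeff g, h g⟩, ?_⟩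
  ext g
  rw [map_sum]
  have h1 : ∀ g', iS S G (MonoidAlgebra.single g' ⟨x.coeff g', h g'⟩) =
      MonoidAlgebra.single g' (x.coeff g') := by
    intro g'
    unfold iS
    rw [MonoidAlgebra.mapRingHom_single]
    rfl
  simp only [h1]
  simp [MonoidAlgebra.coeff_single, Finsupp.single_apply]
  intro h0
  exact h0.symm

theorem iS_un {R : Type u} [CommRing R] {G : Type v} [Group G] (x : (MonoidAlgebra R G)ˣ)
    (S : Finset R) (h : cf x.val ⊆ S) (h' : cf x.inv ⊆ S) :
    ∃ y, Units.map (iS S G).toMonoidHom y = x := by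
  obtain ⟨a, ha⟩ := iS_lift S x.val (cf_mem x.val S h)
  obtain ⟨b, hb⟩ := iS_lift S x.inv (cf_mem x.inv S h')
  refine ⟨⟨a, b, ?_, ?_⟩, ?_⟩
  · apply iS_inj S
    rw [map_mul, map_one, ha, hb, x.val_inv]
  · apply iS_inj S
    rw [map_mul, map_one, ha, hb, x.inv_val]
  · apply Units.ext
    exact ha

theorem gm_val {A : Type u} {B : Type v} [Ring A] [Ring B] (f : A →+* B) (m : ℕ) (x : Gl m A)
    (i j : Fin m) : (gm f m x).val i j = f (x.val i j) := rfl

theorem gm_inj {R : Type u} [CommRing R] {G : Type v} [Group G] (S : Finset R) (m : ℕ) :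
    Function.Injective (gm (iS S G) m) := by
  intro a b hab
  apply Units.ext
  refine Matrix.ext fun i j => ?_
  apply iS_inj S
  rw [← gm_val, ← gm_val, hab]

theorem gm_lift {R : Type u} [CommRing R] {G : Type v} [Group G] (m : ℕ)
    (x : Gl m (MonoidAlgebra R G)) : ∃ S₀ : Finset R, ∀ S, S₀ ⊆ S →
      ∃ y, gm (iS S G) m y = x := by
  classical
  refine ⟨Finset.univ.biUnion fun i => Finset.univ.biUnion fun j =>
    cf (x.val i j) ∪ cf (x.inv i j), fun S hS => ?_⟩
  have h1 : ∀ i j, cf (x.val i j) ∪ cf (x.inv i j) ⊆ S := by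
    intro i j r hr
    refine hS (Finset.mem_biUnion.2 ⟨i, Finset.mem_univ _, Finset.mem_biUnion.2
      ⟨j, Finset.mem_univ _, hr⟩⟩)
  have h2 : ∀ i j, ∃ y, iS S G y = x.val i j := fun i j =>
    iS_lift S _ (cf_mem _ S (Finset.union_subset_left (h1 i j)))
  have h3 : ∀ i j, ∃ y, iS S G y = x.inv i j := fun i j =>
    iS_lift S _ (cf_mem _ S (Finset.union_subset_right (h1 i j)))
  choose a ha using h2
  choose b hb using h3
  have hA : (RingHom.mapMatrix (iS S G)) (Matrix.of a) = x.val := by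
    refine Matrix.ext fun i j => ?_
    exact ha i j
  have hB : (RingHom.mapMatrix (iS S G)) (Matrix.of b) = x.inv := by
    refine Matrix.ext fun i j => ?_
    exact hb i j
  have hinj : Function.Injective (RingHom.mapMatrix (m := Fin m) (iS S G)) := by
    intro c d hcd
    refine Matrix.ext fun i j => ?_
    apply iS_inj S
    exact congrFun (congrFun hcd i) j
  refine ⟨⟨Matrix.of a, Matrix.of b, ?_, ?_⟩, ?_⟩
  · apply hinj
    rw [map_mul, map_one, hA, hB, x.val_inv]
  · apply hinj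
    rw [map_mul, map_one, hA, hB, x.inv_val]
  · apply Units.ext
    exact hA

theorem cmap_inj {X : Type u} {Y : Type v} (f : X → Y) (hf : Function.Injective f) :
    Function.Injective (cmap f) := by
  obtain ⟨g, hg⟩ := (List.map_injective_iff.2 hf).hasLeftInverse
  have h1 : Function.LeftInverse (FreeAbelianGroup.map g) (cmap f) := by
    intro z
    unfold cmap
    rw [← FreeAbelianGroup.map_comp_apply]
    have h2 : g ∘ List.map f = id := by
      funext l
      exact hg l
    rw [h2, FreeAbelianGroup.map_id_apply]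
  exact h1.injective

theorem lift_ch (R : Type u) (X : Type v) (Y : Finset R → Type w) (f : ∀ S, Y S → X)
    (hf : ∀ x, ∃ S₀, ∀ S, S₀ ⊆ S → ∃ y, f S y = x) (n : ℕ) (P : X → Prop) (z : Ch X)
    (hz : z ∈ ch n P) :
    ∃ S₀, ∀ S, S₀ ⊆ S → ∃ z₀ ∈ ch n (fun y => P (f S y)), cmap (f S) z₀ = z := by
  classical
  have hl : ∀ l : List X, ∃ S₀ : Finset R, ∀ S, S₀ ⊆ S → ∃ l' : List (Y S), l'.map (f S) = l := by
    intro l
    induction l with
    | nil => exact ⟨∅, fun S _ => ⟨[], rfl⟩⟩
    | cons x l ih =>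
      obtain ⟨S₁, h1⟩ := hf x
      obtain ⟨S₂, h2⟩ := ih
      refine ⟨S₁ ∪ S₂, fun S hS => ?_⟩
      obtain ⟨y, hy⟩ := h1 S (Finset.union_subset_left hS)
      obtain ⟨l', hl'⟩ := h2 S (Finset.union_subset_right hS)
      exact ⟨y :: l', by rw [List.map_cons, hy, hl']⟩
  unfold ch at hz
  induction hz using AddSubgroup.closure_induction with
  | mem z hz =>
    obtain ⟨l, hl1, hl2, rfl⟩ := hz
    obtain ⟨S₀, h⟩ := hl l
    refine ⟨S₀, fun S hS => ?_⟩
    obtain ⟨l', rfl⟩ := h S hS
    refine ⟨FreeAbelianGroup.of l', AddSubgroup.subset_closure ⟨l', by simpa using hl1, ?_, rfl⟩,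
      ?_⟩
    · intro y hy
      exact hl2 _ (List.mem_map_of_mem hy)
    · unfold cmap
      rw [FreeAbelianGroup.map_of_apply]
  | zero => exact ⟨∅, fun S _ => ⟨0, (ch n _).zero_mem, map_zero _⟩⟩
  | add a b _ _ ha hb =>
    obtain ⟨S₁, h1⟩ := ha
    obtain ⟨S₂, h2⟩ := hb
    refine ⟨S₁ ∪ S₂, fun S hS => ?_⟩
    obtain ⟨a', ha', ha''⟩ := h1 S (Finset.union_subset_left hS)
    obtain ⟨b', hb', hb''⟩ := h2 S (Finset.union_subset_right hS)
    exact ⟨a' + b', (ch n _).add_mem ha' hb', by rw [map_add, ha'', hb'']⟩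
  | neg a _ ha =>
    obtain ⟨S₁, h1⟩ := ha
    refine ⟨S₁, fun S hS => ?_⟩
    obtain ⟨a', ha', ha''⟩ := h1 S hS
    exact ⟨-a', (ch n _).neg_mem ha', by rw [map_neg, ha'']⟩

end LFSM

open LFSM in
theorem specLFS : SpecLFS.{u, v, w} where
  inj _ _ _ _ S m := gm_inj S m
  cinj _ _ f hf := cmap_inj f hf
  gl _ _ _ _ m x := gm_lift m x
  un R _ G _ x := by
    classical
    exact ⟨cf x.val ∪ cf x.inv, fun S hS => iS_un x S (Finset.union_subset_left hS)
      (Finset.union_subset_right hS)⟩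
  lift R X Y f hf n P z hz := lift_ch R X Y f hf n P z hz

end Pool.Agent.Lib.MPb6f35e.KA
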