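import Pool.Agent.Lib.MP_b6f35e_al.KA.SpecC

/-!
# Rational K-theory in all degrees (MP_b6f35e_al): module LLB, the algebra of `LL` (helper58)
-/

set_option autoImplicit false

noncomputable section

namespace Pool.Agent.Lib.MPb6f35e.KA

open Pool.Agent.Lib.MPb6f35e.WH Pool.Agent.Lib.MPb6f35e.K2

universe u v w x

namespace LLBM

/-! ### `bdF` and homomorphisms -/

theorem tl_map {X : Type u} {M : Type v} {M' : Type w} [Mul X] [AddCommGroup M] [AddCommGroup M']
    (f : M →+ M') : ∀ (l : List X) (F : List X → M), tl (fun l => f (F l)) l = f (tl F l)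
  | [], F => by simp [tl]
  | [_], F => by simp [tl]
  | x :: y :: l, F => by
    simp only [tl]
    rw [tl_map f (y :: l) (fun l' => F (x :: l')), map_sub]

theorem bdF_map {X : Type u} {M : Type v} {M' : Type w} [Mul X] [AddCommGroup M]
    [AddCommGroup M'] (f : M →+ M') (F : List X → M) (l : List X) :
    bdF (fun l => f (F l)) l = f (bdF F l) := by
  cases l with
  | nil => simp [bdF]
  | cons x l =>
    simp only [bdF]
    rw [tl_map f (x :: l) F, map_sub]

theorem bd_of {X : Type u} [Mul X] (l : List X) :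
    bd (FreeAbelianGroup.of l) = bdF FreeAbelianGroup.of l :=
  FreeAbelianGroup.lift_apply_of _ _

theorem hom_bd_of {X : Type u} {M : Type v} [Mul X] [AddCommGroup M] (f : Ch X →+ M)
    (l : List X) : f (bd (FreeAbelianGroup.of l)) = bdF (fun l => f (FreeAbelianGroup.of l)) l := by
  rw [bd_of, bdF_map f]

section

variable {Γ : Type u} {B : Type v} [Group Γ] [Ring B] {T D : Γ →* Bˣ}

/-! ### joint additivity -/

/-- `F₃ (l, q + q') = F₁ (l, q) + F₂ (l, q')` -/
def J3 {M : Type w} [AddCommGroup M] (F₁ F₂ F₃ : List (RT T D) → M) : Prop :=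
  ∀ (l : List Γ) (q q' : ℕ → B), F₃ (pr T D l (q + q')) = F₁ (pr T D l q) + F₂ (pr T D l q')

/-- put `b` in front -/
def cns (b : B) (q : ℕ → B) : ℕ → B
  | 0 => b
  | j + 1 => q j

theorem cns_add (b b' : B) (q q' : ℕ → B) : cns b q + cns b' q' = cns (b + b') (q + q') := by
  funext j
  cases j <;> rfl

theorem pr_cons (y : Γ) (l : List Γ) (b : B) (q : ℕ → B) :
    pr T D (y :: l) (cns b q) = ⟨y, b⟩ :: pr T D l q := rfl

theorem tl_j3 {M : Type w} [AddCommGroup M] :
    ∀ (l : List Γ) (F₁ F₂ F₃ : List (RT T D) → M) (_ : J3 F₁ F₂ F₃) (q q' : ℕ → B),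
      tl F₃ (pr T D l (q + q')) = tl F₁ (pr T D l q) + tl F₂ (pr T D l q')
  | [], F₁, F₂, F₃, h, q, q' => by simp [pr, tl]
  | [y], F₁, F₂, F₃, h, q, q' => by
    have := h [] q q'
    simpa [pr, tl] using this
  | y :: y' :: l, F₁, F₂, F₃, h, q, q' => by
    have h1 : J3 (fun l' => F₁ (⟨y, q 0⟩ :: l')) (fun l' => F₂ (⟨y, q' 0⟩ :: l'))
        (fun l' => F₃ (⟨y, (q + q') 0⟩ :: l')) := by
      intro l r r'
      have := h (y :: l) (cns (q 0) r) (cns (q' 0) r')
      rw [cns_add, pr_cons, pr_cons, pr_cons] at this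
      exact this
    have h2 := tl_j3 (y' :: l) _ _ _ h1 (fun j => q (j + 1)) (fun j => q' (j + 1))
    have h3 := h (y * y' :: l)
      (cns ((T y : B) * q 1 + q 0 * D y') (fun j => q (j + 1 + 1)))
      (cns ((T y : B) * q' 1 + q' 0 * D y') (fun j => q' (j + 1 + 1)))
    rw [cns_add, pr_cons, pr_cons, pr_cons] at h3
    have e1 : ((T y : B) * q 1 + q 0 * D y') + ((T y : B) * q' 1 + q' 0 * D y') =
        (T y : B) * (q + q') 1 + (q + q') 0 * D y' := by
      simp only [Pi.add_apply, mul_add, add_mul]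
      abel
    rw [e1] at h3
    have e2 : tl F₃ (pr T D (y :: y' :: l) (q + q')) =
        F₃ (⟨y * y', (T y : B) * (q + q') 1 + (q + q') 0 * D y'⟩ ::
          pr T D l ((fun j => q (j + 1 + 1)) + fun j => q' (j + 1 + 1))) -
        tl (fun l' => F₃ (⟨y, (q + q') 0⟩ :: l'))
          (pr T D (y' :: l) ((fun j => q (j + 1)) + fun j => q' (j + 1))) := rfl
    have e3 : tl F₁ (pr T D (y :: y' :: l) q) =
        F₁ (⟨y * y', (T y : B) * q 1 + q 0 * D y'⟩ :: pr T D l (fun j => q (j + 1 + 1))) -
        tl (fun l' => F₁ (⟨y, q 0⟩ :: l')) (pr T D (y' :: l) (fun j => q (j + 1))) := rfl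
    have e4 : tl F₂ (pr T D (y :: y' :: l) q') =
        F₂ (⟨y * y', (T y : B) * q' 1 + q' 0 * D y'⟩ :: pr T D l (fun j => q' (j + 1 + 1))) -
        tl (fun l' => F₂ (⟨y, q' 0⟩ :: l')) (pr T D (y' :: l) (fun j => q' (j + 1))) := rfl
    rw [e2, e3, e4, h2, h3]
    abel

theorem bdF_jadd {M : Type w} [AddCommGroup M] {F : List (RT T D) → M} (hF : Jadd F) :
    Jadd (bdF F) := by
  intro l q q'
  cases l with
  | nil => simp [pr, bdF]
  | cons y l =>
    have h1 := tl_j3 (y :: l) F F F hF q q'
    have h2 := hF l (fun j => q (j + 1)) (fun j => q' (j + 1))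
    have e1 : ∀ r : ℕ → B, bdF F (pr T D (y :: l) r) =
        F (pr T D l fun j => r (j + 1)) - tl F (pr T D (y :: l) r) := fun r => rfl
    have e2 : (fun j => (q + q') (j + 1)) = (fun j => q (j + 1)) + fun j => q' (j + 1) := rfl
    rw [e1, e1, e1, h1, e2, h2]
    abel

theorem jadd_zero {M : Type w} [AddCommGroup M] {F : List (RT T D) → M} (hF : Jadd F)
    (l : List Γ) : F (pr T D l 0) = 0 := by
  have := hF l 0 0
  rw [add_zero] at this
  exact left_eq_add.1 this

theorem FL_add {M : Type w} [AddCommGroup M] {F : List (RT T D) → M} (hF : Jadd F)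
    (x y : LL Γ B) : FL F (x + y) = FL F x + FL F y :=
  Finsupp.sum_add_index' (fun l => jadd_zero hF l) fun l q q' => hF l q q'

theorem FL_single {M : Type w} [AddCommGroup M] {F : List (RT T D) → M} (hF : Jadd F)
    (l : List Γ) (q : ℕ → B) : FL F (Finsupp.single l q) = F (pr T D l q) :=
  Finsupp.sum_single_index (jadd_zero hF l)

/-- `FL F` as a homomorphism -/
def FLh {M : Type w} [AddCommGroup M] (F : List (RT T D) → M) (hF : Jadd F) : LL Γ B →+ M where
  toFun := FL F
  map_zero' := Finsupp.sum_zero_index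
  map_add' := FL_add hF

/-! ### `lamL` -/

theorem pr_map_y (l : List Γ) : ∀ q : ℕ → B, (pr T D l q).map RT.y = l := by
  induction l with
  | nil => intro q; rfl
  | cons y l ih => intro q; simp [pr, ih]

/-- the sequence of a list -/
def sq (l : List (RT T D)) : ℕ → B := fun j => (l.map RT.q).getD j 0

theorem sq_nil : sq ([] : List (RT T D)) = 0 := by
  funext j
  simp [sq]

theorem sq_cons (a : RT T D) (l : List (RT T D)) : sq (a :: l) = cns a.q (sq l) := by
  funext j
  cases j with
  | zero => simp [sq, cns]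
  | succ j => simp [sq, cns]

theorem sq_pr_add (l : List Γ) : ∀ q q' : ℕ → B,
    sq (pr T D l (q + q')) = sq (pr T D l q) + sq (pr T D l q') := by
  induction l with
  | nil => intro q q'; simp [pr, sq_nil]
  | cons y l ih =>
    intro q q'
    have e2 : (fun j => (q + q') (j + 1)) = (fun j => q (j + 1)) + fun j => q' (j + 1) := rfl
    simp only [pr, sq_cons]
    rw [cns_add, e2, ih]
    rfl

theorem pr_self (l : List (RT T D)) : pr T D (l.map RT.y) (sq l) = l := by
  induction l with
  | nil => rfl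
  | cons a l ih =>
    rw [sq_cons, List.map_cons, pr_cons, ih]

theorem lamL_of (l : List (RT T D)) :
    lamL T D (FreeAbelianGroup.of l) = Finsupp.single (l.map RT.y) (sq l) :=
  FreeAbelianGroup.lift_apply_of _ _

theorem jadd_lam : Jadd (fun l : List (RT T D) => lamL T D (FreeAbelianGroup.of l)) := by
  intro l q q'
  simp only
  rw [lamL_of, lamL_of, lamL_of, pr_map_y, pr_map_y, pr_map_y, sq_pr_add, Finsupp.single_add]

/-- the function in `bdL` -/
def bF (T D : Γ →* Bˣ) (l : List (RT T D)) : LL Γ B := lamL T D (bd (FreeAbelianGroup.of l))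

theorem jadd_bF : Jadd (bF T D) := by
  have h : bF T D = bdF (fun l : List (RT T D) => lamL T D (FreeAbelianGroup.of l)) := by
    funext l
    exact hom_bd_of (lamL T D) l
  rw [h]
  exact bdF_jadd jadd_lam

theorem bdL_eq (x : LL Γ B) : bdL T D x = FL (bF T D) x := rfl

theorem FL_lamL {M : Type w} [AddCommGroup M] {F : List (RT T D) → M} (hF : Jadd F)
    (a : Ch (RT T D)) : FL F (lamL T D a) = FreeAbelianGroup.lift F a := by
  have h : (FLh F hF).comp (lamL T D) = FreeAbelianGroup.lift F := by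
    apply FreeAbelianGroup.lift_ext
    intro l
    rw [FreeAbelianGroup.lift_apply_of, AddMonoidHom.comp_apply, lamL_of]
    show FL F _ = _
    rw [FL_single hF, pr_self]
  exact DFunLike.congr_fun h a

theorem bdL_lamL (a : Ch (RT T D)) : bdL T D (lamL T D a) = lamL T D (bd a) := by
  rw [bdL_eq, FL_lamL jadd_bF]
  have h : FreeAbelianGroup.lift (bF T D) = (lamL T D).comp bd := by
    apply FreeAbelianGroup.lift_ext
    intro l
    rw [FreeAbelianGroup.lift_apply_of]
    rfl
  rw [h]
  rfl

/-- `bdL` as a homomorphism -/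
def bdLh (T D : Γ →* Bˣ) : LL Γ B →+ LL Γ B := FLh (bF T D) jadd_bF

theorem bdLh_apply (x : LL Γ B) : bdLh T D x = bdL T D x := rfl

theorem bdL_single (l : List Γ) (q : ℕ → B) :
    bdL T D (Finsupp.single l q) = lamL T D (bd (FreeAbelianGroup.of (pr T D l q))) :=
  FL_single jadd_bF l q

omit [Group Γ] in
theorem hom_ext {M : Type w} [AddCommGroup M] {f g : LL Γ B →+ M}
    (h : ∀ l q, f (Finsupp.single l q) = g (Finsupp.single l q)) : f = g :=
  Finsupp.addHom_ext h

/-- the map `q ↦ ρ q` on pairs -/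
def mr (ρ : B →+* B) (a : RT T D) : RT T D := ⟨a.y, ρ a.q⟩

theorem pr_mr (ρ : B →+* B) (l : List Γ) : ∀ q : ℕ → B,
    pr T D l (fun j => ρ (q j)) = (pr T D l q).map (mr ρ) := by
  induction l with
  | nil => intro q; rfl
  | cons y l ih =>
    intro q
    simp only [pr, List.map_cons, ih]
    rfl

theorem sq_mr (ρ : B →+* B) (l : List (RT T D)) :
    sq (l.map (mr ρ)) = fun j => ρ (sq l j) := by
  induction l with
  | nil => funext j; simp [sq_nil]
  | cons a l ih =>
    rw [List.map_cons, sq_cons, sq_cons, ih]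
    funext j
    cases j <;> rfl

omit [Group Γ] in
theorem rhL_single (ρ : B →+* B) (l : List Γ) (q : ℕ → B) :
    rhL ρ (Finsupp.single l q) = Finsupp.single l fun j => ρ (q j) := by
  unfold rhL
  rw [Finsupp.mapRange.addMonoidHom_apply, Finsupp.mapRange_single]
  rfl

theorem lamL_cmap (ρ : B →+* B) (z : Ch (RT T D)) :
    lamL T D (cmap (mr ρ) z) = rhL ρ (lamL T D z) := by
  have h : (lamL T D).comp (cmap (mr ρ)) = (rhL ρ).comp (lamL T D) := by
    apply FreeAbelianGroup.lift_ext
    intro l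
    rw [AddMonoidHom.comp_apply, AddMonoidHom.comp_apply]
    unfold cmap
    rw [FreeAbelianGroup.map_of_apply, lamL_of, lamL_of, rhL_single, sq_mr, List.map_map]
    rfl
  exact DFunLike.congr_fun h z

end

end LLBM

open LLBM in
theorem specLLB (hALT : SpecALT.{max u v, max u v, w}) : SpecLLB.{u, v, w} where
  add Γ B M _ _ _ T D F hF x y := FL_add hF x y
  lam Γ B M _ _ _ T D F hF a := FL_lamL hF a
  jb Γ B M _ _ _ T D F hF := bdF_jadd hF
  badd Γ B _ _ T D x y := FL_add jadd_bF x y
  bd Γ B _ _ T D a := bdL_lamL a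
  bb Γ B _ _ T D x := by
    have h : (bdLh T D).comp (bdLh T D) = 0 := by
      apply hom_ext
      intro l q
      show bdL T D (bdL T D (Finsupp.single l q)) = 0
      rw [bdL_single, bdL_lamL, hALT.bdbd, map_zero]
    exact DFunLike.congr_fun h x
  FB Γ B M _ _ _ T D F hF x := by
    have h : FLh (bdF F) (bdF_jadd hF) = (FLh F hF).comp (bdLh T D) := by
      apply hom_ext
      intro l q
      show FL (bdF F) (Finsupp.single l q) = FL F (bdL T D (Finsupp.single l q))
      rw [FL_single (bdF_jadd hF), bdL_single, FL_lamL hF, hom_bd_of]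
      congr 1
      funext l
      rw [FreeAbelianGroup.lift_apply_of]
    exact DFunLike.congr_fun h x
  rh Γ B _ _ ρ T D hT hD x := by
    have h : (bdLh T D).comp (rhL ρ) = (rhL ρ).comp (bdLh T D) := by
      apply hom_ext
      intro l q
      show bdL T D (rhL ρ (Finsupp.single l q)) = rhL ρ (bdL T D (Finsupp.single l q))
      rw [rhL_single, bdL_single, bdL_single, pr_mr, ← lamL_cmap]
      have h1 := hALT.nat (RT T D) (RT T D) (mr ρ) (by
        intro a b
        apply RT.ext'
        · rfl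
        · show ρ ((a * b).q) = (T a.y : B) * ρ b.q + ρ a.q * D b.y
          rw [RT.mul_q, map_add, map_mul, map_mul, hT, hD]) (FreeAbelianGroup.of (pr T D l q))
      rw [← h1]
      unfold cmap
      rw [FreeAbelianGroup.map_of_apply]
    exact DFunLike.congr_fun h x

end Pool.Agent.Lib.MPb6f35e.KA
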