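import Pool.Agent.Lib.MP_b6f35e_al.KA.SpecF
import Pool.Agent.Lib.MP_b6f35e_al.K2.LIM
import Pool.Agent.Lib.MP_b6f35e_al.K2.EXB
import Pool.Agent.Lib.MP_b6f35e_al.K2.TDN
import Pool.Agent.Lib.MP_b6f35e_al.WH.L

/-!
# All degrees theorem, module LMT: the limit (after `K2/LIM.lean`; helper72)
-/

set_option autoImplicit false

noncomputable section

namespace Pool.Agent.Lib.MPb6f35e.KA

open Pool.Agent.Lib.MPb6f35e.WH

universe u v w x

namespace LMTM

open Pool.Agent.Lib.MPb6f35e.K2.LIMaux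

lemma sum_eq {p : ℕ} [Fact p.Prime] {C : Type v} [CommGroup C] [Fintype C] (e : ℕ)
    (t : C → ℤ_[p]) (b : MonoidAlgebra ℤ_[p] C) :
    b.coeff.sum (fun h a =>
        (PadicInt.toZModPow (e + 1) : ℤ_[p] →+* ZMod (p ^ (e + 1))) (a * t h)) =
      PadicInt.toZModPow (e + 1) (V t b) := by
  rw [Finsupp.sum_fintype _ _ (fun c => by rw [zero_mul, map_zero]), V_apply, map_sum]

end LMTM

open LMTM Pool.Agent.Lib.MPb6f35e.K2.LIMaux L3 in
/-- The limit, from EXB and the properties of the logarithm. -/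
theorem specLMT_of (hEXB : K2.SpecEXB.{0, v}) (hL : SpecLP.{v}) : SpecLMT.{v} := by
  intro p _ hp m R hm C _ _ t x hrel a ha hone
  have hpr : p.Prime := Fact.out
  have hp0 : (p : ℚ_[p]) ≠ 0 := by exact_mod_cast hpr.ne_zero
  have hne : ∀ e, NeZero (p ^ e) := fun e => ⟨pow_ne_zero _ hpr.ne_zero⟩
  set xa : ∀ j, (MonoidAlgebra ℤ_[p] (C j))ˣ := fun j => x j ^ a with hxa
  have hxa1 : ∀ j, OneModP p (xa j : MonoidAlgebra ℤ_[p] (C j)) := fun j => by
    rw [hxa, Units.val_pow_eq_pow_val]; exact hone j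
  set t' : ∀ j, C j → ℤ_[p] := fun j h => t j (h ^ p) with ht'
  have key : ∀ e : ℕ, ∃ s : ℤ_[p],
      (m : ℚ_[p]) * ∑ j, ((∑ h, ((t j h : ℤ_[p]) : ℚ_[p]) *
          lgSeqP p (xa j : MonoidAlgebra ℤ_[p] (C j)) h (e + 1)) -
        (p : ℚ_[p])⁻¹ * ∑ h, ((t' j h : ℤ_[p]) : ℚ_[p]) *
          lgSeqP p (xa j : MonoidAlgebra ℤ_[p] (C j)) h e) =
        (p : ℚ_[p]) ^ (e + 1) * (s : ℚ_[p]) := by
    intro e
    have := hne e
    have := hne (e + 1)
    choose b hb using fun j => hEXB ℤ_[p] p e (frob p) (C j) (x j)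
    have h1 := hrel e b hb
    choose a1 ha1 using fun j => exists_a p (xa j : MonoidAlgebra ℤ_[p] (C j)) (hxa1 j) e
    choose a2 ha2 using fun j => exists_a p (xa j : MonoidAlgebra ℤ_[p] (C j)) (hxa1 j) (e + 1)
    choose b' w hb' hw using fun j => exists_b (xa j) e (a1 j) (a2 j) (ha1 j) (ha2 j)
    choose w' hw' using fun j => step (x j) a e (b j) (b' j) (hb j) (hb' j)
    rw [Finset.sum_congr rfl fun j _ => sum_eq e (t j) (b j), ← map_sum, ← map_nsmul] at h1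
    have h2 : m • ∑ j, V (t j) (b j) ∈ RingHom.ker (PadicInt.toZModPow (p := p) (e + 1)) := h1
    rw [PadicInt.ker_toZModPow, Ideal.mem_span_singleton] at h2
    obtain ⟨s, hs⟩ := h2
    refine ⟨a * s + m * ∑ j, (V (t j) (w' j) - V (t j) (w j)), ?_⟩
    have h3 : ∀ j, (∑ h, ((t j h : ℤ_[p]) : ℚ_[p]) *
          lgSeqP p (xa j : MonoidAlgebra ℤ_[p] (C j)) h (e + 1)) -
        (p : ℚ_[p])⁻¹ * ∑ h, ((t' j h : ℤ_[p]) : ℚ_[p]) *
          lgSeqP p (xa j : MonoidAlgebra ℤ_[p] (C j)) h e =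
        ((a * V (t j) (b j) + (p : ℤ_[p]) ^ (e + 1) * (V (t j) (w' j) - V (t j) (w j)) : ℤ_[p]) :
          ℚ_[p]) := by
      intro j
      have e1 : ∑ h, ((t j h : ℤ_[p]) : ℚ_[p]) *
          lgSeqP p (xa j : MonoidAlgebra ℤ_[p] (C j)) h (e + 1) =
          (p : ℚ_[p]) * ((V (t j) (a2 j) : ℤ_[p]) : ℚ_[p]) := by
        rw [V_coe, Finset.mul_sum]
        refine Finset.sum_congr rfl fun h _ => ?_
        rw [lgSeqP_eq (ha2 j) h]
        ring
      have e2 : ∑ h, ((t' j h : ℤ_[p]) : ℚ_[p]) *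
          lgSeqP p (xa j : MonoidAlgebra ℤ_[p] (C j)) h e =
          (p : ℚ_[p]) * ((V (t' j) (a1 j) : ℤ_[p]) : ℚ_[p]) := by
        rw [V_coe, Finset.mul_sum]
        refine Finset.sum_congr rfl fun h _ => ?_
        rw [lgSeqP_eq (ha1 j) h]
        ring
      have e3 : V (t' j) (a1 j) = V (t j) (powC ℤ_[p] (C j) p (a1 j)) := (V_powC (t j) (a1 j)).symm
      have e4 : (a : ℤ_[p]) * V (t j) (b j) + (p : ℤ_[p]) ^ (e + 1) * V (t j) (w' j) =
          (p : ℤ_[p]) * V (t j) (a2 j) - V (t j) (powC ℤ_[p] (C j) p (a1 j)) +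
            (p : ℤ_[p]) ^ (e + 1) * V (t j) (w j) := by
        have h5 := congrArg (V (t j)) ((hw' j).symm.trans (hw j))
        simpa only [map_add, map_sub, map_smul, smul_eq_mul] using h5
      rw [e1, e2, e3]
      have e5 := congrArg (fun y : ℤ_[p] => (y : ℚ_[p])) e4
      push_cast at e5 ⊢
      rw [inv_mul_cancel_left₀ hp0]
      linear_combination -e5
    rw [Finset.sum_congr rfl fun j _ => h3 j, ← PadicInt.coe_sum]
    have h6 : (m : ℤ_[p]) * ∑ j, ((a : ℤ_[p]) * V (t j) (b j) +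
          (p : ℤ_[p]) ^ (e + 1) * (V (t j) (w' j) - V (t j) (w j))) =
        (p : ℤ_[p]) ^ (e + 1) * (a * s + m * ∑ j, (V (t j) (w' j) - V (t j) (w j))) := by
      rw [nsmul_eq_mul] at hs
      rw [Finset.sum_add_distrib, ← Finset.mul_sum, ← Finset.mul_sum]
      linear_combination (a : ℤ_[p]) * hs
    have h7 := congrArg (fun y : ℤ_[p] => (y : ℚ_[p])) h6
    push_cast at h7 ⊢
    exact h7
  choose s hs using key
  set L : ∀ j, C j → ℚ_[p] := fun j => lgP p (xa j : MonoidAlgebra ℤ_[p] (C j)) with hLdef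
  have t1 : ∀ j h, Filter.Tendsto (fun e => lgSeqP p (xa j : MonoidAlgebra ℤ_[p] (C j)) h (e + 1))
      Filter.atTop (nhds (L j h)) := fun j h =>
    (hL.tends p hp (C j) (xa j : MonoidAlgebra ℤ_[p] (C j)) (hxa1 j) h).comp
      (Filter.tendsto_add_atTop_nat 1)
  have t2 : ∀ j h, Filter.Tendsto (fun e => lgSeqP p (xa j : MonoidAlgebra ℤ_[p] (C j)) h e)
      Filter.atTop (nhds (L j h)) := fun j h =>
    hL.tends p hp (C j) (xa j : MonoidAlgebra ℤ_[p] (C j)) (hxa1 j) h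
  have t3 : Filter.Tendsto (fun e => (m : ℚ_[p]) * ∑ j, ((∑ h, ((t j h : ℤ_[p]) : ℚ_[p]) *
          lgSeqP p (xa j : MonoidAlgebra ℤ_[p] (C j)) h (e + 1)) -
        (p : ℚ_[p])⁻¹ * ∑ h, ((t' j h : ℤ_[p]) : ℚ_[p]) *
          lgSeqP p (xa j : MonoidAlgebra ℤ_[p] (C j)) h e)) Filter.atTop
      (nhds ((m : ℚ_[p]) * ∑ j, ((∑ h, ((t j h : ℤ_[p]) : ℚ_[p]) * L j h) -
        (p : ℚ_[p])⁻¹ * ∑ h, ((t' j h : ℤ_[p]) : ℚ_[p]) * L j h))) := by
    refine Filter.Tendsto.const_mul _ (tendsto_finsetSum _ fun j _ => ?_)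
    refine (tendsto_finsetSum _ fun h _ => (t1 j h).const_mul _).sub ?_
    exact (tendsto_finsetSum _ fun h _ => (t2 j h).const_mul _).const_mul _
  have t4 := tendsto_pow_mul s
  have t5 : (m : ℚ_[p]) * ∑ j, ((∑ h, ((t j h : ℤ_[p]) : ℚ_[p]) * L j h) -
        (p : ℚ_[p])⁻¹ * ∑ h, ((t' j h : ℤ_[p]) : ℚ_[p]) * L j h) = 0 := by
    refine tendsto_nhds_unique t3 ?_
    refine t4.congr fun e => ?_
    exact (hs e).symm
  have hmQ : (m : ℚ_[p]) ≠ 0 := by exact_mod_cast hm.ne'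
  have t6 := (mul_eq_zero.1 t5).resolve_left hmQ
  rw [Finset.sum_sub_distrib, ← Finset.mul_sum, sub_eq_zero] at t6
  exact t6

theorem specLMT : SpecLMT.{v} := specLMT_of (K2.specEXB K2.specTDN) specLP

end Pool.Agent.Lib.MPb6f35e.KA
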