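import Pool.Agent.Lib.MP_b6f35e_al.KA.SpecG

/-!
# Rational K-theory in all degrees (MP_b6f35e_al), module MAK (helper26): the theorem
-/

set_option autoImplicit false

noncomputable section

namespace Pool.Agent.Lib.MPb6f35e.KA

open Pool.Agent.Lib.MPb6f35e.WH

universe u v

namespace MAKM

lemma finite_le {G : Type v} [Group G] (C : Subgroup G) [Finite C] :
    {D : Subgroup G | D ≤ C}.Finite := by
  refine ((Set.finite_univ : (Set.univ : Set (Subgroup C)).Finite).image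
    (Subgroup.map C.subtype)).subset ?_
  intro D hD
  refine ⟨D.subgroupOf C, Set.mem_univ _, ?_⟩
  rw [Subgroup.subgroupOf, Subgroup.map_comap_eq, Subgroup.range_subtype]
  exact inf_eq_right.2 hD

lemma finite_all {n : ℕ} {R : Type u} [CommRing R] {G : Type v} [Group G]
    (l : List (GenT n R G)) : {D : Subgroup G | ∃ y ∈ l, D ≤ y.C}.Finite := by
  have h : {D : Subgroup G | ∃ y ∈ l, D ≤ y.C} = ⋃ y ∈ {y | y ∈ l}, {D : Subgroup G | D ≤ y.C} := by
    ext D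
    simp
  rw [h]
  refine (List.finite_toSet l).biUnion fun y _ => ?_
  have := y.fin
  exact finite_le y.C

lemma kap_tsum {n : ℕ} {R : Type u} [CommRing R] {G : Type v} [Group G]
    {κ : TGrp n R G →+ KH (n + 1) (MonoidAlgebra R G)} (hκ : IsKap n κ)
    (l : List (GenT n R G)) :
    κ (tsum n R G l) = (l.map fun y => c1 (n + 1) 1 (kz y.u y.z)).sum := by
  unfold tsum
  rw [map_list_sum, List.map_map]
  congr 1
  refine List.map_congr_left fun y _ => ?_
  obtain ⟨h, hh⟩ := hκ y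
  show κ (D1.cls (RelT n R G) y) = c1 (n + 1) 1 (kz y.u y.z)
  rw [hh, c1_of h]

end MAKM

open MAKM in
theorem specMAK (hTSM : SpecTSM.{u, v}) (hMNK : SpecMNK.{u, v}) (hHIE : SpecHIE.{u, v})
    (hKAQ : SpecKAQ.{u, v}) : SpecMAK.{u, v} := by
  intro n hn R _ _ _ G _ hnG
  obtain ⟨κ, hκ⟩ := hKAQ n R G
  refine ⟨κ, hκ, ?_⟩
  intro x k hk hx
  obtain ⟨l, rfl⟩ := hTSM n R G x
  rw [kap_tsum hκ] at hx
  have ha := hMNK n hn R G hnG l k hk hx
  have hb : NoHidden n G → IsOfFinAddOrder (tsum n R G l) := by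
    intro h
    have h1 : ∀ D : Subgroup G, ∃ M : ℕ, Finite D → IsCyclic D → ∀ p, M < p → p.Prime →
        ∀ z ∈ cyc n (Cen D), Hidden n p D z → TorC n D z := by
      intro D
      by_cases h2 : Finite D ∧ IsCyclic D
      · obtain ⟨M, hM'⟩ := h D h2.1 h2.2
        exact ⟨M, fun _ _ => hM'⟩
      · exact ⟨0, fun h3 h4 => absurd ⟨h3, h4⟩ h2⟩
    choose f hf using h1
    obtain ⟨M, hMb⟩ := ((finite_all l).image f).bddAbove
    obtain ⟨p, hp, hpp, m, hm, hmem⟩ := ha M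
    have h3 : IsOfFinAddOrder (m • tsum n R G l) := by
      refine hHIE.tors n R G p _ ?_ _ hmem
      intro D hD hDf hDc z hz hhid
      exact hf D hDf hDc p (lt_of_le_of_lt (hMb ⟨D, hD, rfl⟩) hp) hpp z hz hhid
    obtain ⟨k', hk', hk0⟩ := isOfFinAddOrder_iff_nsmul_eq_zero.1 h3
    refine isOfFinAddOrder_iff_nsmul_eq_zero.2 ⟨k' * m, Nat.mul_pos hk' hm, ?_⟩
    rw [mul_nsmul', hk0]
  refine ⟨?_, hb, fun h => hb fun C hC cC => ⟨0, fun p _ hp z hz hh =>
    hHIE.fg G n p hp.one_lt C (h C hC cC) z hz hh⟩⟩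
  intro M
  obtain ⟨p, hp, hpp, m, hm, hmem⟩ := ha M
  refine ⟨p, hp, hpp, m, hm, ?_⟩
  refine AddSubgroup.closure_mono ?_ hmem
  rintro y ⟨x, -, hx, rfl⟩
  exact ⟨x, hx, rfl⟩

end Pool.Agent.Lib.MPb6f35e.KA
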