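import Pool.Agent.Lib.MP_b6f35e_al.KA.SpecG
import Pool.Agent.Lib.MP_b6f35e_al.K2.MOB

/-!
# Rational K-theory in all degrees (MP_b6f35e_al), module MBA (adapted from `K2/MOB.lean`)

A multiple of the class of a generator is a sum of classes of primitive generators over the
subgroups.
-/

set_option autoImplicit false

noncomputable section

namespace Pool.Agent.Lib.MPb6f35e.KA

open Pool.Agent.Lib.MPb6f35e.WH
open Pool.Agent.Lib.MPb6f35e.K2 (SpecLGG Supp)

universe u v

namespace MBAM

/-- cycles of a centralizer are cycles of the centralizer of a smaller subgroup -/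
theorem cyc_le' {G : Type v} [Group G] {n : ℕ} {D C : Subgroup G} (h : D ≤ C) {z : Ch G}
    (hz : z ∈ cyc n (Cen C)) : z ∈ cyc n (Cen D) := by
  refine ⟨?_, hz.2⟩
  have h1 : ch n (Cen C) ≤ ch n (Cen D) := by
    refine (AddSubgroup.closure_le _).2 ?_
    rintro y ⟨l, hl, hP, rfl⟩
    exact AddSubgroup.subset_closure ⟨l, hl, fun x hx k hk => hP x hx k (h hk), rfl⟩
  exact h1 hz.1

end MBAM

open MBAM in
open Pool.Agent.Lib.MPb6f35e.K2.AL5aux Pool.Agent.Lib.MPb6f35e.K2.MOBaux in
/-- MBA -/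
theorem specMBA (hLGG : SpecLGG.{u, v}) (hTRA : SpecTRA.{u, v}) : SpecMBA.{u, v} := by
  classical
  intro p _ hp n R₀ _ i G _ y hy
  obtain ⟨C, hfin, hcyc, z, hz, u0, hu1, hu2⟩ := y
  have hzz : ∀ {D : Subgroup G}, D ≤ C → z ∈ cyc n (Cen D) := fun h => cyc_le' h hz
  let u : US C p i := ⟨u0, hu1, hu2, hy⟩
  obtain ⟨m, v, hm, hv, hprod⟩ := step p i hLGG hp C hfin hcyc
    (fun D hD => Qall p i hLGG hp _ D (fin_le hD.le hfin) (cyc_le hD.le hcyc) rfl) u
  let g1 : US C p i → GenT n R₀ G := fun x => ⟨C, hfin, hcyc, z, hz, x.1, x.2.1, x.2.2.1⟩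
  let c : US C p i → TGrp n R₀ G := fun x => D1.cls (RelT n R₀ G) (g1 x)
  have hc : ∀ x x', c (x * x') = c x + c x' := fun x x' =>
    hTRA.mulu n R₀ G (g1 x) (g1 x') (g1 (x * x')) rfl rfl rfl rfl rfl
  let g2 : Subgroup G → GenT n R₀ G := fun D =>
    if h : D ≤ C then ⟨D, fin_le h hfin, cyc_le h hcyc, z, hzz h, (v D).1,
      (v D).2.1, (v D).2.2.1⟩ else g1 u
  have hg2 : ∀ D (h : D ≤ C), g2 D = ⟨D, fin_le h hfin, cyc_le h hcyc, z,
      hzz h, (v D).1, (v D).2.1, (v D).2.2.1⟩ := fun D h => dif_pos h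
  set S := (fin_lt C hfin).toFinset with hS
  have hSm : ∀ D, D ∈ S ↔ D < C := by
    intro D
    rw [hS, Set.Finite.mem_toFinset]
    rfl
  have hcl : ∀ D (h : D ≤ C), D1.cls (RelT n R₀ G) (g2 D) =
      c ⟨(v D).1, US_mono p i h (v D).2⟩ := by
    intro D h
    rw [hg2 D h]
    exact (hTRA.incl n R₀ G ⟨D, fin_le h hfin, cyc_le h hcyc, z, hzz h, (v D).1,
      (v D).2.1, (v D).2.2.1⟩ (g1 ⟨(v D).1, US_mono p i h (v D).2⟩) h rfl rfl).symm
  -- additivity along the list
  have hlist : ∀ (F : US C p i → TGrp n R₀ G), (∀ x x', F (x * x') = F x + F x') →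
      ∀ l : List (Subgroup G), (hl : ∀ D ∈ l, D ≤ C) →
      ∀ hm : (l.map fun D => (v D).1).prod ∈ US C p i,
      F (⟨_, hm⟩ : US C p i) = (l.map fun D => if h : D ≤ C then
        F ⟨(v D).1, US_mono p i h (v D).2⟩ else 0).sum := by
    intro F hF l
    induction l with
    | nil =>
      intro _ hm
      have h1 : (⟨_, hm⟩ : US C p i) = 1 := Subtype.ext rfl
      rw [h1]
      exact f_one hF
    | cons D l ih =>
      intro hl hm
      have hD : (v D).1 ∈ US C p i := US_mono p i (hl D List.mem_cons_self) (v D).2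
      have hl' : (l.map fun D => (v D).1).prod ∈ US C p i := by
        refine Subgroup.list_prod_mem _ fun x hx => ?_
        obtain ⟨D', hD', rfl⟩ := List.mem_map.1 hx
        exact US_mono p i (hl D' (List.mem_cons_of_mem _ hD')) (v D').2
      have h1 : (⟨_, hm⟩ : US C p i) = ⟨_, hD⟩ * ⟨_, hl'⟩ := Subtype.ext List.prod_cons
      rw [h1, hF, ih (fun D' hD' => hl D' (List.mem_cons_of_mem _ hD')),
        List.map_cons, List.sum_cons, dif_pos (hl D List.mem_cons_self)]
  have hlistQ : ∀ (g : G),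
      ∀ l : List (Subgroup G), (hl : ∀ D ∈ l, D ≤ C) →
      ∀ hm : (l.map fun D => (v D).1).prod ∈ US C p i,
      L p i (⟨_, hm⟩ : US C p i) g = (l.map fun D => L p i (v D) g).sum := by
    intro g l
    induction l with
    | nil =>
      intro _ hm
      have h1 : (⟨_, hm⟩ : US C p i) = 1 := Subtype.ext rfl
      rw [h1]
      exact f_one (f := fun x : US C p i => L p i x g)
        (fun a b => L_mul p i hLGG hp C hcyc a b g)
    | cons D l ih =>
      intro hl hm
      have hD : (v D).1 ∈ US C p i := US_mono p i (hl D List.mem_cons_self) (v D).2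
      have hl' : (l.map fun D => (v D).1).prod ∈ US C p i := by
        refine Subgroup.list_prod_mem _ fun x hx => ?_
        obtain ⟨D', hD', rfl⟩ := List.mem_map.1 hx
        exact US_mono p i (hl D' (List.mem_cons_of_mem _ hD')) (v D').2
      have h1 : (⟨_, hm⟩ : US C p i) = ⟨_, hD⟩ * ⟨_, hl'⟩ := Subtype.ext List.prod_cons
      rw [h1, L_mul p i hLGG hp C hcyc, ih (fun D' hD' => hl D' (List.mem_cons_of_mem _ hD')),
        List.map_cons, List.sum_cons]
      rfl
  have hall : ∀ D ∈ C :: S.toList, D ≤ C := by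
    intro D hD
    rcases List.mem_cons.1 hD with rfl | h
    · exact le_rfl
    · exact ((hSm D).1 (Finset.mem_toList.1 h)).le
  have hprod' : (u ^ m).1 = ((C :: S.toList).map fun D => (v D).1).prod := by
    rw [List.map_cons, List.prod_cons]
    exact hprod
  have hmem : ((C :: S.toList).map fun D => (v D).1).prod ∈ US C p i := by
    rw [← hprod']
    exact (u ^ m).2
  have hum : u ^ m = ⟨_, hmem⟩ := Subtype.ext hprod'
  refine ⟨m, (C :: S.toList).map g2, hm, ?_, ?_, ?_⟩
  · have h1 := f_zpow hc u (m : ℤ)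
    rw [zpow_natCast, natCast_zsmul] at h1
    change m • c u = _
    rw [← h1, hum, hlist c hc _ hall hmem]
    unfold tsum
    rw [List.map_map]
    congr 1
    refine List.map_congr_left fun D hD => ?_
    rw [dif_pos (hall D hD)]
    exact (hcl D (hall D hD)).symm
  · intro a ha
    obtain ⟨D, hD, rfl⟩ := List.mem_map.1 ha
    have hDC := hall D hD
    rw [hg2 D hDC]
    refine ⟨hDC, rfl, (v D).2.2.2, ?_⟩
    intro g hg
    by_contra hne
    apply hg
    have h1 := hv D hDC g
    rw [if_neg hne] at h1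
    exact h1
  · intro g
    rw [List.map_map]
    have h1 := hlistQ g _ hall hmem
    rw [← hum] at h1
    have h2 := f_zpow (f := fun x : US C p i => L p i x g)
      (fun a b => L_mul p i hLGG hp C hcyc a b g) u (m : ℤ)
    rw [zpow_natCast, zsmul_eq_mul] at h2
    change L p i (u ^ m) g = ((m : ℤ) : ℚ_[p]) * L p i u g at h2
    rw [h1] at h2
    have h3 : ((C :: S.toList).map ((fun a => LG p i a g) ∘ g2)) =
        (C :: S.toList).map fun D => L p i (v D) g := by
      refine List.map_congr_left fun D hD => ?_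
      change LG p i (g2 D) g = _
      rw [hg2 D (hall D hD)]
      rfl
    rw [h3, h2]
    push_cast
    rfl

end Pool.Agent.Lib.MPb6f35e.KA
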