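import Pool.Agent.Lib.MP_b6f35e_al.KA.SpecG

/-! # Rational K-theory in all degrees (MP_b6f35e_al), module MNK: part (a) of the theorem -/

set_option autoImplicit false

noncomputable section

namespace Pool.Agent.Lib.MPb6f35e.KA

open Pool.Agent.Lib.MPb6f35e.WH

universe u v

/-- MNK. -/
theorem specMNK (hDSF : SpecDSF.{u, v}) (hCAS : SpecCAS.{u}) (hPAK : SpecPAK.{u, v}) :
    SpecMNK.{u, v} := by
  classical
  intro n hn R _ _ _ G _ hfew l k hk hl M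
  obtain ⟨S, l', HH, hfin, hrel, ⟨F, hF1, hF2⟩, hCC⟩ := hDSF n R G l k hl
  obtain ⟨M₁, hM₁⟩ : ∃ M₁ : ℕ, n = 1 ∨ ∀ p, M₁ < p → p.Prime → ∀ g : G, orderOf g ≠ p := by
    rcases hfew with h | ⟨M₁, h⟩
    · exact ⟨0, Or.inl h⟩
    · exact ⟨M₁, Or.inr h⟩
  obtain ⟨p, hp, i, hBp, hi⟩ := hCAS R S (M + 2 + M₁ + (l'.map fun y => Nat.card y.C).sum +
    ∑ H ∈ HH, Nat.card H)
  have hp2 : p ≠ 2 := by omega
  have hcard : ∀ y ∈ l', ¬ p ∣ Nat.card y.C := by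
    intro y hy
    have := y.fin
    have h1 : Nat.card y.C ≤ (l'.map fun y => Nat.card y.C).sum :=
      List.single_le_sum (fun x _ => Nat.zero_le x) _ (List.mem_map_of_mem hy)
    exact Nat.not_dvd_of_pos_of_lt Nat.card_pos (by omega)
  have hord : n = 1 ∨ ∀ g : G, orderOf g ≠ p := by
    rcases hM₁ with h | h
    · exact Or.inl h
    · exact Or.inr (h p (by omega) hp.out)
  have hrel' : k • (l'.map fun y => c1 (n + 1) 1 (kz y.u y.z)).sum ∈
      FinQ (n + 1) (RS S) G (fun H => Finite H ∧ ¬ p ∣ Nat.card H) := by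
    refine AddSubgroup.closure_mono ?_ hrel
    rintro y ⟨m, z, H, hH, hz, rfl⟩
    have := hfin H hH
    have h1 : Nat.card H ≤ ∑ H ∈ HH, Nat.card H :=
      Finset.single_le_sum (f := fun H : Subgroup G => Nat.card H) (fun x _ => Nat.zero_le _) hH
    exact ⟨m, z, H, ⟨this, Nat.not_dvd_of_pos_of_lt Nat.card_pos (by omega)⟩, hz, rfl⟩
  obtain ⟨m, hm, hmem⟩ := hPAK p hp2 n hn (RS S) i hi G hord l' hcard k hk hrel'
  refine ⟨p, by omega, hp.out, m, hm, ?_⟩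
  have h1 := hF2 p _ _ hmem
  rw [map_nsmul, hF1] at h1
  have h2 : {D : Subgroup G | ∃ y ∈ l', D ≤ y.C} = {D : Subgroup G | ∃ y ∈ l, D ≤ y.C} := by
    ext D
    have h3 : ∀ C : Subgroup G, C ∈ l'.map (fun y => y.C) ↔ C ∈ l.map (fun y => y.C) := by
      intro C
      rw [hCC]
    constructor
    · rintro ⟨y, hy, hDy⟩
      obtain ⟨y', hy', h4⟩ := List.mem_map.1 ((h3 y.C).1 (List.mem_map_of_mem hy))
      exact ⟨y', hy', h4 ▸ hDy⟩
    · rintro ⟨y, hy, hDy⟩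
      obtain ⟨y', hy', h4⟩ := List.mem_map.1 ((h3 y.C).2 (List.mem_map_of_mem hy))
      exact ⟨y', hy', h4 ▸ hDy⟩
  rw [← h2]
  exact h1

end Pool.Agent.Lib.MPb6f35e.KA
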