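import Pool.Agent.Lib.MP_b6f35e_al.KA.SpecB

/-!
# NRM: norms are killed (MP_b6f35e_al, folder KA)
-/

set_option autoImplicit false

noncomputable section

namespace Pool.Agent.Lib.MPb6f35e.KA

open Pool.Agent.Lib.MPb6f35e.WH Pool.Agent.Lib.MPb6f35e.K2

universe u v w x y

namespace NRMM

variable {B : Type u} {S : Type v} {Ω : Type w} {H : Type x} [Ring B] [Ring S] [Ring Ω]
  [AddCommGroup H] (D : DGD B S Ω H)

/-- `τ` in `Ω`. -/
def t : Ω := D.lam (D.τ : S)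

/-- `τ⁻¹` in `Ω`. -/
def t' : Ω := D.lam ((D.τ⁻¹ : Sˣ) : S)

theorem t_t' : t D * t' D = 1 := by
  unfold t t'
  rw [← map_mul, Units.mul_inv, map_one]

theorem t'_t : t' D * t D = 1 := by
  unfold t t'
  rw [← map_mul, Units.inv_mul, map_one]

/-- The centralizer of `τ`. -/
def Cz : Subring Ω := Subring.centralizer {t D}

theorem mem_Cz {z : Ω} : z ∈ Cz D ↔ t D * z = z * t D := by
  unfold Cz
  rw [Subring.mem_centralizer_iff]
  simp

theorem comm_t' {z : Ω} (hz : z ∈ Cz D) : t' D * z = z * t' D := by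
  have h := (mem_Cz D).1 hz
  calc t' D * z = t' D * (z * t D) * t' D := by
        rw [mul_assoc, mul_assoc, t_t', mul_one]
    _ = t' D * (t D * z) * t' D := by rw [h]
    _ = z * t' D := by rw [← mul_assoc (t' D), t'_t, one_mul]

/-- `y ↦ Σ τ^j y τ^(-j)` -/
def nz : Ω →+ Ω where
  toFun y := ∑ j ∈ Finset.range D.N, t D ^ j * y * t' D ^ j
  map_zero' := by simp
  map_add' a b := by
    rw [← Finset.sum_add_distrib]
    refine Finset.sum_congr rfl fun j _ => ?_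
    rw [mul_add, add_mul]

theorem nz_apply (y : Ω) : nz D y = ∑ j ∈ Finset.range D.N, t D ^ j * y * t' D ^ j := rfl

/-- The norms. -/
def Nz : AddSubgroup Ω := (nz D).range

theorem pow_comm_t {z : Ω} (hz : z ∈ Cz D) (j : ℕ) : t D ^ j * z = z * t D ^ j := by
  have h : Commute (t D) z := (mem_Cz D).1 hz
  exact (h.pow_left j).eq

theorem pow_comm_t' {z : Ω} (hz : z ∈ Cz D) (j : ℕ) : t' D ^ j * z = z * t' D ^ j := by
  have h : Commute (t' D) z := comm_t' D hz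
  exact (h.pow_left j).eq

theorem mul_mem_Nz {z n : Ω} (hz : z ∈ Cz D) (hn : n ∈ Nz D) : z * n ∈ Nz D := by
  obtain ⟨y, rfl⟩ := hn
  refine ⟨z * y, ?_⟩
  rw [nz_apply, nz_apply, Finset.mul_sum]
  refine Finset.sum_congr rfl fun j _ => ?_
  rw [← mul_assoc, pow_comm_t D hz, mul_assoc z, mul_assoc z]

theorem mem_Nz_mul {z n : Ω} (hn : n ∈ Nz D) (hz : z ∈ Cz D) : n * z ∈ Nz D := by
  obtain ⟨y, rfl⟩ := hn
  refine ⟨y * z, ?_⟩
  rw [nz_apply, nz_apply, Finset.sum_mul]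
  refine Finset.sum_congr rfl fun j _ => ?_
  rw [mul_assoc (t D ^ j * y), pow_comm_t' D hz]
  simp only [mul_assoc]

variable (h : D.Ok)

include h

theorem ep_t : D.ep (t D) = t D := h.ep_lam _

omit h in
theorem e_comm : t D * D.lam D.e = D.lam D.e * t D := by
  unfold t DGD.e eS
  rw [← map_mul, ← map_mul, Finset.mul_sum, Finset.sum_mul]
  congr 1
  refine Finset.sum_congr rfl fun j _ => ?_
  rw [← pow_succ, ← pow_succ']

omit h in
theorem e_mem : D.lam D.e ∈ Cz D := (mem_Cz D).2 (e_comm D)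

theorem charO : (D.N : Ω) = 0 := by
  have := congrArg D.lam h.charN
  rwa [map_natCast, map_zero] at this

/-- Norms are killed. -/
theorem ang_Nz {n : Ω} (hn : n ∈ Nz D) : D.ang n = 0 := by
  obtain ⟨y, rfl⟩ := hn
  have h1 : ∀ j, D.ang (t D ^ j * y * t' D ^ j) = D.I (y * D.lam D.e) := by
    intro j
    show D.I (t D ^ j * y * t' D ^ j * D.lam D.e) = _
    rw [mul_assoc (t D ^ j), mul_assoc (t D ^ j),
      h.even (t D ^ j) (by rw [map_pow, ep_t D h]), mul_assoc, mul_assoc,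
      ← pow_comm_t D (e_mem D), ← mul_assoc (t' D ^ j)]
    have h2 : t' D ^ j * t D ^ j = 1 := by
      have hc : Commute (t' D) (t D) := (t'_t D).trans (t_t' D).symm
      rw [← hc.mul_pow, t'_t, one_pow]
    rw [h2, one_mul]
  rw [nz_apply, map_sum, Finset.sum_congr rfl fun j _ => h1 j, Finset.sum_const,
    Finset.card_range, ← map_nsmul, nsmul_eq_mul, charO D h, zero_mul, map_zero]

theorem tau_pow_i (j : ℕ) (b : B) : (D.τ : S) ^ j * D.i b = D.i (D.ρ^[j] b) * (D.τ : S) ^ j := by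
  induction j with
  | zero => simp
  | succ j ih =>
    rw [pow_succ', mul_assoc, ih, ← mul_assoc, h.conj, Function.iterate_succ_apply', mul_assoc]

theorem j_nm (b : B) : D.j (nm D.ρ D.N b) ∈ Nz D := by
  refine ⟨D.j b, ?_⟩
  rw [nz_apply]
  unfold nm DGD.j t t'
  rw [map_sum, map_sum]
  refine Finset.sum_congr rfl fun k _ => ?_
  rw [← map_pow, ← map_pow, ← map_mul, ← map_mul, tau_pow_i D h, mul_assoc, ← Units.val_pow_eq_pow_val,
    ← Units.val_pow_eq_pow_val, ← Units.val_mul, inv_pow, mul_inv_cancel, Units.val_one, mul_one]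

theorem j_mem {b : B} (hb : D.ρ b = b) : D.j b ∈ Cz D := by
  rw [mem_Cz]
  unfold DGD.j t
  rw [← map_mul, ← map_mul, h.conj, hb]

omit h in
theorem rho_inv {u : Bˣ} (hu : D.ρ (u : B) = u) : D.ρ ((u⁻¹ : Bˣ) : B) = ((u⁻¹ : Bˣ) : B) := by
  have h1 : D.ρ ((u⁻¹ : Bˣ) : B) * u = 1 := by
    conv_lhs => rw [← hu]
    rw [← map_mul, Units.inv_mul, map_one]
  calc D.ρ ((u⁻¹ : Bˣ) : B) = D.ρ ((u⁻¹ : Bˣ) : B) * (u * ((u⁻¹ : Bˣ) : B)) := by
        rw [Units.mul_inv, mul_one]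
    _ = _ := by rw [← mul_assoc, h1, one_mul]

theorem d_one : D.d 1 = 0 := by
  have h1 := h.d_mul 1 1
  rw [one_mul, mul_one, map_one D.ep, one_mul] at h1
  exact left_eq_add.1 h1

theorem d_t' : D.d (t' D) = 0 := by
  have h1 := h.d_mul (t' D) (t D)
  rw [t'_t, d_one D h] at h1
  have h2 : D.d (t D) = 0 := h.d_tau
  rw [h2, mul_zero, add_zero] at h1
  calc D.d (t' D) = D.d (t' D) * (t D * t' D) := by rw [t_t', mul_one]
    _ = 0 := by rw [← mul_assoc, ← h1, zero_mul]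

theorem d_t_mul (y : Ω) : D.d (t D * y) = t D * D.d y := by
  have h2 : D.d (t D) = 0 := h.d_tau
  rw [h.d_mul, h2, zero_mul, zero_add, ep_t D h]

theorem d_mul_t (y : Ω) : D.d (y * t D) = D.d y * t D := by
  have h2 : D.d (t D) = 0 := h.d_tau
  rw [h.d_mul, h2, mul_zero, add_zero]

theorem d_mul_t' (y : Ω) : D.d (y * t' D) = D.d y * t' D := by
  rw [h.d_mul, d_t' D h, mul_zero, add_zero]

theorem d_mem {z : Ω} (hz : z ∈ Cz D) : D.d z ∈ Cz D := by
  rw [mem_Cz] at hz ⊢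
  rw [← d_t_mul D h, hz, d_mul_t D h]

theorem d_pow_t_mul (j : ℕ) (y : Ω) : D.d (t D ^ j * y) = t D ^ j * D.d y := by
  induction j with
  | zero => simp
  | succ j ih => rw [pow_succ', mul_assoc, d_t_mul D h, ih, mul_assoc]

theorem d_mul_pow_t' (j : ℕ) (y : Ω) : D.d (y * t' D ^ j) = D.d y * t' D ^ j := by
  induction j with
  | zero => simp
  | succ j ih => rw [pow_succ, ← mul_assoc, d_mul_t' D h, ih, mul_assoc]

theorem d_Nz {n : Ω} (hn : n ∈ Nz D) : D.d n ∈ Nz D := by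
  obtain ⟨y, rfl⟩ := hn
  refine ⟨D.d y, ?_⟩
  rw [nz_apply, nz_apply, map_sum]
  refine Finset.sum_congr rfl fun j _ => ?_
  rw [d_mul_pow_t' D h, d_pow_t_mul D h]

theorem wT_mem {x : EB B} (hx : D.Fx x) : D.wT x ∈ Cz D :=
  (Cz D).mul_mem (d_mem D h (j_mem D h hx.1)) (j_mem D h (rho_inv D hx.1))

theorem wD_mem {x : EB B} (hx : D.Fx x) : D.wD x ∈ Cz D :=
  (Cz D).mul_mem (d_mem D h (j_mem D h hx.2)) (j_mem D h (rho_inv D hx.2))

omit h in
theorem j_mul (a b : B) : D.j (a * b) = D.j a * D.j b := by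
  unfold DGD.j
  rw [map_mul, map_mul]

omit h in
theorem j_sub (a b : B) : D.j (a - b) = D.j a - D.j b := by
  unfold DGD.j
  rw [map_sub, map_sub]

omit h in
theorem j_one : D.j 1 = 1 := by
  unfold DGD.j
  rw [map_one, map_one]

theorem nb_mem {x : EB B} (hx : D.Fx x) (hc : D.ρ x.2.2 = x.2.2) : D.nb x ∈ Cz D := by
  unfold DGD.nb
  rw [j_mul]
  exact (Cz D).sub_mem ((Cz D).mul_mem (d_mem D h (j_mem D h hc)) (j_mem D h (rho_inv D hx.2)))
    ((Cz D).mul_mem (wT_mem D h hx) ((Cz D).mul_mem (j_mem D h hc) (j_mem D h (rho_inv D hx.2))))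

/-! ### expressions on lists -/

section Lists

variable {X : Type y}

omit h in
theorem pw_mem (ω : X → Ω) (l : List X) (hl : ∀ x ∈ l, ω x ∈ Cz D) : pw ω l ∈ Cz D := by
  induction l with
  | nil => exact (Cz D).zero_mem
  | cons x l ih =>
    cases l with
    | nil => exact (Cz D).one_mem
    | cons y l =>
      show (ω y - ω x) * pw ω (y :: l) ∈ Cz D
      exact (Cz D).mul_mem ((Cz D).sub_mem (hl y (by simp)) (hl x (by simp)))
        (ih fun z hz => hl z (List.mem_cons_of_mem _ hz))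

omit h in
theorem lst_mem (x : X) (l : List X) : lst x l ∈ x :: l := by
  induction l generalizing x with
  | nil => exact List.mem_cons_self
  | cons y l ih => exact List.mem_cons_of_mem _ (ih y)

omit h in
theorem fl_mem (ω : X → Ω) (l : List X) (hl : ∀ x ∈ l, ω x ∈ Cz D) : fl ω l ∈ Cz D := by
  cases l with
  | nil => exact (Cz D).zero_mem
  | cons x l => exact (Cz D).sub_mem (hl x (by simp)) (hl _ (lst_mem x l))

omit h in
theorem zsmul_mem_Nz {n : Ω} (hn : n ∈ Nz D) (k : ℤ) : k • n ∈ Nz D := (Nz D).zsmul_mem hn k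

omit h in
theorem ss_mem (σ : ℤ) (ω : X → Ω) (n : Ω) (hn : n ∈ Nz D) (l : List X)
    (hl : ∀ x ∈ l, ω x ∈ Cz D) : ss σ ω n l ∈ Nz D := by
  induction l with
  | nil => exact (Nz D).zero_mem
  | cons x l ih =>
    cases l with
    | nil => exact hn
    | cons y l =>
      show n * pw ω (x :: y :: l) + σ • ((ω y - ω x) * ss σ ω n (y :: l)) ∈ Nz D
      refine (Nz D).add_mem (mem_Nz_mul D hn (pw_mem D ω _ hl)) (zsmul_mem_Nz D (mul_mem_Nz D ?_
        (ih fun z hz => hl z (List.mem_cons_of_mem _ hz))) σ)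
      exact (Cz D).sub_mem (hl y (by simp)) (hl x (by simp))

omit h in
theorem so_mem (σ : ℤ) (ω : X → Ω) (n : Ω) (hn : n ∈ Nz D) (l : List X)
    (hl : ∀ x ∈ l, ω x ∈ Cz D) : so σ ω n l ∈ Nz D := by
  induction l with
  | nil => exact (Nz D).zero_mem
  | cons x l ih =>
    cases l with
    | nil => exact mem_Nz_mul D hn (hl x (by simp))
    | cons y l =>
      show n * ω x * pw ω (x :: y :: l) - σ • ((ω y - ω x) * so σ ω n (y :: l)) ∈ Nz D
      refine (Nz D).sub_mem (mem_Nz_mul D (mem_Nz_mul D hn (hl x (by simp))) (pw_mem D ω _ hl))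
        (zsmul_mem_Nz D (mul_mem_Nz D ?_ (ih fun z hz => hl z (List.mem_cons_of_mem _ hz))) σ)
      exact (Cz D).sub_mem (hl y (by simp)) (hl x (by simp))

theorem gg_zero (ω : X → Ω) (l : List X) (hl : ∀ x ∈ l, ω x ∈ Cz D) (σ : ℤ) (n : Ω)
    (hn : n ∈ Nz D) : gg D.ang ω σ n l = 0 := by
  induction l generalizing σ n with
  | nil => rfl
  | cons x l ih =>
    cases l with
    | nil => rfl
    | cons y l =>
      show (-1 : ℤ) ^ (y :: l).length • (D.ang (so σ ω n (x :: y :: l) * fl ω (x :: y :: l)) -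
        D.ang (ss (-σ) ω (n * ω x) (x :: y :: l) * fl ω (x :: y :: l))) +
        gg D.ang ω (-σ) (n * (ω y - ω x)) (y :: l) = 0
      rw [ang_Nz D h (mem_Nz_mul D (so_mem D σ ω n hn _ hl) (fl_mem D ω _ hl)),
        ang_Nz D h (mem_Nz_mul D (ss_mem D (-σ) ω _ (mem_Nz_mul D hn (hl x (by simp))) _ hl)
          (fl_mem D ω _ hl)),
        ih (fun z hz => hl z (List.mem_cons_of_mem _ hz)) _ _
          (mem_Nz_mul D hn ((Cz D).sub_mem (hl y (by simp)) (hl x (by simp)))), sub_zero, smul_zero,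
        add_zero]

omit h in
theorem rr_mem (ω r : X → Ω) (l : List X) (hl : ∀ x ∈ l, ω x ∈ Cz D) (hr : ∀ x ∈ l, r x ∈ Nz D) :
    rr ω r l ∈ Nz D := by
  induction l with
  | nil => exact (Nz D).zero_mem
  | cons x l ih =>
    cases l with
    | nil => exact hr x (by simp)
    | cons y l =>
      show r x * pw ω (x :: y :: l) + (ω y - ω x) * rr ω r (y :: l) ∈ Nz D
      refine (Nz D).add_mem (mem_Nz_mul D (hr x (by simp)) (pw_mem D ω _ hl)) (mul_mem_Nz D ?_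
        (ih (fun z hz => hl z (List.mem_cons_of_mem _ hz))
          (fun z hz => hr z (List.mem_cons_of_mem _ hz))))
      exact (Cz D).sub_mem (hl y (by simp)) (hl x (by simp))

theorem g0_zero (ω r : X → Ω) (l : List X) (hl : ∀ x ∈ l, ω x ∈ Cz D)
    (hr : ∀ x ∈ l, r x ∈ Nz D) : D.ang (g0E ω r l) = 0 := by
  apply ang_Nz D h
  cases l with
  | nil => exact (Nz D).zero_mem
  | cons x l =>
    show (-1 : ℤ) ^ l.length • (rr ω r (x :: l) * ω (lst x l)) - ω x * rr ω r (x :: l) ∈ Nz D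
    have h1 := rr_mem D ω r _ hl hr
    exact (Nz D).sub_mem (zsmul_mem_Nz D (mem_Nz_mul D h1 (hl _ (lst_mem x l))) _)
      (mul_mem_Nz D (hl x (by simp)) h1)

omit h in
/-- Congruence of products. -/
theorem cong_mul {a a' b b' : Ω} (h1 : a - b ∈ Nz D) (h2 : a' - b' ∈ Nz D) (ha : a ∈ Cz D)
    (hb : b' ∈ Cz D) : a * a' - b * b' ∈ Nz D := by
  have e : a * a' - b * b' = a * (a' - b') + (a - b) * b' := by
    rw [mul_sub, sub_mul]; abel
  rw [e]
  exact (Nz D).add_mem (mul_mem_Nz D ha h2) (mem_Nz_mul D h1 hb)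

omit h in
theorem cong_sub {a a' b b' : Ω} (h1 : a - b ∈ Nz D) (h2 : a' - b' ∈ Nz D) :
    (a - a') - (b - b') ∈ Nz D := by
  have e : (a - a') - (b - b') = (a - b) - (a' - b') := by abel
  rw [e]
  exact (Nz D).sub_mem h1 h2

omit h in
theorem pw_cong (ω ω' : X → Ω) (l : List X) (hl : ∀ x ∈ l, ω x ∈ Cz D)
    (hl' : ∀ x ∈ l, ω' x ∈ Cz D) (hr : ∀ x ∈ l, ω x - ω' x ∈ Nz D) :
    pw ω l - pw ω' l ∈ Nz D := by
  induction l with
  | nil => show (0 : Ω) - 0 ∈ Nz D; rw [sub_zero]; exact (Nz D).zero_mem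
  | cons x l ih =>
    cases l with
    | nil => show (1 : Ω) - 1 ∈ Nz D; rw [sub_self]; exact (Nz D).zero_mem
    | cons y l =>
      show (ω y - ω x) * pw ω (y :: l) - (ω' y - ω' x) * pw ω' (y :: l) ∈ Nz D
      refine cong_mul D (cong_sub D (hr y (by simp)) (hr x (by simp)))
        (ih (fun z hz => hl z (List.mem_cons_of_mem _ hz))
          (fun z hz => hl' z (List.mem_cons_of_mem _ hz))
          (fun z hz => hr z (List.mem_cons_of_mem _ hz))) ?_ ?_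
      · exact (Cz D).sub_mem (hl y (by simp)) (hl x (by simp))
      · exact pw_mem D ω' _ fun z hz => hl' z (List.mem_cons_of_mem _ hz)

omit h in
theorem px_mem (ω ω' ν : X → Ω) (l : List X) (hl : ∀ x ∈ l, ω x ∈ Cz D)
    (hl' : ∀ x ∈ l, ω' x ∈ Cz D) (hn : ∀ x ∈ l, ν x ∈ Cz D) : px ω ω' ν l ∈ Cz D := by
  induction l with
  | nil => exact (Cz D).zero_mem
  | cons x l ih =>
    cases l with
    | nil => exact (Cz D).zero_mem
    | cons y l =>
      show (ω y - ω x) * px ω ω' ν (y :: l) + (ν y - ν x) * pw ω' (y :: l) ∈ Cz D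
      refine (Cz D).add_mem ((Cz D).mul_mem ?_ (ih (fun z hz => hl z (List.mem_cons_of_mem _ hz))
          (fun z hz => hl' z (List.mem_cons_of_mem _ hz))
          (fun z hz => hn z (List.mem_cons_of_mem _ hz)))) ((Cz D).mul_mem ?_ ?_)
      · exact (Cz D).sub_mem (hl y (by simp)) (hl x (by simp))
      · exact (Cz D).sub_mem (hn y (by simp)) (hn x (by simp))
      · exact pw_mem D ω' _ fun z hz => hl' z (List.mem_cons_of_mem _ hz)

omit h in
theorem px_cong (ω ω' ν ν' : X → Ω) (l : List X) (hl : ∀ x ∈ l, ω x ∈ Cz D)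
    (hl' : ∀ x ∈ l, ω' x ∈ Cz D) (hr : ∀ x ∈ l, ω' x - ω x ∈ Nz D) (hn : ∀ x ∈ l, ν x ∈ Cz D)
    (hn' : ∀ x ∈ l, ν x - ν' x ∈ Nz D) :
    px ω ω' ν l - px ω ω ν' l ∈ Nz D := by
  induction l with
  | nil => show (0 : Ω) - 0 ∈ Nz D; rw [sub_zero]; exact (Nz D).zero_mem
  | cons x l ih =>
    cases l with
    | nil => show (0 : Ω) - 0 ∈ Nz D; rw [sub_zero]; exact (Nz D).zero_mem
    | cons y l =>
      show ((ω y - ω x) * px ω ω' ν (y :: l) + (ν y - ν x) * pw ω' (y :: l)) -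
        ((ω y - ω x) * px ω ω ν' (y :: l) + (ν' y - ν' x) * pw ω (y :: l)) ∈ Nz D
      rw [add_sub_add_comm]
      refine (Nz D).add_mem ?_ ?_
      · rw [← mul_sub]
        refine mul_mem_Nz D ((Cz D).sub_mem (hl y (by simp)) (hl x (by simp)))
          (ih (fun z hz => hl z (List.mem_cons_of_mem _ hz))
          (fun z hz => hl' z (List.mem_cons_of_mem _ hz))
          (fun z hz => hr z (List.mem_cons_of_mem _ hz))
          (fun z hz => hn z (List.mem_cons_of_mem _ hz))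
          (fun z hz => hn' z (List.mem_cons_of_mem _ hz)))
      · refine cong_mul D (cong_sub D (hn' y (by simp)) (hn' x (by simp)))
          (pw_cong D ω' ω _ (fun z hz => hl' z (List.mem_cons_of_mem _ hz))
            (fun z hz => hl z (List.mem_cons_of_mem _ hz))
            (fun z hz => hr z (List.mem_cons_of_mem _ hz)))
          ((Cz D).sub_mem (hn y (by simp)) (hn x (by simp))) ?_
        exact pw_mem D ω _ fun z hz => hl z (List.mem_cons_of_mem _ hz)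

end Lists

/-! ### triples in `RE` -/

theorem jDT {x : EB B} (hx : D.RE x) : D.j x.2.1 - D.j x.1 ∈ Nz D := by
  obtain ⟨b, hb⟩ := hx.2.2
  rw [← j_sub, ← hb]
  exact j_nm D h b

theorem jDTi {x : EB B} (hx : D.RE x) :
    D.j ((x.2.1⁻¹ : Bˣ) : B) - D.j ((x.1⁻¹ : Bˣ) : B) ∈ Nz D := by
  have e : D.j ((x.2.1⁻¹ : Bˣ) : B) - D.j ((x.1⁻¹ : Bˣ) : B) =
      -(D.j ((x.2.1⁻¹ : Bˣ) : B) * (D.j x.2.1 - D.j x.1) * D.j ((x.1⁻¹ : Bˣ) : B)) := by
    rw [← j_sub, ← j_sub, ← j_mul, ← j_mul, mul_sub, sub_mul, Units.inv_mul, one_mul, mul_assoc,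
      Units.mul_inv, mul_one, j_sub, j_sub]
    abel
  rw [e]
  exact (Nz D).neg_mem (mem_Nz_mul D (mul_mem_Nz D (j_mem D h (rho_inv D hx.1.2)) (jDT D h hx))
    (j_mem D h (rho_inv D hx.1.1)))

theorem w_cong {x : EB B} (hx : D.RE x) : D.wD x - D.wT x ∈ Nz D := by
  unfold DGD.wD DGD.wT
  refine cong_mul D ?_ (jDTi D h hx) (d_mem D h (j_mem D h hx.1.2)) (j_mem D h (rho_inv D hx.1.1))
  rw [← map_sub]
  exact d_Nz D h (jDT D h hx)

theorem d_jTi (u : Bˣ) : D.d (D.j ((u⁻¹ : Bˣ) : B)) =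
    -(D.j ((u⁻¹ : Bˣ) : B) * (D.d (D.j u) * D.j ((u⁻¹ : Bˣ) : B))) := by
  have h1 := h.d_mul (D.j ((u⁻¹ : Bˣ) : B)) (D.j u)
  rw [← j_mul, Units.inv_mul, j_one, d_one D h] at h1
  have h2 : D.ep (D.j ((u⁻¹ : Bˣ) : B)) = D.j ((u⁻¹ : Bˣ) : B) := h.ep_lam _
  rw [h2] at h1
  have h3 : D.d (D.j ((u⁻¹ : Bˣ) : B)) * D.j u = -(D.j ((u⁻¹ : Bˣ) : B) * D.d (D.j u)) :=
    eq_neg_of_add_eq_zero_left h1.symm
  calc D.d (D.j ((u⁻¹ : Bˣ) : B)) =
        D.d (D.j ((u⁻¹ : Bˣ) : B)) * (D.j u * D.j ((u⁻¹ : Bˣ) : B)) := by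
        rw [← j_mul, Units.mul_inv, j_one, mul_one]
    _ = _ := by rw [← mul_assoc, h3, neg_mul, mul_assoc]

theorem nT_eq (x : EB B) : D.nT x = D.d (D.j x.2.2) * D.j ((x.1⁻¹ : Bˣ) : B) -
    D.wT x * (D.j x.2.2 * D.j ((x.1⁻¹ : Bˣ) : B)) := by
  have h2 : D.ep (D.j x.2.2) = D.j x.2.2 := h.ep_lam _
  unfold DGD.nT DGD.rT
  rw [j_mul, h.d_mul, h2, d_jTi D h]
  have e : D.wT x = D.d (D.j x.1) * D.j ((x.1⁻¹ : Bˣ) : B) := rfl
  rw [← e, mul_neg, ← mul_assoc (D.j x.2.2)]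
  abel

theorem n_cong {x : EB B} (hx : D.RE x) : D.nb x - D.nT x ∈ Nz D := by
  rw [nT_eq D h]
  unfold DGD.nb
  rw [j_mul]
  have e : D.d (D.j x.2.2) * D.j ((x.2.1⁻¹ : Bˣ) : B) -
      D.wT x * (D.j x.2.2 * D.j ((x.2.1⁻¹ : Bˣ) : B)) -
      (D.d (D.j x.2.2) * D.j ((x.1⁻¹ : Bˣ) : B) -
        D.wT x * (D.j x.2.2 * D.j ((x.1⁻¹ : Bˣ) : B))) =
      (D.d (D.j x.2.2) - D.wT x * D.j x.2.2) *
        (D.j ((x.2.1⁻¹ : Bˣ) : B) - D.j ((x.1⁻¹ : Bˣ) : B)) := by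
    rw [sub_mul, mul_sub, mul_sub, mul_assoc, mul_assoc]
    abel
  rw [e]
  refine mul_mem_Nz D ?_ (jDTi D h hx)
  exact (Cz D).sub_mem (d_mem D h (j_mem D h hx.2.1))
    ((Cz D).mul_mem (wT_mem D h hx.1) (j_mem D h hx.2.1))

theorem f_eq (l : List (EB B)) (hl : ∀ x ∈ l, D.RE x) :
    D.f l = D.ang (px D.wT D.wT D.nT l) := by
  cases l with
  | nil => show (0 : H) = D.ang 0; rw [map_zero]
  | cons x l =>
    have hx := hl x (by simp)
    have hT : ∀ z ∈ x :: l, D.wT z ∈ Cz D := fun z hz => wT_mem D h (hl z hz).1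
    have hD : ∀ z ∈ x :: l, D.wD z ∈ Cz D := fun z hz => wD_mem D h (hl z hz).1
    have hw : ∀ z ∈ x :: l, D.wD z - D.wT z ∈ Nz D := fun z hz => w_cong D h (hl z hz)
    have hnb : ∀ z ∈ x :: l, D.nb z ∈ Cz D := fun z hz => nb_mem D h (hl z hz).1 (hl z hz).2.1
    have hn : ∀ z ∈ x :: l, D.nb z - D.nT z ∈ Nz D := fun z hz => n_cong D h (hl z hz)
    have hc := j_mem D h hx.2.1
    have hTi := j_mem D h (rho_inv D hx.1.1)
    have hDi := j_mem D h (rho_inv D hx.1.2)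
    show D.ang (D.j (x.2.2 * ((x.1⁻¹ : Bˣ) : B)) * pw D.wT (x :: l))
      - D.ang (D.j (x.2.1 * ((x.1⁻¹ : Bˣ) : B) * x.2.2 * ((x.2.1⁻¹ : Bˣ) : B)) *
        pw D.wD (x :: l))
      + D.ang (D.j (x.2.1 * ((x.1⁻¹ : Bˣ) : B)) * px D.wT D.wD D.nb (x :: l)) = _
    have h1 : D.j (x.2.1 * ((x.1⁻¹ : Bˣ) : B) * x.2.2 * ((x.2.1⁻¹ : Bˣ) : B)) -
        D.j (x.2.2 * ((x.1⁻¹ : Bˣ) : B)) ∈ Nz D := by
      have e : D.j (x.2.1 * ((x.1⁻¹ : Bˣ) : B) * x.2.2 * ((x.2.1⁻¹ : Bˣ) : B)) -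
          D.j (x.2.2 * ((x.1⁻¹ : Bˣ) : B)) =
          (D.j x.2.1 - D.j x.1) * (D.j ((x.1⁻¹ : Bˣ) : B) * D.j x.2.2 *
            D.j ((x.2.1⁻¹ : Bˣ) : B)) +
          D.j x.2.2 * (D.j ((x.2.1⁻¹ : Bˣ) : B) - D.j ((x.1⁻¹ : Bˣ) : B)) := by
        have e2 : D.j x.1 * (D.j ((x.1⁻¹ : Bˣ) : B) * D.j x.2.2 * D.j ((x.2.1⁻¹ : Bˣ) : B)) =
            D.j x.2.2 * D.j ((x.2.1⁻¹ : Bˣ) : B) := by
          rw [← mul_assoc, ← mul_assoc, ← j_mul, Units.mul_inv, j_one, one_mul]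
        rw [sub_mul, e2, mul_sub, j_mul, j_mul, j_mul, j_mul]
        simp only [mul_assoc]
        abel
      rw [e]
      exact (Nz D).add_mem (mem_Nz_mul D (jDT D h hx) ((Cz D).mul_mem ((Cz D).mul_mem hTi hc) hDi))
        (mul_mem_Nz D hc (jDTi D h hx))
    have h2 : D.ang (D.j (x.2.1 * ((x.1⁻¹ : Bˣ) : B) * x.2.2 * ((x.2.1⁻¹ : Bˣ) : B)) *
        pw D.wD (x :: l)) = D.ang (D.j (x.2.2 * ((x.1⁻¹ : Bˣ) : B)) * pw D.wT (x :: l)) := by
      rw [← sub_eq_zero, ← map_sub]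
      apply ang_Nz D h
      refine cong_mul D h1 (pw_cong D D.wD D.wT _ hD hT hw) ?_ (pw_mem D _ _ hT)
      rw [j_mul, j_mul, j_mul]
      exact (Cz D).mul_mem ((Cz D).mul_mem ((Cz D).mul_mem (j_mem D h hx.1.2) hTi) hc) hDi
    have h3 : D.ang (D.j (x.2.1 * ((x.1⁻¹ : Bˣ) : B)) * px D.wT D.wD D.nb (x :: l)) =
        D.ang (px D.wT D.wT D.nT (x :: l)) := by
      rw [← sub_eq_zero, ← map_sub]
      apply ang_Nz D h
      have e : D.j (x.2.1 * ((x.1⁻¹ : Bˣ) : B)) * px D.wT D.wD D.nb (x :: l) -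
          px D.wT D.wT D.nT (x :: l) =
          (D.j x.2.1 - D.j x.1) * (D.j ((x.1⁻¹ : Bˣ) : B) * px D.wT D.wD D.nb (x :: l)) +
          (px D.wT D.wD D.nb (x :: l) - px D.wT D.wT D.nT (x :: l)) := by
        have e2 : D.j x.1 * (D.j ((x.1⁻¹ : Bˣ) : B) * px D.wT D.wD D.nb (x :: l)) =
            px D.wT D.wD D.nb (x :: l) := by
          rw [← mul_assoc, ← j_mul, Units.mul_inv, j_one, one_mul]
        rw [sub_mul, e2, j_mul, mul_assoc]
        abel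
      rw [e]
      exact (Nz D).add_mem (mem_Nz_mul D (jDT D h hx) ((Cz D).mul_mem hTi
        (px_mem D _ _ _ _ hT hD hnb))) (px_cong D _ _ _ _ _ hT hD hw hnb hn)
    rw [h2, h3, sub_self, zero_add]

end NRMM

open NRMM in
theorem specNRM (_ : SpecPW.{u, w, u}) : SpecNRM.{u, v, w, x} where
  gg B S Ω H _ _ _ _ D h b σ l hl :=
    gg_zero D h D.wT l (fun x hx => wT_mem D h (hl x hx)) σ _ (j_nm D h b)
  g0 B S Ω H _ _ _ _ D h r l hl hr :=
    g0_zero D h D.wT r l (fun x hx => wT_mem D h (hl x hx)) (fun x hx => by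
      obtain ⟨b, hb⟩ := hr x hx
      rw [hb]
      exact j_nm D h b)
  f B S Ω H _ _ _ _ D h l hl := f_eq D h l hl

end Pool.Agent.Lib.MPb6f35e.KA
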