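import Pool.Agent.Lib.MP_b6f35e_al.KA.SpecB

/-! # Module NTL of KA: naturality of the cochains -/

set_option autoImplicit false

noncomputable section

namespace Pool.Agent.Lib.MPb6f35e.KA

open Pool.Agent.Lib.MPb6f35e.WH Pool.Agent.Lib.MPb6f35e.K2

universe u v w x y

namespace NTLM

section rel

variable {X X₀ X₁ X₂ Ω₀ Ω₁ Ω₂ : Type*} [Ring Ω₀] [Ring Ω₁] [Ring Ω₂]
  {Rl : Subring (Ω₀ × Ω₁ × Ω₂)} {f₀ : X → X₀} {f₁ : X → X₁} {f₂ : X → X₂}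

/-- The three functions are related. -/
def RF (Rl : Subring (Ω₀ × Ω₁ × Ω₂)) (f₀ : X → X₀) (f₁ : X → X₁) (f₂ : X → X₂) (w₀ : X₀ → Ω₀)
    (w₁ : X₁ → Ω₁) (w₂ : X₂ → Ω₂) : Prop := ∀ x, (w₀ (f₀ x), w₁ (f₁ x), w₂ (f₂ x)) ∈ Rl

theorem smul_rel (σ : ℤ) {a₀ : Ω₀} {a₁ : Ω₁} {a₂ : Ω₂} (h : (a₀, a₁, a₂) ∈ Rl) :
    (σ • a₀, σ • a₁, σ • a₂) ∈ Rl := by
  have h1 : σ • (a₀, a₁, a₂) ∈ Rl := zsmul_mem h σ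
  have h2 : σ • (a₀, a₁, a₂) = (σ • a₀, σ • a₁, σ • a₂) := by
    simp only [Prod.smul_mk]
  rw [← h2]
  exact h1

variable {w₀ : X₀ → Ω₀} {w₁ : X₁ → Ω₁} {w₂ : X₂ → Ω₂} {v₀ : X₀ → Ω₀} {v₁ : X₁ → Ω₁}
  {v₂ : X₂ → Ω₂} {n₀ : X₀ → Ω₀} {n₁ : X₁ → Ω₁} {n₂ : X₂ → Ω₂}

theorem pw_rel (hw : RF Rl f₀ f₁ f₂ w₀ w₁ w₂) :
    ∀ l : List X, (pw w₀ (l.map f₀), pw w₁ (l.map f₁), pw w₂ (l.map f₂)) ∈ Rl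
  | [] => Rl.zero_mem
  | [_] => Rl.one_mem
  | x :: y :: l => Rl.mul_mem (Rl.sub_mem (hw y) (hw x)) (pw_rel hw (y :: l))

theorem px_rel (hw : RF Rl f₀ f₁ f₂ w₀ w₁ w₂) (hv : RF Rl f₀ f₁ f₂ v₀ v₁ v₂)
    (hn : RF Rl f₀ f₁ f₂ n₀ n₁ n₂) :
    ∀ l : List X, (px w₀ v₀ n₀ (l.map f₀), px w₁ v₁ n₁ (l.map f₁), px w₂ v₂ n₂ (l.map f₂)) ∈ Rl
  | [] => Rl.zero_mem
  | [_] => Rl.zero_mem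
  | x :: y :: l => Rl.add_mem (Rl.mul_mem (Rl.sub_mem (hw y) (hw x)) (px_rel hw hv hn (y :: l)))
      (Rl.mul_mem (Rl.sub_mem (hn y) (hn x)) (pw_rel hv (y :: l)))

theorem rr_rel (hw : RF Rl f₀ f₁ f₂ w₀ w₁ w₂) (hr : RF Rl f₀ f₁ f₂ v₀ v₁ v₂) :
    ∀ l : List X, (rr w₀ v₀ (l.map f₀), rr w₁ v₁ (l.map f₁), rr w₂ v₂ (l.map f₂)) ∈ Rl
  | [] => Rl.zero_mem
  | [x] => hr x
  | x :: y :: l => Rl.add_mem (Rl.mul_mem (hr x) (pw_rel hw (x :: y :: l)))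
      (Rl.mul_mem (Rl.sub_mem (hw y) (hw x)) (rr_rel hw hr (y :: l)))

theorem ss_rel (hw : RF Rl f₀ f₁ f₂ w₀ w₁ w₂) (σ : ℤ) {r₀ : Ω₀} {r₁ : Ω₁} {r₂ : Ω₂}
    (hr : (r₀, r₁, r₂) ∈ Rl) :
    ∀ l : List X, (ss σ w₀ r₀ (l.map f₀), ss σ w₁ r₁ (l.map f₁), ss σ w₂ r₂ (l.map f₂)) ∈ Rl
  | [] => Rl.zero_mem
  | [_] => hr
  | x :: y :: l => Rl.add_mem (Rl.mul_mem hr (pw_rel hw (x :: y :: l)))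
      (smul_rel σ (Rl.mul_mem (Rl.sub_mem (hw y) (hw x)) (ss_rel hw σ hr (y :: l))))

theorem so_rel (hw : RF Rl f₀ f₁ f₂ w₀ w₁ w₂) (σ : ℤ) {r₀ : Ω₀} {r₁ : Ω₁} {r₂ : Ω₂}
    (hr : (r₀, r₁, r₂) ∈ Rl) :
    ∀ l : List X, (so σ w₀ r₀ (l.map f₀), so σ w₁ r₁ (l.map f₁), so σ w₂ r₂ (l.map f₂)) ∈ Rl
  | [] => Rl.zero_mem
  | [x] => Rl.mul_mem hr (hw x)
  | x :: y :: l => Rl.sub_mem (Rl.mul_mem (Rl.mul_mem hr (hw x)) (pw_rel hw (x :: y :: l)))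
      (smul_rel σ (Rl.mul_mem (Rl.sub_mem (hw y) (hw x)) (so_rel hw σ hr (y :: l))))

theorem lst_map {X Y : Type*} (f : X → Y) :
    ∀ (l : List X) (x : X), lst (f x) (l.map f) = f (lst x l)
  | [], _ => rfl
  | y :: l, _ => lst_map f l y

theorem fl_rel (hw : RF Rl f₀ f₁ f₂ w₀ w₁ w₂) :
    ∀ l : List X, (fl w₀ (l.map f₀), fl w₁ (l.map f₁), fl w₂ (l.map f₂)) ∈ Rl
  | [] => Rl.zero_mem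
  | x :: l => by
    have h := Rl.sub_mem (hw x) (hw (lst x l))
    show (w₀ (f₀ x) - w₀ (lst (f₀ x) (l.map f₀)), w₁ (f₁ x) - w₁ (lst (f₁ x) (l.map f₁)),
      w₂ (f₂ x) - w₂ (lst (f₂ x) (l.map f₂))) ∈ Rl
    rw [lst_map, lst_map, lst_map]
    exact h

theorem g0E_rel (hw : RF Rl f₀ f₁ f₂ w₀ w₁ w₂) (hr : RF Rl f₀ f₁ f₂ v₀ v₁ v₂) :
    ∀ l : List X, (g0E w₀ v₀ (l.map f₀), g0E w₁ v₁ (l.map f₁), g0E w₂ v₂ (l.map f₂)) ∈ Rl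
  | [] => Rl.zero_mem
  | x :: l => by
    have h := Rl.sub_mem (smul_rel ((-1 : ℤ) ^ l.length)
      (Rl.mul_mem (rr_rel hw hr (x :: l)) (hw (lst x l))))
      (Rl.mul_mem (hw x) (rr_rel hw hr (x :: l)))
    show ((-1 : ℤ) ^ (l.map f₀).length • (rr w₀ v₀ ((x :: l).map f₀) *
        w₀ (lst (f₀ x) (l.map f₀))) - w₀ (f₀ x) * rr w₀ v₀ ((x :: l).map f₀),
      (-1 : ℤ) ^ (l.map f₁).length • (rr w₁ v₁ ((x :: l).map f₁) *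
        w₁ (lst (f₁ x) (l.map f₁))) - w₁ (f₁ x) * rr w₁ v₁ ((x :: l).map f₁),
      (-1 : ℤ) ^ (l.map f₂).length • (rr w₂ v₂ ((x :: l).map f₂) *
        w₂ (lst (f₂ x) (l.map f₂))) - w₂ (f₂ x) * rr w₂ v₂ ((x :: l).map f₂)) ∈ Rl
    rw [lst_map, lst_map, lst_map, List.length_map, List.length_map, List.length_map]
    exact h

variable {H : Type*} [AddCommGroup H] {k₁ k₂ : ℕ} {a₀ : Ω₀ →+ H} {a₁ : Ω₁ →+ H} {a₂ : Ω₂ →+ H}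

theorem gg_rel (ha : ∀ x ∈ Rl, a₀ x.1 = k₁ • a₁ x.2.1 + k₂ • a₂ x.2.2)
    (hw : RF Rl f₀ f₁ f₂ w₀ w₁ w₂) :
    ∀ (l : List X) (σ : ℤ) (r₀ : Ω₀) (r₁ : Ω₁) (r₂ : Ω₂), (r₀, r₁, r₂) ∈ Rl →
      gg a₀ w₀ σ r₀ (l.map f₀) =
        k₁ • gg a₁ w₁ σ r₁ (l.map f₁) + k₂ • gg a₂ w₂ σ r₂ (l.map f₂)
  | [], σ, r₀, r₁, r₂, _ => by
    show (0 : H) = k₁ • (0 : H) + k₂ • (0 : H)
    simp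
  | [_], σ, r₀, r₁, r₂, _ => by
    show (0 : H) = k₁ • (0 : H) + k₂ • (0 : H)
    simp
  | x :: y :: l, σ, r₀, r₁, r₂, hr => by
    have e1 := ha _ (Rl.mul_mem (so_rel hw σ hr (x :: y :: l)) (fl_rel hw (x :: y :: l)))
    have e2 := ha _ (Rl.mul_mem (ss_rel hw (-σ) (Rl.mul_mem hr (hw x)) (x :: y :: l))
      (fl_rel hw (x :: y :: l)))
    have e3 := gg_rel ha hw (y :: l) (-σ) _ _ _ (Rl.mul_mem hr (Rl.sub_mem (hw y) (hw x)))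
    have e3' : gg a₀ w₀ (-σ) (r₀ * (w₀ (f₀ y) - w₀ (f₀ x))) ((y :: l).map f₀) =
      k₁ • gg a₁ w₁ (-σ) (r₁ * (w₁ (f₁ y) - w₁ (f₁ x))) ((y :: l).map f₁) +
      k₂ • gg a₂ w₂ (-σ) (r₂ * (w₂ (f₂ y) - w₂ (f₂ x))) ((y :: l).map f₂) := e3
    show (-1 : ℤ) ^ ((y :: l).map f₀).length •
        (a₀ (so σ w₀ r₀ ((x :: y :: l).map f₀) * fl w₀ ((x :: y :: l).map f₀)) -
          a₀ (ss (-σ) w₀ (r₀ * w₀ (f₀ x)) ((x :: y :: l).map f₀) * fl w₀ ((x :: y :: l).map f₀))) +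
        gg a₀ w₀ (-σ) (r₀ * (w₀ (f₀ y) - w₀ (f₀ x))) ((y :: l).map f₀) =
      k₁ • ((-1 : ℤ) ^ ((y :: l).map f₁).length •
        (a₁ (so σ w₁ r₁ ((x :: y :: l).map f₁) * fl w₁ ((x :: y :: l).map f₁)) -
          a₁ (ss (-σ) w₁ (r₁ * w₁ (f₁ x)) ((x :: y :: l).map f₁) * fl w₁ ((x :: y :: l).map f₁))) +
        gg a₁ w₁ (-σ) (r₁ * (w₁ (f₁ y) - w₁ (f₁ x))) ((y :: l).map f₁)) +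
      k₂ • ((-1 : ℤ) ^ ((y :: l).map f₂).length •
        (a₂ (so σ w₂ r₂ ((x :: y :: l).map f₂) * fl w₂ ((x :: y :: l).map f₂)) -
          a₂ (ss (-σ) w₂ (r₂ * w₂ (f₂ x)) ((x :: y :: l).map f₂) * fl w₂ ((x :: y :: l).map f₂))) +
        gg a₂ w₂ (-σ) (r₂ * (w₂ (f₂ y) - w₂ (f₂ x))) ((y :: l).map f₂))
    rw [List.length_map, List.length_map, List.length_map]
    generalize (-1 : ℤ) ^ (y :: l).length = c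
    have e1' : a₀ (so σ w₀ r₀ ((x :: y :: l).map f₀) * fl w₀ ((x :: y :: l).map f₀)) =
      k₁ • a₁ (so σ w₁ r₁ ((x :: y :: l).map f₁) * fl w₁ ((x :: y :: l).map f₁)) +
      k₂ • a₂ (so σ w₂ r₂ ((x :: y :: l).map f₂) * fl w₂ ((x :: y :: l).map f₂)) := e1
    have e2' : a₀ (ss (-σ) w₀ (r₀ * w₀ (f₀ x)) ((x :: y :: l).map f₀) *
        fl w₀ ((x :: y :: l).map f₀)) =
      k₁ • a₁ (ss (-σ) w₁ (r₁ * w₁ (f₁ x)) ((x :: y :: l).map f₁) *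
        fl w₁ ((x :: y :: l).map f₁)) +
      k₂ • a₂ (ss (-σ) w₂ (r₂ * w₂ (f₂ x)) ((x :: y :: l).map f₂) *
        fl w₂ ((x :: y :: l).map f₂)) := e2
    rw [e1', e2', e3']
    simp only [smul_add, smul_sub, smul_comm c k₁, smul_comm c k₂]
    abel

theorem alt_rel : ∀ (l : List X) (F₀ : List X₀ → H) (F₁ : List X₁ → H) (F₂ : List X₂ → H),
    (∀ l : List X, F₀ (l.map f₀) = k₁ • F₁ (l.map f₁) + k₂ • F₂ (l.map f₂)) →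
    alt F₀ (l.map f₀) = k₁ • alt F₁ (l.map f₁) + k₂ • alt F₂ (l.map f₂)
  | [], F₀, F₁, F₂, _ => by
    show (0 : H) = k₁ • (0 : H) + k₂ • (0 : H)
    simp
  | x :: l, F₀, F₁, F₂, h => by
    have h1 := alt_rel l (fun l' => F₀ (f₀ x :: l')) (fun l' => F₁ (f₁ x :: l'))
      (fun l' => F₂ (f₂ x :: l')) (fun l' => h (x :: l'))
    show F₀ (l.map f₀) - alt (fun l' => F₀ (f₀ x :: l')) (l.map f₀) =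
      k₁ • (F₁ (l.map f₁) - alt (fun l' => F₁ (f₁ x :: l')) (l.map f₁)) +
      k₂ • (F₂ (l.map f₂) - alt (fun l' => F₂ (f₂ x :: l')) (l.map f₂))
    rw [h1, h l, smul_sub, smul_sub]
    abel

end rel

section dat

variable {𝓑 : Type y} {B₀ B₁ B₂ : Type u} {S₀ S₁ S₂ : Type v} {Ω₀ Ω₁ Ω₂ : Type w} {H : Type x}
  [Ring 𝓑] [Ring B₀] [Ring B₁] [Ring B₂] [Ring S₀] [Ring S₁] [Ring S₂] [Ring Ω₀] [Ring Ω₁]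
  [Ring Ω₂] [AddCommGroup H] {D₀ : DGD B₀ S₀ Ω₀ H} {D₁ : DGD B₁ S₁ Ω₁ H}
  {D₂ : DGD B₂ S₂ Ω₂ H} {ψ₀ : 𝓑 →+* B₀} {ψ₁ : 𝓑 →+* B₁} {ψ₂ : 𝓑 →+* B₂}
  {Rs : Subring (S₀ × S₁ × S₂)} {Rl : Subring (Ω₀ × Ω₁ × Ω₂)} {k₁ k₂ : ℕ}

theorem e_rel (h : IsRl k₁ k₂ D₀ D₁ D₂ ψ₀ ψ₁ ψ₂ Rs Rl) : (D₀.e, D₁.e, D₂.e) ∈ Rs := by
  have h1 : (D₀.e, D₁.e, D₂.e) =
      ∑ j ∈ Finset.range D₀.N, ((D₀.τ : S₀), (D₁.τ : S₁), (D₂.τ : S₂)) ^ j := by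
    ext
    · simp [DGD.e, eS, Prod.fst_sum]
    · simp [DGD.e, eS, Prod.fst_sum, Prod.snd_sum, h.N₁]
    · simp [DGD.e, eS, Prod.snd_sum, h.N₂]
  rw [h1]
  exact sum_mem fun j _ => pow_mem h.t j

theorem j_rel (h : IsRl k₁ k₂ D₀ D₁ D₂ ψ₀ ψ₁ ψ₂ Rs Rl) (b : 𝓑) :
    (D₀.j (ψ₀ b), D₁.j (ψ₁ b), D₂.j (ψ₂ b)) ∈ Rl := h.lam _ (h.b b)

theorem j2_rel (h : IsRl k₁ k₂ D₀ D₁ D₂ ψ₀ ψ₁ ψ₂ Rs Rl) (a b : 𝓑) :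
    (D₀.j (ψ₀ a * ψ₀ b), D₁.j (ψ₁ a * ψ₁ b), D₂.j (ψ₂ a * ψ₂ b)) ∈ Rl := by
  have h1 := j_rel h (a * b)
  rw [map_mul, map_mul, map_mul] at h1
  exact h1

theorem sv_rel (h : IsRl k₁ k₂ D₀ D₁ D₂ ψ₀ ψ₁ ψ₂ Rs Rl) (x : EB 𝓑) :
    (D₀.sv (mapE ψ₀ x), D₁.sv (mapE ψ₁ x), D₂.sv (mapE ψ₂ x)) ∈ Rs :=
  Rs.add_mem (h.b x.1) (Rs.mul_mem (h.b x.2.2) (e_rel h))

theorem invE_map {B : Type u} [Ring B] (ψ : 𝓑 →+* B) (x : EB 𝓑) :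
    invE (mapE ψ x) = mapE ψ (invE x) := by
  unfold invE mapE
  refine Prod.ext ?_ (Prod.ext ?_ ?_)
  · exact (map_inv _ _).symm
  · exact (map_inv _ _).symm
  · show -(ψ ((x.1⁻¹ : 𝓑ˣ) : 𝓑) * ψ x.2.2 * ψ ((x.2.1⁻¹ : 𝓑ˣ) : 𝓑)) =
      ψ (-(((x.1⁻¹ : 𝓑ˣ) : 𝓑) * x.2.2 * ((x.2.1⁻¹ : 𝓑ˣ) : 𝓑)))
    rw [map_neg, map_mul, map_mul]

theorem svi_rel (h : IsRl k₁ k₂ D₀ D₁ D₂ ψ₀ ψ₁ ψ₂ Rs Rl) (x : EB 𝓑) :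
    (D₀.sv (invE (mapE ψ₀ x)), D₁.sv (invE (mapE ψ₁ x)), D₂.sv (invE (mapE ψ₂ x))) ∈ Rs := by
  rw [invE_map, invE_map, invE_map]
  exact sv_rel h _

theorem om_rel (h : IsRl k₁ k₂ D₀ D₁ D₂ ψ₀ ψ₁ ψ₂ Rs Rl) :
    RF Rl (mapE ψ₀) (mapE ψ₁) (mapE ψ₂) D₀.om D₁.om D₂.om := fun x =>
  Rl.mul_mem (h.d _ (h.lam _ (sv_rel h x))) (h.lam _ (svi_rel h x))

theorem al_rel (h : IsRl k₁ k₂ D₀ D₁ D₂ ψ₀ ψ₁ ψ₂ Rs Rl) :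
    RF Rl (mapE ψ₀) (mapE ψ₁) (mapE ψ₂) D₀.al D₁.al D₂.al := fun x =>
  h.lam _ (Rs.mul_mem (h.dl _ (sv_rel h x)) (svi_rel h x))

theorem wT_rel (h : IsRl k₁ k₂ D₀ D₁ D₂ ψ₀ ψ₁ ψ₂ Rs Rl) :
    RF Rl (mapE ψ₀) (mapE ψ₁) (mapE ψ₂) D₀.wT D₁.wT D₂.wT := fun x =>
  Rl.mul_mem (h.d _ (j_rel h x.1)) (j_rel h ((x.1⁻¹ : 𝓑ˣ) : 𝓑))

theorem wD_rel (h : IsRl k₁ k₂ D₀ D₁ D₂ ψ₀ ψ₁ ψ₂ Rs Rl) :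
    RF Rl (mapE ψ₀) (mapE ψ₁) (mapE ψ₂) D₀.wD D₁.wD D₂.wD := fun x =>
  Rl.mul_mem (h.d _ (j_rel h x.2.1)) (j_rel h ((x.2.1⁻¹ : 𝓑ˣ) : 𝓑))

theorem nb_rel (h : IsRl k₁ k₂ D₀ D₁ D₂ ψ₀ ψ₁ ψ₂ Rs Rl) :
    RF Rl (mapE ψ₀) (mapE ψ₁) (mapE ψ₂) D₀.nb D₁.nb D₂.nb := fun x =>
  Rl.sub_mem (Rl.mul_mem (h.d _ (j_rel h x.2.2)) (j_rel h ((x.2.1⁻¹ : 𝓑ˣ) : 𝓑)))
    (Rl.mul_mem (wT_rel h x) (j2_rel h x.2.2 ((x.2.1⁻¹ : 𝓑ˣ) : 𝓑)))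

theorem rT_rel (h : IsRl k₁ k₂ D₀ D₁ D₂ ψ₀ ψ₁ ψ₂ Rs Rl) :
    RF Rl (mapE ψ₀) (mapE ψ₁) (mapE ψ₂) D₀.rT D₁.rT D₂.rT := fun x =>
  j2_rel h x.2.2 ((x.1⁻¹ : 𝓑ˣ) : 𝓑)

theorem beE_rel (h : IsRl k₁ k₂ D₀ D₁ D₂ ψ₀ ψ₁ ψ₂ Rs Rl) : ∀ l : List (EB 𝓑),
    (D₀.beE (l.map (mapE ψ₀)), D₁.beE (l.map (mapE ψ₁)), D₂.beE (l.map (mapE ψ₂))) ∈ Rl
  | [] => Rl.zero_mem
  | [_] => Rl.zero_mem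
  | x :: y :: l => Rl.mul_mem (Rl.sub_mem (al_rel h y) (al_rel h x)) (pw_rel (om_rel h) (y :: l))

theorem ang_rel (h : IsRl k₁ k₂ D₀ D₁ D₂ ψ₀ ψ₁ ψ₂ Rs Rl) :
    ∀ x ∈ Rl, D₀.ang x.1 = k₁ • D₁.ang x.2.1 + k₂ • D₂.ang x.2.2 := fun _ hx =>
  h.I _ (Rl.mul_mem hx (h.lam _ (e_rel h)))

end dat

end NTLM

open NTLM

theorem specNTL : SpecNTL.{u, v, w, x, y} := by
  intro 𝓑 B₀ B₁ B₂ S₀ S₁ S₂ Ω₀ Ω₁ Ω₂ H _ _ _ _ _ _ _ _ _ _ _ D₀ D₁ D₂ ψ₀ ψ₁ ψ₂ Rs Rl k₁ k₂ h l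
  refine ⟨h.I _ (beE_rel h l), ?_, ?_⟩
  · rcases l with _ | ⟨x, l⟩
    · show (0 : H) = k₁ • (0 : H) + k₂ • (0 : H)
      simp
    · have e1 := ang_rel h _ (Rl.mul_mem (j2_rel h x.2.2 ((x.1⁻¹ : 𝓑ˣ) : 𝓑))
        (pw_rel (wT_rel h) (x :: l)))
      have h2 : (D₀.j (ψ₀ x.2.1 * ψ₀ ((x.1⁻¹ : 𝓑ˣ) : 𝓑) * ψ₀ x.2.2 * ψ₀ ((x.2.1⁻¹ : 𝓑ˣ) : 𝓑)),
          D₁.j (ψ₁ x.2.1 * ψ₁ ((x.1⁻¹ : 𝓑ˣ) : 𝓑) * ψ₁ x.2.2 * ψ₁ ((x.2.1⁻¹ : 𝓑ˣ) : 𝓑)),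
          D₂.j (ψ₂ x.2.1 * ψ₂ ((x.1⁻¹ : 𝓑ˣ) : 𝓑) * ψ₂ x.2.2 * ψ₂ ((x.2.1⁻¹ : 𝓑ˣ) : 𝓑))) ∈ Rl := by
        have h3 := j_rel h ((x.2.1 : 𝓑) * ((x.1⁻¹ : 𝓑ˣ) : 𝓑) * x.2.2 * ((x.2.1⁻¹ : 𝓑ˣ) : 𝓑))
        simp only [map_mul] at h3
        exact h3
      have e2 := ang_rel h _ (Rl.mul_mem h2 (pw_rel (wD_rel h) (x :: l)))
      have e3 := ang_rel h _ (Rl.mul_mem (j2_rel h x.2.1 ((x.1⁻¹ : 𝓑ˣ) : 𝓑))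
        (px_rel (wT_rel h) (wD_rel h) (nb_rel h) (x :: l)))
      have e4 : ∀ A₀ A₁ A₂ C₀ C₁ C₂ E₀ E₁ E₂ : H, A₀ = k₁ • A₁ + k₂ • A₂ →
          C₀ = k₁ • C₁ + k₂ • C₂ → E₀ = k₁ • E₁ + k₂ • E₂ →
          A₀ - C₀ + E₀ = k₁ • (A₁ - C₁ + E₁) + k₂ • (A₂ - C₂ + E₂) := by
        intro A₀ A₁ A₂ C₀ C₁ C₂ E₀ E₁ E₂ hA hC hE
        rw [hA, hC, hE]
        simp only [smul_add, smul_sub]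
        abel
      exact e4 _ _ _ _ _ _ _ _ _ e1 e2 e3
  · have e1 := ang_rel h _ (g0E_rel (wT_rel h) (rT_rel h) l)
    have e2 := alt_rel (f₀ := mapE ψ₀) (f₁ := mapE ψ₁) (f₂ := mapE ψ₂) (k₁ := k₁) (k₂ := k₂) l
      D₀.go D₁.go D₂.go (by
        intro l
        rcases l with _ | ⟨x, l⟩
        · show (0 : H) = k₁ • (0 : H) + k₂ • (0 : H)
          simp
        · exact gg_rel (ang_rel h) (wT_rel h) (x :: l) 1 _ _ _ (rT_rel h x))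
    have e4 : ∀ A₀ A₁ A₂ C₀ C₁ C₂ : H, A₀ = k₁ • A₁ + k₂ • A₂ →
        C₀ = k₁ • C₁ + k₂ • C₂ → A₀ - C₀ = k₁ • (A₁ - C₁) + k₂ • (A₂ - C₂) := by
      intro A₀ A₁ A₂ C₀ C₁ C₂ hA hC
      rw [hA, hC]
      simp only [smul_sub]
      abel
    exact e4 _ _ _ _ _ _ e1 e2

end Pool.Agent.Lib.MPb6f35e.KA
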