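import Pool.Agent.Lib.MP_b6f35e_al.KA.SpecC

/-!
# Rational K-theory in all degrees (MP_b6f35e_al), module OPS: the differential graded ring of a
cyclic cochain

The ring of operators on normalised cochains; `Ω` is the subring generated by `lam s`, `d (lam s)`.
-/

set_option autoImplicit false

noncomputable section

namespace Pool.Agent.Lib.MPb6f35e.KA

universe u v w x y

namespace OPSM

/-! ### part 1: algebra in a ring with `π`, `D` -/

section Alg

variable {A : Type w} [Ring A]

/-- `x ↦ π x π` -/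
def epH (p : A) (hp : p * p = 1) : A →+* A where
  toFun x := p * x * p
  map_one' := by rw [mul_one, hp]
  map_mul' x y := by
    have : p * (x * y) * p = p * x * (1 * (y * p)) := by noncomm_ring
    rw [this, ← hp]
    noncomm_ring
  map_zero' := by rw [mul_zero, zero_mul]
  map_add' x y := by noncomm_ring

/-- `x ↦ D x - π x π D` -/
def dH (p D : A) : A →+ A where
  toFun x := D * x - p * x * p * D
  map_zero' := by noncomm_ring
  map_add' x y := by noncomm_ring

theorem epH_apply (p : A) (hp : p * p = 1) (x : A) : epH p hp x = p * x * p := rfl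

theorem dH_apply (p D : A) (x : A) : dH p D x = D * x - p * x * p * D := rfl

variable {p D : A} (hp : p * p = 1) (hD : D * D = 0) (hpD : p * D = -(D * p))

include hp in
theorem epep (x : A) : epH p hp (epH p hp x) = x := by
  rw [epH_apply, epH_apply]
  have : p * (p * x * p) * p = (p * p) * x * (p * p) := by noncomm_ring
  rw [this, hp, one_mul, mul_one]

include hpD in
theorem epD : epH p hp D = -D := by
  rw [epH_apply, hpD, neg_mul, mul_assoc, hp, mul_one]

theorem d_mul (x y : A) : dH p D (x * y) = dH p D x * y + epH p hp x * dH p D y := by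
  rw [dH_apply, dH_apply, dH_apply, epH_apply]
  have h1 : p * (x * y) * p * D = p * x * (p * p) * y * p * D := by rw [hp]; noncomm_ring
  rw [h1]
  noncomm_ring

include hp hD hpD in
theorem d_d (x : A) : dH p D (dH p D x) = 0 := by
  have h1 : dH p D x = D * x - epH p hp x * D := rfl
  have h2 : dH p D (dH p D x) = D * dH p D x - epH p hp (dH p D x) * D := rfl
  rw [h2, h1, map_sub, map_mul, map_mul, epep, epD hp hpD]
  have h3 : D * (D * x - epH p hp x * D) - (-D * epH p hp x - x * -D) * D =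
    (D * D) * x - x * (D * D) := by noncomm_ring
  rw [h3, hD, zero_mul, mul_zero, sub_zero]

include hpD in
theorem d_ep (x : A) : dH p D (epH p hp x) = - epH p hp (dH p D x) := by
  have h1 : dH p D x = D * x - epH p hp x * D := rfl
  have h2 : dH p D (epH p hp x) = D * epH p hp x - epH p hp (epH p hp x) * D := rfl
  rw [h2, h1, map_sub, map_mul, map_mul, epep, epD hp hpD]
  noncomm_ring

end Alg

/-! ### part 2: the trace -/

section Tr

variable {S : Type u} {H : Type v} {A : Type w} [Ring S] [Ring A] [AddCommGroup H]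

/-- `d a₁ ⋯ d a_m` -/
def Pi (p D : A) (lam : S →+* A) (l : List S) : A := (l.map fun s => dH p D (lam s)).prod

theorem Pi_nil (p D : A) (lam : S →+* A) : Pi p D lam [] = 1 := rfl

theorem Pi_cons (p D : A) (lam : S →+* A) (s : S) (l : List S) :
    Pi p D lam (s :: l) = dH p D (lam s) * Pi p D lam l := by
  unfold Pi
  rw [List.map_cons, List.prod_cons]

theorem Pi_snoc (p D : A) (lam : S →+* A) (s : S) (l : List S) :
    Pi p D lam (l ++ [s]) = Pi p D lam l * dH p D (lam s) := by
  unfold Pi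
  rw [List.map_append, List.prod_append, List.map_cons, List.map_nil, List.prod_singleton]

/-- the subring generated by `lam s`, `d (lam s)` -/
def Om (p D : A) (lam : S →+* A) : Subring A :=
  Subring.closure (Set.range lam ∪ Set.range fun s => dH p D (lam s))

/-- the additive group generated by the monomials -/
def Mo (p D : A) (lam : S →+* A) : AddSubgroup A :=
  AddSubgroup.closure {x | ∃ (a : S) (l : List S), x = lam a * Pi p D lam l}

variable {p D : A} {lam : S →+* A}

theorem lam_mem (s : S) : lam s ∈ Om p D lam := Subring.subset_closure (Or.inl ⟨s, rfl⟩)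

theorem dlam_mem (s : S) : dH p D (lam s) ∈ Om p D lam := Subring.subset_closure (Or.inr ⟨s, rfl⟩)

theorem mono_mem (a : S) (l : List S) : lam a * Pi p D lam l ∈ Mo p D lam :=
  AddSubgroup.subset_closure ⟨a, l, rfl⟩

theorem mo_d {x : A} (hx : x ∈ Mo p D lam) (b : S) : x * dH p D (lam b) ∈ Mo p D lam := by
  unfold Mo at hx
  induction hx using AddSubgroup.closure_induction with
  | mem x hx =>
    obtain ⟨a, l, rfl⟩ := hx
    rw [mul_assoc, ← Pi_snoc]
    exact mono_mem a _
  | zero => rw [zero_mul]; exact zero_mem _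
  | add x y _ _ hx hy => rw [add_mul]; exact add_mem hx hy
  | neg x _ hx => rw [neg_mul]; exact neg_mem hx

variable (hp : p * p = 1) (hD : D * D = 0) (hpD : p * D = -(D * p))
  (hl : ∀ s, p * lam s = lam s * p)

include hl in
theorem ep_lam (s : S) : epH p hp (lam s) = lam s := by
  rw [epH_apply, hl, mul_assoc, hp, mul_one]

include hp hl in
theorem d_lam_mul (c b : S) : dH p D (lam c) * lam b = dH p D (lam (c * b)) - lam c * dH p D (lam b) := by
  rw [map_mul lam, d_mul hp, ep_lam hp hl]
  abel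

include hp hl in
theorem mo_lam {x : A} (hx : x ∈ Mo p D lam) (b : S) : x * lam b ∈ Mo p D lam := by
  have key : ∀ (l : List S) (a b : S), lam a * Pi p D lam l * lam b ∈ Mo p D lam := by
    intro l
    induction l using List.reverseRecOn with
    | nil =>
      intro a b
      rw [Pi_nil, mul_one, ← map_mul]
      have := mono_mem (p := p) (D := D) (lam := lam) (a * b) []
      rwa [Pi_nil, mul_one] at this
    | append_singleton l c ih =>
      intro a b
      have h1 : lam a * Pi p D lam (l ++ [c]) * lam b =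
          lam a * Pi p D lam (l ++ [c * b]) - (lam a * Pi p D lam l * lam c) * dH p D (lam b) := by
        rw [Pi_snoc, Pi_snoc]
        have h2 : lam a * (Pi p D lam l * dH p D (lam c)) * lam b =
          lam a * Pi p D lam l * (dH p D (lam c) * lam b) := by noncomm_ring
        rw [h2, d_lam_mul hp hl]
        noncomm_ring
      rw [h1]
      exact sub_mem (mono_mem _ _) (mo_d (ih a c) b)
  unfold Mo at hx
  induction hx using AddSubgroup.closure_induction with
  | mem x hx =>
    obtain ⟨a, l, rfl⟩ := hx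
    exact key l a b
  | zero => rw [zero_mul]; exact zero_mem _
  | add x y _ _ hx hy => rw [add_mul]; exact add_mem hx hy
  | neg x _ hx => rw [neg_mul]; exact neg_mem hx

include hp hl in
theorem om_mo {x : A} (hx : x ∈ Om p D lam) : x ∈ Mo p D lam := by
  have key : ∀ y ∈ Mo p D lam, y * x ∈ Mo p D lam := by
    unfold Om at hx
    induction hx using Subring.closure_induction with
    | mem x hx =>
      intro y hy
      rcases hx with ⟨s, rfl⟩ | ⟨s, rfl⟩
      · exact mo_lam hp hl hy s
      · exact mo_d hy s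
    | zero => intro y _; rw [mul_zero]; exact zero_mem _
    | one => intro y hy; rwa [mul_one]
    | add a b _ _ ha hb => intro y hy; rw [mul_add]; exact add_mem (ha y hy) (hb y hy)
    | neg a _ ha => intro y hy; rw [mul_neg]; exact neg_mem (ha y hy)
    | mul a b _ _ ha hb => intro y hy; rw [← mul_assoc]; exact hb _ (ha y hy)
  have h1 : (1 : A) ∈ Mo p D lam := by
    have := mono_mem (p := p) (D := D) (lam := lam) 1 []
    rwa [Pi_nil, mul_one, map_one] at this
  have := key 1 h1
  rwa [one_mul] at this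

include hD hpD hl in
theorem ep_mem {x : A} (hx : x ∈ Om p D lam) : epH p hp x ∈ Om p D lam := by
  unfold Om at hx
  induction hx using Subring.closure_induction with
  | mem x hx =>
    rcases hx with ⟨s, rfl⟩ | ⟨s, rfl⟩
    · rw [ep_lam hp hl]; exact lam_mem s
    · have h1 := d_ep hp hpD (lam s)
      rw [ep_lam hp hl] at h1
      have h2 : epH p hp (dH p D (lam s)) = - dH p D (lam s) := (neg_eq_iff_eq_neg.2 h1).symm
      show epH p hp (dH p D (lam s)) ∈ _
      rw [h2]
      exact neg_mem (dlam_mem s)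
  | zero => rw [map_zero]; exact zero_mem _
  | one => rw [map_one]; exact one_mem _
  | add a b _ _ ha hb => rw [map_add]; exact add_mem ha hb
  | neg a _ ha => rw [map_neg]; exact neg_mem ha
  | mul a b _ _ ha hb => rw [map_mul]; exact mul_mem ha hb

include hp hD hpD hl in
theorem d_mem {x : A} (hx : x ∈ Om p D lam) : dH p D x ∈ Om p D lam := by
  have hx' := hx
  unfold Om at hx
  induction hx using Subring.closure_induction with
  | mem x hx =>
    rcases hx with ⟨s, rfl⟩ | ⟨s, rfl⟩
    · exact dlam_mem s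
    · show dH p D (dH p D (lam s)) ∈ _
      rw [d_d hp hD hpD]
      exact zero_mem _
  | zero => rw [map_zero]; exact zero_mem _
  | one =>
    have h1 : dH p D (1 : A) = dH p D (lam 1) := by rw [map_one lam]
    rw [h1]
    exact dlam_mem 1
  | add a b ha' hb' ha hb => rw [map_add]; exact add_mem (ha ha') (hb hb')
  | neg a ha' ha => rw [map_neg]; exact neg_mem (ha ha')
  | mul a b ha' hb' ha hb =>
    rw [d_mul hp]
    exact add_mem (mul_mem (ha ha') hb') (mul_mem (ep_mem hp hD hpD hl ha') (hb hb'))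

/-- even elements -/
def Ev (lam : S →+* A) (D : A) (hp : p * p = 1) (I : A →+ H) (x : A) : Prop :=
  x ∈ Om p D lam ∧ epH p hp x = x ∧ ∀ y ∈ Om p D lam, I (x * y) = I (y * x)

/-- odd elements -/
def Od (lam : S →+* A) (D : A) (hp : p * p = 1) (I : A →+ H) (x : A) : Prop :=
  x ∈ Om p D lam ∧ epH p hp x = - x ∧ ∀ y ∈ Om p D lam, I (x * y) = I (epH p hp y * x)

variable (I : A →+ H) (ItD : ∀ x, I (D * x) = 0) (IDt : ∀ x, I (x * D) = 0)
  (cyc : ∀ (a b : S) (l : List S), I (lam a * Pi p D lam l * lam b) = I (lam (b * a) * Pi p D lam l))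

include ItD IDt in
theorem I_d (x : A) : I (dH p D x) = 0 := by
  rw [dH_apply, map_sub, ItD, IDt, sub_zero]

include hp hl cyc in
theorem I_lam {x : A} (hx : x ∈ Om p D lam) (b : S) : I (lam b * x) = I (x * lam b) := by
  replace hx := om_mo hp hl hx
  unfold Mo at hx
  induction hx using AddSubgroup.closure_induction with
  | mem x hx =>
    obtain ⟨a, l, rfl⟩ := hx
    rw [cyc, map_mul lam, mul_assoc]
  | zero => rw [zero_mul, mul_zero]
  | add x y _ _ hx hy => rw [add_mul, mul_add, map_add, map_add, hx, hy]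
  | neg x _ hx => rw [neg_mul, mul_neg, map_neg, map_neg, hx]

include hl cyc in
theorem ev_lam (s : S) : Ev lam D hp I (lam s) :=
  ⟨lam_mem s, ep_lam hp hl s, fun _ hy => I_lam hp hl I cyc hy s⟩

include hD hpD hl cyc ItD IDt in
theorem od_dlam (s : S) : Od lam D hp I (dH p D (lam s)) := by
  refine ⟨dlam_mem s, ?_, fun y hy => ?_⟩
  · have h1 := d_ep hp hpD (lam s)
    rw [ep_lam hp hl] at h1
    exact (neg_eq_iff_eq_neg.2 h1).symm
  · have h1 := I_d (p := p) I ItD IDt (lam s * y)
    rw [d_mul hp, ep_lam hp hl, map_add] at h1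
    have h2 := I_d (p := p) I ItD IDt (y * lam s)
    rw [d_mul hp, map_add] at h2
    have h3 := I_lam hp hl I cyc (d_mem hp hD hpD hl hy) s
    rw [h3] at h1
    exact add_right_cancel (h1.trans (h2.symm.trans (add_comm _ _)))

include hD hpD hl in
theorem ev_mul_ev {x y : A} (hx : Ev lam D hp I x) (hy : Ev lam D hp I y) :
    Ev lam D hp I (x * y) := by
  refine ⟨mul_mem hx.1 hy.1, by rw [map_mul, hx.2.1, hy.2.1], fun z hz => ?_⟩
  rw [mul_assoc, hx.2.2 _ (mul_mem hy.1 hz), mul_assoc, hy.2.2 _ (mul_mem hz hx.1), mul_assoc]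

include hD hpD hl in
theorem ev_mul_od {x y : A} (hx : Ev lam D hp I x) (hy : Od lam D hp I y) :
    Od lam D hp I (x * y) := by
  refine ⟨mul_mem hx.1 hy.1, by rw [map_mul, hx.2.1, hy.2.1, mul_neg], fun z hz => ?_⟩
  rw [mul_assoc, hx.2.2 _ (mul_mem hy.1 hz), mul_assoc, hy.2.2 _ (mul_mem hz hx.1),
    map_mul (epH p hp), hx.2.1, mul_assoc]

include hD hpD hl in
theorem od_mul_ev {x y : A} (hx : Od lam D hp I x) (hy : Ev lam D hp I y) :
    Od lam D hp I (x * y) := by
  refine ⟨mul_mem hx.1 hy.1, by rw [map_mul, hx.2.1, hy.2.1, neg_mul], fun z hz => ?_⟩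
  rw [mul_assoc, hx.2.2 _ (mul_mem hy.1 hz), map_mul (epH p hp), hy.2.1, mul_assoc,
    hy.2.2 _ (mul_mem (ep_mem hp hD hpD hl hz) hx.1), mul_assoc]

include hD hpD hl in
theorem od_mul_od {x y : A} (hx : Od lam D hp I x) (hy : Od lam D hp I y) :
    Ev lam D hp I (x * y) := by
  refine ⟨mul_mem hx.1 hy.1, by rw [map_mul, hx.2.1, hy.2.1, neg_mul_neg], fun z hz => ?_⟩
  rw [mul_assoc, hx.2.2 _ (mul_mem hy.1 hz), map_mul (epH p hp), hy.2.1, neg_mul, neg_mul, map_neg,
    mul_assoc, hy.2.2 _ (mul_mem (ep_mem hp hD hpD hl hz) hx.1), map_mul (epH p hp), epep, hx.2.1, mul_neg, neg_mul,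
    map_neg, neg_neg, mul_assoc]

theorem ev_add {x y : A} (hx : Ev lam D hp I x) (hy : Ev lam D hp I y) : Ev lam D hp I (x + y) :=
  ⟨add_mem hx.1 hy.1, by rw [map_add, hx.2.1, hy.2.1], fun z hz => by
    rw [add_mul, mul_add, map_add, map_add, hx.2.2 z hz, hy.2.2 z hz]⟩

theorem od_add {x y : A} (hx : Od lam D hp I x) (hy : Od lam D hp I y) : Od lam D hp I (x + y) :=
  ⟨add_mem hx.1 hy.1, by rw [map_add, hx.2.1, hy.2.1]; abel, fun z hz => by
    rw [add_mul, mul_add, map_add, map_add, hx.2.2 z hz, hy.2.2 z hz]⟩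

theorem ev_neg {x : A} (hx : Ev lam D hp I x) : Ev lam D hp I (-x) :=
  ⟨neg_mem hx.1, by rw [map_neg, hx.2.1], fun z hz => by
    rw [neg_mul, mul_neg, map_neg, map_neg, hx.2.2 z hz]⟩

theorem od_neg {x : A} (hx : Od lam D hp I x) : Od lam D hp I (-x) :=
  ⟨neg_mem hx.1, by rw [map_neg, hx.2.1], fun z hz => by
    rw [neg_mul, mul_neg, map_neg, map_neg, hx.2.2 z hz]⟩

theorem ev_zero : Ev lam D hp I 0 :=
  ⟨zero_mem _, map_zero _, fun z _ => by rw [zero_mul, mul_zero]⟩

theorem od_zero : Od lam D hp I 0 :=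
  ⟨zero_mem _, by rw [map_zero, neg_zero], fun z _ => by rw [zero_mul, mul_zero]⟩

theorem ev_one : Ev lam D hp I 1 :=
  ⟨one_mem _, map_one _, fun z _ => by rw [one_mul, mul_one]⟩

include hD hpD hl cyc ItD IDt in
theorem pi_par (l : List S) : Ev lam D hp I (Pi p D lam l) ∨ Od lam D hp I (Pi p D lam l) := by
  induction l with
  | nil => exact Or.inl (ev_one hp I)
  | cons s l ih =>
    rw [Pi_cons]
    have h1 := od_dlam hp hD hpD hl I ItD IDt cyc s
    rcases ih with h | h
    · exact Or.inr (od_mul_ev hp hD hpD hl I h1 h)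
    · exact Or.inl (od_mul_od hp hD hpD hl I h1 h)

include hD hpD hl cyc ItD IDt in
theorem split {x : A} (hx : x ∈ Om p D lam) :
    ∃ y z, Ev lam D hp I y ∧ Od lam D hp I z ∧ x = y + z := by
  replace hx := om_mo hp hl hx
  unfold Mo at hx
  induction hx using AddSubgroup.closure_induction with
  | mem x hx =>
    obtain ⟨a, l, rfl⟩ := hx
    have h1 := ev_lam hp hl I cyc a
    rcases pi_par hp hD hpD hl I ItD IDt cyc l with h | h
    · exact ⟨_, 0, ev_mul_ev hp hD hpD hl I h1 h, od_zero hp I, (add_zero _).symm⟩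
    · exact ⟨0, _, ev_zero hp I, ev_mul_od hp hD hpD hl I h1 h, (zero_add _).symm⟩
  | zero => exact ⟨0, 0, ev_zero hp I, od_zero hp I, (add_zero _).symm⟩
  | add x y _ _ hx hy =>
    obtain ⟨x1, x2, h1, h2, rfl⟩ := hx
    obtain ⟨y1, y2, h3, h4, rfl⟩ := hy
    exact ⟨x1 + y1, x2 + y2, ev_add hp I h1 h3, od_add hp I h2 h4, by abel⟩
  | neg x _ hx =>
    obtain ⟨x1, x2, h1, h2, rfl⟩ := hx
    exact ⟨-x1, -x2, ev_neg hp I h1, od_neg hp I h2, by abel⟩

variable (h2 : ∀ h : H, h + h = 0 → h = 0)

include hD hpD hl cyc ItD IDt h2 in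
theorem tr_even {x : A} (hx : x ∈ Om p D lam) (he : epH p hp x = x) {y : A} (hy : y ∈ Om p D lam) :
    I (x * y) = I (y * x) := by
  obtain ⟨a, b, ha, hb, rfl⟩ := split hp hD hpD hl I ItD IDt cyc hx
  rw [map_add, ha.2.1, hb.2.1] at he
  have h3 : b + b = 0 := by
    have h4 : -b = b := add_left_cancel he
    calc b + b = -b + b := by rw [h4]
      _ = 0 := neg_add_cancel b
  have h4 : I (b * y) = 0 := h2 _ (by rw [← map_add, ← add_mul, h3, zero_mul, map_zero])
  have h5 : I (y * b) = 0 := h2 _ (by rw [← map_add, ← mul_add, h3, mul_zero, map_zero])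
  rw [add_mul, mul_add, map_add, map_add, h4, h5, ha.2.2 y hy]

include hD hpD hl cyc ItD IDt h2 in
theorem tr_odd {x : A} (hx : x ∈ Om p D lam) (he : epH p hp x = -x) {y : A}
    (hy : y ∈ Om p D lam) : I (x * y) = I (epH p hp y * x) := by
  obtain ⟨a, b, ha, hb, rfl⟩ := split hp hD hpD hl I ItD IDt cyc hx
  rw [map_add, ha.2.1, hb.2.1, neg_add] at he
  have h3 : a + a = 0 := by
    have h4 : a = -a := add_right_cancel he
    calc a + a = a + -a := by rw [← h4]
      _ = 0 := add_neg_cancel a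
  have h4 : I (a * y) = 0 := h2 _ (by rw [← map_add, ← add_mul, h3, zero_mul, map_zero])
  have h5 : I (epH p hp y * a) = 0 := h2 _ (by rw [← map_add, ← mul_add, h3, mul_zero, map_zero])
  rw [add_mul, mul_add, map_add, map_add, h4, h5, hb.2.2 y hy]

end Tr

/-! ### part 3: the model -/

section Model

variable {S : Type u} {H : Type v} [Ring S] [AddCommGroup H]

/-- normalised balanced cochains -/
structure IsF (τ : S) (ξ : List S → H) : Prop where
  nil : ξ [] = 0
  add : ∀ (l l' : List S) (a b : S), ξ (l ++ (a + b) :: l') = ξ (l ++ a :: l') + ξ (l ++ b :: l')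
  one : ∀ (a : S) (l l' : List S), ξ (a :: (l ++ 1 :: l')) = 0
  tau : ∀ (l l' : List S) (a b : S), ξ (l ++ (a * τ) :: b :: l') = ξ (l ++ a :: (τ * b) :: l')

/-- the group of the normalised balanced cochains -/
def FF (S : Type u) (H : Type v) [Ring S] [AddCommGroup H] (τ : S) : AddSubgroup (List S → H) where
  carrier := {ξ | IsF τ ξ}
  zero_mem' := ⟨rfl, fun _ _ _ _ => (add_zero (0 : H)).symm, fun _ _ _ => rfl,
    fun _ _ _ _ => rfl⟩
  add_mem' {x y} hx hy := by
    refine ⟨?_, fun l l' a b => ?_, fun a l l' => ?_, fun l l' a b => ?_⟩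
    · show x [] + y [] = 0
      rw [hx.nil, hy.nil, add_zero]
    · show x _ + y _ = (x _ + y _) + (x _ + y _)
      rw [hx.add, hy.add]
      abel
    · show x _ + y _ = 0
      rw [hx.one, hy.one, add_zero]
    · show x _ + y _ = x _ + y _
      rw [hx.tau, hy.tau]
  neg_mem' {x} hx := by
    refine ⟨?_, fun l l' a b => ?_, fun a l l' => ?_, fun l l' a b => ?_⟩
    · show - x [] = 0
      rw [hx.nil, neg_zero]
    · show - x _ = (- x _) + (- x _)
      rw [hx.add]
      abel
    · show - x _ = 0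
      rw [hx.one, neg_zero]
    · show - x _ = - x _
      rw [hx.tau]

/-- right action of `s` -/
def fLam (s : S) (ξ : List S → H) : List S → H
  | [] => 0
  | a :: l => ξ ((s * a) :: l)

/-- right action of `D` -/
def fD (ξ : List S → H) : List S → H
  | [] => 0
  | a :: l => ξ (1 :: a :: l)

/-- right action of `π` -/
def fP (ξ : List S → H) (l : List S) : H := (-1 : ℤ) ^ l.length • ξ l

theorem isF_lam {τ : S} {ξ : List S → H} (h : IsF τ ξ) (s : S) : IsF τ (fLam s ξ) := by
  refine ⟨rfl, ?_, ?_, ?_⟩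
  · intro l l' a b
    cases l with
    | nil =>
      show ξ ((s * (a + b)) :: l') = ξ ((s * a) :: l') + ξ ((s * b) :: l')
      rw [mul_add]
      exact h.add [] l' _ _
    | cons c l => exact h.add ((s * c) :: l) l' a b
  · intro a l l'
    exact h.one _ l l'
  · intro l l' a b
    cases l with
    | nil =>
      show ξ ((s * (a * τ)) :: b :: l') = ξ ((s * a) :: (τ * b) :: l')
      rw [← mul_assoc]
      exact h.tau [] l' _ _
    | cons c l => exact h.tau ((s * c) :: l) l' a b

theorem fD_append (ξ : List S → H) (l l' : List S) (a : S) :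
    fD ξ (l ++ a :: l') = ξ (1 :: (l ++ a :: l')) := by
  cases l <;> rfl

theorem isF_D {τ : S} {ξ : List S → H} (h : IsF τ ξ) : IsF τ (fD ξ) := by
  refine ⟨rfl, ?_, ?_, ?_⟩
  · intro l l' a b
    rw [fD_append, fD_append, fD_append]
    exact h.add (1 :: l) l' a b
  · intro a l l'
    exact h.one 1 (a :: l) l'
  · intro l l' a b
    rw [fD_append, fD_append]
    exact h.tau (1 :: l) l' a b

theorem isF_P {τ : S} {ξ : List S → H} (h : IsF τ ξ) : IsF τ (fP ξ) := by
  refine ⟨?_, ?_, ?_, ?_⟩
  · show _ • ξ [] = 0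
    rw [h.nil, smul_zero]
  · intro l l' a b
    simp only [fP, List.length_append, List.length_cons, h.add, smul_add]
  · intro a l l'
    simp only [fP, h.one, smul_zero]
  · intro l l' a b
    simp only [fP, List.length_append, List.length_cons, h.tau]

/-- the algebra of operators acting on the right -/
abbrev AA (S : Type u) (H : Type v) [Ring S] [AddCommGroup H] (τ : S) : Type (max u v) :=
  (AddMonoid.End (FF S H τ))ᵐᵒᵖ

variable (τ : S)

variable {τ} in
theorem op_ext {x y : AA S H τ}
    (h : ∀ (ξ : FF S H τ) (l : List S), (x.unop ξ).1 l = (y.unop ξ).1 l) : x = y := by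
  apply MulOpposite.unop_injective
  apply AddMonoidHom.ext
  intro ξ
  apply Subtype.ext
  funext l
  exact h ξ l

/-- the operator `s` -/
def oLam (s : S) : AddMonoid.End (FF S H τ) :=
  AddMonoidHom.mk' (fun ξ => (⟨fLam s ξ.1, isF_lam ξ.2 s⟩ : FF S H τ)) (by
    intro x y
    apply Subtype.ext
    funext l
    cases l with
    | nil => exact (add_zero (0 : H)).symm
    | cons a l => rfl)

/-- the operator `D` -/
def oD : AddMonoid.End (FF S H τ) :=
  AddMonoidHom.mk' (fun ξ => (⟨fD ξ.1, isF_D ξ.2⟩ : FF S H τ)) (by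
    intro x y
    apply Subtype.ext
    funext l
    cases l with
    | nil => exact (add_zero (0 : H)).symm
    | cons a l => rfl)

/-- the operator `π` -/
def oP : AddMonoid.End (FF S H τ) :=
  AddMonoidHom.mk' (fun ξ => (⟨fP ξ.1, isF_P ξ.2⟩ : FF S H τ)) (by
    intro x y
    apply Subtype.ext
    funext l
    exact smul_add _ _ _)

/-- `D` -/
def pD : AA S H τ := MulOpposite.op (oD τ)

/-- `π` -/
def pP : AA S H τ := MulOpposite.op (oP τ)

/-- `lam` -/
def lamH : S →+* AA S H τ where
  toFun s := MulOpposite.op (oLam τ s)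
  map_one' := by
    apply op_ext
    intro ξ l
    cases l with
    | nil => exact ξ.2.nil.symm
    | cons a l =>
      show ξ.1 ((1 * a) :: l) = ξ.1 (a :: l)
      rw [one_mul]
  map_mul' s t := by
    apply op_ext
    intro ξ l
    cases l with
    | nil => rfl
    | cons a l =>
      show ξ.1 ((s * t * a) :: l) = ξ.1 ((s * (t * a)) :: l)
      rw [mul_assoc]
  map_zero' := by
    apply op_ext
    intro ξ l
    cases l with
    | nil => rfl
    | cons a l =>
      show ξ.1 ((0 * a) :: l) = 0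
      have h := ξ.2.add [] l 0 0
      rw [zero_mul]
      rw [add_zero] at h
      exact left_eq_add.1 h
  map_add' s t := by
    apply op_ext
    intro ξ l
    cases l with
    | nil => exact (add_zero (0 : H)).symm
    | cons a l =>
      show ξ.1 (((s + t) * a) :: l) = ξ.1 ((s * a) :: l) + ξ.1 ((t * a) :: l)
      rw [add_mul]
      exact ξ.2.add [] l _ _

theorem pp : (pP τ : AA S H τ) * pP τ = 1 := by
  apply op_ext
  intro ξ l
  show (-1 : ℤ) ^ l.length • ((-1 : ℤ) ^ l.length • ξ.1 l) = ξ.1 l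
  rw [smul_smul, ← mul_pow, neg_one_mul, neg_neg, one_pow, one_smul]

theorem DD : (pD τ : AA S H τ) * pD τ = 0 := by
  apply op_ext
  intro ξ l
  cases l with
  | nil => rfl
  | cons a l => exact ξ.2.one 1 [] (a :: l)

theorem pPD : (pP τ : AA S H τ) * pD τ = -(pD τ * pP τ) := by
  apply op_ext
  intro ξ l
  cases l with
  | nil =>
    show (0 : H) = - ((-1 : ℤ) ^ 0 • (0 : H))
    rw [smul_zero, neg_zero]
  | cons a l =>
    show (-1 : ℤ) ^ (l.length + 1 + 1) • ξ.1 (1 :: a :: l) =
      - ((-1 : ℤ) ^ (l.length + 1) • ξ.1 (1 :: a :: l))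
    rw [pow_succ, mul_neg_one, neg_smul]

theorem pPlam (s : S) : (pP τ : AA S H τ) * lamH τ s = lamH τ s * pP τ := by
  apply op_ext
  intro ξ l
  cases l with
  | nil =>
    show (0 : H) = (-1 : ℤ) ^ 0 • (0 : H)
    rw [smul_zero]
  | cons a l => rfl

theorem Dtau : (pD τ : AA S H τ) * lamH τ τ = lamH τ τ * pD τ := by
  apply op_ext
  intro ξ l
  cases l with
  | nil => rfl
  | cons a l =>
    show ξ.1 (1 :: (τ * a) :: l) = ξ.1 ((τ * 1) :: a :: l)
    have h := ξ.2.tau [] l 1 a
    rw [List.nil_append, List.nil_append, one_mul] at h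
    rw [mul_one, h]

/-- the trace -/
def II (ξ : FF S H τ) : AA S H τ →+ H :=
  AddMonoidHom.mk' (fun x => (x.unop ξ).1 [1]) (fun _ _ => rfl)

variable {τ}

theorem ac_d (s b : S) (m : List S) (ξ : FF S H τ) :
    ((dH (pP τ) (pD τ) (lamH τ s) : AA S H τ).unop ξ).1 (b :: m) =
      ξ.1 (1 :: (s * b) :: m) - ξ.1 (s :: b :: m) := by
  have h1 : (dH (pP τ) (pD τ) (lamH τ s) : AA S H τ) =
      pD τ * lamH τ s - lamH τ s * pD τ := by
    show pD τ * lamH τ s - epH (pP τ : AA S H τ) (pp τ) (lamH τ s) * pD τ = _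
    rw [ep_lam (p := (pP τ : AA S H τ)) (pp τ) (pPlam τ)]
  rw [h1]
  show ξ.1 (1 :: (s * b) :: m) - ξ.1 ((s * 1) :: b :: m) = _
  rw [mul_one]

theorem ac_val (l : List S) : ∀ ξ : FF S H τ,
    ((Pi (pP τ) (pD τ) (lamH τ) l : AA S H τ).unop ξ).1 [1] = ξ.1 (1 :: l) := by
  induction l with
  | nil => intro ξ; rfl
  | cons s l ih =>
    intro ξ
    rw [Pi_cons]
    have h1 := ih ((dH (pP τ) (pD τ) (lamH τ s) : AA S H τ).unop ξ)
    rw [ac_d, mul_one] at h1
    have h2 : ξ.1 (s :: 1 :: l) = 0 := ξ.2.one s [] l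
    rw [h2, sub_zero] at h1
    exact h1

theorem mg_cons (F : List S → H) (x y : S) (l : List S) :
    mg F (x :: y :: l) = F ((x * y) :: l) - mg (fun l' => F (x :: l')) (y :: l) := by
  rw [mg]

theorem mg_one (F : List S → H) (x : S) : mg F [x] = 0 := by
  rw [mg]

theorem mg_zero (L : List S) : ∀ (F : List S → H) (k : ℕ),
    (∀ l, l.length = k → F l = 0) → L.length = k + 1 → mg F L = 0 := by
  induction L with
  | nil => intro F k _ hk; exact absurd hk (by simp)
  | cons x L ih =>
    intro F k hF hk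
    cases L with
    | nil => exact mg_one F x
    | cons y l =>
      rw [List.length_cons, List.length_cons] at hk
      have hk' : l.length + 1 = k := by omega
      rw [mg_cons, hF _ (by rw [List.length_cons]; exact hk')]
      cases k with
      | zero => omega
      | succ k =>
        rw [ih (fun l' => F (x :: l')) k (fun m hm => hF _ (by rw [List.length_cons, hm]))
          (by rw [List.length_cons]; omega), sub_zero]

theorem ac_key (l : List S) (b : S) : ∀ ξ : FF S H τ,
    ((Pi (pP τ) (pD τ) (lamH τ) l : AA S H τ).unop ξ).1 [b] =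
      (-1 : ℤ) ^ l.length • mg ξ.1 (1 :: (l ++ [b])) := by
  induction l with
  | nil =>
    intro ξ
    show ξ.1 [b] = (-1 : ℤ) ^ 0 • mg ξ.1 [1, b]
    rw [mg_cons, mg_one, one_mul, sub_zero, pow_zero, one_smul]
  | cons s l ih =>
    intro ξ
    rw [Pi_cons]
    have h1 := ih ((dH (pP τ) (pD τ) (lamH τ s) : AA S H τ).unop ξ)
    refine Eq.trans h1 ?_
    obtain ⟨y, m, hm⟩ : ∃ y m, l ++ [b] = y :: m := by
      cases l with
      | nil => exact ⟨b, [], rfl⟩
      | cons c l => exact ⟨c, l ++ [b], rfl⟩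
    rw [List.cons_append, hm, mg_cons, one_mul, ac_d, mg_cons, one_mul, mg_cons, List.length_cons,
      pow_succ, mul_neg_one, neg_smul, ← smul_neg]
    congr 1
    have h2 : (fun l' => ((dH (pP τ) (pD τ) (lamH τ s) : AA S H τ).unop ξ).1 (1 :: l')) =
        fun l' => ξ.1 (1 :: s :: l') := by
      funext l'
      rw [ac_d, mul_one]
      have h3 : ξ.1 (s :: 1 :: l') = 0 := ξ.2.one s [] l'
      rw [h3, sub_zero]
    rw [h2]
    abel

theorem key_cyc {n : ℕ} {τ : Sˣ} {X : List S → H} (hX : IsX n τ X) (ξ : FF S H (τ : S))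
    (hξ : ξ.1 = X) (a b : S) (l : List S) :
    II (τ : S) ξ (lamH (τ : S) a * Pi (pP (τ : S)) (pD (τ : S)) (lamH (τ : S)) l * lamH (τ : S) b) =
      X ((b * a) :: l) := by
  have h1 := ac_key (τ := (τ : S)) l b ((lamH (τ : S) a : AA S H (τ : S)).unop ξ)
  have h2 : II (τ : S) ξ
      (lamH (τ : S) a * Pi (pP (τ : S)) (pD (τ : S)) (lamH (τ : S)) l * lamH (τ : S) b) =
      ((Pi (pP (τ : S)) (pD (τ : S)) (lamH (τ : S)) l : AA S H (τ : S)).unop
        ((lamH (τ : S) a : AA S H (τ : S)).unop ξ)).1 [b * 1] := rfl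
  rw [h2, mul_one, h1]
  obtain ⟨y, m, hm⟩ : ∃ y m, l ++ [b] = y :: m := by
    cases l with
    | nil => exact ⟨b, [], rfl⟩
    | cons c l => exact ⟨c, l ++ [b], rfl⟩
  have h3 : mg ((lamH (τ : S) a : AA S H (τ : S)).unop ξ).1 (1 :: (l ++ [b])) =
      mg X (a :: (l ++ [b])) := by
    rw [hm, mg_cons, mg_cons, one_mul]
    have h4 : ((lamH (τ : S) a : AA S H (τ : S)).unop ξ).1 (y :: m) = X ((a * y) :: m) := by
      rw [← hξ]
      rfl
    have h5 : (fun l' => ((lamH (τ : S) a : AA S H (τ : S)).unop ξ).1 (1 :: l')) =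
        fun l' => X (a :: l') := by
      funext l'
      rw [← hξ]
      show ξ.1 ((a * 1) :: l') = _
      rw [mul_one]
    rw [h4, h5]
  rw [h3]
  by_cases hn : l.length = n
  · have h6 := hX.cyc a b l hn
    rw [hn, eq_neg_of_add_eq_zero_left h6, pow_succ, mul_neg_one, neg_smul, neg_neg, smul_smul,
      ← mul_pow, neg_one_mul, neg_neg, one_pow, one_smul]
  · rw [mg_zero (a :: (l ++ [b])) X (l.length + 1) (fun k hk => hX.len k (by omega))
      (by simp), smul_zero, hX.len _ (by rw [List.length_cons]; omega)]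

end Model

end OPSM

theorem specOPS : SpecOPS.{u, v} := by
  intro S H _ _ hH n τ X hX
  have hF : OPSM.IsF (τ : S) X :=
    ⟨hX.len [] (by simp), hX.add, fun a l l' => hX.one (a :: l) l', hX.tau⟩
  let ξ : OPSM.FF S H (τ : S) := ⟨X, hF⟩
  let A := OPSM.AA S H (τ : S)
  let p : A := OPSM.pP (τ : S)
  let D : A := OPSM.pD (τ : S)
  let lam : S →+* A := OPSM.lamH (τ : S)
  let I : A →+ H := OPSM.II (τ : S) ξ
  have hp : p * p = 1 := OPSM.pp (τ : S)
  have hD : D * D = 0 := OPSM.DD (τ : S)
  have hpD : p * D = -(D * p) := OPSM.pPD (τ : S)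
  have hl : ∀ s, p * lam s = lam s * p := OPSM.pPlam (τ : S)
  have hval : ∀ (a : S) (l : List S), I (lam a * OPSM.Pi p D lam l) = X (a :: l) := by
    intro a l
    have h1 := OPSM.ac_val l ((lam a).unop ξ)
    have h2 : I (lam a * OPSM.Pi p D lam l) =
      ((OPSM.Pi p D lam l).unop ((lam a).unop ξ)).1 [1] := rfl
    rw [h2]
    refine Eq.trans h1 ?_
    show X ((a * 1) :: l) = _
    rw [mul_one]
  have ItD : ∀ x, I (D * x) = 0 := by
    intro x
    have h1 : D.unop ξ = 0 := by
      apply Subtype.ext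
      funext l
      cases l with
      | nil => rfl
      | cons a l => exact hX.one [] (a :: l)
    show (x.unop (D.unop ξ)).1 [1] = 0
    rw [h1, map_zero]
    rfl
  have IDt : ∀ x, I (x * D) = 0 := fun x => (x.unop ξ).2.one 1 [] []
  have cyc : ∀ (a b : S) (l : List S),
      I (lam a * OPSM.Pi p D lam l * lam b) = I (lam (b * a) * OPSM.Pi p D lam l) := by
    intro a b l
    rw [hval]
    exact OPSM.key_cyc hX ξ rfl a b l
  let Om : Subring A := OPSM.Om p D lam
  let lam' : S →+* Om := lam.codRestrict Om (fun s => OPSM.lam_mem s)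
  let ep' : Om →+* Om := (OPSM.epH p hp).restrict Om Om (fun x hx => OPSM.ep_mem hp hD hpD hl hx)
  let d' : Om →+ Om := AddMonoidHom.mk' (fun x => (⟨OPSM.dH p D x.1, OPSM.d_mem hp hD hpD hl x.2⟩ : Om))
    (fun x y => Subtype.ext (map_add (OPSM.dH p D) x.1 y.1))
  let I' : Om →+ H := I.comp Om.subtype.toAddMonoidHom
  refine ⟨Om, inferInstance, lam', ep', d', I', ?_, ?_, ?_, ?_, ?_, ?_, ?_, ?_, ?_⟩
  · exact fun s => Subtype.ext (OPSM.ep_lam hp hl s)
  · exact fun x y => Subtype.ext (OPSM.d_mul hp x.1 y.1)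
  · exact fun x => Subtype.ext (OPSM.d_d hp hD hpD x.1)
  · exact fun x => Subtype.ext (OPSM.d_ep hp hpD x.1)
  · apply Subtype.ext
    show D * lam τ - OPSM.epH p hp (lam τ) * D = 0
    rw [OPSM.ep_lam hp hl]
    exact sub_eq_zero.2 (OPSM.Dtau (τ : S))
  · exact fun x => OPSM.I_d (p := p) I ItD IDt x.1
  · intro x hx y
    exact OPSM.tr_even hp hD hpD hl I ItD IDt cyc hH x.2 (congrArg Subtype.val hx) y.2
  · intro x hx y
    exact OPSM.tr_odd hp hD hpD hl I ItD IDt cyc hH x.2 (congrArg Subtype.val hx) y.2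
  · intro a l
    have h1 : ∀ l : List S, (((l.map fun s => d' (lam' s)).prod : Om) : A) = OPSM.Pi p D lam l := by
      intro l
      induction l with
      | nil => rfl
      | cons s l ih =>
        rw [List.map_cons, List.prod_cons, OPSM.Pi_cons, ← ih]
        rfl
    show I (lam a * (((l.map fun s => d' (lam' s)).prod : Om) : A)) = _
    rw [h1, hval]

end Pool.Agent.Lib.MPb6f35e.KA
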