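import Pool.Agent.Lib.MP_b6f35e_al.KA.SpecF
import Pool.Agent.Lib.MP_b6f35e_al.KA.ALT
import Pool.Agent.Lib.MP_b6f35e_al.KA.CRS

/-! # KA, module PHI: the homomorphism on `KH (n + 1) (k[G])` -/

set_option autoImplicit false

noncomputable section

namespace Pool.Agent.Lib.MPb6f35e.KA

open Pool.Agent.Lib.MPb6f35e.WH
open Pool.Agent.Lib.MPb6f35e.K2 (SR TT DD iB tauS dS eS w0 inW tW WR dg sec IsRed SpecLGG Supp)

universe u v w x y

namespace PHIM

/-! ### simple facts -/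

theorem t_pow (N : ℕ) (G : Type v) [Group G] : (tW N G) ^ N = 1 := by
  unfold tW
  rw [← map_pow, ← ofAdd_nsmul, nsmul_eq_mul, mul_one, ZMod.natCast_self, ofAdd_zero, map_one]

theorem conj_inW (N : ℕ) (G : Type v) [Group G] (γ : ZMod N → G) :
    (tW N G)⁻¹ * inW N G (fun j => γ (j - 1)) * tW N G = inW N G γ := by
  rw [mul_assoc, inv_mul_eq_iff_eq_mul]
  refine SemidirectProduct.ext ?_ ?_
  · funext j
    show γ (j - 1) * (1 : ZMod N → G) (j - (1 : Multiplicative (ZMod N)).toAdd) =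
      (1 : ZMod N → G) j * γ (j - (Multiplicative.ofAdd (1 : ZMod N)).toAdd)
    rw [Pi.one_apply, Pi.one_apply, mul_one, one_mul]
    rfl
  · show (1 : Multiplicative (ZMod N)) * Multiplicative.ofAdd (1 : ZMod N) =
      Multiplicative.ofAdd (1 : ZMod N) * 1
    rw [one_mul, mul_one]

theorem isF_map {W : Type v} [Group W] {n : ℕ} {c : W} {K : Set W} {M : Type u} {M' : Type w}
    [AddCommGroup M] [AddCommGroup M'] (f : M →+ M') {X : List W → M} (hX : IsF n c K X) :
    IsF n c K (fun l => f (X l)) where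
  inv g l hl := congrArg f (hX.inv g l hl)
  cls l hl hs := by rw [(specALT.{v, u, w}).map _ _ _ f X l, hX.cls l hl hs, map_zero]
  aa l l' z z' hs := by rw [hX.aa l l' z z' hs, map_neg]
  rc l l' z k hk hs := congrArg f (hX.rc l l' z k hk hs)

theorem two_tf (p e : ℕ) [Fact p.Prime] (hp : p ≠ 2) (h : ZMod (p ^ (e + 1))) (hh : h + h = 0) :
    h = 0 := by
  have hc : Nat.Coprime 2 (p ^ (e + 1)) :=
    Nat.Coprime.pow_right _ ((Nat.coprime_primes Nat.prime_two (Fact.out : p.Prime)).2 hp.symm)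
  have hu := (ZMod.isUnit_iff_coprime 2 (p ^ (e + 1))).2 hc
  have h2 : ((2 : ℕ) : ZMod (p ^ (e + 1))) * h = 0 := by
    rw [Nat.cast_ofNat, two_mul, hh]
  exact (hu.mul_right_eq_zero).1 h2

theorem lab_false (a b : ℕ) (i : Fin (a + b)) : lab a b i = false ↔ ∃ j, Fin.castAdd b j = i := by
  unfold lab
  rw [decide_eq_false_iff_not]
  constructor
  · intro h
    exact ⟨⟨i, by omega⟩, Fin.ext rfl⟩
  · rintro ⟨j, rfl⟩
    have := j.2
    rw [Fin.val_castAdd]
    omega

theorem lab_true (a b : ℕ) (i : Fin (a + b)) : lab a b i = true ↔ ∃ j, Fin.natAdd a j = i := by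
  unfold lab
  rw [decide_eq_true_iff]
  constructor
  · intro h
    refine ⟨⟨i - a, ?_⟩, Fin.ext ?_⟩
    · have := i.2
      omega
    · show a + ((i : ℕ) - a) = i
      omega
  · rintro ⟨j, rfl⟩
    rw [Fin.val_natAdd]
    omega

/-- The permutation of the words. -/
def pim (N : ℕ) {G : Type v} [Group G] (H : Subgroup G) : (ZMod N → H) ≃ (ZMod N → H) where
  toFun x := fun j => x (j - 1)
  invFun x := fun j => x (j + 1)
  left_inv x := by funext j; simp
  right_inv x := by funext j; simp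

/-- The mixed family. -/
def mix (N m : ℕ) (G : Type v) [Group G] (H : Subgroup G) :
    (ZMod N → Fin (m + m)) → (ZMod N → H) → WR N G :=
  open Classical in
  fun J x => if ∀ j, lab m m (J j) = true then inW N G (fun j => (x j : G)) else 1

theorem fam_H (N : ℕ) {G : Type v} [Group G] (ι : Type) (H : Subgroup G) (J : ZMod N → ι) :
    ∃ π : (ZMod N → H) ≃ (ZMod N → H), ∀ m,
      thH H (sh J) m = (tW N G)⁻¹ * thH H J (π m) * tW N G :=
  ⟨pim N H, fun m => (conj_inW N G fun j => (m j : G)).symm⟩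

theorem fam_mix (N m : ℕ) {G : Type v} [Group G] (H : Subgroup G) (J : ZMod N → Fin (m + m)) :
    ∃ π : (ZMod N → H) ≃ (ZMod N → H), ∀ x,
      mix N m G H (sh J) x = (tW N G)⁻¹ * mix N m G H J (π x) * tW N G := by
  by_cases h : ∀ j, lab m m (J j) = true
  · have h' : ∀ j, lab m m (sh J j) = true := fun j => h (j + 1)
    refine ⟨pim N H, fun x => ?_⟩
    unfold mix
    rw [if_pos h, if_pos h']
    exact (conj_inW N G fun j => (x j : G)).symm
  · have h' : ¬ ∀ j, lab m m (sh J j) = true := by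
      intro h2
      apply h
      intro j
      have := h2 (j - 1)
      unfold sh at this
      rwa [sub_add_cancel] at this
    refine ⟨Equiv.refl _, fun x => ?_⟩
    unfold mix
    rw [if_neg h, if_neg h', mul_one, inv_mul_cancel]

theorem fam_1 (N : ℕ) {G : Type v} [Group G] (ι : Type) (Θ : Type w) (J : ZMod N → ι) :
    ∃ π : Θ ≃ Θ, ∀ m, th1 N G ι Θ (sh J) m = (tW N G)⁻¹ * th1 N G ι Θ J (π m) * tW N G := by
  refine ⟨Equiv.refl _, fun m => ?_⟩
  unfold th1
  rw [mul_one, inv_mul_cancel]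

/-! ### bar chains -/

theorem cmap_comp {X : Type u} {Y : Type v} {Z : Type w} (f : X → Y) (g : Y → Z) (z : Ch X) :
    cmap g (cmap f z) = cmap (fun x => g (f x)) z := by
  induction z using FreeAbelianGroup.induction_on with
  | zero => simp
  | of l =>
    show FreeAbelianGroup.map (List.map g) (FreeAbelianGroup.map (List.map f)
      (FreeAbelianGroup.of l)) = FreeAbelianGroup.map (List.map fun x => g (f x))
      (FreeAbelianGroup.of l)
    rw [FreeAbelianGroup.map_of_apply, FreeAbelianGroup.map_of_apply,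
      FreeAbelianGroup.map_of_apply, List.map_map]
    rfl
  | neg l ih => rw [map_neg, map_neg, map_neg, ih]
  | add a b ha hb => rw [map_add, map_add, map_add, ha, hb]

theorem cmap_id {X : Type u} (z : Ch X) : cmap (fun x : X => x) z = z := by
  induction z using FreeAbelianGroup.induction_on with
  | zero => simp
  | of l =>
    show FreeAbelianGroup.map (List.map fun x => x) (FreeAbelianGroup.of l) = _
    rw [FreeAbelianGroup.map_of_apply, List.map_id']
  | neg l ih => rw [map_neg, ih]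
  | add a b ha hb => rw [map_add, ha, hb]

theorem cyc_mono {X : Type u} [Mul X] {n : ℕ} {P Q : X → Prop} (h : ∀ x, P x → Q x) {z : Ch X}
    (hz : z ∈ cyc n P) : z ∈ cyc n Q := by
  refine ⟨?_, hz.2⟩
  have h1 := (specALT.{u, u, u}).cmap X X n P Q (fun x => x) h z hz.1
  rwa [cmap_id] at h1

theorem cyc_cmap {X : Type u} {Y : Type v} [Mul X] [Mul Y] {n : ℕ} {P : X → Prop} {Q : Y → Prop}
    {f : X → Y} (hf : ∀ a b, f (a * b) = f a * f b) (h : ∀ x, P x → Q (f x)) {z : Ch X}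
    (hz : z ∈ cyc n P) : cmap f z ∈ cyc n Q := by
  refine ⟨(specALT.{u, v, 0}).cmap X Y n P Q f h z hz.1, ?_⟩
  show bd (cmap f z) = 0
  rw [(specALT.{u, v, 0}).nat X Y f hf z, show bd z = 0 from hz.2, map_zero]

/-- The permutation matrix which exchanges the two halves. -/
def sw (m : ℕ) (A : Type u) [Ring A] : Gl (m + m) A :=
  ⟨(Matrix.fromBlocks 0 1 1 0).submatrix finSumFinEquiv.symm finSumFinEquiv.symm,
    (Matrix.fromBlocks 0 1 1 0).submatrix finSumFinEquiv.symm finSumFinEquiv.symm,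
    by rw [Matrix.submatrix_mul_equiv, Matrix.fromBlocks_multiply]; simp,
    by rw [Matrix.submatrix_mul_equiv, Matrix.fromBlocks_multiply]; simp⟩

theorem sw_conj (m : ℕ) {A : Type u} [Ring A] (y : Gl m A) :
    sw m A * dsum m m (y, 1) * (sw m A)⁻¹ = dsum m m (1, y) := by
  rw [mul_inv_eq_iff_eq_mul]
  refine Units.ext ?_
  show (Matrix.fromBlocks (0 : Matrix (Fin m) (Fin m) A) 1 1 0).submatrix finSumFinEquiv.symm
      finSumFinEquiv.symm * (Matrix.fromBlocks y.val 0 0 (1 : Matrix (Fin m) (Fin m) A)).submatrix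
      finSumFinEquiv.symm finSumFinEquiv.symm =
    (Matrix.fromBlocks (1 : Matrix (Fin m) (Fin m) A) 0 0 y.val).submatrix finSumFinEquiv.symm
      finSumFinEquiv.symm * (Matrix.fromBlocks (0 : Matrix (Fin m) (Fin m) A) 1 1 0).submatrix
      finSumFinEquiv.symm finSumFinEquiv.symm
  rw [Matrix.submatrix_mul_equiv, Matrix.submatrix_mul_equiv, Matrix.fromBlocks_multiply,
    Matrix.fromBlocks_multiply]
  simp

/-- The homomorphism from a group given by generators and relations. -/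
def gl {α : Type u} {r : FreeAbelianGroup α → Prop} {M : Type v} [AddCommGroup M] (φ : α → M)
    (h : ∀ x, r x → FreeAbelianGroup.lift φ x = 0) : D1.Grp r →+ M :=
  QuotientAddGroup.lift _ (FreeAbelianGroup.lift φ) (by
    rw [AddSubgroup.closure_le]
    exact h)

theorem gl_cls {α : Type u} {r : FreeAbelianGroup α → Prop} {M : Type v} [AddCommGroup M]
    (φ : α → M) (h : ∀ x, r x → FreeAbelianGroup.lift φ x = 0) (a : α) :
    gl φ h (D1.cls r a) = φ a := by
  show QuotientAddGroup.lift _ (FreeAbelianGroup.lift φ) _ (QuotientAddGroup.mk _) = φ a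
  rw [QuotientAddGroup.lift_mk, FreeAbelianGroup.lift_apply_of]

/-- The cross product is a cycle. -/
theorem kz_cyc {k : Type u} [CommRing k] {G : Type v} [Group G] {n : ℕ} {C : Type v} [CommGroup C]
    (φ : C →* G) {z : Ch G} (hz : z ∈ cyc n (fun g => ∀ h : C, g * φ h = φ h * g))
    (x : (MonoidAlgebra k C)ˣ) :
    kz (Units.map (MonoidAlgebra.mapDomainRingHom k φ).toMonoidHom x) z ∈
      cyc (n + 1) (fun _ => True) := by
  set y : (MonoidAlgebra k G)ˣ := Units.map (MonoidAlgebra.mapDomainRingHom k φ).toMonoidHom x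
    with hy
  have hcomm : ∀ g : G, (∀ h : C, g * φ h = φ h * g) →
      u1 y * u1 (gU k g) = u1 (gU k g) * u1 y := by
    intro g hg
    rw [← map_mul, ← map_mul]
    congr 1
    refine Units.ext ?_
    have key : ∀ b : MonoidAlgebra k C, MonoidAlgebra.mapDomainRingHom k φ b *
        MonoidAlgebra.single g 1 = MonoidAlgebra.single g 1 *
        MonoidAlgebra.mapDomainRingHom k φ b := by
      intro b
      induction b using MonoidAlgebra.induction_linear with
      | zero => simp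
      | add a b ha hb => rw [map_add, add_mul, mul_add, ha, hb]
      | single h r =>
        have e : MonoidAlgebra.mapDomainRingHom k φ (MonoidAlgebra.single h r) =
            MonoidAlgebra.single (φ h) r := by simp
        rw [e, MonoidAlgebra.single_mul_single, MonoidAlgebra.single_mul_single, mul_one, one_mul,
          hg h]
    exact key x.val
  have hA := (specCRS.{max u v, max u v, 0} specALT)
  have h1 : cmap (fun g => u1 (gU k g)) z ∈ ch n (fun g => u1 y * g = g * u1 y) :=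
    (specALT.{v, max u v, 0}).cmap G (Gl 1 (MonoidAlgebra k G)) n _ _ _ hcomm z hz.1
  have h2 : cmap (fun g => u1 (gU k g)) z ∈ ch n (fun _ : Gl 1 (MonoidAlgebra k G) => True) :=
    (specALT.{v, max u v, 0}).cmap G (Gl 1 (MonoidAlgebra k G)) n _ _ _ (fun _ _ => trivial) z hz.1
  refine ⟨hA.mem _ n _ (u1 y) trivial _ h2, ?_⟩
  show bd (crs (u1 y) (cmap (fun g => u1 (gU k g)) z)) = 0
  rw [hA.bd _ n (u1 y) _ h1, (specALT.{v, max u v, 0}).nat G (Gl 1 (MonoidAlgebra k G))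
    (fun g => u1 (gU k g)) (fun a b => by rw [map_mul, map_mul]) z, show bd z = 0 from hz.2,
    map_zero, map_zero, neg_zero]

/-! ### the main part -/

section Main

variable {k : Type u} [CommRing k] {p e n : ℕ} [Fact p.Prime] [NeZero (p ^ e)]
  [NeZero (p ^ (e + 1))] {r : k →+* ZMod (p ^ (e + 1))} {G : Type v} [Group G] {c : G}

/-- Existence of the function for a family. -/
theorem ex_h (hXEX : SpecXEX.{v}) (hVTX : SpecVTX.{v, 0, v}) (hHVX : SpecHVX.{u, v}) (hp : p ≠ 2)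
    (hn : 0 < n) (r : k →+* ZMod (p ^ (e + 1))) {ι : Type} [Fintype ι] [DecidableEq ι]
    {Θ : Type v} [Fintype Θ]
    (hΘ : ∀ h : ZMod (p ^ (e + 1)), Fintype.card Θ • h = 0 → h = 0) {K : Set (WR (p ^ (e + 1)) G)}
    {s : WR (p ^ (e + 1)) G → WR (p ^ (e + 1)) G}
    {θ : (ZMod (p ^ (e + 1)) → ι) → Θ → WR (p ^ (e + 1)) G}
    (hs : IsSec (w0 (p ^ (e + 1)) c) K s θ) {F : List (WR (p ^ (e + 1)) G) → ZMod (p ^ (e + 1))}
    (hF : IsF n (w0 (p ^ (e + 1)) c) K F) :
    ∃ h, HV k p e r (Xe (XA n (w0 (p ^ (e + 1)) c) s θ F)) h :=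
  hHVX.ex k p e n hp r G ι _ (hXEX (p ^ (e + 1)) n G ι _
    (hVTX (p ^ (e + 1)) n hn G ι (ZMod (p ^ (e + 1))) (two_tf p e hp) Θ hΘ _ K s θ hs F hF))

theorem card_cancel {p e : ℕ} {M : ℕ} (hM : IsUnit ((M : ℕ) : ZMod (p ^ (e + 1)))) (j : ℕ)
    (h : ZMod (p ^ (e + 1))) (hh : (M ^ j) • h = 0) : h = 0 := by
  rw [nsmul_eq_mul, Nat.cast_pow] at hh
  exact ((hM.pow j).mul_right_eq_zero).1 hh

omit [Fact p.Prime] [NeZero (p ^ e)] in
theorem Xpl_eq (hCST : SpecCST.{v, v}) (r : k →+* ZMod (p ^ (e + 1))) (c : G)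
    (s : WR (p ^ (e + 1)) G → WR (p ^ (e + 1)) G) (X : List G → k) (ι : Type) [Fintype ι]
    [DecidableEq ι] (l : List (SR (p ^ (e + 1)) G ι)) :
    Xe (XA n (w0 (p ^ (e + 1)) c) s (th1 (p ^ (e + 1)) G ι PUnit.{v + 1})
      (XWl fun l => r (X l))) l = Xpl (p ^ (e + 1)) n r c s X ι l := by
  rw [hCST]
  rw [Fintype.card_punit, one_pow, one_smul]
  rfl

end Main

/-- The permutation matrix conjugation on cycles. -/
theorem swap_cyc {A : Type u} [Ring A] {M : Type v} [AddCommGroup M] (hCNJ : SpecCNJ.{u}) {m n : ℕ}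
    (h : Ch (Gl (m + m) A) → M) (hadd : ∀ z z', bd z = 0 → bd z' = 0 → h (z + z') = h z + h z')
    (hbd : ∀ w, h (bd w) = 0) {z : Ch (Gl m A)} (hz : z ∈ cyc n (fun _ => True)) :
    h (cmap (dsum m m) (cmap (fun y => (y, 1)) z)) =
      h (cmap (dsum m m) (cmap (fun y => (1, y)) z)) := by
  have hc : cmap (dsum m m) (cmap (fun y => (y, (1 : Gl m A))) z) ∈
      cyc n (fun _ : Gl (m + m) A => True) := by
    refine cyc_cmap (map_mul _) (P := fun _ => True) (fun _ _ => trivial) ?_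
    exact cyc_cmap (fun a b => by rw [Prod.mk_mul_mk, mul_one]) (fun _ _ => trivial) hz
  obtain ⟨w, -, hw⟩ := hCNJ (Gl (m + m) A) n (fun _ => True) (fun _ _ _ _ => trivial) (sw m A)
    trivial trivial _ hc
  have e1 : cmap (fun x => sw m A * x * (sw m A)⁻¹)
      (cmap (dsum m m) (cmap (fun y => (y, (1 : Gl m A))) z)) =
      cmap (dsum m m) (cmap (fun y => ((1 : Gl m A), y)) z) := by
    rw [cmap_comp, cmap_comp, cmap_comp]
    congr 1
    congr 1
    funext y
    exact sw_conj m y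
  rw [e1] at hw
  have hc' : cmap (dsum m m) (cmap (fun y => ((1 : Gl m A), y)) z) ∈
      cyc n (fun _ : Gl (m + m) A => True) := by
    refine cyc_cmap (map_mul _) (P := fun _ => True) (fun _ _ => trivial) ?_
    exact cyc_cmap (fun a b => by rw [Prod.mk_mul_mk, mul_one]) (fun _ _ => trivial) hz
  have e2 := sub_eq_iff_eq_add.1 hw
  rw [e2, hadd _ _ (by
    have h1 : bd (cmap (dsum m m) (cmap (fun y => (y, (1 : Gl m A))) z)) = 0 := hc.2
    have h2 : bd (cmap (dsum m m) (cmap (fun y => ((1 : Gl m A), y)) z)) = 0 := hc'.2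
    rw [← hw, map_sub, h1, h2, sub_zero]) hc'.2, hbd, zero_add]

theorem sec_mk {N p : ℕ} [NeZero N] {G : Type v} [Group G] {c : G} (e : ℕ) (hN : N = p ^ e)
    (hmem : w0 N c ∈ KW N p c ∧ ∀ (k : WR N G) (j : ℕ), k * w0 N c = w0 N c * k →
      k ^ (p ^ j) = 1 → k ∈ KW N p c) {s : WR N G → WR N G}
    (hs1 : ∀ h, (∃ z, z * w0 N c * z⁻¹ = h) → s h * w0 N c * (s h)⁻¹ = h)
    (hs2 : ∀ h, (∃ z, z * w0 N c * z⁻¹ = h) → ∃ κ, κ * w0 N c = w0 N c * κ ∧ κ ^ N = 1 ∧
      s (tW N G * h * (tW N G)⁻¹) = tW N G * s h * κ) {ι : Type} {Θ : Type w}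
    (θ : (ZMod N → ι) → Θ → WR N G)
    (hθ : ∀ J, ∃ π : Θ ≃ Θ, ∀ m, θ (sh J) m = (tW N G)⁻¹ * θ J (π m) * tW N G) :
    IsSec (w0 N c) (KW N p c) s θ where
  sec := hs1
  str h hh := by
    obtain ⟨κ, h1, h2, h3⟩ := hs2 h hh
    exact ⟨κ, h1, hmem.2 κ e h1 (by rw [← hN]; exact h2), h3⟩
  mem := hmem.1
  fam := hθ

theorem mix_false (N m : ℕ) [NeZero N] (G : Type v) [Group G] (H : Subgroup G)
    (J : ZMod N → Fin m) :
    mix N m G H (fun j => Fin.castAdd m (J j)) = th1 N G (Fin m) (ZMod N → H) J := by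
  funext x
  unfold mix th1
  rw [if_neg]
  intro h
  have h1 := h 0
  rw [(lab_false m m _).2 ⟨J 0, rfl⟩] at h1
  exact absurd h1 (by decide)

theorem mix_true (N m : ℕ) (G : Type v) [Group G] (H : Subgroup G) (J : ZMod N → Fin m) :
    mix N m G H (fun j => Fin.natAdd m (J j)) = thH H J := by
  funext x
  unfold mix thH
  rw [if_pos fun j => (lab_true m m _).2 ⟨J j, rfl⟩]

end PHIM

open PHIM

theorem specPHI (_ : SpecALT.{v, u, 0}) (hXWC : SpecXWC.{v, 0}) (hSEC : SpecSEC.{v})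
    (hXEX : SpecXEX.{v}) (hVTX : SpecVTX.{v, 0, v}) (hBLX : SpecBLX.{v, v})
    (hCST : SpecCST.{v, v}) (hFXV : SpecFXV.{v}) (hCNJ : SpecCNJ.{max u v})
    (hTRV : SpecTRV.{max u v, max u v}) (hHVX : SpecHVX.{u, v}) (hHVB : SpecHVB.{u, v})
    (hHVC : SpecHVC.{u, v}) (hHVF : SpecHVF.{u, v}) (hKZH : SpecKZH.{u, v}) :
    SpecPHI.{u, v} := by
  intro k _ p e n _ hp hn _ _ r hr G _ c X hX
  obtain ⟨s, hs1, hs2⟩ := hSEC (WR (p ^ (e + 1)) G) (p ^ (e + 1))
    (Nat.pos_of_ne_zero (NeZero.ne _)) (tW (p ^ (e + 1)) G) (w0 (p ^ (e + 1)) c) (t_pow _ G)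
  have hmem := hXWC.mem (p ^ (e + 1)) p G c
  have hF := hXWC.main (p ^ (e + 1)) p n G (ZMod (p ^ (e + 1))) c (fun l => r (X l))
    (isF_map r.toAddMonoidHom hX)
  have hex : ∀ m : ℕ, ∃ h : Ch (Gl m (MonoidAlgebra k G)) → ZMod (p ^ (e + 1)),
      HV k p e r (Xpl (p ^ (e + 1)) n r c s X (Fin m)) h := by
    intro m
    have h1 := ex_h (k := k) (n := n) hXEX hVTX hHVX hp hn r (ι := Fin m) (Θ := PUnit.{v + 1})
      (fun h hh => by rwa [Fintype.card_punit, one_smul] at hh)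
      (sec_mk (e + 1) rfl hmem hs1 hs2 (th1 (p ^ (e + 1)) G (Fin m) PUnit.{v + 1})
        (fam_1 _ _ _)) hF
    have h2 : Xe (XA n (w0 (p ^ (e + 1)) c) s (th1 (p ^ (e + 1)) G (Fin m) PUnit.{v + 1})
        (XWl fun l => r (X l))) = Xpl (p ^ (e + 1)) n r c s X (Fin m) :=
      funext fun l => Xpl_eq hCST r c s X (Fin m) l
    rwa [h2] at h1
  choose h hh using hex
  have hrel : ∀ x, RelH (n + 1) (MonoidAlgebra k G) x →
      FreeAbelianGroup.lift (fun y : GenH (n + 1) (MonoidAlgebra k G) => h y.m y.z) x = 0 := by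
    intro x hx
    cases hx with
    | add m z z' h1 h2 h3 =>
      rw [map_sub, map_sub, FreeAbelianGroup.lift_apply_of, FreeAbelianGroup.lift_apply_of,
        FreeAbelianGroup.lift_apply_of]
      show h m (z + z') - h m z - h m z' = 0
      rw [hHVX.add k p e r hr G (Fin m) _ (h m) (hh m) z z' h1.2 h2.2]
      abel
    | bdr m w _ h1 =>
      rw [FreeAbelianGroup.lift_apply_of]
      exact hHVX.bdr k p e r hr G (Fin m) _ (h m) (hh m) w
    | block a b w h1 h2 h3 h4 =>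
      rw [map_sub, map_sub, FreeAbelianGroup.lift_apply_of, FreeAbelianGroup.lift_apply_of,
        FreeAbelianGroup.lift_apply_of]
      show h (a + b) (cmap (dsum a b) w) - h a (cmap Prod.fst w) - h b (cmap Prod.snd w) = 0
      rw [hHVB k p e r hr G a b (Xpl (p ^ (e + 1)) n r c s X (Fin (a + b)))
        (Xpl (p ^ (e + 1)) n r c s X (Fin a)) (Xpl (p ^ (e + 1)) n r c s X (Fin b)) ?_
        (h (a + b)) (h a) (h b) (hh _) (hh _) (hh _) w h1.2]
      · abel
      · intro l hl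
        rw [← Xpl_eq hCST, ← Xpl_eq hCST, ← Xpl_eq hCST]
        exact hBLX (p ^ (e + 1)) n G (Fin (a + b)) (Fin a) (Fin b) (lab a b) (Fin.castAdd b)
          (Fin.natAdd a) (Fin.castAdd_injective a b) (Fin.natAdd_injective b a) (lab_false a b)
          (lab_true a b) PUnit.{v + 1} (w0 (p ^ (e + 1)) c) rfl s (XWl fun l => r (X l))
          (th1 _ _ _ _) (th1 _ _ _ _) (th1 _ _ _ _) (fun _ => rfl) (fun _ => rfl) l hl
  refine ⟨gl _ hrel, ?_, ?_⟩
  · intro C _ φ z hz x b hb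
    unfold c1
    rw [dif_pos (kz_cyc φ hz x), gl_cls]
    exact hKZH k p e n hp r hr G c X hX s
      (sec_mk (e + 1) rfl hmem hs1 hs2 (th1 (p ^ (e + 1)) G (Fin 1) Unit) (fam_1 _ _ _))
      (h 1) (hh 1) C φ z hz x b hb
  · suffices hle : FinP (n + 1) k G ≤ (gl _ hrel).ker from fun y hy => hle hy
    unfold FinP
    rw [AddSubgroup.closure_le]
    rintro y ⟨m, z, H, hfin, hu, hz, rfl⟩
    have hz' : z ∈ cyc (n + 1) (fun _ : Gl m (MonoidAlgebra k G) => True) :=
      cyc_mono (fun _ _ => trivial) hz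
    show gl _ hrel (c1 (n + 1) m z) = 0
    unfold c1
    rw [dif_pos hz', gl_cls]
    show h m z = 0
    have := Fintype.ofFinite H
    have hcu : IsUnit ((Fintype.card (ZMod (p ^ (e + 1)) → H) : ℕ) : ZMod (p ^ (e + 1))) := by
      rw [Fintype.card_fun, Nat.cast_pow]
      refine IsUnit.pow _ ?_
      have h1 := hu.map r
      rwa [map_natCast, Nat.card_eq_fintype_card] at h1
    have hΘ : ∀ x : ZMod (p ^ (e + 1)), Fintype.card (ZMod (p ^ (e + 1)) → H) • x = 0 → x = 0 := by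
      intro x hx
      refine card_cancel hcu 1 x ?_
      rwa [pow_one]
    have sH := sec_mk (e + 1) rfl hmem hs1 hs2 (thH (ι := Fin m) H) (fam_H _ _ H)
    have sM := sec_mk (e + 1) rfl hmem hs1 hs2 (mix (p ^ (e + 1)) m G H) (fam_mix _ m H)
    have s1 := sec_mk (e + 1) rfl hmem hs1 hs2
      (th1 (p ^ (e + 1)) G (Fin m) (ZMod (p ^ (e + 1)) → H)) (fam_1 _ _ _)
    obtain ⟨h0, hh0⟩ := ex_h (k := k) (n := n) hXEX hVTX hHVX hp hn r hΘ sM hF
    obtain ⟨h1, hh1⟩ := ex_h (k := k) (n := n) hXEX hVTX hHVX hp hn r hΘ s1 hF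
    obtain ⟨h2, hh2⟩ := ex_h (k := k) (n := n) hXEX hVTX hHVX hp hn r hΘ sH hF
    have key := hHVB k p e r hr G m m _ _ _ (fun l hl => hBLX (p ^ (e + 1)) n G (Fin (m + m))
      (Fin m) (Fin m) (lab m m) (Fin.castAdd m) (Fin.natAdd m) (Fin.castAdd_injective m m)
      (Fin.natAdd_injective m m) (lab_false m m) (lab_true m m) (ZMod (p ^ (e + 1)) → H)
      (w0 (p ^ (e + 1)) c) rfl s (XWl fun l => r (X l)) (mix (p ^ (e + 1)) m G H)
      (th1 _ _ _ _) (thH H) (mix_false _ m G H) (mix_true _ m G H) l hl) h0 h1 h2 hh0 hh1 hh2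
    have hF2 : ∀ y ∈ cyc (n + 1) (OvH (R := k) H (m := m)), h2 y = 0 := fun y hy =>
      hHVF k p e (n + 1) r hr G H m _ (fun l hl => hFXV (p ^ (e + 1)) n hn G (Fin m) H
        (two_tf p e hp) (w0 (p ^ (e + 1)) c) (KW (p ^ (e + 1)) p c) s sH
        (XWl fun l => r (X l)) hF l hl) h2 hh2 y hy
    have hC1 : h1 z = (Fintype.card (ZMod (p ^ (e + 1)) → H) ^ (n + 1)) • h m z :=
      hHVC k p e r hr G m _ _ (Xpl (p ^ (e + 1)) n r c s X (Fin m)) (fun l => by
        rw [hCST]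
        rfl) h1 (h m) hh1 (hh m) z hz'.2
    obtain ⟨w, -, hw⟩ := hTRV (Gl m (MonoidAlgebra k G)) (Gl m (MonoidAlgebra k G)) (n + 1)
      (Nat.succ_pos n) (fun _ => True) trivial z hz'
    have hcl : cmap (fun y : Gl m (MonoidAlgebra k G) => (y, (1 : Gl m (MonoidAlgebra k G)))) z ∈
        cyc (n + 1) (fun _ => True) :=
      cyc_cmap (fun a b => by rw [Prod.mk_mul_mk, mul_one]) (fun _ _ => trivial) hz'
    have hcr : cmap (fun y : Gl m (MonoidAlgebra k G) => ((1 : Gl m (MonoidAlgebra k G)), y)) z ∈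
        cyc (n + 1) (fun _ => True) :=
      cyc_cmap (fun a b => by rw [Prod.mk_mul_mk, mul_one]) (fun _ _ => trivial) hz'
    have e1 := key _ hcl.2
    have e2 := key _ hcr.2
    rw [cmap_comp (f := fun y : Gl m (MonoidAlgebra k G) => (y, (1 : Gl m (MonoidAlgebra k G))))
      (g := Prod.fst), cmap_comp (f := fun y : Gl m (MonoidAlgebra k G) =>
        (y, (1 : Gl m (MonoidAlgebra k G)))) (g := Prod.snd)] at e1
    rw [cmap_comp (f := fun y : Gl m (MonoidAlgebra k G) => ((1 : Gl m (MonoidAlgebra k G)), y))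
      (g := Prod.fst), cmap_comp (f := fun y : Gl m (MonoidAlgebra k G) =>
        ((1 : Gl m (MonoidAlgebra k G)), y)) (g := Prod.snd)] at e2
    have e3 := swap_cyc hCNJ h0 (fun z z' hz hz' => hHVX.add k p e r hr G (Fin (m + m)) _ h0 hh0
      z z' hz hz') (fun w => hHVX.bdr k p e r hr G (Fin (m + m)) _ h0 hh0 w) hz'
    rw [e1, e2] at e3
    have e4 : h1 (cmap (fun y => y) z) + h2 (cmap (fun _ => 1) z) =
        h1 (cmap (fun _ => 1) z) + h2 (cmap (fun y => y) z) := e3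
    rw [cmap_id, hw, hHVX.bdr k p e r hr G (Fin m) _ h2 hh2 w,
      hHVX.bdr k p e r hr G (Fin m) _ h1 hh1 w, hF2 z hz, add_zero, add_zero, hC1] at e4
    exact card_cancel hcu (n + 1) _ e4

end Pool.Agent.Lib.MPb6f35e.KA
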