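import Pool.Agent.Lib.MP_b6f35e_al.KA.SpecC

/-! Module PKG: the cochains of a datum are descent cochains. -/

set_option linter.all false
set_option autoImplicit false

noncomputable section

namespace Pool.Agent.Lib.MPb6f35e.KA

open Pool.Agent.Lib.MPb6f35e.WH Pool.Agent.Lib.MPb6f35e.K2

universe u v w x y

namespace PKGM

theorem alt_map {X : Type u} {Y : Type v} {M : Type w} [AddCommGroup M] (f : X → Y)
    (F : List Y → M) (l : List X) : alt (fun l => F (l.map f)) l = alt F (l.map f) := by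
  induction l generalizing F with
  | nil => rfl
  | cons x l ih =>
    show F (l.map f) - alt (fun l' => F (f x :: l'.map f)) l =
      F (l.map f) - alt (fun l' => F (f x :: l')) (l.map f)
    rw [ih (fun l' => F (f x :: l'))]

theorem run_mem {X : Type u} [Mul X] (P : X → Prop) (hm : ∀ a b, P a → P b → P (a * b)) (a : X)
    (l : List X) (ha : P a) (hl : ∀ b ∈ l, P b) : ∀ z ∈ run a l, P z := by
  induction l generalizing a with
  | nil =>
    intro z hz
    have : z = a := List.mem_singleton.1 hz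
    rw [this]
    exact ha
  | cons b l ih =>
    intro z hz
    have hz' : z ∈ a :: run (a * b) l := hz
    rcases List.mem_cons.1 hz' with h | h
    · rw [h]
      exact ha
    · exact ih (a * b) (hm _ _ ha (hl b List.mem_cons_self))
        (fun c hc => hl c (List.mem_cons_of_mem _ hc)) z h

variable {Γ : Type y} {B : Type u} [Group Γ] [Ring B] {T D : Γ →* Bˣ}

theorem toE_mul (a b : RT T D) : toE (a * b) = mulE (toE a) (toE b) := by
  show ((T (a.y * b.y), D (a.y * b.y), (T a.y : B) * b.q + a.q * D b.y) : EB B) =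
    (T a.y * T b.y, D a.y * D b.y, (T a.y : B) * b.q + a.q * D b.y)
  rw [map_mul, map_mul]

theorem map_toE (a : RT T D) (l : List (RT T D)) :
    (l.map fun b => a * b).map toE = (l.map toE).map fun x => mulE (toE a) x := by
  rw [List.map_map, List.map_map]
  exact List.map_congr_left fun b _ => toE_mul a b

/-- Running products of two lists. -/
def rl : RT T D → RT T D → List Γ → (ℕ → B) → (ℕ → B) → List (EB B × B)
  | a, b, [], _, _ => [(toE a, b.q)]
  | a, b, y :: l, c, q =>
    (toE a, b.q) :: rl (a * ⟨y, c 0⟩) (b * ⟨y, q 0⟩) l (fun j => c (j + 1)) (fun j => q (j + 1))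

theorem rl_fst (l : List Γ) (a b : RT T D) (c q : ℕ → B) :
    (rl a b l c q).map Prod.fst = (run a (pr T D l c)).map toE := by
  induction l generalizing a b c q with
  | nil => rfl
  | cons y l ih =>
    show toE a :: (rl _ _ l _ _).map Prod.fst = toE a :: (run _ _).map toE
    rw [ih]

theorem rl_snd (l : List Γ) (a b : RT T D) (h : a.y = b.y) (c q : ℕ → B) :
    (rl a b l c q).map (fun x => ((x.1.1, x.1.2.1, x.2) : EB B)) =
      (run b (pr T D l q)).map toE := by
  have e : ((T a.y, D a.y, b.q) : EB B) = toE b := by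
    rw [h]
    rfl
  induction l generalizing a b c q with
  | nil =>
    show [((T a.y, D a.y, b.q) : EB B)] = [toE b]
    rw [e]
  | cons y l ih =>
    show ((T a.y, D a.y, b.q) : EB B) :: (rl _ _ l _ _).map _ = toE b :: (run _ _).map toE
    have h' : (a * (⟨y, c 0⟩ : RT T D)).y = (b * (⟨y, q 0⟩ : RT T D)).y := by
      rw [RT.mul_y, RT.mul_y, h]
    rw [ih _ _ h' _ _ (by rw [h']; rfl), e]

theorem rl_sum (θ : B →+ B) (hT : ∀ y b, θ ((T y : B) * b) = (T y : B) * θ b)
    (hD : ∀ y b, θ (b * D y) = θ b * D y) (l : List Γ) (a b a' : RT T D) (h : a.y = b.y)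
    (h' : a'.y = a.y) (hq : a'.q = a.q + θ b.q) (c q : ℕ → B) :
    (rl a b l c q).map (fun x => ((x.1.1, x.1.2.1, x.1.2.2 + θ x.2) : EB B)) =
      (run a' (pr T D l fun j => c j + θ (q j))).map toE := by
  induction l generalizing a b a' c q with
  | nil =>
    show [((T a.y, D a.y, a.q + θ b.q) : EB B)] = [toE a']
    rw [← h', ← hq]
    rfl
  | cons y l ih =>
    show ((T a.y, D a.y, a.q + θ b.q) : EB B) :: (rl _ _ l _ _).map _ =
      toE a' :: (run (a' * ⟨y, c 0 + θ (q 0)⟩) (pr T D l fun j => c (j + 1) + θ (q (j + 1)))).map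
        toE
    rw [ih (a * ⟨y, c 0⟩) (b * ⟨y, q 0⟩) (a' * ⟨y, c 0 + θ (q 0)⟩)
      (by rw [RT.mul_y, RT.mul_y, h]) (by rw [RT.mul_y, RT.mul_y, h'])
      (by
        rw [RT.mul_q, RT.mul_q, RT.mul_q, h', hq, h, map_add, hT, hD]
        simp only [mul_add, add_mul]
        abel) (fun j => c (j + 1)) (fun j => q (j + 1)), ← h', ← hq]
    rfl

theorem nm_fix_mul (ρ : B →+* B) (N : ℕ) (a b : B) (h : ρ a = a) :
    nm ρ N (a * b) = a * nm ρ N b := by
  unfold nm
  rw [Finset.mul_sum]
  refine Finset.sum_congr rfl fun j _ => ?_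
  rw [iterate_map_mul, Function.iterate_fixed h]

theorem nm_mul_fix (ρ : B →+* B) (N : ℕ) (a b : B) (h : ρ b = b) :
    nm ρ N (a * b) = nm ρ N a * b := by
  unfold nm
  rw [Finset.sum_mul]
  refine Finset.sum_congr rfl fun j _ => ?_
  rw [iterate_map_mul, Function.iterate_fixed h]

theorem nm_add (ρ : B →+* B) (N : ℕ) (a b : B) :
    nm ρ N (a + b) = nm ρ N a + nm ρ N b := by
  unfold nm
  rw [← Finset.sum_add_distrib]
  refine Finset.sum_congr rfl fun j _ => ?_
  rw [iterate_map_add]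

theorem nm_zero (ρ : B →+* B) (N : ℕ) : nm ρ N (0 : B) = 0 := by
  unfold nm
  refine Finset.sum_eq_zero fun j _ => ?_
  rw [iterate_map_zero]

theorem iq_one (N : ℕ) (ρ : B →+* B) : IQ N ρ (1 : RT T D) := by
  show nm ρ N (0 : B) = ((D 1 : Bˣ) : B) - ((T 1 : Bˣ) : B)
  rw [nm_zero, map_one, map_one, sub_self]

theorem iq_mul (N : ℕ) (ρ : B →+* B) (hT : ∀ y, ρ (T y) = T y) (hD : ∀ y, ρ (D y) = D y)
    (a b : RT T D) (ha : IQ N ρ a) (hb : IQ N ρ b) : IQ N ρ (a * b) := by
  show nm ρ N ((T a.y : B) * b.q + a.q * D b.y) = ((D (a.y * b.y) : Bˣ) : B) - ((T (a.y * b.y) : Bˣ) : B)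
  have ha' : nm ρ N a.q = (D a.y : B) - T a.y := ha
  have hb' : nm ρ N b.q = (D b.y : B) - T b.y := hb
  rw [nm_add, nm_fix_mul _ _ _ _ (hT _), nm_mul_fix _ _ _ _ (hD _), ha', hb', map_mul, map_mul,
    Units.val_mul, Units.val_mul]
  noncomm_ring

end PKGM

open PKGM in
theorem specPKG (hALT : SpecALT.{max u y, x, x}) (hBET : SpecBET.{u, v, w, x})
    (hVAR : SpecVAR.{u, v, w, x}) (hFIV : SpecFIV.{u, v, w, x}) (hGIN : SpecGIN.{u, v, w, x}) :
    SpecPKG.{u, v, w, x, y} := by
  intro B S Ω H Γ _ _ _ _ _ D hD T D' hDD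
  have fx : ∀ a : RT T D', D.Fx (toE a) := fun a => ⟨hDD.rT a.y, hDD.rD a.y⟩
  have qe : ∀ a : RT T D', IQ D.N D.ρ a → D.QE (toE a) := fun a ha => ⟨fx a, ha⟩
  have re : ∀ a : RT T D', D.ρ a.q = a.q → D.RE (toE a) := fun a ha =>
    ⟨fx a, ha, hDD.surj a.y⟩
  have qm : ∀ (l : List (RT T D')), (∀ a ∈ l, IQ D.N D.ρ a) → ∀ x ∈ l.map toE, D.QE x := by
    intro l hl x hx
    obtain ⟨a, ha, rfl⟩ := List.mem_map.1 hx
    exact qe a (hl a ha)
  have iqm := iq_mul (T := T) (D := D') D.N D.ρ hDD.rT hDD.rD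
  constructor
  · intro l hl
    have h1 := hALT.run (RT T D') H (fun l => D.be (l.map toE)) (IQ D.N D.ρ) (iq_one _ _) iqm
      (fun a ha l hl => by
        rw [map_toE]
        exact hBET.inv B S Ω H D hD (toE a) (qe a ha) _ (qm l hl)) l hl
      (fun _ => map_zero D.I)
    show bdF (fun l => D.be ((run 1 l).map toE)) l = 0
    rw [h1, alt_map]
    exact hBET.alt B S Ω H D _
  · intro l c q hl
    have h1 := hALT.run (RT T D') H (fun l => D.f (l.map toE)) (fun _ => True) trivial
      (fun _ _ _ _ => trivial) (fun a _ l _ => by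
        rw [map_toE]
        refine hFIV.inv B S Ω H D hD (toE a) (fx a) _ ?_
        intro x hx
        obtain ⟨b, hb, rfl⟩ := List.mem_map.1 hx
        exact fx b) (pr T D' l q) (fun _ _ => trivial) (fun _ => rfl)
    show D.be ((run 1 (pr T D' l fun j => c j + (q j - D.ρ (q j)))).map toE) -
      D.be ((run 1 (pr T D' l c)).map toE) = bdF (fun l => D.f ((run 1 l).map toE)) (pr T D' l q)
    rw [h1, alt_map, ← rl_fst l 1 1 c q, ← rl_snd l 1 1 rfl c q]
    have h2 := rl_sum (T := T) (D := D') (AddMonoidHom.id B - D.ρ.toAddMonoidHom)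
      (fun y b => by
        show (T y : B) * b - D.ρ ((T y : B) * b) = (T y : B) * (b - D.ρ b)
        rw [map_mul, hDD.rT, mul_sub])
      (fun y b => by
        show b * (D' y : B) - D.ρ (b * (D' y : B)) = (b - D.ρ b) * (D' y : B)
        rw [map_mul, hDD.rD, sub_mul]) l 1 1 1 rfl rfl
      (by
        show (0 : B) = 0 + (0 - D.ρ 0)
        rw [map_zero, sub_zero, add_zero]) c q
    have h3 : (pr T D' l fun j => c j + (q j - D.ρ (q j))) =
        pr T D' l fun j => c j + (AddMonoidHom.id B - D.ρ.toAddMonoidHom) (q j) := rfl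
    rw [h3, ← h2]
    refine hVAR B S Ω H D hD (rl 1 1 l c q) ?_
    intro x hx
    have hx' : x.1 ∈ (rl (T := T) (D := D') 1 1 l c q).map Prod.fst :=
      List.mem_map.2 ⟨x, hx, rfl⟩
    rw [rl_fst] at hx'
    obtain ⟨a, ha, e⟩ := List.mem_map.1 hx'
    rw [← e]
    exact qe a (run_mem (IQ D.N D.ρ) iqm 1 _ (iq_one _ _) hl a ha)
  · intro l hl
    have pm : ∀ a b : RT T D', D.ρ a.q = a.q → D.ρ b.q = b.q → D.ρ (a * b).q = (a * b).q := by
      intro a b ha hb
      rw [RT.mul_q, map_add, map_mul, map_mul, hDD.rT, hDD.rD, ha, hb]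
    have p1 : D.ρ (1 : RT T D').q = (1 : RT T D').q := map_zero _
    have rm : ∀ (l : List (RT T D')), (∀ a ∈ l, D.ρ a.q = a.q) → ∀ x ∈ l.map toE, D.RE x := by
      intro l hl x hx
      obtain ⟨a, ha, rfl⟩ := List.mem_map.1 hx
      exact re a (hl a ha)
    have h1 := hALT.run (RT T D') H (fun l => D.g (l.map toE)) (fun a => D.ρ a.q = a.q) p1 pm
      (fun a ha l hl => by
        rw [map_toE]
        exact hGIN.inv B S Ω H D hD (toE a) (re a ha) _ (rm l hl)) l hl
      (fun _ => by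
        show D.ang 0 - 0 = 0
        rw [map_zero, sub_zero])
    show bdF (fun l => D.g ((run 1 l).map toE)) l = D.f ((run 1 l).map toE)
    rw [h1, alt_map]
    exact hGIN.alt B S Ω H D hD _ (rm _ (run_mem (fun a : RT T D' => D.ρ a.q = a.q) pm 1 l p1 hl))
  · intro l q q'
    have h2 := rl_sum (T := T) (D := D') (AddMonoidHom.id B) (fun _ _ => rfl) (fun _ _ => rfl)
      l 1 1 1 rfl rfl (by
        show (0 : B) = 0 + 0
        rw [add_zero]) q q'
    show D.f ((run 1 (pr T D' l (q + q'))).map toE) = D.f ((run 1 (pr T D' l q)).map toE) +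
      D.f ((run 1 (pr T D' l q')).map toE)
    have h3 : pr T D' l (q + q') = pr T D' l fun j => q j + AddMonoidHom.id B (q' j) := rfl
    rw [h3, ← h2, ← rl_fst l 1 1 q q', ← rl_snd l 1 1 rfl q q']
    exact hFIV.add B S Ω H D (rl 1 1 l q q')
  · intro l q q'
    have h2 := rl_sum (T := T) (D := D') (AddMonoidHom.id B) (fun _ _ => rfl) (fun _ _ => rfl)
      l 1 1 1 rfl rfl (by
        show (0 : B) = 0 + 0
        rw [add_zero]) q q'
    show D.g ((run 1 (pr T D' l (q + q'))).map toE) = D.g ((run 1 (pr T D' l q)).map toE) +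
      D.g ((run 1 (pr T D' l q')).map toE)
    have h3 : pr T D' l (q + q') = pr T D' l fun j => q j + AddMonoidHom.id B (q' j) := rfl
    rw [h3, ← h2, ← rl_fst l 1 1 q q', ← rl_snd l 1 1 rfl q q']
    exact hGIN.add B S Ω H D (rl 1 1 l q q')

end Pool.Agent.Lib.MPb6f35e.KA
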