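import Pool.Agent.Lib.MP_b6f35e_al.KA.SpecA

/-! # Rational K-theory in all degrees (MP_b6f35e_al), module PW (helper10) -/

set_option autoImplicit false

noncomputable section

namespace Pool.Agent.Lib.MPb6f35e.KA

universe u v w x

namespace PWM

variable {X : Type u} {Ω : Type v} [Ring Ω]

theorem alt_mul (c : Ω) : ∀ (l : List X) (F : List X → Ω),
    KA.alt (fun l => c * F l) l = c * KA.alt F l
  | [], F => by simp [KA.alt]
  | x :: l, F => by
    simp only [KA.alt]
    rw [alt_mul c l (fun l' => F (x :: l')), mul_sub]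

theorem alt_add : ∀ (l : List X) (F F' : List X → Ω),
    KA.alt (fun l => F l + F' l) l = KA.alt F l + KA.alt F' l
  | [], F, F' => by simp [KA.alt]
  | x :: l, F, F' => by
    simp only [KA.alt]
    rw [alt_add l (fun l' => F (x :: l')) (fun l' => F' (x :: l'))]
    abel

theorem pw_cons (w : X → Ω) : ∀ (l : List X) (x : X),
    KA.alt (fun l' => KA.pw w (x :: l')) l = KA.pw w l
  | [], x => by simp [KA.alt, KA.pw]
  | y :: l, x => by
    have h1 : KA.alt (fun l' => KA.pw w (x :: l')) (y :: l) =
        KA.pw w (x :: l) - KA.alt (fun l'' => KA.pw w (x :: y :: l'')) l := rfl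
    have h2 : (fun l'' => KA.pw w (x :: y :: l'')) =
        fun l'' => (w y - w x) * KA.pw w (y :: l'') := rfl
    rw [h1, h2, alt_mul, pw_cons w l y]
    cases l with
    | nil => simp [KA.pw]
    | cons z l' =>
      have h3 : KA.pw w (x :: z :: l') = (w z - w x) * KA.pw w (z :: l') := rfl
      have h4 : KA.pw w (y :: z :: l') = (w z - w y) * KA.pw w (z :: l') := rfl
      rw [h3, h4]
      noncomm_ring

theorem px_cons (w v n : X → Ω) : ∀ (l : List X) (x : X),
    KA.alt (fun l' => KA.px w v n (x :: l')) l = KA.px w v n l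
  | [], x => by simp [KA.alt, KA.px]
  | y :: l, x => by
    have h1 : KA.alt (fun l' => KA.px w v n (x :: l')) (y :: l) =
        KA.px w v n (x :: l) - KA.alt (fun l'' => KA.px w v n (x :: y :: l'')) l := rfl
    have h2 : (fun l'' => KA.px w v n (x :: y :: l'')) =
        fun l'' => (w y - w x) * KA.px w v n (y :: l'') + (n y - n x) * KA.pw v (y :: l'') := rfl
    rw [h1, h2, alt_add l (fun l'' => (w y - w x) * KA.px w v n (y :: l''))
      (fun l'' => (n y - n x) * KA.pw v (y :: l'')), alt_mul, alt_mul, px_cons w v n l y,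
      pw_cons v l y]
    cases l with
    | nil => simp [KA.pw, KA.px]
    | cons z l' =>
      have h3 : KA.px w v n (x :: z :: l') =
        (w z - w x) * KA.px w v n (z :: l') + (n z - n x) * KA.pw v (z :: l') := rfl
      have h4 : KA.px w v n (y :: z :: l') =
        (w z - w y) * KA.px w v n (z :: l') + (n z - n y) * KA.pw v (z :: l') := rfl
      rw [h3, h4]
      noncomm_ring

theorem conj (w : X → Ω) {Y : Type w} (w' : Y → Ω) (f : X → Y) (c g g' : Ω) (h1 : g' * g = 1)
    (h2 : g * g' = 1) (P : X → Prop) (h3 : ∀ x, P x → w' (f x) = c + g * w x * g') :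
    ∀ (l : List X) (_ : ∀ x ∈ l, P x), KA.pw w' (l.map f) = g * KA.pw w l * g'
  | [], _ => by simp [KA.pw]
  | [x], _ => by simp [KA.pw, h2]
  | x :: y :: l, hl => by
    have ih := conj w w' f c g g' h1 h2 P h3 (y :: l) fun z hz => hl z (List.mem_cons_of_mem _ hz)
    have h4 : KA.pw w' ((x :: y :: l).map f) =
        (w' (f y) - w' (f x)) * KA.pw w' ((y :: l).map f) := rfl
    have h5 : KA.pw w (x :: y :: l) = (w y - w x) * KA.pw w (y :: l) := rfl
    have hg : ∀ z, g' * (g * z) = z := fun z => by rw [← mul_assoc, h1, one_mul]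
    rw [h4, ih, h5, h3 x (hl x List.mem_cons_self),
      h3 y (hl y (List.mem_cons_of_mem _ List.mem_cons_self))]
    generalize KA.pw w (y :: l) = Q
    have h6 : c + g * w y * g' - (c + g * w x * g') = g * (w y - w x) * g' := by noncomm_ring
    rw [h6]
    simp only [mul_assoc, hg]

theorem pxc (w v n : X → Ω) {Y : Type w} (w' v' n' : Y → Ω)
    (f : X → Y) (c c' c'' g g' h h' q : Ω) (g1 : g' * g = 1) (g2 : g * g' = 1) (k1 : h' * h = 1)
    (k2 : h * h' = 1) (P : X → Prop) (hw : ∀ x, P x → w' (f x) = c + g * w x * g')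
    (hv : ∀ x, P x → v' (f x) = c' + h * v x * h')
    (hn : ∀ x, P x → n' (f x) = c'' + g * n x * h' + q * v x * h' - g * w x * g' * q * h') :
    ∀ (l : List X) (_ : ∀ x ∈ l, P x), KA.px w' v' n' (l.map f) =
      g * KA.px w v n l * h' + q * KA.pw v l * h' - g * KA.pw w l * g' * q * h'
  | [], _ => by simp [KA.px, KA.pw]
  | [x], _ => by simp [KA.px, KA.pw, g2]
  | x :: y :: l, hl => by
    have hl' : ∀ z ∈ y :: l, P z := fun z hz => hl z (List.mem_cons_of_mem _ hz)
    have ih := pxc w v n w' v' n' f c c' c'' g g' h h' q g1 g2 k1 k2 P hw hv hn (y :: l) hl'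
    have e1 : KA.px w' v' n' ((x :: y :: l).map f) =
        (w' (f y) - w' (f x)) * KA.px w' v' n' ((y :: l).map f) +
          (n' (f y) - n' (f x)) * KA.pw v' ((y :: l).map f) := rfl
    have e2 : KA.px w v n (x :: y :: l) =
      (w y - w x) * KA.px w v n (y :: l) + (n y - n x) * KA.pw v (y :: l) := rfl
    have e3 : KA.pw v (x :: y :: l) = (v y - v x) * KA.pw v (y :: l) := rfl
    have e4 : KA.pw w (x :: y :: l) = (w y - w x) * KA.pw w (y :: l) := rfl
    have hg : ∀ z, g' * (g * z) = z := fun z => by rw [← mul_assoc, g1, one_mul]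
    have hh : ∀ z, h' * (h * z) = z := fun z => by rw [← mul_assoc, k1, one_mul]
    have hx := hl x List.mem_cons_self
    have hy := hl y (List.mem_cons_of_mem _ List.mem_cons_self)
    rw [e1, ih, conj v v' f c' h h' k1 k2 P hv (y :: l) hl', e2, e3, e4]
    generalize KA.pw w (y :: l) = Q
    generalize KA.pw v (y :: l) = R
    generalize KA.px w v n (y :: l) = S
    have h6 : w' (f y) - w' (f x) = g * (w y - w x) * g' := by
      rw [hw x hx, hw y hy]; noncomm_ring
    have h7 : n' (f y) - n' (f x) = g * (n y - n x) * h' + q * (v y - v x) * h' -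
        g * (w y - w x) * g' * q * h' := by
      rw [hn x hx, hn y hy]; noncomm_ring
    rw [h6, h7]
    generalize w y - w x = a
    generalize n y - n x = b
    generalize v y - v x = d
    simp only [mul_add, add_mul, mul_sub, sub_mul, mul_assoc, hg, hh]
    abel

end PWM

/-- PW -/
theorem specPW : SpecPW.{u, v, w} where
  pw := by
    intro X Ω _ w l
    cases l with
    | nil => rfl
    | cons x l =>
      have h1 : KA.alt (KA.pw w) (x :: l) =
        KA.pw w l - KA.alt (fun l' => KA.pw w (x :: l')) l := rfl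
      rw [h1, PWM.pw_cons, sub_self]
  px := by
    intro X Ω _ w v n l
    cases l with
    | nil => rfl
    | cons x l =>
      have h1 : KA.alt (KA.px w v n) (x :: l) =
        KA.px w v n l - KA.alt (fun l' => KA.px w v n (x :: l')) l := rfl
      rw [h1, PWM.px_cons, sub_self]
  conj := by
    intro X Ω _ w Y w' f c g g' h1 h2 P h3 l hl
    exact PWM.conj w w' f c g g' h1 h2 P h3 l hl
  pxc := by
    intro X Ω _ w v n Y w' v' n' f c c' c'' g g' h h' q g1 g2 k1 k2 P hw hv hn l hl
    exact PWM.pxc w v n w' v' n' f c c' c'' g g' h h' q g1 g2 k1 k2 P hw hv hn l hl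

end Pool.Agent.Lib.MPb6f35e.KA
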