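import Pool.Agent.Lib.MP_b6f35e_al.KA.SpecF
import Pool.Agent.Lib.MP_b6f35e_al.KA.ALT

/-! # Module RCH of KA: the relation for all homomorphisms on the cycles of the centralizer -/

set_option autoImplicit false

noncomputable section

namespace Pool.Agent.Lib.MPb6f35e.KA

open Pool.Agent.Lib.MPb6f35e.WH
open Pool.Agent.Lib.MPb6f35e.K2 (SR TT DD iB tauS dS eS w0 inW tW WR dg sec IsRed SpecLGG Supp)

universe u v

namespace RCHM

theorem ch_mono {X : Type u} {n : ℕ} {P Q : X → Prop} (h : ∀ x, P x → Q x) : ch n P ≤ ch n Q := by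
  refine AddSubgroup.closure_mono ?_
  rintro y ⟨l, hl, hP, rfl⟩
  exact ⟨l, hl, fun x hx => h x (hP x hx), rfl⟩

theorem cyc_mono {X : Type u} [Mul X] {n : ℕ} {P Q : X → Prop} (h : ∀ x, P x → Q x) :
    cyc n P ≤ cyc n Q := inf_le_inf_right _ (ch_mono h)

theorem sec_spec {W : Type v} [Group W] {c g : W} (h : ∃ t, t * c * t⁻¹ = g) :
    sec c g * c * (sec c g)⁻¹ = g := by
  unfold sec
  rw [dif_pos h]
  exact h.choose_spec

/-- The conjugate of a cycle of the centralizer of `h` is a cycle of the centralizer of `c`. -/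
theorem conj_cyc {G : Type v} [Group G] {n : ℕ} {c h s : G} (hs : s * c * s⁻¹ = h) {z : Ch G}
    (hz : z ∈ cyc n (Cz h)) : cmap (fun g => s⁻¹ * g * s) z ∈ cyc n (Cz c) := by
  have hc : c = s⁻¹ * h * s := by rw [← hs]; group
  refine ⟨(specALT.{v, v, 0}).cmap G G n (Cz h) (Cz c) _ ?_ z hz.1, ?_⟩
  · intro x hx
    have hx' : x * h = h * x := hx
    show s⁻¹ * x * s * c = c * (s⁻¹ * x * s)
    have e1 : s⁻¹ * x * s * c = s⁻¹ * (x * h) * s := by rw [hc]; group
    have e2 : c * (s⁻¹ * x * s) = s⁻¹ * (h * x) * s := by rw [hc]; group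
    rw [e1, e2, hx']
  · have h2 : bd z = 0 := hz.2
    show bd (cmap (fun g => s⁻¹ * g * s) z) = 0
    rw [(specALT.{v, v, 0}).nat G G (fun g => s⁻¹ * g * s) (fun a b => by group) z, h2, map_zero]

end RCHM

open RCHM in
/-- **RCH**. -/
theorem specRCH (hREK : SpecREK.{v}) (hUCT : SpecUCT.{v}) (hCON : SpecCON.{v})
    (hTHZ : SpecTHZ.{v, 0}) : SpecRCH.{v} := by
  intro p _ hp G _ n m R hn hm hor C _ _ hC φ z hz x hrel c χ hχ a ha h1
  by_cases hex : ∃ (j : Fin R) (h : C j) (t : G), t * c * t⁻¹ = φ j h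
  · obtain ⟨j₀, h₀, t₀, ht₀⟩ := hex
    have hk : 0 < Fintype.card (C j₀) := Fintype.card_pos
    have hc1 : c ^ Fintype.card (C j₀) = 1 := by
      have e1 : (t₀ * c * t₀⁻¹) ^ Fintype.card (C j₀) = 1 := by
        rw [ht₀, ← map_pow, pow_card_eq_one, map_one]
      rw [conj_pow] at e1
      have e2 : t₀ * c ^ Fintype.card (C j₀) = t₀ := by
        have := mul_inv_eq_one.1 e1
        exact this
      exact mul_eq_left.1 e2
    have hfin : IsOfFinOrder c := isOfFinOrder_iff_pow_eq_one.2 ⟨_, hk, hc1⟩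
    have hnd : ¬ p ∣ orderOf c := fun h =>
      hC j₀ (h.trans (orderOf_dvd_of_pow_eq_one hc1))
    obtain ⟨xx, hx1, hx2⟩ := hUCT p G n (Cz c) (fun a b (ha : a * c = c * a) (hb : b * c = c * b) => by
      show a * b * c = c * (a * b)
      rw [mul_assoc, hb, ← mul_assoc, ha, mul_assoc]) χ hχ
    obtain ⟨X, M, hM, hX, hXv⟩ := hCON p hp G n hn c hfin hnd hor xx hx1
    have h2 := hREK p hp G n m R hn hm C hC φ z hz x hrel c X hX a ha h1
    have h3 : ∀ j h, ThC c (Xv X) (z j) (φ j h) = M • ThC c χ (z j) (φ j h) := by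
      intro j h
      unfold ThC
      by_cases he : ∃ t, t * c * t⁻¹ = φ j h
      · rw [if_pos he, if_pos he]
        have h4 : cmap (fun g => (sec c (φ j h))⁻¹ * g * sec c (φ j h)) (z j) ∈ cyc n (Cz c) :=
          conj_cyc (sec_spec he) (cyc_mono (fun g hg => hg h) (hz j))
        rw [hXv _ h4, hx2 _ h4]
      · rw [if_neg he, if_neg he, smul_zero]
    have h5 : (M : ℚ_[p]) * ∑ j, ∑ h, ((ThC c χ (z j) (φ j h) : ℤ_[p]) : ℚ_[p]) *
        lgP p ((x j : MonoidAlgebra ℤ_[p] (C j)) ^ a) h = 0 := by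
      rw [← h2, Finset.mul_sum]
      refine Finset.sum_congr rfl fun j _ => ?_
      rw [Finset.mul_sum]
      refine Finset.sum_congr rfl fun h _ => ?_
      rw [h3, nsmul_eq_mul, PadicInt.coe_mul, PadicInt.coe_natCast, mul_assoc]
    exact (mul_eq_zero.1 h5).resolve_left (Nat.cast_ne_zero.2 hM.ne')
  · refine Finset.sum_eq_zero fun j _ => Finset.sum_eq_zero fun h _ => ?_
    rw [hTHZ.zero G ℤ_[p] c χ (z j) (φ j h) (fun ⟨t, ht⟩ => hex ⟨j, h, t, ht⟩)]
    simp

end Pool.Agent.Lib.MPb6f35e.KA
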