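import Pool.Agent.Lib.MP_b6f35e_al.KA.SpecF
import Pool.Agent.Lib.MP_b6f35e_al.K2.REL
import Pool.Agent.Lib.MP_b6f35e_al.K2.RED

/-!
# Module REK: the relation for cochains (helper18)
-/

set_option autoImplicit false

noncomputable section

namespace Pool.Agent.Lib.MPb6f35e.KA

open Pool.Agent.Lib.MPb6f35e.WH
open Pool.Agent.Lib.MPb6f35e.K2.RELaux (pow_root pow_root')

universe u v w x y

namespace REKM

theorem ch_mono {X : Type u} {n : ℕ} {P Q : X → Prop} (h : ∀ x, P x → Q x) :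
    ch n P ≤ ch n Q := by
  refine AddSubgroup.closure_mono ?_
  rintro y ⟨l, h1, h2, h3⟩
  exact ⟨l, h1, fun x hx => h x (h2 x hx), h3⟩

theorem cyc_mono {X : Type u} [Mul X] {n : ℕ} {P Q : X → Prop} (h : ∀ x, P x → Q x) :
    cyc n P ≤ cyc n Q := inf_le_inf_right _ (ch_mono h)

section

variable {W : Type u} [Group W] {p M : ℕ} {d : W}

theorem comm_of_pow (hM : 0 < M) (hp : Nat.Coprime p M) (hd : d ^ M = 1) {y : W}
    (hy : y * d ^ p = d ^ p * y) : y * d = d * y := by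
  have := (Commute.pow_right (show Commute y (d ^ p) from hy)
    (p ^ (Nat.totient M - 1))).eq
  rwa [pow_root' p M hM hp d hd] at this

theorem conj_root (hM : 0 < M) (hp : Nat.Coprime p M) (hd : d ^ M = 1) (z : W) :
    z * d * z⁻¹ = (z * d ^ p * z⁻¹) ^ (p ^ (Nat.totient M - 1)) := by
  rw [conj_pow, pow_root' p M hM hp d hd]

theorem sameC_of_pow (hM : 0 < M) (hp : Nat.Coprime p M) (hd : d ^ M = 1) {l : List W}
    (h : SameC (d ^ p) l) : SameC d l := by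
  intro z hz z' hz'
  rw [conj_root hM hp hd z, conj_root hM hp hd z', h z hz z' hz']

theorem KG_of_pow (hM : 0 < M) (hp : Nat.Coprime p M) (hd : d ^ M = 1) {k : W}
    (h : k ∈ KG p (d ^ p)) : k ∈ KG p d := by
  obtain ⟨h1, j, h2⟩ := h
  refine ⟨comm_of_pow hM hp hd h1, j, ?_⟩
  have h3 : Subgroup.zpowers (d ^ p) ≤ Subgroup.zpowers d :=
    Subgroup.zpowers_le.2 (Subgroup.npow_mem_zpowers d p)
  exact h3 h2

theorem isF_pow {A : Type v} [AddCommGroup A] {n : ℕ} {X : List W → A} (hM : 0 < M)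
    (hp : Nat.Coprime p M) (hd : d ^ M = 1) (h : IsF n d (KG p d) X) :
    IsF n (d ^ p) (KG p (d ^ p)) X where
  inv g l hl := h.inv g l (sameC_of_pow hM hp hd hl)
  cls l h1 hl := h.cls l h1 (sameC_of_pow hM hp hd hl)
  aa l l' z z' hl := h.aa l l' z z' (sameC_of_pow hM hp hd hl)
  rc l l' z k hk hl := h.rc l l' z k (KG_of_pow hM hp hd hk) (sameC_of_pow hM hp hd hl)

end

/-- `Θ_(d^p)(z; g^p) = Θ_d(z; g)` if `d^M = g^M = 1`. -/
theorem ThC_pow {W : Type u} {A : Type v} [Group W] [AddCommGroup A] (hTHZ : SpecTHZ.{u, v})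
    {p M : ℕ} (hM : 0 < M) (hp : Nat.Coprime p M) {n : ℕ} (d : W) (χ : Ch W → A)
    (hd : d ^ M = 1) (h1 : HomC n (Cz d) χ) (h2 : HomC n (Cz (d ^ p)) χ) (z : Ch W) (g : W)
    (hz : z ∈ cyc n (Cz g)) (hg : g ^ M = 1) : ThC (d ^ p) χ z (g ^ p) = ThC d χ z g := by
  by_cases h : ∃ t, t * d * t⁻¹ = g
  · obtain ⟨t, ht⟩ := h
    have ht' : t * d ^ p * t⁻¹ = g ^ p := by rw [← conj_pow, ht]
    have hz' : z ∈ cyc n (Cz (g ^ p)) := by
      refine cyc_mono (fun y hy => ?_) hz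
      exact (Commute.pow_right (show Commute y g from hy) p).eq
    rw [hTHZ.val W A n (d ^ p) χ h2 (g ^ p) t ht' z hz', hTHZ.val W A n d χ h1 g t ht z hz]
  · have h' : ¬ ∃ t, t * d ^ p * t⁻¹ = g ^ p := by
      rintro ⟨t, ht⟩
      apply h
      refine ⟨t, ?_⟩
      rw [conj_root hM hp hd t, ht, pow_root' p M hM hp g hg]
    rw [hTHZ.zero W A (d ^ p) χ z (g ^ p) h', hTHZ.zero W A d χ z g h]

/-- the relation of LMT for one cochain -/
theorem lim (hPHI : SpecPHI.{0, v}) (hLMT : SpecLMT.{v}) (p : ℕ) [Fact p.Prime] (hp2 : p ≠ 2)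
    (G : Type v) [Group G] (n m R : ℕ) (hn : 0 < n) (hm : 0 < m) (C : Fin R → Type v)
    [∀ j, CommGroup (C j)] [∀ j, Fintype (C j)] (φ : ∀ j, C j →* G) (z : Fin R → Ch G)
    (hz : ∀ j, z j ∈ cyc n (fun g => ∀ h : C j, g * φ j h = φ j h * g))
    (x : ∀ j, (MonoidAlgebra ℤ_[p] (C j))ˣ) (hrel : RelK p G n m R C φ z x)
    (c : G) (X : List G → ℤ_[p]) (hX : IsF n c (KG p c) X) (a : ℕ) (ha : 0 < a)
    (hone : ∀ j, OneModP p ((x j : MonoidAlgebra ℤ_[p] (C j)) ^ a)) :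
    ∑ j, ∑ h, ((ThC c (Xv X) (z j) (φ j h) : ℤ_[p]) : ℚ_[p]) *
        lgP p ((x j : MonoidAlgebra ℤ_[p] (C j)) ^ a) h =
      (p : ℚ_[p])⁻¹ * ∑ j, ∑ h, ((ThC c (Xv X) (z j) (φ j (h ^ p)) : ℤ_[p]) : ℚ_[p]) *
        lgP p ((x j : MonoidAlgebra ℤ_[p] (C j)) ^ a) h := by
  refine hLMT p hp2 m R hm C (fun j h => ThC c (Xv X) (z j) (φ j h)) x ?_ a ha hone
  intro e b hb
  haveI : NeZero (p ^ e) := ⟨pow_ne_zero _ (Fact.out : p.Prime).ne_zero⟩
  haveI : NeZero (p ^ (e + 1)) := ⟨pow_ne_zero _ (Fact.out : p.Prime).ne_zero⟩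
  obtain ⟨Φ, h1, h2⟩ := hPHI ℤ_[p] p e n hp2 hn (PadicInt.toZModPow (e + 1))
    (K2.specRED p e) G c X hX
  have h3 := h2 _ hrel
  rw [map_nsmul, map_sum, Finset.sum_congr rfl fun j _ =>
    h1 (C j) (φ j) (z j) (hz j) (x j) (b j) (hb j), Finset.sum_neg_distrib, smul_neg,
    neg_eq_zero] at h3
  exact h3

end REKM

open REKM in
/-- REK: the relation for cochains. -/
theorem specREK (hPHI : SpecPHI.{0, v}) (hLMT : SpecLMT.{v}) (hTHZ : SpecTHZ.{v, 0})
    (hXVH : SpecXVH.{v, 0}) : SpecREK.{v} := by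
  intro p _ hp2 G _ n m R hn hm C _ _ hcard φ z hz x hrel c X hX a ha hone
  classical
  set S : G → ℚ_[p] := fun c => ∑ j, ∑ h, ((ThC c (Xv X) (z j) (φ j h) : ℤ_[p]) : ℚ_[p]) *
    lgP p ((x j : MonoidAlgebra ℤ_[p] (C j)) ^ a) h with hS
  show S c = 0
  set M : ℕ := ∏ j, Fintype.card (C j) with hMdef
  have hM : 0 < M := Finset.prod_pos fun j _ => Fintype.card_pos
  have hprime : p.Prime := Fact.out
  have hpM : Nat.Coprime p M := by
    apply Nat.Coprime.prod_right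
    intro j _
    exact (Nat.Prime.coprime_iff_not_dvd hprime).2 (hcard j)
  have hcM : ∀ j (h : C j), h ^ M = 1 := by
    intro j h
    have hd : Fintype.card (C j) ∣ M := Finset.dvd_prod_of_mem _ (Finset.mem_univ j)
    obtain ⟨q, hq⟩ := hd
    rw [hq, pow_mul, pow_card_eq_one, one_pow]
  by_cases hex : ∃ j, ∃ h : C j, ∃ t, t * c * t⁻¹ = φ j h
  · obtain ⟨j0, h0, t0, ht0⟩ := hex
    have hc : c ^ M = 1 := by
      have h1 : (t0 * c * t0⁻¹) ^ M = 1 := by rw [ht0, ← map_pow, hcM, map_one]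
      rw [conj_pow] at h1
      have h2 := congrArg (fun y => t0⁻¹ * y * t0) h1
      simp only [mul_assoc, inv_mul_cancel_left, inv_mul_cancel, mul_one] at h2
      exact h2
    have hp0 : (p : ℚ_[p]) ≠ 0 := by exact_mod_cast hprime.ne_zero
    -- the step
    have step : ∀ d : G, d ^ M = 1 → IsF n d (KG p d) X → S d = (p : ℚ_[p]) * S (d ^ p) := by
      intro d hd h1
      have h3 : IsF n (d ^ p) (KG p (d ^ p)) X := isF_pow hM hpM hd h1
      have h5 := lim hPHI hLMT p hp2 G n m R hn hm C φ z hz x hrel (d ^ p) X h3 a ha hone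
      have h6 : ∀ j (h : C j), ThC (d ^ p) (Xv X) (z j) (φ j (h ^ p)) =
          ThC d (Xv X) (z j) (φ j h) := by
        intro j h
        rw [map_pow]
        refine ThC_pow hTHZ hM hpM d (Xv X) hd (hXVH G ℤ_[p] n d _ X h1)
          (hXVH G ℤ_[p] n (d ^ p) _ X h3) (z j) (φ j h) ?_ (by rw [← map_pow, hcM, map_one])
        exact cyc_mono (fun y hy => hy h) (hz j)
      simp only [h6] at h5
      show S d = (p : ℚ_[p]) * S (d ^ p)
      have h7 : S (d ^ p) = (p : ℚ_[p])⁻¹ * S d := h5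
      rw [h7, mul_inv_cancel_left₀ hp0]
    have iter : ∀ i : ℕ, (c ^ (p ^ i)) ^ M = 1 ∧ IsF n (c ^ (p ^ i)) (KG p (c ^ (p ^ i))) X ∧
        S c = (p : ℚ_[p]) ^ i * S (c ^ (p ^ i)) := by
      intro i
      induction i with
      | zero =>
        refine ⟨by rw [pow_zero, pow_one, hc], by rw [pow_zero, pow_one]; exact hX, by simp⟩
      | succ i ih =>
        obtain ⟨h1, h2, h3⟩ := ih
        have e : c ^ (p ^ (i + 1)) = (c ^ (p ^ i)) ^ p := by rw [← pow_mul, ← pow_succ]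
        rw [e]
        refine ⟨?_, isF_pow hM hpM h1 h2, ?_⟩
        · rw [← pow_mul, mul_comm, pow_mul, h1, one_pow]
        · rw [h3, step _ h1 h2, ← mul_assoc, ← pow_succ]
    have hfin := (iter (Nat.totient M)).2.2
    rw [pow_root p M hpM c hc] at hfin
    have hpos : 0 < Nat.totient M := Nat.totient_pos.2 hM
    have hne : (p : ℚ_[p]) ^ Nat.totient M ≠ 1 := by
      have h1 : 1 < p ^ Nat.totient M := Nat.one_lt_pow hpos.ne' hprime.one_lt
      intro h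
      have h2 : ((p ^ Nat.totient M : ℕ) : ℚ_[p]) = ((1 : ℕ) : ℚ_[p]) := by
        push_cast
        exact h
      have h3 := Nat.cast_injective h2
      omega
    have h8 : ((p : ℚ_[p]) ^ Nat.totient M - 1) * S c = 0 := by
      rw [sub_mul, one_mul, ← hfin, sub_self]
    rcases mul_eq_zero.1 h8 with h9 | h9
    · exact absurd (sub_eq_zero.1 h9) hne
    · exact h9
  · show S c = 0
    apply Finset.sum_eq_zero
    intro j _
    apply Finset.sum_eq_zero
    intro h _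
    rw [hTHZ.zero G ℤ_[p] c (Xv X) (z j) (φ j h) (fun ⟨t, ht⟩ => hex ⟨j, h, t, ht⟩)]
    simp

end Pool.Agent.Lib.MPb6f35e.KA
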