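import Pool.Agent.Lib.MP_b6f35e_al.KA.SpecC

/-! Related triples (helper96). -/

set_option autoImplicit false

noncomputable section

namespace Pool.Agent.Lib.MPb6f35e.KA

universe u v w

namespace RLSM

variable {S : Type u} {Ω : Type w} [Ring S] [Ring Ω]

/-- Monomials. -/
def mon (io : S →+* Ω) (d : Ω →+ Ω) (a : S) (l : List S) : Ω :=
  io a * (l.map fun s => d (io s)).prod

/-- The additive group generated by the monomials. -/
def M (io : S →+* Ω) (d : Ω →+ Ω) : AddSubgroup Ω :=
  AddSubgroup.closure {x | ∃ a l, x = mon io d a l}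

lemma mon_mem (io : S →+* Ω) (d : Ω →+ Ω) (a : S) (l : List S) : mon io d a l ∈ M io d :=
  AddSubgroup.subset_closure ⟨a, l, rfl⟩

lemma mon_snoc (io : S →+* Ω) (d : Ω →+ Ω) (a b : S) (l : List S) :
    mon io d a (l ++ [b]) = mon io d a l * d (io b) := by
  simp [mon, mul_assoc]

lemma M_mul_d (io : S →+* Ω) (d : Ω →+ Ω) (b : S) {x : Ω} (hx : x ∈ M io d) :
    x * d (io b) ∈ M io d := by
  induction hx using AddSubgroup.closure_induction with
  | mem y hy =>
    obtain ⟨a, l, rfl⟩ := hy
    rw [← mon_snoc]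
    exact mon_mem _ _ _ _
  | zero => rw [zero_mul]; exact (M io d).zero_mem
  | add y z _ _ hy hz => rw [add_mul]; exact (M io d).add_mem hy hz
  | neg y _ hy => rw [neg_mul]; exact (M io d).neg_mem hy

variable {io : S →+* Ω} {ep : Ω →+* Ω} {d : Ω →+ Ω}

lemma M_mul_io (h1 : ∀ s, ep (io s) = io s) (h2 : ∀ x y, d (x * y) = d x * y + ep x * d y)
    (b : S) {x : Ω} (hx : x ∈ M io d) : x * io b ∈ M io d := by
  induction hx using AddSubgroup.closure_induction with
  | mem y hy =>
    obtain ⟨a, l, rfl⟩ := hy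
    induction l using List.reverseRecOn generalizing b with
    | nil =>
      have : mon io d a [] * io b = mon io d (a * b) [] := by simp [mon]
      rw [this]
      exact mon_mem _ _ _ _
    | append_singleton l c ih =>
      have h3 : d (io c) * io b = d (io (c * b)) - io c * d (io b) := by
        rw [map_mul, h2, h1]
        abel
      rw [mon_snoc, mul_assoc, h3, mul_sub, ← mul_assoc, ← mon_snoc]
      exact (M io d).sub_mem (mon_mem _ _ _ _) (M_mul_d _ _ _ (ih c))
  | zero => rw [zero_mul]; exact (M io d).zero_mem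
  | add y z _ _ hy hz => rw [add_mul]; exact (M io d).add_mem hy hz
  | neg y _ hy => rw [neg_mul]; exact (M io d).neg_mem hy

lemma M_mul (h1 : ∀ s, ep (io s) = io s) (h2 : ∀ x y, d (x * y) = d x * y + ep x * d y)
    {x y : Ω} (hx : x ∈ M io d) (hy : y ∈ M io d) : x * y ∈ M io d := by
  induction hy using AddSubgroup.closure_induction with
  | mem y hy =>
    obtain ⟨a, l, rfl⟩ := hy
    induction l using List.reverseRecOn with
    | nil =>
      have : mon io d a [] = io a := by simp [mon]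
      rw [this]
      exact M_mul_io h1 h2 _ hx
    | append_singleton l c ih =>
      rw [mon_snoc, ← mul_assoc]
      exact M_mul_d _ _ _ ih
  | zero => rw [mul_zero]; exact (M io d).zero_mem
  | add y z _ _ hy hz => rw [mul_add]; exact (M io d).add_mem hy hz
  | neg y _ hy => rw [mul_neg]; exact (M io d).neg_mem hy

/-- The subring. -/
def Sb (h1 : ∀ s, ep (io s) = io s) (h2 : ∀ x y, d (x * y) = d x * y + ep x * d y) :
    Subring Ω where
  carrier := M io d
  mul_mem' hx hy := M_mul h1 h2 hx hy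
  one_mem' := by
    have : (1 : Ω) = mon io d 1 [] := by simp [mon]
    rw [this]
    exact mon_mem _ _ _ _
  add_mem' hx hy := (M io d).add_mem hx hy
  zero_mem' := (M io d).zero_mem
  neg_mem' hx := (M io d).neg_mem hx

lemma d_one (h2 : ∀ x y, d (x * y) = d x * y + ep x * d y) : d 1 = 0 := by
  have := h2 1 1
  rw [mul_one, mul_one, map_one ep, one_mul] at this
  exact left_eq_add.1 this

lemma d_prod (h2 : ∀ x y, d (x * y) = d x * y + ep x * d y) (h3 : ∀ x, d (d x) = 0)
    (l : List S) : d (l.map fun s => d (io s)).prod = 0 := by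
  induction l with
  | nil => simpa using d_one h2
  | cons c l ih => rw [List.map_cons, List.prod_cons, h2, h3, ih, zero_mul, mul_zero, add_zero]

lemma d_mem (h1 : ∀ s, ep (io s) = io s) (h2 : ∀ x y, d (x * y) = d x * y + ep x * d y)
    (h3 : ∀ x, d (d x) = 0) {x : Ω} (hx : x ∈ Sb h1 h2) : d x ∈ Sb h1 h2 := by
  change x ∈ M io d at hx
  change d x ∈ M io d
  induction hx using AddSubgroup.closure_induction with
  | mem y hy =>
    obtain ⟨a, l, rfl⟩ := hy
    have : d (mon io d a l) = mon io d 1 (a :: l) := by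
      simp only [mon, List.map_cons, List.prod_cons, map_one, one_mul]
      rw [h2, d_prod h2 h3, mul_zero, add_zero]
    rw [this]
    exact mon_mem _ _ _ _
  | zero => rw [map_zero]; exact (M io d).zero_mem
  | add y z _ _ hy hz => rw [map_add]; exact (M io d).add_mem hy hz
  | neg y _ hy => rw [map_neg]; exact (M io d).neg_mem hy

end RLSM

theorem specRLS : SpecRLS.{u, v, w} := by
  intro S₀ S₁ S₂ Ω₀ Ω₁ Ω₂ H _ _ _ _ _ _ _ τ₀ τ₁ τ₂ X₀ X₁ X₂ lam₀ lam₁ lam₂ ep₀ ep₁ ep₂ d₀ d₁ d₂
    I₀ I₁ I₂ o₀ o₁ o₂ Rs k₁ k₂ hX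
  let io : Rs →+* Ω₀ × Ω₁ × Ω₂ := (lam₀.prodMap (lam₁.prodMap lam₂)).comp Rs.subtype
  let ep : Ω₀ × Ω₁ × Ω₂ →+* Ω₀ × Ω₁ × Ω₂ := ep₀.prodMap (ep₁.prodMap ep₂)
  let d : Ω₀ × Ω₁ × Ω₂ →+ Ω₀ × Ω₁ × Ω₂ := d₀.prodMap (d₁.prodMap d₂)
  have h1 : ∀ s, ep (io s) = io s := fun s =>
    Prod.ext (o₀.ep_lam _) (Prod.ext (o₁.ep_lam _) (o₂.ep_lam _))
  have h2 : ∀ x y, d (x * y) = d x * y + ep x * d y := fun x y =>
    Prod.ext (o₀.d_mul _ _) (Prod.ext (o₁.d_mul _ _) (o₂.d_mul _ _))
  have h3 : ∀ x, d (d x) = 0 := fun x =>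
    Prod.ext (o₀.d_d _) (Prod.ext (o₁.d_d _) (o₂.d_d _))
  refine ⟨RLSM.Sb h1 h2, ?_, ?_, ?_⟩
  · intro s hs
    change _ ∈ RLSM.M io d
    have : (lam₀ s.1, lam₁ s.2.1, lam₂ s.2.2) = RLSM.mon io d ⟨s, hs⟩ [] := by
      simp only [RLSM.mon, List.map_nil, List.prod_nil, mul_one]
      rfl
    rw [this]
    exact RLSM.mon_mem _ _ _ _
  · intro x hx
    exact RLSM.d_mem h1 h2 h3 hx
  · intro x hx
    change x ∈ RLSM.M io d at hx
    induction hx using AddSubgroup.closure_induction with
    | mem y hy =>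
      obtain ⟨a, l, rfl⟩ := hy
      have e0 : (RLSM.mon io d a l).1 =
          lam₀ a.1.1 * ((l.map fun s => s.1.1).map fun s => d₀ (lam₀ s)).prod := by
        simp only [RLSM.mon, Prod.fst_mul, List.map_map]
        congr 1
        rw [← RingHom.coe_fst (R := Ω₀) (S := Ω₁ × Ω₂), map_list_prod, List.map_map]
        rfl
      have e1 : (RLSM.mon io d a l).2.1 =
          lam₁ a.1.2.1 * ((l.map fun s => s.1.2.1).map fun s => d₁ (lam₁ s)).prod := by
        simp only [RLSM.mon, Prod.fst_mul, Prod.snd_mul, List.map_map]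
        congr 1
        have := map_list_prod ((RingHom.fst Ω₁ Ω₂).comp (RingHom.snd Ω₀ (Ω₁ × Ω₂)))
          (l.map fun s => d (io s))
        rw [List.map_map] at this
        exact this
      have e2 : (RLSM.mon io d a l).2.2 =
          lam₂ a.1.2.2 * ((l.map fun s => s.1.2.2).map fun s => d₂ (lam₂ s)).prod := by
        simp only [RLSM.mon, Prod.snd_mul, List.map_map]
        congr 1
        have := map_list_prod ((RingHom.snd Ω₁ Ω₂).comp (RingHom.snd Ω₀ (Ω₁ × Ω₂)))
          (l.map fun s => d (io s))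
        rw [List.map_map] at this
        exact this
      rw [e0, e1, e2, o₀.val, o₁.val, o₂.val]
      have := hX (a.1 :: l.map fun s => s.1) (by
        intro s hs
        rcases List.mem_cons.1 hs with rfl | hs
        · exact a.2
        · obtain ⟨t, -, rfl⟩ := List.mem_map.1 hs
          exact t.2)
      simp only [List.map_cons, List.map_map] at this
      exact this
    | zero => simp
    | add y z _ _ hy hz =>
      simp only [Prod.fst_add, Prod.snd_add, map_add, smul_add, hy, hz]
      abel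
    | neg y _ hy =>
      simp only [Prod.fst_neg, Prod.snd_neg, map_neg, smul_neg, hy]
      abel

end Pool.Agent.Lib.MPb6f35e.KA
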