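import Pool.Agent.Lib.MP_b6f35e_al.KA.SpecA

/-!
# MP_b6f35e_al, KA: module RR (helper21)
-/

set_option autoImplicit false

noncomputable section

namespace Pool.Agent.Lib.MPb6f35e.KA

universe u v w x

namespace RRM

variable {X : Type u} {Ω : Type v} [Ring Ω]

theorem alt_add (F F' : List X → Ω) (l : List X) :
    alt (fun l => F l + F' l) l = alt F l + alt F' l := by
  induction l generalizing F F' with
  | nil => exact (add_zero 0).symm
  | cons x l ih =>
    show F l + F' l - alt (fun l' => F (x :: l') + F' (x :: l')) l =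
      F l - alt (fun l' => F (x :: l')) l + (F' l - alt (fun l' => F' (x :: l')) l)
    rw [ih (fun l' => F (x :: l')) (fun l' => F' (x :: l'))]
    abel

theorem alt_sub (F F' : List X → Ω) (l : List X) :
    alt (fun l => F l - F' l) l = alt F l - alt F' l := by
  induction l generalizing F F' with
  | nil => exact (sub_zero 0).symm
  | cons x l ih =>
    show F l - F' l - alt (fun l' => F (x :: l') - F' (x :: l')) l =
      F l - alt (fun l' => F (x :: l')) l - (F' l - alt (fun l' => F' (x :: l')) l)
    rw [ih (fun l' => F (x :: l')) (fun l' => F' (x :: l'))]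
    abel

theorem alt_mul (c : Ω) (F : List X → Ω) (l : List X) :
    alt (fun l => c * F l) l = c * alt F l := by
  induction l generalizing F with
  | nil => exact (mul_zero c).symm
  | cons x l ih =>
    show c * F l - alt (fun l' => c * F (x :: l')) l = c * (F l - alt (fun l' => F (x :: l')) l)
    rw [ih (fun l' => F (x :: l')), mul_sub]

theorem alt_two (F : List X → Ω) (x y : X) (l : List X) :
    alt F (x :: y :: l) = F (y :: l) - F (x :: l) + alt (fun l' => F (x :: y :: l')) l := by
  show F (y :: l) - (F (x :: l) - alt (fun l' => F (x :: y :: l')) l) = _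
  abel

theorem alt_cons (F : List X → Ω) (x : X) (l : List X) :
    alt (fun l' => F (x :: l')) l = F l - alt F (x :: l) := by
  show _ = F l - (F l - alt (fun l' => F (x :: l')) l)
  abel

/-- `L` of (5). -/
def LL (w r : X → Ω) : List X → Ω
  | [] => 0
  | x :: l => w x * rr w r (x :: l)

/-- `V` of (6). -/
def VV (w : X → Ω) : List X → Ω
  | [] => 0
  | x :: l => (-1 : ℤ) ^ l.length • (pw w (x :: l) * w (lst x l))

/-- `L'` of (7). -/
def LM (w r : X → Ω) : List X → Ω
  | [] => 0
  | x :: l => (-1 : ℤ) ^ l.length • (rr w r (x :: l) * w (lst x l))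

/-- `F` of (3). -/
def FF (d : Ω →+ Ω) (w r : X → Ω) : List X → Ω
  | [] => 0
  | [_] => 0
  | x :: y :: l => (w y - w x) * FF d w r (y :: l) +
      (d (r y - r x) - w x * (r y - r x) + (r y - r x) * w y) * pw w (y :: l)

theorem pw_two (w : X → Ω) (x y : X) (l : List X) :
    pw w (x :: y :: l) = (w y - w x) * pw w (y :: l) := rfl

theorem rr_two (w r : X → Ω) (x y : X) (l : List X) :
    rr w r (x :: y :: l) = r x * ((w y - w x) * pw w (y :: l)) + (w y - w x) * rr w r (y :: l) :=
  rfl

theorem VV_two (w : X → Ω) (x y : X) (l : List X) :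
    VV w (x :: y :: l) = -((w y - w x) * VV w (y :: l)) := by
  show (-1 : ℤ) ^ (l.length + 1) • ((w y - w x) * pw w (y :: l) * w (lst y l)) =
    -((w y - w x) * ((-1 : ℤ) ^ l.length • (pw w (y :: l) * w (lst y l))))
  rw [pow_succ, mul_neg_one, neg_smul, mul_smul_comm, mul_assoc]

theorem LM_two (w r : X → Ω) (x y : X) (l : List X) :
    LM w r (x :: y :: l) =
      -(r x * ((w y - w x) * VV w (y :: l))) - (w y - w x) * LM w r (y :: l) := by
  show (-1 : ℤ) ^ (l.length + 1) • ((r x * ((w y - w x) * pw w (y :: l)) +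
      (w y - w x) * rr w r (y :: l)) * w (lst y l)) =
    -(r x * ((w y - w x) * ((-1 : ℤ) ^ l.length • (pw w (y :: l) * w (lst y l))))) -
      (w y - w x) * ((-1 : ℤ) ^ l.length • (rr w r (y :: l) * w (lst y l)))
  rcases neg_one_pow_eq_or ℤ l.length with h | h <;> rw [pow_succ, h] <;> simp only [one_mul,
    neg_smul, one_smul, neg_mul, neg_neg] <;> noncomm_ring

section PWs

variable (w r : X → Ω) (hP : ∀ l, alt (pw w) l = 0)

include hP

theorem alt_pw (y : X) (l : List X) : alt (fun l' => pw w (y :: l')) l = pw w l := by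
  rw [alt_cons, hP, sub_zero]

/-- (1) -/
theorem D_two (x y : X) (l : List X) :
    alt (rr w r) (x :: y :: l) =
      (r y - r x) * pw w (y :: l) - (w y - w x) * alt (rr w r) (y :: l) := by
  rw [alt_two]
  have e : alt (fun l' => rr w r (x :: y :: l')) l =
      r x * ((w y - w x) * pw w l) + (w y - w x) * (rr w r l - alt (rr w r) (y :: l)) := by
    have e1 : (fun l' => rr w r (x :: y :: l')) = fun l' =>
        r x * ((w y - w x) * pw w (y :: l')) + (w y - w x) * rr w r (y :: l') := rfl
    rw [e1, alt_add (fun l' => r x * ((w y - w x) * pw w (y :: l')))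
      (fun l' => (w y - w x) * rr w r (y :: l')), alt_mul (r x), alt_mul (w y - w x),
      alt_mul (w y - w x), alt_pw w hP, alt_cons (rr w r) y l]
  rw [e]
  cases l with
  | nil =>
    show r y - r x + (r x * ((w y - w x) * 0) + (w y - w x) * (0 - alt (rr w r) [y])) =
      (r y - r x) * 1 - (w y - w x) * alt (rr w r) [y]
    noncomm_ring
  | cons z l =>
    rw [rr_two w r y z l, rr_two w r x z l, pw_two w y z l]
    noncomm_ring

/-- (6) -/
theorem V_alt (x y : X) (l : List X) : alt (VV w) (x :: y :: l) = pw w (x :: y :: l) := by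
  have key : ∀ (x y : X) (l : List X), alt (VV w) (x :: y :: l) =
      VV w (y :: l) - VV w (x :: l) - (w y - w x) * (VV w l - alt (VV w) (y :: l)) := by
    intro x y l
    rw [alt_two]
    have e1 : (fun l' => VV w (x :: y :: l')) = fun l' => (-(w y - w x)) * VV w (y :: l') := by
      funext l'
      rw [VV_two, neg_mul]
    rw [e1, alt_mul, alt_cons (VV w) y l]
    noncomm_ring
  induction l generalizing x y with
  | nil =>
    rw [key]
    have e0 : alt (VV w) [y] = 0 := sub_zero 0
    have e1 : ∀ z, VV w [z] = w z := by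
      intro z
      show (-1 : ℤ) ^ 0 • ((1 : Ω) * w z) = w z
      rw [pow_zero, one_smul, one_mul]
    have e2 : VV w [] = 0 := rfl
    rw [e0, e1, e1, e2, pw_two]
    show _ = (w y - w x) * 1
    noncomm_ring
  | cons z l ih =>
    rw [key, ih, VV_two w y z l, VV_two w x z l, pw_two w x y]
    noncomm_ring

/-- (7) -/
theorem L_alt (x : X) (l : List X) : alt (LM w r) (x :: l) =
    rr w r (x :: l) - pw w (x :: l) * r (lst x l) -
      (-1 : ℤ) ^ l.length • (alt (rr w r) (x :: l) * w (lst x l)) := by
  have key : ∀ (x y : X) (l : List X), alt (LM w r) (x :: y :: l) =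
      LM w r (y :: l) - LM w r (x :: l) -
        r x * ((w y - w x) * (VV w l - alt (VV w) (y :: l))) -
        (w y - w x) * (LM w r l - alt (LM w r) (y :: l)) := by
    intro x y l
    rw [alt_two]
    have e1 : (fun l' => LM w r (x :: y :: l')) = fun l' =>
        (-(r x * (w y - w x))) * VV w (y :: l') - (w y - w x) * LM w r (y :: l') := by
      funext l'
      rw [LM_two]
      noncomm_ring
    rw [e1, alt_sub (fun l' => (-(r x * (w y - w x))) * VV w (y :: l'))
      (fun l' => (w y - w x) * LM w r (y :: l')), alt_mul, alt_mul, alt_cons (VV w) y l,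
      alt_cons (LM w r) y l]
    noncomm_ring
  have h0 : ∀ z, alt (LM w r) [z] = 0 := fun z => sub_zero 0
  have h1 : ∀ z, alt (rr w r) [z] = 0 := fun z => sub_zero 0
  have h2 : ∀ z, alt (VV w) [z] = 0 := fun z => sub_zero 0
  induction l generalizing x with
  | nil =>
    rw [h0, h1]
    show 0 = r x - 1 * r x - (-1 : ℤ) ^ 0 • ((0 : Ω) * w x)
    rw [zero_mul, smul_zero, one_mul, sub_self, sub_zero]
  | cons y l ih =>
    cases l with
    | nil =>
      rw [key, h0, h2, D_two w r hP, h1]
      have e1 : ∀ z, LM w r [z] = r z * w z := by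
        intro z
        show (-1 : ℤ) ^ 0 • (r z * w z) = r z * w z
        rw [pow_zero, one_smul]
      have e2 : VV w [] = 0 := rfl
      have e3 : LM w r [] = 0 := rfl
      rw [e1, e1, e2, e3, rr_two, pw_two]
      show r y * w y - r x * w x - r x * ((w y - w x) * (0 - 0)) - (w y - w x) * (0 - 0) =
        r x * ((w y - w x) * 1) + (w y - w x) * r y - (w y - w x) * 1 * r y -
          (-1 : ℤ) ^ 1 • (((r y - r x) * 1 - (w y - w x) * 0) * w y)
      rw [pow_one, neg_smul, one_smul]
      noncomm_ring
    | cons z l =>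
      rw [key, ih, V_alt w hP, LM_two w r y z l, LM_two w r x z l, D_two w r hP x y (z :: l),
        rr_two w r x y, pw_two w x y]
      have eV : VV w (z :: l) = (-1 : ℤ) ^ l.length • (pw w (z :: l) * w (lst z l)) := rfl
      have el1 : lst x (y :: z :: l) = lst z l := rfl
      have el2 : lst y (z :: l) = lst z l := rfl
      have en1 : (y :: z :: l).length = l.length + 1 + 1 := rfl
      have en2 : (z :: l).length = l.length + 1 := rfl
      rw [eV, el1, el2, en1, en2, pw_two w y z l]
      rcases neg_one_pow_eq_or ℤ l.length with h | h <;>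
        simp only [pow_succ, h, one_mul, mul_one, mul_neg, neg_smul, one_smul, neg_mul,
          neg_neg] <;> noncomm_ring

end PWs

section Dif

variable (ep : Ω →+* Ω) (d : Ω →+ Ω) (hd : ∀ a b, d (a * b) = d a * b + ep a * d b)
  (w r n : X → Ω) (hw : ∀ x, ep (w x) = - w x) (hdw : ∀ x, d (w x) = w x * w x)
  (hr : ∀ x, ep (r x) = r x) (hn : ∀ x, n x = d (r x) + r x * w x - w x * r x)
  (hP : ∀ l, alt (pw w) l = 0)

include hd

theorem d_one : d 1 = 0 := by
  have h := hd 1 1
  rw [mul_one, map_one ep, mul_one, one_mul] at h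
  exact (left_eq_add.1 h)

include hw hdw

/-- (2) -/
theorem d_pw (x : X) (l : List X) : d (pw w (x :: l)) =
    w x * pw w (x :: l) - (-1 : ℤ) ^ l.length • (pw w (x :: l) * w (lst x l)) := by
  induction l generalizing x with
  | nil =>
    show d 1 = w x * 1 - (-1 : ℤ) ^ 0 • (1 * w x)
    rw [d_one ep d hd, pow_zero, one_smul, mul_one, one_mul, sub_self]
  | cons y l ih =>
    have el : lst x (y :: l) = lst y l := rfl
    have en : (y :: l).length = l.length + 1 := rfl
    rw [pw_two, hd, ih, map_sub, map_sub, hdw, hdw, hw, hw, el, en]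
    rcases neg_one_pow_eq_or ℤ l.length with h | h <;> rw [pow_succ, h] <;>
      simp only [one_mul, neg_smul, one_smul, neg_mul, neg_neg] <;> noncomm_ring

include hr hP

/-- (4) -/
theorem d_D (x : X) (l : List X) : d (alt (rr w r) (x :: l)) =
    FF d w r (x :: l) + w x * alt (rr w r) (x :: l) +
      (-1 : ℤ) ^ l.length • (alt (rr w r) (x :: l) * w (lst x l)) := by
  induction l generalizing x with
  | nil =>
    have h1 : alt (rr w r) [x] = 0 := sub_zero 0
    have h2 : FF d w r [x] = 0 := rfl
    rw [h1, h2, map_zero, mul_zero, zero_mul, smul_zero, add_zero, add_zero]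
  | cons y l ih =>
    have el : lst x (y :: l) = lst y l := rfl
    have en : (y :: l).length = l.length + 1 := rfl
    have eF : FF d w r (x :: y :: l) = (w y - w x) * FF d w r (y :: l) +
      (d (r y - r x) - w x * (r y - r x) + (r y - r x) * w y) * pw w (y :: l) := rfl
    rw [D_two w r hP, map_sub, hd, hd, ih, d_pw ep d hd w hw hdw, map_sub ep (r y), hr, hr,
      map_sub d (w y), hdw, hdw, map_sub ep (w y), hw, hw, el, en, eF]
    rcases neg_one_pow_eq_or ℤ l.length with h | h <;> rw [pow_succ, h] <;>
      simp only [one_mul, neg_smul, one_smul, neg_mul, neg_neg] <;> noncomm_ring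

end Dif

/-- (3) -/
theorem px_eq (d : Ω →+ Ω) (w r n : X → Ω) (hn : ∀ x, n x = d (r x) + r x * w x - w x * r x)
    (x : X) (l : List X) :
    px w w n (x :: l) = FF d w r (x :: l) + r x * pw w (x :: l) - pw w (x :: l) * r (lst x l) := by
  induction l generalizing x with
  | nil =>
    show (0 : Ω) = 0 + r x * 1 - 1 * r x
    rw [zero_add, mul_one, one_mul, sub_self]
  | cons y l ih =>
    have el : lst x (y :: l) = lst y l := rfl
    have eF : FF d w r (x :: y :: l) = (w y - w x) * FF d w r (y :: l) +
      (d (r y - r x) - w x * (r y - r x) + (r y - r x) * w y) * pw w (y :: l) := rfl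
    have eP : px w w n (x :: y :: l) = (w y - w x) * px w w n (y :: l) +
      (n y - n x) * pw w (y :: l) := rfl
    rw [eP, ih, eF, el, hn, hn, pw_two, map_sub]
    noncomm_ring

/-- (5) -/
theorem LL_alt (w r : X → Ω) (x y : X) (l : List X) : alt (LL w r) (x :: y :: l) =
    rr w r (x :: y :: l) - r x * pw w (x :: y :: l) + w x * alt (rr w r) (x :: y :: l) := by
  have e : alt (LL w r) (x :: y :: l) = LL w r (y :: l) -
      alt (fun l' => w x * rr w r (x :: l')) (y :: l) := rfl
  have e2 : LL w r (y :: l) = w y * rr w r (y :: l) := rfl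
  rw [e, alt_mul (w x) (fun l' => rr w r (x :: l')), alt_cons (rr w r) x (y :: l), e2,
    rr_two, pw_two]
  noncomm_ring

theorem g0_alt (w r : X → Ω) (l : List X) :
    alt (g0E w r) l = alt (LM w r) l - alt (LL w r) l := by
  rw [← alt_sub]
  congr 1
  funext l'
  cases l' with
  | nil => exact (sub_zero 0).symm
  | cons x l' => rfl

end RRM

open RRM in
theorem specRR (_hALT : SpecALT.{u, v, w}) (hPW : SpecPW.{u, v, w}) : SpecRR.{u, v} := by
  intro X Ω _ ep d hd w r n hw hdw hr hn l
  have hP : ∀ l, alt (pw w) l = 0 := hPW.pw X Ω w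
  cases l with
  | nil =>
    show (0 : Ω) = d 0 + 0
    rw [map_zero, add_zero]
  | cons x l =>
    cases l with
    | nil =>
      have h1 : alt (rr w r) [x] = 0 := sub_zero 0
      have h2 : alt (g0E w r) [x] = 0 := sub_zero 0
      rw [h1, h2, map_zero, add_zero]
      rfl
    | cons y l =>
      rw [px_eq d w r n hn, d_D ep d hd w r hw hdw hr hP, g0_alt, L_alt w r hP, LL_alt]
      abel

end Pool.Agent.Lib.MPb6f35e.KA
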