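import Pool.Agent.Lib.MP_b6f35e_al.KA.SpecD

/-!
# Module SEC: sections compatible with a conjugation
-/

set_option autoImplicit false

noncomputable section

namespace Pool.Agent.Lib.MPb6f35e.KA

universe u

namespace SECM

/-- `h` and `h'` are conjugate by a power of `t`. -/
def rel {W : Type u} [Group W] (t : W) : Setoid W where
  r h h' := ∃ j : ℤ, t ^ j * h * (t ^ j)⁻¹ = h'
  iseqv :=
    { refl := fun h => ⟨0, by simp⟩
      symm := by
        rintro h h' ⟨j, rfl⟩
        exact ⟨-j, by group⟩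
      trans := by
        rintro h h' h'' ⟨j, rfl⟩ ⟨k, rfl⟩
        exact ⟨k + j, by group⟩ }

/-- the representative -/
def rep {W : Type u} [Group W] (t h : W) : W := Quotient.out (Quotient.mk (rel t) h)

lemma rep_spec {W : Type u} [Group W] (t h : W) :
    ∃ j : ℤ, t ^ j * rep t h * (t ^ j)⁻¹ = h := Quotient.mk_out (s := rel t) h

lemma rep_conj {W : Type u} [Group W] (t h : W) : rep t (t * h * t⁻¹) = rep t h := by
  unfold rep
  have : Quotient.mk (rel t) (t * h * t⁻¹) = Quotient.mk (rel t) h := by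
    apply Quotient.sound
    exact ⟨-1, by group⟩
  rw [this]

end SECM

open SECM in
theorem specSEC : SpecSEC.{u} := by
  intro W _ N _ t c ht
  classical
  choose j hj using fun h : W => rep_spec t h
  have hcj : ∀ h : W, (∃ z, z * c * z⁻¹ = h) → ∃ z, z * c * z⁻¹ = rep t h := by
    rintro h ⟨z, hz⟩
    refine ⟨(t ^ (j h))⁻¹ * z, ?_⟩
    have h1 : (t ^ (j h))⁻¹ * z * c * ((t ^ (j h))⁻¹ * z)⁻¹
        = (t ^ (j h))⁻¹ * (z * c * z⁻¹) * t ^ (j h) := by group
    rw [h1, hz]
    calc (t ^ (j h))⁻¹ * h * t ^ (j h)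
        = (t ^ (j h))⁻¹ * (t ^ (j h) * rep t h * (t ^ (j h))⁻¹) * t ^ (j h) := by rw [hj h]
      _ = rep t h := by group
  let σ : W → W := fun x => if hx : ∃ z, z * c * z⁻¹ = x then hx.choose else 1
  have hσ : ∀ x, (∃ z, z * c * z⁻¹ = x) → σ x * c * (σ x)⁻¹ = x := by
    intro x hx
    have h1 : σ x = hx.choose := dif_pos hx
    rw [h1]
    exact hx.choose_spec
  refine ⟨fun h => t ^ (j h) * σ (rep t h), ?_, ?_⟩
  · intro h hh
    have h1 := hσ _ (hcj h hh)
    calc t ^ (j h) * σ (rep t h) * c * (t ^ (j h) * σ (rep t h))⁻¹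
        = t ^ (j h) * (σ (rep t h) * c * (σ (rep t h))⁻¹) * (t ^ (j h))⁻¹ := by group
      _ = h := by rw [h1, hj h]
  · intro h hh
    have hs := hσ _ (hcj h hh)
    set x := rep t h with hx
    set y := σ x with hy
    have hr : rep t (t * h * t⁻¹) = x := rep_conj t h
    have hj1 := hj h
    have hj2 := hj (t * h * t⁻¹)
    rw [hr] at hj2
    rw [← hx] at hj1
    set a := j h with ha
    set b := j (t * h * t⁻¹) with hb
    -- the power of `t` commutes with `x`
    have hcomm : t ^ (b - a - 1) * x = x * t ^ (b - a - 1) := by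
      have e1 : t ^ b * x * (t ^ b)⁻¹ = t ^ (a + 1) * x * (t ^ (a + 1))⁻¹ := by
        rw [hj2]
        nth_rewrite 1 [← hj1]
        group
      have e2 : x = (t ^ (a + 1))⁻¹ * (t ^ b * x * (t ^ b)⁻¹) * t ^ (a + 1) := by
        rw [e1]; group
      have e3 : x = t ^ (b - a - 1) * x * (t ^ (b - a - 1))⁻¹ := by
        nth_rewrite 1 [e2]
        group
      nth_rewrite 2 [e3]
      group
    have hc : c = y⁻¹ * x * y := by
      rw [← hs]; group
    refine ⟨y⁻¹ * t ^ (b - a - 1) * y, ?_, ?_, ?_⟩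
    · rw [hc]
      calc y⁻¹ * t ^ (b - a - 1) * y * (y⁻¹ * x * y)
          = y⁻¹ * (t ^ (b - a - 1) * x) * y := by group
        _ = y⁻¹ * (x * t ^ (b - a - 1)) * y := by rw [hcomm]
        _ = y⁻¹ * x * y * (y⁻¹ * t ^ (b - a - 1) * y) := by group
    · have e : y⁻¹ * t ^ (b - a - 1) * y = y⁻¹ * t ^ (b - a - 1) * (y⁻¹)⁻¹ := by group
      rw [e, conj_pow, ← zpow_natCast, ← zpow_mul, mul_comm, zpow_mul, zpow_natCast, ht]
      simp
    · simp only [hr]
      rw [← hb, ← hy]
      have e : t * (t ^ a * y) * (y⁻¹ * t ^ (b - a - 1) * y) = t ^ b * y := by group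
      exact e.symm

end Pool.Agent.Lib.MPb6f35e.KA
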