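import Pool.Agent.Lib.MP_b6f35e_al.KA.SpecA

/-!
# MP_b6f35e_al, KA: module TB (helper46)
-/

set_option autoImplicit false

noncomputable section

namespace Pool.Agent.Lib.MPb6f35e.KA

universe u v w x

namespace TBM

section Gen

variable {X : Type u}

theorem alt_map {M : Type v} {M' : Type w} [AddCommGroup M] [AddCommGroup M'] (f : M →+ M')
    (F : List X → M) (l : List X) : alt (fun l => f (F l)) l = f (alt F l) := by
  induction l generalizing F with
  | nil => exact (map_zero f).symm
  | cons x l ih =>
    show f (F l) - alt (fun l' => f (F (x :: l'))) l = f (F l - alt (fun l' => F (x :: l')) l)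
    rw [ih (fun l' => F (x :: l')), map_sub]

variable {Ω : Type v} [Ring Ω]

theorem alt_add (F F' : List X → Ω) (l : List X) :
    alt (fun l => F l + F' l) l = alt F l + alt F' l := by
  induction l generalizing F F' with
  | nil => exact (add_zero 0).symm
  | cons x l ih =>
    show F l + F' l - alt (fun l' => F (x :: l') + F' (x :: l')) l =
      F l - alt (fun l' => F (x :: l')) l + (F' l - alt (fun l' => F' (x :: l')) l)
    rw [ih (fun l' => F (x :: l')) (fun l' => F' (x :: l'))]
    abel

theorem alt_sub (F F' : List X → Ω) (l : List X) :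
    alt (fun l => F l - F' l) l = alt F l - alt F' l := by
  induction l generalizing F F' with
  | nil => exact (sub_zero 0).symm
  | cons x l ih =>
    show F l - F' l - alt (fun l' => F (x :: l') - F' (x :: l')) l =
      F l - alt (fun l' => F (x :: l')) l - (F' l - alt (fun l' => F' (x :: l')) l)
    rw [ih (fun l' => F (x :: l')) (fun l' => F' (x :: l'))]
    abel

theorem alt_mul (c : Ω) (F : List X → Ω) (l : List X) :
    alt (fun l => c * F l) l = c * alt F l :=
  alt_map (AddMonoidHom.mulLeft c) F l

theorem alt_mul_right (c : Ω) (F : List X → Ω) (l : List X) :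
    alt (fun l => F l * c) l = alt F l * c :=
  alt_map (AddMonoidHom.mulRight c) F l

theorem alt_two (F : List X → Ω) (x y : X) (l : List X) :
    alt F (x :: y :: l) = F (y :: l) - F (x :: l) + alt (fun l' => F (x :: y :: l')) l := by
  show F (y :: l) - (F (x :: l) - alt (fun l' => F (x :: y :: l')) l) = _
  abel

theorem alt_cons (F : List X → Ω) (x : X) (l : List X) :
    alt (fun l' => F (x :: l')) l = F l - alt F (x :: l) := by
  show _ = F l - (F l - alt (fun l' => F (x :: l')) l)
  abel

/-- `P` times the last value -/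
def PL (w : X → Ω) : List X → Ω
  | [] => 0
  | x :: l => pw w (x :: l) * w (lst x l)

/-- `so` times the first value -/
def SF (σ : ℤ) (w : X → Ω) (r : Ω) : List X → Ω
  | [] => 0
  | x :: l => so σ w r (x :: l) * w x

/-- `so` times the last value -/
def SL (σ : ℤ) (w : X → Ω) (r : Ω) : List X → Ω
  | [] => 0
  | x :: l => so σ w r (x :: l) * w (lst x l)

theorem pw_two (w : X → Ω) (x y : X) (l : List X) :
    pw w (x :: y :: l) = (w y - w x) * pw w (y :: l) := rfl

theorem ss_two (σ : ℤ) (w : X → Ω) (r : Ω) (x y : X) (l : List X) :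
    ss σ w r (x :: y :: l) =
      r * ((w y - w x) * pw w (y :: l)) + σ • ((w y - w x) * ss σ w r (y :: l)) := rfl

theorem so_two (σ : ℤ) (w : X → Ω) (r : Ω) (x y : X) (l : List X) :
    so σ w r (x :: y :: l) =
      r * w x * ((w y - w x) * pw w (y :: l)) - σ • ((w y - w x) * so σ w r (y :: l)) := rfl

theorem PL_two (w : X → Ω) (x y : X) (l : List X) :
    PL w (x :: y :: l) = (w y - w x) * PL w (y :: l) := by
  show (w y - w x) * pw w (y :: l) * w (lst y l) = (w y - w x) * (pw w (y :: l) * w (lst y l))
  rw [mul_assoc]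

theorem SL_two (σ : ℤ) (w : X → Ω) (r : Ω) (x y : X) (l : List X) :
    SL σ w r (x :: y :: l) =
      r * w x * (w y - w x) * PL w (y :: l) - σ • ((w y - w x) * SL σ w r (y :: l)) := by
  show (r * w x * ((w y - w x) * pw w (y :: l)) - σ • ((w y - w x) * so σ w r (y :: l))) *
      w (lst y l) = r * w x * (w y - w x) * (pw w (y :: l) * w (lst y l)) -
        σ • ((w y - w x) * (so σ w r (y :: l) * w (lst y l)))
  rw [sub_mul, smul_mul_assoc]
  simp only [mul_assoc]

variable (σ : ℤ) (w : X → Ω) (r : Ω) (hP : ∀ l, alt (pw w) l = 0)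

include hP

theorem alt_pw (y : X) (l : List X) : alt (fun l' => pw w (y :: l')) l = pw w l := by
  rw [alt_cons, hP, sub_zero]

theorem alt_ss_cons (x : X) (l : List X) : alt (fun l' => ss σ w r (x :: l')) l = ss σ w r l := by
  induction l generalizing x with
  | nil => rfl
  | cons y l ih =>
    have e1 : alt (fun l' => ss σ w r (x :: l')) (y :: l) =
        ss σ w r (x :: l) - alt (fun l' => ss σ w r (x :: y :: l')) l := rfl
    have e2 : (fun l' => ss σ w r (x :: y :: l')) = fun l' =>
        r * (w y - w x) * pw w (y :: l') + σ • (w y - w x) * ss σ w r (y :: l') := by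
      funext l'
      rw [ss_two, smul_mul_assoc, mul_assoc]
    rw [e1, e2, alt_add (fun l' => r * (w y - w x) * pw w (y :: l'))
      (fun l' => σ • (w y - w x) * ss σ w r (y :: l')), alt_mul, alt_mul, alt_pw w hP, ih]
    cases l with
    | nil =>
      show r - (r * (w y - w x) * 0 + σ • (w y - w x) * 0) = r
      rw [mul_zero, mul_zero, add_zero, sub_zero]
    | cons z l =>
      rw [ss_two σ w r x z l, ss_two σ w r y z l, ← smul_mul_assoc, ← smul_mul_assoc,
        show w z - w x = (w z - w y) + (w y - w x) by abel, smul_add]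
      noncomm_ring

theorem ss_zero (l : List X) : alt (ss σ w r) l = 0 := by
  cases l with
  | nil => rfl
  | cons x l =>
    show ss σ w r l - alt (fun l' => ss σ w r (x :: l')) l = 0
    rw [alt_ss_cons σ w r hP, sub_self]

/-- (2') -/
theorem so_alt (x : X) (l : List X) : alt (so σ w r) (x :: l) =
    ss σ w r (x :: l) - σ ^ l.length • (pw w (x :: l) * r) := by
  have key : ∀ (x y : X) (l : List X), alt (so σ w r) (x :: y :: l) =
      so σ w r (y :: l) - so σ w r (x :: l) + (r * w x * (w y - w x) * pw w l -
        σ • (w y - w x) * (so σ w r l - alt (so σ w r) (y :: l))) := by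
    intro x y l
    rw [alt_two]
    have e1 : (fun l' => so σ w r (x :: y :: l')) = fun l' =>
        r * w x * (w y - w x) * pw w (y :: l') - σ • (w y - w x) * so σ w r (y :: l') := by
      funext l'
      rw [so_two, smul_mul_assoc, mul_assoc (r * w x)]
    rw [e1, alt_sub (fun l' => r * w x * (w y - w x) * pw w (y :: l'))
      (fun l' => σ • (w y - w x) * so σ w r (y :: l')), alt_mul, alt_mul, alt_pw w hP,
      alt_cons (so σ w r) y l]
  have h0 : ∀ z, alt (so σ w r) [z] = 0 := fun z => sub_zero 0
  induction l generalizing x with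
  | nil =>
    rw [h0]
    show 0 = r - σ ^ 0 • (1 * r)
    rw [pow_zero, one_smul, one_mul, sub_self]
  | cons y l ih =>
    cases l with
    | nil =>
      rw [key, h0]
      show r * w y - r * w x + (r * w x * (w y - w x) * 0 - σ • (w y - w x) * (0 - 0)) =
        r * ((w y - w x) * 1) + σ • ((w y - w x) * r) - σ ^ 1 • ((w y - w x) * 1 * r)
      rw [pow_one, sub_zero, mul_zero, mul_zero, mul_one, sub_zero, add_zero]
      rw [add_sub_cancel_right, mul_sub]
    | cons z l =>
      have en : (y :: z :: l).length = l.length + 1 + 1 := rfl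
      have en' : (z :: l).length = l.length + 1 := rfl
      rw [key, ih, so_two σ w r y z l, so_two σ w r x z l, ss_two σ w r x y, pw_two w x y,
        pw_two w y z, en, en', pow_succ' σ (l.length + 1), mul_smul,
        show w z - w x = (w z - w y) + (w y - w x) by abel]
      obtain ⟨t, ht⟩ : ∃ t, t = σ ^ (l.length + 1) := ⟨_, rfl⟩
      rw [← ht]
      obtain ⟨A, hA⟩ : ∃ A, A = w z - w y := ⟨_, rfl⟩
      obtain ⟨B, hB⟩ : ∃ B, B = w y - w x := ⟨_, rfl⟩
      have hy : w y = w x + B := by rw [hB]; abel
      rw [← hA, ← hB, hy]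
      simp only [smul_mul_assoc, mul_smul_comm, smul_sub, smul_add, mul_sub, mul_add, add_mul,
        sub_mul, mul_assoc, smul_smul, mul_comm t σ]
      abel

/-- `alt (P w_last) = ± P` -/
theorem PL_alt (x y : X) (l : List X) :
    alt (PL w) (x :: y :: l) = (-1 : ℤ) ^ l.length • pw w (x :: y :: l) := by
  have key : ∀ (x y : X) (l : List X), alt (PL w) (x :: y :: l) =
      PL w (y :: l) - PL w (x :: l) + (w y - w x) * (PL w l - alt (PL w) (y :: l)) := by
    intro x y l
    rw [alt_two]
    have e1 : (fun l' => PL w (x :: y :: l')) = fun l' => (w y - w x) * PL w (y :: l') := by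
      funext l'
      rw [PL_two]
    rw [e1, alt_mul, alt_cons (PL w) y l]
  induction l generalizing x y with
  | nil =>
    rw [key]
    have e0 : alt (PL w) [y] = 0 := sub_zero 0
    have e1 : ∀ z, PL w [z] = w z := fun z => one_mul _
    have e2 : PL w [] = 0 := rfl
    rw [e0, e1, e1, e2]
    show _ = (-1 : ℤ) ^ 0 • ((w y - w x) * 1)
    rw [pow_zero, one_smul, mul_one, sub_zero, mul_zero, add_zero]
  | cons z l ih =>
    have en : (z :: l).length = l.length + 1 := rfl
    rw [key, ih, PL_two w y z l, PL_two w x z l, pw_two w x y, en, pow_succ, mul_neg_one,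
      neg_smul, mul_sub, mul_smul_comm]
    noncomm_ring

/-- `alt (so w_last)` -/
theorem SL_alt (x y : X) (l : List X) : alt (SL σ w r) (x :: y :: l) =
    ss σ w r (x :: y :: l) * w (lst y l) + (-1 : ℤ) ^ l.length • so σ w r (x :: y :: l) := by
  have key : ∀ (x y : X) (l : List X), alt (SL σ w r) (x :: y :: l) =
      SL σ w r (y :: l) - SL σ w r (x :: l) +
        (r * w x * (w y - w x) * (PL w l - alt (PL w) (y :: l)) -
        σ • (w y - w x) * (SL σ w r l - alt (SL σ w r) (y :: l))) := by
    intro x y l
    rw [alt_two]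
    have e1 : (fun l' => SL σ w r (x :: y :: l')) = fun l' =>
        r * w x * (w y - w x) * PL w (y :: l') - σ • (w y - w x) * SL σ w r (y :: l') := by
      funext l'
      rw [SL_two, smul_mul_assoc]
    rw [e1, alt_sub (fun l' => r * w x * (w y - w x) * PL w (y :: l'))
      (fun l' => σ • (w y - w x) * SL σ w r (y :: l')), alt_mul, alt_mul,
      alt_cons (PL w) y l, alt_cons (SL σ w r) y l]
  induction l generalizing x y with
  | nil =>
    have e0 : alt (PL w) [y] = 0 := sub_zero 0
    have e1 : alt (SL σ w r) [y] = 0 := sub_zero 0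
    rw [key, e0, e1]
    show r * w y * w y - r * w x * w x + (r * w x * (w y - w x) * (0 - 0) -
      σ • (w y - w x) * (0 - 0)) = (r * ((w y - w x) * 1) + σ • ((w y - w x) * r)) * w y +
        (-1 : ℤ) ^ 0 • (r * w x * ((w y - w x) * 1) - σ • ((w y - w x) * (r * w y)))
    rw [pow_zero, one_smul]
    simp only [smul_mul_assoc, mul_smul_comm, smul_sub, smul_add, mul_sub, mul_add, add_mul,
      sub_mul, mul_assoc, mul_one, sub_zero, mul_zero]
    abel
  | cons z l ih =>
    have en : (z :: l).length = l.length + 1 := rfl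
    have el : lst y (z :: l) = lst z l := rfl
    have eP : PL w (z :: l) = pw w (z :: l) * w (lst z l) := rfl
    have eS : ∀ u, SL σ w r (u :: z :: l) = so σ w r (u :: z :: l) * w (lst z l) := fun u => rfl
    have eS' : SL σ w r (z :: l) = so σ w r (z :: l) * w (lst z l) := rfl
    rw [key, ih, PL_alt w hP, eP, eS, eS, eS', ss_two σ w r x y, so_two σ w r x y,
      so_two σ w r y z l, so_two σ w r x z l, pw_two w y z l, en, el, pow_succ, mul_neg_one,
      neg_smul, show w z - w x = (w z - w y) + (w y - w x) by abel]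
    obtain ⟨t, ht⟩ : ∃ t, t = (-1 : ℤ) ^ l.length := ⟨_, rfl⟩
    rw [← ht]
    obtain ⟨A, hA⟩ : ∃ A, A = w z - w y := ⟨_, rfl⟩
    obtain ⟨B, hB⟩ : ∃ B, B = w y - w x := ⟨_, rfl⟩
    have hy : w y = w x + B := by rw [hB]; abel
    rw [← hA, ← hB, hy]
    simp only [smul_mul_assoc, mul_smul_comm, smul_sub, smul_add, mul_sub, mul_add, add_mul,
      sub_mul, mul_assoc, smul_neg, mul_neg, neg_mul, neg_smul, smul_smul, mul_comm σ t]
    abel

theorem SF_alt (x y : X) (l : List X) : alt (SF σ w r) (x :: y :: l) =
    so σ w r (y :: l) * (w y - w x) +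
      (ss σ w r (x :: y :: l) - σ ^ (l.length + 1) • (pw w (x :: y :: l) * r)) * w x := by
  have e : alt (SF σ w r) (x :: y :: l) = so σ w r (y :: l) * w y -
      alt (fun l' => so σ w r (x :: l') * w x) (y :: l) := rfl
  have h := so_alt σ w r hP x (y :: l)
  have en : (y :: l).length = l.length + 1 := rfl
  rw [en] at h
  rw [e, alt_mul_right (w x) (fun l' => so σ w r (x :: l')), alt_cons (so σ w r) x (y :: l), h,
    mul_sub, sub_mul (so σ w r (y :: l))]
  abel

/-- the value of `alt (so fl)` -/
theorem sofl (x y : X) (l : List X) :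
    alt (fun l => so σ w r l * fl w l) (x :: y :: l) =
      ss σ w r (x :: y :: l) * fl w (x :: y :: l) +
      (so σ w r (y :: l) * (w y - w x) +
        ((-1 : ℤ) ^ l.length * σ) • ((w y - w x) * so σ w r (y :: l))) -
      (σ ^ (l.length + 1) • (pw w (x :: y :: l) * (r * w x)) +
        (-1 : ℤ) ^ l.length • (r * w x * pw w (x :: y :: l))) := by
  have e1 : (fun l => so σ w r l * fl w l) = fun l => SF σ w r l - SL σ w r l := by
    funext l'
    cases l' with
    | nil =>
      show (0 : Ω) * 0 = 0 - 0
      rw [mul_zero, sub_zero]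
    | cons z l' =>
      show so σ w r (z :: l') * (w z - w (lst z l')) =
        so σ w r (z :: l') * w z - so σ w r (z :: l') * w (lst z l')
      rw [mul_sub]
  have e2 : fl w (x :: y :: l) = w x - w (lst y l) := rfl
  rw [e1, alt_sub, SF_alt σ w r hP, SL_alt σ w r hP, e2, so_two σ w r x y, mul_sub (ss σ w r _),
    smul_sub, smul_smul, sub_mul, smul_mul_assoc, mul_assoc (pw w _), ← pw_two]
  abel

end Gen

section Par

variable {X : Type u} {Ω : Type v} [Ring Ω] (ep : Ω →+* Ω) (Z : Subring Ω)
  (w : X → Ω) (hw : ∀ x, ep (w x) = - w x)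

include hw

theorem ep_pw (x : X) (l : List X) :
    ep (pw w (x :: l)) = (-1 : ℤ) ^ l.length • pw w (x :: l) := by
  induction l generalizing x with
  | nil =>
    show ep 1 = (-1 : ℤ) ^ 0 • (1 : Ω)
    rw [map_one, pow_zero, one_smul]
  | cons y l ih =>
    have en : (y :: l).length = l.length + 1 := rfl
    rw [pw_two, map_mul, map_sub, hw, hw, ih, en, pow_succ, mul_neg_one, neg_smul, mul_smul_comm]
    rw [show - w y - - w x = -(w y - w x) by abel, neg_mul, smul_neg]

theorem ep_so (σ : ℤ) (r : Ω) (hr : ep r = σ • r) (x : X) (l : List X) :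
    ep (so σ w r (x :: l)) = ((-1 : ℤ) ^ (l.length + 1) * σ) • so σ w r (x :: l) := by
  induction l generalizing x with
  | nil =>
    show ep (r * w x) = ((-1 : ℤ) ^ (0 + 1) * σ) • (r * w x)
    rw [map_mul, hr, hw, zero_add, pow_one, neg_one_mul, neg_smul, smul_mul_assoc, mul_neg,
      smul_neg]
  | cons y l ih =>
    have en : (y :: l).length = l.length + 1 := rfl
    have h1 := ep_pw ep w hw x (y :: l)
    rw [en, pw_two] at h1
    rw [so_two, map_sub, map_mul, map_mul, hr, hw, h1, map_zsmul, map_mul, map_sub, hw, hw, ih, en,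
      pow_succ (-1 : ℤ) (l.length + 1), mul_neg_one]
    rw [show - w y - - w x = -(w y - w x) by abel]
    obtain ⟨t, ht⟩ : ∃ t, t = (-1 : ℤ) ^ (l.length + 1) := ⟨_, rfl⟩
    rw [← ht]
    simp only [smul_mul_assoc, mul_smul_comm, smul_sub, neg_mul, neg_smul, smul_smul, mul_neg,
      smul_neg]
    rw [show σ * (t * σ) = t * σ * σ by ring]

omit hw in
theorem pw_mem (l : List X) (hl : ∀ x ∈ l, w x ∈ Z) : pw w l ∈ Z := by
  induction l with
  | nil => exact Z.zero_mem
  | cons x l ih =>
    cases l with
    | nil => exact Z.one_mem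
    | cons y l =>
      rw [pw_two]
      refine Z.mul_mem (Z.sub_mem (hl y ?_) (hl x ?_)) (ih fun z hz => hl z ?_)
      · exact List.mem_cons_of_mem _ List.mem_cons_self
      · exact List.mem_cons_self
      · exact List.mem_cons_of_mem _ hz

end Par

end TBM

open TBM in
theorem specTB (_hALT : SpecALT.{u, v, w}) (hPW : SpecPW.{u, v, w}) : SpecTB.{u, v, w} where
  zero := by
    intro X Ω _ w σ r l
    exact ss_zero σ w r (hPW.pw X Ω w) l
  main := by
    intro X Ω _ H _ ep Z a ha w hw σ hσ r hr hepr l hl
    have hP : ∀ l, alt (pw w) l = 0 := hPW.pw X Ω w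
    rw [alt_map a (fun l => so σ w r l * fl w l)]
    cases l with
    | nil =>
      show a 0 = a (0 * 0)
      rw [mul_zero]
    | cons x l =>
      cases l with
      | nil =>
        show a (0 * 0 - 0) = a (r * (w x - w x))
        rw [sub_self, mul_zero, mul_zero, sub_zero]
      | cons y l =>
        have hσ2 : σ * σ = 1 := by
          rcases hσ with rfl | rfl <;> norm_num
        have hx : w x ∈ Z := hl x List.mem_cons_self
        have hy : w y ∈ Z := hl y (List.mem_cons_of_mem _ List.mem_cons_self)
        have hΔ : w y - w x ∈ Z := Z.sub_mem hy hx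
        have hepΔ : ep (w y - w x) = -(w y - w x) := by
          rw [map_sub, hw, hw]
          abel
        have h1 := ha.odd (w y - w x) hΔ hepΔ (so σ w r (y :: l))
        rw [ep_so ep w hw σ r hepr] at h1
        have hPm : pw w (x :: y :: l) ∈ Z := pw_mem Z w (x :: y :: l) hl
        have hPe := ep_pw ep w hw x (y :: l)
        have en : (y :: l).length = l.length + 1 := rfl
        rw [en] at hPe
        rw [sofl σ w r hP, map_sub, map_add, map_add, map_add, map_zsmul, map_zsmul, map_zsmul,
          h1, smul_mul_assoc, map_zsmul, smul_smul]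
        rcases neg_one_pow_eq_or ℤ l.length with h | h
        · -- `P` is odd
          rw [pow_succ, h, one_mul, neg_one_smul] at hPe
          have h2 := ha.odd _ hPm hPe (r * w x)
          have h3 : σ ^ (l.length + 1) = σ := by
            rcases hσ with rfl | rfl
            · exact one_pow _
            · rw [pow_succ, h, one_mul]
          rw [h2, h3, map_mul ep, hepr, hw, h, pow_succ, h]
          simp only [smul_mul_assoc, mul_neg, neg_mul, map_zsmul, map_neg, smul_neg, smul_smul,
            one_mul, mul_one, hσ2, one_smul, neg_smul]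
          abel
        · -- `P` is even
          rw [pow_succ, h, neg_one_mul, neg_neg, one_smul] at hPe
          have h2 := ha.even _ hPm hPe (r * w x)
          have h3 : σ ^ (l.length + 1) = 1 := by
            rcases hσ with rfl | rfl
            · exact one_pow _
            · rw [pow_succ, h]
              norm_num
          rw [h2, h3, h, pow_succ, h]
          simp only [mul_neg, neg_mul, one_mul, mul_one, hσ2, one_smul, neg_smul, neg_neg]
          abel

end Pool.Agent.Lib.MPb6f35e.KA
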