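import Pool.Agent.Lib.MP_b6f35e_al.KA.SpecG

/-!
# Rational K-theory in all degrees (MP_b6f35e_al), module TRA (helper85): consequences of the
# relations of the tensor product
-/

set_option autoImplicit false

noncomputable section

namespace Pool.Agent.Lib.MPb6f35e.KA

open Pool.Agent.Lib.MPb6f35e.WH

universe u v

namespace TRAM

variable {n : ℕ} {R : Type u} [CommRing R] {G : Type v} [Group G]

/-- Products of elements over `C` are over `C`. -/
lemma supp_mul {C : Subgroup G} {x y : MonoidAlgebra R G} (hx : Sup C x) (hy : Sup C y) :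
    Sup C (x * y) := by
  classical
  intro g hg
  have h1 : g ∈ (x * y).coeff.support := Finsupp.mem_support_iff.2 hg
  have h2 := MonoidAlgebra.support_coeff_mul_subset x y h1
  rw [Finset.mem_mul] at h2
  obtain ⟨a, ha, b, hb, hab⟩ := h2
  rw [← hab]
  exact C.mul_mem (hx a (Finsupp.mem_support_iff.1 ha)) (hy b (Finsupp.mem_support_iff.1 hb))

lemma supp_one (C : Subgroup G) : Sup C (1 : MonoidAlgebra R G) := by
  classical
  intro g hg
  by_contra h
  apply hg
  rw [MonoidAlgebra.one_def, MonoidAlgebra.coeff_single, Finsupp.single_apply, if_neg]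
  rintro rfl
  exact h C.one_mem

/-- The units over `C`. -/
def US (R : Type u) [CommRing R] {G : Type v} [Group G] (C : Subgroup G) :
    Subgroup (MonoidAlgebra R G)ˣ where
  carrier := {u | Sup C u.val ∧ Sup C u.inv}
  mul_mem' := by
    rintro a b ⟨ha, ha'⟩ ⟨hb, hb'⟩
    exact ⟨supp_mul ha hb, supp_mul hb' ha'⟩
  one_mem' := ⟨supp_one C, supp_one C⟩
  inv_mem' := by
    rintro a ⟨ha, ha'⟩
    exact ⟨ha', ha⟩

/-- The projection. -/
def mkT : FreeAbelianGroup (GenT n R G) →+ TGrp n R G :=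
  QuotientAddGroup.mk' (AddSubgroup.closure {y | RelT n R G y})

lemma mkT_zero {y : FreeAbelianGroup (GenT n R G)} (h : RelT n R G y) :
    (mkT : FreeAbelianGroup (GenT n R G) →+ TGrp n R G) y = 0 :=
  (QuotientAddGroup.eq_zero_iff _).2 (AddSubgroup.subset_closure h)

lemma mkT_of (a : GenT n R G) : (mkT : FreeAbelianGroup (GenT n R G) →+ TGrp n R G)
    (FreeAbelianGroup.of a) = D1.cls (RelT n R G) a := rfl

lemma cls_add {a b c : GenT n R G}
    (h : RelT n R G (FreeAbelianGroup.of c - FreeAbelianGroup.of a - FreeAbelianGroup.of b)) :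
    D1.cls (RelT n R G) c = D1.cls (RelT n R G) a + D1.cls (RelT n R G) b := by
  have h1 := mkT_zero h
  rw [map_sub, map_sub, mkT_of, mkT_of, mkT_of] at h1
  rw [← sub_eq_zero, ← sub_sub]
  exact h1

lemma cls_eq {a c : GenT n R G}
    (h : RelT n R G (FreeAbelianGroup.of c - FreeAbelianGroup.of a)) :
    D1.cls (RelT n R G) c = D1.cls (RelT n R G) a := by
  have h1 := mkT_zero h
  rw [map_sub, mkT_of, mkT_of] at h1
  rw [← sub_eq_zero]
  exact h1

lemma addz (a b y : GenT n R G) (h1 : a.C = y.C)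
    (h2 : b.C = y.C) (h3 : a.u = y.u) (h4 : b.u = y.u) (h5 : y.z = a.z + b.z) :
    D1.cls (RelT n R G) y = D1.cls (RelT n R G) a + D1.cls (RelT n R G) b := by
  obtain ⟨C, hC, cC, z, hz, u, hu⟩ := y
  obtain ⟨Ca, hCa, cCa, za, hza, ua, hua⟩ := a
  obtain ⟨Cb, hCb, cCb, zb, hzb, ub, hub⟩ := b
  dsimp only at h1 h2 h3 h4 h5
  subst h1
  subst h2
  subst h3
  subst h4
  subst h5
  exact cls_add (RelT.add Cb hC cC za zb hza hzb hz ub hu)

lemma mulu (a b y : GenT n R G) (h1 : a.C = y.C)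
    (h2 : b.C = y.C) (h3 : a.z = y.z) (h4 : b.z = y.z) (h5 : y.u = a.u * b.u) :
    D1.cls (RelT n R G) y = D1.cls (RelT n R G) a + D1.cls (RelT n R G) b := by
  obtain ⟨C, hC, cC, z, hz, u, hu⟩ := y
  obtain ⟨Ca, hCa, cCa, za, hza, ua, hua⟩ := a
  obtain ⟨Cb, hCb, cCb, zb, hzb, ub, hub⟩ := b
  dsimp only at h1 h2 h3 h4 h5
  subst h1
  subst h2
  subst h3
  subst h4
  subst h5
  exact cls_add (RelT.mul Cb hC cC zb hz ua ub hua hub hu)

lemma conj (a y : GenT n R G) (g : G) (h1 : ∀ h ∈ a.C, g * h * g⁻¹ ∈ y.C)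
    (h2 : a.z = cmap (fun x => g⁻¹ * x * g) y.z)
    (h3 : MonoidAlgebra.single g 1 * a.u.val = y.u.val * MonoidAlgebra.single g 1) :
    D1.cls (RelT n R G) y = D1.cls (RelT n R G) a := by
  obtain ⟨C, hC, cC, z, hz, u, hu⟩ := y
  obtain ⟨Ca, hCa, cCa, za, hza, ua, hua⟩ := a
  dsimp only at h1 h2 h3
  subst h2
  exact cls_eq (RelT.conj Ca C hCa cCa hC cC g h1 z hz hza ua u hua hu h3)

lemma bdr (y : GenT n R G) (w : Ch G) (hw : w ∈ ch (n + 1) (Cen y.C)) (h : y.z = bd w) :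
    D1.cls (RelT n R G) y = 0 := by
  obtain ⟨C, hC, cC, z, hz, u, hu⟩ := y
  dsimp only at hw h
  subst h
  exact mkT_zero (RelT.bdr C hC cC w hw hz u hu)

lemma cmap_one (z : Ch G) : cmap (fun x => (1 : G)⁻¹ * x * 1) z = z := by
  have h : (fun x : G => (1 : G)⁻¹ * x * 1) = id := by
    funext x
    simp
  rw [h]
  unfold cmap
  rw [List.map_id_fun]
  exact FreeAbelianGroup.map_id_apply z

/-- The generator with `z` replaced by `m z`. -/
def zp (a : GenT n R G) (m : ℤ) : GenT n R G where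
  C := a.C
  fin := a.fin
  cy := a.cy
  z := m • a.z
  hz := (cyc n (Cen a.C)).zsmul_mem a.hz m
  u := a.u
  hu := a.hu

/-- The generator with `u` replaced by `u ^ m`. -/
def up (a : GenT n R G) (m : ℤ) : GenT n R G where
  C := a.C
  fin := a.fin
  cy := a.cy
  z := a.z
  hz := a.hz
  u := a.u ^ m
  hu := (US R a.C).zpow_mem (show a.u ∈ US R a.C from a.hu) m

/-- The class depends only on the subgroup, `z` and `u`. -/
lemma ext' (a y : GenT n R G) (h1 : a.C = y.C) (h2 : a.z = y.z) (h3 : a.u = y.u) : a = y := by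
  obtain ⟨C, hC, cC, z, hz, u, hu⟩ := y
  obtain ⟨Ca, hCa, cCa, za, hza, ua, hua⟩ := a
  dsimp only at h1 h2 h3
  subst h1
  subst h2
  subst h3
  rfl

lemma zp_cls (a : GenT n R G) (m : ℤ) :
    D1.cls (RelT n R G) (zp a m) = m • D1.cls (RelT n R G) a := by
  have key : ∀ m k : ℤ, D1.cls (RelT n R G) (zp a (m + k)) =
      D1.cls (RelT n R G) (zp a m) + D1.cls (RelT n R G) (zp a k) := fun m k =>
    addz _ _ _ rfl rfl rfl rfl (add_smul m k a.z)
  have h := map_zsmul (AddMonoidHom.mk' (fun m : ℤ => D1.cls (RelT n R G) (zp a m)) key) m 1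
  have h1 : zp a 1 = a := ext' _ _ rfl (one_smul ℤ a.z) rfl
  have h2 : (AddMonoidHom.mk' (fun m : ℤ => D1.cls (RelT n R G) (zp a m)) key) (m • 1) =
      D1.cls (RelT n R G) (zp a m) := by
    simp
  rw [h2] at h
  rw [h]
  exact congrArg (fun t => m • t) (congrArg (D1.cls (RelT n R G)) h1)

lemma up_cls (a : GenT n R G) (m : ℤ) :
    D1.cls (RelT n R G) (up a m) = m • D1.cls (RelT n R G) a := by
  have key : ∀ m k : ℤ, D1.cls (RelT n R G) (up a (m + k)) =
      D1.cls (RelT n R G) (up a m) + D1.cls (RelT n R G) (up a k) := fun m k =>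
    mulu _ _ _ rfl rfl rfl rfl (zpow_add a.u m k)
  have h := map_zsmul (AddMonoidHom.mk' (fun m : ℤ => D1.cls (RelT n R G) (up a m)) key) m 1
  have h1 : up a 1 = a := ext' _ _ rfl rfl (zpow_one a.u)
  have h2 : (AddMonoidHom.mk' (fun m : ℤ => D1.cls (RelT n R G) (up a m)) key) (m • 1) =
      D1.cls (RelT n R G) (up a m) := by
    simp
  rw [h2] at h
  rw [h]
  exact congrArg (fun t => m • t) (congrArg (D1.cls (RelT n R G)) h1)

end TRAM

open TRAM

theorem specTRA : SpecTRA.{u, v} where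
  addz := fun n R _ G _ a b y h1 h2 h3 h4 h5 => TRAM.addz a b y h1 h2 h3 h4 h5
  mulu := fun n R _ G _ a b y h1 h2 h3 h4 h5 => TRAM.mulu a b y h1 h2 h3 h4 h5
  zsmulz := fun n R _ G _ a y m h1 h2 h3 => by
    rw [← zp_cls a m]
    exact congrArg _ (ext' _ _ h1.symm h3 h2.symm)
  zpowu := fun n R _ G _ a y m h1 h2 h3 => by
    rw [← up_cls a m]
    exact congrArg _ (ext' _ _ h1.symm h2.symm h3)
  incl := fun n R _ G _ a y h1 h2 h3 => by
    refine TRAM.conj a y 1 ?_ ?_ ?_
    · intro h hh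
      simpa using h1 hh
    · rw [cmap_one, h2]
    · rw [h3, ← MonoidAlgebra.one_def, one_mul, mul_one]
  conj := fun n R _ G _ a y g h1 h2 h3 => TRAM.conj a y g h1 h2 h3
  bdr := fun n R _ G _ y w hw h => TRAM.bdr y w hw h

end Pool.Agent.Lib.MPb6f35e.KA
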