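import Pool.Agent.Lib.MP_b6f35e_al.KA.SpecG

/-!
# Rational K-theory in all degrees (MP_b6f35e_al), module TSM
-/

set_option autoImplicit false

noncomputable section

namespace Pool.Agent.Lib.MPb6f35e.KA

universe u v

theorem specTSM : SpecTSM.{u, v} := by
  intro n R _ G _ x
  have happ : ∀ l l' : List (GenT n R G),
      tsum n R G (l ++ l') = tsum n R G l + tsum n R G l' := by
    intro l l'
    simp [tsum]
  have hadd : ∀ (C : Subgroup G) (hC : Finite C) (cC : IsCyclic C) (z z' : Ch G)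
      (h : z ∈ cyc n (Cen C)) (h' : z' ∈ cyc n (Cen C)) (h'' : z + z' ∈ cyc n (Cen C))
      (u : (MonoidAlgebra R G)ˣ) (hu : Sup C u.val ∧ Sup C u.inv),
      D1.cls (RelT n R G) ⟨C, hC, cC, z + z', h'', u, hu⟩ =
        D1.cls (RelT n R G) ⟨C, hC, cC, z, h, u, hu⟩ +
          D1.cls (RelT n R G) ⟨C, hC, cC, z', h', u, hu⟩ := by
    intro C hC cC z z' h h' h'' u hu
    have h0 := cls_rel (RelT.add C hC cC z z' h h' h'' u hu)
    rw [sub_sub] at h0
    exact sub_eq_zero.1 h0
  induction x using QuotientAddGroup.induction_on with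
  | H y =>
    induction y using FreeAbelianGroup.induction_on with
    | zero => exact ⟨[], rfl⟩
    | of x => exact ⟨[x], by simp [tsum]; rfl⟩
    | neg x =>
      obtain ⟨C, hC, cC, z, hz, u, hu⟩ := x
      have hz0 : (0 : Ch G) ∈ cyc n (Cen C) := zero_mem _
      have hzn : -z ∈ cyc n (Cen C) := neg_mem hz
      have e0 : D1.cls (RelT n R G) ⟨C, hC, cC, 0, hz0, u, hu⟩ = 0 := by
        have h1 := hadd C hC cC 0 0 hz0 hz0 (by rw [add_zero]; exact hz0) u hu
        simp only [add_zero] at h1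
        exact left_eq_add.1 h1
      have e1 : D1.cls (RelT n R G) ⟨C, hC, cC, z, hz, u, hu⟩ +
          D1.cls (RelT n R G) ⟨C, hC, cC, -z, hzn, u, hu⟩ = 0 := by
        have h1 := hadd C hC cC z (-z) hz hzn (by rw [add_neg_cancel]; exact hz0) u hu
        simp only [add_neg_cancel] at h1
        rw [← h1, e0]
      refine ⟨[⟨C, hC, cC, -z, hzn, u, hu⟩], ?_⟩
      simp only [tsum, List.map_cons, List.map_nil, List.sum_cons, List.sum_nil, add_zero]
      rw [← neg_eq_of_add_eq_zero_right e1]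
      rfl
    | add x y hx hy =>
      obtain ⟨l, hl⟩ := hx
      obtain ⟨l', hl'⟩ := hy
      exact ⟨l ++ l', by rw [happ, ← hl, ← hl']; rfl⟩

end Pool.Agent.Lib.MPb6f35e.KA
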