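import Pool.Agent.Lib.MP_b6f35e_al.KA.SpecF

/-!
# Rational K-theory in all degrees (MP_b6f35e_al), module UCT: extension of homomorphisms on cycles
-/

set_option autoImplicit false

noncomputable section

namespace Pool.Agent.Lib.MPb6f35e.KA

universe u v w x

namespace UCTM

/-- Extension to a function which is additive on a finite set. -/
theorem ext_fg {A : Type u} [AddCommGroup A] {B : Type v} [AddCommGroup B] (Z : AddSubgroup A)
    (htf : ∀ (k : ℤ) (a : A), k ≠ 0 → k • a ∈ Z → a ∈ Z) (χ : Z →+ B) (E : Finset A) :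
    ∃ ψ : A → B, (∀ z : Z, ψ z = χ z) ∧ ∀ a ∈ E, ∀ b ∈ E, ψ (a + b) = ψ a + ψ b := by
  classical
  let Z' : Submodule ℤ A := AddSubgroup.toIntSubmodule Z
  have hZ' : ∀ a : A, a ∈ Z' ↔ a ∈ Z := fun a => Iff.rfl
  let q : A →ₗ[ℤ] (A ⧸ Z') := Z'.mkQ
  have hq0 : ∀ a : A, q a = 0 ↔ a ∈ Z := fun a => by
    rw [← hZ' a]
    exact Submodule.Quotient.mk_eq_zero Z'
  let Q : Submodule ℤ (A ⧸ Z') := Submodule.span ℤ ((E.image q : Finset (A ⧸ Z')) : Set (A ⧸ Z'))
  have hfin : Module.Finite ℤ Q := Module.Finite.span_of_finite ℤ (Finset.finite_toSet _)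
  have htM : Module.IsTorsionFree ℤ (A ⧸ Z') := by
    refine Module.IsTorsionFree.of_smul_eq_zero (fun r m h => ?_)
    by_cases hr : r = 0
    · exact Or.inl hr
    · right
      obtain ⟨a, rfl⟩ := Submodule.mkQ_surjective Z' m
      have h1 : q (r • a) = 0 := by rw [map_smul]; exact h
      exact (hq0 a).2 (htf r a hr ((hq0 _).1 h1))
  have hfree : Module.Free ℤ Q := inferInstance
  let B' : Submodule ℤ A := Q.comap q
  let g : B' →ₗ[ℤ] Q := (q.domRestrict B').codRestrict Q (fun x => x.2)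
  have hg : Function.Surjective g := by
    rintro ⟨m, hm⟩
    obtain ⟨a, ha⟩ := Submodule.mkQ_surjective Z' m
    have hqa : q a = m := ha
    have hmem : a ∈ B' := by
      change q a ∈ Q
      rw [hqa]; exact hm
    exact ⟨⟨a, hmem⟩, Subtype.ext hqa⟩
  obtain ⟨s, hs⟩ := Module.projective_lifting_property g LinearMap.id hg
  have hgs : ∀ y : Q, g (s y) = y := fun y => by
    have := LinearMap.congr_fun hs y
    simpa using this
  have hr : ∀ b : B', ((b : A) - (s (g b) : A)) ∈ Z := by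
    intro b
    rw [← hq0, map_sub, sub_eq_zero]
    have h2 := congrArg Subtype.val (hgs (g b))
    exact h2.symm
  refine ⟨fun a => if h : a ∈ B' then χ ⟨a - (s (g ⟨a, h⟩) : A), hr ⟨a, h⟩⟩ else 0, ?_, ?_⟩
  · intro z
    have hz : (z : A) ∈ B' := by
      change q (z : A) ∈ Q
      rw [(hq0 _).2 z.2]
      exact Q.zero_mem
    have hgz : g ⟨z, hz⟩ = 0 := Subtype.ext ((hq0 _).2 z.2)
    have h3 : (⟨(z : A) - (s (g ⟨z, hz⟩) : A), hr ⟨z, hz⟩⟩ : Z) = z := by
      apply Subtype.ext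
      change (z : A) - (s (g ⟨z, hz⟩) : A) = z
      rw [hgz, map_zero]
      simp
    simp only [dif_pos hz, h3]
  · intro a ha b hb
    have hm : ∀ a ∈ E, a ∈ B' := by
      intro a ha
      change q a ∈ Q
      exact Submodule.subset_span (by
        rw [Finset.mem_coe]
        exact Finset.mem_image_of_mem _ ha)
    have ha' := hm a ha
    have hb' := hm b hb
    have hab : a + b ∈ B' := B'.add_mem ha' hb'
    have hgab : g ⟨a + b, hab⟩ = g ⟨a, ha'⟩ + g ⟨b, hb'⟩ := by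
      rw [← map_add]; rfl
    simp only [dif_pos ha', dif_pos hb', dif_pos hab]
    rw [← map_add]
    congr 1
    apply Subtype.ext
    change a + b - (s (g ⟨a + b, hab⟩) : A) = (a - (s (g ⟨a, ha'⟩) : A)) + (b - (s (g ⟨b, hb'⟩) : A))
    rw [hgab, map_add]
    push_cast
    abel

/-- Extension to a homomorphism. -/
theorem ext_all (p : ℕ) [Fact p.Prime] {A : Type u} [AddCommGroup A] (Z : AddSubgroup A)
    (htf : ∀ (k : ℤ) (a : A), k ≠ 0 → k • a ∈ Z → a ∈ Z) (χ : Z →+ ℤ_[p]) :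
    ∃ ψ : A →+ ℤ_[p], ∀ z : Z, ψ z = χ z := by
  classical
  let F : Finset A → Set (A → ℤ_[p]) := fun E =>
    {ψ | (∀ z : Z, ψ z = χ z) ∧ ∀ a ∈ E, ∀ b ∈ E, ψ (a + b) = ψ a + ψ b}
  have hcl : ∀ E, IsClosed (F E) := by
    intro E
    have h1 : F E = (⋂ z : Z, {ψ | ψ z = χ z}) ∩
        ⋂ a ∈ E, ⋂ b ∈ E, {ψ : A → ℤ_[p] | ψ (a + b) = ψ a + ψ b} := by
      ext ψ
      simp [F]
    rw [h1]
    refine IsClosed.inter (isClosed_iInter fun z => ?_) (isClosed_iInter fun a =>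
      isClosed_iInter fun _ => isClosed_iInter fun b => isClosed_iInter fun _ => ?_)
    · exact isClosed_eq (continuous_apply _) continuous_const
    · exact isClosed_eq (continuous_apply (a + b)) (Continuous.add (continuous_apply a) (continuous_apply b))
  have hdir : Directed (fun s t => s ⊇ t) F := by
    intro E E'
    refine ⟨E ∪ E', ?_, ?_⟩
    · rintro ψ ⟨h1, h2⟩
      exact ⟨h1, fun a ha b hb => h2 a (Finset.mem_union_left _ ha) b (Finset.mem_union_left _ hb)⟩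
    · rintro ψ ⟨h1, h2⟩
      exact ⟨h1, fun a ha b hb => h2 a (Finset.mem_union_right _ ha) b
        (Finset.mem_union_right _ hb)⟩
  have hne : ∀ E, (F E).Nonempty := fun E => ext_fg Z htf χ E
  obtain ⟨ψ, hψ⟩ := IsCompact.nonempty_iInter_of_directed_nonempty_isCompact_isClosed F hdir hne
    (fun E => (hcl E).isCompact) hcl
  rw [Set.mem_iInter] at hψ
  refine ⟨AddMonoidHom.mk' ψ fun a b => ?_, fun z => (hψ ∅).1 z⟩
  exact (hψ {a, b}).2 a (by simp) b (by simp)

theorem free_tf {X : Type u} (k : ℤ) (hk : k ≠ 0) (a : FreeAbelianGroup X) (h : k • a = 0) :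
    a = 0 := by
  have h1 : k • FreeAbelianGroup.equivFinsupp X a = 0 := by
    rw [← map_zsmul, h, map_zero]
  have h2 : FreeAbelianGroup.equivFinsupp X a = 0 := by
    rcases smul_eq_zero.1 h1 with h3 | h3
    · exact absurd h3 hk
    · exact h3
  exact (FreeAbelianGroup.equivFinsupp X).map_eq_zero_iff.1 h2

end UCTM

open UCTM in
theorem specUCT (hALT : SpecALT.{v, 0, 0}) : SpecUCT.{v} := by
  classical
  intro p _ G _ n P hP χ hχ
  let Z : AddSubgroup (ch n P) := (cyc n P).addSubgroupOf (ch n P)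
  have hZ : ∀ a : ch n P, a ∈ Z ↔ (a : Ch G) ∈ cyc n P := fun a => AddSubgroup.mem_addSubgroupOf
  have htf : ∀ (k : ℤ) (a : ch n P), k ≠ 0 → k • a ∈ Z → a ∈ Z := by
    intro k a hk h
    rw [hZ] at h ⊢
    refine ⟨a.2, ?_⟩
    have h1 : bd ((k • a : ch n P) : Ch G) = 0 := h.2
    rw [AddSubgroup.coe_zsmul, map_zsmul] at h1
    exact free_tf k hk _ h1
  let χ' : Z →+ ℤ_[p] := AddMonoidHom.mk' (fun z => χ ((z : ch n P) : Ch G)) fun a b =>
    hχ.add _ ((hZ _).1 a.2) _ ((hZ _).1 b.2)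
  obtain ⟨ψ, hψ⟩ := ext_all p Z htf χ'
  have hof : ∀ l : List G, (l.length = n ∧ ∀ g ∈ l, P g) → FreeAbelianGroup.of l ∈ ch n P :=
    fun l h => AddSubgroup.subset_closure ⟨l, h.1, h.2, rfl⟩
  let X : List G → ℤ_[p] := fun l => if h : l.length = n ∧ ∀ g ∈ l, P g then
    ψ ⟨FreeAbelianGroup.of l, hof l h⟩ else 0
  have hlift : ∀ a (ha : a ∈ ch n P), FreeAbelianGroup.lift X a = ψ ⟨a, ha⟩ := by
    intro a ha
    refine AddSubgroup.closure_induction
      (p := fun a ha => FreeAbelianGroup.lift X a = ψ ⟨a, ha⟩) ?_ ?_ ?_ ?_ ha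
    · rintro y ⟨l, h1, h2, rfl⟩
      rw [FreeAbelianGroup.lift_apply_of]
      exact dif_pos ⟨h1, h2⟩
    · rw [map_zero]
      exact (map_zero ψ).symm
    · intro y z hy hz h1 h2
      rw [map_add, h1, h2, ← map_add]
      rfl
    · intro y hy h1
      rw [map_neg, h1, ← map_neg]
      rfl
  have hcyc : ∀ z (hz : z ∈ cyc n P), FreeAbelianGroup.lift X z = χ z := by
    intro z hz
    rw [hlift z hz.1]
    exact hψ ⟨⟨z, hz.1⟩, (hZ _).2 hz⟩
  refine ⟨X, ?_, hcyc⟩
  intro l hl hPl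
  have hl1 : (FreeAbelianGroup.of l : Ch G) ∈ ch (n + 1) P :=
    AddSubgroup.subset_closure ⟨l, hl, hPl, rfl⟩
  have h1 := hALT.lift G ℤ_[p] X (FreeAbelianGroup.of l)
  rw [FreeAbelianGroup.lift_apply_of] at h1
  rw [← h1, hcyc _ ⟨hALT.ch G n P hP _ hl1, hALT.bdbd G _⟩]
  exact hχ.bdr _ hl1

end Pool.Agent.Lib.MPb6f35e.KA
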