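import Pool.Agent.Lib.MP_b6f35e_al.KA.SpecB

/-!
# VAR (MP_b6f35e_al): change of the third component by `q - ρ q`
-/

set_option autoImplicit false

noncomputable section

namespace Pool.Agent.Lib.MPb6f35e.KA

open Pool.Agent.Lib.MPb6f35e.WH Pool.Agent.Lib.MPb6f35e.K2

universe u v w x y z

namespace VARM

/-! ### lists -/

theorem alt_hom {X : Type u} {M : Type v} {M' : Type w} [AddCommGroup M] [AddCommGroup M']
    (f : M →+ M') : ∀ (F : List X → M) (l : List X), alt (fun l => f (F l)) l = f (alt F l)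
  | _, [] => by simp [alt]
  | F, x :: l => by
    rw [alt, alt, map_sub, alt_hom f (fun l' => F (x :: l')) l]

theorem alt_add {X : Type u} {M : Type v} [AddCommGroup M] :
    ∀ (F F' : List X → M) (l : List X), alt (fun l => F l + F' l) l = alt F l + alt F' l
  | _, _, [] => by simp [alt]
  | F, F', x :: l => by
    rw [alt, alt, alt, alt_add (fun l' => F (x :: l')) (fun l' => F' (x :: l')) l]
    abel

theorem alt_sub {X : Type u} {M : Type v} [AddCommGroup M] :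
    ∀ (F F' : List X → M) (l : List X), alt (fun l => F l - F' l) l = alt F l - alt F' l
  | _, _, [] => by simp [alt]
  | F, F', x :: l => by
    rw [alt, alt, alt, alt_sub (fun l' => F (x :: l')) (fun l' => F' (x :: l')) l]
    abel

theorem alt_map {X : Type u} {Y : Type v} {M : Type w} [AddCommGroup M] (f : X → Y) :
    ∀ (F : List Y → M) (l : List X), alt F (l.map f) = alt (fun l => F (l.map f)) l
  | _, [] => by simp [alt]
  | F, x :: l => by
    rw [List.map_cons, alt, alt, alt_map f (fun l' => F (f x :: l')) l]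
    rfl

theorem pw_map {X : Type u} {Y : Type v} {Ω : Type w} [Ring Ω] (f : X → Y) (g : Y → Ω) :
    ∀ l : List X, pw g (l.map f) = pw (fun x => g (f x)) l
  | [] => rfl
  | [_] => rfl
  | x :: y :: l => by
    have h := pw_map f g (y :: l)
    simp only [List.map_cons, pw] at h ⊢
    rw [h]

theorem px_map {X : Type u} {Y : Type v} {Ω : Type w} [Ring Ω] (f : X → Y) (a b c : Y → Ω) :
    ∀ l : List X, px a b c (l.map f) = px (fun x => a (f x)) (fun x => b (f x)) (fun x => c (f x)) l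
  | [] => rfl
  | [_] => rfl
  | x :: y :: l => by
    have h := px_map f a b c (y :: l)
    have h' := pw_map f b (y :: l)
    simp only [List.map_cons, px] at h h' ⊢
    rw [h, h']

/-- Elements moved through `pw`. -/
theorem pwC {X : Type u} {Ω : Type v} [Ring Ω] (a : Ω) (g g' : X → Ω) :
    ∀ (l : List X) (_ : ∀ x ∈ l, a * g x = g' x * a), a * pw g l = pw g' l * a
  | [], _ => by simp [pw]
  | [_], _ => by simp [pw]
  | x :: y :: l, h => by
    have ih := pwC a g g' (y :: l) fun z hz => h z (List.mem_cons_of_mem _ hz)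
    have hx := h x (by simp)
    have hy := h y (by simp)
    rw [pw, pw, mul_assoc, ← ih, ← mul_assoc, ← mul_assoc, mul_sub, hx, hy, ← sub_mul]

/-- Step (2). -/
theorem pwX {X : Type u} {Ω : Type v} [Ring Ω] (t ε : Ω) (g' g gt gd n : X → Ω)
    (hε : ε * (1 - t) = 0) :
    ∀ (l : List X) (_ : ∀ x ∈ l, g' x = g x + (1 - t) * n x * ε)
      (_ : ∀ x ∈ l, g x * (1 - t) = (1 - t) * gt x) (_ : ∀ x ∈ l, ε * g x = gd x * ε),
      pw g' l = pw g l + (1 - t) * px gt gd n l * ε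
  | [], _, _, _ => by simp [pw, px]
  | [_], _, _, _ => by simp [pw, px]
  | x :: y :: l, h1, h2, h3 => by
    have ih := pwX t ε g' g gt gd n hε (y :: l) (fun z hz => h1 z (List.mem_cons_of_mem _ hz))
      (fun z hz => h2 z (List.mem_cons_of_mem _ hz)) (fun z hz => h3 z (List.mem_cons_of_mem _ hz))
    have hP := pwC ε g gd (y :: l) fun z hz => h3 z (List.mem_cons_of_mem _ hz)
    rw [pw, pw, px, ih, h1 x (by simp), h1 y (by simp)]
    have hx := h2 x (by simp)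
    have hy := h2 y (by simp)
    generalize pw g (y :: l) = P at hP
    generalize pw gd (y :: l) = P' at hP
    generalize px gt gd n (y :: l) = Q
    calc (g y + (1 - t) * n y * ε - (g x + (1 - t) * n x * ε)) * (P + (1 - t) * Q * ε)
        = (g y - g x) * P + (g y * (1 - t) - g x * (1 - t)) * Q * ε
          + (1 - t) * (n y - n x) * (ε * P) + (1 - t) * (n y - n x) * (ε * (1 - t)) * Q * ε := by
          noncomm_ring
      _ = (g y - g x) * P + ((1 - t) * gt y - (1 - t) * gt x) * Q * ε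
          + (1 - t) * (n y - n x) * (P' * ε) + (1 - t) * (n y - n x) * 0 * Q * ε := by
          rw [hx, hy, hP, hε]
      _ = (g y - g x) * P + (1 - t) * ((gt y - gt x) * Q + (n y - n x) * P') * ε := by
          noncomm_ring

/-! ### rings -/

/-- The product of `s` and `s⁻¹`. -/
theorem mulInv {S : Type u} [Ring S] {a a' b b' c e : S} (ha : a * a' = 1) (ha' : a' * a = 1)
    (hb : b * b' = 1) (hea' : e * a' = a' * e) (heb' : e * b' = b' * e)
    (hc : e * c * e = (b - a) * e) : (a + c * e) * (a' + -(a' * c * b') * e) = 1 := by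
  have h1 : e * a' * c * b' * e = (a' - b') * e := by
    calc e * a' * c * b' * e = (e * a') * c * (b' * e) := by noncomm_ring
      _ = (a' * e) * c * (e * b') := by rw [hea', ← heb']
      _ = a' * (e * c * e) * b' := by noncomm_ring
      _ = a' * (b - a) * (e * b') := by rw [hc]; noncomm_ring
      _ = (a' * (b * b') - (a' * a) * b') * e := by rw [heb']; noncomm_ring
      _ = (a' - b') * e := by rw [hb, ha']; noncomm_ring
  calc (a + c * e) * (a' + -(a' * c * b') * e)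
      = a * a' - (a * a') * c * b' * e + c * (e * a') - c * (e * a' * c * b' * e) := by
        noncomm_ring
    _ = 1 := by rw [h1, ha, hea']; noncomm_ring

/-- The product of `s⁻¹` and `s`. -/
theorem invMul {S : Type u} [Ring S] {a a' b b' c e : S} (ha' : a' * a = 1)
    (hb' : b' * b = 1) (hea : e * a = a * e)
    (hc : e * c * e = (b - a) * e) : (a' + -(a' * c * b') * e) * (a + c * e) = 1 := by
  calc (a' + -(a' * c * b') * e) * (a + c * e)
      = a' * a + a' * c * e - a' * c * b' * (e * a + e * c * e) := by noncomm_ring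
    _ = a' * a + a' * c * e - a' * c * (b' * b) * e := by rw [hea, hc]; noncomm_ring
    _ = 1 := by rw [ha', hb']; noncomm_ring

/-- Step (3). -/
theorem dal {Ω : Type u} [Ring Ω] {t ε ε' T' D' c q s s' z z' : Ω}
    (hz : z = s + (1 - t) * q * ε) (hs : s' * s = 1) (hz' : z * z' = 1)
    (hεz : ε * z' = D' * ε) (hst : s' * (1 - t) = (1 - t) * T') (hεt : ε' * (1 - t) = ε)
    (hT : ε * T' = T' * ε) :
    (c * ε' + (1 - t) * q * ε' - t * q * ε) * z' - c * ε' * s' =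
      (1 - t) * (q * ε' * s') - (1 - t) * (q * ε * T' * q * D' * ε) - t * (q * D' * ε)
        - c * T' * ε * q * D' * ε := by
  have h1 : z' = s' - (1 - t) * T' * q * D' * ε := by
    have h2 : s' * (z * z') = z' + (s' * (1 - t)) * q * (ε * z') := by
      rw [hz]
      calc s' * ((s + (1 - t) * q * ε) * z') = (s' * s) * z' + (s' * (1 - t)) * q * (ε * z') := by
            noncomm_ring
        _ = _ := by rw [hs, one_mul]
    rw [hz', mul_one, hst, hεz] at h2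
    rw [h2]
    noncomm_ring
  have h3 : ε' * z' = ε' * s' - ε * T' * q * D' * ε := by
    rw [h1]
    calc ε' * (s' - (1 - t) * T' * q * D' * ε)
        = ε' * s' - (ε' * (1 - t)) * T' * q * D' * ε := by noncomm_ring
      _ = _ := by rw [hεt]
  calc (c * ε' + (1 - t) * q * ε' - t * q * ε) * z' - c * ε' * s'
      = c * (ε' * z') + (1 - t) * q * (ε' * z') - t * q * (ε * z') - c * ε' * s' := by
        noncomm_ring
    _ = c * (ε' * s' - ε * T' * q * D' * ε) + (1 - t) * q * (ε' * s' - ε * T' * q * D' * ε)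
        - t * q * (D' * ε) - c * ε' * s' := by rw [h3, hεz]
    _ = (1 - t) * (q * ε' * s') - (1 - t) * (q * ε * T' * q * D' * ε) - t * (q * D' * ε)
        - c * (ε * T') * q * D' * ε := by noncomm_ring
    _ = _ := by rw [hT]; noncomm_ring

/-- Terms with `γ e .. e`. -/
theorem tre {Ω : Type u} {H : Type v} [Ring Ω] [AddCommGroup H] (I : Ω →+ H) {ε T' c a b : Ω}
    (hI : ∀ y, I (ε * y) = I (y * ε)) (hT : ε * T' = T' * ε)
    (hb : ε * b = b * ε) (hab : a * T' = 1)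
    (hc : ε * c * ε = (b - a) * ε) (y : Ω) :
    I (c * T' * ε * y * ε) = I (b * T' * y * ε) - I (y * ε) := by
  have h1 : ε * (c * T' * ε) = ε * (b * T' - 1) := by
    calc ε * (c * T' * ε) = ε * c * (T' * ε) := by noncomm_ring
      _ = (ε * c * ε) * T' := by rw [← hT]; noncomm_ring
      _ = (b - a) * (ε * T') := by rw [hc]; noncomm_ring
      _ = (b * T' - a * T') * ε := by rw [hT]; noncomm_ring
      _ = b * (T' * ε) - ε := by rw [hab]; noncomm_ring
      _ = (b * ε) * T' - ε := by rw [← hT]; noncomm_ring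
      _ = ε * (b * T' - 1) := by rw [← hb]; noncomm_ring
  calc I (c * T' * ε * y * ε) = I (ε * (c * T' * ε * y)) := (hI _).symm
    _ = I (ε * (c * T' * ε) * y) := by rw [mul_assoc ε]
    _ = I (ε * ((b * T' - 1) * y)) := by rw [h1, mul_assoc ε]
    _ = I ((b * T' - 1) * y * ε) := hI _
    _ = I (b * T' * y * ε - y * ε) := by congr 1; noncomm_ring
    _ = _ := map_sub _ _ _

/-- Step (4). -/
theorem tr4 {Ω : Type u} {H : Type v} [Ring Ω] [AddCommGroup H] (I : Ω →+ H)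
    {t ε ε' T' D' c q s' a b P PT PD : Ω}
    (hI : ∀ y, I (ε * y) = I (y * ε)) (hIt : ∀ y, I (t * y) = I (y * t))
    (hεt' : ε * t = ε)
    (hst : s' * (1 - t) = (1 - t) * T') (hεt : ε' * (1 - t) = ε)
    (hT : ε * T' = T' * ε) (hb : ε * b = b * ε) (hab : a * T' = 1)
    (hc : ε * c * ε = (b - a) * ε)
    (hP : ε * P = PD * ε) (hP' : P * (1 - t) = (1 - t) * PT) (hPT : ε * PT = PT * ε) :
    I (((1 - t) * (q * ε' * s') - (1 - t) * (q * ε * T' * q * D' * ε) - t * (q * D' * ε)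
        - c * T' * ε * q * D' * ε) * P) =
      I (q * T' * PT * ε) - I (b * T' * (q * D' * PD) * ε) := by
  have hI1 : ∀ y, I ((1 - t) * y) = I (y * (1 - t)) := by
    intro y
    rw [sub_mul, mul_sub, map_sub, map_sub, one_mul, mul_one, hIt]
  have hε0 : ε * (1 - t) = 0 := by rw [mul_sub, mul_one, hεt', sub_self]
  have hA : I ((1 - t) * (q * ε' * s' * P)) = I (q * T' * PT * ε) := by
    rw [hI1]
    congr 1
    calc q * ε' * s' * P * (1 - t) = q * ε' * s' * (P * (1 - t)) := by noncomm_ring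
      _ = q * ε' * (s' * (1 - t)) * PT := by rw [hP']; noncomm_ring
      _ = q * (ε' * (1 - t)) * T' * PT := by rw [hst]; noncomm_ring
      _ = q * (ε * T') * PT := by rw [hεt]; noncomm_ring
      _ = q * T' * (ε * PT) := by rw [hT]; noncomm_ring
      _ = _ := by rw [hPT]; noncomm_ring
  have hB : I ((1 - t) * (q * ε * T' * q * D' * ε * P)) = 0 := by
    rw [hI1]
    have : q * ε * T' * q * D' * ε * P * (1 - t) = 0 := by
      calc q * ε * T' * q * D' * ε * P * (1 - t)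
          = q * ε * T' * q * D' * ε * (P * (1 - t)) := by noncomm_ring
        _ = q * ε * T' * q * D' * (ε * (1 - t)) * PT := by rw [hP']; noncomm_ring
        _ = 0 := by rw [hε0]; noncomm_ring
    rw [this, map_zero]
  have hC : I (t * (q * D' * ε * P)) = I (q * D' * PD * ε) := by
    rw [hIt]
    congr 1
    calc q * D' * ε * P * t = q * D' * (ε * P) * t := by noncomm_ring
      _ = q * D' * PD * (ε * t) := by rw [hP]; noncomm_ring
      _ = _ := by rw [hεt']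
  have hD : I (c * T' * ε * q * D' * ε * P) =
      I (b * T' * (q * D' * PD) * ε) - I (q * D' * PD * ε) := by
    rw [← tre I hI hT hb hab hc (q * D' * PD)]
    congr 1
    calc c * T' * ε * q * D' * ε * P = c * T' * ε * q * D' * (ε * P) := by noncomm_ring
      _ = _ := by rw [hP]; noncomm_ring
  calc I (((1 - t) * (q * ε' * s') - (1 - t) * (q * ε * T' * q * D' * ε) - t * (q * D' * ε)
        - c * T' * ε * q * D' * ε) * P)
      = I ((1 - t) * (q * ε' * s' * P) - (1 - t) * (q * ε * T' * q * D' * ε * P)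
        - t * (q * D' * ε * P) - c * T' * ε * q * D' * ε * P) := by
        congr 1; noncomm_ring
    _ = _ := by
        rw [map_sub, map_sub, map_sub, hA, hB, hC, hD]
        abel

/-! ### facts in `S` -/

section

variable {B : Type u} {S : Type v} {Ω : Type w} {H : Type x} [Ring B] [Ring S] [Ring Ω]
  [AddCommGroup H] {D : DGD B S Ω H}

theorem tauE (h : D.Ok) : (D.τ : S) * D.e = D.e := by
  have h1 : ((D.τ : S)) ^ D.N = 1 := by
    have h0 := congrArg (fun u : Sˣ => (u : S)) h.tauN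
    simpa using h0
  unfold DGD.e eS
  rw [Finset.mul_sum]
  have h2 := Finset.sum_range_succ (fun j => (D.τ : S) ^ j) D.N
  have h3 := Finset.sum_range_succ' (fun j => (D.τ : S) ^ j) D.N
  rw [h2, h1, pow_zero] at h3
  rw [add_right_cancel h3]
  exact Finset.sum_congr rfl fun j _ => (pow_succ' _ _).symm

theorem commTE : D.e * (D.τ : S) = (D.τ : S) * D.e := by
  unfold DGD.e eS
  rw [Finset.mul_sum, Finset.sum_mul]
  exact Finset.sum_congr rfl fun j _ => ((Commute.refl (D.τ : S)).pow_left j).eq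

theorem eTau (h : D.Ok) : D.e * (D.τ : S) = D.e := commTE.trans (tauE h)

theorem dlE (h : D.Ok) : D.dl D.e * (1 - (D.τ : S)) = D.e := by
  have h1 := congrArg D.dl (eTau h)
  rw [h.dl_mul, h.dl_tau, eTau h] at h1
  rw [mul_sub, mul_one, sub_eq_iff_eq_add]
  rw [add_comm]
  exact h1.symm

theorem dlE' (h : D.Ok) : (D.τ : S) * D.dl D.e = D.dl D.e - D.e := by
  have h1 := congrArg D.dl (tauE h)
  rw [h.dl_mul, h.dl_tau, tauE h] at h1
  rw [eq_sub_iff_add_eq, add_comm]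
  exact h1

theorem comT (h : D.Ok) {b : B} (hb : D.ρ b = b) : (D.τ : S) * D.i b = D.i b * D.τ := by
  rw [h.conj, hb]

theorem comE (h : D.Ok) {b : B} (hb : D.ρ b = b) : D.e * D.i b = D.i b * D.e := by
  have h1 : Commute (D.τ : S) (D.i b) := comT h hb
  have h2 : Commute (∑ j ∈ Finset.range D.N, (D.τ : S) ^ j) (D.i b) :=
    Commute.sum_left _ _ _ fun j _ => h1.pow_left j
  exact h2.eq

theorem eBe (h : D.Ok) (b : B) : D.e * D.i b * D.e = D.i (nm D.ρ D.N b) * D.e := by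
  have h1 : ∀ j : ℕ, (D.τ : S) ^ j * D.e = D.e := by
    intro j
    induction j with
    | zero => rw [pow_zero, one_mul]
    | succ j ih => rw [pow_succ, mul_assoc, tauE h, ih]
  have h2 : ∀ j : ℕ, (D.τ : S) ^ j * D.i b = D.i (D.ρ^[j] b) * (D.τ : S) ^ j := by
    intro j
    induction j with
    | zero => simp
    | succ j ih =>
      rw [pow_succ', mul_assoc, ih, ← mul_assoc, h.conj, Function.iterate_succ_apply', mul_assoc,
        ← pow_succ']
  have h3 : D.e * D.i b * D.e = ∑ j ∈ Finset.range D.N, (D.τ : S) ^ j * D.i b * D.e := by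
    conv_lhs => rw [mul_assoc]
    rw [show D.e * (D.i b * D.e) = (∑ j ∈ Finset.range D.N, (D.τ : S) ^ j) * (D.i b * D.e) from rfl,
      Finset.sum_mul]
    exact Finset.sum_congr rfl fun j _ => (mul_assoc _ _ _).symm
  rw [h3]
  unfold nm
  rw [map_sum, Finset.sum_mul]
  refine Finset.sum_congr rfl fun j _ => ?_
  rw [h2, mul_assoc, h1]

theorem fixInv {ρ : B →+* B} (b : Bˣ) (h : ρ b = b) : ρ ((b⁻¹ : Bˣ) : B) = ((b⁻¹ : Bˣ) : B) := by
  have h1 : (b : B) * ρ ((b⁻¹ : Bˣ) : B) = 1 := by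
    conv_lhs => rw [← h]
    rw [← map_mul, Units.mul_inv, map_one]
  calc ρ ((b⁻¹ : Bˣ) : B) = ((b⁻¹ : Bˣ) : B) * ((b : B) * ρ ((b⁻¹ : Bˣ) : B)) := by
        rw [← mul_assoc, Units.inv_mul, one_mul]
    _ = _ := by rw [h1, mul_one]

/-- The condition used. -/
def Q (D : DGD B S Ω H) (x : EB B) : Prop :=
  D.Fx x ∧ D.e * D.i x.2.2 * D.e = (D.i x.2.1 - D.i x.1) * D.e

theorem qOf (h : D.Ok) {x : EB B} (hx : D.QE x) : Q D x := by
  refine ⟨hx.1, ?_⟩
  rw [eBe h, hx.2, map_sub]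

/-- The new triple. -/
def ph (D : DGD B S Ω H) (x : EB B × B) : EB B := (x.1.1, x.1.2.1, x.1.2.2 + (x.2 - D.ρ x.2))

/-- The triple `(T, D, q)`. -/
def ps (x : EB B × B) : EB B := (x.1.1, x.1.2.1, x.2)

theorem rhoE (h : D.Ok) (q : B) : D.i (D.ρ q) * D.e = (D.τ : S) * D.i q * D.e := by
  rw [h.conj, mul_assoc, tauE h]

theorem qPh (h : D.Ok) {x : EB B × B} (hx : Q D x.1) : Q D (ph D x) := by
  refine ⟨hx.1, ?_⟩
  have h1 := hx.2
  have h2 : D.e * D.i (D.ρ x.2) * D.e = D.e * D.i x.2 * D.e := by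
    rw [mul_assoc, rhoE h, mul_assoc, ← mul_assoc D.e, eTau h, mul_assoc]
  show D.e * D.i (x.1.2.2 + (x.2 - D.ρ x.2)) * D.e = (D.i x.1.2.1 - D.i x.1.1) * D.e
  rw [map_add, map_sub, mul_add, mul_sub, add_mul, sub_mul, h1, h2, sub_self, add_zero]

theorem svInv (h : D.Ok) {x : EB B} (hx : Q D x) : D.sv x * D.sv (invE x) = 1 := by
  unfold DGD.sv invE
  have h1 : D.i (x.1 : B) * D.i ((x.1⁻¹ : Bˣ) : B) = 1 := by rw [← map_mul]; simp
  have h2 : D.i ((x.1⁻¹ : Bˣ) : B) * D.i (x.1 : B) = 1 := by rw [← map_mul]; simp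
  have h3 : D.i (x.2.1 : B) * D.i ((x.2.1⁻¹ : Bˣ) : B) = 1 := by rw [← map_mul]; simp
  rw [map_neg, map_mul, map_mul]
  exact mulInv h1 h2 h3 (comE h (fixInv _ hx.1.1)) (comE h (fixInv _ hx.1.2)) hx.2

theorem invSv (h : D.Ok) {x : EB B} (hx : Q D x) : D.sv (invE x) * D.sv x = 1 := by
  unfold DGD.sv invE
  have h2 : D.i ((x.1⁻¹ : Bˣ) : B) * D.i (x.1 : B) = 1 := by rw [← map_mul]; simp
  have h3 : D.i ((x.2.1⁻¹ : Bˣ) : B) * D.i (x.2.1 : B) = 1 := by rw [← map_mul]; simp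
  rw [map_neg, map_mul, map_mul]
  exact invMul h2 h3 (comE h hx.1.1) hx.2

theorem eSv (h : D.Ok) {x : EB B} (hx : Q D x) : D.e * D.sv x = D.i x.2.1 * D.e := by
  unfold DGD.sv
  rw [mul_add, comE h hx.1.1, ← mul_assoc, hx.2]
  noncomm_ring

theorem eInv (h : D.Ok) {x : EB B} (hx : Q D x) :
    D.e * D.sv (invE x) = D.i ((x.2.1⁻¹ : Bˣ) : B) * D.e := by
  have h3 : D.i ((x.2.1⁻¹ : Bˣ) : B) * D.i (x.2.1 : B) = 1 := by rw [← map_mul]; simp
  calc D.e * D.sv (invE x)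
      = (D.i ((x.2.1⁻¹ : Bˣ) : B) * D.i (x.2.1 : B)) * (D.e * D.sv (invE x)) := by
        rw [h3, one_mul]
    _ = D.i ((x.2.1⁻¹ : Bˣ) : B) * (D.i (x.2.1 : B) * D.e) * D.sv (invE x) := by noncomm_ring
    _ = D.i ((x.2.1⁻¹ : Bˣ) : B) * D.e * (D.sv x * D.sv (invE x)) := by
        rw [← eSv h hx]; noncomm_ring
    _ = _ := by rw [svInv h hx, mul_one]

theorem svT (h : D.Ok) {x : EB B} (hx : Q D x) :
    D.sv x * (1 - (D.τ : S)) = (1 - (D.τ : S)) * D.i x.1 := by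
  unfold DGD.sv
  have h1 : D.e * (1 - (D.τ : S)) = 0 := by rw [mul_sub, mul_one, eTau h, sub_self]
  rw [add_mul, mul_assoc, h1, mul_zero, add_zero, mul_sub, sub_mul, comT h hx.1.1, mul_one, one_mul]

theorem invT (h : D.Ok) {x : EB B} (hx : Q D x) :
    D.sv (invE x) * (1 - (D.τ : S)) = (1 - (D.τ : S)) * D.i ((x.1⁻¹ : Bˣ) : B) := by
  have h1 : D.i (x.1 : B) * D.i ((x.1⁻¹ : Bˣ) : B) = 1 := by rw [← map_mul]; simp
  calc D.sv (invE x) * (1 - (D.τ : S))
      = D.sv (invE x) * (1 - (D.τ : S)) * (D.i (x.1 : B) * D.i ((x.1⁻¹ : Bˣ) : B)) := by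
        rw [h1, mul_one]
    _ = D.sv (invE x) * ((1 - (D.τ : S)) * D.i (x.1 : B)) * D.i ((x.1⁻¹ : Bˣ) : B) := by
        noncomm_ring
    _ = (D.sv (invE x) * D.sv x) * (1 - (D.τ : S)) * D.i ((x.1⁻¹ : Bˣ) : B) := by
        rw [← svT h hx]; noncomm_ring
    _ = _ := by rw [invSv h hx, one_mul]

theorem svPh (h : D.Ok) (x : EB B × B) :
    D.sv (ph D x) = D.sv x.1 + (1 - (D.τ : S)) * D.i x.2 * D.e := by
  show D.i x.1.1 + D.i (x.1.2.2 + (x.2 - D.ρ x.2)) * D.e =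
    D.i x.1.1 + D.i x.1.2.2 * D.e + (1 - (D.τ : S)) * D.i x.2 * D.e
  rw [map_add, map_sub, add_mul, sub_mul, rhoE h]
  noncomm_ring

theorem dlSv (h : D.Ok) (x : EB B) : D.dl (D.sv x) = D.i x.2.2 * D.dl D.e := by
  unfold DGD.sv
  rw [map_add, h.dl_i, h.dl_mul, h.dl_i, zero_mul, zero_add, zero_add]

theorem dlPh (h : D.Ok) (x : EB B × B) : D.dl (D.sv (ph D x)) =
    D.i x.1.2.2 * D.dl D.e + (1 - (D.τ : S)) * D.i x.2 * D.dl D.e
      - (D.τ : S) * D.i x.2 * D.e := by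
  rw [dlSv h]
  show D.i (x.1.2.2 + (x.2 - D.ρ x.2)) * D.dl D.e = _
  have h1 : D.i (D.ρ x.2) * D.dl D.e = (D.τ : S) * D.i x.2 * D.dl D.e
      + (D.τ : S) * D.i x.2 * D.e := by
    have h2 : D.dl D.e = D.e + (D.τ : S) * D.dl D.e := by rw [dlE' h]; abel
    conv_lhs => rw [h2]
    rw [mul_add, rhoE h, ← mul_assoc, ← h.conj]
    abel
  rw [map_add, map_sub, add_mul, sub_mul, h1]
  noncomm_ring

/-! ### facts in `Ω` -/

theorem dOne (h : D.Ok) : D.d 1 = 0 := by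
  have h1 := h.d_mul 1 1
  rw [mul_one, map_one D.ep, one_mul, mul_one] at h1
  have h2 : D.d 1 + 0 = D.d 1 + D.d 1 := by rw [add_zero]; exact h1
  exact (add_left_cancel h2).symm

theorem dE (h : D.Ok) : D.d (D.lam D.e) = 0 := by
  have h1 : ∀ j : ℕ, D.d (D.lam (D.τ : S) ^ j) = 0 := by
    intro j
    induction j with
    | zero => rw [pow_zero, dOne h]
    | succ j ih => rw [pow_succ, h.d_mul, ih, h.d_tau, zero_mul, mul_zero, add_zero]
  unfold DGD.e eS
  rw [map_sum, map_sum]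
  exact Finset.sum_eq_zero fun j _ => by rw [map_pow, h1]

theorem dT1 (h : D.Ok) : D.d (D.lam (1 - (D.τ : S))) = 0 := by
  rw [map_sub, map_one, map_sub, dOne h, h.d_tau, sub_zero]

theorem dL (h : D.Ok) {a : S} (ha : D.d (D.lam a) = 0) (y : Ω) :
    D.d (D.lam a * y) = D.lam a * D.d y := by
  rw [h.d_mul, ha, zero_mul, zero_add, h.ep_lam]

theorem dR (h : D.Ok) {a : S} (ha : D.d (D.lam a) = 0) (y : Ω) :
    D.d (y * D.lam a) = D.d y * D.lam a := by
  rw [h.d_mul, ha, mul_zero, add_zero]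

/-- `d(b) b⁻¹` commutes with `a`. -/
theorem wC (h : D.Ok) {a : S} (ha : D.d (D.lam a) = 0) (b : Bˣ) (hb : a * D.i b = D.i b * a)
    (hb' : a * D.i ((b⁻¹ : Bˣ) : B) = D.i ((b⁻¹ : Bˣ) : B) * a) :
    D.lam a * (D.d (D.j b) * D.j ((b⁻¹ : Bˣ) : B)) =
      D.d (D.j b) * D.j ((b⁻¹ : Bˣ) : B) * D.lam a := by
  have h1 : D.lam a * D.d (D.j b) = D.d (D.j b) * D.lam a := by
    rw [← dL h ha, ← dR h ha]
    show D.d (D.lam a * D.lam (D.i b)) = D.d (D.lam (D.i b) * D.lam a)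
    rw [← map_mul, hb, map_mul]
  have h2 : D.lam a * D.j ((b⁻¹ : Bˣ) : B) = D.j ((b⁻¹ : Bˣ) : B) * D.lam a := by
    show D.lam a * D.lam (D.i ((b⁻¹ : Bˣ) : B)) = D.lam (D.i ((b⁻¹ : Bˣ) : B)) * D.lam a
    rw [← map_mul, hb', map_mul]
  rw [← mul_assoc, h1, mul_assoc, h2, ← mul_assoc]

theorem omR (h : D.Ok) {x : EB B} (hx : Q D x) :
    D.om x * D.lam (1 - (D.τ : S)) = D.lam (1 - (D.τ : S)) * D.wT x := by
  have h1 : D.lam (D.sv (invE x)) * D.lam (1 - (D.τ : S)) =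
      D.lam (1 - (D.τ : S)) * D.j ((x.1⁻¹ : Bˣ) : B) := by
    rw [← map_mul, invT h hx, map_mul]; rfl
  have h2 : D.d (D.lam (D.sv x)) * D.lam (1 - (D.τ : S)) =
      D.lam (1 - (D.τ : S)) * D.d (D.j x.1) := by
    rw [← dR h (dT1 h), ← dL h (dT1 h), ← map_mul, svT h hx, map_mul]; rfl
  unfold DGD.om DGD.wT
  rw [mul_assoc, h1, ← mul_assoc, h2, mul_assoc]

theorem omL (h : D.Ok) {x : EB B} (hx : Q D x) :
    D.lam D.e * D.om x = D.wD x * D.lam D.e := by
  have h1 : D.lam D.e * D.lam (D.sv (invE x)) =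
      D.j ((x.2.1⁻¹ : Bˣ) : B) * D.lam D.e := by
    rw [← map_mul, eInv h hx, map_mul]; rfl
  have h2 : D.lam D.e * D.d (D.lam (D.sv x)) = D.d (D.j x.2.1) * D.lam D.e := by
    rw [← dR h (dE h), ← dL h (dE h), ← map_mul, eSv h hx, map_mul]; rfl
  unfold DGD.om DGD.wD
  rw [← mul_assoc, h2, mul_assoc, h1, ← mul_assoc]

theorem wTe (h : D.Ok) {x : EB B} (hx : Q D x) :
    D.lam D.e * D.wT x = D.wT x * D.lam D.e :=
  wC h (dE h) x.1 (comE h hx.1.1) (comE h (fixInv _ hx.1.1))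

theorem lamPh (h : D.Ok) (x : EB B × B) :
    D.lam (D.sv (ph D x)) = D.lam (D.sv x.1) + (1 - D.lam (D.τ : S)) * D.j x.2 * D.lam D.e := by
  rw [svPh h, map_add, map_mul, map_mul, map_sub, map_one]; rfl

theorem omPh (h : D.Ok) {x : EB B × B} (hx : Q D x.1) :
    D.om (ph D x) = D.om x.1 + (1 - D.lam (D.τ : S)) * D.nb (ps x) * D.lam D.e := by
  have hp := qPh h hx
  have e1 : D.lam D.e * D.lam (D.sv (invE (ph D x))) =
      D.j ((x.1.2.1⁻¹ : Bˣ) : B) * D.lam D.e := by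
    rw [← map_mul, eInv h hp, map_mul]; rfl
  have e2 : D.lam (D.sv (ph D x)) * D.lam (D.sv (invE (ph D x))) = 1 := by
    rw [← map_mul, svInv h hp, map_one]
  have e3 : D.lam (D.sv (invE x.1)) * D.lam (D.sv x.1) = 1 := by
    rw [← map_mul, invSv h hx, map_one]
  have e4 := omR h hx
  have hm : D.lam (1 - (D.τ : S)) = 1 - D.lam (D.τ : S) := by rw [map_sub, map_one]
  have e5 : D.d ((1 - D.lam (D.τ : S)) * D.j x.2 * D.lam D.e) =
      (1 - D.lam (D.τ : S)) * D.d (D.j x.2) * D.lam D.e := by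
    rw [dR h (dE h), ← hm, dL h (dT1 h)]
  rw [hm] at e4
  have e6 : D.om (ph D x) = (D.d (D.lam (D.sv x.1)) +
      (1 - D.lam (D.τ : S)) * D.d (D.j x.2) * D.lam D.e) * D.lam (D.sv (invE (ph D x))) := by
    unfold DGD.om
    rw [lamPh h, map_add, e5]
  have e7 : D.d (D.lam (D.sv x.1)) = D.om x.1 * D.lam (D.sv x.1) := by
    unfold DGD.om
    rw [mul_assoc, e3, mul_one]
  have e8 : D.nb (ps x) = D.d (D.j x.2) * D.j ((x.1.2.1⁻¹ : Bˣ) : B) -
      D.wT x.1 * (D.j x.2 * D.j ((x.1.2.1⁻¹ : Bˣ) : B)) := by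
    show D.d (D.j x.2) * D.j ((x.1.2.1⁻¹ : Bˣ) : B) -
      D.wT x.1 * D.lam (D.i (x.2 * ((x.1.2.1⁻¹ : Bˣ) : B))) = _
    rw [map_mul, map_mul]; rfl
  rw [lamPh h] at e2
  rw [e6, e7, e8]
  generalize D.lam (D.sv (invE (ph D x))) = z' at *
  generalize D.lam (D.sv x.1) = s at *
  generalize D.om x.1 = om at *
  generalize D.wT x.1 = wT at *
  generalize D.lam (D.τ : S) = t at *
  generalize D.lam D.e = ε at *
  generalize D.j ((x.1.2.1⁻¹ : Bˣ) : B) = D' at *
  generalize D.d (D.j x.2) = dq at *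
  generalize D.j x.2 = q at *
  calc (om * s + (1 - t) * dq * ε) * z'
      = om * ((s + (1 - t) * q * ε) * z') - (om * (1 - t)) * q * (ε * z')
        + (1 - t) * dq * (ε * z') := by noncomm_ring
    _ = om - (1 - t) * wT * q * (D' * ε) + (1 - t) * dq * (D' * ε) := by
        rw [e1, e2, e4, mul_one]
    _ = _ := by noncomm_ring

theorem alEq (h : D.Ok) (x : EB B) :
    D.al x = D.j x.2.2 * D.lam (D.dl D.e) * D.lam (D.sv (invE x)) := by
  unfold DGD.al
  rw [dlSv h, map_mul, map_mul]; rfl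

theorem alT (h : D.Ok) {x : EB B} (hx : Q D x) : D.al x * (1 - D.lam (D.τ : S)) =
    D.j x.2.2 * D.j ((x.1⁻¹ : Bˣ) : B) * D.lam D.e := by
  have hm : D.lam (1 - (D.τ : S)) = 1 - D.lam (D.τ : S) := by rw [map_sub, map_one]
  have h1 : D.lam (D.sv (invE x)) * D.lam (1 - (D.τ : S)) =
      D.lam (1 - (D.τ : S)) * D.j ((x.1⁻¹ : Bˣ) : B) := by
    rw [← map_mul, invT h hx, map_mul]; rfl
  have h2 : D.lam (D.dl D.e) * D.lam (1 - (D.τ : S)) = D.lam D.e := by
    rw [← map_mul, dlE h]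
  have h3 : D.lam D.e * D.j ((x.1⁻¹ : Bˣ) : B) = D.j ((x.1⁻¹ : Bˣ) : B) * D.lam D.e := by
    show D.lam D.e * D.lam (D.i ((x.1⁻¹ : Bˣ) : B)) = D.lam (D.i ((x.1⁻¹ : Bˣ) : B)) * D.lam D.e
    rw [← map_mul, comE h (fixInv _ hx.1.1), map_mul]
  rw [alEq h, ← hm, mul_assoc, h1, mul_assoc, ← mul_assoc (D.lam (D.dl D.e)), h2, h3, mul_assoc]

theorem alPh (h : D.Ok) {x : EB B × B} (hx : Q D x.1) :
    D.al (ph D x) - D.al x.1 =
      (1 - D.lam (D.τ : S)) * (D.j x.2 * D.lam (D.dl D.e) * D.lam (D.sv (invE x.1)))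
      - (1 - D.lam (D.τ : S)) * (D.j x.2 * D.lam D.e * D.j ((x.1.1⁻¹ : Bˣ) : B) * D.j x.2
          * D.j ((x.1.2.1⁻¹ : Bˣ) : B) * D.lam D.e)
      - D.lam (D.τ : S) * (D.j x.2 * D.j ((x.1.2.1⁻¹ : Bˣ) : B) * D.lam D.e)
      - D.j x.1.2.2 * D.j ((x.1.1⁻¹ : Bˣ) : B) * D.lam D.e * D.j x.2
          * D.j ((x.1.2.1⁻¹ : Bˣ) : B) * D.lam D.e := by
  have hp := qPh h hx
  have hm : D.lam (1 - (D.τ : S)) = 1 - D.lam (D.τ : S) := by rw [map_sub, map_one]
  have e1 : D.lam D.e * D.lam (D.sv (invE (ph D x))) =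
      D.j ((x.1.2.1⁻¹ : Bˣ) : B) * D.lam D.e := by
    rw [← map_mul, eInv h hp, map_mul]; rfl
  have e2 : D.lam (D.sv (ph D x)) * D.lam (D.sv (invE (ph D x))) = 1 := by
    rw [← map_mul, svInv h hp, map_one]
  have e3 : D.lam (D.sv (invE x.1)) * D.lam (D.sv x.1) = 1 := by
    rw [← map_mul, invSv h hx, map_one]
  have e4 : D.lam (D.sv (invE x.1)) * (1 - D.lam (D.τ : S)) =
      (1 - D.lam (D.τ : S)) * D.j ((x.1.1⁻¹ : Bˣ) : B) := by
    rw [← hm, ← map_mul, invT h hx, map_mul]; rfl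
  have e5 : D.lam (D.dl D.e) * (1 - D.lam (D.τ : S)) = D.lam D.e := by
    rw [← hm, ← map_mul, dlE h]
  have e6 : D.lam D.e * D.j ((x.1.1⁻¹ : Bˣ) : B) = D.j ((x.1.1⁻¹ : Bˣ) : B) * D.lam D.e := by
    show D.lam D.e * D.lam (D.i ((x.1.1⁻¹ : Bˣ) : B)) =
      D.lam (D.i ((x.1.1⁻¹ : Bˣ) : B)) * D.lam D.e
    rw [← map_mul, comE h (fixInv _ hx.1.1), map_mul]
  have e7 : D.al (ph D x) = (D.j x.1.2.2 * D.lam (D.dl D.e) + (1 - D.lam (D.τ : S)) * D.j x.2
      * D.lam (D.dl D.e) - D.lam (D.τ : S) * D.j x.2 * D.lam D.e)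
        * D.lam (D.sv (invE (ph D x))) := by
    unfold DGD.al
    rw [dlPh h]
    simp only [map_mul, map_sub, map_add, map_one]
    rfl
  rw [e7, alEq h x.1]
  exact dal (lamPh h x) e3 e2 e1 e4 e5 e6

theorem jMul (b c : B) : D.j (b * c) = D.j b * D.j c := by
  unfold DGD.j
  rw [map_mul, map_mul]

theorem angEq (y : Ω) : D.ang y = D.I (y * D.lam D.e) := rfl

/-- Step (4). -/
theorem k4 (h : D.Ok) {x : EB B × B} (hx : Q D x.1) {P PT PD : Ω}
    (hP : D.lam D.e * P = PD * D.lam D.e)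
    (hP' : P * (1 - D.lam (D.τ : S)) = (1 - D.lam (D.τ : S)) * PT)
    (hPT : D.lam D.e * PT = PT * D.lam D.e) :
    D.I ((D.al (ph D x) - D.al x.1) * P) =
      D.ang (D.j (x.2 * ((x.1.1⁻¹ : Bˣ) : B)) * PT)
      - D.ang (D.j (x.1.2.1 * ((x.1.1⁻¹ : Bˣ) : B) * x.2 * ((x.1.2.1⁻¹ : Bˣ) : B)) * PD) := by
  have hm : D.lam (1 - (D.τ : S)) = 1 - D.lam (D.τ : S) := by rw [map_sub, map_one]
  have e0 : D.lam D.e * D.lam (D.τ : S) = D.lam D.e := by rw [← map_mul, eTau h]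
  have e4 : D.lam (D.sv (invE x.1)) * (1 - D.lam (D.τ : S)) =
      (1 - D.lam (D.τ : S)) * D.j ((x.1.1⁻¹ : Bˣ) : B) := by
    rw [← hm, ← map_mul, invT h hx, map_mul]; rfl
  have e5 : D.lam (D.dl D.e) * (1 - D.lam (D.τ : S)) = D.lam D.e := by
    rw [← hm, ← map_mul, dlE h]
  have e6 : D.lam D.e * D.j ((x.1.1⁻¹ : Bˣ) : B) = D.j ((x.1.1⁻¹ : Bˣ) : B) * D.lam D.e := by
    show D.lam D.e * D.lam (D.i ((x.1.1⁻¹ : Bˣ) : B)) =
      D.lam (D.i ((x.1.1⁻¹ : Bˣ) : B)) * D.lam D.e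
    rw [← map_mul, comE h (fixInv _ hx.1.1), map_mul]
  have e7 : D.lam D.e * D.j x.1.2.1 = D.j x.1.2.1 * D.lam D.e := by
    show D.lam D.e * D.lam (D.i x.1.2.1) = D.lam (D.i x.1.2.1) * D.lam D.e
    rw [← map_mul, comE h hx.1.2, map_mul]
  have e8 : D.j x.1.1 * D.j ((x.1.1⁻¹ : Bˣ) : B) = 1 := by
    rw [← jMul, Units.mul_inv]
    unfold DGD.j
    rw [map_one, map_one]
  have e9 : D.lam D.e * D.j x.1.2.2 * D.lam D.e = (D.j x.1.2.1 - D.j x.1.1) * D.lam D.e := by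
    show D.lam D.e * D.lam (D.i x.1.2.2) * D.lam D.e =
      (D.lam (D.i x.1.2.1) - D.lam (D.i x.1.1)) * D.lam D.e
    rw [← map_mul, ← map_mul, hx.2, map_mul, map_sub]
  rw [alPh h hx, tr4 D.I (fun y => h.even _ (h.ep_lam _) y) (fun y => h.even _ (h.ep_lam _) y)
    e0 e4 e5 e6 e7 e8 e9 hP hP' hPT, angEq, angEq]
  simp only [jMul, mul_assoc]

/-- Step (5). -/
theorem k5 (h : D.Ok) {x : EB B × B} (hx : Q D x.1) (y : Ω) :
    D.I (D.al (ph D x) * ((1 - D.lam (D.τ : S)) * y * D.lam D.e)) =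
      D.ang (D.j (x.1.2.1 * ((x.1.1⁻¹ : Bˣ) : B)) * y) - D.ang y := by
  have hp := qPh h hx
  have e6 : D.lam D.e * D.j ((x.1.1⁻¹ : Bˣ) : B) = D.j ((x.1.1⁻¹ : Bˣ) : B) * D.lam D.e := by
    show D.lam D.e * D.lam (D.i ((x.1.1⁻¹ : Bˣ) : B)) =
      D.lam (D.i ((x.1.1⁻¹ : Bˣ) : B)) * D.lam D.e
    rw [← map_mul, comE h (fixInv _ hx.1.1), map_mul]
  have e7 : D.lam D.e * D.j x.1.2.1 = D.j x.1.2.1 * D.lam D.e := by
    show D.lam D.e * D.lam (D.i x.1.2.1) = D.lam (D.i x.1.2.1) * D.lam D.e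
    rw [← map_mul, comE h hx.1.2, map_mul]
  have e8 : D.j x.1.1 * D.j ((x.1.1⁻¹ : Bˣ) : B) = 1 := by
    rw [← jMul, Units.mul_inv]
    unfold DGD.j
    rw [map_one, map_one]
  have e9 : D.lam D.e * D.j (ph D x).2.2 * D.lam D.e =
      (D.j x.1.2.1 - D.j x.1.1) * D.lam D.e := by
    have h2 := hp.2
    show D.lam D.e * D.lam (D.i (ph D x).2.2) * D.lam D.e =
      (D.lam (D.i x.1.2.1) - D.lam (D.i x.1.1)) * D.lam D.e
    rw [← map_mul, ← map_mul, h2, map_mul, map_sub]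
    rfl
  have e10 := alT h hp
  rw [angEq, angEq, ← mul_assoc, ← mul_assoc, e10, jMul]
  exact tre D.I (fun y => h.even _ (h.ep_lam _) y) e6 e7 e8 e9 y

/-- The alternating sum of `f`. -/
theorem altF (hPW : SpecPW.{u, w, z}) (x : EB B) (m : List (EB B)) :
    alt D.f (x :: m) = D.f m - (D.ang (D.j (x.2.2 * ((x.1⁻¹ : Bˣ) : B)) * pw D.wT m)
      - D.ang (D.j (x.2.1 * ((x.1⁻¹ : Bˣ) : B) * x.2.2 * ((x.2.1⁻¹ : Bˣ) : B)) * pw D.wD m)
      + D.ang (D.j (x.2.1 * ((x.1⁻¹ : Bˣ) : B)) * px D.wT D.wD D.nb m)) := by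
  have h1 : alt (fun l' => pw D.wT (x :: l')) m = pw D.wT m := by
    have h0 := hPW.pw (EB B) Ω D.wT (x :: m)
    rw [alt, sub_eq_zero] at h0
    exact h0.symm
  have h2 : alt (fun l' => pw D.wD (x :: l')) m = pw D.wD m := by
    have h0 := hPW.pw (EB B) Ω D.wD (x :: m)
    rw [alt, sub_eq_zero] at h0
    exact h0.symm
  have h3 : alt (fun l' => px D.wT D.wD D.nb (x :: l')) m = px D.wT D.wD D.nb m := by
    have h0 := hPW.px (EB B) Ω D.wT D.wD D.nb (x :: m)
    rw [alt, sub_eq_zero] at h0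
    exact h0.symm
  have h4 : ∀ (a : Ω) (F : List (EB B) → Ω), alt (fun l' => D.ang (a * F l')) m =
      D.ang (a * alt F m) := fun a F =>
    alt_hom (D.ang.comp (AddMonoidHom.mulLeft a)) F m
  rw [alt]
  congr 1
  have h5 : (fun l' => D.f (x :: l')) = fun l' =>
      (D.ang (D.j (x.2.2 * ((x.1⁻¹ : Bˣ) : B)) * pw D.wT (x :: l'))
      - D.ang (D.j (x.2.1 * ((x.1⁻¹ : Bˣ) : B) * x.2.2 * ((x.2.1⁻¹ : Bˣ) : B))
        * pw D.wD (x :: l')))
      + D.ang (D.j (x.2.1 * ((x.1⁻¹ : Bˣ) : B)) * px D.wT D.wD D.nb (x :: l')) := rfl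
  rw [h5, alt_add, alt_sub, h4, h4, h4, h1, h2, h3]

theorem main (hPW : SpecPW.{u, w, z}) (h : D.Ok) :
    ∀ (l : List (EB B × B)) (_ : ∀ x ∈ l, Q D x.1),
      D.be (l.map (ph D)) - D.be (l.map Prod.fst) = alt D.f (l.map ps)
  | [], _ => by simp [DGD.be, DGD.beE, alt]
  | [x], _ => by simp [DGD.be, DGD.beE, alt, DGD.f]
  | x :: y :: l, hl => by
    have hx := hl x (by simp)
    have hy := hl y (by simp)
    have hl' : ∀ z ∈ y :: l, Q D z.1 := fun z hz => hl z (List.mem_cons_of_mem _ hz)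
    have hm : D.lam (1 - (D.τ : S)) = 1 - D.lam (D.τ : S) := by rw [map_sub, map_one]
    have hε : D.lam D.e * (1 - D.lam (D.τ : S)) = 0 := by
      rw [mul_sub, mul_one, ← map_mul, eTau h, sub_self]
    have e1 := pwX (D.lam (D.τ : S)) (D.lam D.e) (fun x => D.om (ph D x)) (fun x => D.om x.1)
      (fun x => D.wT (ps x)) (fun x => D.wD (ps x)) (fun x => D.nb (ps x)) hε (y :: l)
      (fun z hz => omPh h (hl' z hz))
      (fun z hz => by rw [← hm]; exact omR h (hl' z hz)) (fun z hz => omL h (hl' z hz))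
    have e2 : D.lam D.e * pw (fun x : EB B × B => D.om x.1) (y :: l) =
        pw (fun x : EB B × B => D.wD (ps x)) (y :: l) * D.lam D.e :=
      pwC _ _ _ _ fun z hz => omL h (hl' z hz)
    have e3 : (1 - D.lam (D.τ : S)) * pw (fun x : EB B × B => D.wT (ps x)) (y :: l) =
        pw (fun x : EB B × B => D.om x.1) (y :: l) * (1 - D.lam (D.τ : S)) :=
      pwC _ _ _ _ fun z hz => by rw [← hm]; exact (omR h (hl' z hz)).symm
    have e4 : D.lam D.e * pw (fun x : EB B × B => D.wT (ps x)) (y :: l) =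
        pw (fun x : EB B × B => D.wT (ps x)) (y :: l) * D.lam D.e :=
      pwC _ _ _ _ fun z hz => wTe (x := z.1) h (hl' z hz)
    have e5 : D.be ((x :: y :: l).map (ph D)) = D.I ((D.al (ph D y) - D.al (ph D x)) *
        pw (fun x : EB B × B => D.om (ph D x)) (y :: l)) := by
      rw [← pw_map (ph D) D.om (y :: l)]; rfl
    have e6 : D.be ((x :: y :: l).map Prod.fst) = D.I ((D.al y.1 - D.al x.1) *
        pw (fun x : EB B × B => D.om x.1) (y :: l)) := by
      rw [← pw_map Prod.fst D.om (y :: l)]; rfl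
    have e7 := k4 h hx e2 e3.symm e4
    have e8 := k4 h hy e2 e3.symm e4
    have e9 := k5 h hx (px (fun x => D.wT (ps x)) (fun x => D.wD (ps x))
      (fun x => D.nb (ps x)) (y :: l))
    have e10 := k5 h hy (px (fun x => D.wT (ps x)) (fun x => D.wD (ps x))
      (fun x => D.nb (ps x)) (y :: l))
    have e11 : alt D.f ((x :: y :: l).map ps) = D.f ((y :: l).map ps) -
        (D.ang (D.j (x.2 * ((x.1.1⁻¹ : Bˣ) : B)) * pw D.wT ((y :: l).map ps))
        - D.ang (D.j (x.1.2.1 * ((x.1.1⁻¹ : Bˣ) : B) * x.2 * ((x.1.2.1⁻¹ : Bˣ) : B))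
          * pw D.wD ((y :: l).map ps))
        + D.ang (D.j (x.1.2.1 * ((x.1.1⁻¹ : Bˣ) : B))
          * px D.wT D.wD D.nb ((y :: l).map ps))) := altF hPW (ps x) ((y :: l).map ps)
    have e12 : D.f ((y :: l).map ps) =
        D.ang (D.j (y.2 * ((y.1.1⁻¹ : Bˣ) : B)) * pw D.wT ((y :: l).map ps))
        - D.ang (D.j (y.1.2.1 * ((y.1.1⁻¹ : Bˣ) : B) * y.2 * ((y.1.2.1⁻¹ : Bˣ) : B))
          * pw D.wD ((y :: l).map ps))
        + D.ang (D.j (y.1.2.1 * ((y.1.1⁻¹ : Bˣ) : B))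
          * px D.wT D.wD D.nb ((y :: l).map ps)) := rfl
    rw [e11, e12, e5, e6, e1, pw_map, pw_map, px_map]
    generalize pw (fun x : EB B × B => D.om x.1) (y :: l) = P at *
    generalize pw (fun x : EB B × B => D.wT (ps x)) (y :: l) = PT at *
    generalize pw (fun x : EB B × B => D.wD (ps x)) (y :: l) = PD at *
    generalize px (fun x : EB B × B => D.wT (ps x)) (fun x => D.wD (ps x))
      (fun x => D.nb (ps x)) (y :: l) = PX at *
    have e13 : D.I ((D.al (ph D y) - D.al (ph D x)) *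
          (P + (1 - D.lam (D.τ : S)) * PX * D.lam D.e)) - D.I ((D.al y.1 - D.al x.1) * P) =
        D.I ((D.al (ph D y) - D.al y.1) * P) - D.I ((D.al (ph D x) - D.al x.1) * P)
        + (D.I (D.al (ph D y) * ((1 - D.lam (D.τ : S)) * PX * D.lam D.e))
          - D.I (D.al (ph D x) * ((1 - D.lam (D.τ : S)) * PX * D.lam D.e))) := by
      simp only [← map_sub, ← map_add]
      congr 1
      noncomm_ring
    rw [e13, e7, e8, e9, e10]
    abel

end

end VARM

open VARM in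
/-- VAR -/
theorem specVAR (hPW : SpecPW.{u, w, z}) : SpecVAR.{u, v, w, x} := by
  intro B S Ω H _ _ _ _ D hD l hl
  exact VARM.main hPW hD l fun x hx => qOf hD (hl x hx)

end Pool.Agent.Lib.MPb6f35e.KA
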