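import Pool.Agent.Lib.MP_b6f35e_al.KA.SpecD

/-!
# VTX: the cochain on arrows given by sums over the vertices (MP_b6f35e_al)
-/

set_option autoImplicit false

noncomputable section

namespace Pool.Agent.Lib.MPb6f35e.KA

open Pool.Agent.Lib.MPb6f35e.WH Pool.Agent.Lib.MPb6f35e.K2

universe u v w

namespace VTXM

/-! ### sums over choices of elements of families -/

section sums

variable {W : Type u} {H : Type v} [AddCommGroup H] {Θ : Type w} [Fintype Θ]

/-- Sum over all choices of elements of the families. -/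
def sm : (List W → H) → List (Θ → W) → H
  | F, [] => F []
  | F, v :: V => ∑ m : Θ, sm (fun l' => F (v m :: l')) V

/-- All members of the families satisfy `G`. -/
def Gd (G : W → Prop) (V : List (Θ → W)) : Prop := ∀ v ∈ V, ∀ m, G (v m)

lemma sm_congr (G : W → Prop) (V : List (Θ → W)) (hV : Gd G V) (F F' : List W → H)
    (h : ∀ l : List W, l.length = V.length → (∀ y ∈ l, G y) → F l = F' l) : sm F V = sm F' V := by
  induction V generalizing F F' with
  | nil => exact h [] rfl (by simp)
  | cons v V ih =>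
    refine Finset.sum_congr rfl fun m _ => ?_
    refine ih (fun u hu => hV u (List.mem_cons_of_mem _ hu)) _ _ fun l hl hG => ?_
    refine h _ (by simp [hl]) fun y hy => ?_
    rcases List.mem_cons.mp hy with rfl | hy
    · exact hV v List.mem_cons_self m
    · exact hG y hy

lemma sm_zero (V : List (Θ → W)) : sm (fun _ => (0 : H)) V = 0 := by
  induction V with
  | nil => rfl
  | cons v V ih => simp only [sm, ih, Finset.sum_const_zero]

lemma sm_neg (F : List W → H) (V : List (Θ → W)) : sm (fun l => - F l) V = - sm F V := by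
  induction V generalizing F with
  | nil => rfl
  | cons v V ih => simp only [sm, ih, Finset.sum_neg_distrib]

lemma sm_sub (F F' : List W → H) (V : List (Θ → W)) :
    sm (fun l => F l - F' l) V = sm F V - sm F' V := by
  induction V generalizing F F' with
  | nil => rfl
  | cons v V ih => simp only [sm, ih, Finset.sum_sub_distrib]

lemma alt_sum {X : Type*} {T : Type*} (S : Finset T) (F : T → List X → H) (l : List X) :
    alt (fun l' => ∑ m ∈ S, F m l') l = ∑ m ∈ S, alt (F m) l := by
  induction l generalizing F with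
  | nil => simp [alt]
  | cons x l ih => simp only [alt, ih, Finset.sum_sub_distrib]

lemma sm_alt (F : List W → H) (V : List (Θ → W)) :
    sm (alt F) V = Fintype.card Θ • alt (sm F) V := by
  induction V generalizing F with
  | nil => simp [sm, alt]
  | cons v V ih =>
    have h1 : ∀ m : Θ, sm (fun l' => alt F (v m :: l')) V =
        sm F V - Fintype.card Θ • alt (sm fun l' => F (v m :: l')) V := by
      intro m
      have : (fun l' => alt F (v m :: l')) = fun l' => F l' - alt (fun l'' => F (v m :: l'')) l' := by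
        funext l'
        rfl
      rw [this, sm_sub, ih]
    have h2 : alt (sm F) (v :: V) = sm F V - ∑ m : Θ, alt (sm fun l' => F (v m :: l')) V := by
      rw [← alt_sum]
      rfl
    rw [h2]
    simp only [sm, h1, Finset.sum_sub_distrib, Finset.sum_const, Finset.card_univ, smul_sub,
      ← Finset.smul_sum]

lemma sm_map (F : List W → H) (f : W → W) (V : List (Θ → W)) :
    sm F (V.map fun v m => f (v m)) = sm (fun l => F (l.map f)) V := by
  induction V generalizing F with
  | nil => rfl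
  | cons v V ih =>
    simp only [List.map_cons, sm]
    exact Finset.sum_congr rfl fun m _ => ih _

/-- exchange of two neighbouring entries -/
def AA (G : W → Prop) (F : List W → H) : Prop :=
  ∀ (l l' : List W) (z z' : W), (∀ y ∈ l ++ z :: z' :: l', G y) →
    F (l ++ z :: z' :: l') = - F (l ++ z' :: z :: l')

lemma AA_cons {G : W → Prop} {F : List W → H} (h : AA G F) (x : W) (hx : G x) :
    AA G (fun l => F (x :: l)) := by
  intro l l' z z' hy
  refine h (x :: l) l' z z' fun y hy' => ?_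
  rw [List.cons_append] at hy'
  rcases List.mem_cons.mp hy' with rfl | hy'
  · exact hx
  · exact hy y hy'

lemma sm_swap (G : W → Prop) (V₁ V₂ : List (Θ → W)) (v v' : Θ → W)
    (hV : Gd G (V₁ ++ v :: v' :: V₂)) (F : List W → H) (hF : AA G F) :
    sm F (V₁ ++ v :: v' :: V₂) = - sm F (V₁ ++ v' :: v :: V₂) := by
  induction V₁ generalizing F with
  | nil =>
    simp only [List.nil_append, sm]
    rw [← Finset.sum_neg_distrib]
    simp only [← Finset.sum_neg_distrib]
    rw [Finset.sum_comm]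
    refine Finset.sum_congr rfl fun m' _ => Finset.sum_congr rfl fun m _ => ?_
    rw [← sm_neg]
    refine sm_congr G V₂ (fun u hu => hV u (by simp [hu])) _ _ fun l _ hl => ?_
    refine hF [] l (v m) (v' m') fun y hy => ?_
    rw [List.nil_append] at hy
    rcases List.mem_cons.mp hy with rfl | hy
    · exact hV v (by simp) m
    rcases List.mem_cons.mp hy with rfl | hy
    · exact hV v' (by simp) m'
    · exact hl y hy
  | cons u V₁ ih =>
    simp only [List.cons_append, sm]
    rw [← Finset.sum_neg_distrib]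
    refine Finset.sum_congr rfl fun m _ => ?_
    exact ih (fun z hz => hV z (List.mem_cons_of_mem _ hz)) _
      (AA_cons hF _ (hV u List.mem_cons_self m))

lemma sm_eq_zero (h2 : ∀ h : H, h + h = 0 → h = 0) (G : W → Prop) (V₁ V₂ : List (Θ → W))
    (v : Θ → W) (hV : Gd G (V₁ ++ v :: v :: V₂)) (F : List W → H) (hF : AA G F) :
    sm F (V₁ ++ v :: v :: V₂) = 0 := by
  apply h2
  have := sm_swap G V₁ V₂ v v hV F hF
  nth_rewrite 1 [this]
  exact neg_add_cancel _

lemma sm_move (G : W → Prop) (V₁ V₂ : List (Θ → W)) (v : Θ → W)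
    (hV : Gd G (V₁ ++ (V₂ ++ [v]))) (F : List W → H) (hF : AA G F) :
    sm F (V₁ ++ (V₂ ++ [v])) = (-1 : ℤ) ^ V₂.length • sm F (V₁ ++ v :: V₂) := by
  induction V₂ generalizing V₁ with
  | nil => simp
  | cons u V₂ ih =>
    have h1 : V₁ ++ (u :: V₂ ++ [v]) = (V₁ ++ [u]) ++ (V₂ ++ [v]) := by simp
    have h2 : (V₁ ++ [u]) ++ v :: V₂ = V₁ ++ u :: v :: V₂ := by simp
    rw [h1, ih (V₁ ++ [u]) (by rw [← h1]; exact hV), h2,
      sm_swap G V₁ V₂ u v (fun z hz m => hV z (by
        simp only [List.mem_append, List.mem_cons, List.cons_append] at hz ⊢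
        tauto) m) F hF,
      List.length_cons, pow_succ]
    simp

lemma sm_ends (h2 : ∀ h : H, h + h = 0 → h = 0) (G : W → Prop) (V : List (Θ → W))
    (v : Θ → W) (hV : Gd G (v :: (V ++ [v]))) (F : List W → H) (hF : AA G F) :
    sm F (v :: (V ++ [v])) = 0 := by
  have h := sm_move G [v] V v hV F hF
  have h3 : sm F ([v] ++ v :: V) = 0 := by
    refine sm_eq_zero h2 G [] V v (fun z hz m => hV z (by
      simp only [List.mem_append, List.mem_cons, List.nil_append] at hz ⊢
      tauto) m) F hF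
  rw [h3, smul_zero] at h
  exact h

/-- right multiplication by elements of `K` -/
def RC (G : W → Prop) (mul : W → W → W) (K : Set W) (F : List W → H) : Prop :=
  ∀ (l l' : List W) (z k : W), k ∈ K → (∀ y ∈ l ++ z :: l', G y) →
    F (l ++ (mul z k) :: l') = F (l ++ z :: l')

lemma sm_rc (G : W → Prop) (mul : W → W → W) (K : Set W) (V₁ V₂ : List (Θ → W)) (v κ : Θ → W)
    (hκ : ∀ m, κ m ∈ K) (hV : Gd G (V₁ ++ v :: V₂)) (F : List W → H) (hF : RC G mul K F) :
    sm F (V₁ ++ (fun m => mul (v m) (κ m)) :: V₂) = sm F (V₁ ++ v :: V₂) := by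
  induction V₁ generalizing F with
  | nil =>
    simp only [List.nil_append, sm]
    refine Finset.sum_congr rfl fun m _ => ?_
    refine sm_congr G V₂ (fun u hu => hV u (by simp [hu])) _ _ fun l _ hl => ?_
    refine hF [] l (v m) (κ m) (hκ m) fun y hy => ?_
    rw [List.nil_append] at hy
    rcases List.mem_cons.mp hy with rfl | hy
    · exact hV v (by simp) m
    · exact hl y hy
  | cons u V₁ ih =>
    simp only [List.cons_append, sm]
    refine Finset.sum_congr rfl fun m _ => ?_
    refine ih (fun z hz => hV z (List.mem_cons_of_mem _ hz)) _ ?_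
    intro l l' z k hk hy
    refine hF (u m :: l) l' z k hk fun y hy' => ?_
    rw [List.cons_append] at hy'
    rcases List.mem_cons.mp hy' with rfl | hy'
    · exact hV u List.mem_cons_self m
    · exact hy y hy'

lemma sm_perm (V₁ V₂ : List (Θ → W)) (v : Θ → W) (π : Θ ≃ Θ) (F : List W → H) :
    sm F (V₁ ++ (fun m => v (π m)) :: V₂) = sm F (V₁ ++ v :: V₂) := by
  induction V₁ generalizing F with
  | nil =>
    simp only [List.nil_append, sm]
    exact Equiv.sum_comp π fun m => sm (fun l' => F (v m :: l')) V₂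
  | cons u V₁ ih =>
    simp only [List.cons_append, sm]
    exact Finset.sum_congr rfl fun m _ => ih _

end sums

/-! ### merging two neighbouring arrows -/

section merge

variable {N : ℕ} {G : Type u} [Group G] {ι : Type}

/-- `l'` arises from `l` by merging two neighbouring entries. -/
inductive Mg : List (Arr N G ι) → List (Arr N G ι) → Prop
  | head (x y : Arr N G ι) (l : List (Arr N G ι)) : Mg (x :: y :: l) ((x * y) :: l)
  | cons (x : Arr N G ι) (l l' : List (Arr N G ι)) (h : Mg l l') : Mg (x :: l) (x :: l')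

lemma mg_congr {H : Type v} [AddCommGroup H] (l : List (Arr N G ι)) (F F' : List (Arr N G ι) → H)
    (h : ∀ l', Mg l l' → F l' = F' l') : mg F l = mg F' l := by
  induction l generalizing F F' with
  | nil => rfl
  | cons x l ih =>
    cases l with
    | nil => rfl
    | cons y l =>
      show F ((x * y) :: l) - mg (fun l' => F (x :: l')) (y :: l) =
        F' ((x * y) :: l) - mg (fun l' => F' (x :: l')) (y :: l)
      rw [h _ (Mg.head x y l), ih (fun l' => F (x :: l')) (fun l' => F' (x :: l'))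
        fun l' hl' => h _ (Mg.cons x _ _ hl')]

lemma mg_zero {H : Type v} [AddCommGroup H] (l : List (Arr N G ι)) :
    mg (fun _ => (0 : H)) l = 0 := by
  induction l with
  | nil => rfl
  | cons x l ih =>
    cases l with
    | nil => rfl
    | cons y l =>
      show (0 : H) - mg (fun _ => (0 : H)) (y :: l) = 0
      rw [ih, sub_zero]

/-- the source of a list -/
def fs : List (Arr N G ι) → Option (ZMod N → ι)
  | [] => none
  | a :: _ => some a.s

/-- the target of a list -/
def lt : List (Arr N G ι) → Option (ZMod N → ι)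
  | [] => none
  | a :: l => some (lst a l).t

@[simp] lemma mul_s (x y : Arr N G ι) : (x * y).s = x.s := rfl
@[simp] lemma mul_w (x y : Arr N G ι) : (x * y).w = x.w * y.w := rfl
@[simp] lemma mul_t (x y : Arr N G ι) : (x * y).t = y.t := rfl

lemma clo_iff (l : List (Arr N G ι)) : Clo l ↔ l ≠ [] ∧ Cmp l ∧ lt l = fs l := by
  cases l with
  | nil => simp [Clo]
  | cons a l => simp [Clo, lt, fs]

lemma cmp_cons (x : Arr N G ι) (l : List (Arr N G ι)) :
    Cmp (x :: l) ↔ (l = [] ∨ fs l = some x.t) ∧ Cmp l := by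
  cases l with
  | nil => simp [Cmp]
  | cons y l =>
    simp only [Cmp, fs, Option.some.injEq, reduceCtorEq, false_or]
    exact and_congr_left' eq_comm

lemma lt_cons (x : Arr N G ι) (l : List (Arr N G ι)) (hl : l ≠ []) : lt (x :: l) = lt l := by
  cases l with
  | nil => exact absurd rfl hl
  | cons y l => rfl

lemma lt_append (l l' : List (Arr N G ι)) (hl : l' ≠ []) : lt (l ++ l') = lt l' := by
  induction l with
  | nil => rfl
  | cons x l ih => rw [List.cons_append, lt_cons _ _ (by simp [hl]), ih]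

lemma Mg_ne {l l' : List (Arr N G ι)} (h : Mg l l') : l ≠ [] ∧ l' ≠ [] := by
  cases h <;> simp

lemma Mg_len {l l' : List (Arr N G ι)} (h : Mg l l') : l.length = l'.length + 1 := by
  induction h with
  | head x y l => simp
  | cons x l l' _ ih => simp [ih]

lemma Mg_fs {l l' : List (Arr N G ι)} (h : Mg l l') : fs l' = fs l := by
  cases h <;> rfl

lemma Mg_lt {l l' : List (Arr N G ι)} (h : Mg l l') : lt l' = lt l := by
  induction h with
  | head x y l =>
    cases l with
    | nil => rfl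
    | cons z l => rfl
  | cons x l l' h ih => rw [lt_cons _ _ (Mg_ne h).2, lt_cons _ _ (Mg_ne h).1, ih]

lemma Mg_cmp {l l' : List (Arr N G ι)} (h : Mg l l') (hc : Cmp l) : Cmp l' := by
  induction h with
  | head x y l =>
    rw [cmp_cons] at hc ⊢
    rw [cmp_cons] at hc
    refine ⟨?_, hc.2.2⟩
    rcases hc.2.1 with h | h
    · exact Or.inl h
    · exact Or.inr h
  | cons x l l' h ih =>
    rw [cmp_cons] at hc ⊢
    refine ⟨Or.inr ?_, ih hc.2⟩
    rw [Mg_fs h]
    exact hc.1.resolve_left (Mg_ne h).1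

lemma Mg_clo {l l' : List (Arr N G ι)} (h : Mg l l') (hc : Clo l) : Clo l' := by
  rw [clo_iff] at hc ⊢
  exact ⟨(Mg_ne h).2, Mg_cmp h hc.2.1, by rw [Mg_lt h, Mg_fs h]; exact hc.2.2⟩

lemma Mg_prod {l l' : List (Arr N G ι)} (h : Mg l l') :
    (l'.map Arr.w).prod = (l.map Arr.w).prod := by
  induction h with
  | head x y l => simp [mul_assoc]
  | cons x l l' _ ih => simp [ih]

lemma cmp_append (l : List (Arr N G ι)) (x : Arr N G ι) (l' : List (Arr N G ι)) :
    Cmp (l ++ x :: l') ↔ Cmp l ∧ (l = [] ∨ lt l = some x.s) ∧ Cmp (x :: l') := by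
  induction l with
  | nil => simp [Cmp]
  | cons y l ih =>
    rw [List.cons_append, cmp_cons, cmp_cons y l, ih]
    cases l with
    | nil =>
      simp only [List.nil_append, fs, Cmp, lt, lst, Option.some.injEq, reduceCtorEq, false_or,
        true_or, true_and, eq_comm]
    | cons z l =>
      simp only [List.cons_append, fs, reduceCtorEq, false_or, Option.some.injEq]
      rw [lt_cons y (z :: l) (by simp)]
      tauto

end merge

/-! ### the families of vertices -/

section fam

variable {N : ℕ} {G : Type u} [Group G] {ι : Type} {Θ : Type w}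
  (s : WR N G → WR N G) (θ : (ZMod N → ι) → Θ → WR N G) (g : WR N G)

/-- The families of vertices. -/
def vs : WR N G → List (Arr N G ι) → List (Θ → WR N G)
  | _, [] => []
  | a, r :: l => (fun m => vtx s g (a * r.w) (θ r.t m)) :: vs (a * r.w) l

lemma vs_length (a : WR N G) (l : List (Arr N G ι)) : (vs s θ g a l).length = l.length := by
  induction l generalizing a with
  | nil => rfl
  | cons r l ih => simp only [vs, List.length_cons, ih]

lemma xs_eq {H : Type v} [AddCommGroup H] [Fintype Θ] (a : WR N G) (F : List (WR N G) → H)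
    (l : List (Arr N G ι)) : xs s θ g a F l = sm F (vs s θ g a l) := by
  induction l generalizing a F with
  | nil => rfl
  | cons r l ih => simp only [xs, vs, sm, ih]

lemma vs_append (a : WR N G) (l l' : List (Arr N G ι)) :
    vs s θ g a (l ++ l') = vs s θ g a l ++ vs s θ g (a * (l.map Arr.w).prod) l' := by
  induction l generalizing a with
  | nil => simp [vs]
  | cons r l ih => simp only [List.cons_append, vs, ih, List.map_cons, List.prod_cons, mul_assoc]

lemma vtx_conj (b a θ₀ : WR N G) : vtx s (b * g * b⁻¹) (b * a) θ₀ = b * vtx s g a θ₀ := by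
  unfold vtx
  rw [show (b * a * θ₀)⁻¹ * (b * g * b⁻¹) * (b * a * θ₀) = (a * θ₀)⁻¹ * g * (a * θ₀) by group]
  group

lemma vs_conj (b a : WR N G) (l : List (Arr N G ι)) :
    vs s θ (b * g * b⁻¹) (b * a) l = (vs s θ g a l).map fun v m => b * v m := by
  induction l generalizing a with
  | nil => rfl
  | cons r l ih =>
    simp only [vs, List.map_cons, mul_assoc b a r.w, ih, vtx_conj]

lemma mg_vs {H : Type v} [AddCommGroup H] (Ψ : List (Θ → WR N G) → H) (a : WR N G)
    (l : List (Arr N G ι)) (b : Arr N G ι) :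
    mg (fun l => Ψ (vs s θ g a l)) (l ++ [b]) =
      alt Ψ (vs s θ g a (l ++ [b])) - (-1 : ℤ) ^ l.length • Ψ (vs s θ g a l) := by
  induction l generalizing Ψ a with
  | nil => simp [mg, vs, alt]
  | cons x l ih =>
    have key : ∀ (y : Arr N G ι) (l'' : List (Arr N G ι)), l ++ [b] = y :: l'' →
        mg (fun l => Ψ (vs s θ g a l)) (x :: (l ++ [b])) =
        Ψ (vs s θ g (a * x.w) (l ++ [b])) - mg (fun l' => (fun V => Ψ ((fun m =>
          vtx s g (a * x.w) (θ x.t m)) :: V)) (vs s θ g (a * x.w) l')) (l ++ [b]) := by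
      intro y l'' h
      rw [h]
      show Ψ (vs s θ g a ((x * y) :: l'')) - mg (fun l' => Ψ (vs s θ g a (x :: l'))) (y :: l'') = _
      simp only [vs, mul_w, mul_t, mul_assoc]
    obtain ⟨y, l'', h⟩ : ∃ y l'', l ++ [b] = y :: l'' := by
      cases l with
      | nil => exact ⟨b, [], rfl⟩
      | cons z l => exact ⟨z, l ++ [b], rfl⟩
    rw [List.cons_append, key y l'' h, ih (fun V => Ψ ((fun m =>
      vtx s g (a * x.w) (θ x.t m)) :: V)) (a * x.w)]
    simp only [vs, alt, List.length_cons, pow_succ]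
    rw [mul_neg_one, neg_smul]
    abel

variable {c : WR N G} {K : Set (WR N G)}

lemma gd_vs (hs : IsSec c K s θ) (hg : ∃ z, z * c * z⁻¹ = g) (a : WR N G)
    (l : List (Arr N G ι)) : Gd (fun y => y * c * y⁻¹ = g) (vs s θ g a l) := by
  obtain ⟨z, hz⟩ := hg
  induction l generalizing a with
  | nil => intro v hv; simp [vs] at hv
  | cons r l ih =>
    intro v hv m
    rcases List.mem_cons.mp hv with rfl | hv
    · have h1 := hs.sec ((a * r.w * θ r.t m)⁻¹ * g * (a * r.w * θ r.t m))
        ⟨(a * r.w * θ r.t m)⁻¹ * z, by rw [← hz]; group⟩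
      show vtx s g (a * r.w) (θ r.t m) * c * (vtx s g (a * r.w) (θ r.t m))⁻¹ = g
      unfold vtx
      generalize a * r.w * θ r.t m = q at h1 ⊢
      rw [mul_inv_rev, show q * s (q⁻¹ * g * q) * c * ((s (q⁻¹ * g * q))⁻¹ * q⁻¹) =
        q * (s (q⁻¹ * g * q) * c * (s (q⁻¹ * g * q))⁻¹) * q⁻¹ by group, h1]
      group
    · exact ih _ v hv m

end fam

lemma sameC {W : Type u} [Group W] {c g : W} {l : List W} (h : ∀ y ∈ l, y * c * y⁻¹ = g) :
    SameC c l := fun z hz z' hz' => by rw [h z hz, h z' hz']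

section isF

variable {W : Type u} [Group W] {H : Type v} [AddCommGroup H] {n : ℕ} {c : W} {K : Set W}
  {F : List W → H}

lemma isF_AA (hF : IsF n c K F) (g : W) : AA (fun y => y * c * y⁻¹ = g) F :=
  fun l l' z z' h => hF.aa l l' z z' (sameC h)

lemma isF_RC (hF : IsF n c K F) (g : W) : RC (fun y => y * c * y⁻¹ = g) (fun a b => a * b) K F :=
  fun l l' z k hk h => hF.rc l l' z k hk (sameC h)

end isF

/-! ### the cochain on arrows -/

section xa

variable {N : ℕ} {G : Type u} [Group G] {ι : Type} {H : Type v} [AddCommGroup H]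
  {Θ : Type w} [Fintype Θ] {n : ℕ} {c : WR N G} {K : Set (WR N G)}
  {s : WR N G → WR N G} {θ : (ZMod N → ι) → Θ → WR N G} {F : List (WR N G) → H}

lemma XA_pos {l : List (Arr N G ι)} (h1 : l.length = n + 1) (h2 : Clo l)
    (h3 : ∃ z, z * c * z⁻¹ = (l.map Arr.w).prod) :
    XA n c s θ F l = sm F (vs s θ (l.map Arr.w).prod 1 l) := by
  unfold XA
  rw [if_pos ⟨h1, h2, h3⟩, xs_eq]

lemma XA_neg {l : List (Arr N G ι)}
    (h : ¬ (l.length = n + 1 ∧ Clo l ∧ ∃ z, z * c * z⁻¹ = (l.map Arr.w).prod)) :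
    XA n c s θ F l = 0 := by
  unfold XA
  rw [if_neg h]

lemma XA_one (hn : 0 < n) (h2 : ∀ h : H, h + h = 0 → h = 0) (hs : IsSec c K s θ)
    (hF : IsF n c K F) (l l' : List (Arr N G ι)) (I : ZMod N → ι) :
    XA n c s θ F (l ++ ⟨I, 1, I⟩ :: l') = 0 := by
  by_cases h : (l ++ (⟨I, 1, I⟩ : Arr N G ι) :: l').length = n + 1 ∧
      Clo (l ++ (⟨I, 1, I⟩ : Arr N G ι) :: l') ∧
      ∃ z, z * c * z⁻¹ = ((l ++ (⟨I, 1, I⟩ : Arr N G ι) :: l').map Arr.w).prod
  swap
  · exact XA_neg h
  obtain ⟨hl, hc, hz⟩ := h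
  rw [XA_pos hl hc hz]
  have hgd := gd_vs s θ _ hs hz 1 (l ++ (⟨I, 1, I⟩ : Arr N G ι) :: l')
  generalize hg : ((l ++ (⟨I, 1, I⟩ : Arr N G ι) :: l').map Arr.w).prod = g at *
  rw [clo_iff] at hc
  rcases List.eq_nil_or_concat' l with rfl | ⟨L, r, rfl⟩
  · -- position `0`
    rw [List.nil_append] at *
    rcases List.eq_nil_or_concat' l' with rfl | ⟨L, r, rfl⟩
    · simp at hl
      omega
    · have hr : r.t = I := by
        have h1 := hc.2.2
        rw [lt_cons _ _ (by simp), lt_append _ _ (by simp)] at h1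
        simpa [lt, lst, fs] using h1
      have hgp : (1 : WR N G) * 1 * (L.map Arr.w).prod * r.w = g := by
        rw [← hg]
        simp
      have hv : vs s θ g 1 ((⟨I, 1, I⟩ : Arr N G ι) :: (L ++ [r])) =
          (fun m => vtx s g 1 (θ I m)) :: (vs s θ g 1 L ++
            [fun m => vtx s g 1 (θ I m) * c]) := by
        rw [vs, vs_append]
        simp only [vs, hr, mul_one, one_mul] at hgp ⊢
        congr 2
        congr 1
        funext m
        rw [hgp]
        obtain ⟨z, hz⟩ := hz
        have h1 := hs.sec ((θ I m)⁻¹ * g * θ I m) ⟨(θ I m)⁻¹ * z, by rw [← hz]; group⟩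
        unfold vtx
        rw [show (g * θ I m)⁻¹ * g * (g * θ I m) = (θ I m)⁻¹ * g * θ I m by group,
          show (1 * θ I m)⁻¹ * g * (1 * θ I m) = (θ I m)⁻¹ * g * θ I m by group]
        generalize (θ I m) = q at h1 ⊢
        have h3 : s (q⁻¹ * g * q) * c = q⁻¹ * g * q * s (q⁻¹ * g * q) :=
          mul_inv_eq_iff_eq_mul.mp h1
        rw [one_mul, mul_assoc q, h3]
        group
      rw [hv] at hgd ⊢
      have h5 := sm_rc (fun y => y * c * y⁻¹ = g) (fun a b => a * b) K
        ((fun m => vtx s g 1 (θ I m)) :: vs s θ g 1 L) [] (fun m => vtx s g 1 (θ I m))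
        (fun _ => c) (fun _ => hs.mem) ?_ F (isF_RC hF g)
      · rw [List.cons_append, List.cons_append] at h5
        rw [h5]
        refine sm_ends h2 (fun y => y * c * y⁻¹ = g) _ _ ?_ F (isF_AA hF g)
        intro v hv m
        rcases List.mem_cons.mp hv with rfl | hv
        · exact hgd _ List.mem_cons_self m
        rcases List.mem_append.mp hv with hv | hv
        · exact hgd v (by simp [hv]) m
        · rw [List.mem_singleton] at hv
          subst hv
          exact hgd _ List.mem_cons_self m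
      · intro v hv m
        rw [List.cons_append] at hv
        rcases List.mem_cons.mp hv with rfl | hv
        · exact hgd _ List.mem_cons_self m
        rcases List.mem_append.mp hv with hv | hv
        · exact hgd v (by simp [hv]) m
        · rw [List.mem_singleton] at hv
          subst hv
          exact hgd _ List.mem_cons_self m
  · -- position at least `1`
    have hr : r.t = I := by
      have h1 := hc.2.1
      rw [List.append_assoc, List.singleton_append, cmp_append] at h1
      have h3 := h1.2.2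
      rw [cmp_cons] at h3
      have h4 := h3.1.resolve_left (by simp)
      exact (Option.some.inj h4).symm
    have hv : vs s θ g 1 (L ++ [r] ++ (⟨I, 1, I⟩ : Arr N G ι) :: l') =
        vs s θ g 1 L ++ (fun m => vtx s g (1 * (L.map Arr.w).prod * r.w) (θ I m)) ::
          (fun m => vtx s g (1 * (L.map Arr.w).prod * r.w) (θ I m)) ::
          vs s θ g (1 * (L.map Arr.w).prod * r.w * 1) l' := by
      rw [List.append_assoc, vs_append, List.singleton_append]
      simp only [vs, hr, mul_one]
    rw [hv] at hgd ⊢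
    exact sm_eq_zero h2 (fun y => y * c * y⁻¹ = g) _ _ _ hgd F (isF_AA hF g)

lemma cmp_replace (l l' : List (Arr N G ι)) (x y x' y' : Arr N G ι) (h1 : x.s = x'.s)
    (h2 : y.t = y'.t) (h3 : x.t = y.s) (h4 : x'.t = y'.s) :
    Clo (l ++ x :: y :: l') ↔ Clo (l ++ x' :: y' :: l') := by
  rw [clo_iff, clo_iff, cmp_append, cmp_append, cmp_cons, cmp_cons, cmp_cons, cmp_cons,
    lt_append _ _ (by simp), lt_append _ _ (by simp), lt_cons x _ (by simp),
    lt_cons x' _ (by simp)]
  have e1 : lt (y :: l') = lt (y' :: l') := by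
    cases l' with
    | nil => simp [lt, lst, h2]
    | cons z l' => rfl
  have e2 : fs (l ++ x :: y :: l') = fs (l ++ x' :: y' :: l') := by
    cases l with
    | nil => simp [fs, h1]
    | cons z l => rfl
  rw [e1, e2, h1, h2]
  simp [fs, h3, h4]

lemma XA_tau (hs : IsSec c K s θ) (hF : IsF n c K F) (l l' : List (Arr N G ι))
    (I J J' : ZMod N → ι) (w w' : WR N G) :
    XA n c s θ F (l ++ ⟨I, w * tW N G, sh J⟩ :: ⟨sh J, w', J'⟩ :: l') =
      XA n c s θ F (l ++ ⟨I, w, J⟩ :: ⟨J, tW N G * w', J'⟩ :: l') := by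
  have hp : ((l ++ (⟨I, w * tW N G, sh J⟩ : Arr N G ι) :: ⟨sh J, w', J'⟩ :: l').map Arr.w).prod =
      ((l ++ (⟨I, w, J⟩ : Arr N G ι) :: ⟨J, tW N G * w', J'⟩ :: l').map Arr.w).prod := by
    simp [mul_assoc]
  have hc := cmp_replace l l' (⟨I, w * tW N G, sh J⟩ : Arr N G ι) ⟨sh J, w', J'⟩ ⟨I, w, J⟩
    ⟨J, tW N G * w', J'⟩ rfl rfl rfl rfl
  have hl : (l ++ (⟨I, w * tW N G, sh J⟩ : Arr N G ι) :: ⟨sh J, w', J'⟩ :: l').length =
      (l ++ (⟨I, w, J⟩ : Arr N G ι) :: ⟨J, tW N G * w', J'⟩ :: l').length := by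
    simp
  by_cases h : (l ++ (⟨I, w * tW N G, sh J⟩ : Arr N G ι) :: ⟨sh J, w', J'⟩ :: l').length = n + 1 ∧
      Clo (l ++ (⟨I, w * tW N G, sh J⟩ : Arr N G ι) :: ⟨sh J, w', J'⟩ :: l') ∧
      ∃ z, z * c * z⁻¹ =
        ((l ++ (⟨I, w * tW N G, sh J⟩ : Arr N G ι) :: ⟨sh J, w', J'⟩ :: l').map Arr.w).prod
  swap
  · rw [XA_neg h, XA_neg (by rwa [hp, hc, hl] at h)]
  obtain ⟨hl', hc', hz⟩ := h
  rw [XA_pos hl' hc' hz, XA_pos (hl ▸ hl') (hc.mp hc') (hp ▸ hz), ← hp]
  have hgd := gd_vs s θ _ hs hz 1 (l ++ (⟨I, w * tW N G, sh J⟩ : Arr N G ι) :: ⟨sh J, w', J'⟩ :: l')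
  generalize hg : ((l ++ (⟨I, w * tW N G, sh J⟩ : Arr N G ι) :: ⟨sh J, w', J'⟩ :: l').map
    Arr.w).prod = g at *
  rw [vs_append] at hgd ⊢
  rw [vs_append]
  simp only [vs] at hgd ⊢
  rw [show 1 * (l.map Arr.w).prod * w * (tW N G * w') =
    1 * (l.map Arr.w).prod * (w * tW N G) * w' by group]
  obtain ⟨π, hπ⟩ := hs.fam J
  obtain ⟨z, hz⟩ := hz
  have hκ : ∀ m, ∃ κ ∈ K, vtx s g (1 * (l.map Arr.w).prod * w) (θ J (π m)) =
      vtx s g (1 * (l.map Arr.w).prod * (w * tW N G)) (θ (sh J) m) * κ := by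
    intro m
    rw [hπ m]
    unfold vtx
    rw [show 1 * (l.map Arr.w).prod * (w * tW N G) * ((tW N G)⁻¹ * θ J (π m) * tW N G) =
      1 * (l.map Arr.w).prod * w * θ J (π m) * tW N G by group]
    generalize 1 * (l.map Arr.w).prod * w * θ J (π m) = q
    obtain ⟨κ, _, hκ, h⟩ := hs.str ((q * tW N G)⁻¹ * g * (q * tW N G))
      ⟨(q * tW N G)⁻¹ * z, by rw [← hz]; group⟩
    refine ⟨κ, hκ, ?_⟩
    rw [show tW N G * ((q * tW N G)⁻¹ * g * (q * tW N G)) * (tW N G)⁻¹ = q⁻¹ * g * q by group] at h
    rw [h]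
    group
  choose κ hκ1 hκ2 using hκ
  have h5 := sm_rc (fun y => y * c * y⁻¹ = g) (fun a b => a * b) K _ _ _ κ hκ1 hgd F
    (isF_RC hF g)
  rw [← h5]
  simp only [← hκ2]
  exact sm_perm _ _ (fun m => vtx s g (1 * (l.map Arr.w).prod * w) (θ J m)) π F

lemma XA_cyc (hΘ : ∀ h : H, Fintype.card Θ • h = 0 → h = 0) (hs : IsSec c K s θ)
    (hF : IsF n c K F) (a b : Arr N G ι) (l : List (Arr N G ι)) (hl : l.length = n)
    (hc : Clo (a :: (l ++ [b]))) :
    mg (XA n c s θ F) (a :: (l ++ [b])) + (-1 : ℤ) ^ (n + 1) • XA n c s θ F ((b * a) :: l) = 0 := by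
  have hp' : (((b * a) :: l).map Arr.w).prod =
      b.w * ((a :: (l ++ [b])).map Arr.w).prod * b.w⁻¹ := by
    simp [mul_assoc]
  have hc' : Clo ((b * a) :: l) := by
    rw [clo_iff] at hc ⊢
    obtain ⟨-, h1, h2⟩ := hc
    rw [← List.cons_append, cmp_append] at h1
    obtain ⟨h1, h3, -⟩ := h1
    have h3 := h3.resolve_left (by simp)
    refine ⟨by simp, ?_, ?_⟩
    · rw [cmp_cons] at h1 ⊢
      exact h1
    · have h4 : lt ((b * a) :: l) = lt (a :: l) := by
        cases l with
        | nil => rfl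
        | cons z l => rfl
      rw [h4, h3]
      rfl
  by_cases hz : ∃ z, z * c * z⁻¹ = ((a :: (l ++ [b])).map Arr.w).prod
  swap
  · have h1 : mg (XA n c s θ F) (a :: (l ++ [b])) = mg (fun _ => (0 : H)) (a :: (l ++ [b])) := by
      refine mg_congr _ _ _ fun l' hl' => XA_neg fun h => hz ?_
      rw [← Mg_prod hl']
      exact h.2.2
    rw [h1, mg_zero, XA_neg, smul_zero, zero_add]
    rintro ⟨-, -, z, hz'⟩
    refine hz ⟨b.w⁻¹ * z, ?_⟩
    rw [hp'] at hz'
    rw [show b.w⁻¹ * z * c * (b.w⁻¹ * z)⁻¹ = b.w⁻¹ * (z * c * z⁻¹) * b.w by group, hz']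
    group
  have hgd := gd_vs s θ _ hs hz 1 (a :: (l ++ [b]))
  have hgd' := gd_vs s θ _ hs hz 1 (a :: l)
  have h1 : mg (XA n c s θ F) (a :: (l ++ [b])) =
      mg (fun l' => sm F (vs s θ ((a :: (l ++ [b])).map Arr.w).prod 1 l')) (a :: (l ++ [b])) := by
    refine mg_congr _ _ _ fun l' hl' => ?_
    have hlen := Mg_len hl'
    simp only [List.length_cons, List.length_append, List.length_nil, hl] at hlen
    rw [XA_pos (by omega) (Mg_clo hl' hc) (by rw [Mg_prod hl']; exact hz), Mg_prod hl']
  have h2 : XA n c s θ F ((b * a) :: l) =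
      sm F (vs s θ ((a :: (l ++ [b])).map Arr.w).prod 1 (a :: l)) := by
    have hz' : ∃ z, z * c * z⁻¹ = (((b * a) :: l).map Arr.w).prod := by
      obtain ⟨z, hz⟩ := hz
      refine ⟨b.w * z, ?_⟩
      rw [hp', ← hz]
      group
    rw [XA_pos (by simp [hl]) hc' hz', hp']
    generalize ((a :: (l ++ [b])).map Arr.w).prod = g at *
    have h3 : vs s θ (b.w * g * b.w⁻¹) 1 ((b * a) :: l) =
        (vs s θ g 1 (a :: l)).map fun v m => b.w * v m := by
      simp only [vs, mul_w, mul_t, List.map_cons, one_mul, vs_conj, vtx_conj]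
    rw [h3, sm_map]
    refine sm_congr (fun y => y * c * y⁻¹ = g) _ hgd' _ _ fun l' _ h => ?_
    exact hF.inv b.w l' (sameC h)
  rw [h1, h2]
  generalize ((a :: (l ++ [b])).map Arr.w).prod = g at *
  rw [← List.cons_append] at hgd ⊢
  rw [mg_vs, List.length_cons, hl, sub_add_cancel]
  apply hΘ
  rw [← sm_alt]
  rw [← sm_zero (H := H) (vs s θ g 1 (a :: l ++ [b]))]
  refine sm_congr (fun y => y * c * y⁻¹ = g) _ hgd _ _ fun l' h3 h => ?_
  refine hF.cls l' ?_ (sameC h)
  rw [h3, vs_length]
  simp [hl]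

end xa

end VTXM

theorem specVTX : SpecVTX.{u, v, w} := by
  intro N n _ hn G _ ι H _ h2 Θ _ hΘ c K s θ hs F hF
  refine ⟨fun l hl => VTXM.XA_neg fun h => hl h.1, fun l hl => VTXM.XA_neg fun h => hl h.2.1,
    fun l l' I => VTXM.XA_one hn h2 hs hF l l' I,
    fun l l' I J J' w w' => VTXM.XA_tau hs hF l l' I J J' w w',
    fun a b l hl hc => VTXM.XA_cyc hΘ hs hF a b l hl hc⟩

end Pool.Agent.Lib.MPb6f35e.KA
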