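import Pool.Agent.Lib.MP_b6f35e_al.KA.SpecD

/-!
# MP_b6f35e_al, KA: XEX, the additive extension of a cochain on arrows
-/

set_option autoImplicit false

noncomputable section

namespace Pool.Agent.Lib.MPb6f35e.KA

open Pool.Agent.Lib.MPb6f35e.WH Pool.Agent.Lib.MPb6f35e.K2

universe u v w x y

namespace XEXM

variable {N : ℕ} [NeZero N] {G : Type u} [Group G] {ι : Type} [Fintype ι] [DecidableEq ι]

/-! ### the linear extension -/

lemma linS_single (φ : Arr N G ι → ZMod N) (I J : ZMod N → ι) (w : WR N G) (a : ZMod N) :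
    linS φ (Matrix.single I J (MonoidAlgebra.single w a)) = a * φ ⟨I, w, J⟩ := by
  have h0 : linS φ (Matrix.single I J (MonoidAlgebra.single w a)) = ∑ I' : ZMod N → ι,
      ∑ J' : ZMod N → ι, (((Matrix.single I J (MonoidAlgebra.single w a) : SR N G ι) I' J').coeff.sum
        fun x b => b * φ ⟨I', x, J'⟩) := by
    unfold linS
    rw [AddMonoidHom.finsetSum_apply]
    refine Finset.sum_congr rfl (fun I' _ => ?_)
    rw [AddMonoidHom.finsetSum_apply]
    rfl
  rw [h0, Finset.sum_eq_single I, Finset.sum_eq_single J]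
  · rw [Matrix.single_apply_same, MonoidAlgebra.coeff_single, Finsupp.sum_single_index (zero_mul _)]
  · intro J' _ hJ
    rw [Matrix.single_apply_of_ne _ _ _ _ _ fun h => hJ h.2.symm]
    rfl
  · intro h
    exact absurd (Finset.mem_univ _) h
  · intro I' _ hI
    refine Finset.sum_eq_zero (fun J' _ => ?_)
    rw [Matrix.single_apply_of_ne _ _ _ _ _ fun h => hI h.1.symm]
    rfl
  · intro h
    exact absurd (Finset.mem_univ _) h

lemma S_ind {p : SR N G ι → Prop} (h0 : p 0) (hadd : ∀ x y, p x → p y → p (x + y))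
    (hs : ∀ I J w a, p (Matrix.single I J (MonoidAlgebra.single w a))) (s : SR N G ι) : p s := by
  have h1 : ∀ I J (m : MonoidAlgebra (ZMod N) (WR N G)), p (Matrix.single I J m) := by
    intro I J m
    induction m using MonoidAlgebra.induction_linear with
    | zero => rw [Matrix.single_zero]; exact h0
    | add x y hx hy => rw [Matrix.single_add]; exact hadd _ _ hx hy
    | single w a => exact hs I J w a
  rw [Matrix.matrix_eq_sum_single s]
  refine Finset.sum_induction _ p hadd h0 (fun I _ => ?_)
  exact Finset.sum_induction _ p hadd h0 (fun J _ => h1 I J _)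

lemma S_ext {H : Type w} [AddCommGroup H] {f g : SR N G ι →+ H}
    (h : ∀ I J w a, f (Matrix.single I J (MonoidAlgebra.single w a)) =
      g (Matrix.single I J (MonoidAlgebra.single w a))) (s : SR N G ι) : f s = g s := by
  induction s using S_ind with
  | h0 => rw [map_zero, map_zero]
  | hadd x y hx hy => rw [map_add, map_add, hx, hy]
  | hs I J w a => exact h I J w a

lemma linS_add (φ ψ : Arr N G ι → ZMod N) (s : SR N G ι) :
    linS (fun r => φ r + ψ r) s = linS φ s + linS ψ s := by
  have h := S_ext (f := linS (fun r => φ r + ψ r)) (g := linS φ + linS ψ) (fun I J w a => by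
    rw [AddMonoidHom.add_apply, linS_single, linS_single, linS_single, mul_add]) s
  rw [h, AddMonoidHom.add_apply]

lemma linS_zero (s : SR N G ι) : linS (fun _ : Arr N G ι => (0 : ZMod N)) s = 0 := by
  have h := S_ext (f := linS (fun _ : Arr N G ι => (0 : ZMod N))) (g := 0) (fun I J w a => by
    rw [linS_single, mul_zero, AddMonoidHom.zero_apply]) s
  rw [h, AddMonoidHom.zero_apply]

lemma linS_sub (φ ψ : Arr N G ι → ZMod N) (s : SR N G ι) :
    linS (fun r => φ r - ψ r) s = linS φ s - linS ψ s := by
  have h := linS_add (fun r => φ r - ψ r) ψ s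
  rw [eq_sub_iff_add_eq, ← h]
  congr 2
  funext r
  exact sub_add_cancel _ _

lemma linS_smul (c : ℤ) (φ : Arr N G ι → ZMod N) (s : SR N G ι) :
    linS (fun r => c • φ r) s = c • linS φ s := by
  have h := S_ext (f := linS (fun r => c • φ r)) (g := c • linS φ) (fun I J w a => by
    rw [AddMonoidHom.smul_apply, linS_single, linS_single, mul_smul_comm]) s
  rw [h, AddMonoidHom.smul_apply]

lemma linS_single' (φ : Arr N G ι → ZMod N) (I J : ZMod N → ι) (w : WR N G) (a b : ZMod N) :
    linS (fun r => a * φ r) (Matrix.single I J (MonoidAlgebra.single w b)) =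
      a * (b * φ ⟨I, w, J⟩) := by
  rw [linS_single]; ring

lemma linS_mulc (a : ZMod N) (φ : Arr N G ι → ZMod N) (s : SR N G ι) :
    linS (fun r => a * φ r) s = a * linS φ s := by
  have h := S_ext (f := linS (fun r => a * φ r)) (g := (AddMonoidHom.mulLeft a).comp (linS φ))
    (fun I J w b => by
      rw [AddMonoidHom.comp_apply, AddMonoidHom.coe_mulLeft, linS_single, linS_single]; ring) s
  rw [h, AddMonoidHom.comp_apply, AddMonoidHom.coe_mulLeft]

/-- two entries: the additive map in the first entry -/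
def lin2 (Y : Arr N G ι → Arr N G ι → ZMod N) (b : SR N G ι) : SR N G ι →+ ZMod N :=
  linS fun r => linS (fun r' => Y r r') b

lemma linS_comm (Y : Arr N G ι → Arr N G ι → ZMod N) (a b : SR N G ι) :
    linS (fun r => linS (fun r' => Y r r') b) a = linS (fun r' => linS (fun r => Y r r') a) b := by
  induction a using S_ind with
  | h0 =>
    rw [map_zero]
    simp only [map_zero]
    rw [linS_zero]
  | hadd x y hx hy =>
    rw [map_add, hx, hy, ← linS_add]
    congr 2
    funext r
    rw [map_add]
  | hs I J w c =>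
    rw [linS_single, ← linS_mulc]
    congr 2
    funext r
    rw [linS_single]

lemma linS_mul (φ : Arr N G ι → ZMod N) (a b : SR N G ι) :
    linS φ (a * b) = linS (fun r => linS (fun r' => if r.t = r'.s then φ (r * r') else 0) b) a := by
  induction a using S_ind with
  | h0 => rw [zero_mul, map_zero, map_zero]
  | hadd x y hx hy => rw [add_mul, map_add, map_add, hx, hy]
  | hs I J w c =>
    rw [linS_single]
    induction b using S_ind with
    | h0 => rw [mul_zero, map_zero, map_zero, mul_zero]
    | hadd x y hx hy => rw [mul_add, map_add, map_add, hx, hy, mul_add]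
    | hs K L w' d =>
      rw [linS_single]
      by_cases h : J = K
      · subst h
        rw [Matrix.single_mul_single_same, MonoidAlgebra.single_mul_single, linS_single, if_pos rfl]
        change _ * φ ⟨I, w * w', L⟩ = c * (d * φ ⟨I, w * w', L⟩)
        rw [mul_assoc]
      · rw [Matrix.single_mul_single_of_ne _ _ _ _ h, map_zero, if_neg h, mul_zero, mul_zero]

lemma linS_one (φ : Arr N G ι → ZMod N) : linS φ 1 = ∑ I, φ ⟨I, 1, I⟩ := by
  have h : (1 : SR N G ι) = ∑ I : ZMod N → ι, Matrix.single I I (MonoidAlgebra.single 1 1) := by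
    rw [← MonoidAlgebra.one_def]
    exact (Matrix.sum_single_one).symm
  rw [h, map_sum]
  refine Finset.sum_congr rfl (fun I _ => ?_)
  rw [linS_single, one_mul]

/-! ### the multiadditive extension -/

lemma Xe_cons (X : List (Arr N G ι) → ZMod N) (s : SR N G ι) (l : List (SR N G ι)) :
    Xe X (s :: l) = linS (fun a => Xe (fun l' => X (a :: l')) l) s := rfl

lemma Xe_congr (l : List (SR N G ι)) : ∀ {X Y : List (Arr N G ι) → ZMod N}
    (_ : ∀ l', l'.length = l.length → X l' = Y l'), Xe X l = Xe Y l := by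
  induction l with
  | nil => intro X Y h; exact h [] rfl
  | cons s l ih =>
    intro X Y h
    rw [Xe_cons, Xe_cons]
    congr 2
    funext a
    exact ih (fun l' hl' => h _ (by simp [hl']))

lemma Xe_zero (l : List (SR N G ι)) : Xe (fun _ : List (Arr N G ι) => (0 : ZMod N)) l = 0 := by
  induction l with
  | nil => rfl
  | cons s l ih =>
    rw [Xe_cons]
    simp only [ih]
    exact linS_zero s

lemma Xe_sub (l : List (SR N G ι)) : ∀ X Y : List (Arr N G ι) → ZMod N,
    Xe (fun l' => X l' - Y l') l = Xe X l - Xe Y l := by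
  induction l with
  | nil => intro X Y; rfl
  | cons s l ih =>
    intro X Y
    rw [Xe_cons, Xe_cons, Xe_cons, ← linS_sub]
    congr 2
    funext a
    exact ih _ _

lemma Xe_add (l : List (SR N G ι)) : ∀ X Y : List (Arr N G ι) → ZMod N,
    Xe (fun l' => X l' + Y l') l = Xe X l + Xe Y l := by
  induction l with
  | nil => intro X Y; rfl
  | cons s l ih =>
    intro X Y
    rw [Xe_cons, Xe_cons, Xe_cons, ← linS_add]
    congr 2
    funext a
    exact ih _ _

lemma Xe_smul (c : ℤ) (l : List (SR N G ι)) : ∀ X : List (Arr N G ι) → ZMod N,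
    Xe (fun l' => c • X l') l = c • Xe X l := by
  induction l with
  | nil => intro X; rfl
  | cons s l ih =>
    intro X
    rw [Xe_cons, Xe_cons, ← linS_smul]
    congr 2
    funext a
    exact ih _

lemma Xe_ite (c : Prop) [Decidable c] (X : List (Arr N G ι) → ZMod N) (l : List (SR N G ι)) :
    Xe (fun l' => if c then X l' else 0) l = if c then Xe X l else 0 := by
  split_ifs
  · rfl
  · exact Xe_zero l

/-- `mg` with the conditions that the merged arrows are composable -/
def mgi : (List (Arr N G ι) → ZMod N) → List (Arr N G ι) → ZMod N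
  | _, [] => 0
  | _, [_] => 0
  | F, r :: r' :: l => (if r.t = r'.s then F ((r * r') :: l) else 0) -
      mgi (fun l' => F (r :: l')) (r' :: l)

lemma mg_linS (x : SR N G ι) (l : List (SR N G ι)) :
    ∀ Z : Arr N G ι → List (SR N G ι) → ZMod N,
      mg (fun l' => linS (fun r => Z r l') x) l = linS (fun r => mg (Z r) l) x := by
  induction l with
  | nil => intro Z; exact (linS_zero x).symm
  | cons a l ih =>
    intro Z
    cases l with
    | nil => exact (linS_zero x).symm
    | cons b l =>
      change linS (fun r => Z r ((a * b) :: l)) x -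
        mg (fun l' => linS (fun r => Z r (a :: l')) x) (b :: l) =
        linS (fun r => Z r ((a * b) :: l) - mg (fun l' => Z r (a :: l')) (b :: l)) x
      rw [ih (fun r l' => Z r (a :: l')), linS_sub]

lemma mg_Xe (l : List (SR N G ι)) : ∀ X : List (Arr N G ι) → ZMod N,
    mg (Xe X) l = Xe (mgi X) l := by
  induction l with
  | nil => intro X; rfl
  | cons x l ih =>
    intro X
    cases l with
    | nil => exact (linS_zero x).symm
    | cons y l =>
      have h1 : mg (Xe X) (x :: y :: l) = Xe X ((x * y) :: l) -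
          mg (fun l' => linS (fun r => Xe (fun l'' => X (r :: l'')) l') x) (y :: l) := rfl
      rw [h1, mg_linS, Xe_cons, linS_mul, Xe_cons, ← linS_sub]
      congr 2
      funext r
      rw [ih, Xe_cons, Xe_cons, ← linS_sub]
      congr 2
      funext r'
      rw [← Xe_ite, ← Xe_sub]
      rfl

lemma Xe_append (b : SR N G ι) (l : List (SR N G ι)) : ∀ Y : List (Arr N G ι) → ZMod N,
    Xe Y (l ++ [b]) = linS (fun β => Xe (fun m => Y (m ++ [β])) l) b := by
  induction l with
  | nil => intro Y; rfl
  | cons s l ih =>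
    intro Y
    rw [List.cons_append, Xe_cons]
    have h : (fun r => Xe (fun l' => Y (r :: l')) (l ++ [b])) =
        fun r => linS (fun β => Xe (fun m => Y (r :: (m ++ [β]))) l) b := by
      funext r
      exact ih _
    rw [h, linS_comm]
    rfl

/-- the last term of the cyclic condition -/
def wr (X : List (Arr N G ι) → ZMod N) : List (Arr N G ι) → ZMod N
  | [] => 0
  | α :: m => match m.getLast? with
    | none => 0
    | some β => if β.t = α.s then X ((β * α) :: m.dropLast) else 0

omit [Fintype ι] in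
lemma wr_eq (X : List (Arr N G ι) → ZMod N) (α β : Arr N G ι) (m : List (Arr N G ι)) :
    wr X (α :: (m ++ [β])) = if β.t = α.s then X ((β * α) :: m) else 0 := by
  simp [wr]

lemma Xe_wr (X : List (Arr N G ι) → ZMod N) (a b : SR N G ι) (l : List (SR N G ι)) :
    Xe X ((b * a) :: l) = Xe (wr X) (a :: (l ++ [b])) := by
  rw [Xe_cons, linS_mul, linS_comm, Xe_cons]
  congr 2
  funext α
  rw [Xe_append]
  congr 2
  funext β
  simp only [wr_eq]
  rw [Xe_ite]

/-! ### composable lists -/

omit [Fintype ι] in
lemma mgi_of_Cmp (L : List (Arr N G ι)) : ∀ X : List (Arr N G ι) → ZMod N, Cmp L →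
    mgi X L = mg X L := by
  induction L with
  | nil => intro X _; rfl
  | cons r l ih =>
    intro X h
    cases l with
    | nil => rfl
    | cons r' l =>
      change (if r.t = r'.s then X ((r * r') :: l) else 0) - mgi (fun l' => X (r :: l')) (r' :: l) =
        X ((r * r') :: l) - mg (fun l' => X (r :: l')) (r' :: l)
      rw [if_pos h.1, ih _ h.2]

omit [Fintype ι] in
lemma mgi_zero (L : List (Arr N G ι)) : ∀ X : List (Arr N G ι) → ZMod N,
    (∀ p r r' q, L = p ++ r :: r' :: q → r.t = r'.s → X (p ++ (r * r') :: q) = 0) →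
    mgi X L = 0 := by
  induction L with
  | nil => intro X _; rfl
  | cons r l ih =>
    intro X h
    cases l with
    | nil => rfl
    | cons r' l =>
      change (if r.t = r'.s then X ((r * r') :: l) else 0) -
        mgi (fun l' => X (r :: l')) (r' :: l) = 0
      rw [ih (fun l' => X (r :: l')) (fun p a a' q e ha => h (r :: p) a a' q (by rw [e]; rfl) ha),
        sub_zero]
      split_ifs with h1
      · exact h [] r r' l rfl h1
      · rfl

omit [NeZero N] [Fintype ι] [DecidableEq ι] in
lemma Cmp_tail {r : Arr N G ι} {l : List (Arr N G ι)} (h : Cmp (r :: l)) : Cmp l := by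
  cases l with
  | nil => trivial
  | cons a l => exact h.2

omit [NeZero N] [Fintype ι] [DecidableEq ι] in
lemma Cmp_head {r r' : Arr N G ι} (e : r.t = r'.t) {l : List (Arr N G ι)} (h : Cmp (r :: l)) :
    Cmp (r' :: l) := by
  cases l with
  | nil => trivial
  | cons a l => exact ⟨e ▸ h.1, h.2⟩

omit [NeZero N] [Fintype ι] [DecidableEq ι] in
lemma Cmp_adj (p : List (Arr N G ι)) {r r' : Arr N G ι} {q : List (Arr N G ι)}
    (h : Cmp (p ++ r :: r' :: q)) : r.t = r'.s := by
  induction p with
  | nil => exact h.1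
  | cons a p ih => exact ih (Cmp_tail h)

omit [NeZero N] [Fintype ι] [DecidableEq ι] in
lemma Cmp_merge (p : List (Arr N G ι)) {r r' : Arr N G ι} {q : List (Arr N G ι)}
    (e : r.t = r'.s) (h : Cmp (p ++ (r * r') :: q)) : Cmp (p ++ r :: r' :: q) := by
  induction p with
  | nil => exact ⟨e, Cmp_head (r := r * r') (r' := r') rfl h⟩
  | cons a p ih =>
    have h1 := ih (Cmp_tail h)
    cases p with
    | nil => exact ⟨h.1, h1⟩
    | cons b p => exact ⟨h.1, h1⟩

omit [NeZero N] [Fintype ι] [DecidableEq ι] in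
lemma lst_t {a a' : Arr N G ι} (e : a.t = a'.t) (q : List (Arr N G ι)) :
    (lst a q).t = (lst a' q).t := by
  cases q with
  | nil => exact e
  | cons b q => rfl

omit [NeZero N] [Fintype ι] [DecidableEq ι] in
lemma lst_merge (p : List (Arr N G ι)) {r r' : Arr N G ι} {q : List (Arr N G ι)} :
    ∀ a : Arr N G ι, (lst a (p ++ (r * r') :: q)).t = (lst a (p ++ r :: r' :: q)).t := by
  induction p with
  | nil => intro a; exact lst_t (a := r * r') (a' := r') rfl q
  | cons b p ih => intro a; exact ih b

omit [NeZero N] [Fintype ι] [DecidableEq ι] in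
lemma Clo_Cmp {L : List (Arr N G ι)} (h : Clo L) : Cmp L := by
  cases L with
  | nil => trivial
  | cons a l => exact h.1

omit [NeZero N] [Fintype ι] [DecidableEq ι] in
lemma Clo_merge (p : List (Arr N G ι)) {r r' : Arr N G ι} {q : List (Arr N G ι)}
    (e : r.t = r'.s) (h : Clo (p ++ (r * r') :: q)) : Clo (p ++ r :: r' :: q) := by
  have h1 := Cmp_merge p e (Clo_Cmp h)
  cases p with
  | nil =>
    refine ⟨h1, ?_⟩
    have h2 : (lst (r * r') q).t = (r * r').s := h.2
    have h3 : (lst (r * r') q).t = (lst r' q).t := lst_t (a := r * r') (a' := r') rfl q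
    exact h3.symm.trans h2
  | cons a p =>
    refine ⟨h1, ?_⟩
    have h2 : (lst a (p ++ (r * r') :: q)).t = a.s := h.2
    exact (lst_merge p a).symm.trans h2

omit [NeZero N] [Fintype ι] [DecidableEq ι] in
lemma lst_append (β : Arr N G ι) (m : List (Arr N G ι)) : ∀ a : Arr N G ι,
    lst a (m ++ [β]) = β := by
  induction m with
  | nil => intro a; rfl
  | cons b m ih => intro a; exact ih b

omit [NeZero N] [Fintype ι] [DecidableEq ι] in
lemma Cmp_append (β : Arr N G ι) (m : List (Arr N G ι)) : ∀ a : Arr N G ι, Cmp (a :: m) →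
    (lst a m).t = β.s → Cmp (a :: (m ++ [β])) := by
  induction m with
  | nil => intro a _ h; exact ⟨h, trivial⟩
  | cons b m ih => intro a h h'; exact ⟨h.1, ih b h.2 h'⟩

omit [NeZero N] [Fintype ι] [DecidableEq ι] in
lemma Clo_wr {α β : Arr N G ι} {m : List (Arr N G ι)} (e : β.t = α.s)
    (h : Clo ((β * α) :: m)) : Clo (α :: (m ++ [β])) := by
  have h1 : Cmp (α :: m) := Cmp_head (r := β * α) (r' := α) rfl h.1
  have h2 : (lst (β * α) m).t = (β * α).s := h.2
  have h3 : (lst (β * α) m).t = (lst α m).t := lst_t (a := β * α) (a' := α) rfl m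
  refine ⟨Cmp_append β m α h1 (h3.symm.trans h2), ?_⟩
  rw [lst_append]
  exact e

omit [Fintype ι] in
lemma vanish {n : ℕ} {X : List (Arr N G ι) → ZMod N} (hX : IsXa n X) (L : List (Arr N G ι))
    (hL : L.length = n + 2) : mgi X L + (-1 : ℤ) ^ (n + 1) • wr X L = 0 := by
  obtain ⟨α, m', rfl⟩ : ∃ α m', L = α :: m' := by
    cases L with
    | nil => simp at hL
    | cons a l => exact ⟨a, l, rfl⟩
  obtain ⟨m, β, rfl⟩ : ∃ m β, m' = m ++ [β] := by
    rcases List.eq_nil_or_concat m' with h | ⟨m, β, h⟩
    · subst h; simp at hL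
    · exact ⟨m, β, h.trans List.concat_eq_append⟩
  have hm : m.length = n := by simpa using hL
  rw [wr_eq]
  by_cases hC : Clo (α :: (m ++ [β]))
  · have h1 : β.t = α.s := by
      have h2 := hC.2
      rw [lst_append] at h2
      exact h2
    rw [if_pos h1, mgi_of_Cmp _ _ (Clo_Cmp hC)]
    exact hX.cyc α β m hm hC
  · rw [mgi_zero _ _ (fun p r r' q e he => hX.clo _ (fun h => hC (by rw [e]; exact Clo_merge p he h)))]
    have h2 : (if β.t = α.s then X ((β * α) :: m) else 0) = 0 := by
      split_ifs with h1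
      · exact hX.clo _ (fun h => hC (Clo_wr h1 h))
      · rfl
    rw [h2, smul_zero, add_zero]

/-! ### the unit `τ` -/

omit [NeZero N] [Fintype ι] [DecidableEq ι] in
lemma sh_surj (K : ZMod N → ι) : ∃ K' : ZMod N → ι, sh K' = K :=
  ⟨fun j => K (j - 1), by funext j; simp [sh]⟩

lemma tau_eq : ((tauS N G ι : (SR N G ι)ˣ) : SR N G ι) =
    ∑ J : ZMod N → ι, Matrix.single J (sh J) (MonoidAlgebra.single (tW N G) 1) := by
  ext1 I K
  rw [Matrix.sum_apply, Finset.sum_eq_single I]
  · change (if K = sh I then MonoidAlgebra.single (tW N G) (1 : ZMod N) else 0) = _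
    rw [Matrix.single_apply]
    by_cases h : K = sh I
    · rw [if_pos h, if_pos ⟨rfl, h.symm⟩]
    · rw [if_neg h, if_neg fun h' => h h'.2.symm]
  · intro J _ hJ
    rw [Matrix.single_apply, if_neg fun h' => hJ h'.1]
  · intro h
    exact absurd (Finset.mem_univ _) h

lemma mul_tau (I J : ZMod N → ι) (w : WR N G) (c : ZMod N) :
    (Matrix.single I J (MonoidAlgebra.single w c) : SR N G ι) * (tauS N G ι : (SR N G ι)ˣ) =
      Matrix.single I (sh J) (MonoidAlgebra.single (w * tW N G) c) := by
  rw [tau_eq, Finset.mul_sum, Finset.sum_eq_single J]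
  · rw [Matrix.single_mul_single_same, MonoidAlgebra.single_mul_single, mul_one]
  · intro J' _ hJ
    rw [Matrix.single_mul_single_of_ne _ _ _ _ (Ne.symm hJ)]
  · intro h
    exact absurd (Finset.mem_univ _) h

lemma tau_mul (K L : ZMod N → ι) (w : WR N G) (c : ZMod N) :
    (tauS N G ι : (SR N G ι)ˣ) * (Matrix.single (sh K) L (MonoidAlgebra.single w c) : SR N G ι) =
      Matrix.single K L (MonoidAlgebra.single (tW N G * w) c) := by
  rw [tau_eq, Finset.sum_mul, Finset.sum_eq_single K]
  · rw [Matrix.single_mul_single_same, MonoidAlgebra.single_mul_single, one_mul]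
  · intro J' _ hJ
    rw [Matrix.single_mul_single_of_ne _ _ _ _ (fun h => hJ (sh_inj h))]
  · intro h
    exact absurd (Finset.mem_univ _) h

lemma tau2 (Y : Arr N G ι → Arr N G ι → ZMod N)
    (h0 : ∀ r r' : Arr N G ι, r.t ≠ r'.s → Y r r' = 0)
    (h1 : ∀ (I J K : ZMod N → ι) (w w' : WR N G),
      Y ⟨I, w * tW N G, sh J⟩ ⟨sh J, w', K⟩ = Y ⟨I, w, J⟩ ⟨J, tW N G * w', K⟩) (a b : SR N G ι) :
    linS (fun r => linS (fun r' => Y r r') b) (a * (tauS N G ι : (SR N G ι)ˣ)) =
      linS (fun r => linS (fun r' => Y r r') ((tauS N G ι : (SR N G ι)ˣ) * b)) a := by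
  induction a using S_ind with
  | h0 => rw [zero_mul, map_zero, map_zero]
  | hadd x y hx hy => rw [add_mul, map_add, map_add, hx, hy]
  | hs I J w c =>
    rw [mul_tau, linS_single, linS_single]
    congr 1
    induction b using S_ind with
    | h0 => rw [mul_zero, map_zero, map_zero]
    | hadd x y hx hy => rw [mul_add, map_add, map_add, hx, hy]
    | hs K L w' d =>
      obtain ⟨K', rfl⟩ := sh_surj K
      rw [tau_mul, linS_single, linS_single]
      congr 1
      by_cases h : J = K'
      · subst h
        exact h1 I J L w w'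
      · rw [h0 _ _ (fun h' => h (sh_inj h')), h0 _ _ h]

lemma Xe_tau (l' : List (SR N G ι)) (a b : SR N G ι) (l : List (SR N G ι)) :
    ∀ X : List (Arr N G ι) → ZMod N,
      (∀ (l l' : List (Arr N G ι)) (r r' : Arr N G ι), r.t ≠ r'.s → X (l ++ r :: r' :: l') = 0) →
      (∀ (l l' : List (Arr N G ι)) (I J K : ZMod N → ι) (w w' : WR N G),
        X (l ++ ⟨I, w * tW N G, sh J⟩ :: ⟨sh J, w', K⟩ :: l') =
          X (l ++ ⟨I, w, J⟩ :: ⟨J, tW N G * w', K⟩ :: l')) →
      Xe X (l ++ (a * (tauS N G ι : (SR N G ι)ˣ)) :: b :: l') =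
        Xe X (l ++ a :: ((tauS N G ι : (SR N G ι)ˣ) * b) :: l') := by
  induction l with
  | nil =>
    intro X h0 h1
    refine tau2 (fun r r' => Xe (fun l'' => X (r :: r' :: l'')) l') (fun r r' h => ?_)
      (fun I J K w w' => ?_) a b
    · have h2 : (fun l'' => X (r :: r' :: l'')) = fun _ => 0 := by
        funext l''
        exact h0 [] l'' r r' h
      rw [h2]
      exact Xe_zero l'
    · exact Xe_congr l' (fun l'' _ => h1 [] l'' I J K w w')
  | cons s l ih =>
    intro X h0 h1
    rw [List.cons_append, List.cons_append, Xe_cons, Xe_cons]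
    congr 2
    funext r
    exact ih _ (fun p q r1 r2 h => h0 (r :: p) q r1 r2 h)
      (fun p q I J K w w' => h1 (r :: p) q I J K w w')

lemma Xe_one (l' : List (SR N G ι)) (l : List (SR N G ι)) :
    ∀ X : List (Arr N G ι) → ZMod N,
      (∀ (l l' : List (Arr N G ι)) (I : ZMod N → ι), X (l ++ ⟨I, 1, I⟩ :: l') = 0) →
      Xe X (l ++ 1 :: l') = 0 := by
  induction l with
  | nil =>
    intro X h
    rw [List.nil_append, Xe_cons, linS_one]
    refine Finset.sum_eq_zero (fun I _ => ?_)
    have h2 : (fun l'' => X (⟨I, 1, I⟩ :: l'')) = fun _ => 0 := by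
      funext l''
      exact h [] l'' I
    rw [h2]
    exact Xe_zero l'
  | cons s l ih =>
    intro X h
    rw [List.cons_append, Xe_cons]
    have h2 : (fun r => Xe (fun l'' => X (r :: l'')) (l ++ 1 :: l')) = fun _ => 0 := by
      funext r
      exact ih _ (fun p q I => h (r :: p) q I)
    rw [h2]
    exact linS_zero s

lemma Xe_addE (l' : List (SR N G ι)) (a b : SR N G ι) (l : List (SR N G ι)) :
    ∀ X : List (Arr N G ι) → ZMod N,
      Xe X (l ++ (a + b) :: l') = Xe X (l ++ a :: l') + Xe X (l ++ b :: l') := by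
  induction l with
  | nil =>
    intro X
    rw [List.nil_append, List.nil_append, List.nil_append, Xe_cons, Xe_cons, Xe_cons, map_add]
  | cons s l ih =>
    intro X
    rw [List.cons_append, List.cons_append, List.cons_append, Xe_cons, Xe_cons, Xe_cons,
      ← linS_add]
    congr 2
    funext r
    exact ih _

end XEXM

open XEXM in
theorem specXEX : SpecXEX.{u} := by
  intro N n _ G _ ι _ _ X hX
  refine ⟨fun l l' a b => Xe_addE l' a b l X, fun l hl => ?_, fun l l' => Xe_one l' l X hX.one,
    fun l l' a b => Xe_tau l' a b l X (fun p q r r' h => hX.clo _ (fun h' =>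
      h (Cmp_adj p (Clo_Cmp h')))) hX.tau, fun a b l hl => ?_⟩
  · rw [Xe_congr l (Y := fun _ => 0) (fun l' hl' => hX.len l' (by rw [hl']; exact hl))]
    exact Xe_zero l
  · rw [mg_Xe, Xe_wr, ← Xe_smul, ← Xe_add,
      Xe_congr (a :: (l ++ [b])) (Y := fun _ => 0) (fun L hL => vanish hX L (by
        rw [hL]; simp [hl]))]
    exact Xe_zero _

end Pool.Agent.Lib.MPb6f35e.KA
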