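import Pool.Agent.Lib.MP_b6f35e_al.KA.SpecE

/-!
# Rational K-theory in all degrees (MP_b6f35e_al), module XVH
-/

set_option autoImplicit false

noncomputable section

namespace Pool.Agent.Lib.MPb6f35e.KA

universe u v w

namespace XVHM

variable {G : Type u} [Group G]

lemma cz_one (c : G) : Cz c 1 := by
  show (1 : G) * c = c * 1
  rw [one_mul, mul_one]

lemma cz_mul {c x y : G} (hx : Cz c x) (hy : Cz c y) : Cz c (x * y) := by
  show x * y * c = c * (x * y)
  rw [mul_assoc, show y * c = c * y from hy, ← mul_assoc, show x * c = c * x from hx, mul_assoc]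

lemma run_len : ∀ (l : List G) (x : G), (run x l).length = l.length + 1
  | [], _ => rfl
  | g :: l, x => by
    show (run (x * g) l).length + 1 = _
    rw [run_len l (x * g)]
    rfl

lemma run_cz (c : G) : ∀ (l : List G) (x : G), Cz c x → (∀ g ∈ l, Cz c g) →
    ∀ y ∈ run x l, Cz c y
  | [], x, hx, _, y, hy => by
    rw [show run x [] = [x] from rfl, List.mem_singleton] at hy
    rw [hy]
    exact hx
  | g :: l, x, hx, hl, y, hy => by
    rw [show run x (g :: l) = x :: run (x * g) l from rfl, List.mem_cons] at hy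
    rcases hy with rfl | hy
    · exact hx
    · exact run_cz c l (x * g) (cz_mul hx (hl g (List.mem_cons_self ..)))
        (fun g' hg' => hl g' (List.mem_cons_of_mem _ hg')) y hy

lemma sameC (c : G) (l : List G) (h : ∀ y ∈ l, Cz c y) : SameC c l := by
  have h1 : ∀ y ∈ l, y * c * y⁻¹ = c := fun y hy => by
    rw [show y * c = c * y from h y hy, mul_assoc, mul_inv_cancel, mul_one]
  intro z hz z' hz'
  rw [h1 z hz, h1 z' hz']

end XVHM

theorem specXVH (hALT : SpecALT.{u, v, v}) : SpecXVH.{u, v} := by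
  intro G M _ _ n c K X hX
  refine ⟨fun a _ b _ => map_add _ _ _, ?_⟩
  intro w hw
  show FreeAbelianGroup.lift (fun l => X (run 1 l)) (bd w) = 0
  rw [hALT.lift G M]
  refine AddSubgroup.closure_induction (p := fun w _ =>
    FreeAbelianGroup.lift (bdF fun l => X (run 1 l)) w = 0) ?_ ?_ ?_ ?_ hw
  · rintro y ⟨l, hl, hP, rfl⟩
    rw [FreeAbelianGroup.lift_apply_of, hALT.run G M X (Cz c) (XVHM.cz_one c)
      (fun x y hx hy => XVHM.cz_mul hx hy)
      (fun x _ l hl => hX.inv x l (XVHM.sameC c l hl)) l hP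
      (fun h => by rw [h] at hl; exact absurd hl (by simp))]
    refine hX.cls _ (by rw [XVHM.run_len, hl]) (XVHM.sameC c _ ?_)
    exact XVHM.run_cz c l 1 (XVHM.cz_one c) hP
  · exact map_zero _
  · intro a b _ _ ha hb
    rw [map_add, ha, hb, add_zero]
  · intro a _ ha
    rw [map_neg, ha, neg_zero]

end Pool.Agent.Lib.MPb6f35e.KA
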