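import Pool.Agent.Lib.MP_b6f35e_al.KA.SpecD
import Pool.Agent.Lib.MP_b6f35e_al.K2.XWM

/-! # KA, module XWC: the cochain on the wreath product -/

set_option autoImplicit false

noncomputable section

namespace Pool.Agent.Lib.MPb6f35e.KA

open Pool.Agent.Lib.MPb6f35e.WH Pool.Agent.Lib.MPb6f35e.K2

universe u v w x

namespace XWCM

section General

variable {W : Type u} {M : Type v} [AddCommGroup M]

theorem alt_congr {X : Type u} (P : X → Prop) : ∀ (l : List X) (F F' : List X → M),
    (∀ l' : List X, l'.length + 1 = l.length → (∀ y ∈ l', P y) → F l' = F' l') →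
    (∀ y ∈ l, P y) → alt F l = alt F' l := by
  intro l
  induction l with
  | nil => intro F F' _ _; rfl
  | cons x l ih =>
    intro F F' h hP
    show F l - alt (fun l' => F (x :: l')) l = F' l - alt (fun l' => F' (x :: l')) l
    rw [h l rfl fun y hy => hP y (List.mem_cons_of_mem _ hy),
      ih (fun l' => F (x :: l')) (fun l' => F' (x :: l')) ?_
        fun y hy => hP y (List.mem_cons_of_mem _ hy)]
    intro l' hl' hP'
    refine h (x :: l') (by rw [List.length_cons, List.length_cons, hl']) ?_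
    intro y hy
    rcases List.mem_cons.1 hy with rfl | hy
    · exact hP _ List.mem_cons_self
    · exact hP' y hy

theorem alt_map {X : Type u} {Y : Type w} (u : X → Y) : ∀ (l : List X) (F : List Y → M),
    alt (fun l' => F (l'.map u)) l = alt F (l.map u) := by
  intro l
  induction l with
  | nil => intro F; rfl
  | cons x l ih =>
    intro F
    show F (l.map u) - alt (fun l' => F (u x :: l'.map u)) l =
      F (l.map u) - alt (fun l' => F (u x :: l')) (l.map u)
    rw [ih fun l' => F (u x :: l')]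

theorem sameC_iff [Group W] (c : W) (l : List W) :
    SameC c l ↔ ∃ h, ∀ z ∈ l, z * c * z⁻¹ = h := by
  constructor
  · intro hs
    cases l with
    | nil => exact ⟨1, by simp⟩
    | cons a l => exact ⟨a * c * a⁻¹, fun z hz => hs z hz a List.mem_cons_self⟩
  · rintro ⟨h, hh⟩ z hz z' hz'
    rw [hh z hz, hh z' hz']

/-- `rc` in all entries -/
theorem rc_all [Group W] {n : ℕ} {c : W} {K : Set W} {F : List W → M} (hF : IsF n c K F)
    (hK : ∀ k ∈ K, k * c = c * k) {Y : Type w} (f k : Y → W) (h : W) :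
    ∀ (l₂ l₁ : List Y), (∀ y ∈ l₁, f y * c * (f y)⁻¹ = h) → (∀ y ∈ l₂, f y * c * (f y)⁻¹ = h) →
      (∀ y ∈ l₂, k y ∈ K) →
      F (l₁.map f ++ l₂.map fun y => f y * k y) = F (l₁.map f ++ l₂.map f) := by
  intro l₂
  induction l₂ with
  | nil => intro l₁ _ _ _; rfl
  | cons y l₂ ih =>
    intro l₁ h1 h2 h3
    have hy := h2 y List.mem_cons_self
    have hky := h3 y List.mem_cons_self
    have hcl : ∀ y' ∈ l₂, (f y' * k y') * c * (f y' * k y')⁻¹ = h := by
      intro y' hy'
      have e1 := hK _ (h3 y' (List.mem_cons_of_mem _ hy'))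
      have e2 : (f y' * k y') * c * (f y' * k y')⁻¹ = f y' * c * (f y')⁻¹ := by
        calc (f y' * k y') * c * (f y' * k y')⁻¹ = f y' * (k y' * c) * (k y')⁻¹ * (f y')⁻¹ := by
              group
          _ = f y' * (c * k y') * (k y')⁻¹ * (f y')⁻¹ := by rw [e1]
          _ = f y' * c * (f y')⁻¹ := by group
      rw [e2]
      exact h2 y' (List.mem_cons_of_mem _ hy')
    have hs : SameC c (l₁.map f ++ f y :: l₂.map fun y => f y * k y) := by
      rw [sameC_iff]
      refine ⟨h, fun z hz => ?_⟩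
      rw [List.mem_append, List.mem_cons, List.mem_map, List.mem_map] at hz
      rcases hz with ⟨a, ha, rfl⟩ | rfl | ⟨a, ha, rfl⟩
      · exact h1 a ha
      · exact hy
      · exact hcl a ha
    have e := hF.rc (l₁.map f) (l₂.map fun y => f y * k y) (f y) (k y) hky hs
    show F (l₁.map f ++ (f y * k y) :: l₂.map fun y => f y * k y) = F (l₁.map f ++ f y :: l₂.map f)
    rw [e]
    have e2 := ih (l₁ ++ [y]) (fun a ha => by
      rcases List.mem_append.1 ha with ha | ha
      · exact h1 a ha
      · rw [List.mem_singleton.1 ha]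
        exact hy) (fun a ha => h2 a (List.mem_cons_of_mem _ ha))
      (fun a ha => h3 a (List.mem_cons_of_mem _ ha))
    simpa [List.map_append, List.append_assoc] using e2

end General

section WRl

variable {N : ℕ} [NeZero N] {G : Type u} [Group G]

theorem left_coset (c : G) (v : WR N G) (hv : v * w0 N c = w0 N c * v) (j : ZMod N) :
    ∃ e ∈ Subgroup.zpowers c, v.left j = v.left 0 * e := by
  have h : ∀ n : ℕ, ∃ e ∈ Subgroup.zpowers c, v.left (n : ZMod N) = v.left 0 * e := by
    intro n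
    induction n with
    | zero => exact ⟨1, Subgroup.one_mem _, by simp⟩
    | succ n ih =>
      obtain ⟨e, he, h1⟩ := ih
      have h2 := XWMaux.rel c v hv ((n + 1 : ℕ) : ZMod N)
      have e3 : ((n + 1 : ℕ) : ZMod N) - 1 = (n : ZMod N) := by
        push_cast
        ring
      rw [e3] at h2
      have hor := XWMaux.single_or (N := N) c (((n + 1 : ℕ) : ZMod N) - v.right.toAdd)
      have hor' := XWMaux.single_or (N := N) c ((n + 1 : ℕ) : ZMod N)
      set e1 := (Pi.mulSingle (0 : ZMod N) c : ZMod N → G)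
        (((n + 1 : ℕ) : ZMod N) - v.right.toAdd) with he1
      set e2 := (Pi.mulSingle (0 : ZMod N) c : ZMod N → G) ((n + 1 : ℕ) : ZMod N) with he2
      have m1 : e1 ∈ Subgroup.zpowers c := by
        rcases hor with h | h <;> rw [h]
        · exact Subgroup.mem_zpowers c
        · exact Subgroup.one_mem _
      have m2 : e2 ∈ Subgroup.zpowers c := by
        rcases hor' with h | h <;> rw [h]
        · exact Subgroup.mem_zpowers c
        · exact Subgroup.one_mem _
      have hc : v.left (n : ZMod N) * e2 = e2 * v.left (n : ZMod N) := by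
        rcases hor' with h | h <;> rw [h]
        · exact XWMaux.comm c v hv _
        · rw [mul_one, one_mul]
      refine ⟨e * (e2 * e1⁻¹), Subgroup.mul_mem _ he (Subgroup.mul_mem _ m2
        (Subgroup.inv_mem _ m1)), ?_⟩
      rw [← hc] at h2
      have h3 : v.left ((n + 1 : ℕ) : ZMod N) = v.left (n : ZMod N) * e2 * e1⁻¹ := by
        rw [← h2, mul_inv_cancel_right]
      rw [h3, h1]
      group
  have := h j.val
  rwa [ZMod.natCast_zmod_val] at this

theorem left_mul (c : G) (v v' : WR N G) (hv' : v' * w0 N c = w0 N c * v') :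
    ∃ e ∈ Subgroup.zpowers c, (v * v').left 0 = v.left 0 * v'.left 0 * e := by
  obtain ⟨e, he, h1⟩ := left_coset c v' hv' (0 - v.right.toAdd)
  refine ⟨e, he, ?_⟩
  rw [XWMaux.mul_left_apply, h1, mul_assoc]

theorem zpow_comm {c g e : G} (h : g * c = c * g) (he : e ∈ Subgroup.zpowers c) :
    g * e = e * g := by
  obtain ⟨m, rfl⟩ := Subgroup.mem_zpowers_iff.1 he
  exact (show Commute g c from h).zpow_right m

theorem left_pow (c : G) (v : WR N G) (hv : v * w0 N c = w0 N c * v) (m : ℕ) :
    ∃ e ∈ Subgroup.zpowers c, (v ^ m).left 0 = v.left 0 ^ m * e := by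
  induction m with
  | zero => exact ⟨1, Subgroup.one_mem _, by simp⟩
  | succ m ih =>
    obtain ⟨e, he, h1⟩ := ih
    obtain ⟨e', he', h2⟩ := left_mul c (v ^ m) v hv
    refine ⟨e * e', Subgroup.mul_mem _ he he', ?_⟩
    rw [pow_succ, h2, h1, pow_succ, mul_assoc (v.left 0 ^ m) e (v.left 0),
      ← zpow_comm (XWMaux.comm c v hv 0) he]
    group

theorem KG_zpow (p : ℕ) {c e : G} (he : e ∈ Subgroup.zpowers c) : e ∈ KG p c :=
  ⟨(zpow_comm rfl he).symm, 0, by rw [pow_zero, pow_one]; exact he⟩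

theorem inv_mul_comm {W : Type u} [Group W] {w z y h : W} (hz : z * w * z⁻¹ = h)
    (hy : y * w * y⁻¹ = h) : (z⁻¹ * y) * w = w * (z⁻¹ * y) := by
  have h1 : y * w * y⁻¹ = z * w * z⁻¹ := by rw [hz, hy]
  calc (z⁻¹ * y) * w = z⁻¹ * (y * w * y⁻¹) * y := by group
    _ = z⁻¹ * (z * w * z⁻¹) * y := by rw [h1]
    _ = w * (z⁻¹ * y) := by group

theorem conj_left (c : G) (v : WR N G) (hv : v * w0 N c = w0 N c * v) :
    v.left 0 * c * (v.left 0)⁻¹ = c := by
  rw [XWMaux.comm c v hv 0, mul_inv_cancel_right]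

variable {H : Type v} [AddCommGroup H]

/-- change of the base point -/
theorem base {n p : ℕ} {c : G} {X : List G → H} (hX : IsF n c (KG p c) X) (l : List (WR N G))
    {z z' h : WR N G} (hz : z * w0 N c * z⁻¹ = h) (hz' : z' * w0 N c * z'⁻¹ = h)
    (hl : ∀ y ∈ l, y * w0 N c * y⁻¹ = h) :
    X (l.map fun y => (z'⁻¹ * y).left 0) = X (l.map fun y => (z⁻¹ * y).left 0) := by
  have hv : (z'⁻¹ * z) * w0 N c = w0 N c * (z'⁻¹ * z) := inv_mul_comm hz' hz
  have key : ∀ y : WR N G, ∃ e : G, y * w0 N c * y⁻¹ = h → e ∈ Subgroup.zpowers c ∧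
      (z'⁻¹ * y).left 0 = (z'⁻¹ * z).left 0 * (z⁻¹ * y).left 0 * e := by
    intro y
    by_cases hy : y * w0 N c * y⁻¹ = h
    · obtain ⟨e, he, h1⟩ := left_mul c (z'⁻¹ * z) (z⁻¹ * y) (inv_mul_comm hz hy)
      refine ⟨e, fun _ => ⟨he, ?_⟩⟩
      rw [← h1]
      group
    · exact ⟨1, fun h => absurd h hy⟩
  choose e he using key
  have h1 : (l.map fun y => (z'⁻¹ * y).left 0) =
      l.map fun y => ((z'⁻¹ * z).left 0 * (z⁻¹ * y).left 0) * e y :=
    List.map_congr_left fun y hy => (he y (hl y hy)).2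
  have hcl : ∀ y ∈ l, (z⁻¹ * y).left 0 * c * ((z⁻¹ * y).left 0)⁻¹ = c :=
    fun y hy => conj_left c _ (inv_mul_comm hz (hl y hy))
  have hcl2 : ∀ y ∈ l, ((z'⁻¹ * z).left 0 * (z⁻¹ * y).left 0) * c *
      ((z'⁻¹ * z).left 0 * (z⁻¹ * y).left 0)⁻¹ = c := by
    intro y hy
    have e1 : ((z'⁻¹ * z).left 0 * (z⁻¹ * y).left 0) * c *
      ((z'⁻¹ * z).left 0 * (z⁻¹ * y).left 0)⁻¹ = (z'⁻¹ * z).left 0 *
      ((z⁻¹ * y).left 0 * c * ((z⁻¹ * y).left 0)⁻¹) * ((z'⁻¹ * z).left 0)⁻¹ := by group
    rw [e1, hcl y hy, conj_left c _ hv]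
  have h2 := rc_all hX (fun k hk => hk.1) (fun y => (z'⁻¹ * z).left 0 * (z⁻¹ * y).left 0) e c l []
    (by simp) hcl2 (fun y hy => KG_zpow p (he y (hl y hy)).1)
  rw [List.map_nil, List.nil_append, List.nil_append] at h2
  rw [h1, h2]
  have h3 := hX.inv ((z'⁻¹ * z).left 0) (l.map fun y => (z⁻¹ * y).left 0) (by
    rw [sameC_iff]
    refine ⟨c, fun g hg => ?_⟩
    obtain ⟨y, hy, rfl⟩ := List.mem_map.1 hg
    exact hcl y hy)
  rw [List.map_map] at h3
  exact h3

theorem XWl_eq {n p : ℕ} {c : G} {X : List G → H} (hX : IsF n c (KG p c) X) {l : List (WR N G)}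
    (hl0 : l ≠ []) {z h : WR N G} (hz : z * w0 N c * z⁻¹ = h)
    (hl : ∀ y ∈ l, y * w0 N c * y⁻¹ = h) :
    XWl X l = X (l.map fun y => (z⁻¹ * y).left 0) := by
  cases l with
  | nil => exact absurd rfl hl0
  | cons a l => exact base hX (a :: l) hz (hl a List.mem_cons_self) hl

end WRl

end XWCM

theorem specXWC : SpecXWC.{u, v} where
  main := by
    intro N p n _ G _ H _ c X hX
    refine ⟨?_, ?_, ?_, ?_⟩
    · intro g l _
      cases l with
      | nil => rfl
      | cons z l =>
        show X (((g * z) :: l.map fun z => g * z).map fun y => ((g * z)⁻¹ * y).left 0) =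
          X ((z :: l).map fun y => (z⁻¹ * y).left 0)
        have h1 : ((g * z) :: l.map fun z => g * z) = (z :: l).map fun z => g * z := rfl
        rw [h1, List.map_map]
        congr 1
        refine List.map_congr_left fun y _ => ?_
        show ((g * z)⁻¹ * (g * y)).left 0 = (z⁻¹ * y).left 0
        group
    · intro l hl hs
      obtain ⟨h, hh⟩ := (XWCM.sameC_iff _ _).1 hs
      cases l with
      | nil => simp at hl
      | cons z l =>
        have hz := hh z List.mem_cons_self
        have e1 : alt (XWl (N := N) X) (z :: l) =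
            alt (fun l' => X (l'.map fun y => (z⁻¹ * y).left 0)) (z :: l) := by
          refine XWCM.alt_congr (fun y => y * w0 N c * y⁻¹ = h) _ _ _ ?_ hh
          intro l' hl' hP
          refine XWCM.XWl_eq hX ?_ hz hP
          rintro rfl
          rw [hl, List.length_nil] at hl'
          omega
        rw [e1, XWCM.alt_map (fun y : WR N G => (z⁻¹ * y).left 0)]
        refine hX.cls _ (by rw [List.length_map]; exact hl) ?_
        rw [XWCM.sameC_iff]
        refine ⟨c, fun g hg => ?_⟩
        obtain ⟨y, hy, rfl⟩ := List.mem_map.1 hg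
        exact XWCM.conj_left c _ (XWCM.inv_mul_comm hz (hh y hy))
    · intro l l' z z' hs
      obtain ⟨h, hh⟩ := (XWCM.sameC_iff _ _).1 hs
      have hz : z * w0 N c * z⁻¹ = h := hh z (by simp)
      have hh' : ∀ y ∈ l ++ z' :: z :: l', y * w0 N c * y⁻¹ = h := by
        intro y hy
        apply hh
        simp only [List.mem_append, List.mem_cons] at hy ⊢
        tauto
      rw [XWCM.XWl_eq hX (by simp) hz hh, XWCM.XWl_eq hX (by simp) hz hh']
      simp only [List.map_append, List.map_cons]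
      refine hX.aa _ _ _ _ ?_
      rw [XWCM.sameC_iff]
      refine ⟨c, fun g hg => ?_⟩
      have hg' : g ∈ (l ++ z :: z' :: l').map fun y => (z⁻¹ * y).left 0 := by
        simpa only [List.map_append, List.map_cons] using hg
      obtain ⟨y, hy, rfl⟩ := List.mem_map.1 hg'
      exact XWCM.conj_left c _ (XWCM.inv_mul_comm hz (hh y hy))
    · intro l l' z k hk hs
      obtain ⟨h, hh⟩ := (XWCM.sameC_iff _ _).1 hs
      have hz : z * w0 N c * z⁻¹ = h := hh z (by simp)
      have hzk : (z * k) * w0 N c * (z * k)⁻¹ = h := by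
        rw [← hz]
        calc (z * k) * w0 N c * (z * k)⁻¹ = z * (k * w0 N c) * k⁻¹ * z⁻¹ := by group
          _ = z * (w0 N c * k) * k⁻¹ * z⁻¹ := by rw [hk.1]
          _ = z * w0 N c * z⁻¹ := by group
      have hh' : ∀ y ∈ l ++ (z * k) :: l', y * w0 N c * y⁻¹ = h := by
        intro y hy
        simp only [List.mem_append, List.mem_cons] at hy
        rcases hy with hy | rfl | hy
        · exact hh y (by simp [hy])
        · exact hzk
        · exact hh y (by simp [hy])
      rw [XWCM.XWl_eq hX (by simp) hz hh, XWCM.XWl_eq hX (by simp) hz hh']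
      simp only [List.map_append, List.map_cons]
      have e1 : (z⁻¹ * (z * k)).left 0 = (z⁻¹ * z).left 0 * k.left 0 := by
        have e2 : z⁻¹ * (z * k) = k := by group
        have e3 : z⁻¹ * z = 1 := by group
        rw [e2, e3, SemidirectProduct.one_left, Pi.one_apply, one_mul]
      rw [e1]
      refine hX.rc _ _ _ _ hk.2 ?_
      rw [XWCM.sameC_iff]
      refine ⟨c, fun g hg => ?_⟩
      have hg' : g ∈ (l ++ z :: l').map fun y => (z⁻¹ * y).left 0 := by
        simpa only [List.map_append, List.map_cons] using hg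
      obtain ⟨y, hy, rfl⟩ := List.mem_map.1 hg'
      exact XWCM.conj_left c _ (XWCM.inv_mul_comm hz (hh y hy))
  mem := by
    intro N p _ G _ c
    refine ⟨⟨rfl, ?_⟩, fun k j hk hkp => ⟨hk, XWMaux.comm c k hk 0, j, ?_⟩⟩
    · have : (w0 N c).left 0 = c := by
        show (Pi.mulSingle (0 : ZMod N) c : ZMod N → G) 0 = c
        rw [Pi.mulSingle_eq_same]
      rw [this]
      exact XWCM.KG_zpow p (Subgroup.mem_zpowers c)
    · obtain ⟨e, he, h1⟩ := XWCM.left_pow c k hk (p ^ j)
      rw [hkp, SemidirectProduct.one_left, Pi.one_apply] at h1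
      have h2 : k.left 0 ^ (p ^ j) = e⁻¹ := eq_inv_of_mul_eq_one_left h1.symm
      rw [h2]
      exact Subgroup.inv_mem _ he

end Pool.Agent.Lib.MPb6f35e.KA
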