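import Pool.Agent.Lib.MP_b6f35e_al.KA.SpecG
import Pool.Agent.Lib.MP_b6f35e_al.KA.AA2
import Pool.Agent.Lib.MP_b6f35e_al.KA.AA3
import Pool.Agent.Lib.MP_b6f35e_al.KA.AA4
import Pool.Agent.Lib.MP_b6f35e_al.KA.AA5
import Pool.Agent.Lib.MP_b6f35e_al.KA.ALT
import Pool.Agent.Lib.MP_b6f35e_al.KA.BET
import Pool.Agent.Lib.MP_b6f35e_al.KA.BLX
import Pool.Agent.Lib.MP_b6f35e_al.KA.BRS
import Pool.Agent.Lib.MP_b6f35e_al.KA.CNJ
import Pool.Agent.Lib.MP_b6f35e_al.KA.CONX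
import Pool.Agent.Lib.MP_b6f35e_al.KA.CRS
import Pool.Agent.Lib.MP_b6f35e_al.KA.CST
import Pool.Agent.Lib.MP_b6f35e_al.KA.DSC
import Pool.Agent.Lib.MP_b6f35e_al.KA.DSF
import Pool.Agent.Lib.MP_b6f35e_al.KA.DSK
import Pool.Agent.Lib.MP_b6f35e_al.KA.EVA
import Pool.Agent.Lib.MP_b6f35e_al.KA.EVX
import Pool.Agent.Lib.MP_b6f35e_al.KA.FIV
import Pool.Agent.Lib.MP_b6f35e_al.KA.FRS
import Pool.Agent.Lib.MP_b6f35e_al.KA.FTG
import Pool.Agent.Lib.MP_b6f35e_al.KA.FXV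
import Pool.Agent.Lib.MP_b6f35e_al.KA.GG
import Pool.Agent.Lib.MP_b6f35e_al.KA.GIN
import Pool.Agent.Lib.MP_b6f35e_al.KA.HIE
import Pool.Agent.Lib.MP_b6f35e_al.KA.HVB
import Pool.Agent.Lib.MP_b6f35e_al.KA.HVC
import Pool.Agent.Lib.MP_b6f35e_al.KA.HVF
import Pool.Agent.Lib.MP_b6f35e_al.KA.HVX
import Pool.Agent.Lib.MP_b6f35e_al.KA.IDD
import Pool.Agent.Lib.MP_b6f35e_al.KA.KAQ
import Pool.Agent.Lib.MP_b6f35e_al.KA.KFU
import Pool.Agent.Lib.MP_b6f35e_al.KA.KZC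
import Pool.Agent.Lib.MP_b6f35e_al.KA.KZH
import Pool.Agent.Lib.MP_b6f35e_al.KA.LFS
import Pool.Agent.Lib.MP_b6f35e_al.KA.LLB
import Pool.Agent.Lib.MP_b6f35e_al.KA.LMT
import Pool.Agent.Lib.MP_b6f35e_al.KA.MAK
import Pool.Agent.Lib.MP_b6f35e_al.KA.MBA
import Pool.Agent.Lib.MP_b6f35e_al.KA.MNK
import Pool.Agent.Lib.MP_b6f35e_al.KA.NRM
import Pool.Agent.Lib.MP_b6f35e_al.KA.NTL
import Pool.Agent.Lib.MP_b6f35e_al.KA.OPS
import Pool.Agent.Lib.MP_b6f35e_al.KA.PAK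
import Pool.Agent.Lib.MP_b6f35e_al.KA.PHI
import Pool.Agent.Lib.MP_b6f35e_al.KA.PKG
import Pool.Agent.Lib.MP_b6f35e_al.KA.PSH
import Pool.Agent.Lib.MP_b6f35e_al.KA.PW
import Pool.Agent.Lib.MP_b6f35e_al.KA.RCH
import Pool.Agent.Lib.MP_b6f35e_al.KA.REK
import Pool.Agent.Lib.MP_b6f35e_al.KA.RLS
import Pool.Agent.Lib.MP_b6f35e_al.KA.RR
import Pool.Agent.Lib.MP_b6f35e_al.KA.SEC
import Pool.Agent.Lib.MP_b6f35e_al.KA.TB
import Pool.Agent.Lib.MP_b6f35e_al.KA.THZ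
import Pool.Agent.Lib.MP_b6f35e_al.KA.TRA
import Pool.Agent.Lib.MP_b6f35e_al.KA.TRV
import Pool.Agent.Lib.MP_b6f35e_al.KA.TSM
import Pool.Agent.Lib.MP_b6f35e_al.KA.UCT
import Pool.Agent.Lib.MP_b6f35e_al.KA.VAR
import Pool.Agent.Lib.MP_b6f35e_al.KA.VLG
import Pool.Agent.Lib.MP_b6f35e_al.KA.VTX
import Pool.Agent.Lib.MP_b6f35e_al.KA.XEX
import Pool.Agent.Lib.MP_b6f35e_al.KA.XVH
import Pool.Agent.Lib.MP_b6f35e_al.KA.XWC
import Pool.Agent.Lib.MP_b6f35e_al.K2.LGG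
import Pool.Agent.Lib.MP_b6f35e_al.WH.ER

/-!
# Rational K-theory in all degrees (MP_b6f35e_al): assembly

For a domain `R` of characteristic zero, a group `G` and `n ≥ 1` the cross products `[u] × z` give a
homomorphism from the tensor product of `H_n(Z_G(C))` and `R[C]ˣ` over the finite cyclic subgroups `C`
of `G` to `KH (n + 1) (R[G])`; the theorem describes the elements which have finite order modulo the
images of the `KH (n + 1) (R[H])`, `H` finite.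
-/

set_option autoImplicit false

noncomputable section

namespace Pool.Agent.Lib.MPb6f35e.KA

open Pool.Agent.Lib.MPb6f35e.WH
open Pool.Agent.Lib.MPb6f35e.K2 (SpecLGG specLGG)

universe u v w x y z

namespace Mainaux

theorem rr : SpecRR.{u, v} := specRR.{u, v, 0} specALT specPW

theorem tb : SpecTB.{u, v, w} := specTB specALT specPW

theorem gg : SpecGG.{u, v, w, x} := specGG specALT specPW tb

theorem bet : SpecBET.{u, v, w, x} := specBET specPW

theorem gin : SpecGIN.{u, v, w, x} := specGIN specALT specPW rr tb gg (specNRM specPW)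

theorem pkg : SpecPKG.{u, v, w, x, y} :=
  specPKG specALT bet (specVAR.{u, v, w, x, 0} specPW) (specFIV specPW) gin

theorem cnj : SpecCNJ.{u} := specCNJ specALT

theorem crs : SpecCRS.{u, v} := specCRS.{u, v, 0} specALT

theorem llb : SpecLLB.{u, v, w} := specLLB specALT

theorem dsc : SpecDSC.{u, v, w} := specDSC specALT llb

theorem thz : SpecTHZ.{u, v} := specTHZ.{u, v, 0} specALT cnj

theorem trv : SpecTRV.{u, v} := specTRV.{u, v, 0} specALT

theorem hvx : SpecHVX.{u, v} := specHVX specOPS pkg dsc specIDD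

theorem psh : SpecPSH.{u, v, w, x, y} := specPSH specALT llb dsc dsc

theorem hvb : SpecHVB.{u, v} := specHVB specNTL specRLS psh pkg specIDD specBRS

theorem hvc : SpecHVC.{u, v} := specHVC specNTL specRLS psh pkg specIDD

theorem hvf : SpecHVF.{u, v} := specHVF.{u, v, 0} specALT specNTL specRLS psh pkg specIDD specFRS

theorem xvh : SpecXVH.{u, v} := specXVH specALT

theorem evx : SpecEVX.{u, v} := specEVX specXWC thz xvh

theorem eva : SpecEVA.{u, v, w, x, y} := specEVA specALT specPW bet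

theorem kzh : SpecKZH.{u, v} := specKZH specALT dsc crs bet eva specVLG specIDD hvx evx pkg

theorem phi : SpecPHI.{u, v} :=
  specPHI specALT specXWC specSEC specXEX specVTX specBLX specCST specFXV cnj trv hvx hvb hvc hvf kzh

theorem rek : SpecREK.{v} := specREK phi specLMT thz xvh

theorem kzc : SpecKZC.{u, v} := specKZC.{u, v, 0, 0} specALT crs

theorem rch : SpecRCH.{v} := specRCH rek (specUCT specALT) (specCON.{v, 0} specALT) thz

theorem tra : SpecTRA.{u, v} := specTRA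

theorem aa3 : SpecAA3.{u, v} :=
  specAA3 (specAA4 (specAA5 specLGG tra) specLGG tra thz) specLGG tra thz

theorem aa2 : SpecAA2.{u, v} := specAA2 aa3 (specMBA specLGG tra) tra specLGG

theorem kfu : SpecKFU.{u, v, w} := specKFU specALT crs

theorem dsk : SpecDSK.{u, v} :=
  specDSK.{u, v, 0, 0, 0} specALT specLFS specLFS specLFS

theorem dsf : SpecDSF.{u, v} := specDSF kzc kfu specLFS specLFS specLFS dsk specFTG

theorem pak : SpecPAK.{u, v} := specPAK rch specLGG thz tra aa2 kfu kfu kzc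

theorem mak : SpecMAK.{u, v} :=
  specMAK specTSM (specMNK dsf specCAS pak) (specHIE.{u, v, 0, 0} specALT tra)
    (specKAQ.{u, v, 0} specALT crs cnj kzc)

end Mainaux

/-- The theorem. -/
theorem main (n : ℕ) (hn : 0 < n) (R : Type u) [CommRing R] [IsDomain R] [CharZero R]
    (G : Type v) [Group G] (hG : n = 1 ∨ FewPrimes G) :
    ∃ κ : TGrp n R G →+ KH (n + 1) (MonoidAlgebra R G), IsKap n κ ∧
      ∀ (x : TGrp n R G) (k : ℕ), 0 < k → k • κ x ∈ FinPart (n + 1) R G →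
        (∀ M : ℕ, ∃ p, M < p ∧ p.Prime ∧ ∃ k' : ℕ, 0 < k' ∧ k' • x ∈ DSub n R G p) ∧
        (NoHidden n G → IsOfFinAddOrder x) ∧ (CentFG n G → IsOfFinAddOrder x) :=
  Mainaux.mak n hn R G hG

end Pool.Agent.Lib.MPb6f35e.KA
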