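import Pool.Agent.Lib.MP_b6f35e_al.KA.SpecG
import Pool.Agent.Lib.MP_b6f35e_al.K2.PAD

/-!
# Rational K-theory in all degrees (MP_b6f35e_al), module PAK (adapted from `K2/PAD.lean`,
# `K2/PA2.lean`)

The theorem over a subring of `ℤ_p`.
-/

set_option autoImplicit false

noncomputable section

namespace Pool.Agent.Lib.MPb6f35e.KA

open Pool.Agent.Lib.MPb6f35e.WH
open Pool.Agent.Lib.MPb6f35e.K2 (SpecLGG Supp)

universe u v

namespace PAKM

open Pool.Agent.Lib.MPb6f35e.K2.PADaux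

lemma ch_mono {X : Type u} {n : ℕ} {P Q : X → Prop} (h : ∀ x, P x → Q x) :
    ch n P ≤ ch n Q := by
  refine (AddSubgroup.closure_le _).2 ?_
  rintro y ⟨l, hl, hP, rfl⟩
  exact AddSubgroup.subset_closure ⟨l, hl, fun x hx => h x (hP x hx), rfl⟩

lemma cyc_mono {X : Type u} [Mul X] {n : ℕ} {P Q : X → Prop} (h : ∀ x, P x → Q x) {z : Ch X}
    (hz : z ∈ cyc n P) : z ∈ cyc n Q := ⟨ch_mono h hz.1, hz.2⟩

lemma isUnit_of_not_dvd (p : ℕ) [Fact p.Prime] (c : ℕ) (h : ¬ p ∣ c) :
    IsUnit ((c : ℕ) : ℤ_[p]) := by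
  rw [PadicInt.isUnit_iff, PadicInt.norm_natCast_eq_one_iff]
  exact (Nat.Prime.coprime_iff_not_dvd Fact.out).2 h

section up

variable {n : ℕ} {R : Type u} [CommRing R] {G : Type v} [Group G]

/-- `(C, z, u^a)` -/
def up (y : GenT n R G) (a : ℕ) : GenT n R G :=
  ⟨y.C, y.fin, y.cy, y.z, y.hz, y.u ^ a,
    (Pool.Agent.Lib.MPb6f35e.K2.TRLaux.US R y.C).pow_mem (x := y.u) y.hu a⟩

lemma up_cls (hTRA : SpecTRA.{u, v}) (y : GenT n R G) (a : ℕ) :
    D1.cls (RelT n R G) (up y a) = a • D1.cls (RelT n R G) y := by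
  have h := hTRA.zpowu n R G y (up y a) (a : ℤ) rfl rfl
    (by show y.u ^ a = y.u ^ (a : ℤ); rw [zpow_natCast])
  rw [h, natCast_zsmul]

lemma tsum_up (hTRA : SpecTRA.{u, v}) (l : List (GenT n R G)) (a : ℕ) :
    tsum n R G (l.map fun y => up y a) = a • tsum n R G l := by
  unfold tsum
  rw [List.map_map]
  induction l with
  | nil => simp
  | cons y t ih =>
    rw [List.map_cons, List.sum_cons, ih, List.map_cons, List.sum_cons, smul_add]
    congr 1
    show D1.cls (RelT n R G) (up y a) = _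
    rw [up_cls hTRA]

end up

/-- The image of the part from the finite subgroups of order prime to `p`. -/
lemma finQ_map {p : ℕ} [Fact p.Prime] {R₀ : Type u} [CommRing R₀] (i : R₀ →+* ℤ_[p])
    {G : Type v} [Group G] (hKFU : SpecKFU.{u, 0, v}) (n : ℕ)
    (F : KH n (MonoidAlgebra R₀ G) →+ KH n (MonoidAlgebra ℤ_[p] G))
    (hF : ∀ (m : ℕ) (z : Ch (Gl m (MonoidAlgebra R₀ G))), z ∈ cyc n (fun _ => True) →
      F (c1 n m z) = c1 n m (cmap (gm (MonoidAlgebra.mapRingHom G i) m) z))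
    (y : KH n (MonoidAlgebra R₀ G))
    (hy : y ∈ FinQ n R₀ G (fun H => Finite H ∧ ¬ p ∣ Nat.card H)) :
    F y ∈ FinP n ℤ_[p] G := by
  have h1 : FinQ n R₀ G (fun H => Finite H ∧ ¬ p ∣ Nat.card H) ≤
      (FinP n ℤ_[p] G).comap F := by
    refine (AddSubgroup.closure_le _).2 ?_
    rintro w ⟨m, z, H, ⟨hH, hp⟩, hz, rfl⟩
    show F (c1 n m z) ∈ FinP n ℤ_[p] G
    rw [hF m z (cyc_mono (fun _ _ => trivial) hz)]
    exact AddSubgroup.subset_closure ⟨m, _, H, hH, isUnit_of_not_dvd p _ hp,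
      hKFU.ov R₀ ℤ_[p] i G H n m z hz, rfl⟩
  exact h1 hy

end PAKM

open PAKM
open Pool.Agent.Lib.MPb6f35e.K2.PADaux (resU map_res exists_pow oneModP_pow oneModP_map
  map_coeff_out)

/-- **PAK**. -/
theorem specPAK (hRCH : SpecRCH.{v}) (hLGG : SpecLGG.{u, v}) (_hTHZ : SpecTHZ.{v, 0})
    (hTRA : SpecTRA.{u, v}) (hAA2 : SpecAA2.{u, v}) (hKFU : SpecKFU.{u, 0, v})
    (hKFU' : SpecKFU.{max u v, v, v}) (hKZC : SpecKZC.{u, v}) :
    SpecPAK.{u, v} := by
  classical
  intro p _ hp n hn R₀ _ i hi G _ hnG l hl k hk hrel0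
  set f : MonoidAlgebra R₀ G →+* MonoidAlgebra ℤ_[p] G := MonoidAlgebra.mapRingHom G i with hf
  have hfc : ∀ (a : MonoidAlgebra R₀ G) g, (f a).coeff g ≠ 0 → a.coeff g ≠ 0 := by
    intro a g h h'
    apply h
    rw [hf, MonoidAlgebra.coeff_mapRingHom, h', map_zero]
  -- the units of the group rings of the finite cyclic groups
  let x : ∀ j : Fin l.length, (MonoidAlgebra ℤ_[p] (l.get j).C)ˣ := fun j =>
    resU (l.get j).C (Units.map f.toMonoidHom (l.get j).u)
      (fun g h => (l.get j).hu.1 g (hfc _ g h)) (fun g h => (l.get j).hu.2 g (hfc _ g h))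
  have hx : ∀ j, MonoidAlgebra.mapDomainRingHom ℤ_[p] (l.get j).C.subtype (x j).val =
      f (l.get j).u.val := fun j => map_res _ _ (fun g h => (l.get j).hu.1 g (hfc _ g h))
  have hfin : ∀ j : Fin l.length, Finite (l.get j).C := fun j => (l.get j).fin
  have hcyc : ∀ j : Fin l.length, IsCyclic (l.get j).C := fun j => (l.get j).cy
  let ft : ∀ j : Fin l.length, Fintype (l.get j).C := fun j => @Fintype.ofFinite _ (hfin j)
  let cg : ∀ j : Fin l.length, CommGroup (l.get j).C := fun j =>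
    @IsCyclic.commGroup _ _ (hcyc j)
  -- the exponent
  have hpw : ∀ j, ∃ M : ℕ, 0 < M ∧ OneModP p ((x j : MonoidAlgebra ℤ_[p] (l.get j).C) ^ M) :=
    fun j => @exists_pow p _ _ _ (hfin j) (x j)
  choose M hM hM' using hpw
  set a : ℕ := ∏ j, M j with hadef
  have ha : 0 < a := Finset.prod_pos fun j _ => hM j
  have hone : ∀ j, OneModP p ((x j : MonoidAlgebra ℤ_[p] (l.get j).C) ^ a) := by
    intro j
    obtain ⟨k, hk⟩ : M j ∣ a := Finset.dvd_prod_of_mem M (Finset.mem_univ j)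
    rw [hk, pow_mul]
    exact oneModP_pow p (hM' j) k
  -- the relation over the p-adic integers
  have hrel : k • ∑ j : Fin l.length, c1 (n + 1) 1
      (kz (Units.map (MonoidAlgebra.mapDomainRingHom ℤ_[p] (l.get j).C.subtype).toMonoidHom
        (x j)) (l.get j).z) ∈ FinP (n + 1) ℤ_[p] G := by
    obtain ⟨F, hF⟩ := hKFU'.hom (MonoidAlgebra R₀ G) (MonoidAlgebra ℤ_[p] G) f (n + 1)
    have h1 := finQ_map i hKFU (n + 1) F hF _ hrel0
    rw [map_nsmul, map_list_sum, List.map_map] at h1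
    have h2 : l.map (F ∘ fun y => c1 (n + 1) 1 (kz y.u y.z)) =
        List.ofFn fun j : Fin l.length => c1 (n + 1) 1
          (kz (Units.map (MonoidAlgebra.mapDomainRingHom ℤ_[p]
            (l.get j).C.subtype).toMonoidHom (x j)) (l.get j).z) := by
      conv_lhs => rw [← List.ofFn_get l, List.map_ofFn]
      congr 1
      funext j
      show F (c1 (n + 1) 1 (kz (l.get j).u (l.get j).z)) = _
      rw [hF 1 _ (hKZC R₀ G n (l.get j).C (l.get j).u (l.get j).hu.1 (l.get j).z (l.get j).hz),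
        hKFU.kzm R₀ ℤ_[p] i G]
      have e2 : Units.map (MonoidAlgebra.mapRingHom G i).toMonoidHom (l.get j).u = Units.map
          (MonoidAlgebra.mapDomainRingHom ℤ_[p] (l.get j).C.subtype).toMonoidHom (x j) := by
        apply Units.ext
        exact (hx j).symm
      rw [e2]
    rw [h2, List.sum_ofFn] at h1
    exact h1
  -- the logarithms
  have key : ∀ (c : G) (χ : Ch G → ℤ_[p]), HomC n (Cz c) χ →
      ∑ j : Fin l.length, @Finset.sum _ _ _ (@Finset.univ _ (ft j)) (fun h : (l.get j).C =>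
        ((ThC c χ (l.get j).z h : ℤ_[p]) : ℚ_[p]) *
          lgP p ((x j : MonoidAlgebra ℤ_[p] (l.get j).C) ^ a) h) = 0 := by
    intro c χ hχ
    exact @hRCH p _ hp G _ n k l.length hn hk hnG (fun j => (l.get j).C) cg ft
      (fun j => by
        have h := hl (l.get j) (List.get_mem l j)
        rwa [@Nat.card_eq_fintype_card _ (ft j)] at h)
      (fun j => (l.get j).C.subtype) (fun j => (l.get j).z)
      (fun j => cyc_mono (P := Cen (l.get j).C) (fun g hg (h : (l.get j).C) => hg h.1 h.2)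
        (l.get j).hz) x hrel c χ hχ a ha hone
  have hval : ∀ j : Fin l.length, f (up (l.get j) a).u.val =
      MonoidAlgebra.mapDomainRingHom ℤ_[p] (l.get j).C.subtype
        ((x j : MonoidAlgebra ℤ_[p] (l.get j).C) ^ a) := by
    intro j
    show f ((l.get j).u ^ a).val = _
    rw [map_pow, hx j, ← map_pow]
    rfl
  obtain ⟨m₂, hm₂, h₂⟩ := hAA2 p hp n R₀ i hi G (l.map fun y => up y a)
    (by
      intro y hy
      rw [List.mem_map] at hy
      obtain ⟨y0, hy0, rfl⟩ := hy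
      obtain ⟨j, rfl⟩ := List.mem_iff_get.1 hy0
      show OneModP p (f (up (l.get j) a).u.val)
      rw [hval j]
      exact oneModP_map _ (hone j))
    (by
      intro c χ hc hχ
      have h0 := key c χ hχ
      rw [List.map_map]
      have h3 : l.map ((fun y => SG p i c χ y) ∘ fun y => up y a) =
          List.ofFn fun j : Fin l.length => SG p i c χ (up (l.get j) a) := by
        conv_lhs => rw [← List.ofFn_get l, List.map_ofFn]
        rfl
      rw [h3, List.sum_ofFn, ← h0]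
      refine Finset.sum_congr rfl fun j _ => ?_
      let := ft j
      have h4 : SG p i c χ (up (l.get j) a) =
          ∑ᶠ g : G, ((ThC c χ (l.get j).z g : ℤ_[p]) : ℚ_[p]) *
            lgP p (MonoidAlgebra.mapDomainRingHom ℤ_[p] (l.get j).C.subtype
              ((x j : MonoidAlgebra ℤ_[p] (l.get j).C) ^ a)) g := by
        unfold SG LG
        refine finsum_congr fun g => ?_
        rw [← hval j]
        rfl
      rw [h4, Pool.Agent.Lib.MPb6f35e.K2.PADaux.finsum_sub (l.get j).C]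
      · refine Finset.sum_congr rfl fun h _ => ?_
        rw [hLGG.pull p hp G (l.get j).C]
      · intro g hg
        rw [hLGG.out p hp G (l.get j).C _ ?_ g hg, mul_zero]
        intro g' hg'
        by_contra h5
        exact hg' (map_coeff_out _ _ g' h5))
  refine ⟨m₂ * a, Nat.mul_pos hm₂ ha, ?_⟩
  have h5 : tsum n R₀ G (l.map fun y => up y a) = a • tsum n R₀ G l := tsum_up hTRA l a
  have h6 : {D : Subgroup G | ∃ y ∈ l.map fun y => up y a, D ≤ y.C} =
      {D | ∃ y ∈ l, D ≤ y.C} := by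
    ext D
    constructor
    · rintro ⟨y, hy, hD⟩
      rw [List.mem_map] at hy
      obtain ⟨y0, hy0, rfl⟩ := hy
      exact ⟨y0, hy0, hD⟩
    · rintro ⟨y, hy, hD⟩
      exact ⟨up y a, List.mem_map.2 ⟨y, hy, rfl⟩, hD⟩
  rw [h6, h5, smul_smul] at h₂
  exact h₂

end Pool.Agent.Lib.MPb6f35e.KA
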