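import Pool.Agent.Lib.MP_b6f35e_al.KA.Defs
import Pool.Agent.Lib.MP_b6f35e_al.K2.SpecA

/-!
# Rational K-theory in all degrees (MP_b6f35e_al), specification A: identities on lists

Captain helper19.  Every statement has its complete proof in the docstring.
The identities of PW, RR, TB, GG have been checked by computer for lists of length at most 6.
-/

set_option autoImplicit false

noncomputable section

namespace Pool.Agent.Lib.MPb6f35e.KA

universe u v w x

/-! ### alternating sums and the bar complex -/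

/-- The alternating sum of the values of `F` at the lists with one entry omitted. -/
def alt {X : Type u} {M : Type v} [AddCommGroup M] : (List X → M) → List X → M
  | _, [] => 0
  | F, x :: l => F l - alt (fun l' => F (x :: l')) l

/-- Running products `[x, x g_1, x g_1 g_2, ..]`. -/
def run {X : Type u} [Mul X] : X → List X → List X
  | x, [] => [x]
  | x, g :: l => x :: run (x * g) l

/-- ALT (200 lines).
`add`, `smul`, `ext`: induction on the list.  `alt`: `alt (alt F) (x :: l) = alt F l - alt (alt F ∘ cons x) l`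
and `alt F (x :: l') = F l' - alt (F ∘ cons x) l'`, so the second term is `alt F l - alt (alt (F ∘ cons x)) l`;
induction for all `F`.
`lift`: both sides are homomorphisms in `z`; `M`-valued functions and the homomorphism
`lift F : Ch X → M`: `bdF` and `tl` are compatible with homomorphisms `M → M'` (induction).
`run`: Lemma: `tl (fun l' => F (run y l')) (x :: l) = alt (fun l'' => F (y :: l'')) (run (y * x) l)` for
all `F`, `y`, `x`, `l`.  Induction on `l`: `l = []`: both `F [y]`.  `l = x' :: l'`: the left side is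
`F (y :: run (y x x') l') - tl (fun l'' => (F ∘ cons y) (run (y x) l'')) (x' :: l')`, the right side is
`F (y :: run (y x x') l') - alt (F ∘ cons y ∘ cons (y x)) (run (y x x') l')`; use the lemma for
`F ∘ cons y`, `y x`.  With `y = 1`: `bdF (F ∘ run 1) (x :: l) = F (run 1 l) - alt (F ∘ cons 1) (run x l)`
and `alt F (run 1 (x :: l)) = F (run x l) - alt (F ∘ cons 1) (run x l)`, `run x l = (run 1 l).map (x * ·)`.
(For `l = []` the two sides are `0` and `F []`, hence the last hypothesis.)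
`bdbd`: it is enough: `bdF (bdF F) l = 0` for all `F`.  `F = F' ∘ run 1` for the left invariant
`F' [] := 0`, `F'(x :: l) := F` of the list of the quotients `a⁻¹ b` of consecutive entries of `x :: l`; by `run` (`P`
= everything) `bdF F = alt F' ∘ run 1`, `alt F'` is left invariant, `bdF (bdF F) = alt (alt F') ∘ run 1`.
`nat`: `f` multiplicative; on generators, induction on the list.
`ch`: `tl` on a list with entries in `P` is a sum of `±` values at lists with entries in `P` which are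
shorter by one. -/
structure SpecALT : Prop where
  add : ∀ (X : Type u) (M : Type v) [AddCommGroup M] (F F' : List X → M) (l : List X),
    alt (fun l => F l + F' l) l = alt F l + alt F' l
  sub : ∀ (X : Type u) (M : Type v) [AddCommGroup M] (F F' : List X → M) (l : List X),
    alt (fun l => F l - F' l) l = alt F l - alt F' l
  map : ∀ (X : Type u) (M : Type v) (M' : Type w) [AddCommGroup M] [AddCommGroup M'] (f : M →+ M')
    (F : List X → M) (l : List X), alt (fun l => f (F l)) l = f (alt F l)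
  alt : ∀ (X : Type u) (M : Type v) [AddCommGroup M] (F : List X → M) (l : List X),
    KA.alt (KA.alt F) l = 0
  lift : ∀ (X : Type u) (M : Type v) [Mul X] [AddCommGroup M] (F : List X → M) (z : Ch X),
    FreeAbelianGroup.lift F (bd z) = FreeAbelianGroup.lift (bdF F) z
  run : ∀ (X : Type u) (M : Type v) [Group X] [AddCommGroup M] (F : List X → M) (P : X → Prop)
    (_ : P 1) (_ : ∀ x y, P x → P y → P (x * y))
    (_ : ∀ x, P x → ∀ l : List X, (∀ y ∈ l, P y) → F (l.map fun y => x * y) = F l)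
    (l : List X) (_ : ∀ x ∈ l, P x) (_ : l = [] → F [] = 0),
    bdF (fun l => F (KA.run 1 l)) l = KA.alt F (KA.run 1 l)
  bdbd : ∀ (X : Type u) [Group X] (z : Ch X), bd (bd z) = 0
  nat : ∀ (X : Type u) (Y : Type v) [Mul X] [Mul Y] (f : X → Y) (_ : ∀ a b, f (a * b) = f a * f b)
    (z : Ch X), bd (cmap f z) = cmap f (bd z)
  ch : ∀ (X : Type u) [Mul X] (n : ℕ) (P : X → Prop) (_ : ∀ x y, P x → P y → P (x * y))
    (z : Ch X) (_ : z ∈ KA.ch (n + 1) P), bd z ∈ KA.ch n P
  cmap : ∀ (X : Type u) (Y : Type v) (n : ℕ) (P : X → Prop) (Q : Y → Prop) (f : X → Y)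
    (_ : ∀ x, P x → Q (f x)) (z : Ch X) (_ : z ∈ KA.ch n P), KA.cmap f z ∈ KA.ch n Q

/-! ### products of differences -/

section

variable {X : Type u} {Ω : Type v} [Ring Ω]

/-- `pw w [x_0, .., x_k] = (w x_1 - w x_0)(w x_2 - w x_1) .. (w x_k - w x_(k-1))` -/
def pw (w : X → Ω) : List X → Ω
  | [] => 0
  | [_] => 1
  | x :: y :: l => (w y - w x) * pw w (y :: l)

/-- The sum of the products with one factor `n y - n x`, factors `w y - w x` to its left,
`v y - v x` to its right. -/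
def px (w v n : X → Ω) : List X → Ω
  | [] => 0
  | [_] => 0
  | x :: y :: l => (w y - w x) * px w v n (y :: l) + (n y - n x) * pw v (y :: l)

/-- `Σ_v P_(≤v) r_v P_(≥v)` -/
def rr (w r : X → Ω) : List X → Ω
  | [] => 0
  | [x] => r x
  | x :: y :: l => r x * pw w (x :: y :: l) + (w y - w x) * rr w r (y :: l)

/-- `Σ_v σ^v P_(≤v) r P_(≥v)` -/
def ss (σ : ℤ) (w : X → Ω) (r : Ω) : List X → Ω
  | [] => 0
  | [_] => r
  | x :: y :: l => r * pw w (x :: y :: l) + σ • ((w y - w x) * ss σ w r (y :: l))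

/-- `Σ_v (-σ)^v P_(≤v) r w_v P_(≥v)` -/
def so (σ : ℤ) (w : X → Ω) (r : Ω) : List X → Ω
  | [] => 0
  | [x] => r * w x
  | x :: y :: l => r * w x * pw w (x :: y :: l) - σ • ((w y - w x) * so σ w r (y :: l))

end

/-- The last entry of `x :: l`. -/
def lst {X : Type u} : X → List X → X
  | x, [] => x
  | _, y :: l => lst y l

/-- `w(first) - w(last)` -/
def fl {X : Type u} {Ω : Type v} [Ring Ω] (w : X → Ω) : List X → Ω
  | [] => 0
  | x :: l => w x - w (lst x l)

/-- `g0E(x :: l) = - w(x) R + (-1)^|l| R w(last)`, `R = rr w r (x :: l)`. -/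
def g0E {X : Type u} {Ω : Type v} [Ring Ω] (w r : X → Ω) : List X → Ω
  | [] => 0
  | x :: l => (-1 : ℤ) ^ l.length • (rr w r (x :: l) * w (lst x l)) - w x * rr w r (x :: l)

/-- The cochain `G(r; ·)`, `a` the functional. -/
def gg {X : Type u} {Ω : Type v} [Ring Ω] {H : Type w} [AddCommGroup H] (a : Ω →+ H) (w : X → Ω) :
    ℤ → Ω → List X → H
  | _, _, [] => 0
  | _, _, [_] => 0
  | σ, r, x :: y :: l =>
    (-1 : ℤ) ^ (y :: l).length • (a (so σ w r (x :: y :: l) * fl w (x :: y :: l)) -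
      a (ss (-σ) w (r * w x) (x :: y :: l) * fl w (x :: y :: l))) +
      gg a w (-σ) (r * (w y - w x)) (y :: l)

/-- PW (100 lines).
`pw`: `alt (pw w) = 0`.  Let `A_x l := alt (pw w ∘ cons x) l`; `alt (pw w) (x :: l) = pw w l - A_x l`.
Claim `A_x l = pw w l` for all `x`, `l`, by induction on `l`.  `l = []`: both `0`.
`l = y :: l'`: `A_x (y :: l') = pw w (x :: l') - alt (pw w ∘ cons x ∘ cons y) l'` and
`pw w (x :: y :: l'') = (w y - w x) pw w (y :: l'')`, so this is
`pw w (x :: l') - (w y - w x) A_y l' = pw w (x :: l') - (w y - w x) pw w l'`, which is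
`pw w (y :: l')`: for `l' = []` both are `1`; for `l' = z :: l''`:
`(w z - w x) P - (w y - w x) P = (w z - w y) P`, `P = pw w (z :: l'')`.
`px`: `alt (px w v n) = 0`, in the same way: `B_x l := alt (px ∘ cons x) l = px l` by induction:
`B_x (y :: l') = px (x :: l') - (w y - w x) B_y l' - (n y - n x) alt (pw v ∘ cons y) l' =
px (x :: l') - (w y - w x) px l' - (n y - n x) pw v l'`, equal to `px (y :: l')` (`l' = []`: all `0`).
`conj`: `w' (f x) = c + g * w x * g'`, `g' * g = 1`: `pw w' (l.map f) = g * pw w l * g'` for `l ≠ []`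
(`g * g' = 1` for the one element list).
`pxc`: left translation of `px`: induction on `l`:
`px' (x :: y :: l) = (w' y - w' x) px' (y :: l) + (n' y - n' x) pw v' (y :: l)` with
`w' y - w' x = g (w y - w x) g'`, `v' y - v' x = h (v y - v x) h'`,
`n' y - n' x = g (n y - n x) h' + q (v y - v x) h' - g (w y - w x) g' q h'`, so it is
`g Δw g' (g px h' + q pw v h' - g pw w g' q h') + (g Δn h' + q Δv h' - g Δw g' q h') h pw v h'`
`= g (Δw px + Δn pw v) h' + q Δv pw v h' - g Δw pw w g' q h'` (all for the list `y :: l`). -/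
structure SpecPW : Prop where
  pw : ∀ (X : Type u) (Ω : Type v) [Ring Ω] (w : X → Ω) (l : List X), alt (pw w) l = 0
  px : ∀ (X : Type u) (Ω : Type v) [Ring Ω] (w v n : X → Ω) (l : List X), alt (px w v n) l = 0
  conj : ∀ (X : Type u) (Ω : Type v) [Ring Ω] (w : X → Ω) (Y : Type w) (w' : Y → Ω) (f : X → Y)
    (c g g' : Ω) (_ : g' * g = 1) (_ : g * g' = 1) (P : X → Prop)
    (_ : ∀ x, P x → w' (f x) = c + g * w x * g')
    (l : List X) (_ : ∀ x ∈ l, P x), KA.pw w' (l.map f) = g * KA.pw w l * g'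
  pxc : ∀ (X : Type u) (Ω : Type v) [Ring Ω] (w v n : X → Ω) (Y : Type w) (w' v' n' : Y → Ω)
    (f : X → Y) (c c' c'' g g' h h' q : Ω) (_ : g' * g = 1) (_ : g * g' = 1) (_ : h' * h = 1)
    (_ : h * h' = 1) (P : X → Prop) (_ : ∀ x, P x → w' (f x) = c + g * w x * g')
    (_ : ∀ x, P x → v' (f x) = c' + h * v x * h')
    (_ : ∀ x, P x → n' (f x) = c'' + g * n x * h' + q * v x * h' - g * w x * g' * q * h')
    (l : List X) (_ : ∀ x ∈ l, P x), KA.px w' v' n' (l.map f) =
      g * KA.px w v n l * h' + q * KA.pw v l * h' - g * KA.pw w l * g' * q * h'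

/-- RR (200 lines, from ALT, PW): `px w w n l = d (alt (rr w r) l) + alt (g0E w r) l` for
`n x = d (r x) + r x * w x - w x * r x`, `d (w x) = w x * w x`.

PROOF.  Write `Δ = w y - w x`, `P = pw w`, `R = rr w r`, `D = alt R`.
(1) `D [] = 0`, `D [x] = 0`, `D (x :: y :: l) = (r y - r x) P(y :: l) - Δ D(y :: l)`.  Proof by
induction: `D(x :: y :: l) = R(y :: l) - R(x :: l) + alt (R ∘ cons x ∘ cons y) l`,
`R(x :: y :: l') = r x Δ P(y :: l') + Δ R(y :: l')`, `alt (P ∘ cons y) l = P l` (PW),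
`alt (R ∘ cons y) l = R l - D(y :: l)`; so
`D(x :: y :: l) = R(y :: l) - R(x :: l) + r x Δ P l + Δ R l - Δ D(y :: l)` and
`R(y :: l) - R(x :: l) + r x Δ P l + Δ R l = (r y - r x) P(y :: l)`: `l = []`: both `r y - r x`;
`l = z :: l'`: `R(y :: l) - R(x :: l) = r y P(y :: l) - r x P(x :: l) - Δ R l` and
`P(x :: l) - Δ P l = P(y :: l)`.
(2) `d(P(x :: l)) = w x P(x :: l) - (-1)^|l| P(x :: l) w(last)`; `ep (w x) = - w x`: induction.
(3) Let `F [] = F [x] = 0`, `F(x :: y :: l) = Δ F(y :: l) + (d ρ - w x ρ + ρ w y) P(y :: l)`,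
`ρ = r y - r x`.  Then `px w w n (x :: l) = F(x :: l) + r x P(x :: l) - P(x :: l) r(last)`: induction,
`Δ r y + (n y - n x) - r x Δ = d ρ - w x ρ + ρ w y`.
(4) `d(D(x :: l)) = F(x :: l) + w x D(x :: l) + (-1)^|l| D(x :: l) w(last)`: induction, with
`k = |y :: l|`, primes for `y :: l`:
`d D = dρ P' + ρ (w y P' + (-1)^k P' w_last) - (w y ^ 2 - w x ^ 2) D' + Δ (F' + w y D' - (-1)^k D' w_last)`
(`ep ρ = ρ`, `d(Δ) = w y ^ 2 - w x ^ 2`, `ep Δ = - Δ`), and this is
`Δ F' + (dρ - w x ρ + ρ w y) P' + w x (ρ P' - Δ D') + (-1)^k (ρ P' - Δ D') w_last`.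
(5) `alt L (x :: l) = R(x :: l) - r x P(x :: l) + w x D(x :: l)` for `L(x :: l) = w x R(x :: l)`, `L [] = 0`,
`l ≠ []`: `alt L (x :: l) = L l - w x alt (R ∘ cons x) l = L l - w x (R l - D(x :: l))`, and
`R(x :: l) = r x P(x :: l) + (w(first l) - w x) R l`.
(6) Let `V(x :: l) = (-1)^|l| P(x :: l) w(last)`, `V [] = 0`.  `alt V (x :: l) = P(x :: l)` for `l ≠ []`, `0`
for `l = []`: `V(x :: y :: l) = - Δ V(y :: l)`, so
`alt V (x :: y :: l) = V(y :: l) - V(x :: l) - Δ (V l - alt V (y :: l))`; `l = []`: `w y - w x`;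
`l = z :: l'`: `V(y :: l) - V(x :: l) - Δ V l = 0`, so it is `Δ P(y :: l)`.
(7) `L'(x :: l) = (-1)^|l| R(x :: l) w(last)`, `L' [] = 0`:
`alt L' (x :: l) = R(x :: l) - P(x :: l) r(last) - (-1)^|l| D(x :: l) w(last)` for all `l` (for `l = []`
both sides are `0`).  Induction with `L'(x :: y :: l) = r x V(x :: y :: l) - Δ L'(y :: l)`:
`alt L' (x :: y :: l) = L'(y :: l) - L'(x :: l) - r x Δ (V l - alt V (y :: l)) - Δ (L' l - alt L' (y :: l))`.
(8) `g0E = L' - L`; for `l ≠ []` by (3), (4), (5), (7)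
`d D + alt g0E = F + w x D + (-1)^|l| D w_last + R - P r_last - (-1)^|l| D w_last - R + r x P - w x D
= px`.  For `l = []` both sides are `0`. -/
def SpecRR : Prop :=
  ∀ (X : Type u) (Ω : Type v) [Ring Ω] (ep : Ω →+* Ω) (d : Ω →+ Ω)
    (_ : ∀ a b, d (a * b) = d a * b + ep a * d b) (w r n : X → Ω) (_ : ∀ x, ep (w x) = - w x)
    (_ : ∀ x, d (w x) = w x * w x) (_ : ∀ x, ep (r x) = r x)
    (_ : ∀ x, n x = d (r x) + r x * w x - w x * r x) (l : List X),
    px w w n l = d (alt (rr w r) l) + alt (g0E w r) l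

/-- A functional `a` which is a graded trace for the elements of the subring `Z`. -/
structure IsGT {Ω : Type u} [Ring Ω] {H : Type v} [AddCommGroup H] (ep : Ω →+* Ω) (Z : Subring Ω)
    (a : Ω →+ H) : Prop where
  even : ∀ x ∈ Z, ep x = x → ∀ y, a (x * y) = a (y * x)
  odd : ∀ x ∈ Z, ep x = - x → ∀ y, a (x * y) = a (ep y * x)

/-- TB (200 lines, from ALT, PW).  `r` of parity `σ = ±1`.
(1) `alt (ss σ w r) = 0`;
(2) `alt ⟨so σ w r · fl⟩ = ⟨ss σ w r · fl⟩`, `⟨·⟩ = a`, `fl = w(first) - w(last)`.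

PROOF.  Write `S' = so σ w r`, `S = ss σ w r`, `P = pw w`, `Δ = w y - w x`.
(1) Let `A_x l = alt (S ∘ cons x) l`; claim `A_x l = S l`, by induction on `l` (`l = []`: `0`).
`S(x :: y :: l') = r Δ P(y :: l') + σ Δ S(y :: l')`; `A_x (y :: l') = S(x :: l') - (r Δ P l' + σ Δ S l')`
(PW and induction), to be compared with `S(y :: l')`: `l' = []`: both `r`; `l' = z :: l''`:
`S(x :: l') - S(y :: l') = r Δ P l' + σ Δ S l'`.
(2') `alt S' (x :: l) = S(x :: l) - σ^|l| P(x :: l) r`, all `l` (for `l = []` both sides are `0`).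
Proof: `S'(x :: y :: l) = r w x Δ P(y :: l) - σ Δ S'(y :: l)`,
`alt S' (x :: y :: l) = S'(y :: l) - S'(x :: l) + r w x Δ P l - σ Δ (S' l - alt S' (y :: l))`; for `l = []`:
`r (w y - w x)`, and `S - σ P r = r Δ + σ Δ r - σ Δ r`; for `l = z :: l'`:
`S'(y :: l) - S'(x :: l) = r w y (w z - w y) P l - r w x (w z - w x) P l + σ Δ S' l`, so
`alt S' (x :: y :: l) = r [w y (w z - w y) - w x (w z - w x) + w x Δ] P l + σ Δ alt S'(y :: l)
= r Δ (w z - w y) P l + σ Δ (S(y :: l) - σ^|l| P(y :: l) r)`.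
(3') With `P⁺ = P(x :: l)`: `S'(x :: l) = r w x P⁺ - σ (w(first l) - w x) S' l` (`l ≠ []`); and for the list
`l` with last element removed, `l = l₀ ++ [z]`, `|l₀| = m ≥ 1`:
`S' l = S' l₀ (w z - w(last l₀)) + (-σ)^m P l r w z` (induction).
(4') For `l = x :: l₁`, `l = l₀ ++ [z]`, `m = |l| - 1 ≥ 1`:
`alt (S' w_first) l = S' l₁ (w(first l₁) - w x) + (alt S' l) w x`, and
`alt (S' w_last) l = (alt S' l) w z - (-1)^m S' l₀ (w z - w(last l₀))` (to avoid lists with the last
element removed one may prove this last identity in the form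
`alt (S' w_last) l = (alt S' l) w z - (-1)^m (S' l - (-σ)^m P l r w z)` by induction on `l`, as (7) of RR).
So `alt (S' fl) l = (alt S' l) fl + S' l₁ Δ₁ + (-1)^m (S' l - (-σ)^m P r w z)`, `Δ₁ = w(first l₁) - w x`.
(5') Under `a`: `S' l₁` has parity `σ (-1)^m`, so `a(S' l₁ Δ₁) = σ (-1)^m a(Δ₁ S' l₁) =
σ (-1)^m a(σ (r w x P - S' l)) = (-1)^m a(r w x P - S' l)` (`a(y Δ₁) = ± a(Δ₁ y)` by `odd` for
`Δ₁`), so the sum of the last two terms is `a((-1)^m r w x P - σ^m P r w z)`.  The first term is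
`a(S fl - σ^m P r (w x - w z))` by (2').  The sum is
`a(S fl) + (-1)^m a(r w x P) - σ^m a(P r w x)`, and `σ^m a(P r w x) = (-1)^m a(r w x P)`: `P` is even for
even `m`; for odd `m` it is odd: `a(P r w x) = a(ep(r w x) P) = - σ a(r w x P)`.
For `|l| ≤ 1` both sides of (2) are `0`. -/
structure SpecTB : Prop where
  zero : ∀ (X : Type u) (Ω : Type v) [Ring Ω] (w : X → Ω) (σ : ℤ) (r : Ω) (l : List X),
    alt (ss σ w r) l = 0
  main : ∀ (X : Type u) (Ω : Type v) [Ring Ω] (H : Type w) [AddCommGroup H] (ep : Ω →+* Ω)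
    (Z : Subring Ω) (a : Ω →+ H) (_ : IsGT ep Z a) (w : X → Ω)
    (_ : ∀ x, ep (w x) = - w x) (σ : ℤ) (_ : σ = 1 ∨ σ = -1) (r : Ω) (_ : r ∈ Z)
    (_ : ep r = σ • r) (l : List X) (_ : ∀ x ∈ l, w x ∈ Z),
    alt (fun l => a (so σ w r l * fl w l)) l = a (ss σ w r l * fl w l)

/-- GG (200 lines, from ALT, PW, TB).
`main`: `alt (G(r; ·)) l = (-1)^|l| a (ss σ w r l · fl l)`, `G(r; ·) = gg a w σ r`.

PROOF.  Induction on `|l|`, for all `σ`, `r`.  `T_(σ,r)(l) := a (ss σ w r l · fl w l)`; additive in `r`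
(for fixed `σ`), and `alt T = 0` by TB.main and `alt alt = 0`.
`|l| ≤ 1`: both sides are `0` (`fl [x] = 0`).  `l = [x, y]`: the left side is `0`; the right side is
`a((r Δ + σ Δ r)(- Δ))`, `a(Δ (r Δ)) = a(ep(r Δ) Δ) = - σ a(r Δ Δ)`, so it is `0`.
`l = x :: y :: z :: l'`, `M = |l|`: write `G(r; l) = (-1)^(|l|-1) Z(r; l) + G₁(r; l)` for `|l| ≥ 1` (for
`|l| = 1` all terms are `0`), `G₁(r; x :: y :: l) = G(r Δ; y :: l)`, `G₁(r; [x]) = 0`,
`Z(r; l) = a(so σ w r l · fl) - U(r; l)`, `U(r; x :: l) = T_(-σ, r w x)(x :: l)`.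
`alt U (x :: y :: l) = U(y :: l) - alt (T_(-σ, r w x) ∘ cons x) (y :: l)
= T_(-σ, r w y)(y :: l) - T_(-σ, r w x)(y :: l) + alt T_(-σ, r w x) (x :: y :: l) = T_(-σ, r Δ)(y :: l)`.
`alt G₁(r; ·)(x :: y :: z :: l') = G(r(w z - w y); z :: l') - G(r(w z - w x); z :: l')
+ [alt over the omissions in z :: l' of G(r Δ; y :: ·)] = - G(r Δ; z :: l') - (alt G(r Δ; ·)(y :: z :: l')
- G(r Δ; z :: l')) = - alt G(r Δ; ·)(y :: z :: l') = - (-1)^(M-1) T_(-σ, r Δ)(y :: z :: l')`
(the third term is `alt (G(rΔ; ·) ∘ cons y) (z :: l') = G(rΔ; z :: l') - alt G(rΔ; ·)(y :: z :: l')`; signs: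
`alt G₁ (x :: y :: l₂) = G₁(y :: l₂) - G₁(x :: l₂) + alt (G₁ ∘ cons x ∘ cons y) l₂`).
With TB: `alt G = (-1)^M (T_(σ,r)(l) - T_(-σ, r Δ)(y :: z :: l')) + (-1)^M T_(-σ, r Δ)(y :: z :: l')`.
`add`: `so`, `ss` are additive in `r`.
`conj`: `w'(f x) = c + g w(x) g'`: `ss σ w' (g r g') (l.map f) = g (ss σ w r l) g'`,
`so σ w' (g r g') (l.map f) = g (so σ w r l) g' + ss (-σ) w' (g r g' c) (l.map f)` (both recursions have
the sign `-σ`), `g r g' w'(f x) = g r w(x) g' + g r g' c`, so `c` cancels in the difference, and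
`a(g y g') = a(y)` (`even` for `g'`).  `fl w' = g fl w g'`. -/
structure SpecGG : Prop where
  main : ∀ (X : Type u) (Ω : Type v) [Ring Ω] (H : Type w) [AddCommGroup H] (ep : Ω →+* Ω)
    (Z : Subring Ω) (a : Ω →+ H) (_ : IsGT ep Z a) (w : X → Ω)
    (_ : ∀ x, ep (w x) = - w x) (σ : ℤ) (_ : σ = 1 ∨ σ = -1) (r : Ω) (_ : r ∈ Z)
    (_ : ep r = σ • r) (l : List X) (_ : ∀ x ∈ l, w x ∈ Z),
    alt (gg a w σ r) l = (-1 : ℤ) ^ l.length • a (ss σ w r l * fl w l)
  add : ∀ (X : Type u) (Ω : Type v) [Ring Ω] (H : Type w) [AddCommGroup H] (a : Ω →+ H)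
    (w : X → Ω) (σ : ℤ) (r r' : Ω) (l : List X),
    gg a w σ (r + r') l = gg a w σ r l + gg a w σ r' l
  conj : ∀ (X : Type u) (Ω : Type v) [Ring Ω] (H : Type w) [AddCommGroup H] (ep : Ω →+* Ω)
    (Z : Subring Ω) (a : Ω →+ H) (_ : IsGT ep Z a) (w : X → Ω) (Y : Type x) (w' : Y → Ω)
    (f : X → Y) (c g g' : Ω) (_ : g' * g = 1) (_ : g * g' = 1) (_ : g' ∈ Z) (_ : ep g' = g')
    (P : X → Prop) (_ : ∀ x, P x → w' (f x) = c + g * w x * g')
    (σ : ℤ) (r : Ω) (l : List X) (_ : ∀ x ∈ l, P x),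
    gg a w' σ (g * r * g') (l.map f) = gg a w σ r l

end Pool.Agent.Lib.MPb6f35e.KA
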