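import Pool.Agent.Lib.MP_b6f35e_al.KA.SpecA
import Pool.Agent.Lib.MP_b6f35e_al.K2.SpecC

/-!
# Rational K-theory in all degrees (MP_b6f35e_al), specification B: the cochains `β`, `f`, `g`

Captain helper19.  Every statement has its complete proof in the docstring.

`Ω` is a differential graded ring (`ep` = sign, `d` = differential) over `S`, `I` a graded trace which
vanishes on `d Ω`.  In the docstrings `e = Σ_j τ^j` (in `S` and in `Ω`), `e' = Σ_j j τ^j = dl(e)`,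
`⟨y⟩ = I(y e)`, elements of `B` and `S` are regarded as elements of `Ω`, `x = (T, D, c)`.
-/

set_option autoImplicit false

noncomputable section

namespace Pool.Agent.Lib.MPb6f35e.KA

open Pool.Agent.Lib.MPb6f35e.WH Pool.Agent.Lib.MPb6f35e.K2

universe u v w x y

/-- The data. -/
structure DGD (B : Type u) (S : Type v) (Ω : Type w) (H : Type x) [Ring B] [Ring S] [Ring Ω]
    [AddCommGroup H] where
  /-- the order of `ρ` -/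
  N : ℕ
  /-- the automorphism -/
  ρ : B →+* B
  /-- the map to `S` -/
  i : B →+* S
  /-- the unit with `τ b τ⁻¹ = ρ b` -/
  τ : Sˣ
  /-- the derivation of `S` with `dl (i b τ^j) = j i b τ^j` -/
  dl : S →+ S
  /-- the map of `S` to `Ω` -/
  lam : S →+* Ω
  /-- the sign -/
  ep : Ω →+* Ω
  /-- the differential -/
  d : Ω →+ Ω
  /-- the graded trace -/
  I : Ω →+ H

section

variable {B : Type u} {S : Type v} {Ω : Type w} {H : Type x} [Ring B] [Ring S] [Ring Ω]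
  [AddCommGroup H]

/-- The conditions on the data. -/
structure DGD.Ok (D : DGD B S Ω H) : Prop where
  pos : 0 < D.N
  rotN : ∀ b, D.ρ^[D.N] b = b
  charN : (D.N : S) = 0
  conj : ∀ b, (D.τ : S) * D.i b = D.i (D.ρ b) * D.τ
  tauN : D.τ ^ D.N = 1
  dl_mul : ∀ s t, D.dl (s * t) = D.dl s * t + s * D.dl t
  dl_i : ∀ b, D.dl (D.i b) = 0
  dl_tau : D.dl (D.τ : S) = D.τ
  ep_lam : ∀ s, D.ep (D.lam s) = D.lam s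
  d_mul : ∀ x y, D.d (x * y) = D.d x * y + D.ep x * D.d y
  d_d : ∀ x, D.d (D.d x) = 0
  d_ep : ∀ x, D.d (D.ep x) = - D.ep (D.d x)
  d_tau : D.d (D.lam D.τ) = 0
  tr_d : ∀ x, D.I (D.d x) = 0
  even : ∀ x, D.ep x = x → ∀ y, D.I (x * y) = D.I (y * x)
  odd : ∀ x, D.ep x = - x → ∀ y, D.I (x * y) = D.I (D.ep y * x)

/-- Triples `(T, D, c)`. -/
abbrev EB (B : Type u) [Ring B] : Type u := Bˣ × Bˣ × B

/-- `(T, D, c)(T', D', c') = (T T', D D', T c' + c D')` -/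
def mulE (x y : EB B) : EB B := (x.1 * y.1, x.2.1 * y.2.1, x.1 * y.2.2 + x.2.2 * y.2.1)

/-- `(T, D, c)⁻¹ = (T⁻¹, D⁻¹, - T⁻¹ c D⁻¹)` -/
def invE (x : EB B) : EB B :=
  (x.1⁻¹, x.2.1⁻¹, - (((x.1⁻¹ : Bˣ) : B) * x.2.2 * ((x.2.1⁻¹ : Bˣ) : B)))

/-- `T` and `D` are fixed by `ρ`. -/
def DGD.Fx (D : DGD B S Ω H) (x : EB B) : Prop := D.ρ x.1 = x.1 ∧ D.ρ x.2.1 = x.2.1

/-- `T` and `D` are fixed by `ρ`, `Nm c = D - T`. -/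
def DGD.QE (D : DGD B S Ω H) (x : EB B) : Prop :=
  D.Fx x ∧ nm D.ρ D.N x.2.2 = (x.2.1 : B) - x.1

/-- `T`, `D`, `c` are fixed by `ρ`, `D - T` is a norm. -/
def DGD.RE (D : DGD B S Ω H) (x : EB B) : Prop :=
  D.Fx x ∧ D.ρ x.2.2 = x.2.2 ∧ ∃ b, nm D.ρ D.N b = (x.2.1 : B) - x.1

/-- `B → Ω` -/
def DGD.j (D : DGD B S Ω H) (b : B) : Ω := D.lam (D.i b)

/-- `e` -/
def DGD.e (D : DGD B S Ω H) : S := eS D.N D.τ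

/-- `⟨y⟩ = I(y e)` -/
def DGD.ang (D : DGD B S Ω H) : Ω →+ H := D.I.comp (AddMonoidHom.mulRight (D.lam D.e))

/-- `s = T + c e` -/
def DGD.sv (D : DGD B S Ω H) (x : EB B) : S := D.i x.1 + D.i x.2.2 * D.e

/-- `ω = d(s) s⁻¹` -/
def DGD.om (D : DGD B S Ω H) (x : EB B) : Ω := D.d (D.lam (D.sv x)) * D.lam (D.sv (invE x))

/-- `α = dl(s) s⁻¹` -/
def DGD.al (D : DGD B S Ω H) (x : EB B) : Ω := D.lam (D.dl (D.sv x) * D.sv (invE x))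

/-- `ω^T = d(T) T⁻¹` -/
def DGD.wT (D : DGD B S Ω H) (x : EB B) : Ω := D.d (D.j x.1) * D.j ((x.1⁻¹ : Bˣ) : B)

/-- `ω^D = d(D) D⁻¹` -/
def DGD.wD (D : DGD B S Ω H) (x : EB B) : Ω := D.d (D.j x.2.1) * D.j ((x.2.1⁻¹ : Bˣ) : B)

/-- `d(c) D⁻¹ - ω^T c D⁻¹` -/
def DGD.nb (D : DGD B S Ω H) (x : EB B) : Ω :=
  D.d (D.j x.2.2) * D.j ((x.2.1⁻¹ : Bˣ) : B) - D.wT x * D.j (x.2.2 * ((x.2.1⁻¹ : Bˣ) : B))

/-- `r = c T⁻¹` -/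
def DGD.rT (D : DGD B S Ω H) (x : EB B) : Ω := D.j (x.2.2 * ((x.1⁻¹ : Bˣ) : B))

/-- `d(r) + r ω^T - ω^T r` -/
def DGD.nT (D : DGD B S Ω H) (x : EB B) : Ω := D.d (D.rT x) + D.rT x * D.wT x - D.wT x * D.rT x

/-- `(α_1 - α_0) P(ω)(x_1, ..)` -/
def DGD.beE (D : DGD B S Ω H) : List (EB B) → Ω
  | [] => 0
  | [_] => 0
  | x :: y :: l => (D.al y - D.al x) * pw D.om (y :: l)

/-- `β` -/
def DGD.be (D : DGD B S Ω H) (l : List (EB B)) : H := D.I (D.beE l)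

/-- `f = ⟨c T⁻¹ P^T⟩ - ⟨D T⁻¹ c D⁻¹ P^D⟩ + ⟨D T⁻¹ PX⟩`, `(T, D, c)` the first entry. -/
def DGD.f (D : DGD B S Ω H) : List (EB B) → H
  | [] => 0
  | x :: l => D.ang (D.j (x.2.2 * ((x.1⁻¹ : Bˣ) : B)) * pw D.wT (x :: l))
      - D.ang (D.j (x.2.1 * ((x.1⁻¹ : Bˣ) : B) * x.2.2 * ((x.2.1⁻¹ : Bˣ) : B)) * pw D.wD (x :: l))
      + D.ang (D.j (x.2.1 * ((x.1⁻¹ : Bˣ) : B)) * px D.wT D.wD D.nb (x :: l))

/-- `G(r_0; ·)` -/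
def DGD.go (D : DGD B S Ω H) : List (EB B) → H
  | [] => 0
  | x :: l => gg D.ang D.wT 1 (D.rT x) (x :: l)

/-- `g` -/
def DGD.g (D : DGD B S Ω H) (l : List (EB B)) : H := D.ang (g0E D.wT D.rT l) - alt D.go l

end

/-- BET (150 lines, from PW).
`alt`: already `alt beE = 0` in `Ω`: `alt beE (x :: y :: l) = beE (y :: l) - beE (x :: l) +
alt (beE ∘ cons x ∘ cons y) l = beE (y :: l) - beE (x :: l) + (α_y - α_x) alt (pw ω ∘ cons y) l`,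
`alt (pw ω ∘ cons y) l = pw ω l` (PW.pw), and for `l = z :: l'`:
`(α_z - α_y) P - (α_z - α_x) P + (α_y - α_x) P = 0`.
`sv`: `sv(x y) = sv x sv y` for `y` in `QE`, `x` in `Fx`: `e` commutes with fixed elements of `B`,
`e c' e = Nm(c') e` (`τ^j c' = ρ^j(c') τ^j`, `τ^j e = e`):
`(T + c e)(T' + c' e) = T T' + T c' e + c (T' + Nm c') e = T T' + (T c' + c D') e`.  `x⁻¹` is in `QE` for `x`
in `QE`, and `sv x sv x⁻¹ = 1 = sv x⁻¹ sv x`.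
`inv`: for `g`, `x` in `QE`: `s = sv g`, `ω_(g x) = d(s s_x) s_x⁻¹ s⁻¹ = d(s) s⁻¹ + s ω_x s⁻¹`,
`α_(g x) = α_g + s α_x s⁻¹`, so by PW.conj `beE (g l) = s (beE l) s⁻¹`, and `I(s y s⁻¹) = I(y)` (`even`
for `s⁻¹`). -/
structure SpecBET : Prop where
  alt : ∀ (B : Type u) (S : Type v) (Ω : Type w) (H : Type x) [Ring B] [Ring S] [Ring Ω]
    [AddCommGroup H] (D : DGD B S Ω H) (l : List (EB B)), KA.alt D.be l = 0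
  sv : ∀ (B : Type u) (S : Type v) (Ω : Type w) (H : Type x) [Ring B] [Ring S] [Ring Ω]
    [AddCommGroup H] (D : DGD B S Ω H) (_ : D.Ok) (x y : EB B) (_ : D.Fx x) (_ : D.QE y),
    D.sv (mulE x y) = D.sv x * D.sv y
  inv : ∀ (B : Type u) (S : Type v) (Ω : Type w) (H : Type x) [Ring B] [Ring S] [Ring Ω]
    [AddCommGroup H] (D : DGD B S Ω H) (_ : D.Ok) (g : EB B) (_ : D.QE g) (l : List (EB B))
    (_ : ∀ x ∈ l, D.QE x), D.be (l.map fun x => mulE g x) = D.be l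

/-- VAR (300 lines, from PW).  Change of `c` by `q - ρ q`; `l` a list of pairs `(x, q)`, `x` in `QE`.

PROOF.  Facts (in `Ω`): `e (1-τ) = 0 = (1-τ) e`, `e'(1-τ) = e` (`N = 0`), `s (1-τ) = (1-τ) T`
(`T` commutes with `τ`), `e s = D e`, `e b e = Nm(b) e` for `b` in `B`; `d(τ) = 0`, `d(e) = 0`; hence
`e ω = ω^D e` (`e d(s) = d(e s) = d(D) e`, `e s⁻¹ = D⁻¹ e`), `ω (1-τ) = (1-τ) ω^T`,
`s⁻¹ (1-τ) = (1-τ) T⁻¹`, `e s⁻¹ = D⁻¹ e`; `ω^T`, `ω^D` commute with `τ`.  `α = c e' s⁻¹`, so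
`α (1-τ) = c e T⁻¹ = γ e`, `γ = c T⁻¹`; `e γ e = (u - 1) e`, `u = D T⁻¹` (`Nm(c T⁻¹) = (D - T) T⁻¹`).
(1) `s' = s + (1-τ) q e` for `x' = (T, D, c + q - ρ q)` (`(q - ρ q) e = (1-τ) q e`).
`(ω' - ω) s' = (1-τ) d(q) e - ω (1-τ) q e = (1-τ)(d(q) - ω^T q) e`, so
`ω' = ω + (1-τ) n e`, `n = nb` of `(T, D, q)`.
(2) `P(ω')(l) = P(ω)(l) + (1-τ) PX(l) e`, `PX = px ω^T ω^D nb`: induction;
`Δω (1-τ) PX e = (1-τ) Δω^T PX e`, `(1-τ) Δn e P(ω) = (1-τ) Δn P(ω^D) e`, `e (1-τ) = 0`.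
(3) `(α' - α) s' = dl(s') - α s - α (1-τ) q e = - τ q e + (1-τ) q e' - γ Nm(q) e`
(`dl(s') = dl(s) - τ q e + (1-τ) q e'`), so with `q~ = q D⁻¹`:
`δα := α' - α = - τ q~ e - γ Nm(q~) e + (1-τ) q e' s'⁻¹`, and
`e' s'⁻¹ = e' s⁻¹ - e' s⁻¹ (1-τ) q e s'⁻¹ = e' s⁻¹ - T⁻¹ Nm(q~) e`.
(4) For `P = P(ω)(l)` (any list; `e P = P^D e`, `P (1-τ) = (1-τ) P^T`, `P^T = pw ω^T`, `P^D = pw ω^D`):
`I(δα P) = ⟨q T⁻¹ P^T⟩ - ⟨D T⁻¹ q D⁻¹ P^D⟩ =: F₁(x; l)`.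
`- I(τ q~ e P) = - I(q~ P^D e τ) = - ⟨q~ P^D⟩`;
`I(γ Nm(q~) e P) = I(γ e q~ P^D e) = I(e γ e q~ P^D) = ⟨(u - 1) q~ P^D⟩` (`Nm(q~) e = e q~ e`, `P^D`
commutes with `e`; trace for `e`);
`I((1-τ) q e' s⁻¹ P) = I(q e' s⁻¹ P (1-τ)) = I(q e' (1-τ) T⁻¹ P^T) = ⟨q T⁻¹ P^T⟩`;
`I((1-τ) q T⁻¹ Nm(q~) e P) = I(q T⁻¹ Nm(q~) e (1-τ) P^T) = 0`.
(5) `I((α' _1 - α'_0)(1-τ) PX e) = I((γ'_1 - γ'_0) e PX e) = I(e (γ'_1 - γ'_0) e PX) =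
⟨(u_1 - u_0) PX⟩`.
(6) So for `l = x_0 :: x_1 :: l''`, `l₁ = x_1 :: l''`: `β' - β = F₁(x_1; l₁) - F₁(x_0; l₁) +
⟨u_1 PX(l₁)⟩ - ⟨u_0 PX(l₁)⟩`.  And `alt f`: `f(x :: l) = F₁(x; x :: l) + ⟨u_x PX(x :: l)⟩`, with PW
(`alt (pw ∘ cons x) l = pw l`, `alt (px ∘ cons x) l = px l`):
`alt f (x_0 :: l₁) = f(l₁) - F₁(x_0; l₁) - ⟨u_0 PX(l₁)⟩`.  For lists of length at most `1` both sides are
`0` (`alt f [x] = f [] = 0`). -/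
def SpecVAR : Prop :=
  ∀ (B : Type u) (S : Type v) (Ω : Type w) (H : Type x) [Ring B] [Ring S] [Ring Ω]
    [AddCommGroup H] (D : DGD B S Ω H) (_ : D.Ok) (l : List (EB B × B))
    (_ : ∀ x ∈ l, D.QE x.1),
    D.be (l.map fun x => (x.1.1, x.1.2.1, x.1.2.2 + (x.2 - D.ρ x.2))) - D.be (l.map Prod.fst) =
      alt D.f (l.map fun x => (x.1.1, x.1.2.1, x.2))

/-- FIV (200 lines, from PW).  `inv`: left invariance of `f` under all of `Fx`.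

PROOF.  `g = (T_g, D_g, q)`, `x = (T, D, c)`.  `ω^T_(g x) = ω^T_g + T_g ω^T_x T_g⁻¹`, the same for `D`;
`nb_(g x) = nb_g + T_g nb_x D_g⁻¹ + q ω^D_x D_g⁻¹ - T_g ω^T_x T_g⁻¹ q D_g⁻¹` (multiply out
`d(T_g c + q D)(D_g D)⁻¹ - (ω^T_g + T_g ω^T_x T_g⁻¹)(T_g c + q D) D⁻¹ D_g⁻¹`).  By PW.pxc (with
`g = T_g`, `h = D_g`, `q = q`):
`PX(g l) = T_g PX(l) D_g⁻¹ + q P^D(l) D_g⁻¹ - T_g P^T(l) T_g⁻¹ q D_g⁻¹`, and by PW.conj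
`P^T(g l) = T_g P^T T_g⁻¹`, `P^D(g l) = D_g P^D D_g⁻¹`.  Cyclicity: `⟨b y⟩ = ⟨y b⟩` for `b` in `B`
fixed by `ρ` (`even`, `b e = e b`); for arbitrary `b` and `y` commuting with `e`, `I(b y e) = I(y e b) =
I(e y b) = I(y b e)`, so again `⟨b y⟩ = ⟨y b⟩`.  `P^T`, `P^D` commute with `e` (entries in `Fx`).
The terms of `f(g l)`, `(T, D, c)` = first entry of `l`, `u = D T⁻¹`:
`⟨(T_g c + q D) T⁻¹ P^T T_g⁻¹⟩ = ⟨c T⁻¹ P^T⟩ + ⟨q u P^T T_g⁻¹⟩`;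
`- ⟨D_g u T_g⁻¹ (T_g c + q D) D⁻¹ P^D D_g⁻¹⟩ = - ⟨u c D⁻¹ P^D⟩ - ⟨D_g u T_g⁻¹ q P^D D_g⁻¹⟩`;
`⟨D_g u T_g⁻¹ PX(g l)⟩ = ⟨u PX⟩ + ⟨D_g u T_g⁻¹ q P^D D_g⁻¹⟩ - ⟨D_g u P^T T_g⁻¹ q D_g⁻¹⟩`,
and `⟨D_g u P^T T_g⁻¹ q D_g⁻¹⟩ = ⟨u P^T T_g⁻¹ q⟩ = ⟨q u P^T T_g⁻¹⟩`.
`add`: joint additivity in the third components: `nb` is additive in `c`, so `px` is, `P^T`, `P^D` do
not depend on `c`. -/
structure SpecFIV : Prop where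
  inv : ∀ (B : Type u) (S : Type v) (Ω : Type w) (H : Type x) [Ring B] [Ring S] [Ring Ω]
    [AddCommGroup H] (D : DGD B S Ω H) (_ : D.Ok) (g : EB B) (_ : D.Fx g) (l : List (EB B))
    (_ : ∀ x ∈ l, D.Fx x), D.f (l.map fun x => mulE g x) = D.f l
  add : ∀ (B : Type u) (S : Type v) (Ω : Type w) (H : Type x) [Ring B] [Ring S] [Ring Ω]
    [AddCommGroup H] (D : DGD B S Ω H) (l : List (EB B × B)),
    D.f (l.map fun x => (x.1.1, x.1.2.1, x.1.2.2 + x.2)) =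
      D.f (l.map Prod.fst) + D.f (l.map fun x => (x.1.1, x.1.2.1, x.2))

/-- NRM (200 lines, from PW).  Norms are killed.  Let `C` be the centralizer of `τ` in `Ω` and
`Nz` the set of the `Σ_(j<N) τ^j y τ^(-j)`, `y` in `Ω`: an additive group with `C Nz ⊆ Nz`, `Nz C ⊆ Nz`,
and `⟨n⟩ = 0` for `n` in `Nz`: `I(τ^j y τ^(-j) e) = I(τ^j y e) = I(y e τ^j) = I(y e)`, the sum is
`N I(y e) = 0` (`N = 0` in `Ω`).
`j (nm b)` is in `Nz` (`τ^j b τ^(-j) = ρ^j b`); `d Nz ⊆ Nz` (`d` commutes with the conjugation by `τ`).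
`gg`, `g0`: for `n` in `Nz` and a function `w` with values in `C`: all `so σ w n l`, `ss σ w n l` are in
`Nz`, hence `gg ang w σ n l = 0`; if all values `r x`, `x` in `l`, are in `Nz`, then `rr w r l` and
`g0E w r l` are in `Nz`, `⟨g0E w r l⟩ = 0`.
`f`: for a list `l` with entries in `RE`: modulo `Nz` (and with all factors in `C`) `D = T`, `D⁻¹ = T⁻¹`
(`D⁻¹ - T⁻¹ = - D⁻¹ (D - T) T⁻¹`), `d(D) = d(T)`, `ω^D = ω^T`, `nb = d(c) T⁻¹ - ω^T r = nT`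
(`c = r T`, `d(c) T⁻¹ = d(r) + r ω^T`), so `P^D = P^T`, `px ω^T ω^D nb = px ω^T ω^T nT` and
`f(l) = ⟨r P⟩ - ⟨r P⟩ + ⟨px ω^T ω^T nT⟩`. -/
structure SpecNRM : Prop where
  gg : ∀ (B : Type u) (S : Type v) (Ω : Type w) (H : Type x) [Ring B] [Ring S] [Ring Ω]
    [AddCommGroup H] (D : DGD B S Ω H) (_ : D.Ok) (b : B) (σ : ℤ) (l : List (EB B))
    (_ : ∀ x ∈ l, D.Fx x), KA.gg D.ang D.wT σ (D.j (nm D.ρ D.N b)) l = 0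
  g0 : ∀ (B : Type u) (S : Type v) (Ω : Type w) (H : Type x) [Ring B] [Ring S] [Ring Ω]
    [AddCommGroup H] (D : DGD B S Ω H) (_ : D.Ok) (r : EB B → Ω)
    (l : List (EB B)) (_ : ∀ x ∈ l, D.Fx x) (_ : ∀ x ∈ l, ∃ b, r x = D.j (nm D.ρ D.N b)),
    D.ang (g0E D.wT r l) = 0
  f : ∀ (B : Type u) (S : Type v) (Ω : Type w) (H : Type x) [Ring B] [Ring S] [Ring Ω]
    [AddCommGroup H] (D : DGD B S Ω H) (_ : D.Ok) (l : List (EB B)) (_ : ∀ x ∈ l, D.RE x),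
    D.f l = D.ang (px D.wT D.wT D.nT l)

/-- GIN (250 lines, from ALT, PW, RR, TB, GG, NRM).

`Z` := the centralizer of `e` in `Ω` is a subring, `IsGT ep Z ⟨·⟩`: `⟨x y⟩ = I(x y e) = I(y e x) =
I(y x e)` for even `x`, `I(x y e) = I(ep(y e) x) = I(ep(y) x e)` for odd `x` (`ep e = e`).  `ω^T_x`, `T`,
`T⁻¹`, `r_x` (`x` in `Fx`, resp. `RE`) are in `Z` (`e T = T e`, `d(e) = 0`).  `⟨d y⟩ = I(d(y e)) = 0`.
`d(ω^T) = ω^T ω^T` (`d(T⁻¹) = - T⁻¹ d(T) T⁻¹`), `ep(ω^T) = - ω^T`.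
`alt`: `alt g = alt ⟨g0E⟩ - alt (alt go) = ⟨alt g0E⟩ = ⟨px ω^T ω^T nT⟩ - ⟨d(..)⟩ = f` by RR, NRM.f.
`inv`: for `x = (T, D, q)` and `y = (T', D', c)` in `RE`:
`r_(x y) = (T c + q D') T'⁻¹ T⁻¹ = T r_y T⁻¹ + q T⁻¹ + n_y`, `n_y = q (D' - T') T'⁻¹ T⁻¹` is a norm
`j(nm b)`.  `g` is additive in the function `r` (`g0E` and `go`; `rr` is additive in `r`, GG.add), the
contribution of `n_y` is `0` by NRM.  For `r = T r_y T⁻¹`: `rr (w', T r T⁻¹)(x l) = T rr T⁻¹`;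
`⟨g0E w r l⟩ = ⟨(w_last - w_first) rr w r l⟩` (`⟨w_last R⟩ = ⟨ep(R) w_last⟩ = (-1)^(|l|-1) ⟨R w_last⟩`),
so it is invariant under `w ↦ ω_x + T w T⁻¹`; `go` by GG.conj.  For the constant function
`r = c₀ := q T⁻¹`: `rr w (fun _ => c₀) l = ss 1 w c₀ l`, `⟨(w_last - w_first) ss 1 w c₀ l⟩ =
(-1)^|l| ⟨ss 1 w c₀ l · fl w l⟩` (`(w_last - w_first) = - fl` is odd, `ep(ss) = (-1)^(|l|-1) ss`), and
`alt (gg ⟨·⟩ w 1 c₀) l = (-1)^|l| ⟨ss 1 w c₀ l · fl w l⟩` by GG.main, so the contribution to `g` is `0`.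
`add`: joint additivity in the third components. -/
structure SpecGIN : Prop where
  alt : ∀ (B : Type u) (S : Type v) (Ω : Type w) (H : Type x) [Ring B] [Ring S] [Ring Ω]
    [AddCommGroup H] (D : DGD B S Ω H) (_ : D.Ok) (l : List (EB B)) (_ : ∀ x ∈ l, D.RE x),
    KA.alt D.g l = D.f l
  inv : ∀ (B : Type u) (S : Type v) (Ω : Type w) (H : Type x) [Ring B] [Ring S] [Ring Ω]
    [AddCommGroup H] (D : DGD B S Ω H) (_ : D.Ok) (g : EB B) (_ : D.RE g) (l : List (EB B))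
    (_ : ∀ x ∈ l, D.RE x), D.g (l.map fun x => mulE g x) = D.g l
  add : ∀ (B : Type u) (S : Type v) (Ω : Type w) (H : Type x) [Ring B] [Ring S] [Ring Ω]
    [AddCommGroup H] (D : DGD B S Ω H) (l : List (EB B × B)),
    D.g (l.map fun x => (x.1.1, x.1.2.1, x.1.2.2 + x.2)) =
      D.g (l.map Prod.fst) + D.g (l.map fun x => (x.1.1, x.1.2.1, x.2))

/-! ### naturality -/

section

variable {B₀ : Type u} {B₁ : Type u} {B₂ : Type u} {S₀ : Type v} {S₁ : Type v} {S₂ : Type v}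
  {Ω₀ : Type w} {Ω₁ : Type w} {Ω₂ : Type w} {H : Type x} [Ring B₀] [Ring B₁] [Ring B₂] [Ring S₀]
  [Ring S₁] [Ring S₂] [Ring Ω₀] [Ring Ω₁] [Ring Ω₂] [AddCommGroup H]

/-- Three data, a subring `Rs` of related triples in `S₀ × S₁ × S₂` (it contains the images of `𝓑`,
the triple of the `τ`, is closed under `dl`) and `Rl` of related triples in `Ω₀ × Ω₁ × Ω₂`, on which
`I₀ = k₁ I₁ + k₂ I₂`. -/
structure IsRl {𝓑 : Type y} [Ring 𝓑] (k₁ k₂ : ℕ) (D₀ : DGD B₀ S₀ Ω₀ H) (D₁ : DGD B₁ S₁ Ω₁ H)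
    (D₂ : DGD B₂ S₂ Ω₂ H) (ψ₀ : 𝓑 →+* B₀) (ψ₁ : 𝓑 →+* B₁) (ψ₂ : 𝓑 →+* B₂)
    (Rs : Subring (S₀ × S₁ × S₂)) (Rl : Subring (Ω₀ × Ω₁ × Ω₂)) : Prop where
  N₁ : D₁.N = D₀.N
  N₂ : D₂.N = D₀.N
  b : ∀ b, (D₀.i (ψ₀ b), D₁.i (ψ₁ b), D₂.i (ψ₂ b)) ∈ Rs
  t : ((D₀.τ : S₀), (D₁.τ : S₁), (D₂.τ : S₂)) ∈ Rs
  dl : ∀ s ∈ Rs, (D₀.dl s.1, D₁.dl s.2.1, D₂.dl s.2.2) ∈ Rs
  lam : ∀ s ∈ Rs, (D₀.lam s.1, D₁.lam s.2.1, D₂.lam s.2.2) ∈ Rl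
  d : ∀ x ∈ Rl, (D₀.d x.1, D₁.d x.2.1, D₂.d x.2.2) ∈ Rl
  I : ∀ x ∈ Rl, D₀.I x.1 = k₁ • D₁.I x.2.1 + k₂ • D₂.I x.2.2

/-- The map of triples given by a ring homomorphism. -/
def mapE {B : Type u} {B' : Type v} [Ring B] [Ring B'] (ψ : B →+* B') (x : EB B) : EB B' :=
  (Units.map ψ.toMonoidHom x.1, Units.map ψ.toMonoidHom x.2.1, ψ x.2.2)

end

/-- NTL (200 lines).  Every expression in the definition of `β`, `f`, `g` is related: by induction on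
the list, the triple of the `pw`, `px`, `rr`, `ss`, `so`, `g0E`, `fl`, `beE` for the three data is in
`Rl` (sums, products; `Rl` is a subring), hence `I₀ = k₁ I₁ + k₂ I₂` of these, and `gg`: for
`(r₀, r₁, r₂)` in `Rl` by induction on the list. -/
def SpecNTL : Prop :=
  ∀ (𝓑 : Type y) (B₀ B₁ B₂ : Type u) (S₀ S₁ S₂ : Type v) (Ω₀ Ω₁ Ω₂ : Type w) (H : Type x)
    [Ring 𝓑] [Ring B₀] [Ring B₁] [Ring B₂] [Ring S₀] [Ring S₁] [Ring S₂] [Ring Ω₀] [Ring Ω₁]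
    [Ring Ω₂] [AddCommGroup H] (D₀ : DGD B₀ S₀ Ω₀ H) (D₁ : DGD B₁ S₁ Ω₁ H)
    (D₂ : DGD B₂ S₂ Ω₂ H) (ψ₀ : 𝓑 →+* B₀) (ψ₁ : 𝓑 →+* B₁) (ψ₂ : 𝓑 →+* B₂)
    (Rs : Subring (S₀ × S₁ × S₂)) (Rl : Subring (Ω₀ × Ω₁ × Ω₂)) (k₁ k₂ : ℕ)
    (_ : IsRl k₁ k₂ D₀ D₁ D₂ ψ₀ ψ₁ ψ₂ Rs Rl) (l : List (EB 𝓑)),
    D₀.be (l.map (mapE ψ₀)) =
      k₁ • D₁.be (l.map (mapE ψ₁)) + k₂ • D₂.be (l.map (mapE ψ₂)) ∧
    D₀.f (l.map (mapE ψ₀)) = k₁ • D₁.f (l.map (mapE ψ₁)) + k₂ • D₂.f (l.map (mapE ψ₂)) ∧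
    D₀.g (l.map (mapE ψ₀)) = k₁ • D₁.g (l.map (mapE ψ₁)) + k₂ • D₂.g (l.map (mapE ψ₂))

end Pool.Agent.Lib.MPb6f35e.KA
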