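import Pool.Agent.Lib.MP_b6f35e_al.KA.SpecB

/-!
# Rational K-theory in all degrees (MP_b6f35e_al), specification C: the differential graded ring of a
# cyclic cochain; descent of cochains

Captain helper19.  Every statement has its complete proof in the docstring.
-/

set_option autoImplicit false

noncomputable section

namespace Pool.Agent.Lib.MPb6f35e.KA

open Pool.Agent.Lib.MPb6f35e.WH Pool.Agent.Lib.MPb6f35e.K2

universe u v w x y

/-! ### the differential graded ring -/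

/-- `F(a₀ a₁, a₂, ..) - F(a₀, a₁ a₂, ..) + ..` -/
def mg {S : Type u} {H : Type v} [Mul S] [AddCommGroup H] : (List S → H) → List S → H
  | _, [] => 0
  | _, [_] => 0
  | F, x :: y :: l => F ((x * y) :: l) - mg (fun l' => F (x :: l')) (y :: l)

/-- The cyclic cochain `X` on `S`: additive in every entry, concentrated on lists of length `n + 1`,
`0` if an entry is `1`, `X(.., a τ, b, ..) = X(.., a, τ b, ..)`, and closed:
`X(a₀ a₁, a₂, ..) - X(a₀, a₁ a₂, ..) + .. ± X(a_(n+1) a₀, a₁, .., a_n) = 0`. -/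
structure IsX {S : Type u} {H : Type v} [Ring S] [AddCommGroup H] (n : ℕ) (τ : Sˣ)
    (X : List S → H) : Prop where
  add : ∀ (l l' : List S) (a b : S), X (l ++ (a + b) :: l') = X (l ++ a :: l') + X (l ++ b :: l')
  len : ∀ l, l.length ≠ n + 1 → X l = 0
  one : ∀ l l' : List S, X (l ++ 1 :: l') = 0
  tau : ∀ (l l' : List S) (a b : S), X (l ++ (a * τ) :: b :: l') = X (l ++ a :: (τ * b) :: l')
  cyc : ∀ (a b : S) (l : List S), l.length = n →
    mg X (a :: (l ++ [b])) + (-1 : ℤ) ^ (n + 1) • X ((b * a) :: l) = 0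

/-- `Ω` is a differential graded ring over `S`, `I` a graded trace with
`I(a₀ d(a₁) .. d(a_m)) = X(a₀, .., a_m)`. -/
structure IsOm {S : Type u} {Ω : Type w} {H : Type v} [Ring S] [Ring Ω] [AddCommGroup H] (τ : Sˣ)
    (X : List S → H) (lam : S →+* Ω) (ep : Ω →+* Ω) (d : Ω →+ Ω) (I : Ω →+ H) : Prop where
  ep_lam : ∀ s, ep (lam s) = lam s
  d_mul : ∀ x y, d (x * y) = d x * y + ep x * d y
  d_d : ∀ x, d (d x) = 0
  d_ep : ∀ x, d (ep x) = - ep (d x)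
  d_tau : d (lam τ) = 0
  tr_d : ∀ x, I (d x) = 0
  even : ∀ x, ep x = x → ∀ y, I (x * y) = I (y * x)
  odd : ∀ x, ep x = - x → ∀ y, I (x * y) = I (ep y * x)
  val : ∀ (a : S) (l : List S), I (lam a * (l.map fun s => d (lam s)).prod) = X (a :: l)

/-- OPS (350 lines).  The differential graded ring of a cyclic cochain.

PROOF.  `F` := the additive group of the functions `ξ : List S → H` with `ξ [] = 0`, additive in every
entry, `ξ(a :: l ++ 1 :: l') = 0` (an entry at a position `≥ 1` is `1`), and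
`ξ(l ++ a τ :: b :: l') = ξ(l ++ a :: τ b :: l')`.  Operators on `F`, acting from the right (ring
`Σ = (AddMonoid.End F)ᵐᵒᵖ`): `(ξ · s)(a :: l) = ξ(s a :: l)`, `(ξ · s) [] = 0`; `(ξ · D)(l) = ξ(1 :: l)`
for `l ≠ []`, `(ξ · D) [] = 0`; `(ξ · π)(l) = (-1)^|l| ξ(l)`.  (They preserve `F`: e.g. for `ξ · s` and
the condition for `τ`: `s (a τ) = (s a) τ`; for `ξ · D`: `(ξ D)(a :: l ++ 1 :: l') = ξ(1 :: a :: ..) = 0`,
additivity.)  `D D = 0` (`ξ(1 :: 1 :: l) = 0`), `π D = - D π`, `π π = 1`, `π s = s π`, and `D` commutes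
with `τ`: `(ξ D τ)(a :: l) = ξ(1 :: τ a :: l) = ξ(τ :: a :: l) = (ξ τ D)(a :: l)`.
`lam s` := the operator `· s` (a ring homomorphism), `ep φ := π φ π`, `d φ := D φ - ep(φ) D`.  Then
`ep`, `d` satisfy `ep_lam`, `d_mul`, `d_d`, `d_ep`, `d_tau` (direct computation, `ep D = - D`).
`Ω` := the subring generated by the `lam s` and `d(lam s)`; it is stable under `ep` and `d` (closure
induction).  `I(φ) := (X · φ)([1])`.  `X` is in `F`.
`val`: `(ξ · d a)(b :: l) = ξ(1 :: a b :: l) - ξ(a :: b :: l)`, so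
`(X · a₀ · d a₁ ⋯ d a_m)([1]) = X(a₀, a₁, .., a_m)`: by induction on `m`:
`(ξ · d a₁ ⋯ d a_m)([1]) = ξ(1, a₁, .., a_m)` for `ξ` in `F` (apply the induction hypothesis in the
form `(ξ · d a₁ ⋯ d a_m)([1]) = ξ(1 :: a₁ :: ..)`; `(ξ · d a₁)(1 :: a₂ :: ..) = ξ(1 :: a₁ :: a₂ ..) -
ξ(a₁ :: 1 :: a₂ ..)`, the second term is `0`).
`tr_d`: `I(d φ) = (X · D · φ)([1]) - (X · ep φ)([1, 1]) = 0` (`X(1 :: l) = 0`, entries `1` at positions
`≥ 1`).
Normal form: let `M` be the additive group generated by the `m(a₀, .., a_m) = a₀ d a₁ ⋯ d a_m`.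
`d a · b = d(a b) - a d b` gives `m(a₀, .., a_m) b = Σ_(i<=m) (-1)^(m-i) m(.., a_i a_(i+1), ..)` for the list
`a₀, .., a_m, b`; so `M` is closed under multiplication from the right with `lam b` and `d(lam b)`,
hence `M = Ω`.  `I(m(a₀, .., a_n) b) = (-1)^n mg X (a₀, .., a_n, b) = X(b a₀, a₁, .., a_n) =
I(b m(a₀, .., a_n))` by `IsX.cyc`, and for `m ≠ n` both are `0`.  So `I(b y) = I(y b)` for `y` in `Ω`,
and `I(d b · y) = I(d(b y)) - I(b d y) = - I(d y · b) = - I(d(y b)) + I(ep(y) d b) = I(ep(y) d b)`.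
Let `Pr(+, φ)`: `ep φ = φ` and `I(φ y) = I(y φ)` for all `y` in `Ω`, `Pr(-, φ)`: `ep φ = - φ` and
`I(φ y) = I(ep(y) φ)`.  Then `Pr(σ, φ)`, `Pr(σ', φ')` imply `Pr(σ σ', φ φ')` (four cases).  So every
monomial has one of the two properties, every `x` in `Ω` is `x₊ + x₋` with `Pr(+, x₊)`, `Pr(-, x₋)`.
If `ep x = x` then `2 x₋ = 0`, so `2 I(x₋ y) = 0`, `I(x₋ y) = 0` and `I(y x₋) = 0` (no 2-torsion in
`H`), which gives `even`; `odd` in the same way. -/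
def SpecOPS : Prop :=
  ∀ (S : Type u) (H : Type v) [Ring S] [AddCommGroup H] (_ : ∀ h : H, h + h = 0 → h = 0) (n : ℕ)
    (τ : Sˣ) (X : List S → H) (_ : IsX n τ X),
    ∃ (Ω : Type (max u v)) (_ : Ring Ω) (lam : S →+* Ω) (ep : Ω →+* Ω) (d : Ω →+ Ω)
      (I : Ω →+ H), IsOm τ X lam ep d I

/-- RLS (150 lines).  Related triples.

PROOF.  `Rl` := the subring generated by the `(lam s₀, lam s₁, lam s₂)` and
`(d lam s₀, d lam s₁, d lam s₂)`, `(s₀, s₁, s₂)` in `Rs`.  It is closed under `(ep, ep, ep)` (fixes the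
first kind of generators, changes the sign of the second) and `(d, d, d)` (closure induction with
`d_mul`; `d d = 0`).  Every element is a sum of monomials `a₀ d a₁ ⋯ d a_m`, `a_i` in `Rs` (the additive
group `M` generated by the monomials is closed under multiplication from the right with the
generators: `d a · b = d(a b) - a d b`, induction on `m`), and for monomials the claim is `IsOm.val` and
the hypothesis on `X`. -/
def SpecRLS : Prop :=
  ∀ (S₀ S₁ S₂ : Type u) (Ω₀ Ω₁ Ω₂ : Type w) (H : Type v) [Ring S₀] [Ring S₁] [Ring S₂] [Ring Ω₀]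
    [Ring Ω₁] [Ring Ω₂] [AddCommGroup H] (τ₀ : S₀ˣ) (τ₁ : S₁ˣ) (τ₂ : S₂ˣ) (X₀ : List S₀ → H)
    (X₁ : List S₁ → H) (X₂ : List S₂ → H) (lam₀ : S₀ →+* Ω₀) (lam₁ : S₁ →+* Ω₁)
    (lam₂ : S₂ →+* Ω₂) (ep₀ : Ω₀ →+* Ω₀) (ep₁ : Ω₁ →+* Ω₁) (ep₂ : Ω₂ →+* Ω₂) (d₀ : Ω₀ →+ Ω₀)
    (d₁ : Ω₁ →+ Ω₁) (d₂ : Ω₂ →+ Ω₂) (I₀ : Ω₀ →+ H) (I₁ : Ω₁ →+ H) (I₂ : Ω₂ →+ H)
    (_ : IsOm τ₀ X₀ lam₀ ep₀ d₀ I₀) (_ : IsOm τ₁ X₁ lam₁ ep₁ d₁ I₁)
    (_ : IsOm τ₂ X₂ lam₂ ep₂ d₂ I₂) (Rs : Subring (S₀ × S₁ × S₂)) (k₁ k₂ : ℕ)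
    (_ : ∀ l : List (S₀ × S₁ × S₂), (∀ s ∈ l, s ∈ Rs) → X₀ (l.map fun s => s.1) =
      k₁ • X₁ (l.map fun s => s.2.1) + k₂ • X₂ (l.map fun s => s.2.2)),
    ∃ Rl : Subring (Ω₀ × Ω₁ × Ω₂),
      (∀ s ∈ Rs, (lam₀ s.1, lam₁ s.2.1, lam₂ s.2.2) ∈ Rl) ∧
      (∀ x ∈ Rl, (d₀ x.1, d₁ x.2.1, d₂ x.2.2) ∈ Rl) ∧
      ∀ x ∈ Rl, I₀ x.1 = k₁ • I₁ x.2.1 + k₂ • I₂ x.2.2

/-! ### descent -/

/-- Pairs `(y, q)` with the multiplication `(y, q)(y', q') = (y y', T(y) q' + q D(y'))`. -/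
structure RT {Γ : Type u} {B : Type v} [Group Γ] [Ring B] (T D : Γ →* Bˣ) where
  /-- the group element -/
  y : Γ
  /-- the ring element -/
  q : B

section

variable {Γ : Type u} {B : Type v} [Group Γ] [Ring B] {T D : Γ →* Bˣ}

instance : Mul (RT T D) := ⟨fun a b => ⟨a.y * b.y, (T a.y : B) * b.q + a.q * D b.y⟩⟩

instance : One (RT T D) := ⟨⟨1, 0⟩⟩

instance : Inv (RT T D) :=
  ⟨fun a => ⟨a.y⁻¹, - (((T a.y)⁻¹ : Bˣ) * a.q * ((D a.y)⁻¹ : Bˣ))⟩⟩

lemma RT.ext' {a b : RT T D} (h : a.y = b.y) (h' : a.q = b.q) : a = b := by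
  cases a; cases b; cases h; cases h'; rfl

lemma RT.mul_y (a b : RT T D) : (a * b).y = a.y * b.y := rfl

lemma RT.mul_q (a b : RT T D) : (a * b).q = (T a.y : B) * b.q + a.q * D b.y := rfl

instance : Group (RT T D) :=
  Group.ofLeftAxioms
    (fun a b c => by
      apply RT.ext'
      · simp only [RT.mul_y, mul_assoc]
      · simp only [RT.mul_q, RT.mul_y, map_mul, Units.val_mul, mul_add, add_mul, mul_assoc,
          add_assoc])
    (fun a => by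
      apply RT.ext'
      · exact one_mul _
      · show ((T 1 : Bˣ) : B) * a.q + 0 * _ = a.q
        rw [map_one, Units.val_one, one_mul, zero_mul, add_zero])
    (fun a => by
      apply RT.ext'
      · exact inv_mul_cancel _
      · show ((T a.y⁻¹ : Bˣ) : B) * a.q + -(((T a.y)⁻¹ : Bˣ) * a.q * ((D a.y)⁻¹ : Bˣ)) * D a.y = 0
        rw [neg_mul, mul_assoc (((T a.y)⁻¹ : Bˣ) * a.q), Units.inv_mul, mul_one, map_inv,
          add_neg_cancel])

/-- The list of pairs of a list of group elements and a sequence of ring elements. -/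
def pr (T D : Γ →* Bˣ) : List Γ → (ℕ → B) → List (RT T D)
  | [], _ => []
  | y :: l, q => ⟨y, q 0⟩ :: pr T D l fun j => q (j + 1)

/-- `F` is jointly additive in the ring elements. -/
def Jadd {M : Type w} [AddCommGroup M] (F : List (RT T D) → M) : Prop :=
  ∀ (l : List Γ) (q q' : ℕ → B), F (pr T D l (q + q')) = F (pr T D l q) + F (pr T D l q')

/-- Sequences of ring elements over lists of group elements. -/
abbrev LL (Γ : Type u) (B : Type v) [Ring B] : Type (max u v) := List Γ →₀ (ℕ → B)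

/-- The value of `F` on `LL`. -/
def FL {M : Type w} [AddCommGroup M] (F : List (RT T D) → M) (x : LL Γ B) : M :=
  x.sum fun l q => F (pr T D l q)

/-- The class in `LL` of a list of pairs. -/
def lamL (T D : Γ →* Bˣ) : Ch (RT T D) →+ LL Γ B :=
  FreeAbelianGroup.lift fun l => Finsupp.single (l.map RT.y) fun j => (l.map RT.q).getD j 0

/-- The boundary of `LL`. -/
def bdL (T D : Γ →* Bˣ) (x : LL Γ B) : LL Γ B :=
  FL (fun l : List (RT T D) => lamL T D (bd (FreeAbelianGroup.of l))) x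

/-- `q ↦ ρ q` on `LL`. -/
def rhL (ρ : B →+* B) : LL Γ B →+ LL Γ B :=
  Finsupp.mapRange.addMonoidHom (AddMonoidHom.compLeft ρ.toAddMonoidHom ℕ)

/-- Descent data: `T`, `D` are fixed by `ρ`, `D - T` is a norm, the kernel of the norm is
`(1 - ρ) B`. -/
structure IsDD (N : ℕ) (ρ : B →+* B) (T D : Γ →* Bˣ) : Prop where
  rT : ∀ y, ρ (T y) = T y
  rD : ∀ y, ρ (D y) = D y
  surj : ∀ y, ∃ c, nm ρ N c = (D y : B) - T y
  ker : ∀ b, nm ρ N b = 0 → ∃ q, b = q - ρ q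

/-- `Nm q = D(y) - T(y)` -/
def IQ (N : ℕ) (ρ : B →+* B) (a : RT T D) : Prop := nm ρ N a.q = (D a.y : B) - T a.y

/-- The cochains `β`, `f`, `g` (on bar chains). -/
structure IsFn {H : Type w} [AddCommGroup H] (N : ℕ) (ρ : B →+* B) (β f g : List (RT T D) → H) :
    Prop where
  bet : ∀ l, (∀ a ∈ l, IQ N ρ a) → bdF β l = 0
  var : ∀ (l : List Γ) (c q : ℕ → B), (∀ a ∈ pr T D l c, IQ N ρ a) →
    β (pr T D l fun j => c j + (q j - ρ (q j))) - β (pr T D l c) = bdF f (pr T D l q)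
  fin : ∀ l, (∀ a ∈ l, ρ a.q = a.q) → bdF g l = f l
  addf : Jadd f
  addg : Jadd g

/-- `a` is a chain over the cycle `z` with entries in `IQ`, and `(1 - ρ) q` is its boundary. -/
def IsLift (N : ℕ) (ρ : B →+* B) (z : Ch Γ) (a : Ch (RT T D)) (q : LL Γ B) : Prop :=
  a ∈ AddSubgroup.closure {y | ∃ l : List (RT T D), (∀ b ∈ l, IQ N ρ b) ∧
    y = FreeAbelianGroup.of l} ∧ cmap RT.y a = z ∧ q - rhL ρ q = lamL T D (bd a)

/-- `β(a) - f(q) + g(∂ q)` -/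
def hv {H : Type w} [AddCommGroup H] (β f g : List (RT T D) → H) (a : Ch (RT T D)) (q : LL Γ B) :
    H :=
  FreeAbelianGroup.lift β a - FL f q + FL g (bdL T D q)

open Classical in
/-- The value at a cycle. -/
def hh {H : Type w} [AddCommGroup H] (N : ℕ) (ρ : B →+* B) (β f g : List (RT T D) → H)
    (z : Ch Γ) : H :=
  if h : ∃ a q, IsLift (T := T) (D := D) N ρ z a q then hv β f g h.choose h.choose_spec.choose
  else 0

end

/-- LLB (200 lines, from ALT): the algebra of `LL`.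
`add`: `FL F` is additive if `F` is jointly additive (`Finsupp.sum_add_index'`; `F(pr l 0) = 0`).
`lam`: `FL F (lamL (of l)) = F l` for jointly additive `F`: `pr (l.map y) (getD ..) = l`.
`jb`: `l ↦ lamL (bd (of l))` is jointly additive.  More generally for a jointly additive `F` the
function `bdF F` is: for families `F c` (`c` in an additive group `𝒞`) with
`F (c + c') (pr l (q + q')) = F c (pr l q) + F c' (pr l q')` the family `tl (F c)` has the same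
property; induction on `l`, `tl (F c) (pr (y :: y' :: l) q) = F c (⟨y y', T(y) q₁ + q₀ D(y')⟩ :: ..) -
tl (fun l' => F c (⟨y, q₀⟩ :: l')) (..)`, family indexed by `𝒞 × B`.
`bd`: `bdL (lamL a) = lamL (bd a)`; `bdL (bdL x) = 0`: `bdL x` is `lamL` of the sum of the
`bd (of (pr l q))`, and `bd bd = 0`.
`FB`: `FL (bdF F) x = FL F (bdL x)`: `FL F (lamL (bd (of l))) = lift F (bd (of l)) = bdF F l`.
`rh`: `rhL` commutes with `bdL` if `ρ` fixes `T`, `D`; if `rhL x = x` then all sequences in `x` are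
fixed by `ρ` (at every index). -/
structure SpecLLB : Prop where
  add : ∀ (Γ : Type u) (B : Type v) (M : Type w) [Group Γ] [Ring B] [AddCommGroup M]
    (T D : Γ →* Bˣ) (F : List (RT T D) → M) (_ : Jadd F) (x y : LL Γ B),
    FL F (x + y) = FL F x + FL F y
  lam : ∀ (Γ : Type u) (B : Type v) (M : Type w) [Group Γ] [Ring B] [AddCommGroup M]
    (T D : Γ →* Bˣ) (F : List (RT T D) → M) (_ : Jadd F) (a : Ch (RT T D)),
    FL F (lamL T D a) = FreeAbelianGroup.lift F a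
  jb : ∀ (Γ : Type u) (B : Type v) (M : Type w) [Group Γ] [Ring B] [AddCommGroup M]
    (T D : Γ →* Bˣ) (F : List (RT T D) → M) (_ : Jadd F), Jadd (bdF F)
  badd : ∀ (Γ : Type u) (B : Type v) [Group Γ] [Ring B] (T D : Γ →* Bˣ) (x y : LL Γ B),
    bdL T D (x + y) = bdL T D x + bdL T D y
  bd : ∀ (Γ : Type u) (B : Type v) [Group Γ] [Ring B] (T D : Γ →* Bˣ) (a : Ch (RT T D)),
    bdL T D (lamL T D a) = lamL T D (KA.bd a)
  bb : ∀ (Γ : Type u) (B : Type v) [Group Γ] [Ring B] (T D : Γ →* Bˣ) (x : LL Γ B),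
    bdL T D (bdL T D x) = 0
  FB : ∀ (Γ : Type u) (B : Type v) (M : Type w) [Group Γ] [Ring B] [AddCommGroup M]
    (T D : Γ →* Bˣ) (F : List (RT T D) → M) (_ : Jadd F) (x : LL Γ B),
    FL (bdF F) x = FL F (bdL T D x)
  rh : ∀ (Γ : Type u) (B : Type v) [Group Γ] [Ring B] (ρ : B →+* B)
    (T D : Γ →* Bˣ) (_ : ∀ y, ρ (T y) = T y) (_ : ∀ y, ρ (D y) = D y) (x : LL Γ B),
    bdL T D (rhL ρ x) = rhL ρ (bdL T D x)

/-- DSC (250 lines, from ALT, LLB): the descent.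

PROOF.  `ex`: `a` := the image of `z` under a section `y ↦ (y, c_y)`, `Nm c_y = D - T`.  The norm of the
sequences of `lamL a'`, for `a'` in the closure of the lists in `IQ`, depends only on `cmap RT.y a'`
(the entries are `D(y_j) - T(y_j)` for `j` smaller than the length, `0` otherwise); for `a' = bd a` it
is the one of `bd z = 0`, so it is `0`, and `lamL (bd a) = q - rhL q` (`IsDD.ker` for every list in the
support and every index).
`ev`: let `(a, q)`, `(a', q')` be lifts of `z` (`bd z = 0`), `δ = a' - a`, `cmap RT.y δ = 0`.  As above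
(the norms of `lamL δ` are `0`) `lamL δ = q₀ - rhL q₀`.  Claim: `β(δ) = f(∂ q₀)` (`lift β δ =
FL f (bdL q₀)`).  More generally for `δ` in the closure of the lists in `IQ`, with
`cmap RT.y δ = 0`: choose for every list `l` of elements of `Γ` the sequence `c_l(j) = c_(y_j)` (section);
`of (pr l c)`, with `c = c_l + (κ - ρ κ)` for a sequence `κ` (`IsDD.ker`), and by `var`
`β(pr l c) = β(pr l c_l) + bdF f (pr l κ)`.  So for `δ = Σ_i n_i of (l_i)`, `l_i = pr (y_i) (c_i)`,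
`c_i = c_(y_i) + κ_i - ρ κ_i`: `β(δ) = Σ_i n_i β(pr y_i c_(y_i)) + Σ_i n_i bdF f (pr y_i κ_i)`, the first
sum is a function of `cmap RT.y δ = 0`, the second is `FL (bdF f) (Σ n_i single y_i κ_i) =
FL f (bdL κ)`, `κ = Σ n_i single y_i κ_i`; and `lamL δ = κ - rhL κ` up to entries at indices larger than
the length (choose `κ_i(j) = 0` there); two solutions `κ`, `q₀` of `lamL δ = κ - rhL κ` differ by an
element `r` with `rhL r = r`, and `FL f (bdL r) = FL g (bdL (bdL r)) = 0` (`fin` for the lists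
`pr l q`, `q` fixed by `ρ`: `FL f r' = FL (bdF g) r' = FL g (bdL r')`).
Then `(1 - ρ)(q' - q) = lamL (bd δ) = bdL (lamL δ) = (1 - ρ) bdL q₀`, so `q' - q = bdL q₀ + r`,
`rhL r = r`, and `hv a' q' - hv a q = β(δ) - f(bdL q₀) - f(r) + g(bdL (bdL q₀)) + g(bdL r) =
- f(r) + g(bdL r) = 0`.
`add`: lifts can be added.  `bdr`: `z = bd w`: let `W` be the image of `w` under a section, `a = bd W`
(products of elements of `IQ` are in `IQ`: `Nm(T c' + c D') = T (D' - T') + (D - T) D'`), `bd a = 0`,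
`q = 0`: `hh = β(bd W) = lift (bdF β) W = 0`. -/
structure SpecDSC : Prop where
  ex : ∀ (Γ : Type u) (B : Type v) [Group Γ] [Ring B] (N : ℕ) (ρ : B →+* B)
    (T D : Γ →* Bˣ) (_ : IsDD N ρ T D) (z : Ch Γ) (_ : bd z = 0),
    ∃ a q, IsLift (T := T) (D := D) N ρ z a q
  ev : ∀ (Γ : Type u) (B : Type v) (H : Type w) [Group Γ] [Ring B] [AddCommGroup H] (N : ℕ)
    (ρ : B →+* B) (T D : Γ →* Bˣ) (_ : IsDD N ρ T D) (β f g : List (RT T D) → H)
    (_ : IsFn N ρ β f g) (z : Ch Γ) (_ : bd z = 0) (a : Ch (RT T D)) (q : LL Γ B)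
    (_ : IsLift N ρ z a q), hh N ρ β f g z = hv β f g a q
  add : ∀ (Γ : Type u) (B : Type v) (H : Type w) [Group Γ] [Ring B] [AddCommGroup H] (N : ℕ)
    (ρ : B →+* B) (T D : Γ →* Bˣ) (_ : IsDD N ρ T D) (β f g : List (RT T D) → H)
    (_ : IsFn N ρ β f g) (z z' : Ch Γ) (_ : bd z = 0) (_ : bd z' = 0),
    hh N ρ β f g (z + z') = hh N ρ β f g z + hh N ρ β f g z'
  bdr : ∀ (Γ : Type u) (B : Type v) (H : Type w) [Group Γ] [Ring B] [AddCommGroup H] (N : ℕ)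
    (ρ : B →+* B) (T D : Γ →* Bˣ) (_ : IsDD N ρ T D) (β f g : List (RT T D) → H)
    (_ : IsFn N ρ β f g) (w : Ch Γ), hh N ρ β f g (bd w) = 0

/-- The map of pairs given by `φ : Γ → Γ'` and `ψ : B → B'`. -/
def mapR {Γ : Type u} {B : Type v} {Γ' : Type w} {B' : Type x} [Group Γ] [Ring B] [Group Γ']
    [Ring B'] {T D : Γ →* Bˣ} {T' D' : Γ' →* B'ˣ} (φ : Γ →* Γ') (ψ : B →+* B') (a : RT T D) :
    RT T' D' := ⟨φ a.y, ψ a.q⟩

/-- PSH (150 lines, from ALT, LLB, DSC).  Three targets, `β₀ = k₁ β₁ + k₂ β₂` etc. on the images of the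
lists over `(Γ, B)`: then `h₀(φ₀ z) = k₁ h₁(φ₁ z) + k₂ h₂(φ₂ z)` for cycles `z` of `Γ`.

PROOF.  DSC.ex gives a lift `(a, q)` of `z` for `(Γ, B)`.  For a compatible pair `(φ, ψ)` the map `mapR`
is a group homomorphism, it maps `IQ` to `IQ` (`ψ nm = nm ψ`), `lamL (cmap mapR a) = ` the image of
`lamL a` under `single l q ↦ single (φ l) (ψ q)`, this map `LL → LL` commutes with `bdL`, `rhL`, and
`FL F (image of x) = FL (F ∘ map mapR) x`.  So the image of `(a, q)` is a lift of `φ z` and by DSC.ev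
`h(φ z) = lift (β ∘ map) a - FL (f ∘ map) q + FL (g ∘ map) (bdL q)`; add up. -/
def SpecPSH : Prop :=
  ∀ (Γ : Type u) (B : Type v) [Group Γ] [Ring B] (Γ₀ Γ₁ Γ₂ : Type w) (B₀ B₁ B₂ : Type x)
    (H : Type y) [Group Γ₀] [Group Γ₁] [Group Γ₂] [Ring B₀] [Ring B₁] [Ring B₂] [AddCommGroup H]
    (N : ℕ) (ρ : B →+* B) (T D : Γ →* Bˣ) (_ : IsDD N ρ T D)
    (ρ₀ : B₀ →+* B₀) (T₀ D₀ : Γ₀ →* B₀ˣ) (_ : IsDD N ρ₀ T₀ D₀)
    (ρ₁ : B₁ →+* B₁) (T₁ D₁ : Γ₁ →* B₁ˣ) (_ : IsDD N ρ₁ T₁ D₁)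
    (ρ₂ : B₂ →+* B₂) (T₂ D₂ : Γ₂ →* B₂ˣ) (_ : IsDD N ρ₂ T₂ D₂)
    (β₀ f₀ g₀ : List (RT T₀ D₀) → H) (β₁ f₁ g₁ : List (RT T₁ D₁) → H)
    (β₂ f₂ g₂ : List (RT T₂ D₂) → H) (_ : IsFn N ρ₀ β₀ f₀ g₀) (_ : IsFn N ρ₁ β₁ f₁ g₁)
    (_ : IsFn N ρ₂ β₂ f₂ g₂) (φ₀ : Γ →* Γ₀) (φ₁ : Γ →* Γ₁) (φ₂ : Γ →* Γ₂)
    (ψ₀ : B →+* B₀) (ψ₁ : B →+* B₁) (ψ₂ : B →+* B₂)
    (_ : ∀ b, ψ₀ (ρ b) = ρ₀ (ψ₀ b)) (_ : ∀ b, ψ₁ (ρ b) = ρ₁ (ψ₁ b))
    (_ : ∀ b, ψ₂ (ρ b) = ρ₂ (ψ₂ b))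
    (_ : ∀ y, ψ₀ (T y) = T₀ (φ₀ y) ∧ ψ₀ (D y) = D₀ (φ₀ y))
    (_ : ∀ y, ψ₁ (T y) = T₁ (φ₁ y) ∧ ψ₁ (D y) = D₁ (φ₁ y))
    (_ : ∀ y, ψ₂ (T y) = T₂ (φ₂ y) ∧ ψ₂ (D y) = D₂ (φ₂ y))
    (k₁ k₂ : ℕ) (_ : ∀ l : List (RT T D), β₀ (l.map (mapR φ₀ ψ₀)) =
      k₁ • β₁ (l.map (mapR φ₁ ψ₁)) + k₂ • β₂ (l.map (mapR φ₂ ψ₂)))
    (_ : ∀ l : List (RT T D), f₀ (l.map (mapR φ₀ ψ₀)) =
      k₁ • f₁ (l.map (mapR φ₁ ψ₁)) + k₂ • f₂ (l.map (mapR φ₂ ψ₂)))
    (_ : ∀ l : List (RT T D), g₀ (l.map (mapR φ₀ ψ₀)) =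
      k₁ • g₁ (l.map (mapR φ₁ ψ₁)) + k₂ • g₂ (l.map (mapR φ₂ ψ₂))) (z : Ch Γ) (_ : bd z = 0),
    hh N ρ₀ β₀ f₀ g₀ (cmap φ₀ z) =
      k₁ • hh N ρ₁ β₁ f₁ g₁ (cmap φ₁ z) + k₂ • hh N ρ₂ β₂ f₂ g₂ (cmap φ₂ z)

/-- The triple `(T(y), D(y), q)`. -/
def toE {Γ : Type u} {B : Type v} [Group Γ] [Ring B] {T D : Γ →* Bˣ} (a : RT T D) : EB B :=
  (T a.y, D a.y, a.q)

/-- `F(1, x₁, x₁ x₂, ..)` for a function `F` on lists of triples. -/
def inh {Γ : Type u} {B : Type v} [Group Γ] [Ring B] {T D : Γ →* Bˣ} {H : Type w}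
    (F : List (EB B) → H) (l : List (RT T D)) : H := F ((run 1 l).map toE)

/-- PKG (150 lines, from ALT, BET, VAR, FIV, GIN): the cochains of a datum are descent cochains.

PROOF.  `toE` is multiplicative (`toE (a b) = mulE (toE a) (toE b)`), maps `IQ` to `QE`, all elements to
`Fx`, elements with `ρ q = q` to `RE`.  `bet`: ALT.run for `F = β ∘ map toE` and `P = IQ` (a subgroup)
gives `bdF (inh β) l = alt β (..) = 0`.  `fin`: ALT.run for `g`, `P` = fixed by `ρ`, GIN.alt.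
`var`: ALT.run for `f` (`P` = everything): `bdF (inh f) (pr l q) = alt f (..)`; running products: the
`q`-components of `run (y, c) (pr l q)` are additive in `(c, q)`, compatible with `ρ`, so for the list of
the running products of `pr l c` and `pr l q` VAR applies (VAR for the list of the pairs
`(toE of the running product of (l, c), q-component of the running product of (l, q))`).
`addf`, `addg`: FIV.add, GIN.add in the same way. -/
def SpecPKG : Prop :=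
  ∀ (B : Type u) (S : Type v) (Ω : Type w) (H : Type x) (Γ : Type y) [Ring B] [Ring S] [Ring Ω]
    [AddCommGroup H] [Group Γ] (D : DGD B S Ω H) (_ : D.Ok) (T D' : Γ →* Bˣ)
    (_ : IsDD D.N D.ρ T D'),
    IsFn (T := T) (D := D') D.N D.ρ (inh D.be) (inh D.f) (inh D.g)

end Pool.Agent.Lib.MPb6f35e.KA
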