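import Pool.Agent.Lib.MP_b6f35e_al.KA.SpecC

/-!
# Rational K-theory in all degrees (MP_b6f35e_al), specification D: the cyclic cochain on `S`

Captain helper19.  Every statement has its complete proof in the docstring.
`S = SR N G ι = Mat_(ι^N)((ℤ/N)[W])`, `W = G^N ⋊ C_N`, `t = tW N G` the rotation, see `K2/SpecC.lean`.
-/

set_option autoImplicit false

noncomputable section

namespace Pool.Agent.Lib.MPb6f35e.KA

open Pool.Agent.Lib.MPb6f35e.WH Pool.Agent.Lib.MPb6f35e.K2

universe u v w x y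

/-! ### homogeneous cochains on the centralizer of an element -/

/-- All `z c z⁻¹`, `z` in `l`, are equal. -/
def SameC {W : Type u} [Group W] (c : W) (l : List W) : Prop :=
  ∀ z ∈ l, ∀ z' ∈ l, z * c * z⁻¹ = z' * c * z'⁻¹

/-- `F` is a left invariant alternating homogeneous `n`-cocycle on the centralizer of `c` (as a
function on the lists with `SameC c`), invariant under multiplication of any entry from the right by
elements of `K`. -/
structure IsF {W : Type u} {H : Type v} [Group W] [AddCommGroup H] (n : ℕ) (c : W) (K : Set W)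
    (F : List W → H) : Prop where
  inv : ∀ (g : W) (l : List W), SameC c l → F (l.map fun z => g * z) = F l
  cls : ∀ l : List W, l.length = n + 2 → SameC c l → alt F l = 0
  aa : ∀ (l l' : List W) (z z' : W), SameC c (l ++ z :: z' :: l') →
    F (l ++ z :: z' :: l') = - F (l ++ z' :: z :: l')
  rc : ∀ (l l' : List W) (z k : W), k ∈ K → SameC c (l ++ z :: l') →
    F (l ++ (z * k) :: l') = F (l ++ z :: l')

/-- The elements `k` which commute with `c` such that `k^(p^j)` is a power of `c` for some `j`. -/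
def KG {G : Type u} [Group G] (p : ℕ) (c : G) : Set G :=
  {k | k * c = c * k ∧ ∃ j : ℕ, k ^ (p ^ j) ∈ Subgroup.zpowers c}

/-- The elements `k` of the wreath product which commute with `w₀ = w0 N c`, with `k.left 0` in
`KG p c`. -/
def KW {G : Type u} [Group G] (N p : ℕ) (c : G) : Set (WR N G) :=
  {k | k * w0 N c = w0 N c * k ∧ k.left 0 ∈ KG p c}

/-- The function `F(z₀, z₁, ..) = X((z₀⁻¹ z₀)_0, (z₀⁻¹ z₁)_0, ..)` on the wreath product. -/
def XWl {N : ℕ} {G : Type u} [Group G] {H : Type v} [AddCommGroup H] (X : List G → H) :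
    List (WR N G) → H
  | [] => 0
  | z :: l => X ((z :: l).map fun y => (z⁻¹ * y).left 0)

/-- XWC (200 lines).  The cochain on the wreath product.

PROOF.  For `v` commuting with `w₀ = w0 N c`: all `v.left j` commute with `c` and `v.left j` is in
`v.left 0 ⟨c⟩` (see `SpecXWM` in `K2/SpecC.lean` and its proof `K2/XWM.lean`: `c^[j=0] v_(j-1) =
v_j c^[j=k]`, `k` the degree of `v`).  For two such elements `(v v').left 0 = v.left 0 · v'.left (-k)`
is in `v.left 0 · v'.left 0 · ⟨c⟩`; `⟨c⟩ ⊆ KG p c`.  For a list with `SameC w₀` all `z⁻¹ y` commute with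
`w₀`; the list of the `(z⁻¹ y).left 0` has `SameC c` (all commute with `c`).
`inv`: `(g z)⁻¹ (g y) = z⁻¹ y`.  Change of the first entry: for `SameC` lists `z :: l` and `z'` in the
same class, with `v = z'⁻¹ z`: `X((z'⁻¹ y).left 0, y in l₀) = X((v z⁻¹ y).left 0, ..) =
X(v.left 0 · (z⁻¹ y).left 0, ..) = X((z⁻¹ y).left 0, ..)` for every list `l₀` in the class (`rc` for
powers of `c` in every entry, then `inv`).  So `XWl X l₀ = X((z⁻¹ y).left 0, y in l₀)` for any `z` in the
class, and `cls`, `aa` follow from those of `X`.  `rc`: `(z⁻¹ y k).left 0` is in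
`(z⁻¹ y).left 0 · k.left 0 · ⟨c⟩`.
`mem`: `w₀` is in `KW`; if `k` commutes with `w₀` and `k^(p^j) = 1` then `k` is in `KW`:
`(k^m).left 0` is in `(k.left 0)^m ⟨c⟩`. -/
structure SpecXWC : Prop where
  main : ∀ (N p n : ℕ) [NeZero N] (G : Type u) [Group G] (H : Type v) [AddCommGroup H] (c : G)
    (X : List G → H) (_ : IsF n c (KG p c) X), IsF n (w0 N c) (KW N p c) (XWl (N := N) X)
  mem : ∀ (N p : ℕ) [NeZero N] (G : Type u) [Group G] (c : G), w0 N c ∈ KW N p c ∧
    ∀ (k : WR N G) (j : ℕ), k * w0 N c = w0 N c * k → k ^ (p ^ j) = 1 → k ∈ KW N p c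

/-- SEC (100 lines).  Sections compatible with the conjugation by `t`, `t^N = 1`.

PROOF.  On the set `Cl` of the conjugates of `c` consider the equivalence relation `h ~ h'` :
`∃ j, t^j h t^(-j) = h'`.  Choose a representative `h₀(h)` of every class (depending only on the class,
`Quotient.out`), `j(h)` with `t^j(h) h₀ t^(-j(h)) = h` and a section `σ₀` (`σ₀(h₀) c σ₀(h₀)⁻¹ = h₀`);
`s(h) := t^j(h) σ₀(h₀(h))`.  For `h' = t h t⁻¹`: same `h₀`, `t^j(h') h₀ t^(-j(h')) = t^(j(h)+1) h₀ ..`, so
`m = j(h') - j(h) - 1` satisfies `t^m h₀ = h₀ t^m` and `s(h') = t s(h) κ`, `κ = σ₀⁻¹ t^m σ₀`, which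
commutes with `c`, `κ^N = 1`. -/
def SpecSEC : Prop :=
  ∀ (W : Type u) [Group W] (N : ℕ) (_ : 0 < N) (t c : W) (_ : t ^ N = 1),
    ∃ s : W → W, (∀ h, (∃ z, z * c * z⁻¹ = h) → s h * c * (s h)⁻¹ = h) ∧
      ∀ h, (∃ z, z * c * z⁻¹ = h) →
        ∃ κ, κ * c = c * κ ∧ κ ^ N = 1 ∧ s (t * h * t⁻¹) = t * s h * κ

/-! ### arrows -/

/-- Arrows: a word `s`, an element `w` of the wreath product, a word `t`: the matrix unit `w e_(s,t)`. -/
structure Arr (N : ℕ) (G : Type u) [Group G] (ι : Type) where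
  /-- source -/
  s : ZMod N → ι
  /-- group element -/
  w : WR N G
  /-- target -/
  t : ZMod N → ι

instance {N : ℕ} {G : Type u} [Group G] {ι : Type} : Mul (Arr N G ι) :=
  ⟨fun a b => ⟨a.s, a.w * b.w, b.t⟩⟩

/-- The arrows of the list are composable. -/
def Cmp {N : ℕ} {G : Type u} [Group G] {ι : Type} : List (Arr N G ι) → Prop
  | [] => True
  | [_] => True
  | a :: b :: l => a.t = b.s ∧ Cmp (b :: l)

/-- The list of arrows is composable and closed. -/
def Clo {N : ℕ} {G : Type u} [Group G] {ι : Type} : List (Arr N G ι) → Prop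
  | [] => False
  | a :: l => Cmp (a :: l) ∧ (lst a l).t = a.s

/-- Conditions on a function on lists of arrows. -/
structure IsXa {N : ℕ} [NeZero N] {G : Type u} [Group G] {ι : Type} {H : Type v} [AddCommGroup H]
    (n : ℕ) (X : List (Arr N G ι) → H) : Prop where
  len : ∀ l, l.length ≠ n + 1 → X l = 0
  clo : ∀ l, ¬ Clo l → X l = 0
  one : ∀ (l l' : List (Arr N G ι)) (I : ZMod N → ι), X (l ++ ⟨I, 1, I⟩ :: l') = 0
  tau : ∀ (l l' : List (Arr N G ι)) (I J K : ZMod N → ι) (w w' : WR N G),
    X (l ++ ⟨I, w * tW N G, sh J⟩ :: ⟨sh J, w', K⟩ :: l') =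
      X (l ++ ⟨I, w, J⟩ :: ⟨J, tW N G * w', K⟩ :: l')
  cyc : ∀ (a b : Arr N G ι) (l : List (Arr N G ι)), l.length = n → Clo (a :: (l ++ [b])) →
    mg X (a :: (l ++ [b])) + (-1 : ℤ) ^ (n + 1) • X ((b * a) :: l) = 0

/-- The additive extension of a function on arrows to `S`. -/
def linS {N : ℕ} [NeZero N] {G : Type u} [Group G] {ι : Type} [Fintype ι] [DecidableEq ι]
    (φ : Arr N G ι → ZMod N) : SR N G ι →+ ZMod N :=
  ∑ I : ZMod N → ι, ∑ J : ZMod N → ι,
    ((Finsupp.liftAddHom fun w : WR N G => AddMonoidHom.mulRight (φ ⟨I, w, J⟩)).comp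
      MonoidAlgebra.coeffAddEquiv.toAddMonoidHom).comp (Matrix.entryAddMonoidHom _ I J)

/-- The multiadditive extension of a function on lists of arrows to lists of elements of `S`. -/
def Xe {N : ℕ} [NeZero N] {G : Type u} [Group G] {ι : Type} [Fintype ι] [DecidableEq ι] :
    (List (Arr N G ι) → ZMod N) → List (SR N G ι) → ZMod N
  | X, [] => X []
  | X, s :: l => linS (fun a => Xe (fun l' => X (a :: l')) l) s

/-- XEX (300 lines).  The extension satisfies the conditions `IsX`.

PROOF.  `Xe X l` is additive in every entry and in `X`, `Xe (fun _ => 0) = 0`, `Xe` depends only on the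
values of `X` on lists of the same length.  On `Matrix.single I J (single w a)` the map `linS φ` is
`a φ ⟨I, w, J⟩`.  `one`: `1 = Σ_I e_(I,I)`.  `tau`: `w e_(I,J) · τ = w t e_(I, sh J)`,
`τ · w' e_(sh J, K) = t w' e_(J, K)` and `clo` (both sides are `0` if the words do not match).
`cyc`: `linS φ (s s') = Σ_(a, b) s_a s'_b [a.t = b.s] φ(a b)` (sum over arrows, in the form: `linS φ (s s')
= linS (fun a => linS (fun b => if a.t = b.s then φ (a * b) else 0) s') s`).  So the left side of `IsX.cyc`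
for `Xe X` is `Xe Y (a :: (l ++ [b]))`, `Y(α :: (λ ++ [β])) = mg' X (..) + (-1)^(n+1) [β.t = α.s] X((β α) :: λ)`,
`mg'` = `mg` with the indicators `[a.t = b.s]`.  `Y = 0` on all lists of arrows of length `n + 2`: if the
list is closed this is `IsXa.cyc`; if one of the `n + 2` joints (the last one is `β.t = α.s`) does not
match, the term of this joint has indicator `0` and in all other terms the joint is still there and
`X = 0` by `clo`. -/
def SpecXEX : Prop :=
  ∀ (N n : ℕ) [NeZero N] (G : Type u) [Group G] (ι : Type) [Fintype ι] [DecidableEq ι]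
    (X : List (Arr N G ι) → ZMod N) (_ : IsXa n X), IsX n (tauS N G ι) (Xe X)

/-! ### the cochain on arrows -/

section

variable {W : Type u} [Group W] {H : Type v} [AddCommGroup H] {Θ : Type w} [Fintype Θ]

/-- The vertex `a θ s((a θ)⁻¹ g (a θ))`. -/
def vtx (s : W → W) (g a θ : W) : W := a * θ * s ((a * θ)⁻¹ * g * (a * θ))

end

/-- The sum over all choices of elements `θ` of the family at the targets of the arrows of the values of
`F` at the lists of vertices; `a` = product of the previous arrows. -/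
def xs {N : ℕ} {G : Type u} [Group G] {ι : Type} {H : Type v} [AddCommGroup H] {Θ : Type w}
    [Fintype Θ] (s : WR N G → WR N G) (θ : (ZMod N → ι) → Θ → WR N G) (g : WR N G) :
    WR N G → (List (WR N G) → H) → List (Arr N G ι) → H
  | _, F, [] => F []
  | a, F, r :: l => ∑ m : Θ, xs s θ g (a * r.w)
      (fun l' => F (vtx s g (a * r.w) (θ r.t m) :: l')) l

open Classical in
/-- The cochain on arrows. -/
def XA {N : ℕ} {G : Type u} [Group G] {ι : Type} {H : Type v} [AddCommGroup H] {Θ : Type w}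
    [Fintype Θ] (n : ℕ) (c : WR N G) (s : WR N G → WR N G) (θ : (ZMod N → ι) → Θ → WR N G)
    (F : List (WR N G) → H) (l : List (Arr N G ι)) : H :=
  if l.length = n + 1 ∧ Clo l ∧ ∃ z, z * c * z⁻¹ = (l.map Arr.w).prod then
    xs s θ (l.map Arr.w).prod 1 F l else 0

/-- A strict section for `c`, up to elements of `K`; the family `θ` is compatible with `t`. -/
structure IsSec {N : ℕ} {G : Type u} [Group G] {ι : Type} {Θ : Type w} (c : WR N G)
    (K : Set (WR N G)) (s : WR N G → WR N G) (θ : (ZMod N → ι) → Θ → WR N G) : Prop where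
  sec : ∀ h, (∃ z, z * c * z⁻¹ = h) → s h * c * (s h)⁻¹ = h
  str : ∀ h, (∃ z, z * c * z⁻¹ = h) →
    ∃ κ, κ * c = c * κ ∧ κ ∈ K ∧ s (tW N G * h * (tW N G)⁻¹) = tW N G * s h * κ
  mem : c ∈ K
  fam : ∀ J, ∃ π : Θ ≃ Θ, ∀ m, θ (sh J) m = (tW N G)⁻¹ * θ J (π m) * tW N G

/-- VTX (350 lines).  `H` has no 2-torsion, `|Θ|` is injective on `H`.

PROOF.  Let `v(a, J, m) = vtx s g a (θ J m)`; if `g` is conjugate to `c` then
`v c v⁻¹ = g` for all vertices (`IsSec.sec`), so all lists of vertices have `SameC c`.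
Left multiplication: `vtx s (b g b⁻¹) (b a) θ = b vtx s g a θ`.
(A) A function `F` with `aa` and `SameC` list: `F(.., z, z, ..) = 0` (no 2-torsion), and exchanging two
sums: if two neighbouring entries run over the same family `v(m)`, `v(m')`, the sum over `(m, m')` is
`0` (it is equal to its negative).  The same for the first and the last entry (moving the last entry
to the second place changes the sign by a fixed factor).
`one`: arrow `⟨I, 1, I⟩` at position `i ≥ 1`: by `Clo` the previous arrow has target `I`, the products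
`a` after both arrows are equal: both vertices run over `v(a, I, m)`: `0` by (A).  Position `0`: the
target of the last arrow is `I`, the last product is `g`: `v(g, I, m) = g θ s(θ⁻¹ g θ) =
θ (θ⁻¹ g θ) s(θ⁻¹ g θ) = v(1, I, m) c`, by `rc` for `c` the first and the last entry run over the same
family.  (If the list has length `1` then `n = 0`; we assume `0 < n`.)
`tau`: only the vertex between the two arrows changes, from `v(a w t, sh J, m)` to `v(a w, J, m)`:
`a w t θ(sh J, m) = a w θ(J, π m) t`, so the first one is `a w θ t s(t⁻¹ h t)`, `h = (a w θ)⁻¹ g (a w θ)`,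
`θ = θ(J, π m)`, and `s(h) = t s(t⁻¹ h t) κ`, so it is `v(a w, J, π m) κ⁻¹`, `rc` (for `κ⁻¹`: apply `rc`
for `κ` to the list with `κ⁻¹`), and reindex by `π`.
`cyc`: let `l₀ = a :: (l ++ [b])`, `g` its product, `z₀, .., z_(n+1)` the vertices.  Merging the arrows
`i`, `i + 1` (`i ≤ n`) omits the vertex `z_i`, so `|Θ| X(merged) = Σ F(.., ẑ_i, ..)`, sum over all
`(m_0, .., m_(n+1))`; `X((b a) :: l)`: product `b.w g b.w⁻¹`, vertices `b.w z_0, .., b.w z_n`, `inv`:
`|Θ| X((b a) :: l) = Σ F(z_0, .., z_n)`.  So `|Θ|` times the left side is `Σ alt F (z_0, .., z_(n+1)) = 0`. -/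
def SpecVTX : Prop :=
  ∀ (N n : ℕ) [NeZero N] (_ : 0 < n) (G : Type u) [Group G] (ι : Type) (H : Type v)
    [AddCommGroup H] (_ : ∀ h : H, h + h = 0 → h = 0) (Θ : Type w) [Fintype Θ]
    (_ : ∀ h : H, Fintype.card Θ • h = 0 → h = 0) (c : WR N G) (K : Set (WR N G))
    (s : WR N G → WR N G) (θ : (ZMod N → ι) → Θ → WR N G) (_ : IsSec c K s θ)
    (F : List (WR N G) → H) (_ : IsF n c K F), IsXa n (XA n c s θ F)

/-! ### blocks -/

section

variable {N : ℕ} {G : Type u} [Group G] {ι κ : Type}

/-- `a` respects the labels `b : ι → Bool`: group elements of degree `k` in the entry `(I, J)` only if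
the labels of `J` are those of `I` shifted by `k`. -/
def DSb (b : ι → Bool) (a : SR N G ι) : Prop :=
  ∀ (I J : ZMod N → ι) (g : WR N G), (a I J).coeff g ≠ 0 → ∀ j, b (J j) = b (I (j + dg g))

/-- Restriction to the words with letters in the image of `f`. -/
def sbF (f : κ → ι) (a : SR N G ι) : SR N G κ :=
  a.submatrix (fun I j => f (I j)) (fun I j => f (I j))

end

/-- BRS (200 lines; see `K2/BLS.lean`).  `f₀`, `f₁` are injective with images the letters labelled
`false`, `true`.  The triples `(a, sbF f₀ a, sbF f₁ a)`, `DSb b a`, form a subring with the properties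
needed in `IsRl`.

PROOF.  `mul`: for a word `I` in the image of `f₀` (all labels `false`) an entry `(I, J)` of an element
with `DSb` is `0` unless all labels of `J` are `false`, so `sbF f₀ (a a') = sbF f₀ a · sbF f₀ a'`;
`DSb` for products: `b(K j) = b(J(j + dg g')) = b(I(j + dg g' + dg g))`.  `iB`: entries of degree `0`,
`BD b x` (block diagonal); `sbF f (iB x) = iB (sb f x)`.  `tau`: the entry `(I, sh I)` of degree `1`,
`b(sh I j) = b(I(j + 1))`; `sbF f τ = τ` (`f` injective). `dl`: entry by entry. -/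
def SpecBRS : Prop :=
  ∀ (N : ℕ) [NeZero N] (G : Type u) [Group G] (ι κ₀ κ₁ : Type) [Fintype ι] [DecidableEq ι]
    [Fintype κ₀] [DecidableEq κ₀] [Fintype κ₁] [DecidableEq κ₁] (b : ι → Bool) (f₀ : κ₀ → ι)
    (f₁ : κ₁ → ι) (_ : Function.Injective f₀) (_ : Function.Injective f₁)
    (_ : ∀ i, b i = false ↔ ∃ j, f₀ j = i) (_ : ∀ i, b i = true ↔ ∃ j, f₁ j = i),
    ∃ Rs : Subring (SR N G ι × SR N G κ₀ × SR N G κ₁),
      (∀ s, s ∈ Rs ↔ DSb b s.1 ∧ s.2.1 = sbF f₀ s.1 ∧ s.2.2 = sbF f₁ s.1) ∧
      (∀ (k : Type v) [CommRing k] (r : k →+* ZMod N) (x : TR k G ι N), BD b x →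
        (iB k N r G ι x, iB k N r G κ₀ (sb f₀ x), iB k N r G κ₁ (sb f₁ x)) ∈ Rs) ∧
      ((tauS N G ι : SR N G ι), (tauS N G κ₀ : SR N G κ₀), (tauS N G κ₁ : SR N G κ₁)) ∈ Rs ∧
      ∀ s ∈ Rs, (dS N G ι s.1, dS N G κ₀ s.2.1, dS N G κ₁ s.2.2) ∈ Rs

/-- BLX (250 lines).  The cochain on elements which respect the labels is the sum of the cochains of
the two blocks; `c` has degree `1`.

PROOF.  Expand `Xe` over arrows: only arrows `r` with `b(r.t j) = b(r.s(j + dg r.w))` contribute.  A list
of such arrows on which `XA` is not `0` is closed, with product `g` conjugate to `c`, so of degree `1`;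
the labels `λ_i` of the words satisfy `λ_(i+1)(j) = λ_i(j + dg w_i)`, so `λ_0(j) = λ_0(j + 1)`, `λ_0` is
constant (`const_of_shift` in `WH/GBlock.lean`) and all `λ_i` are equal to `λ_0`.  So all words of the
list are in the image of `f₀`, or all are in the image of `f₁`, and `XA` of the list is `XA` of the list of
the preimages (`θ (f ∘ J) = θ' J`).  Formally: by induction on the list of elements one proves
`Xe Y (l) = Xe (Y ∘ map f₀) (l.map sbF f₀) + Xe (Y ∘ map f₁) (l.map sbF f₁)` if `Y` vanishes on the lists of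
arrows which respect the labels and are not completely in one of the two images (and for the
functions `fun l' => Y (a :: l')`: the sum over the arrows `a` in the image of `f₀`, of `f₁`, and the
others; for the first two kinds the continuation vanishes on the lists in the other image). -/
def SpecBLX : Prop :=
  ∀ (N n : ℕ) [NeZero N] (G : Type u) [Group G] (ι κ₀ κ₁ : Type) [Fintype ι] [DecidableEq ι]
    [Fintype κ₀] [DecidableEq κ₀] [Fintype κ₁] [DecidableEq κ₁] (b : ι → Bool) (f₀ : κ₀ → ι)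
    (f₁ : κ₁ → ι) (_ : Function.Injective f₀) (_ : Function.Injective f₁)
    (_ : ∀ i, b i = false ↔ ∃ j, f₀ j = i) (_ : ∀ i, b i = true ↔ ∃ j, f₁ j = i) (Θ : Type w)
    [Fintype Θ] (c : WR N G) (_ : dg c = 1) (s : WR N G → WR N G) (F : List (WR N G) → ZMod N)
    (θ : (ZMod N → ι) → Θ → WR N G) (θ₀ : (ZMod N → κ₀) → Θ → WR N G)
    (θ₁ : (ZMod N → κ₁) → Θ → WR N G) (_ : ∀ J, θ (fun j => f₀ (J j)) = θ₀ J)
    (_ : ∀ J, θ (fun j => f₁ (J j)) = θ₁ J) (l : List (SR N G ι)) (_ : ∀ a ∈ l, DSb b a),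
    Xe (XA n c s θ F) l = Xe (XA n c s θ₀ F) (l.map (sbF f₀)) + Xe (XA n c s θ₁ F) (l.map (sbF f₁))

/-- The constant family. -/
def th1 (N : ℕ) (G : Type u) [Group G] (ι : Type) (Θ : Type w) :
    (ZMod N → ι) → Θ → WR N G := fun _ _ => 1

/-- CST (60 lines): `XA` for the constant family over `Θ` is `|Θ|^(n+1)` times `XA` for `Unit`; the
same for `Xe`. -/
def SpecCST : Prop :=
  ∀ (N n : ℕ) [NeZero N] (G : Type u) [Group G] (ι : Type) [Fintype ι] [DecidableEq ι]
    (Θ : Type w) [Fintype Θ] (c : WR N G) (s : WR N G → WR N G) (F : List (WR N G) → ZMod N)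
    (l : List (SR N G ι)), Xe (XA n c s (th1 N G ι Θ) F) l =
      (Fintype.card Θ ^ (n + 1)) • Xe (XA n c s (th1 N G ι Unit) F) l

/-! ### finite subgroups -/

/-- The family of all words of elements of `H`. -/
def thH {N : ℕ} {G : Type u} [Group G] {ι : Type} (H : Subgroup G) :
    (ZMod N → ι) → (ZMod N → H) → WR N G := fun _ m => inW N G fun j => (m j : G)

/-- FXV (200 lines).  For the family `thH H` the cochain vanishes on elements over `H`.

PROOF.  `Xe` over arrows: only arrows with `w` in `W_H = {w | ∀ j, w.left j ∈ H}` (a subgroup)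
contribute.  For such a list every product `a` is in `W_H`, `a = γ t^k`, and
`a inW(m) = inW(m') t^k`, `m ↦ m'` a bijection of `ZMod N → H`; by `IsSec.str` (applied `k` times)
`s(t^(-k) h t^k) = t^(-k) s(h) κ` with `κ` a product of elements of `K` (up to inverses), so
`vtx s g a (inW m) = inW(m') s(inW(m')⁻¹ g inW(m')) κ`.  By `rc` the sum over all choices is
`Σ F(v(m_0), .., v(m_n))` with the same function `v` at all places (induction on the list, for the
functions `F`), and by `aa` for the first two entries (`n ≥ 1`) it is equal to its negative. -/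
def SpecFXV : Prop :=
  ∀ (N n : ℕ) [NeZero N] (_ : 0 < n) (G : Type u) [Group G] (ι : Type) [Fintype ι]
    [DecidableEq ι] (H : Subgroup G) [Fintype H] (_ : ∀ h : ZMod N, h + h = 0 → h = 0)
    (c : WR N G) (K : Set (WR N G)) (s : WR N G → WR N G)
    (_ : IsSec c K s (thH (ι := ι) H)) (F : List (WR N G) → ZMod N) (_ : IsF n c K F)
    (l : List (SR N G ι))
    (_ : ∀ a ∈ l, ∀ (I J : ZMod N → ι) (g : WR N G), (a I J).coeff g ≠ 0 → ∀ j, g.left j ∈ H),
    Xe (XA n c s (thH H) F) l = 0

/-- FRS (100 lines; see `K2/HSB.lean`).  The triples `(a, a, a)` with `a` over `H` form a subring with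
the properties needed in `IsRl`. -/
def SpecFRS : Prop :=
  ∀ (N : ℕ) [NeZero N] (G : Type u) [Group G] (ι : Type) [Fintype ι] [DecidableEq ι]
    (H : Subgroup G),
    ∃ Rs : Subring (SR N G ι × SR N G ι × SR N G ι),
      (∀ s, s ∈ Rs ↔ (∀ (I J : ZMod N → ι) (g : WR N G), (s.1 I J).coeff g ≠ 0 →
        ∀ j, g.left j ∈ H) ∧ s.2.1 = s.1 ∧ s.2.2 = s.1) ∧
      (∀ (k : Type v) [CommRing k] (r : k →+* ZMod N) (x : TR k H ι N),
        (iB k N r G ι (FT H.subtype x), iB k N r G ι (FT H.subtype x),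
          iB k N r G ι (FT H.subtype x)) ∈ Rs) ∧
      ((tauS N G ι : SR N G ι), (tauS N G ι : SR N G ι), (tauS N G ι : SR N G ι)) ∈ Rs ∧
      ∀ s ∈ Rs, (dS N G ι s.1, dS N G ι s.2.1, dS N G ι s.2.2) ∈ Rs

end Pool.Agent.Lib.MPb6f35e.KA
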