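import Pool.Agent.Lib.MP_b6f35e_al.KA.SpecD

/-!
# Rational K-theory in all degrees (MP_b6f35e_al), specification E: homotopies; the homomorphism `Φ`

Captain helper19.  Every statement has its complete proof in the docstring.
-/

set_option autoImplicit false

noncomputable section

namespace Pool.Agent.Lib.MPb6f35e.KA

open Pool.Agent.Lib.MPb6f35e.WH Pool.Agent.Lib.MPb6f35e.K2

universe u v w x y

/-! ### homotopies of the bar complex -/

/-- `[g x_1 g⁻¹, .., g x_i g⁻¹, g, x_(i+1), ..]` with alternating signs. -/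
def cj {X : Type u} [Group X] {M : Type v} [AddCommGroup M] : (List X → M) → X → List X → M
  | F, g, [] => F [g]
  | F, g, x :: l => F (g :: x :: l) - cj (fun l' => F ((g * x * g⁻¹) :: l')) g l

/-- CNJ (150 lines, from ALT): conjugation acts trivially on homology.

PROOF.  Write `x' = g x g⁻¹`, `l' = l.map (·)'`, `(F ∘ a) m = F (a :: m)`.
Lemma: for `J (b :: m) := cj (F ∘ b') g m`, `J [] := 0`:
`cj (fun m => tl F (a' :: m)) g l = F ((g a) :: l) - F (a' :: l') - tl J (a :: l)`, by induction on `l`, for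
all `F`, `a`.  `l = []`: `tl F [a', g] = F [a' g] - F [a']`, `a' g = g a`, `tl J [a] = J [] = 0`.
`l = x :: l₁`: the left side is `tl F (a' :: g :: x :: l₁) - cj (fun m => tl F (a' :: x' :: m)) g l₁` and
`tl F (a' :: g :: x :: l₁) = F (a' g :: x :: l₁) - F (a' :: g x :: l₁) + tl (F ∘ a' ∘ g) (x :: l₁)`,
`tl F (a' :: x' :: m) = F (a' x' :: m) - tl (F ∘ a') (x' :: m)`; the induction hypothesis for `F ∘ a'`, `x`
(with `J'(b :: m) = cj (F ∘ a' ∘ b') g m`) gives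
`cj (fun m => tl (F ∘ a') (x' :: m)) g l₁ = F (a' :: g x :: l₁) - F (a' :: x' :: l₁') - tl J' (x :: l₁)`; and
`tl J (a :: x :: l₁) = cj (F ∘ (a x)') g l₁ - tl (J ∘ a) (x :: l₁)`, `(J ∘ a) m = (F ∘ a' ∘ g) m - J' m` for
all `m`.
Claim: `cj (bdF F) g l + bdF (cj F g) l = F l - F l'`.  `l = []`: all `0`.  `l = x :: l₁`: the left side is
`F (x :: l₁) - tl F (g :: x :: l₁) - cj F g l₁ + cj (fun m => tl F (x' :: m)) g l₁ + cj F g l₁ -
tl (cj F g) (x :: l₁)`; Lemma for `a = x`, `tl F (g :: x :: l₁) = F (g x :: l₁) - tl (F ∘ g) (x :: l₁)`,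
`cj F g m = F (g :: m) - J m` for all `m`.
`main`: take for `w` the image of `z` under `l ↦ cj of g l` (a sum of `±` lists with entries in `P`); the
claim for `F = of` gives `bd w + (image of bd z under l ↦ cj of g l) = z - cmap (·)' z`, `bd z = 0`. -/
def SpecCNJ : Prop :=
  ∀ (X : Type u) [Group X] (n : ℕ) (P : X → Prop) (_ : ∀ x y, P x → P y → P (x * y)) (g : X)
    (_ : P g) (_ : P g⁻¹) (z : Ch X) (_ : z ∈ cyc n P),
    ∃ w ∈ ch (n + 1) P, z - cmap (fun x => g * x * g⁻¹) z = bd w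

/-- The sum over the shuffles of `[u, u']` and `l`. -/
def ins2 {X : Type u} {M : Type v} [AddCommGroup M] : (List X → M) → X → X → List X → M
  | F, u, u', [] => F [u, u']
  | F, u, u', g :: l =>
    ins (fun l' => F (u :: l')) u' (g :: l) + ins2 (fun l' => F (g :: l')) u u' l

/-- CRS (300 lines, from ALT).  `x`, `x'` commute with all entries.
`bd`: `bd (crs x z) = - crs x (bd z)`.
`mul`: for a cycle `z` the chain `crs (x x') z - crs x z - crs x' z` is a boundary.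

PROOF.  Lemma 1 (`x` commutes with `a` and the entries of `l`): with `J (b :: m) := ins (F ∘ cons b) x m`,
`J [] := 0`: `ins (fun m => tl F (a :: m)) x l = F ((a x) :: l) - F (a :: l) - tl J (a :: l)`.
Induction on `l`, all `F`, `a`: `l = []`: `tl F [a, x] = F [a x] - F [a]`.  `l = g :: l'`: the left side is
`tl F (a :: x :: g :: l') - ins (fun m => tl F (a :: g :: m)) x l'` with
`tl F (a :: x :: g :: l') = F (a x :: g :: l') - F (a :: x g :: l') + tl (F ∘ cons a ∘ cons x) (g :: l')`,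
`tl F (a :: g :: m) = F (a g :: m) - tl (F ∘ cons a) (g :: m)`; the induction hypothesis for
`F ∘ cons a`, `g` gives `ins (fun m => tl (F ∘ cons a) (g :: m)) x l' = F (a :: g x :: l') - F (a :: g :: l') -
tl J' (g :: l')`, `J' (b :: m) = ins (F ∘ cons a ∘ cons b) x m`, and `g x = x g`;
`tl J (a :: g :: l') = J (a g :: l') - tl (J ∘ cons a) (g :: l')`, `J (a :: b :: m) = ins (F ∘ cons a) x (b :: m)
= F (a :: x :: b :: m) - J' (b :: m)`, `J [a] = F [a, x]`, `(F ∘ cons a ∘ cons x) [] = F [a, x]`.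
`bd`: `ins (bdF F) x l = - bdF (ins F x) l`: `l = []`: `bdF F [x] = 0`.  `l = g :: l'`: `bdF F (x :: g :: l')
= F (g :: l') - tl F (x :: g :: l')`, `ins (fun m => bdF F (g :: m)) x l' = ins F x l' - ins (fun m =>
tl F (g :: m)) x l'`, Lemma 1 with `a = g`.
`mul`: Lemma 2 (`x`, `x'` commute with each other, `a` and the entries of `l`): with
`J₂ (b :: m) := ins2 (F ∘ b) x x' m`, `J₂ [] := 0`, `(F ∘ a) m = F (a :: m)`:
`ins2 (fun m => tl F (a :: m)) x x' l = ins (F ∘ (a x)) x' l - ins (F ∘ a) (x x') l + ins (F ∘ a) x l +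
tl J₂ (a :: l)`.  Induction on `l`, all `F`, `a`.  `l = []`: `tl F [a, x, x'] = F [a x, x'] - F [a, x x'] +
F [a, x]`.  `l = g :: l'`: `ins2 G x x' (g :: l') = ins (G ∘ x) x' (g :: l') + ins2 (G ∘ g) x x' l'` for
`G m = tl F (a :: m)`, `G (x :: m) = F (a x :: m) - tl (F ∘ a) (x :: m)`, the same for `g`.  Lemma 1 for
`F ∘ a`, `x`, `x'`: `ins (fun m => tl (F ∘ a) (x :: m)) x' (g :: l') = F (a :: x x' :: g :: l') -
F (a :: x :: g :: l') - ins (F ∘ a ∘ (x g)) x' l' + tl (ins (F ∘ a ∘ x) x') (g :: l')`, the induction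
hypothesis for `F ∘ a`, `g`, and `ins2 (F ∘ a) x x' m = ins (F ∘ a ∘ x) x' m + J₂' m`,
`J₂'(b :: m) = ins2 (F ∘ a ∘ b) x x' m`.
Claim: `ins2 (bdF F) x x' l = ins F x' l - ins F (x x') l + ins F x l + bdF (ins2 F x x') l`.  `l = []`:
`bdF F [x, x'] = F [x'] - F [x x'] + F [x]`.  `l = g :: l'`: the left side is `ins F x' (g :: l') -
ins (fun m => tl F (x :: m)) x' (g :: l') + ins2 F x x' l' - ins2 (fun m => tl F (g :: m)) x x' l'`; Lemma 1
(`a = x`) and Lemma 2 (`a = g`), `ins2 F x x' m = ins (F ∘ x) x' m + J₂ m`.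
Apply the claim to `F = of` and the cycle `z`: `w` = the image of `z` under `l ↦ ins2 of x x' l`, the last
term gives the image of `bd z`.
`mem`: `crs x` maps `ch n P` to `ch (n + 1) P` if `P x`. -/
structure SpecCRS : Prop where
  bd : ∀ (X : Type u) [Group X] (n : ℕ) (x : X) (z : Ch X)
    (_ : z ∈ ch n (fun g => x * g = g * x)), KA.bd (crs x z) = - crs x (KA.bd z)
  mul : ∀ (X : Type u) [Group X] (n : ℕ) (P : X → Prop) (x x' : X) (_ : P x) (_ : P x')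
    (_ : x * x' = x' * x) (z : Ch X) (_ : z ∈ cyc n (fun g => P g ∧ x * g = g * x ∧ x' * g = g * x')),
    ∃ w ∈ ch (n + 2) P, crs (x * x') z - crs x z - crs x' z = KA.bd w
  mem : ∀ (X : Type u) (n : ℕ) (P : X → Prop) (x : X) (_ : P x) (z : Ch X) (_ : z ∈ ch n P),
    crs x z ∈ ch (n + 1) P
  nat : ∀ (X : Type u) (Y : Type v) (f : X → Y) (x : X) (z : Ch X),
    cmap f (crs x z) = crs (f x) (cmap f z)

/-- TRV (60 lines, from ALT).  Cycles of positive degree with all entries `1` are boundaries: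
`cmap (fun _ => 1) z = m [1, .., 1]`; `bd [1^k] = [1^(k-1)]` for even `k > 0`, `0` for odd `k`. -/
def SpecTRV : Prop :=
  ∀ (X : Type u) [Group X] (Y : Type v) [Group Y] (n : ℕ) (_ : 0 < n) (P : Y → Prop)
    (_ : P 1) (z : Ch X) (_ : z ∈ cyc n (fun _ => True)),
    ∃ w ∈ ch (n + 1) P, cmap (fun _ : X => (1 : Y)) z = bd w

/-! ### functions on cycles of the centralizer of an element -/

/-- `g` commutes with `c`. -/
def Cz {G : Type u} [Group G] (c g : G) : Prop := g * c = c * g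

/-- `χ` is a homomorphism on the `n`-cycles with entries in `P` and vanishes on boundaries. -/
structure HomC {G : Type u} [Group G] {M : Type v} [AddCommGroup M] (n : ℕ) (P : G → Prop)
    (χ : Ch G → M) : Prop where
  add : ∀ a ∈ cyc n P, ∀ b ∈ cyc n P, χ (a + b) = χ a + χ b
  bdr : ∀ w ∈ ch (n + 1) P, χ (bd w) = 0

open Classical in
/-- `χ(y⁻¹ z y)` if `y c y⁻¹ = h` (`y = sec c h`), `0` if `h` is not conjugate to `c`. -/
def ThC {G : Type u} [Group G] {M : Type v} [AddCommGroup M] (c : G) (χ : Ch G → M) (z : Ch G)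
    (h : G) : M :=
  if ∃ t, t * c * t⁻¹ = h then χ (cmap (fun g => (sec c h)⁻¹ * g * sec c h) z) else 0

/-- THZ (120 lines, from ALT, CNJ).  `z` a cycle of the centralizer of `h`.
`val`: `t c t⁻¹ = h`: `sec c h = t y` with `y` in the centralizer of `c`; `t⁻¹ z t` is a cycle of the
centralizer of `c`, conjugation by `y` changes it by a boundary (CNJ with `P = Cz c`).
`add`, `bdr`: `cmap` is additive and commutes with `bd`.  `zero`: by definition.
`nsmul`: from `add` (and `χ 0 = 0`). -/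
structure SpecTHZ : Prop where
  val : ∀ (G : Type u) (M : Type v) [Group G] [AddCommGroup M] (n : ℕ) (c : G) (χ : Ch G → M)
    (_ : HomC n (Cz c) χ) (h t : G) (_ : t * c * t⁻¹ = h) (z : Ch G) (_ : z ∈ cyc n (Cz h)),
    ThC c χ z h = χ (cmap (fun g => t⁻¹ * g * t) z)
  add : ∀ (G : Type u) (M : Type v) [Group G] [AddCommGroup M] (n : ℕ) (c : G) (χ : Ch G → M)
    (_ : HomC n (Cz c) χ) (h : G) (z z' : Ch G) (_ : z ∈ cyc n (Cz h)) (_ : z' ∈ cyc n (Cz h)),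
    ThC c χ (z + z') h = ThC c χ z h + ThC c χ z' h
  zsmul : ∀ (G : Type u) (M : Type v) [Group G] [AddCommGroup M] (n : ℕ) (c : G) (χ : Ch G → M)
    (_ : HomC n (Cz c) χ) (h : G) (z : Ch G) (_ : z ∈ cyc n (Cz h)) (m : ℤ),
    ThC c χ (m • z) h = m • ThC c χ z h
  bdr : ∀ (G : Type u) (M : Type v) [Group G] [AddCommGroup M] (n : ℕ) (c : G) (χ : Ch G → M)
    (_ : HomC n (Cz c) χ) (h : G) (w : Ch G) (_ : w ∈ ch (n + 1) (Cz h)), ThC c χ (bd w) h = 0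
  zero : ∀ (G : Type u) (M : Type v) [Group G] [AddCommGroup M] (c : G) (χ : Ch G → M)
    (z : Ch G) (h : G) (_ : ¬ ∃ t, t * c * t⁻¹ = h), ThC c χ z h = 0

/-- The value of the homogeneous cochain `X` on bar chains. -/
def Xv {G : Type u} [Group G] {M : Type v} [AddCommGroup M] (X : List G → M) : Ch G →+ M :=
  FreeAbelianGroup.lift fun l => X (run 1 l)

/-- XVH (40 lines, from ALT): `Xv X` is in `HomC n (Cz c)` for `IsF n c K X`: `Xv X (bd w) =
lift (bdF (X ∘ run 1)) w`, `bdF (X ∘ run 1) l = alt X (run 1 l) = 0` for `|l| = n + 1` and entries in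
`Cz c` (the running products have `SameC c`; ALT.run with `P = Cz c`: for the left invariance of `X`
use `IsF.inv`). -/
def SpecXVH : Prop :=
  ∀ (G : Type u) (M : Type v) [Group G] [AddCommGroup M] (n : ℕ) (c : G) (K : Set G)
    (X : List G → M) (_ : IsF n c K X), HomC n (Cz c) (Xv X)

/-! ### evaluation, abstract part -/

/-- EVA (200 lines, from ALT, PW, BET).  `a` in `IQ`, `g_1, .., g_m` in `Γ` with `T g_i = D' g_i` which
commute with `a.y`, `T(g_i) a.q = a.q T(g_i)`; `s = sv (toE a)`.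
`first`: a list whose first entry is such a `⟨g, 0⟩`: `β = 0`.
`main`: `β([a, ⟨g_1, 0⟩, .., ⟨g_m, 0⟩]) = X(i(T(g_1 ⋯ g_m))⁻¹ s⁻¹ dl(s), i(T g_1), .., i(T g_m))`.

PROOF.  `inh β l = I((α_(x_1) - α_1) P(ω)(x_1, ..))` for the running products `1, x_1, x_2, ..`.
`α_1 = 0`, `α_(⟨g, 0⟩) = dl(i(T g)) i(T g)⁻¹ = 0`: `first` (for `l` of length `1` by definition).
`main`: `x_j = a γ_j`, `γ_j = g_1 ⋯ g_j` (`j = 0, .., m`); with `G_j = T(g_j)`, `Γ_j = T(γ_j)` in `Ω`: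
`sv(toE x_j) = s Γ_j = Γ_j s` (BET.sv), `ω_(x_j) = d(s Γ_j) Γ_j⁻¹ s⁻¹ = ω_a + s d(Γ_j) Γ_j⁻¹ s⁻¹`, and
`d(Γ_(j+1)) Γ_(j+1)⁻¹ - d(Γ_j) Γ_j⁻¹ = Γ_j d(G_(j+1)) G_(j+1)⁻¹ Γ_j⁻¹`, so
`P(ω)(x_0, .., x_m) = s (Π_j Γ_(j-1) d(G_j) G_j⁻¹ Γ_(j-1)⁻¹) s⁻¹ = s d(G_1) ⋯ d(G_m) Γ_m⁻¹ s⁻¹`
(`G_j⁻¹ Γ_(j-1)⁻¹ Γ_j = 1`).  `α_a = dl(s) s⁻¹`, so
`β = I(dl(s) d(G_1) ⋯ d(G_m) Γ_m⁻¹ s⁻¹) = I(Γ_m⁻¹ s⁻¹ dl(s) d(G_1) ⋯ d(G_m))` (`even`), and `IsOm.val`. -/
structure SpecEVA : Prop where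
  first : ∀ (B : Type u) (S : Type v) (Ω : Type w) (H : Type x) (Γ : Type y) [Ring B] [Ring S]
    [Ring Ω] [AddCommGroup H] [Group Γ] (D : DGD B S Ω H) (_ : D.Ok) (T D' : Γ →* Bˣ)
    (_ : IsDD D.N D.ρ T D') (g : Γ) (_ : T g = D' g) (l : List (RT T D')),
    inh D.be (⟨g, 0⟩ :: l) = 0
  main : ∀ (B : Type u) (S : Type v) (Ω : Type w) (H : Type x) (Γ : Type y) [Ring B] [Ring S]
    [Ring Ω] [AddCommGroup H] [Group Γ] (D : DGD B S Ω H) (_ : D.Ok) (X : List S → H)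
    (_ : IsOm D.τ X D.lam D.ep D.d D.I) (T D' : Γ →* Bˣ) (_ : IsDD D.N D.ρ T D') (a : RT T D')
    (_ : IQ D.N D.ρ a) (l : List Γ) (_ : ∀ g ∈ l, T g = D' g ∧ g * a.y = a.y * g ∧
      (T g : B) * a.q = a.q * T g),
    inh D.be (a :: l.map fun g => (⟨g, 0⟩ : RT T D')) =
      X ((D.i (((T l.prod)⁻¹ : Bˣ) : B) * (D.sv (invE (toE a)) * D.dl (D.sv (toE a)))) ::
        l.map fun g => D.i (T g))

/-- VLG (60 lines; copy `K2/VLE.lean`): for a function `θ : C → k` let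
`w(b) = Σ_h r(b_h θ(h))`.  `(1 + N β) Xi = 1`, `(1 + N β)(1 + N b') = 1`:
`w(β Xi) + w(β Xi (N m β)) = - w(b')`. -/
def SpecVLG : Prop :=
  ∀ (k : Type u) [CommRing k] (p e : ℕ) [Fact p.Prime] [NeZero (p ^ (e + 1))]
    (r : k →+* ZMod (p ^ (e + 1))) (_ : IsRed k p e r) (C : Type v) [CommGroup C] (θ : C → k)
    (β Xi b' : MonoidAlgebra k C) (m : ℕ) (_ : (1 + (p ^ (e + 1)) • β) * Xi = 1)
    (_ : (1 + (p ^ (e + 1)) • β) * (1 + (p ^ (e + 1)) • b') = 1),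
    ((β * Xi).coeff.sum fun h a => r (a * θ h)) +
      ((β * Xi * (((p ^ (e + 1)) * m) • β)).coeff.sum fun h a => r (a * θ h)) =
      - (b'.coeff.sum fun h a => r (a * θ h))

/-! ### the datum for matrices -/

section

variable (k : Type u) [CommRing k] (p e : ℕ) [NeZero (p ^ e)] [NeZero (p ^ (e + 1))]
  (r : k →+* ZMod (p ^ (e + 1))) (G : Type v) [Group G] (ι : Type) [Fintype ι] [DecidableEq ι]

variable {k G ι} in
/-- The datum for `Mat_ι(k[G])`. -/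
def mkD {Ω : Type v} [Ring Ω] (lam : SR (p ^ (e + 1)) G ι →+* Ω) (ep : Ω →+* Ω) (d : Ω →+ Ω)
    (I : Ω →+ ZMod (p ^ (e + 1))) :
    DGD (TR k G ι (p ^ (e + 1))) (SR (p ^ (e + 1)) G ι) Ω (ZMod (p ^ (e + 1))) where
  N := p ^ (e + 1)
  ρ := rot k G ι (p ^ (e + 1))
  i := iB k (p ^ (e + 1)) r G ι
  τ := tauS (p ^ (e + 1)) G ι
  dl := dS (p ^ (e + 1)) G ι
  lam := lam
  ep := ep
  d := d
  I := I

variable {G ι} in
/-- `h` is the function on the cycles of `GL_ι(k[G])` given by the cochain `X`. -/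
def HV (X : List (SR (p ^ (e + 1)) G ι) → ZMod (p ^ (e + 1)))
    (h : Ch (Matrix ι ι (MonoidAlgebra k G))ˣ → ZMod (p ^ (e + 1))) : Prop :=
  ∃ (Ω : Type v) (_ : Ring Ω) (lam : SR (p ^ (e + 1)) G ι →+* Ω) (ep : Ω →+* Ω) (d : Ω →+ Ω)
    (I : Ω →+ ZMod (p ^ (e + 1))), IsOm (tauS (p ^ (e + 1)) G ι) X lam ep d I ∧
    ∀ z, h z = hh (T := TT k G ι (p ^ (e + 1))) (D := DD k G ι p e) (p ^ (e + 1))
      (rot k G ι (p ^ (e + 1))) (inh (mkD p e r lam ep d I).be) (inh (mkD p e r lam ep d I).f)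
      (inh (mkD p e r lam ep d I).g) z

end

/-- IDD (60 lines, from `specT`, `specN`; see `K2/TDN.lean`): `IsDD` for `TT`, `DD`:
`rT`, `rD`: `SpecT.rotTens`, `SpecT.rotDhat`; `surj`: `c = - z` for the `z` of `SpecN.norm`; `ker`:
`SpecN.ker`.
DOK: `mkD` satisfies `Ok` (`SpecDGR` in `K2/SpecC.lean` = `K2/DGR.lean`, `SpecT.rotN`, `IsOm`;
`(N : S) = 0`). -/
structure SpecIDD : Prop where
  idd : ∀ (k : Type u) [CommRing k] (p e : ℕ) [Fact p.Prime] [NeZero (p ^ e)]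
    [NeZero (p ^ (e + 1))] (r : k →+* ZMod (p ^ (e + 1))) (_ : IsRed k p e r) (G : Type v)
    [Group G] (ι : Type) [Fintype ι] [DecidableEq ι],
    IsDD (p ^ (e + 1)) (rot k G ι (p ^ (e + 1))) (TT k G ι (p ^ (e + 1))) (DD k G ι p e)
  ok : ∀ (k : Type u) [CommRing k] (p e : ℕ) [Fact p.Prime] [NeZero (p ^ e)]
    [NeZero (p ^ (e + 1))] (r : k →+* ZMod (p ^ (e + 1))) (_ : IsRed k p e r) (G : Type v)
    [Group G] (ι : Type) [Fintype ι] [DecidableEq ι] (Ω : Type v) [Ring Ω]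
    (lam : SR (p ^ (e + 1)) G ι →+* Ω) (ep : Ω →+* Ω) (d : Ω →+ Ω)
    (I : Ω →+ ZMod (p ^ (e + 1))) (X : List (SR (p ^ (e + 1)) G ι) → ZMod (p ^ (e + 1)))
    (_ : IsOm (tauS (p ^ (e + 1)) G ι) X lam ep d I), (mkD (k := k) p e r lam ep d I).Ok

/-- HVX (60 lines, from OPS, PKG, DSC, IDD, all of part B).  Existence; `h` is additive on cycles and
vanishes on boundaries (for every function `h` with `HV X h`). -/
structure SpecHVX : Prop where
  ex : ∀ (k : Type u) [CommRing k] (p e n : ℕ) [Fact p.Prime] (_ : p ≠ 2) [NeZero (p ^ e)]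
    [NeZero (p ^ (e + 1))] (r : k →+* ZMod (p ^ (e + 1))) (G : Type v) [Group G] (ι : Type)
    [Fintype ι] [DecidableEq ι] (X : List (SR (p ^ (e + 1)) G ι) → ZMod (p ^ (e + 1)))
    (_ : IsX n (tauS (p ^ (e + 1)) G ι) X), ∃ h, HV k p e r X h
  add : ∀ (k : Type u) [CommRing k] (p e : ℕ) [Fact p.Prime] [NeZero (p ^ e)]
    [NeZero (p ^ (e + 1))] (r : k →+* ZMod (p ^ (e + 1))) (_ : IsRed k p e r) (G : Type v)
    [Group G] (ι : Type) [Fintype ι] [DecidableEq ι]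
    (X : List (SR (p ^ (e + 1)) G ι) → ZMod (p ^ (e + 1)))
    (h : Ch (Matrix ι ι (MonoidAlgebra k G))ˣ → ZMod (p ^ (e + 1))) (_ : HV k p e r X h)
    (z z' : Ch (Matrix ι ι (MonoidAlgebra k G))ˣ) (_ : bd z = 0) (_ : bd z' = 0),
    h (z + z') = h z + h z'
  bdr : ∀ (k : Type u) [CommRing k] (p e : ℕ) [Fact p.Prime] [NeZero (p ^ e)]
    [NeZero (p ^ (e + 1))] (r : k →+* ZMod (p ^ (e + 1))) (_ : IsRed k p e r) (G : Type v)
    [Group G] (ι : Type) [Fintype ι] [DecidableEq ι]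
    (X : List (SR (p ^ (e + 1)) G ι) → ZMod (p ^ (e + 1)))
    (h : Ch (Matrix ι ι (MonoidAlgebra k G))ˣ → ZMod (p ^ (e + 1))) (_ : HV k p e r X h)
    (w : Ch (Matrix ι ι (MonoidAlgebra k G))ˣ), h (bd w) = 0

/-- The labels of `Fin (a + b)`: `false` on the first `a` elements, `true` on the others. -/
def lab (a b : ℕ) (i : Fin (a + b)) : Bool := decide (a ≤ (i : ℕ))

/-- HVB (300 lines, from NTL, RLS, PSH, PKG, IDD, BRS).  Block diagonal matrices: if `X₀ = X₁ + X₂` on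
the elements which respect the labels (`X₁`, `X₂` applied to the two blocks), then
`h₀(z₁ ⊕ z₂) = h₁(z₁) + h₂(z₂)` for cycles of `GL_a(k[G]) × GL_b(k[G])`.

PROOF.  PSH for `Γ = GL_a × GL_b` and `B` = the subring of the `x` in `TR k G (Fin (a+b)) N` with
`BD (lab a b) x`, `ρ` = restriction of `rot`, `T(y) = TT(dsum y)`, `D(y) = DD(dsum y)` (`BD_tens`, `BD_dhat` in
`WH/GBlock.lean`, also for the inverses), `ψ₀` = inclusion, `ψ₁ = sb f₀`, `ψ₂ = sb f₁` (multiplicative on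
`BD` elements: `sb_mul`), `φ₀ = dsum`, `φ₁ = fst`, `φ₂ = snd`.  `IsDD`: for `surj` and `ker` apply the
diagonal part `tr (lab a b)` to the solutions in `TR k G (Fin (a+b)) N` (`tr_nm`, `tr_rot`, `tr_of_BD`).
`sb f₀ (T(dsum (y₁, y₂))) = T(y₁)` by `sb_tens`, `sb_dhat`, the submatrix of `dsum (y₁, y₂)` is `y₁`.
The hypotheses on `β`, `f`, `g` are NTL for `Rs` from BRS and `Rl` from RLS (`k₁ = k₂ = 1`),
with `toE (mapR φ ψ a) = mapE ψ (toE a)`, `run` commutes with group homomorphisms. -/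
def SpecHVB : Prop :=
  ∀ (k : Type u) [CommRing k] (p e : ℕ) [Fact p.Prime] [NeZero (p ^ e)]
    [NeZero (p ^ (e + 1))] (r : k →+* ZMod (p ^ (e + 1))) (_ : IsRed k p e r) (G : Type v)
    [Group G] (a b : ℕ) (X₀ : List (SR (p ^ (e + 1)) G (Fin (a + b))) → ZMod (p ^ (e + 1)))
    (X₁ : List (SR (p ^ (e + 1)) G (Fin a)) → ZMod (p ^ (e + 1)))
    (X₂ : List (SR (p ^ (e + 1)) G (Fin b)) → ZMod (p ^ (e + 1)))
    (_ : ∀ l : List (SR (p ^ (e + 1)) G (Fin (a + b))), (∀ s ∈ l, DSb (lab a b) s) →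
      X₀ l = X₁ (l.map (sbF (Fin.castAdd b))) + X₂ (l.map (sbF (Fin.natAdd a))))
    (h₀ : Ch (Gl (a + b) (MonoidAlgebra k G)) → ZMod (p ^ (e + 1)))
    (h₁ : Ch (Gl a (MonoidAlgebra k G)) → ZMod (p ^ (e + 1)))
    (h₂ : Ch (Gl b (MonoidAlgebra k G)) → ZMod (p ^ (e + 1)))
    (_ : HV k p e r X₀ h₀) (_ : HV k p e r X₁ h₁) (_ : HV k p e r X₂ h₂)
    (z : Ch (Gl a (MonoidAlgebra k G) × Gl b (MonoidAlgebra k G))) (_ : bd z = 0),
    h₀ (cmap (dsum a b) z) = h₁ (cmap Prod.fst z) + h₂ (cmap Prod.snd z)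

/-- HVC (100 lines, from NTL, RLS, PSH, PKG, IDD): `X₀ = m X₁` gives `h₀ = m h₁` on cycles: PSH with
`Γ = GL_a(k[G])`, `B = TR`, all maps the identity, `k₁ = m`, `k₂ = 0`, third datum = second datum;
`Rs` = the triples `(s, s, s)`. -/
def SpecHVC : Prop :=
  ∀ (k : Type u) [CommRing k] (p e : ℕ) [Fact p.Prime] [NeZero (p ^ e)]
    [NeZero (p ^ (e + 1))] (r : k →+* ZMod (p ^ (e + 1))) (_ : IsRed k p e r) (G : Type v)
    [Group G] (a m : ℕ) (X₀ X₁ : List (SR (p ^ (e + 1)) G (Fin a)) → ZMod (p ^ (e + 1)))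
    (_ : ∀ l, X₀ l = m • X₁ l)
    (h₀ h₁ : Ch (Gl a (MonoidAlgebra k G)) → ZMod (p ^ (e + 1)))
    (_ : HV k p e r X₀ h₀) (_ : HV k p e r X₁ h₁)
    (z : Ch (Gl a (MonoidAlgebra k G))) (_ : bd z = 0), h₀ z = m • h₁ z

/-- HVF (250 lines, from ALT, NTL, RLS, PSH, PKG, IDD, FRS).  If `X` vanishes on lists of elements over
the finite subgroup `H` then `h` vanishes on the cycles with entries over `H`.

PROOF.  A cycle `z` of `GL_a(k[G])` with entries in `OvH H` is the image of a cycle `z'` of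
`GL_a(k[↥H])`: matrices over `H` come from unique matrices over `k[↥H]`, invertible ones (with inverse
over `H`) from invertible ones; `z'` = image under the inverse map of the entries; `bd z' = 0` by
injectivity of `cmap` of an injective map.  PSH with `Γ = GL_a(k[↥H])`, `B = TR k ↥H (Fin a) N`,
`ψ = FT H.subtype` (`FT_rot`, `FT_tens`, `FT_dhat` in `WH/GVal.lean`), all three data equal,
`k₁ = k₂ = 0`, `Rs` from FRS, `IsRl.I` with `k₁ = k₂ = 0` from RLS for `X₀ = 0 • X₁ + 0 • X₂` on lists in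
`Rs`.  So `h z = 0`. -/
def SpecHVF : Prop :=
  ∀ (k : Type u) [CommRing k] (p e n : ℕ) [Fact p.Prime] [NeZero (p ^ e)]
    [NeZero (p ^ (e + 1))] (r : k →+* ZMod (p ^ (e + 1))) (_ : IsRed k p e r) (G : Type v)
    [Group G] (H : Subgroup G) (a : ℕ)
    (X : List (SR (p ^ (e + 1)) G (Fin a)) → ZMod (p ^ (e + 1)))
    (_ : ∀ l : List (SR (p ^ (e + 1)) G (Fin a)),
      (∀ s ∈ l, ∀ (I J : ZMod (p ^ (e + 1)) → Fin a) (g : WR (p ^ (e + 1)) G),
        (s I J).coeff g ≠ 0 → ∀ j, g.left j ∈ H) → X l = 0)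
    (h : Ch (Gl a (MonoidAlgebra k G)) → ZMod (p ^ (e + 1))) (_ : HV k p e r X h)
    (z : Ch (Gl a (MonoidAlgebra k G))) (_ : z ∈ cyc n (OvH H)), h z = 0

end Pool.Agent.Lib.MPb6f35e.KA
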