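import Pool.Agent.Lib.MP_b6f35e_al.KA.SpecE
import Pool.Agent.Lib.MP_b6f35e_al.K2.SpecE

/-!
# Rational K-theory in all degrees (MP_b6f35e_al), specification F: evaluation, the homomorphism `Φ`,
# p-adic limit, cocycles

Captain helper19.  Every statement has its complete proof in the docstring.
-/

set_option autoImplicit false

noncomputable section

namespace Pool.Agent.Lib.MPb6f35e.KA

open Pool.Agent.Lib.MPb6f35e.WH
open Pool.Agent.Lib.MPb6f35e.K2 (SR TT DD iB tauS dS eS w0 inW tW WR dg sec IsRed SpecLGG Supp)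

universe u v w x y

/-! ### evaluation in size one -/

/-- The `1 × 1` matrix `(g, .., g)`. -/
def zS (N : ℕ) {G : Type v} [Group G] (g : G) : SR N G (Fin 1) :=
  Matrix.of fun _ _ => MonoidAlgebra.single (inW N G fun _ => g) 1

/-- The cochain on `S` given by a cochain `X` of the centralizer of `c`, plain family. -/
def Xpl {k : Type u} [CommRing k] (N n : ℕ) [NeZero N] (r : k →+* ZMod N) {G : Type v} [Group G]
    (c : G) (s : WR N G → WR N G) (X : List G → k) (ι : Type) [Fintype ι] [DecidableEq ι] :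
    List (SR N G ι) → ZMod N :=
  Xe (XA n (w0 N c) s (th1 N G ι Unit) (XWl fun l => r (X l)))

/-- The value `Σ_h r(b_h χ^h(z))`. -/
def vlz {k : Type u} [CommRing k] {N : ℕ} (r : k →+* ZMod N) {G C : Type v} [Group G]
    [CommGroup C] (c : G) (χ : Ch G → k) (z : Ch G) (φ : C →* G) (b : MonoidAlgebra k C) :
    ZMod N :=
  b.coeff.sum fun h a => r (a * ThC c χ z (φ h))

/-- EVX (300 lines, from XWC, THZ, XVH; see `K2/VLA.lean`, `K2/VLC.lean`).  The cochain on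
`[γ⁻¹ i(FT b) τ^j, g_1, .., g_n]`, `γ = g_1 ⋯ g_n`, summed over a cycle `z` of elements which commute
with `φ(C)`.

PROOF.  Additive in `b`: let `b` have the only entry `single γ' a`.  The first element is
`single (γ̂⁻¹ φ(γ') t^j) (r a)`, `γ̂ = (γ, .., γ)`; the words are constant, so the list of arrows is closed,
with product `g = φ(γ') t^j` (`γ̂` commutes with it).  It is conjugate to `w₀` only if `t^j = t`
(degree) and `h := ∏ φ(γ'_j)` is conjugate to `c` (see the docstring of `SpecVLA`); and then it is.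
Both sides are `0` in the other cases.  The products of the arrows are `a_i = γ̂⁻¹ g γ̂_i`,
`γ_i = g_1 ⋯ g_i`, `i = 0, .., n`; they commute with `g`, so the vertices are `a_i s(a_i⁻¹ g a_i) =
γ̂⁻¹ γ̂_i g s(g) = γ̂⁻¹ γ̂_i s(g) w₀`, and by `IsF.inv`, `IsF.rc` (XWC) the value is `r a` times
`XWl (s(g), γ̂_1 s(g), ..) = r X((σ⁻¹ γ̂_i σ).left 0)`, `σ = s(g)`.  `(σ⁻¹ γ̂ σ).left 0 = y⁻¹ γ y` with
`y = σ.left (dg σ)`, and `σ w₀^N σ⁻¹ = g^N` gives `y c y⁻¹ = h` (`w₀^N = (c, .., c)`, `g^N = (h, .., h)`).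
So the value is `r a · r X(run 1 (y⁻¹ g_i y))`, the sum over `z` is `r (a · Xv X (cmap (y⁻¹ · y) z)) =
r (a · ThC c (Xv X) z h)` by THZ.val; `mC (single γ' a) = single (∏ γ') a`. -/
def SpecEVX : Prop :=
  ∀ (k : Type u) [CommRing k] (p e n : ℕ) [Fact p.Prime] [NeZero (p ^ (e + 1))]
    (r : k →+* ZMod (p ^ (e + 1))) (G : Type v) [Group G] (c : G) (X : List G → k)
    (_ : IsF n c (KG p c) X) (s : WR (p ^ (e + 1)) G → WR (p ^ (e + 1)) G)
    (_ : IsSec (w0 (p ^ (e + 1)) c) (KW (p ^ (e + 1)) p c) s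
      (th1 (p ^ (e + 1)) G (Fin 1) Unit)) (C : Type v) [CommGroup C] (φ : C →* G) (z : Ch G)
    (_ : z ∈ cyc n (fun g => ∀ h : C, g * φ h = φ h * g))
    (b : TR k C (Fin 1) (p ^ (e + 1))) (j : ℕ),
    FreeAbelianGroup.lift (fun l : List G => Xpl (p ^ (e + 1)) n r c s X (Fin 1)
      ((zS (p ^ (e + 1)) l.prod⁻¹ * (iB k (p ^ (e + 1)) r G (Fin 1) (FT φ b) *
        (tauS (p ^ (e + 1)) G (Fin 1) : SR (p ^ (e + 1)) G (Fin 1)) ^ j)) ::
        l.map fun g => zS (p ^ (e + 1)) g)) z =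
      if (j : ZMod (p ^ (e + 1))) = 1 then vlz r c (Xv X) z φ (mC 0 b) else 0

/-- KZH (300 lines, from ALT, DSC, CRS, BET, EVA, VLG, IDD, HVX, EVX, PKG, and the finished modules TDN,
DEL, CNX of K2).  The value at `[y] × z`, `y = φ(x)`, `x^N = Φ(x)^(N/p) (1 + N b)`, is
`- Σ_h r(b_h χ^h(z))`, `χ = Xv X`.

PROOF.  TDN for `C` and the `1 × 1` matrix `x`: `T(x)(1 + Nm b₀) = D(x)`.  `a := ⟨u1 y, T(y) FT b₀⟩` is in
`IQ` (`FT_tens`, `FT_dhat`, `FT_nm` in `WH/GVal.lean`), it commutes with the `⟨u1 (gU g), 0⟩`, `g` commuting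
with `φ(C)` (`T = D` = `(g, .., g)` for these, it commutes with `FT b₀` and with `T(y)`).  The chain
`A = crs a (cmap (fun g => ⟨u1 (gU g), 0⟩) z)` is a lift of `kz y z` with `q = 0`: CRS.nat, `bd A =
- crs a (..bd z) = 0` (CRS.bd).  By DSC.ev and `HV` the value is `lift (inh be) A`, and
`ins (inh be) a l = inh be (a :: l)` on the lists `l` of the `⟨u1 (gU g), 0⟩` (EVA.first).  EVA.main:
the value is the sum over `z` of `X(T(γ)⁻¹ s⁻¹ dl(s), T(g_1), ..)`, `s = i(T y)(1 + i(FT b₀) e)`.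
`K2.specDEL` (for the datum `IsDat` of `specCON` with `X = 0`): `s⁻¹ dl(s) = i(FT(b₀ Xi)) (Σ_j j τ^j +
i(FT(pp b₀)) Σ_j τ^j)`, `Xi = D(x)⁻¹ T(x)`.  EVX (only `j = 1` contributes, `N > 1`): the value is
`w(mC (b₀ Xi)) + w(mC (b₀ Xi pp b₀))`, `w(b) = vlz r c χ z φ b`.  Let `β = mC b₀`: `mC (pp b₀) = (Σ j) β =
(N m) β` (`mC_pp`, `odd_sum`), `(1 + N β) mC Xi = 1`, `x^N (1 + N β) = Φ(x)^(N/p)` (`mC_tens`, `mC_dhat`,
`mC_nm`), hence `(1 + N β)(1 + N b) = 1`; VLG for `θ h = ThC c χ z (φ h)` (see `K2/VL1.lean` for all this). -/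
def SpecKZH : Prop :=
  ∀ (k : Type u) [CommRing k] (p e n : ℕ) [Fact p.Prime] (_ : p ≠ 2) [NeZero (p ^ e)]
    [NeZero (p ^ (e + 1))] (r : k →+* ZMod (p ^ (e + 1))) (_ : IsRed k p e r) (G : Type v)
    [Group G] (c : G) (X : List G → k) (_ : IsF n c (KG p c) X)
    (s : WR (p ^ (e + 1)) G → WR (p ^ (e + 1)) G)
    (_ : IsSec (w0 (p ^ (e + 1)) c) (KW (p ^ (e + 1)) p c) s
      (th1 (p ^ (e + 1)) G (Fin 1) Unit))
    (h : Ch (Gl 1 (MonoidAlgebra k G)) → ZMod (p ^ (e + 1)))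
    (_ : HV k p e r (Xpl (p ^ (e + 1)) n r c s X (Fin 1)) h)
    (C : Type v) [CommGroup C] (φ : C →* G) (z : Ch G)
    (_ : z ∈ cyc n (fun g => ∀ h : C, g * φ h = φ h * g)) (x : (MonoidAlgebra k C)ˣ)
    (b : MonoidAlgebra k C) (_ : (x : MonoidAlgebra k C) ^ (p ^ (e + 1)) =
      (powC k C p x) ^ (p ^ e) * (1 + (p ^ (e + 1)) • b)),
    h (kz (Units.map (MonoidAlgebra.mapDomainRingHom k φ).toMonoidHom x) z) =
      - vlz r c (Xv X) z φ b

/-- The class of a chain of `GL_m(A)` (`0` if it is not a cycle). -/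
def c1 {A : Type u} [Ring A] (n m : ℕ) (z : Ch (Gl m A)) : KH n A :=
  open Classical in
  if h : z ∈ cyc n (fun _ => True) then D1.cls (RelH n A) ⟨m, z, h⟩ else 0

/-- The subgroup generated by the images of the `KH n (k[H])`, `H` a finite subgroup of `G` whose order
is invertible in `k`. -/
def FinP (n : ℕ) (k : Type u) [CommRing k] (G : Type v) [Group G] :
    AddSubgroup (KH n (MonoidAlgebra k G)) :=
  AddSubgroup.closure {y | ∃ (m : ℕ) (z : Ch (Gl m (MonoidAlgebra k G))) (H : Subgroup G),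
    Finite H ∧ IsUnit ((Nat.card H : ℕ) : k) ∧ z ∈ cyc n (OvH H) ∧ y = c1 n m z}

/-- PHI (300 lines, from ALT, XWC, SEC, XEX, VTX, BLX, CST, FXV, CNJ, TRV, HVX, HVB, HVC, HVF, KZH).

PROOF.  `N = p^(e+1)`, `w₀ = w0 N c`, `K = KW N p c`, `F = XWl (r ∘ X)`: `IsF n w₀ K F` (XWC).  `s` from SEC
for `W = WR N G`, `t = tW N G` (`t^N = 1`): with XWC.mem (`κ^N = 1`, `N = p^(e+1)`) this gives
`IsSec w₀ K s θ` for every family `θ` with the property `fam`: the constant family over any `Θ`; the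
family `thH H`; the mixed family on `Fin (m + m)`: `thH H` on words with all labels `true`
(`lab m m`), `1` on all other words (`sh` preserves both kinds of words; for `thH` conjugation with `t`
is a permutation of the words of elements of `H`).  `ZMod N` has no 2-torsion, `|Θ|` for
`Θ = (ZMod N → H)` is `|H|^N`, a unit of `ZMod N` if `|H|` is a unit of `k` (`r` is a ring homomorphism).
For every `m` let `h_m` be a function with `HV (Xpl .. (Fin m)) h_m` (VTX, XEX, HVX.ex).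
`Φ(cls ⟨m, z, _⟩) := h_m z`.  Relations of `KH`: `add`, `bdr`: HVX; `block`: HVB with BLX for the constant
families over `Unit`.
`val`: KZH.
`fin`: let `H` be finite, `|H|` a unit of `k`, `z` in `cyc (n + 1) (OvH H)`, in `GL_m`.  Let `X₀` be the
cochain on `Fin (m + m)` for the mixed family, `X₁` on `Fin m` for the constant family over `Θ`, `X₂` on
`Fin m` for `thH H`; `h₀`, `h₁`, `h₂` functions for these (HVX.ex).  BLX and HVB: `h₀(dsum w) =
h₁(fst w) + h₂(snd w)` for cycles `w` of `GL_m × GL_m`.  FXV and HVF: `h₂ = 0` on cycles over `H`.  CST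
and HVC: `h₁ = |Θ|^(n+1) h_m`.  `w := cmap (y ↦ (y, 1)) z`, `w' := cmap (y ↦ (1, y)) z`:
`h₀(dsum w) = h₁(z) + h₂(cmap 1 z)`, `h₂(cmap 1 z) = 0` (over `H`); `h₀(dsum w') = h₁(cmap 1 z) + h₂(z) =
h₁(cmap 1 z) = 0` (TRV: a boundary).  `dsum (1, y) = P dsum (y, 1) P⁻¹` for the permutation matrix `P`
which exchanges the two halves of `Fin (m + m)`, so by CNJ `h₀(dsum w) = h₀(dsum w')`.  So
`|Θ|^(n+1) h_m(z) = 0`, `h_m(z) = 0`. -/
def SpecPHI : Prop :=
  ∀ (k : Type u) [CommRing k] (p e n : ℕ) [Fact p.Prime] (_ : p ≠ 2) (_ : 0 < n) [NeZero (p ^ e)]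
    [NeZero (p ^ (e + 1))] (r : k →+* ZMod (p ^ (e + 1))) (_ : IsRed k p e r) (G : Type v)
    [Group G] (c : G) (X : List G → k) (_ : IsF n c (KG p c) X),
    ∃ Φ : KH (n + 1) (MonoidAlgebra k G) →+ ZMod (p ^ (e + 1)),
      (∀ (C : Type v) [CommGroup C] (φ : C →* G) (z : Ch G)
        (_ : z ∈ cyc n (fun g => ∀ h : C, g * φ h = φ h * g)) (x : (MonoidAlgebra k C)ˣ)
        (b : MonoidAlgebra k C) (_ : (x : MonoidAlgebra k C) ^ (p ^ (e + 1)) =
          (powC k C p x) ^ (p ^ e) * (1 + (p ^ (e + 1)) • b)),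
        Φ (c1 (n + 1) 1 (kz (Units.map (MonoidAlgebra.mapDomainRingHom k φ).toMonoidHom x) z)) =
          - vlz r c (Xv X) z φ b) ∧
      ∀ y ∈ FinP (n + 1) k G, Φ y = 0

/-- KZC (80 lines, from ALT, CRS): `kz y z` is a cycle, for a unit `y` with coefficients in the image
of `φ` and `z` commuting with it. -/
def SpecKZC : Prop :=
  ∀ (R : Type u) [CommRing R] (G : Type v) [Group G] (n : ℕ) (C : Subgroup G)
    (y : (MonoidAlgebra R G)ˣ) (_ : Sup C y.val) (z : Ch G) (_ : z ∈ cyc n (Cen C)),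
    kz y z ∈ cyc (n + 1) (fun _ => True)

/-! ### the limit -/

/-- `m Σ_j [φ_j(x_j)] × z_j` comes from finite subgroups. -/
def RelK (p : ℕ) [Fact p.Prime] (G : Type v) [Group G] (n m R : ℕ) (C : Fin R → Type v)
    [∀ j, CommGroup (C j)] (φ : ∀ j, C j →* G) (z : Fin R → Ch G)
    (x : ∀ j, (MonoidAlgebra ℤ_[p] (C j))ˣ) : Prop :=
  m • ∑ j, c1 (n + 1) 1 (kz (Units.map (MonoidAlgebra.mapDomainRingHom ℤ_[p]
    (φ j)).toMonoidHom (x j)) (z j)) ∈ FinP (n + 1) ℤ_[p] G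

/-- LMT (200 lines, from `SpecLP`, `K2.specEXB`; copy `K2/LIM.lean`, `K2/RE2.lean`).  Functions
`θ_j : C_j → ℤ_p` with `m Σ_j Σ_h b_j(h) θ_j(h) = 0` modulo `p^(e+1)` for all `e` and all `b_j` with
`x_j^N = Φ(x_j)^(N/p) (1 + N b_j)`.

PROOF: the proof of LIM uses the values `Θ(z_j; φ_j h)` only through this. -/
def SpecLMT : Prop :=
  ∀ (p : ℕ) [Fact p.Prime] (_ : p ≠ 2) (m R : ℕ) (_ : 0 < m)
    (C : Fin R → Type v) [∀ j, CommGroup (C j)] [∀ j, Fintype (C j)]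
    (θ : ∀ j, C j → ℤ_[p]) (x : ∀ j, (MonoidAlgebra ℤ_[p] (C j))ˣ)
    (_ : ∀ (e : ℕ) (b : ∀ j, MonoidAlgebra ℤ_[p] (C j)),
      (∀ j, (x j : MonoidAlgebra ℤ_[p] (C j)) ^ (p ^ (e + 1)) =
        (powC ℤ_[p] (C j) p (x j)) ^ (p ^ e) * (1 + (p ^ (e + 1)) • b j)) →
      m • ∑ j, (b j).coeff.sum (fun h a =>
        (PadicInt.toZModPow (e + 1) : ℤ_[p] →+* ZMod (p ^ (e + 1))) (a * θ j h)) = 0)
    (a : ℕ) (_ : 0 < a) (_ : ∀ j, OneModP p ((x j : MonoidAlgebra ℤ_[p] (C j)) ^ a)),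
    ∑ j, ∑ h, ((θ j h : ℤ_[p]) : ℚ_[p]) * lgP p ((x j : MonoidAlgebra ℤ_[p] (C j)) ^ a) h =
      (p : ℚ_[p])⁻¹ * ∑ j, ∑ h, ((θ j (h ^ p) : ℤ_[p]) : ℚ_[p]) *
        lgP p ((x j : MonoidAlgebra ℤ_[p] (C j)) ^ a) h

/-- REK (150 lines, from PHI, LMT, THZ, XVH, `K2.specRED`; see `K2/REL.lean`).

PROOF.  For every `c'` with `IsF n c' (KG p c') X`: PHI for `c'` gives the hypothesis of LMT for
`θ_j(h) = ThC c' (Xv X) z_j (φ_j h)`.  Let `S(c')` be the sum.  If no `φ_j(h)` is conjugate to `c` all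
terms of `S(c)` vanish.  Otherwise let `M = ∏ |C_j|`, prime to `p`, `c^M = 1`, `p k = 1 mod M`,
`c' = c^k`, `c'^p = c`: `c` and `c'` generate the same subgroup, have the same centralizer, so
`SameC c = SameC c'`, `KG p c = KG p c'`, `IsF n c' (KG p c') X`.  `t c t⁻¹ = φ(h)^p` iff
`t c' t⁻¹ = φ(h)`, so `ThC c χ z (φ (h^p)) = ThC c' χ z (φ h)` by THZ.val (same `t`), and
`S(c) = p⁻¹ S(c^k)`, `S(c) = p^(-i) S(c^(k^i))`; `i = totient M`. -/
def SpecREK : Prop :=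
  ∀ (p : ℕ) [Fact p.Prime] (_ : p ≠ 2) (G : Type v) [Group G] (n m R : ℕ) (_ : 0 < n) (_ : 0 < m)
    (C : Fin R → Type v) [∀ j, CommGroup (C j)] [∀ j, Fintype (C j)]
    (_ : ∀ j, ¬ p ∣ Fintype.card (C j)) (φ : ∀ j, C j →* G) (z : Fin R → Ch G)
    (_ : ∀ j, z j ∈ cyc n (fun g => ∀ h : C j, g * φ j h = φ j h * g))
    (x : ∀ j, (MonoidAlgebra ℤ_[p] (C j))ˣ) (_ : RelK p G n m R C φ z x)
    (c : G) (X : List G → ℤ_[p]) (_ : IsF n c (KG p c) X) (a : ℕ) (_ : 0 < a)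
    (_ : ∀ j, OneModP p ((x j : MonoidAlgebra ℤ_[p] (C j)) ^ a)),
    ∑ j, ∑ h, ((ThC c (Xv X) (z j) (φ j h) : ℤ_[p]) : ℚ_[p]) *
      lgP p ((x j : MonoidAlgebra ℤ_[p] (C j)) ^ a) h = 0

/-! ### cocycles -/

/-- UCT (250 lines, from ALT).  A homomorphism from the cycles to `ℤ_p` which vanishes on boundaries
extends to a cocycle.

PROOF.  Lemma: `A` an abelian group, `Z ≤ A`, `A/Z` torsion free (`k a ∈ Z`, `k > 0` imply `a ∈ Z`),
`χ : Z → ℤ_p` a homomorphism.  Then `χ` extends to `A`.  For a finite subset `E` of `A` let `F_E` be the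
set of the functions `ψ : A → ℤ_p` with `ψ = χ` on `Z` and `ψ(a + b) = ψ(a) + ψ(b)` for all `a`, `b` in `E`
(with `ψ(a + b)` the value at `a + b`).  `F_E` is closed in the compact space `A → ℤ_p` (`ℤ_p` is compact,
Tychonoff), `F_(E ∪ E') ⊆ F_E ∩ F_E'`.  `F_E` is not empty: `A_E` := the subgroup generated by `E` and
`Z`; `A_E/Z` is finitely generated and torsion free, hence free (`Module.free_of_finite_type_torsion_free'`),
so `A_E = Z ⊕ Q` and `χ` extends to `A_E` (`0` on `Q`); extend by `0` to a function on `A`.  By compactness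
there is `ψ` in the intersection of all `F_E`: a homomorphism.
Apply it to `A = ch n P`, `Z = cyc n P` (`k a ∈ Z`: `k bd a = 0`, `bd a = 0` since `Ch G` is torsion
free), and let `x(l) = ψ(of l)` for the lists of length `n` with entries in `P`, `0` for the others.
`bdF x l = lift x (bd (of l)) = ψ(bd (of l)) = χ(bd (of l)) = 0` for `|l| = n + 1`, entries in `P`
(`bd (of l)` is in `cyc n P`). -/
def SpecUCT : Prop :=
  ∀ (p : ℕ) [Fact p.Prime] (G : Type v) [Group G] (n : ℕ) (P : G → Prop)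
    (_ : ∀ x y, P x → P y → P (x * y)) (χ : Ch G → ℤ_[p]) (_ : HomC n P χ),
    ∃ x : List G → ℤ_[p], (∀ l : List G, l.length = n + 1 → (∀ g ∈ l, P g) → bdF x l = 0) ∧
      ∀ z ∈ cyc n P, FreeAbelianGroup.lift x z = χ z

/-- CON (350 lines, from ALT).  Alternating, invariant homogeneous cocycles.  `c` of finite order `o`
prime to `p`; `n = 1`, or `G` has no element of order `p`.

PROOF.  Homogeneous form: `y(z :: l) := x` of the list of the quotients `a⁻¹ b` of consecutive entries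
(length `n`), defined for all lists; on `SameC c` lists it is left invariant and `alt y = 0` for length
`n + 2` (`bdF x = 0`).  Define for functions `F` on lists, by recursion on the length,
`Θ F [] = F []`, `Θ F l = Σ_i Σ_(a<o) (-1)^i Θ(F ∘ cons (l_i c^a)) (l without the entry i)`; i.e. `Θ F l` is
`F` extended to the formal sum `Θ l = Σ_i Σ_a (-1)^i cone_(l_i c^a) Θ(l ∖ i)`.  Put `∂ F := alt F`
(pull back along `∂ l = Σ_i (-1)^i (l ∖ i)`).
(1) `Θ (alt F) l = (|l| o) alt (Θ F) l`: for formal sums `∂ Θ l = |l| o Θ(∂ l)`: induction: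
`∂ cone_v = id - cone_v ∂`, so `∂ Θ l = Σ_i Σ_a (-1)^i (Θ(l ∖ i) - cone_(l_i c^a) ∂ Θ(l ∖ i))
= o Θ(∂ l) - Σ_i Σ_a (-1)^i (|l| - 1) o cone_(l_i c^a) Θ(∂ (l ∖ i))`, and
`Σ_i (-1)^i cone_(l_i c^a) Θ(∂(l ∖ i)) = - Σ_j (-1)^j [Σ_i ± cone_(l_i c^a) Θ(l ∖ j ∖ i)]`, the sum over
`a` of which is `- Θ(∂ l)` (the usual sign rule for removing two entries).
(2) `Θ` is alternating: exchanging two neighbouring entries changes the sign (induction: in the sum
over `i` the terms with `i` one of the two places are exchanged, in the others use the induction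
hypothesis).
(3) `Θ l` does not change if an entry is multiplied from the right by `c` (sum over `a`, `c^o = 1`); it
is left equivariant.
`X := Θ y` on lists of length `n + 1`, `X := 0` on other lists: `inv` by (3), `aa` by (2); `cls`:
`(n + 2) o · alt X = Θ (alt y) = 0` on lists of length `n + 2`, and `ℤ_p` is torsion free; all lists
which occur have `SameC c`.
`rc` for `k` in `KG p c`: if `G` has no element of order `p`: `k^(p^j) ∈ ⟨c⟩` has order prime to `p`, so the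
order of `k` is finite and prime to `p`, hence `k ∈ ⟨k^(p^j)⟩ ⊆ ⟨c⟩`: (3).  If `n = 1`: `x` is a
homomorphism on the centralizer of `c`, `X(z, z') = Σ_(a,b<o) (y(z c^a, z' c^b) - y(z' c^a, z c^b)) =
2 o² x(z⁻¹ z')` (`x` vanishes on elements of finite order) and `x(k) = 0`.
(4) Value.  For lists of length `m` let `M_m = m! o^m`.  Define `h` on lists by
`h([]) = 0`, `h(l) = cone_(first l)(Θ l - M l - |l| o h(∂ l))` (formal sums; `M = M_|l|`).  Then
`∂ h(l) = Θ l - M l - |l| o h(∂ l)` by induction: `∂ cone_v = id - cone_v ∂` and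
`∂(Θ l - M l - |l| o h(∂ l)) = |l| o Θ(∂ l) - M ∂ l - |l| o (Θ(∂ l) - M_(|l|-1) ∂ l - 0) = 0`.  `h` is left
equivariant.  For a cycle `z` (inhomogeneous), `y` applied to this identity for `run 1 l`, `|l| = n`:
`0 = y(∂ h) = X(run 1 l) - M x(l) - (n+1) o y(h(∂ run 1 l))` and the sum over `z` of the last term is
`lift (y ∘ h ∘ run 1) (bd z) = 0` (ALT.run).  So `Xv X z = M lift x z`, `M = (n+1)! o^(n+1)`. -/
def SpecCON : Prop :=
  ∀ (p : ℕ) [Fact p.Prime] (_ : p ≠ 2) (G : Type v) [Group G] (n : ℕ) (_ : 0 < n) (c : G)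
    (_ : IsOfFinOrder c) (_ : ¬ p ∣ orderOf c) (_ : n = 1 ∨ ∀ g : G, orderOf g ≠ p)
    (x : List G → ℤ_[p])
    (_ : ∀ l : List G, l.length = n + 1 → (∀ g ∈ l, Cz c g) → bdF x l = 0),
    ∃ (X : List G → ℤ_[p]) (M : ℕ), 0 < M ∧ IsF n c (KG p c) X ∧
      ∀ z ∈ cyc n (Cz c), Xv X z = M • FreeAbelianGroup.lift x z

/-- RCH (60 lines, from REK, UCT, CON, THZ): the relation for all homomorphisms `χ` on the cycles of
the centralizer of `c`.

PROOF.  If `c` is not conjugate to an element of some `φ_j(C_j)` all terms vanish.  Otherwise the order of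
`c` is finite and prime to `p`.  UCT gives `x` with `lift x = χ` on `cyc n (Cz c)`, CON gives `X` with
`Xv X = M lift x`; `ThC c (Xv X) z h = M ThC c χ z h` for `z` in `cyc n (Cz h)`, REK. -/
def SpecRCH : Prop :=
  ∀ (p : ℕ) [Fact p.Prime] (_ : p ≠ 2) (G : Type v) [Group G] (n m R : ℕ) (_ : 0 < n) (_ : 0 < m)
    (_ : n = 1 ∨ ∀ g : G, orderOf g ≠ p)
    (C : Fin R → Type v) [∀ j, CommGroup (C j)] [∀ j, Fintype (C j)]
    (_ : ∀ j, ¬ p ∣ Fintype.card (C j)) (φ : ∀ j, C j →* G) (z : Fin R → Ch G)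
    (_ : ∀ j, z j ∈ cyc n (fun g => ∀ h : C j, g * φ j h = φ j h * g))
    (x : ∀ j, (MonoidAlgebra ℤ_[p] (C j))ˣ) (_ : RelK p G n m R C φ z x)
    (c : G) (χ : Ch G → ℤ_[p]) (_ : HomC n (Cz c) χ) (a : ℕ) (_ : 0 < a)
    (_ : ∀ j, OneModP p ((x j : MonoidAlgebra ℤ_[p] (C j)) ^ a)),
    ∑ j, ∑ h, ((ThC c χ (z j) (φ j h) : ℤ_[p]) : ℚ_[p]) *
      lgP p ((x j : MonoidAlgebra ℤ_[p] (C j)) ^ a) h = 0

end Pool.Agent.Lib.MPb6f35e.KA
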