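import Pool.Agent.Lib.MP_b6f35e_al.KA.SpecF

/-!
# Rational K-theory in all degrees (MP_b6f35e_al), specification G: the algebra of the tensor
# product, descent, the theorem

Captain helper19.  Every statement has its complete proof in the docstring.  The modules TRA, MBA,
AA5, AA4, AA3, AA2 are the modules TRL, MOB, AL5, AL4, AL3, AL2 of `K2` (`K2/SpecE.lean`) with a cycle
`z` in place of an element `z`, `ThC` in place of `Th`, `HomC` in place of `HomOn`.
-/

set_option autoImplicit false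

noncomputable section

namespace Pool.Agent.Lib.MPb6f35e.KA

open Pool.Agent.Lib.MPb6f35e.WH
open Pool.Agent.Lib.MPb6f35e.K2 (SpecLGG Supp)

universe u v w x y

/-! ### the classes of `KH` -/

section

variable {A : Type u} [Ring A]

lemma c1_of {n m : ℕ} {z : Ch (Gl m A)} (h : z ∈ cyc n (fun _ => True)) :
    c1 n m z = D1.cls (RelH n A) ⟨m, z, h⟩ := dif_pos h

lemma c1_not {n m : ℕ} {z : Ch (Gl m A)} (h : z ∉ cyc n (fun _ => True)) : c1 n m z = 0 :=
  dif_neg h

lemma cls_rel {α : Type u} {r : FreeAbelianGroup α → Prop} {x : FreeAbelianGroup α} (h : r x) :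
    (QuotientAddGroup.mk x : D1.Grp r) = 0 :=
  (QuotientAddGroup.eq_zero_iff x).2 (AddSubgroup.subset_closure h)

lemma c1_add {n m : ℕ} {z z' : Ch (Gl m A)} (h : z ∈ cyc n (fun _ => True))
    (h' : z' ∈ cyc n (fun _ => True)) : c1 n m (z + z') = c1 n m z + c1 n m z' := by
  have h'' := add_mem h h'
  rw [c1_of h, c1_of h', c1_of h'']
  have h0 := cls_rel (RelH.add m z z' h h' h'')
  rw [sub_sub] at h0
  exact sub_eq_zero.1 h0

lemma c1_bd {n m : ℕ} {w : Ch (Gl m A)} (h : w ∈ ch (n + 1) (fun _ => True)) :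
    c1 n m (bd w) = 0 := by
  by_cases hb : bd w ∈ cyc n (fun _ => True)
  · rw [c1_of hb]
    exact cls_rel (RelH.bdr m w h hb)
  · exact c1_not hb

lemma c1_block {n a b : ℕ} {w : Ch (Gl a A × Gl b A)} (hw : w ∈ cyc n (fun _ => True))
    (h : cmap (dsum a b) w ∈ cyc n (fun _ => True)) (h' : cmap Prod.fst w ∈ cyc n (fun _ => True))
    (h'' : cmap Prod.snd w ∈ cyc n (fun _ => True)) :
    c1 n (a + b) (cmap (dsum a b) w) = c1 n a (cmap Prod.fst w) + c1 n b (cmap Prod.snd w) := by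
  rw [c1_of h, c1_of h', c1_of h'']
  have h0 := cls_rel (RelH.block a b w hw h h' h'')
  rw [sub_sub] at h0
  exact sub_eq_zero.1 h0

end

/-! ### the algebra of the tensor product -/

/-- The class of a list of generators. -/
def tsum (n : ℕ) (R : Type u) [CommRing R] (G : Type v) [Group G] (l : List (GenT n R G)) :
    TGrp n R G := (l.map (D1.cls (RelT n R G))).sum

section alg

variable (p : ℕ) [Fact p.Prime] {n : ℕ} {R₀ : Type u} [CommRing R₀] (i : R₀ →+* ℤ_[p])
  {G : Type v} [Group G]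

/-- `i(u) = 1 mod p` for the unit `u` of a generator. -/
def One1 (y : GenT n R₀ G) : Prop := OneModP p (MonoidAlgebra.mapRingHom G i y.u.val)

/-- The logarithm of the unit of a generator. -/
def LG (y : GenT n R₀ G) (g : G) : ℚ_[p] := lgP p (MonoidAlgebra.mapRingHom G i y.u.val) g

/-- `Σ_g χ^g(z) log(u)_g` -/
def SG (c : G) (χ : Ch G → ℤ_[p]) (y : GenT n R₀ G) : ℚ_[p] :=
  ∑ᶠ g : G, ((ThC c χ y.z g : ℤ_[p]) : ℚ_[p]) * LG p i y g

/-- The logarithm is concentrated on the generators of `C`. -/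
def Prim (y : GenT n R₀ G) : Prop := ∀ g, LG p i y g ≠ 0 → Subgroup.zpowers g = y.C

end alg

/-- The subgroup of the tensor product generated by the `(C, z, u)` with `C` in the set `𝒞` and
hidden `z`. -/
def DSubS (n p : ℕ) (R : Type u) [CommRing R] (G : Type v) [Group G] (𝒞 : Set (Subgroup G)) :
    AddSubgroup (TGrp n R G) :=
  AddSubgroup.closure {y | ∃ x : GenT n R G, x.C ∈ 𝒞 ∧ Hidden n p x.C x.z ∧
    y = D1.cls (RelT n R G) x}

/-- TSM (60 lines): every element of the tensor product is the class of a list: free abelian groups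
are generated by the generators, and `- (C, z, u) = (C, -z, u)` (relation `add` for `0 + 0` and
`z + (-z)`).  See `KAP.exists_list` in `K2/KAP.lean`. -/
def SpecTSM : Prop :=
  ∀ (n : ℕ) (R : Type u) [CommRing R] (G : Type v) [Group G] (x : TGrp n R G),
    ∃ l : List (GenT n R G), x = tsum n R G l

/-- TRA (150 lines): consequences of the relations, stated with `GenT` and equalities of the data (see
`K2/TRL.lean`): `(C, m z, u) = m (C, z, u)` and `(C, z, u^m) = m (C, z, u)` for integers `m`, products,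
inclusion (relation `conj` with `g = 1`), conjugation, boundaries. -/
structure SpecTRA : Prop where
  addz : ∀ (n : ℕ) (R : Type u) [CommRing R] (G : Type v) [Group G] (a b y : GenT n R G)
    (_ : a.C = y.C) (_ : b.C = y.C) (_ : a.u = y.u) (_ : b.u = y.u) (_ : y.z = a.z + b.z),
    D1.cls (RelT n R G) y = D1.cls (RelT n R G) a + D1.cls (RelT n R G) b
  mulu : ∀ (n : ℕ) (R : Type u) [CommRing R] (G : Type v) [Group G] (a b y : GenT n R G)
    (_ : a.C = y.C) (_ : b.C = y.C) (_ : a.z = y.z) (_ : b.z = y.z) (_ : y.u = a.u * b.u),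
    D1.cls (RelT n R G) y = D1.cls (RelT n R G) a + D1.cls (RelT n R G) b
  zsmulz : ∀ (n : ℕ) (R : Type u) [CommRing R] (G : Type v) [Group G] (a y : GenT n R G) (m : ℤ)
    (_ : a.C = y.C) (_ : a.u = y.u) (_ : y.z = m • a.z),
    D1.cls (RelT n R G) y = m • D1.cls (RelT n R G) a
  zpowu : ∀ (n : ℕ) (R : Type u) [CommRing R] (G : Type v) [Group G] (a y : GenT n R G) (m : ℤ)
    (_ : a.C = y.C) (_ : a.z = y.z) (_ : y.u = a.u ^ m),
    D1.cls (RelT n R G) y = m • D1.cls (RelT n R G) a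
  incl : ∀ (n : ℕ) (R : Type u) [CommRing R] (G : Type v) [Group G] (a y : GenT n R G)
    (_ : a.C ≤ y.C) (_ : a.z = y.z) (_ : a.u = y.u),
    D1.cls (RelT n R G) y = D1.cls (RelT n R G) a
  conj : ∀ (n : ℕ) (R : Type u) [CommRing R] (G : Type v) [Group G] (a y : GenT n R G) (g : G)
    (_ : ∀ h ∈ a.C, g * h * g⁻¹ ∈ y.C) (_ : a.z = cmap (fun x => g⁻¹ * x * g) y.z)
    (_ : MonoidAlgebra.single g 1 * a.u.val = y.u.val * MonoidAlgebra.single g 1),
    D1.cls (RelT n R G) y = D1.cls (RelT n R G) a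
  bdr : ∀ (n : ℕ) (R : Type u) [CommRing R] (G : Type v) [Group G] (y : GenT n R G) (w : Ch G)
    (_ : w ∈ ch (n + 1) (Cen y.C)) (_ : y.z = bd w), D1.cls (RelT n R G) y = 0

/-- MBA (300 lines, from LGG, TRA; adapt `K2/MOB.lean`).  `y` a generator with `i(u) = 1 mod p`: a
positive multiple of its class is a sum of classes of primitive generators over subgroups of `C`,
with the same `z`.  PROOF: see `K2.SpecMOB` (the proof concerns only the units). -/
def SpecMBA : Prop :=
  ∀ (p : ℕ) [Fact p.Prime] (_ : p ≠ 2) (n : ℕ) (R₀ : Type u) [CommRing R₀] (i : R₀ →+* ℤ_[p])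
    (G : Type v) [Group G] (y : GenT n R₀ G) (_ : One1 p i y),
    ∃ (m : ℕ) (l : List (GenT n R₀ G)), 0 < m ∧
      m • D1.cls (RelT n R₀ G) y = tsum n R₀ G l ∧
      (∀ a ∈ l, a.C ≤ y.C ∧ a.z = y.z ∧ One1 p i a ∧ Prim p i a) ∧
      ∀ g, (l.map fun a => LG p i a g).sum = (m : ℚ_[p]) * LG p i y g

/-- AA5 (350 lines, from LGG, TRA; adapt `K2/AL5.lean`).  All generators over the same `D`, and
`Σ χ(z_a) log(u_a)_g = 0` for all `χ` in `HomC n (Cen D)` and all `g`: then a multiple of the sum is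
in the hidden part.

PROOF.  Induction on the length of the list.  If all `z_a` are hidden, `m = 1`.  Otherwise let `x` be
a member of the list with a function `χ : Ch G → ℚ` as in `Hidden` and `χ(x.z) ≠ 0`; we may assume
`χ(x.z) > 0` (otherwise `-χ`).  Let `k > 0` be an integer with `k χ(y.z)` integral for
all `y` in the list, `a := k χ(x.z) > 0`, `a_y := k χ(y.z)` for the other members `y` of the list.
The hypothesis for `χ` (as a function to `ℤ_p`; `0` where the denominator is divisible by `p`)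
times `k`: `a log(x.u) + Σ_y a_y log(y.u) = 0`, so `x.u^a ∏ y.u^(a_y) = 1` (LGG.mul, inj; `i` is
injective).  For each `y` let `y' := (D, a y.z - a_y x.z, y.u)`.  Then `a (x + Σ y) =
(D, x.z, x.u^a) + Σ_y a y = Σ_y (a (D, y.z, y.u) - a_y (D, x.z, y.u)) = Σ_y y'`, and
`Σ_y χ'(y'.z) log(y.u) = a Σ_y χ'(y.z) log(y.u) - χ'(x.z) Σ_y a_y log(y.u) =
- a χ'(x.z) log(x.u) + a χ'(x.z) log(x.u) = 0` for all `χ'` in `HomC n (Cen D)`.  Apply the induction
hypothesis to the `y'`. -/
def SpecAA5 : Prop :=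
  ∀ (p : ℕ) [Fact p.Prime] (_ : p ≠ 2) (n : ℕ) (R₀ : Type u) [CommRing R₀] (i : R₀ →+* ℤ_[p])
    (_ : Function.Injective i) (G : Type v) [Group G] (D : Subgroup G) (l : List (GenT n R₀ G))
    (_ : ∀ y ∈ l, y.C = D ∧ One1 p i y)
    (_ : ∀ χ : Ch G → ℤ_[p], HomC n (Cen D) χ →
      ∀ g, (l.map fun y => (χ y.z : ℚ_[p]) * LG p i y g).sum = 0),
    ∃ m : ℕ, 0 < m ∧ m • tsum n R₀ G l ∈ DSubS n p R₀ G {D}

/-- AA4 (250 lines, from AA5, LGG, TRA, THZ; adapt `K2/AL4.lean`).  All generators primitive over the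
same `D`, and `Σ_g χ^g(z) log(u)_g` summed over the list is `0` for all `c`, `χ`: then a multiple of
the sum is in the hidden part.

PROOF.  Let `c₀` be a generator of `D`, `Hc` the finite set of the `h` in `D` conjugate to `c₀` in
`G`; choose `t_h` with `t_h c₀ t_h⁻¹ = h`; then `t_h D t_h⁻¹ = D` (`h` has the order of `c₀`, so
generates `D`).  For `y` in `l`, `h` in `Hc` let `y_h = (D, t_h⁻¹ z t_h, t_h⁻¹ u t_h)` (the cycle is
`cmap (fun x => t_h⁻¹ x t_h) z`); the class of `y_h` is the class of `y` (TRA.conj), so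
`|Hc| tsum l = Σ_(y,h) y_h`.  Let `χ` be in `HomC n (Cen D)`, `g` in `G`.  If `g` does not generate
`D`, then `log(y_h)_g = log(y)_(t_h g t_h⁻¹) = 0`.
If `g = c` generates `D`: `Cen D` and `Cz c` are equivalent, so `χ` is in `HomC n (Cz c)`.
Write `c = c₀^k`.  The `h'` in `D` conjugate to `c` are the `h^k`, `h` in `Hc`
(`c₀ = c^l`; bijection), `t_h c t_h⁻¹ = h^k`, so `ThC c χ y.z (h^k) = χ(t_h⁻¹ y.z t_h) = χ(y_h.z)`
(THZ.val) and `SG c χ y = Σ_h χ(y_h.z) log(y)_(h^k) = Σ_h χ(y_h.z) log(y_h)_c`.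
Summed over `y`: `0` by hypothesis.  So the list of the `y_h` satisfies the hypothesis of AA5. -/
def SpecAA4 : Prop :=
  ∀ (p : ℕ) [Fact p.Prime] (_ : p ≠ 2) (n : ℕ) (R₀ : Type u) [CommRing R₀] (i : R₀ →+* ℤ_[p])
    (_ : Function.Injective i) (G : Type v) [Group G] (D : Subgroup G) (l : List (GenT n R₀ G))
    (_ : ∀ y ∈ l, y.C = D ∧ One1 p i y ∧ Prim p i y)
    (_ : ∀ (c : G) (χ : Ch G → ℤ_[p]), IsOfFinOrder c → HomC n (Cz c) χ →
      (l.map fun y => SG p i c χ y).sum = 0),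
    ∃ m : ℕ, 0 < m ∧ m • tsum n R₀ G l ∈ DSubS n p R₀ G {D}

/-- AA3 (350 lines, from AA4, LGG, TRA, THZ; adapt `K2/AL3.lean`).  All generators primitive.

PROOF.  Induction on the length of `l`.  `l = []`: trivial.  Let `D = y.C` for the head `y`; `l₁` =
members with `C` conjugate to `D` (in `G`), `l₂` = the others (`List.filter`, `tsum` is the sum of
both).  Claim: both lists satisfy the hypothesis.  Let `c`, `χ` be given.  If
`Subgroup.zpowers c` is conjugate to `D`, then `SG c χ y = 0` for `y` in `l₂`: a nonzero term has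
`g` conjugate to `c` and `⟨g⟩ = y.C` (`Prim`), so `y.C` would be conjugate to `D`.  Otherwise
`SG c χ y = 0` for all `y` in `l₁`, in the same way.  By induction (`l₂` is shorter) a multiple of
`tsum l₂` is in the hidden part.  For `y` in `l₁` choose `g` with `g D g⁻¹ = y.C`, and let
`y' = (D, g⁻¹ z g, g⁻¹ u g)`: same class (TRA.conj), primitive, `= 1 mod p`, and
`SG c χ y' = SG c χ y` (`ThC c χ (g⁻¹ z g) h = ThC c χ z (g h g⁻¹)` for `h` in `D` (THZ.val for `t` and
`g t`; both `0` if `h` is not conjugate to `c`), `log(y')_h = log(y)_(g h g⁻¹)` (LGG.conj), `0` for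
`h` not in `D` (LGG.out), bijection `h ↦ g h g⁻¹`).  Apply AA4 to the `y'`. -/
def SpecAA3 : Prop :=
  ∀ (p : ℕ) [Fact p.Prime] (_ : p ≠ 2) (n : ℕ) (R₀ : Type u) [CommRing R₀] (i : R₀ →+* ℤ_[p])
    (_ : Function.Injective i) (G : Type v) [Group G] (l : List (GenT n R₀ G))
    (_ : ∀ y ∈ l, One1 p i y ∧ Prim p i y)
    (_ : ∀ (c : G) (χ : Ch G → ℤ_[p]), IsOfFinOrder c → HomC n (Cz c) χ →
      (l.map fun y => SG p i c χ y).sum = 0),
    ∃ m : ℕ, 0 < m ∧ m • tsum n R₀ G l ∈ DSubS n p R₀ G {D | ∃ y ∈ l, D = y.C}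

/-- AA2 (250 lines, from AA3, MBA, TRA, LGG; adapt `K2/AL2.lean`).  The general case.

PROOF.  MBA for every `y` in `l`: `m_y`, `l_y`.  Let `m = ∏ m_y`.  Replace the members `a` of `l_y`
by `(C, z, u^(m / m_y))`; the concatenation `l'` satisfies `m tsum l = tsum l'`,
`Σ_(l') SG = m Σ_l SG = 0`; AA3. -/
def SpecAA2 : Prop :=
  ∀ (p : ℕ) [Fact p.Prime] (_ : p ≠ 2) (n : ℕ) (R₀ : Type u) [CommRing R₀] (i : R₀ →+* ℤ_[p])
    (_ : Function.Injective i) (G : Type v) [Group G] (l : List (GenT n R₀ G))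
    (_ : ∀ y ∈ l, One1 p i y)
    (_ : ∀ (c : G) (χ : Ch G → ℤ_[p]), IsOfFinOrder c → HomC n (Cz c) χ →
      (l.map fun y => SG p i c χ y).sum = 0),
    ∃ m : ℕ, 0 < m ∧ m • tsum n R₀ G l ∈ DSubS n p R₀ G {D | ∃ y ∈ l, D ≤ y.C}

/-! ### change of rings -/

/-- The homomorphism of the `GL_m` given by a ring homomorphism. -/
def gm {A : Type u} {B : Type v} [Ring A] [Ring B] (f : A →+* B) (m : ℕ) : Gl m A →* Gl m B :=
  Units.map (RingHom.mapMatrix f).toMonoidHom

/-- The subgroup generated by the images of the `KH n (k[H])`, `H` a subgroup of `G` with `P H`. -/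
def FinQ (n : ℕ) (k : Type u) [CommRing k] (G : Type v) [Group G] (P : Subgroup G → Prop) :
    AddSubgroup (KH n (MonoidAlgebra k G)) :=
  AddSubgroup.closure {y | ∃ (m : ℕ) (z : Ch (Gl m (MonoidAlgebra k G))) (H : Subgroup G),
    P H ∧ z ∈ cyc n (OvH H) ∧ y = c1 n m z}

/-- KFU (120 lines, from ALT, CRS).  `hom`: `QuotientAddGroup.lift` of
`FreeAbelianGroup.lift (fun x => c1 n x.m (cmap (gm f x.m) x.z))`; relations: `c1_add`, `c1_bd`,
`c1_block` (images of cycles are cycles: ALT.nat, ALT.cmap; `gm (dsum x) = dsum (gm x.1, gm x.2)`).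
`kzm`: CRS.nat.  `ov`: coefficients of the images. -/
structure SpecKFU : Prop where
  hom : ∀ (A : Type u) (B : Type v) [Ring A] [Ring B] (f : A →+* B) (n : ℕ),
    ∃ F : KH n A →+ KH n B, ∀ (m : ℕ) (z : Ch (Gl m A)), z ∈ cyc n (fun _ => True) →
      F (c1 n m z) = c1 n m (cmap (gm f m) z)
  kzm : ∀ (R : Type u) (S : Type v) [CommRing R] [CommRing S] (f : R →+* S) (G : Type w) [Group G]
    (y : (MonoidAlgebra R G)ˣ) (z : Ch G),
    cmap (gm (MonoidAlgebra.mapRingHom G f) 1) (kz y z) =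
      kz (Units.map (MonoidAlgebra.mapRingHom G f).toMonoidHom y) z
  ov : ∀ (R : Type u) (S : Type v) [CommRing R] [CommRing S] (f : R →+* S) (G : Type w) [Group G]
    (H : Subgroup G) (n m : ℕ) (z : Ch (Gl m (MonoidAlgebra R G))) (_ : z ∈ cyc n (OvH H)),
    cmap (gm (MonoidAlgebra.mapRingHom G f) m) z ∈ cyc n (OvH H)

/-- FTG (120 lines, adapt `DSSaux` in `K2/DSS.lean`): the map of the tensor products given by a ring
homomorphism `R₀ → R`. -/
def SpecFTG : Prop :=
  ∀ (n : ℕ) (R₀ : Type u) (R : Type w) [CommRing R₀] [CommRing R] (f : R₀ →+* R) (G : Type v)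
    [Group G], ∃ F : TGrp n R₀ G →+ TGrp n R G,
      (∀ (y : GenT n R₀ G) (y' : GenT n R G), y'.C = y.C → y'.z = y.z →
        y'.u = Units.map (MonoidAlgebra.mapRingHom G f).toMonoidHom y.u →
        F (D1.cls (RelT n R₀ G) y) = D1.cls (RelT n R G) y') ∧
      ∀ (p : ℕ) (𝒞 : Set (Subgroup G)), ∀ y ∈ DSubS n p R₀ G 𝒞, F y ∈ DSubS n p R G 𝒞

/-! ### descent to finitely generated rings -/

/-- `ℤ[S]` -/
abbrev RS {R : Type u} [CommRing R] (S : Finset R) : Type u := ↥(Algebra.adjoin ℤ (S : Set R))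

/-- The inclusion of `ℤ[S][G]` into `R[G]`. -/
def iS {R : Type u} [CommRing R] (S : Finset R) (G : Type v) [Group G] :
    MonoidAlgebra (RS S) G →+* MonoidAlgebra R G :=
  MonoidAlgebra.mapRingHom G (Algebra.adjoin ℤ (S : Set R)).val.toRingHom

/-- LFS (180 lines).
`inj`: `Subtype.val` is injective; coefficients, entries, `Units.ext`.
`cinj`: `FreeAbelianGroup.map` of an injective map is injective (left inverse on the range, or
`FreeAbelianGroup.equivFinsupp` and `Finsupp.mapDomain_injective`); `List.map_injective_iff`.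
`gl`, `un`: `S₀` = all coefficients of all entries of the matrix and its inverse (a finite set); for
`S ⊇ S₀` the two matrices come from matrices over `ℤ[S][G]` (a finitely supported function with
values in the subring), which are inverse to each other by injectivity.
`lift`: closure induction for `z` in `ch n P`: a list of `n` elements: `S₀` = the union of the sets for
its entries, `List.map` of the preimages; sums: unions; negatives. -/
structure SpecLFS : Prop where
  inj : ∀ (R : Type u) [CommRing R] (G : Type v) [Group G] (S : Finset R) (m : ℕ),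
    Function.Injective (gm (iS S G) m)
  cinj : ∀ (X : Type u) (Y : Type v) (f : X → Y) (_ : Function.Injective f),
    Function.Injective (cmap f)
  gl : ∀ (R : Type u) [CommRing R] (G : Type v) [Group G] (m : ℕ) (x : Gl m (MonoidAlgebra R G)),
    ∃ S₀ : Finset R, ∀ S, S₀ ⊆ S → ∃ y, gm (iS S G) m y = x
  un : ∀ (R : Type u) [CommRing R] (G : Type v) [Group G] (x : (MonoidAlgebra R G)ˣ),
    ∃ S₀ : Finset R, ∀ S, S₀ ⊆ S → ∃ y, Units.map (iS S G).toMonoidHom y = x
  lift : ∀ (R : Type u) (X : Type v) (Y : Finset R → Type w) (f : ∀ S, Y S → X)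
    (_ : ∀ x, ∃ S₀, ∀ S, S₀ ⊆ S → ∃ y, f S y = x) (n : ℕ) (P : X → Prop) (z : Ch X)
    (_ : z ∈ ch n P), ∃ S₀, ∀ S, S₀ ⊆ S → ∃ z₀ ∈ ch n (fun y => P (f S y)), cmap (f S) z₀ = z

open Classical in
/-- The class over `ℤ[S][G]` of a cycle over `R[G]`; `0` if the cycle is not defined over
`ℤ[S][G]`. -/
def LSf {R : Type u} [CommRing R] (S : Finset R) (G : Type v) [Group G] (n : ℕ)
    (x : GenH n (MonoidAlgebra R G)) : KH n (MonoidAlgebra (RS S) G) :=
  if h : ∃ z₀, z₀ ∈ cyc n (fun _ => True) ∧ cmap (gm (iS S G) x.m) z₀ = x.z then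
    c1 n x.m h.choose else 0

/-- DSK (200 lines, from ALT, LFS).  Descent of relations.

PROOF.  `val`: the preimage is unique (`inj`, `cinj`).  `main`: closure induction: `0`, sums (union of
the two `S₀`), negatives are clear.  Relations: `add`: LFS.gl and LFS.lift (`P` = everything) give `S₀`
such that for `S ⊇ S₀` `z`, `z'` come from chains `z₀`, `z₀'` of degree `n` over `ℤ[S][G]`; they are
cycles by `cinj` and ALT.nat; `val` for `z₀`, `z₀'`, `z₀ + z₀'`, `c1_add`.  `bdr`: `w` comes from `w₀`, `bd w` from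
`bd w₀` (a cycle: degree `n` by ALT.ch, `bd (bd w₀) = 0` by ALT.bdbd), `c1_bd`.  `block`: LFS.lift for the
groups `Gl a × Gl b` (both entries lift for `S` large): `w` comes from a cycle `w₀`; `cmap dsum w` from
`cmap dsum w₀` (`gm` is compatible with `dsum`), the components in the same way; `c1_block`. -/
structure SpecDSK : Prop where
  val : ∀ (R : Type u) [CommRing R] (G : Type v) [Group G] (n : ℕ) (S : Finset R) (m : ℕ)
    (z₀ : Ch (Gl m (MonoidAlgebra (RS S) G))) (_ : z₀ ∈ cyc n (fun _ => True))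
    (h : cmap (gm (iS S G) m) z₀ ∈ cyc n (fun _ => True)),
    LSf S G n ⟨m, cmap (gm (iS S G) m) z₀, h⟩ = c1 n m z₀
  main : ∀ (R : Type u) [CommRing R] (G : Type v) [Group G] (n : ℕ)
    (e : FreeAbelianGroup (GenH n (MonoidAlgebra R G)))
    (_ : e ∈ AddSubgroup.closure {y | RelH n (MonoidAlgebra R G) y}),
    ∃ S₀ : Finset R, ∀ S, S₀ ⊆ S → FreeAbelianGroup.lift (LSf S G n) e = 0

/-- DSF (200 lines, from ALT, KZC, KFU, LFS, DSK, FTG).  Descent of the relation.

PROOF.  The element `k Σ ..` is `Σ_t ε_t cls x_t`, `ε_t = ±1`, `x_t` a cycle over the finite subgroup `H_t`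
(closure induction; the elements of `FinPart`).  So
`e := k Σ_y of ⟨1, kz y.u y.z, _⟩ - Σ_t ε_t of x_t` is in the closure of the relations (KZC: the `kz` are
cycles, `c1_of`; `QuotientAddGroup.eq_zero_iff`).  Let `S` contain the `S₀` of DSK.main for `e`, those of
LFS.un for the `y.u`, and those of LFS.lift (with LFS.gl) for the `x_t.z` with `P = OvH H_t`: `x_t.z`
comes from a cycle `z_t` over `H_t` (the coefficients of a matrix over `ℤ[S][G]` and of its image vanish
at the same places).  Let `y' = (y.C, y.z, u')`, `u'` the unit over `ℤ[S][G]` with image `y.u`; `l'` the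
list of the `y'`.  `kz y.u y.z` is the image of the cycle `kz u' y.z` (KFU.kzm, KZC), so DSK.val and
`lift (LSf S G) e = 0` give `k Σ c1 (kz u' z) = Σ_t ε_t c1 z_t`, in `FinQ` for `𝓗` = the set of the `H_t`.
`F` from FTG. -/
def SpecDSF : Prop :=
  ∀ (n : ℕ) (R : Type u) [CommRing R] (G : Type v) [Group G] (l : List (GenT n R G)) (k : ℕ)
    (_ : k • (l.map fun y => c1 (n + 1) 1 (kz y.u y.z)).sum ∈ FinPart (n + 1) R G),
    ∃ (S : Finset R) (l' : List (GenT n (RS S) G)) (𝓗 : Finset (Subgroup G)),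
      (∀ H ∈ 𝓗, Finite H) ∧
      k • (l'.map fun y => c1 (n + 1) 1 (kz y.u y.z)).sum ∈
        FinQ (n + 1) (RS S) G (fun H => H ∈ 𝓗) ∧
      (∃ F : TGrp n (RS S) G →+ TGrp n R G, F (tsum n (RS S) G l') = tsum n R G l ∧
        ∀ (p : ℕ) (𝒞 : Set (Subgroup G)), ∀ y ∈ DSubS n p (RS S) G 𝒞,
          F y ∈ DSubS n p R G 𝒞) ∧
      l'.map (fun y => y.C) = l.map (fun y => y.C)

/-! ### the theorem -/

/-- PAK (250 lines, from RCH, LGG, THZ, TRA, AA2, KFU, KZC; adapt `K2/PAD.lean`, `K2/PA2.lean`).  Over a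
subring `R₀` of `ℤ_p`, `p` odd and prime to the orders of the groups `C`.

PROOF.  KFU for `R₀[G] → ℤ_p[G]` maps the relation to `KH (n + 1) (ℤ_p[G])` (`|H|` is a unit of `ℤ_p` if
`p` does not divide it).  For `y` in `l` the group `↥y.C` is commutative (`IsCyclic.commGroup`) and
finite, `i(u)` is the image of a unit `x_y` of `ℤ_p[y.C]`.  `ℤ_p[y.C] / p` is finite, so there is a
common `a > 0` with `x_y^a = 1 mod p` (exponent of a finite unit group).  RCH gives for all `c`, `χ`: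
`Σ_y Σ_h ThC c χ z_y h log(x_y^a)_h = 0`, and this is the sum of the `SG` of the list
`l₁ = {(C, z, u^a)}` (LGG.pull, LGG.out).  AA2: `m (tsum l₁) = m a (tsum l)` is in the hidden part. -/
def SpecPAK : Prop :=
  ∀ (p : ℕ) [Fact p.Prime] (_ : p ≠ 2) (n : ℕ) (_ : 0 < n) (R₀ : Type u) [CommRing R₀]
    (i : R₀ →+* ℤ_[p]) (_ : Function.Injective i) (G : Type v) [Group G]
    (_ : n = 1 ∨ ∀ g : G, orderOf g ≠ p) (l : List (GenT n R₀ G))
    (_ : ∀ y ∈ l, ¬ p ∣ Nat.card y.C) (k : ℕ) (_ : 0 < k)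
    (_ : k • (l.map fun y => c1 (n + 1) 1 (kz y.u y.z)).sum ∈
      FinQ (n + 1) R₀ G (fun H => Finite H ∧ ¬ p ∣ Nat.card H)),
    ∃ m : ℕ, 0 < m ∧ m • tsum n R₀ G l ∈ DSubS n p R₀ G {D | ∃ y ∈ l, D ≤ y.C}

/-- MNK (60 lines, from DSF, `SpecCAS`, PAK; adapt `K2/MN2.lean`).

PROOF.  DSF, then `SpecCAS` with a bound larger than `M`, `2`, the orders of the `y.C`, the orders of the
`H` in `𝓗` and the bound of `FewPrimes`; PAK; apply `F`. -/
def SpecMNK : Prop :=
  ∀ (n : ℕ) (_ : 0 < n) (R : Type u) [CommRing R] [IsDomain R] [CharZero R] (G : Type v)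
    [Group G] (_ : n = 1 ∨ FewPrimes G) (l : List (GenT n R G)) (k : ℕ) (_ : 0 < k)
    (_ : k • (l.map fun y => c1 (n + 1) 1 (kz y.u y.z)).sum ∈ FinPart (n + 1) R G) (M : ℕ),
    ∃ p, M < p ∧ p.Prime ∧ ∃ m : ℕ, 0 < m ∧
      m • tsum n R G l ∈ DSubS n p R G {D | ∃ y ∈ l, D ≤ y.C}

/-- HIE (120 lines, from ALT, TRA; see `K2/HID.lean`).
`tors`: `k z = bd w`: `k (C, z, u) = (C, k z, u) = (C, bd w, u) = 0`.
`fg`: let `A` be the quotient of `cyc n (Cen C)` by the boundaries.  Every class is the class of an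
element of `closure F ⊓ cyc n (Cen C)` (`bd w` is in `cyc n (Cen C)` by ALT.ch, ALT.bdbd), a subgroup of
a finitely generated abelian group; so `A` is finitely generated.  If the class of `z` had infinite
order, it would have a nonzero image under a homomorphism `A → ℤ` (a finitely generated abelian group
modulo torsion is free, see `K2/HID.lean`); the composite `χ` with `cyc → A` (`0` on chains outside
`cyc n (Cen C)`) contradicts `Hidden`. -/
structure SpecHIE : Prop where
  tors : ∀ (n : ℕ) (R : Type u) [CommRing R] (G : Type v) [Group G] (p : ℕ)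
    (𝒞 : Set (Subgroup G))
    (_ : ∀ C ∈ 𝒞, Finite C → IsCyclic C → ∀ z ∈ cyc n (Cen C), Hidden n p C z → TorC n C z)
    (y : TGrp n R G) (_ : y ∈ DSubS n p R G 𝒞), IsOfFinAddOrder y
  fg : ∀ (G : Type v) [Group G] (n p : ℕ) (_ : 1 < p) (C : Subgroup G)
    (_ : ∃ F : Finset (Ch G), ∀ z ∈ cyc n (Cen C), ∃ w ∈ ch (n + 1) (Cen C),
      z - bd w ∈ AddSubgroup.closure (F : Set (Ch G)))
    (z : Ch G) (_ : z ∈ cyc n (Cen C)) (_ : Hidden n p C z), TorC n C z

/-- KAQ (200 lines, from ALT, CRS, CNJ, KZC): existence of `κ`.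

PROOF.  `QuotientAddGroup.lift` of `FreeAbelianGroup.lift (fun x => c1 (n + 1) 1 (kz x.u x.z))`; the
`kz x.u x.z` are cycles by KZC.  Relations: `add`: `kz u` is additive, `c1_add`.  `bdr`: `kz u (bd w) =
crs (u1 u) (bd (cmap .. w)) = - bd (crs (u1 u) (cmap .. w))` (ALT.nat; CRS.bd: the entries of
`cmap (fun g => u1 (gU R g)) w` commute with `u1 u` since `g` centralizes `C` and `u` is in `R[C]`), so the
class is `0` (`c1_bd`, CRS.mem).  `mul`: `u u' = u' u` since `C` is commutative; CRS.mul with `P` =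
everything, `u1 (u u') = u1 u * u1 u'`, `c1_bd`, `c1_add` (differences of cycles).  `conj`:
`γ = u1 (gU R g)`, `u1 u = γ⁻¹ * u1 u' * γ`, so `kz u (g⁻¹ z g) = cmap (fun x => γ⁻¹ * x * γ) (kz u' z)`
(CRS.nat, `cmap` of a composite); CNJ: the two cycles differ by a boundary. -/
def SpecKAQ : Prop :=
  ∀ (n : ℕ) (R : Type u) [CommRing R] (G : Type v) [Group G],
    ∃ κ : TGrp n R G →+ KH (n + 1) (MonoidAlgebra R G), IsKap n κ

/-- MAK (80 lines, from TSM, MNK, HIE, KAQ; see `K2/MA2.lean`, `K2/Main.lean`): the theorem.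

PROOF.  `κ` from KAQ.  `x = tsum l` (TSM), `κ x = Σ_y c1 (n+1) 1 (kz y.u y.z)` (`IsKap`, `c1_of`).  First
statement: MNK (`DSubS ≤ DSub`).  Second: the subgroups `D ≤ y.C`, `y` in `l`, are finitely many, all
finite and cyclic; take `M` larger than the bounds of `NoHidden` for all of them; MNK and HIE.tors.
Third: HIE.fg and HIE.tors. -/
def SpecMAK : Prop :=
  ∀ (n : ℕ) (_ : 0 < n) (R : Type u) [CommRing R] [IsDomain R] [CharZero R] (G : Type v)
    [Group G] (_ : n = 1 ∨ FewPrimes G),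
    ∃ κ : TGrp n R G →+ KH (n + 1) (MonoidAlgebra R G), IsKap n κ ∧
      ∀ (x : TGrp n R G) (k : ℕ), 0 < k → k • κ x ∈ FinPart (n + 1) R G →
        (∀ M : ℕ, ∃ p, M < p ∧ p.Prime ∧ ∃ k' : ℕ, 0 < k' ∧ k' • x ∈ DSub n R G p) ∧
        (NoHidden n G → IsOfFinAddOrder x) ∧ (CentFG n G → IsOfFinAddOrder x)

end Pool.Agent.Lib.MPb6f35e.KA
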