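import Pool.Agent.Lib.MP_b6f35e_al.KA.SpecE

/-!
# Rational K-theory in all degrees (MP_b6f35e_al), module THZ: the functions `ThC c χ z`
-/

set_option autoImplicit false

noncomputable section

namespace Pool.Agent.Lib.MPb6f35e.KA

open Pool.Agent.Lib.MPb6f35e.WH Pool.Agent.Lib.MPb6f35e.K2

universe u v w x

namespace THZM

theorem sec_spec {W : Type u} [Group W] {c g : W} (h : ∃ t, t * c * t⁻¹ = g) :
    sec c g * c * (sec c g)⁻¹ = g := by
  unfold sec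
  rw [dif_pos h]
  exact h.choose_spec

theorem cmap_cmap {X : Type u} {Y : Type v} {Z : Type w} (f : X → Y) (g : Y → Z) (z : Ch X) :
    cmap g (cmap f z) = cmap (fun x => g (f x)) z := by
  unfold cmap
  have h : ((FreeAbelianGroup.map (List.map g)).comp (FreeAbelianGroup.map (List.map f)) :
      Ch X →+ Ch Z) = FreeAbelianGroup.map (List.map fun x => g (f x)) := by
    apply FreeAbelianGroup.lift_ext
    intro l
    simp [FreeAbelianGroup.map_of_apply, List.map_map, Function.comp_def]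
  exact DFunLike.congr_fun h z

section

variable {G : Type u} [Group G] {M : Type v} [AddCommGroup M]

theorem cz_conj {c h t g : G} (ht : t * c * t⁻¹ = h) (hg : Cz h g) : Cz c (t⁻¹ * g * t) := by
  have hc : c = t⁻¹ * h * t := by rw [← ht]; group
  unfold Cz at *
  calc t⁻¹ * g * t * c = t⁻¹ * (g * h) * t := by rw [hc]; group
    _ = t⁻¹ * (h * g) * t := by rw [hg]
    _ = c * (t⁻¹ * g * t) := by rw [hc]; group

theorem bd_conj (hALT : SpecALT.{u, u, w}) (t : G) (z : Ch G) :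
    bd (cmap (fun g => t⁻¹ * g * t) z) = cmap (fun g => t⁻¹ * g * t) (bd z) :=
  hALT.nat G G (fun g => t⁻¹ * g * t) (fun a b => by group) z

/-- a conjugate of a chain of the centralizer of `h = t c t⁻¹` -/
theorem conj_ch (hALT : SpecALT.{u, u, w}) (n : ℕ) {c h t : G} (ht : t * c * t⁻¹ = h) {z : Ch G}
    (hz : z ∈ ch n (Cz h)) : cmap (fun g => t⁻¹ * g * t) z ∈ ch n (Cz c) :=
  hALT.cmap G G n (Cz h) (Cz c) (fun g => t⁻¹ * g * t) (fun _ hx => cz_conj ht hx) z hz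

/-- a conjugate of a cycle of the centralizer of `h = t c t⁻¹` -/
theorem conj_cyc (hALT : SpecALT.{u, u, w}) (n : ℕ) {c h t : G} (ht : t * c * t⁻¹ = h) {z : Ch G}
    (hz : z ∈ cyc n (Cz h)) : cmap (fun g => t⁻¹ * g * t) z ∈ cyc n (Cz c) := by
  refine ⟨conj_ch hALT n ht hz.1, ?_⟩
  have h2 : bd z = 0 := hz.2
  show bd (cmap (fun g => t⁻¹ * g * t) z) = 0
  rw [bd_conj hALT t z, h2, map_zero]

theorem ThC_pos {c h : G} (χ : Ch G → M) (z : Ch G) (hh : ∃ t, t * c * t⁻¹ = h) :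
    ThC c χ z h = χ (cmap (fun g => (sec c h)⁻¹ * g * sec c h) z) := by
  unfold ThC
  rw [if_pos hh]

theorem ThC_neg {c h : G} (χ : Ch G → M) (z : Ch G) (hh : ¬ ∃ t, t * c * t⁻¹ = h) :
    ThC c χ z h = 0 := by
  unfold ThC
  rw [if_neg hh]

/-- `χ` as a homomorphism on the cycles -/
def chiH {n : ℕ} {P : G → Prop} {χ : Ch G → M} (hχ : HomC n P χ) : cyc n P →+ M :=
  AddMonoidHom.mk' (fun a => χ a.1) fun a b => hχ.add a.1 a.2 b.1 b.2

theorem chi_zsmul {n : ℕ} {P : G → Prop} {χ : Ch G → M} (hχ : HomC n P χ) (a : Ch G)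
    (ha : a ∈ cyc n P) (m : ℤ) : χ (m • a) = m • χ a := by
  have h := map_zsmul (chiH hχ) m ⟨a, ha⟩
  exact h

theorem val (hALT : SpecALT.{u, u, w}) (hCNJ : SpecCNJ.{u}) (n : ℕ) (c : G) (χ : Ch G → M)
    (hχ : HomC n (Cz c) χ) (h t : G) (ht : t * c * t⁻¹ = h) (z : Ch G) (hz : z ∈ cyc n (Cz h)) :
    ThC c χ z h = χ (cmap (fun g => t⁻¹ * g * t) z) := by
  have hh : ∃ t, t * c * t⁻¹ = h := ⟨t, ht⟩
  rw [ThC_pos χ z hh]
  have hs := sec_spec hh
  set s := sec c h with hs_def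
  have hz1 := conj_cyc hALT n ht hz
  have hz2 := conj_cyc hALT n hs hz
  have hy : Cz c (t⁻¹ * s) := by
    unfold Cz
    have e1 : s * c = h * s := by rw [← hs]; group
    have e2 : t⁻¹ * h = c * t⁻¹ := by rw [← ht]; group
    calc t⁻¹ * s * c = t⁻¹ * (s * c) := by group
      _ = (t⁻¹ * h) * s := by rw [e1]; group
      _ = c * (t⁻¹ * s) := by rw [e2]; group
  have hy' : Cz c (t⁻¹ * s)⁻¹ := by
    unfold Cz at *
    have e : (t⁻¹ * s)⁻¹ * ((t⁻¹ * s) * c) * (t⁻¹ * s)⁻¹ =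
        (t⁻¹ * s)⁻¹ * (c * (t⁻¹ * s)) * (t⁻¹ * s)⁻¹ := by rw [hy]
    have e1 : (t⁻¹ * s)⁻¹ * ((t⁻¹ * s) * c) * (t⁻¹ * s)⁻¹ = c * (t⁻¹ * s)⁻¹ := by group
    have e2 : (t⁻¹ * s)⁻¹ * (c * (t⁻¹ * s)) * (t⁻¹ * s)⁻¹ = (t⁻¹ * s)⁻¹ * c := by group
    rw [e1, e2] at e
    exact e.symm
  obtain ⟨w, hw, e⟩ := hCNJ G n (Cz c)
    (fun a b ha hb => by
      unfold Cz at *
      calc a * b * c = a * (b * c) := by group
        _ = (a * c) * b := by rw [hb]; group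
        _ = c * (a * b) := by rw [ha]; group)
    (t⁻¹ * s)⁻¹ hy' (by rw [inv_inv]; exact hy) (cmap (fun g => t⁻¹ * g * t) z) hz1
  have e3 : cmap (fun x => (t⁻¹ * s)⁻¹ * x * ((t⁻¹ * s)⁻¹)⁻¹) (cmap (fun g => t⁻¹ * g * t) z) =
      cmap (fun g => s⁻¹ * g * s) z := by
    rw [cmap_cmap]
    congr 2
    funext g
    group
  rw [e3] at e
  have hw2 : bd w ∈ cyc n (Cz c) := by
    rw [← e]
    exact AddSubgroup.sub_mem _ hz1 hz2
  have e4 : cmap (fun g => t⁻¹ * g * t) z = cmap (fun g => s⁻¹ * g * s) z + bd w := by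
    rw [← e]; abel
  rw [e4, hχ.add _ hz2 _ hw2, hχ.bdr w hw, add_zero]

end

end THZM

open THZM in
theorem specTHZ (hALT : SpecALT.{u, u, w}) (hCNJ : SpecCNJ.{u}) : SpecTHZ.{u, v} where
  val := fun _ _ _ _ n c χ hχ h t ht z hz => val hALT hCNJ n c χ hχ h t ht z hz
  add := by
    intro G M _ _ n c χ hχ h z z' hz hz'
    by_cases hh : ∃ t, t * c * t⁻¹ = h
    · rw [ThC_pos χ _ hh, ThC_pos χ _ hh, ThC_pos χ _ hh, map_add]
      exact hχ.add _ (conj_cyc hALT n (sec_spec hh) hz) _ (conj_cyc hALT n (sec_spec hh) hz')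
    · rw [ThC_neg χ _ hh, ThC_neg χ _ hh, ThC_neg χ _ hh, add_zero]
  zsmul := by
    intro G M _ _ n c χ hχ h z hz m
    by_cases hh : ∃ t, t * c * t⁻¹ = h
    · rw [ThC_pos χ _ hh, ThC_pos χ _ hh, map_zsmul]
      exact chi_zsmul hχ _ (conj_cyc hALT n (sec_spec hh) hz) m
    · rw [ThC_neg χ _ hh, ThC_neg χ _ hh, smul_zero]
  bdr := by
    intro G M _ _ n c χ hχ h w hw
    by_cases hh : ∃ t, t * c * t⁻¹ = h
    · rw [ThC_pos χ _ hh, ← bd_conj hALT]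
      exact hχ.bdr _ (conj_ch hALT (n + 1) (sec_spec hh) hw)
    · exact ThC_neg χ _ hh
  zero := fun _ _ _ _ _ χ z _ hh => ThC_neg χ z hh

end Pool.Agent.Lib.MPb6f35e.KA
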